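import Pool.Agent.Lib.H59W.ADefs
import Pool.Agent.Lib.Sieve.Fundamental

/-!
# Chunk A0: the sieve in a residue class
-/

open Finset Polynomial

namespace Pool.Agent.Lib.H59W

open Pool.Agent.Lib.H33B (Sys NoFix wF FS_D)
open Pool.Agent.Lib.Sieve (sprimes)

open Classical in
/-- the removed residue classes -/
noncomputable def a0_Om (P : ℤ[X]) (q b p : ℕ) : Finset (ZMod p) :=
  if p.Prime ∧ ¬ p ∣ q then
    ((range p).filter (fun a : ℕ => (p : ℤ) ∣ (H33B.FS_P P q b).eval (a : ℤ))).image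
      (fun a : ℕ => (a : ZMod p))
  else ∅

theorem a0_card (P : ℤ[X]) (q b p : ℕ) (hp : p.Prime) (hq : ¬ p ∣ q) :
    (a0_Om P q b p).card = H59.rootCount P p := by
  classical
  unfold a0_Om
  rw [if_pos ⟨hp, hq⟩, card_image_of_injOn, ← H33B.FS_root P b hp hq]
  · unfold H59.rootCount
    rfl
  · intro a ha c hc h
    rw [mem_coe, mem_filter, mem_range] at ha hc
    have h1 : (a : ZMod p) = (c : ZMod p) := h
    rw [ZMod.natCast_eq_natCast_iff] at h1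
    unfold Nat.ModEq at h1
    rwa [Nat.mod_eq_of_lt ha.1, Nat.mod_eq_of_lt hc.1] at h1

theorem a0_empty (P : ℤ[X]) (q b p : ℕ) (hq : p ∣ q) : a0_Om P q b p = ∅ := by
  unfold a0_Om
  rw [if_neg fun h => h.2 hq]

theorem a0_mem (P : ℤ[X]) (q b p u : ℕ) (hp : p.Prime) :
    ((u : ℤ) : ZMod p) ∈ a0_Om P q b p ↔
      ¬ p ∣ q ∧ (p : ℤ) ∣ P.eval ((q * u + b : ℕ) : ℤ) := by
  classical
  by_cases hq : p ∣ q
  · rw [a0_empty P q b p hq]
    simp [hq]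
  · unfold a0_Om
    rw [if_pos ⟨hp, hq⟩, mem_image]
    constructor
    · rintro ⟨a, ha, h⟩
      rw [mem_filter, mem_range] at ha
      refine ⟨hq, ?_⟩
      rw [← H33B.FS_eval, ← H59.dvd_eval_mod_iff]
      have h1 : (a : ZMod p) = (u : ZMod p) := by
        rw [h]
        simp
      rw [ZMod.natCast_eq_natCast_iff] at h1
      unfold Nat.ModEq at h1
      rw [← h1, H59.dvd_eval_mod_iff]
      exact ha.2
    · rintro ⟨_, h⟩
      refine ⟨u % p, ?_, ?_⟩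
      · rw [mem_filter, mem_range]
        refine ⟨Nat.mod_lt _ hp.pos, ?_⟩
        rw [H59.dvd_eval_mod_iff, H33B.FS_eval]
        exact h
      · rw [ZMod.natCast_mod]
        simp

theorem a0_prod (P : ℤ[X]) (q b w z u : ℕ) [Decidable (∀ p : ℕ, p.Prime → w < p → p ≤ z →
        ¬ p ∣ q → ¬ (p : ℤ) ∣ P.eval ((q * u + b : ℕ) : ℤ))] :
    ∏ p ∈ sprimes w z, (1 - Sieve.chi (a0_Om P q b) p (u : ℤ)) =
      if (∀ p : ℕ, p.Prime → w < p → p ≤ z → ¬ p ∣ q → ¬ (p : ℤ) ∣ P.eval ((q * u + b : ℕ) : ℤ))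
      then (1 : ℝ) else 0 := by
  split_ifs with h
  · refine prod_eq_one fun p hp => ?_
    obtain ⟨h1, h2, h3⟩ := Sieve.mem_sprimes.1 hp
    unfold Sieve.chi
    rw [if_neg, sub_zero]
    rw [a0_mem P q b p u h1]
    rintro ⟨h4, h5⟩
    exact h p h1 h2 h3 h4 h5
  · push Not at h
    obtain ⟨p, h1, h2, h3, h4, h5⟩ := h
    refine prod_eq_zero (Sieve.mem_sprimes.2 ⟨h1, h2, h3⟩) ?_
    unfold Sieve.chi
    rw [if_pos ((a0_mem P q b p u h1).2 ⟨h4, h5⟩), sub_self]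

theorem a0_sum (f : ℤ → ℝ) (a M : ℕ) :
    ∑ u ∈ Ico (a : ℤ) ((a : ℤ) + M), f u = ∑ u ∈ Ico a (a + M), f (u : ℤ) := by
  have h : Ico (a : ℤ) ((a : ℤ) + M) = (Ico a (a + M)).map Nat.castEmbedding := by
    ext x
    rw [mem_map, mem_Ico]
    constructor
    · rintro ⟨h1, h2⟩
      refine ⟨x.toNat, ?_, ?_⟩
      · rw [mem_Ico]
        omega
      · change ((x.toNat : ℕ) : ℤ) = x
        omega
    · rintro ⟨y, hy, rfl⟩
      rw [mem_Ico] at hy
      change (a : ℤ) ≤ (y : ℤ) ∧ (y : ℤ) < (a : ℤ) + M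
      omega
  rw [h, sum_map]
  rfl

open Classical in
/-- Proof. `Sieve.fundamental_sum` with `k = FS_D F` and `Ω p = ∅` if `p ∣ q`, otherwise `Ω p` = the `u : ZMod p` for which
`∏ F_i (q u + b)` is `0` in `ZMod p` (i.e. `(H33B.FS_P (∏ i, F i) q b).map (Int.castRingHom (ZMod p))` vanishes at `u`; its number is
`rootCount (FS_P (∏ i, F i) q b) p = wF F p`, `H33B.FS_root`; a bijection of `ZMod p` with `range p`), `wF F p ≤ FS_D F` (`H33B.FS_wle`). The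
product `∏ (1 - chi Ω p u)` is `1` if `u` is counted and `0` otherwise; `∏ (1 - dens Ω p)` is the product below. (`a = u0`.) -/
theorem sieve_class {g : ℕ} (F : Fin g → ℤ[X]) (hF : Sys F) (q b z u0 M : ℕ) (hq : 1 ≤ q)
    (hz : 2 ≤ z) (hM : z ^ (198 * FS_D F + 26) ≤ M) :
    (M : ℝ) / 4 * ∏ p ∈ (sprimes (2 * FS_D F + 2) z).filter (fun p => ¬ p ∣ q),
        (1 - (wF F p : ℝ) / p) ≤
      (((Ico u0 (u0 + M)).filter (fun u : ℕ => ∀ p : ℕ, p.Prime → 2 * FS_D F + 2 < p → p ≤ z →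
        ¬ p ∣ q → ¬ (p : ℤ) ∣ (∏ i, F i).eval ((q * u + b : ℕ) : ℤ))).card : ℝ) ∧
    (((Ico u0 (u0 + M)).filter (fun u : ℕ => ∀ p : ℕ, p.Prime → 2 * FS_D F + 2 < p → p ≤ z →
        ¬ p ∣ q → ¬ (p : ℤ) ∣ (∏ i, F i).eval ((q * u + b : ℕ) : ℤ))).card : ℝ) ≤
      3 * (M : ℝ) * ∏ p ∈ (sprimes (2 * FS_D F + 2) z).filter (fun p => ¬ p ∣ q),
        (1 - (wF F p : ℝ) / p) := by
  have h1 := Sieve.fundamental_sum (k := FS_D F) (z := z) (Ω := a0_Om (∏ i, F i) q b) hz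
    (fun p hp _ _ => by
      by_cases hpq : p ∣ q
      · rw [a0_empty _ q b p hpq]
        simp
      · rw [a0_card _ q b p hp hpq]
        exact H33B.FS_wle F hF p hp) (u0 : ℤ) M hM
  have h2 : ∏ p ∈ sprimes (2 * FS_D F + 2) z, (1 - Sieve.dens (a0_Om (∏ i, F i) q b) p) =
      ∏ p ∈ (sprimes (2 * FS_D F + 2) z).filter (fun p => ¬ p ∣ q), (1 - (wF F p : ℝ) / p) := by
    rw [prod_filter]
    refine prod_congr rfl fun p hp => ?_
    have hpp := (Sieve.mem_sprimes.1 hp).1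
    unfold Sieve.dens
    by_cases hpq : p ∣ q
    · rw [if_neg (not_not.2 hpq), a0_empty _ q b p hpq]
      simp
    · rw [if_pos hpq, a0_card _ q b p hpp hpq]
      rfl
  have h3 : ∑ u ∈ Ico (u0 : ℤ) ((u0 : ℤ) + M), ∏ p ∈ sprimes (2 * FS_D F + 2) z,
        (1 - Sieve.chi (a0_Om (∏ i, F i) q b) p u) =
      (((Ico u0 (u0 + M)).filter (fun u : ℕ => ∀ p : ℕ, p.Prime → 2 * FS_D F + 2 < p → p ≤ z →
        ¬ p ∣ q → ¬ (p : ℤ) ∣ (∏ i, F i).eval ((q * u + b : ℕ) : ℤ))).card : ℝ) := by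
    rw [a0_sum, ← sum_boole]
    refine sum_congr rfl fun u _ => ?_
    exact a0_prod _ q b _ z u
  rw [h2, h3] at h1
  exact h1

end Pool.Agent.Lib.H59W
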