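import Pool.Agent.Lib.H59W.ADefs

/-!
# Chunk A0B: Mertens' formula for a system
-/

open Finset Polynomial

namespace Pool.Agent.Lib.H59W

open Pool.Agent.Lib.H33B (Sys NoFix wF FS_D)

theorem a0b_sub {s t : Finset ℕ} (f : ℕ → ℝ) (h : s ⊆ t) (h0 : ∀ p ∈ t, 0 ≤ f p)
    (h1 : ∀ p ∈ t, f p ≤ 1) : ∏ p ∈ t, f p ≤ ∏ p ∈ s, f p := by
  rw [← prod_sdiff h]
  have h2 : ∏ p ∈ t \ s, f p ≤ 1 :=
    prod_le_one (fun p hp => h0 p (mem_sdiff.1 hp).1) fun p hp => h1 p (mem_sdiff.1 hp).1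
  have h3 : 0 ≤ ∏ p ∈ s, f p := prod_nonneg fun p hp => h0 p (h hp)
  exact mul_le_of_le_one_left h3 h2

theorem a0b_low {z : ℕ} (hz : 2 ≤ z) :
    1 / (500 * Real.log z) ≤ ∏ p ∈ Nat.primesBelow z, (1 - (p : ℝ)⁻¹) := by
  have hlog : 0 < Real.log z := Real.log_pos (by exact_mod_cast (by omega : 1 < z))
  have hf : ∀ p : ℕ, p.Prime → 0 < 1 - (p : ℝ)⁻¹ ∧ 1 - (p : ℝ)⁻¹ ≤ 1 := by
    intro p hp
    have h2 : (1 : ℝ) < p := by exact_mod_cast hp.one_lt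
    have h3 := inv_lt_one_of_one_lt₀ h2
    have h4 : 0 ≤ (p : ℝ)⁻¹ := by positivity
    constructor <;> linarith
  have h1 := Helper57.prod_one_sub_inv_inv_le z hz
  rw [prod_inv_distrib] at h1
  have h2 : 0 < ∏ p ∈ Sieve.primesUpTo z, (1 - 1 / (p : ℝ)) := by
    refine prod_pos fun p hp => ?_
    rw [one_div]
    exact (hf p (Sieve.mem_primesUpTo.1 hp).1).1
  have h3 : 1 / (500 * Real.log z) ≤ ∏ p ∈ Sieve.primesUpTo z, (1 - 1 / (p : ℝ)) := by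
    rw [one_div, inv_le_comm₀ (by positivity) h2]
    exact h1
  refine h3.trans ?_
  have h4 : ∏ p ∈ Sieve.primesUpTo z, (1 - 1 / (p : ℝ)) =
      ∏ p ∈ Sieve.primesUpTo z, (1 - (p : ℝ)⁻¹) := by
    refine prod_congr rfl fun p _ => ?_
    rw [one_div]
  rw [h4]
  refine a0b_sub _ (fun p hp => ?_) (fun p hp => ?_) (fun p hp => ?_)
  · exact Sieve.mem_primesUpTo.2 ⟨Nat.prime_of_mem_primesBelow hp,
      (Nat.lt_of_mem_primesBelow hp).le⟩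
  · exact (hf p (Sieve.mem_primesUpTo.1 hp).1).1.le
  · exact (hf p (Sieve.mem_primesUpTo.1 hp).1).2

/-- Proof. Upper bound: `H33B.FS_mert`. Lower bound: `H33B.FS_bh`, `H33B.bh_bounds` (`bhTrunc F 1 z ≥ c`) and
`∏_{p < z} (1 - 1/p) ≥ c/log z` for `z ≥ 2` (`Sieve.sum_inv_le` and `Sieve.prod_one_sub_ge`-like: `1 - 1/p ≥ exp (-1/p - 1/p²·2)`; or
`H59C.mertens` in `H59C/MER0.lean`). -/
theorem mert {g : ℕ} (F : Fin g → ℤ[X]) (hF : Sys F) (hN : NoFix F) : ∃ c C : ℝ, 0 < c ∧ 0 < C ∧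
    ∀ z : ℕ, 2 ≤ z → c / Real.log z ^ g ≤ ∏ p ∈ Nat.primesBelow z, (1 - (wF F p : ℝ) / p) ∧
      ∏ p ∈ Nat.primesBelow z, (1 - (wF F p : ℝ) / p) ≤ C / Real.log z ^ g := by
  obtain ⟨C, hC, h1⟩ := H33B.FS_mert F hF hN
  obtain ⟨c, C2, hc, h2⟩ := H33B.bh_bounds F hF hN
  refine ⟨c / 500 ^ g, C, by positivity, hC, fun z hz => ⟨?_, ?_⟩⟩
  · have hlog : 0 < Real.log z := Real.log_pos (by exact_mod_cast (by omega : 1 < z))
    rw [H33B.FS_bh F hN z]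
    have h3 : (1 / (500 * Real.log z)) ^ g ≤ (∏ p ∈ Nat.primesBelow z, (1 - (p : ℝ)⁻¹)) ^ g :=
      pow_le_pow_left₀ (by positivity) (a0b_low hz) g
    calc c / 500 ^ g / Real.log z ^ g = c * (1 / (500 * Real.log z)) ^ g := by
          rw [div_pow, one_pow, mul_pow]
          field_simp
      _ ≤ H33B.bhTrunc F 1 z * (∏ p ∈ Nat.primesBelow z, (1 - (p : ℝ)⁻¹)) ^ g :=
          mul_le_mul (h2 z).1 h3 (by positivity) (hc.le.trans (h2 z).1)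
  · refine (h1 z hz).trans (le_of_eq ?_)
    rw [div_pow, one_pow, mul_one_div]

end Pool.Agent.Lib.H59W
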