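import Pool.Agent.Lib.H59W.A0
import Pool.Agent.Lib.H59W.A0B

/-!
# Chunk A1: the upper bound
-/

open Finset Polynomial

namespace Pool.Agent.Lib.H59W

open Pool.Agent.Lib.H33B (Sys NoFix wF FS_D)
open Pool.Agent.Lib.Sieve (sprimes)

theorem a1_fac {g : ℕ} (F : Fin g → ℤ[X]) (hF : Sys F) (hN : NoFix F) (p : ℕ) (hp : p.Prime) :
    (1 - (wF F p : ℝ) / p)⁻¹ ≤ 2 * (FS_D F : ℝ) + 2 := by
  obtain ⟨h2, h3⟩ := H33B.FS_fac F hN p hp
  have hp0 : (0 : ℝ) < p := by exact_mod_cast hp.pos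
  have hD0 : (0 : ℝ) ≤ FS_D F := Nat.cast_nonneg _
  rcases le_or_gt (2 * FS_D F) p with h | h
  · have h4 : (wF F p : ℝ) / p ≤ 1 / 2 := by
      rw [div_le_div_iff₀ hp0 (by norm_num)]
      have h5 := H33B.FS_wle F hF p hp
      have h6 : (wF F p : ℝ) * 2 ≤ p := by exact_mod_cast (by omega : wF F p * 2 ≤ p)
      linarith
    have h5 : (1 - (wF F p : ℝ) / p)⁻¹ ≤ (1 / 2 : ℝ)⁻¹ := inv_anti₀ (by norm_num) (by linarith)
    rw [one_div, inv_inv] at h5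
    linarith
  · have h4 : (wF F p : ℝ) + 1 ≤ p := by exact_mod_cast H33B.wF_lt F hN p hp
    have h5 : 1 / (p : ℝ) ≤ 1 - (wF F p : ℝ) / p := by
      rw [le_sub_iff_add_le, ← add_div, div_le_one hp0]
      linarith
    have h6 := inv_anti₀ (by positivity) h5
    rw [one_div, inv_inv] at h6
    have h7 : (p : ℝ) ≤ 2 * (FS_D F : ℝ) + 2 := by
      exact_mod_cast (by omega : p ≤ 2 * FS_D F + 2)
    linarith

/-- the sieve product -/
theorem a1_prod {g : ℕ} (F : Fin g → ℤ[X]) (hF : Sys F) (hN : NoFix F) : ∃ C : ℝ, 0 < C ∧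
    ∀ z q : ℕ, 1 ≤ z → 1 ≤ q →
      ∏ p ∈ (sprimes (2 * FS_D F + 2) z).filter (fun p => ¬ p ∣ q), (1 - (wF F p : ℝ) / p) ≤
        C * (2 * (FS_D F : ℝ) + 2) ^ q.primeFactors.card / Real.log ((z + 1 : ℕ) : ℝ) ^ g := by
  classical
  obtain ⟨_, C, _, hC, h1⟩ := mert F hF hN
  have hfac := H33B.FS_fac F hN
  set A : Finset ℕ := Sieve.primesUpTo (2 * FS_D F + 2) with hA
  have ha : 0 < ∏ p ∈ A, (1 - (wF F p : ℝ) / p) :=
    prod_pos fun p hp => (hfac p (Sieve.mem_primesUpTo.1 hp).1).1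
  refine ⟨C / ∏ p ∈ A, (1 - (wF F p : ℝ) / p), by positivity, fun z q hz hq => ?_⟩
  have h2 := (h1 (z + 1) (by omega)).2
  set S : Finset ℕ := (sprimes (2 * FS_D F + 2) z).filter (fun p => ¬ p ∣ q) with hS
  set B : Finset ℕ := q.primeFactors with hB
  have hL : 0 < Real.log ((z + 1 : ℕ) : ℝ) :=
    Real.log_pos (by exact_mod_cast (by omega : 1 < z + 1))
  have hb : 0 < ∏ p ∈ B, (1 - (wF F p : ℝ) / p) :=
    prod_pos fun p hp => (hfac p (Nat.prime_of_mem_primeFactors hp)).1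
  have hs : 0 < ∏ p ∈ S, (1 - (wF F p : ℝ) / p) :=
    prod_pos fun p hp => (hfac p (Sieve.mem_sprimes.1 (mem_filter.1 hp).1).1).1
  have hST : S ⊆ Nat.primesBelow (z + 1) := by
    intro p hp
    obtain ⟨h3, _, h4⟩ := Sieve.mem_sprimes.1 (mem_filter.1 hp).1
    exact Nat.mem_primesBelow.2 ⟨by omega, h3⟩
  have hsub : Nat.primesBelow (z + 1) \ S ⊆ A ∪ B := by
    intro p hp
    rw [mem_sdiff, hS, mem_filter, Sieve.mem_sprimes] at hp
    obtain ⟨h3, h4⟩ := hp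
    have h5 := Nat.prime_of_mem_primesBelow h3
    have h6 := Nat.lt_of_mem_primesBelow h3
    rw [mem_union, hA, Sieve.mem_primesUpTo, hB, Nat.mem_primeFactors]
    by_cases h7 : p ≤ 2 * FS_D F + 2
    · exact Or.inl ⟨h5, h7⟩
    · right
      by_cases h8 : p ∣ q
      · exact ⟨h5, h8, by omega⟩
      · exact absurd ⟨⟨h5, by omega, by omega⟩, h8⟩ h4
  have hpr : ∀ p ∈ A ∪ B, p.Prime := by
    intro p hp
    rw [mem_union] at hp
    rcases hp with hp | hp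
    · exact (Sieve.mem_primesUpTo.1 hp).1
    · exact Nat.prime_of_mem_primeFactors hp
  have h3 : ∏ p ∈ A ∪ B, (1 - (wF F p : ℝ) / p) ≤
      ∏ p ∈ Nat.primesBelow (z + 1) \ S, (1 - (wF F p : ℝ) / p) :=
    a0b_sub _ hsub (fun p hp => (hfac p (hpr p hp)).1.le) fun p hp => (hfac p (hpr p hp)).2
  have h4 : (∏ p ∈ A, (1 - (wF F p : ℝ) / p)) * ∏ p ∈ B, (1 - (wF F p : ℝ) / p) ≤
      ∏ p ∈ A ∪ B, (1 - (wF F p : ℝ) / p) := by
    rw [← prod_union_inter]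
    refine mul_le_of_le_one_right (prod_nonneg fun p hp => (hfac p (hpr p hp)).1.le) ?_
    exact prod_le_one (fun p hp => (hfac p (hpr p (mem_union_left _ (mem_inter.1 hp).1))).1.le)
      fun p hp => (hfac p (hpr p (mem_union_left _ (mem_inter.1 hp).1))).2
  have h5 : 1 ≤ (2 * (FS_D F : ℝ) + 2) ^ B.card * ∏ p ∈ B, (1 - (wF F p : ℝ) / p) := by
    have h6 : (∏ p ∈ B, (1 - (wF F p : ℝ) / p))⁻¹ ≤ (2 * (FS_D F : ℝ) + 2) ^ B.card := by
      rw [← prod_inv_distrib, ← prod_const]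
      refine prod_le_prod (fun p hp => ?_) fun p hp =>
        a1_fac F hF hN p (Nat.prime_of_mem_primeFactors hp)
      exact (inv_pos.2 (hfac p (Nat.prime_of_mem_primeFactors hp)).1).le
    have h7 := mul_le_mul_of_nonneg_right h6 hb.le
    rwa [inv_mul_cancel₀ hb.ne'] at h7
  rw [← prod_sdiff hST] at h2
  set s := ∏ p ∈ S, (1 - (wF F p : ℝ) / p) with hsd
  set a := ∏ p ∈ A, (1 - (wF F p : ℝ) / p) with had
  set b := ∏ p ∈ B, (1 - (wF F p : ℝ) / p) with hbd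
  have h6 : a * b * s ≤ C / Real.log ((z + 1 : ℕ) : ℝ) ^ g :=
    (mul_le_mul_of_nonneg_right (h4.trans h3) hs.le).trans h2
  have hD : 0 < (2 * (FS_D F : ℝ) + 2) ^ B.card := by positivity
  calc s ≤ s * ((2 * (FS_D F : ℝ) + 2) ^ B.card * b) := le_mul_of_one_le_right hs.le h5
    _ = (2 * (FS_D F : ℝ) + 2) ^ B.card / a * (a * b * s) := by
        field_simp
    _ ≤ (2 * (FS_D F : ℝ) + 2) ^ B.card / a * (C / Real.log ((z + 1 : ℕ) : ℝ) ^ g) :=
        mul_le_mul_of_nonneg_left h6 (by positivity)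
    _ = _ := by
        field_simp

theorem a1_grow (K : ℝ) : ∃ x0 : ℕ, 3 ≤ x0 ∧ ∀ x : ℕ, x0 ≤ x →
    Real.log x ^ K ≤ (x : ℝ) ^ (1 / 2 : ℝ) := by
  have h1 : ∀ᶠ x : ℝ in Filter.atTop, Real.log x ^ |K| ≤ x ^ (1 / 2 : ℝ) := by
    have h2 := (isLittleO_log_rpow_rpow_atTop |K| (by norm_num : (0 : ℝ) < 1 / 2)).bound
      (zero_lt_one)
    filter_upwards [h2, Filter.eventually_gt_atTop 1] with x hx hx1
    have hlx : 0 < Real.log x := Real.log_pos hx1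
    rw [Real.norm_of_nonneg (Real.rpow_nonneg hlx.le _),
      Real.norm_of_nonneg (Real.rpow_nonneg (by linarith) _), one_mul] at hx
    exact hx
  obtain ⟨x0, hx0⟩ := Filter.eventually_atTop.1
    (tendsto_natCast_atTop_atTop (R := ℝ) |>.eventually h1)
  refine ⟨max x0 3, le_max_right _ _, fun x hx => ?_⟩
  have hx3 : (3 : ℝ) ≤ x := by exact_mod_cast (le_max_right _ _).trans hx
  have h4 : 1 ≤ Real.log x := by
    rw [Real.le_log_iff_exp_le (by linarith)]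
    linarith [Real.exp_one_lt_d9]
  exact (Real.rpow_le_rpow_of_exponent_le h4 (le_abs_self K)).trans
    (hx0 x ((le_max_left _ _).trans hx))

/-- The primes dividing `q` are not used.

Proof. `k = FS_D F`, `m = min δ (1/(400 k + 60))`, `z = ⌊x^m⌋`, so `z ≤ x^δ` and `z^(198 k + 26) ≤ M = x/q + 1` for large `x` (`q ≤ (log x)^K ≤ √x`).
The `n ≤ x` with `n ≡ b [MOD q]` are `n = q u + b'`, `b' = b % q`, `u < M`. Every `n` counted has no prime `p ≤ z`, `p ∤ q`, dividing `∏ F_i (n)`: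
`sieve_class` (upper bound; `u0 = 0`). The product over `2k + 2 < p ≤ z`, `p ∤ q` is at most
`∏_{p ≤ z} (1 - wF F p/p) / (∏_{p ≤ 2k + 2} (1 - wF F p/p) ∏_{p ∣ q} (1 - wF F p/p))` (all factors are in `(0, 1]`, `H33B.FS_fac`), and
`(1 - wF F p/p)⁻¹ ≤ max 2 (2k)`: `≤ 2` if `p ≥ 2 wF`, otherwise `≤ p ≤ 2 k`; so `∏_{p ∣ q} ≤ (2k + 2)^(ω(q))`. With `mert`
(`log z ≥ (m/2) log x`) and `M ≤ 2 x/q`. -/
theorem upper_rough {g : ℕ} (F : Fin g → ℤ[X]) (hF : Sys F) (hN : NoFix F) (δ : ℝ) (hδ : 0 < δ) :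
    ∃ D : ℝ, 1 ≤ D ∧ ∀ K : ℝ, ∃ x0 : ℕ, ∀ x : ℕ, x0 ≤ x → ∀ q b : ℕ, Squarefree q →
      (q : ℝ) ≤ Real.log x ^ K →
      (cnt (fun n => n ≡ b [MOD q] ∧ ∀ i, ∀ p : ℕ, p.Prime → ¬ p ∣ q →
        (p : ℤ) ∣ (F i).eval (n : ℤ) → (x : ℝ) ^ δ < p) x : ℝ) ≤
        D ^ (q.primeFactors.card + 1) * (x / Real.log x ^ g) / q := by
  classical
  obtain ⟨C, hC, hprod⟩ := a1_prod F hF hN
  have hk0 : (0 : ℝ) ≤ FS_D F := Nat.cast_nonneg _
  set m : ℝ := min δ (1 / (400 * (FS_D F : ℝ) + 60)) with hmd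
  have hm : 0 < m := lt_min hδ (by positivity)
  have hmδ : m ≤ δ := min_le_left _ _
  have hm2 : m * (198 * (FS_D F : ℝ) + 26) ≤ 1 / 2 := by
    have h1 : m ≤ 1 / (400 * (FS_D F : ℝ) + 60) := min_le_right _ _
    have h2 : m * (198 * (FS_D F : ℝ) + 26) ≤
        1 / (400 * (FS_D F : ℝ) + 60) * (198 * (FS_D F : ℝ) + 26) :=
      mul_le_mul_of_nonneg_right h1 (by positivity)
    refine h2.trans ?_
    rw [one_div_mul_eq_div, div_le_div_iff₀ (by positivity) (by norm_num)]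
    linarith
  refine ⟨max (6 * C / m ^ g) (2 * (FS_D F : ℝ) + 2), ?_, fun K => ?_⟩
  · refine le_max_of_le_right ?_
    linarith
  obtain ⟨x1, hx1, hgrow⟩ := a1_grow K
  have h2m : ∀ᶠ x : ℕ in Filter.atTop, (2 : ℝ) ≤ (x : ℝ) ^ m :=
    (((tendsto_rpow_atTop hm).comp (tendsto_natCast_atTop_atTop (R := ℝ))).eventually_ge_atTop 2)
  obtain ⟨x2, hx2⟩ := Filter.eventually_atTop.1 h2m
  refine ⟨max x1 x2, fun x hx q b hq hqK => ?_⟩
  have hxx1 : x1 ≤ x := (le_max_left _ _).trans hx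
  have hx3 : 3 ≤ x := hx1.trans hxx1
  have hx0 : (0 : ℝ) < x := by exact_mod_cast (by omega : 0 < x)
  have hx1r : (1 : ℝ) ≤ x := by exact_mod_cast (by omega : 1 ≤ x)
  have hlog : 0 < Real.log x := Real.log_pos (by exact_mod_cast (by omega : 1 < x))
  have hq1 : 1 ≤ q := Nat.pos_of_ne_zero hq.ne_zero
  have hq0 : (0 : ℝ) < q := by exact_mod_cast hq1
  have hqs : (q : ℝ) ≤ (x : ℝ) ^ (1 / 2 : ℝ) := hqK.trans (hgrow x hxx1)
  have hss : (x : ℝ) ^ (1 / 2 : ℝ) * (x : ℝ) ^ (1 / 2 : ℝ) = x := by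
    rw [← Real.rpow_add hx0]
    norm_num
  have hs0 : 0 < (x : ℝ) ^ (1 / 2 : ℝ) := Real.rpow_pos_of_pos hx0 _
  have hs1 : 1 ≤ (x : ℝ) ^ (1 / 2 : ℝ) := Real.one_le_rpow hx1r (by norm_num)
  have hxq : (x : ℝ) ^ (1 / 2 : ℝ) ≤ x / q := by
    rw [le_div_iff₀ hq0]
    calc (x : ℝ) ^ (1 / 2 : ℝ) * q ≤ (x : ℝ) ^ (1 / 2 : ℝ) * (x : ℝ) ^ (1 / 2 : ℝ) :=
          mul_le_mul_of_nonneg_left hqs hs0.le
      _ = x := hss
  -- the number of `u`
  set M : ℕ := x / q + 1 with hMd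
  have hMlow : (x : ℝ) / q ≤ M := by
    rw [div_le_iff₀ hq0]
    have h1 : x < (x / q + 1) * q := by
      have := Nat.div_add_mod x q
      have := Nat.mod_lt x hq1
      nlinarith
    have h2 : x ≤ M * q := h1.le
    exact_mod_cast h2
  have hMup : (M : ℝ) ≤ 2 * (x / q) := by
    have h1 : ((x / q : ℕ) : ℝ) ≤ (x : ℝ) / q := Nat.cast_div_le
    have h2 : (1 : ℝ) ≤ x / q := hs1.trans hxq
    rw [hMd]
    push_cast
    linarith
  set z : ℕ := ⌊(x : ℝ) ^ m⌋₊ with hzd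
  have hxm0 : 0 < (x : ℝ) ^ m := Real.rpow_pos_of_pos hx0 _
  have hz : 2 ≤ z := Nat.le_floor (by exact_mod_cast hx2 x ((le_max_right _ _).trans hx))
  have hzx : (z : ℝ) ≤ (x : ℝ) ^ m := Nat.floor_le hxm0.le
  have hxz : (x : ℝ) ^ m < z + 1 := Nat.lt_floor_add_one _
  have hM : z ^ (198 * FS_D F + 26) ≤ M := by
    have h1 : ((z : ℝ)) ^ (198 * FS_D F + 26) ≤ M := by
      calc ((z : ℝ)) ^ (198 * FS_D F + 26) ≤ ((x : ℝ) ^ m) ^ (198 * FS_D F + 26) :=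
            pow_le_pow_left₀ (Nat.cast_nonneg _) hzx _
        _ = (x : ℝ) ^ (m * (198 * (FS_D F : ℝ) + 26)) := by
            rw [← Real.rpow_natCast, ← Real.rpow_mul hx0.le]
            push_cast
            rfl
        _ ≤ (x : ℝ) ^ (1 / 2 : ℝ) := Real.rpow_le_rpow_of_exponent_le hx1r hm2
        _ ≤ M := hxq.trans hMlow
    exact_mod_cast h1
  have hsieve := (sieve_class F hF q (b % q) z 0 M hq1 hz hM).2
  have hcnt : cnt (fun n => n ≡ b [MOD q] ∧ ∀ i, ∀ p : ℕ, p.Prime → ¬ p ∣ q →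
        (p : ℤ) ∣ (F i).eval (n : ℤ) → (x : ℝ) ^ δ < p) x ≤
      ((Ico 0 (0 + M)).filter (fun u : ℕ => ∀ p : ℕ, p.Prime → 2 * FS_D F + 2 < p → p ≤ z →
        ¬ p ∣ q → ¬ (p : ℤ) ∣ (∏ i, F i).eval ((q * u + b % q : ℕ) : ℤ))).card := by
    unfold cnt
    have hdm : ∀ n, n ≡ b [MOD q] → q * (n / q) + b % q = n := by
      intro n hn
      have h1 : n % q = b % q := hn
      rw [← h1]
      exact Nat.div_add_mod n q
    refine card_le_card_of_injOn (fun n => n / q) ?_ ?_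
    · intro n hn
      simp only [mem_coe, mem_filter, mem_Icc] at hn
      obtain ⟨⟨h1, h2⟩, h3, h4⟩ := hn
      rw [mem_coe, mem_filter, mem_Ico]
      refine ⟨⟨Nat.zero_le _, ?_⟩, fun p hp _ hpz hpq hd => ?_⟩
      · have := Nat.div_le_div_right (c := q) h2
        show n / q < 0 + M
        omega
      · rw [hdm n h3, eval_prod] at hd
        obtain ⟨i, _, hi⟩ := ((Nat.prime_iff_prime_int.1 hp).dvd_finsetProd_iff _).1 hd
        have h5 := h4 i p hp hpq hi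
        have h6 : (p : ℝ) ≤ z := by exact_mod_cast hpz
        have h7 : (x : ℝ) ^ m ≤ (x : ℝ) ^ δ := Real.rpow_le_rpow_of_exponent_le hx1r hmδ
        linarith
    · intro n hn n' hn' h
      simp only [mem_coe, mem_filter, mem_Icc] at hn hn'
      have h1 : n / q = n' / q := h
      rw [← hdm n hn.2.1, ← hdm n' hn'.2.1, h1]
  have hlz : m * Real.log x ≤ Real.log ((z + 1 : ℕ) : ℝ) := by
    rw [← Real.log_rpow hx0]
    refine Real.log_le_log hxm0 ?_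
    push_cast
    exact hxz.le
  have hp := hprod z q (by omega) hq1
  have hlogg : 1 / Real.log ((z + 1 : ℕ) : ℝ) ^ g ≤ 1 / (m ^ g * Real.log x ^ g) := by
    rw [← mul_pow]
    refine one_div_le_one_div_of_le (by positivity) ?_
    exact pow_le_pow_left₀ (by positivity) hlz g
  set ω : ℕ := q.primeFactors.card with hω
  have hmax : 0 < max (6 * C / m ^ g) (2 * (FS_D F : ℝ) + 2) := lt_max_of_lt_right (by positivity)
  calc (cnt (fun n => n ≡ b [MOD q] ∧ ∀ i, ∀ p : ℕ, p.Prime → ¬ p ∣ q →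
        (p : ℤ) ∣ (F i).eval (n : ℤ) → (x : ℝ) ^ δ < p) x : ℝ) ≤
      (((Ico 0 (0 + M)).filter (fun u : ℕ => ∀ p : ℕ, p.Prime → 2 * FS_D F + 2 < p → p ≤ z →
        ¬ p ∣ q → ¬ (p : ℤ) ∣ (∏ i, F i).eval ((q * u + b % q : ℕ) : ℤ))).card : ℝ) := by
        exact_mod_cast hcnt
    _ ≤ 3 * (M : ℝ) * ∏ p ∈ (sprimes (2 * FS_D F + 2) z).filter (fun p => ¬ p ∣ q),
        (1 - (wF F p : ℝ) / p) := hsieve
    _ ≤ 3 * (2 * (x / q)) *
        (C * (2 * (FS_D F : ℝ) + 2) ^ ω * (1 / (m ^ g * Real.log x ^ g))) := by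
        have h1 : ∏ p ∈ (sprimes (2 * FS_D F + 2) z).filter (fun p => ¬ p ∣ q),
            (1 - (wF F p : ℝ) / p) ≤
            C * (2 * (FS_D F : ℝ) + 2) ^ ω * (1 / (m ^ g * Real.log x ^ g)) := by
          refine hp.trans ?_
          rw [← mul_one_div]
          exact mul_le_mul_of_nonneg_left hlogg (by positivity)
        have h2 : 0 ≤ ∏ p ∈ (sprimes (2 * FS_D F + 2) z).filter (fun p => ¬ p ∣ q),
            (1 - (wF F p : ℝ) / p) :=
          prod_nonneg fun p hp => (H33B.FS_fac F hN p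
            (Sieve.mem_sprimes.1 (mem_filter.1 hp).1).1).1.le
        exact mul_le_mul (by linarith) h1 h2 (by positivity)
    _ = ((2 * (FS_D F : ℝ) + 2) ^ ω * (6 * C / m ^ g)) * (x / Real.log x ^ g / q) := by
        field_simp
        ring
    _ ≤ (max (6 * C / m ^ g) (2 * (FS_D F : ℝ) + 2) ^ ω *
          max (6 * C / m ^ g) (2 * (FS_D F : ℝ) + 2)) * (x / Real.log x ^ g / q) := by
        refine mul_le_mul_of_nonneg_right ?_ (by positivity)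
        refine mul_le_mul ?_ (le_max_left _ _) (by positivity) (by positivity)
        exact pow_le_pow_left₀ (by positivity) (le_max_right _ _) _
    _ = _ := by
        rw [← pow_succ]
        ring

theorem upper_AP {g : ℕ} (F : Fin g → ℤ[X]) (hF : Sys F) (hN : NoFix F) (δ : ℝ) (hδ : 0 < δ) :
    ∃ D : ℝ, 1 ≤ D ∧ ∀ A : ℕ → ℕ → Prop, (∀ x n, A x n → AP F δ x n) → Upper g D A := by
  obtain ⟨D, hD, h⟩ := upper_rough F hF hN δ hδ
  refine ⟨D, hD, fun A hA K => ?_⟩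
  obtain ⟨x0, hx0⟩ := h K
  refine ⟨x0, fun x hx q b hq hqK => le_trans ?_ (hx0 x hx q b hq hqK)⟩
  have h1 : cnt (fun n => n ≡ b [MOD q] ∧ A x n) x ≤
      cnt (fun n => n ≡ b [MOD q] ∧ ∀ i, ∀ p : ℕ, p.Prime → ¬ p ∣ q →
        (p : ℤ) ∣ (F i).eval (n : ℤ) → (x : ℝ) ^ δ < p) x :=
    cnt_mono fun n _ _ h => ⟨h.1, fun i p hp _ hd => hA x n h.2 i p hp hd⟩
  exact_mod_cast h1

end Pool.Agent.Lib.H59W
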