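import Pool.Agent.Lib.H59W.A0
import Pool.Agent.Lib.H59W.A0B

/-!
# Chunk A2: the lower bound
-/

open Finset Polynomial

namespace Pool.Agent.Lib.H59W

open Pool.Agent.Lib.H33B (Sys NoFix wF FS_D)
open Pool.Agent.Lib.Sieve (sprimes)

theorem a2_gd {g : ℕ} (F : Fin g → ℤ[X]) (hN : NoFix F) (w : ℕ) :
    ((gd (∏ i, F i) (primorial w)).card : ℝ) =
      (primorial w : ℝ) * ∏ p ∈ Nat.primesBelow (w + 1), (1 - (wF F p : ℝ) / p) := by
  have h1 : (gd (∏ i, F i) (primorial w)).card =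
      ∏ p ∈ Nat.primesBelow (w + 1), (p - H59.rootCount (∏ i, F i) p) := by
    rw [← H33B.count_coprime]
    unfold gd
    rfl
  have h2 : ((primorial w : ℕ) : ℝ) = ∏ p ∈ Nat.primesBelow (w + 1), (p : ℝ) := by
    have h3 : primorial w = H33B.PW (w + 1) := rfl
    rw [h3]
    unfold H33B.PW
    push_cast
    rfl
  rw [h1, h2, ← prod_mul_distrib]
  push_cast
  refine prod_congr rfl fun p hp => ?_
  have hpp := Nat.prime_of_mem_primesBelow hp
  have hlt : wF F p < p := H33B.wF_lt F hN p hpp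
  have hp0 : (p : ℝ) ≠ 0 := by exact_mod_cast hpp.ne_zero
  have h4 : ((p - H59.rootCount (∏ i, F i) p : ℕ) : ℝ) = (p : ℝ) - wF F p := by
    unfold wF at hlt ⊢
    rw [Nat.cast_sub hlt.le]
  rw [h4]
  field_simp

theorem a2_S (w k z : ℕ) (hw : 2 * k + 2 ≤ w) :
    (sprimes (2 * k + 2) z).filter (fun p => ¬ p ∣ primorial w) =
      Nat.primesBelow (z + 1) \ Nat.primesBelow (w + 1) := by
  have h3 : primorial w = H33B.PW (w + 1) := rfl
  ext p
  rw [mem_filter, Sieve.mem_sprimes, mem_sdiff, Nat.mem_primesBelow, Nat.mem_primesBelow, h3]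
  constructor
  · rintro ⟨⟨h1, h2, h4⟩, h5⟩
    rw [H33B.CV4_dvd _ _ h1] at h5
    exact ⟨⟨by omega, h1⟩, fun h => h5 h.1⟩
  · rintro ⟨⟨h1, h2⟩, h4⟩
    rw [H33B.CV4_dvd _ _ h2]
    have h5 : ¬ p < w + 1 := fun h => h4 ⟨h, h2⟩
    exact ⟨⟨h2, by omega, by omega⟩, h5⟩

theorem a2_cnt {g : ℕ} (F : Fin g → ℤ[X]) (w z x v M : ℕ) (δ : ℝ) (hw : 2 * FS_D F + 2 ≤ w)
    (hz : z = ⌊(x : ℝ) ^ δ⌋₊) (hM : M + 1 = x / primorial w)
    (hv : IsCoprime ((∏ i, F i).eval (v : ℤ)) (primorial w : ℤ)) :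
    ((open Classical in (Ico 1 (1 + M)).filter (fun u : ℕ => ∀ p : ℕ, p.Prime →
      2 * FS_D F + 2 < p → p ≤ z → ¬ p ∣ primorial w →
        ¬ (p : ℤ) ∣ (∏ i, F i).eval ((primorial w * u + v % primorial w : ℕ) : ℤ))).card) ≤
      cnt (fun n => n ≡ v [MOD primorial w] ∧ AP F δ x n) x := by
  classical
  have hP : 0 < primorial w := primorial_pos w
  unfold cnt
  refine card_le_card_of_injOn (fun u => primorial w * u + v % primorial w) ?_ ?_
  · intro u hu
    rw [mem_coe, mem_filter, mem_Ico] at hu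
    obtain ⟨⟨h1, h2⟩, h3⟩ := hu
    have h4 : v % primorial w < primorial w := Nat.mod_lt _ hP
    have h5 : primorial w * (u + 1) ≤ x := by
      calc primorial w * (u + 1) ≤ primorial w * (x / primorial w) :=
            Nat.mul_le_mul_left _ (by omega)
        _ ≤ x := Nat.mul_div_le _ _
    have h6 : primorial w * (u + 1) = primorial w * u + primorial w := by ring
    have h7 : 1 ≤ primorial w * u := Nat.mul_pos hP h1
    have h8 : primorial w * u + v % primorial w ≡ v [MOD primorial w] := by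
      unfold Nat.ModEq
      rw [Nat.mul_add_mod, Nat.mod_mod]
    simp only [mem_coe, mem_filter, mem_Icc]
    refine ⟨⟨by omega, by omega⟩, h8, fun i p hp hd => ?_⟩
    by_contra hcon
    push Not at hcon
    have hpz : p ≤ z := by
      rw [hz]
      exact Nat.le_floor hcon
    have hd2 : (p : ℤ) ∣ (∏ i, F i).eval ((primorial w * u + v % primorial w : ℕ) : ℤ) := by
      rw [eval_prod]
      exact hd.trans (dvd_prod_of_mem _ (mem_univ i))
    by_cases hpP : p ∣ primorial w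
    · have h9 : (primorial w * u + v % primorial w) % p = v % p := h8.of_dvd hpP
      rw [← H59.dvd_eval_mod_iff, h9, H59.dvd_eval_mod_iff] at hd2
      have h10 : IsUnit (p : ℤ) := hv.isUnit_of_dvd' hd2 (by exact_mod_cast hpP)
      exact (Nat.prime_iff_prime_int.1 hp).not_isUnit h10
    · have h9 : ¬ p < w + 1 := by
        rw [← H33B.CV4_dvd _ _ hp]
        exact hpP
      exact h3 p hp (by omega) hpz hpP hd2
  · intro u _ u' _ h
    have h1 : primorial w * u + v % primorial w = primorial w * u' + v % primorial w := h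
    exact Nat.eq_of_mul_eq_mul_left hP (Nat.add_right_cancel h1)

/-- Proof. `k = FS_D F`, `w1 = 2 k + 2`. Let `w ≥ w1`, `P = primorial w`, `v0 = v % P`, `z = ⌊x^(dl F)⌋ > w`, `u0 = 1`, `M = x/P - 1`, so
`1 ≤ P u + v0 ≤ x` for `u ∈ [1, 1 + M)`, and `z^(198 k + 26) ≤ x^((198 k + 26)/(200 k + 50)) ≤ M` for large `x`. `sieve_class` (lower bound, `q = P`,
`b = v0`): every `n = P u + v0` counted has `n ≡ v [MOD P]` and `AP F (dl F) x n`: a prime `p ∣ F_i(n)` with `p ≤ x^(dl F)` is `≤ z`; if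
`p ∣ P` then `p ∣ ∏ F_i(v)`, impossible; otherwise `p > w ≥ 2k + 2`, impossible too. The product is
`∏_{w < p ≤ z} (1 - wF F p/p) = ∏_{p ≤ z} (..)/∏_{p ≤ w} (..) ≥ (c/(log (z+1))^g) (P/#gd (∏ F_i) P)` by `mert` and
`#gd = P ∏_{p ≤ w} (1 - wF F p/p)` (`H33B.count_coprime`, `primorial w = H33B.PW (w + 1)`), `log (z + 1) ≤ log x`, `M ≥ x/(2P)`. -/
theorem lower_AP {g : ℕ} (F : Fin g → ℤ[X]) (hF : Sys F) (hN : NoFix F) :
    ∃ c : ℝ, 0 < c ∧ Lower (∏ i, F i) g c (AP F (dl F)) := by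
  classical
  obtain ⟨c, _, hc, _, h1⟩ := mert F hF hN
  refine ⟨c / 8, by positivity, 2 * FS_D F + 2, fun w hw => ?_⟩
  have hk0 : (0 : ℝ) ≤ FS_D F := Nat.cast_nonneg _
  have hP1 : 1 ≤ primorial w := primorial_pos w
  have hP0 : (0 : ℝ) < primorial w := by exact_mod_cast hP1
  have hP1r : (1 : ℝ) ≤ primorial w := by exact_mod_cast hP1
  have hdl : 0 < dl F := by
    unfold dl
    positivity
  set θ : ℝ := dl F * (198 * (FS_D F : ℝ) + 26) with hθ
  have hθ1 : θ < 1 := by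
    rw [hθ]
    unfold dl
    rw [one_div_mul_eq_div, div_lt_one (by positivity)]
    linarith
  have hdθ : dl F ≤ θ := by
    rw [hθ]
    exact le_mul_of_one_le_right hdl.le (by linarith)
  have e1 : ∀ᶠ x : ℕ in Filter.atTop, 2 * (primorial w : ℝ) ≤ (x : ℝ) ^ (1 - θ) :=
    ((tendsto_rpow_atTop (by linarith)).comp
      (tendsto_natCast_atTop_atTop (R := ℝ))).eventually_ge_atTop _
  have e2 : ∀ᶠ x : ℕ in Filter.atTop, ((w + 2 : ℕ) : ℝ) ≤ (x : ℝ) ^ (dl F) :=
    ((tendsto_rpow_atTop hdl).comp (tendsto_natCast_atTop_atTop (R := ℝ))).eventually_ge_atTop _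
  obtain ⟨x0, hx0⟩ := Filter.eventually_atTop.1
    (e1.and (e2.and (Filter.eventually_ge_atTop (4 * primorial w))))
  refine ⟨x0, fun x hx v hv => ?_⟩
  obtain ⟨f1, f2, f3⟩ := hx0 x hx
  have hx4 : 4 ≤ x := by
    have : 4 * 1 ≤ 4 * primorial w := Nat.mul_le_mul_left _ hP1
    omega
  have hxr : (0 : ℝ) < x := by exact_mod_cast (by omega : 0 < x)
  have hx1r : (1 : ℝ) ≤ x := by exact_mod_cast (by omega : 1 ≤ x)
  have hx2r : (2 : ℝ) ≤ x := by exact_mod_cast (by omega : 2 ≤ x)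
  have hxP : 4 * (primorial w : ℝ) ≤ x := by exact_mod_cast f3
  have hlog : 0 < Real.log x := Real.log_pos (by linarith)
  have hxθ : (x : ℝ) ^ θ ≤ x / (2 * primorial w) := by
    rw [le_div_iff₀ (by positivity)]
    calc (x : ℝ) ^ θ * (2 * primorial w) ≤ (x : ℝ) ^ θ * (x : ℝ) ^ (1 - θ) :=
          mul_le_mul_of_nonneg_left f1 (Real.rpow_nonneg hxr.le _)
      _ = x := by
          rw [← Real.rpow_add hxr]
          simp
  set z : ℕ := ⌊(x : ℝ) ^ (dl F)⌋₊ with hzd
  have hxd0 : 0 < (x : ℝ) ^ (dl F) := Real.rpow_pos_of_pos hxr _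
  have hzw : w + 2 ≤ z := Nat.le_floor f2
  have hzx : (z : ℝ) ≤ (x : ℝ) ^ (dl F) := Nat.floor_le hxd0.le
  have hzx2 : ((z + 1 : ℕ) : ℝ) ≤ x := by
    have h2 : (x : ℝ) ^ (dl F) ≤ (x : ℝ) ^ θ := Real.rpow_le_rpow_of_exponent_le hx1r hdθ
    have h3 : (x : ℝ) / (2 * primorial w) ≤ x / 2 :=
      div_le_div_of_nonneg_left hxr.le (by norm_num) (by linarith)
    push_cast
    linarith
  obtain ⟨M, hMx⟩ : ∃ M : ℕ, M + 1 = x / primorial w := by
    refine ⟨x / primorial w - 1, Nat.sub_add_cancel ?_⟩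
    rw [Nat.one_le_div_iff hP1]
    omega
  have hMlow : (x : ℝ) / (2 * primorial w) ≤ M := by
    have h2 : (x : ℝ) / primorial w ≤ M + 2 := by
      rw [div_le_iff₀ hP0]
      have h3 : x < (M + 2) * primorial w := by
        have h4 := Nat.div_add_mod x (primorial w)
        have h5 := Nat.mod_lt x hP1
        rw [← hMx] at h4
        nlinarith
      exact_mod_cast h3.le
    have h3 : (x : ℝ) / (2 * primorial w) = x / primorial w / 2 := by
      rw [div_div, mul_comm (primorial w : ℝ) 2]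
    have h4 : 4 ≤ (x : ℝ) / primorial w := by
      rw [le_div_iff₀ hP0]
      exact hxP
    rw [h3]
    linarith
  have hM : z ^ (198 * FS_D F + 26) ≤ M := by
    have h1 : ((z : ℝ)) ^ (198 * FS_D F + 26) ≤ M := by
      calc ((z : ℝ)) ^ (198 * FS_D F + 26) ≤ ((x : ℝ) ^ (dl F)) ^ (198 * FS_D F + 26) :=
            pow_le_pow_left₀ (Nat.cast_nonneg _) hzx _
        _ = (x : ℝ) ^ θ := by
            rw [← Real.rpow_natCast, ← Real.rpow_mul hxr.le, hθ]
            push_cast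
            rfl
        _ ≤ M := hxθ.trans hMlow
    exact_mod_cast h1
  have hsieve := (sieve_class F hF (primorial w) (v % primorial w) z 1 M hP1 (by omega) hM).1
  have hcnt := a2_cnt F w z x v M (dl F) hw hzd hMx hv
  rw [a2_S w (FS_D F) z hw] at hsieve
  have hsub : Nat.primesBelow (w + 1) ⊆ Nat.primesBelow (z + 1) := by
    intro p hp
    rw [Nat.mem_primesBelow] at hp ⊢
    exact ⟨by omega, hp.2⟩
  have hm := (h1 (z + 1) (by omega)).1
  rw [← prod_sdiff hsub] at hm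
  rw [a2_gd F hN w]
  set s := ∏ p ∈ Nat.primesBelow (z + 1) \ Nat.primesBelow (w + 1), (1 - (wF F p : ℝ) / p)
  set t := ∏ p ∈ Nat.primesBelow (w + 1), (1 - (wF F p : ℝ) / p) with ht
  have ht0 : 0 < t := prod_pos fun p hp =>
    (H33B.FS_fac F hN p (Nat.prime_of_mem_primesBelow hp)).1
  have hlz : Real.log ((z + 1 : ℕ) : ℝ) ≤ Real.log x :=
    Real.log_le_log (by positivity) hzx2
  have hlz0 : 0 < Real.log ((z + 1 : ℕ) : ℝ) :=
    Real.log_pos (by exact_mod_cast (by omega : 1 < z + 1))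
  have h5 : c / Real.log x ^ g ≤ s * t := by
    refine le_trans ?_ hm
    refine div_le_div_of_nonneg_left hc.le (by positivity) ?_
    exact pow_le_pow_left₀ hlz0.le hlz g
  have h6 : (M : ℝ) / 4 * s ≤
      (cnt (fun n => n ≡ v [MOD primorial w] ∧ AP F (dl F) x n) x : ℝ) := by
    refine hsieve.trans ?_
    exact_mod_cast hcnt
  have hMP : (x : ℝ) / 2 ≤ primorial w * M := by
    have h7 := mul_le_mul_of_nonneg_left hMlow hP0.le
    have h8 : (primorial w : ℝ) * (x / (2 * primorial w)) = x / 2 := by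
      field_simp
    rwa [h8] at h7
  have hst : 0 ≤ s * t := le_trans (by positivity) h5
  calc c / 8 * (x / Real.log x ^ g) = (x / 2) / 4 * (c / Real.log x ^ g) := by ring
    _ ≤ (primorial w * M) / 4 * (s * t) := by
        refine mul_le_mul ?_ h5 (by positivity) (by positivity)
        linarith
    _ = (primorial w * t) * ((M : ℝ) / 4 * s) := by ring
    _ ≤ (primorial w * t) *
        (cnt (fun n => n ≡ v [MOD primorial w] ∧ AP F (dl F) x n) x : ℝ) :=
        mul_le_mul_of_nonneg_left h6 (by positivity)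

end Pool.Agent.Lib.H59W
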