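import Pool.Agent.Lib.H59W.Defs
import Pool.Agent.Lib.H57C.V1
import Pool.Agent.Lib.H33B.FS

/-!
# Project H59W: definitions for the modules K, A, B, C (systems `F` with almost prime values)
-/

open Finset Polynomial

namespace Pool.Agent.Lib.H59W

open Pool.Agent.Lib.H33B (Sys NoFix wF FS_D)

/-- No `F_i(n)` has a prime factor at most `x^δ`. -/
def AP {g : ℕ} (F : Fin g → ℤ[X]) (δ : ℝ) (x n : ℕ) : Prop :=
  ∀ i, ∀ p : ℕ, p.Prime → (p : ℤ) ∣ (F i).eval (n : ℤ) → (x : ℝ) ^ δ < p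

/-- `F_i(n)` is a prime and no `F_j(n)` has a prime factor at most `x^δ`. -/
def PAP {g : ℕ} (F : Fin g → ℤ[X]) (i : Fin g) (δ : ℝ) (x n : ℕ) : Prop :=
  (∃ q : ℕ, q.Prime ∧ (F i).eval (n : ℤ) = q) ∧ AP F δ x n

/-- The sifting exponent. -/
noncomputable def dl {g : ℕ} (F : Fin g → ℤ[X]) : ℝ := 1 / (200 * (FS_D F : ℝ) + 50)

open Classical in
/-- `∑ log (a n + b)` over the `n ∈ (y1, y2]` with `a n + b` prime, `n ≡ v [MOD P]` and `T n`. -/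
noncomputable def LS (a : ℕ) (b : ℤ) (y1 y2 P v : ℕ) (T : ℕ → Prop) : ℝ :=
  ∑ n ∈ (Ioc y1 y2).filter (fun n : ℕ => n ≡ v [MOD P] ∧
    (∃ q : ℕ, q.Prime ∧ (a : ℤ) * n + b = q) ∧ T n), Real.log ((a : ℝ) * n + b)

/-- `θ(a y + b)` -/
noncomputable def thl (a : ℕ) (b : ℤ) (y : ℕ) : ℝ := H59C.th ((a : ℤ) * y + b).toNat

theorem cnt_mono {A B : ℕ → Prop} {x : ℕ} (h : ∀ n, 1 ≤ n → n ≤ x → A n → B n) :
    cnt A x ≤ cnt B x := by
  classical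
  unfold cnt
  refine card_le_card fun n hn => ?_
  rw [mem_filter] at hn ⊢
  rw [mem_Icc] at hn
  exact ⟨mem_Icc.2 hn.1, h n hn.1.1 hn.1.2 hn.2⟩

theorem cnt_zero {A : ℕ → Prop} {x : ℕ} (h : ∀ n, ¬ A n) : cnt A x = 0 := by
  classical
  unfold cnt
  rw [card_eq_zero, filter_eq_empty_iff]
  exact fun n _ => h n

theorem AP_mono {g : ℕ} {F : Fin g → ℤ[X]} {δ : ℝ} {x y n : ℕ} (h : (y : ℝ) ^ δ ≤ (x : ℝ) ^ δ)
    (h2 : AP F δ x n) : AP F δ y n :=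
  fun i p hp hd => lt_of_le_of_lt h (h2 i p hp hd)

end Pool.Agent.Lib.H59W
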