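import Pool.Agent.Lib.H59W.ADefs

/-!
# Chunk B1: level of distribution of the `n` with `a n + b` prime, in a fixed residue class
-/

open Finset Polynomial

namespace Pool.Agent.Lib.H59W

open Pool.Agent.Lib.H59C (DD SWp th thp)

/-- the residue class -/
theorem b1_res (a : ℕ) (b : ℤ) (ha : 1 ≤ a) (P d : ℕ) (hPd : P.Coprime d)
    (u n : ℕ) : ((a * (P * d) : ℕ) : ℤ) ∣ ((a : ℤ) * n + b) - ((a : ℤ) * u + b) ↔
      n ≡ u [MOD P] ∧ n ≡ u [MOD d] := by
  have h1 : ((a : ℤ) * n + b) - ((a : ℤ) * u + b) = (a : ℤ) * ((n : ℤ) - u) := by ring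
  have ha0 : (a : ℤ) ≠ 0 := by exact_mod_cast (by omega : a ≠ 0)
  rw [h1, Nat.cast_mul, mul_dvd_mul_iff_left ha0, Nat.modEq_and_modEq_iff_modEq_mul hPd,
    Nat.ModEq.comm, Nat.modEq_iff_dvd]

theorem b1_thp (Y1 Y2 m r : ℕ) (h : Y1 ≤ Y2) :
    thp Y2 m r - thp Y1 m r =
      ∑ q ∈ (Ioc Y1 Y2).filter (fun q => q.Prime ∧ q ≡ r [MOD m]), Real.log q := by
  unfold thp
  have h0 : ∀ Y : ℕ, Icc 1 Y = Ioc 0 Y := fun Y => by ext q; simp [Finset.mem_Icc, Finset.mem_Ioc]; omega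
  rw [h0, h0, Finset.sum_filter, Finset.sum_filter, Finset.sum_filter,
    ← Finset.sum_Ioc_consecutive _ (Nat.zero_le Y1) h]
  ring

theorem b1_sum (a : ℕ) (b : ℤ) (ha : 1 ≤ a) (P d : ℕ) (hPd : P.Coprime d) (v c u : ℕ)
    (T : ℕ → Prop) (hT : ∀ n, T n ↔ n ≡ c [MOD d]) (huv : u ≡ v [MOD P]) (huc : u ≡ c [MOD d]) (hu : 0 ≤ (a : ℤ) * u + b) (y1 y2 : ℕ)
    (hy : y1 ≤ y2) :
    LS a b y1 y2 P v T =
      thp ((a : ℤ) * y2 + b).toNat (a * (P * d)) ((a : ℤ) * u + b).toNat -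
        thp ((a : ℤ) * y1 + b).toNat (a * (P * d)) ((a : ℤ) * u + b).toNat := by
  classical
  have ha1 : (1 : ℤ) ≤ a := by exact_mod_cast ha
  have hYle : ((a : ℤ) * y1 + b).toNat ≤ ((a : ℤ) * y2 + b).toNat := by
    apply Int.toNat_le_toNat
    have : (y1 : ℤ) ≤ y2 := by exact_mod_cast hy
    nlinarith
  rw [b1_thp _ _ _ _ hYle]
  unfold LS
  have hmod : ∀ (q n : ℕ), (a : ℤ) * n + b = q →
      (q ≡ ((a : ℤ) * u + b).toNat [MOD a * (P * d)] ↔ n ≡ v [MOD P] ∧ T n) := by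
    intro q n hq
    rw [Nat.ModEq.comm, Nat.modEq_iff_dvd, Int.toNat_of_nonneg hu, ← hq, b1_res a b ha P d hPd, hT]
    constructor
    · rintro ⟨h1, h2⟩
      exact ⟨h1.trans huv, h2.trans huc⟩
    · rintro ⟨h1, h2⟩
      exact ⟨h1.trans huv.symm, h2.trans huc.symm⟩
  refine Finset.sum_bij' (fun n _ => ((a : ℤ) * n + b).toNat)
    (fun q _ => (((q : ℤ) - b) / a).toNat) ?_ ?_ ?_ ?_ ?_
  · intro n hn
    rw [mem_filter, mem_Ioc] at hn
    obtain ⟨⟨hn1, hn2⟩, hn3, ⟨q, hq, hqn⟩, hn4⟩ := hn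
    have h1 : (y1 : ℤ) + 1 ≤ n := by exact_mod_cast hn1
    have h2 : (n : ℤ) ≤ y2 := by exact_mod_cast hn2
    have hq0 : (0 : ℤ) < q := by exact_mod_cast hq.pos
    rw [mem_filter, mem_Ioc, hqn, Int.toNat_natCast]
    refine ⟨⟨?_, ?_⟩, hq, (hmod q n hqn).2 ⟨hn3, hn4⟩⟩
    · rw [Int.toNat_lt_of_ne_zero hq.ne_zero]
      nlinarith
    · have h6 : (q : ℤ) ≤ (a : ℤ) * y2 + b := by nlinarith
      have h7 := Int.self_le_toNat ((a : ℤ) * y2 + b)
      exact_mod_cast h6.trans h7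
  · intro q hq
    rw [mem_filter, mem_Ioc] at hq
    obtain ⟨⟨hq1, hq2⟩, hq3, hq4⟩ := hq
    have hdv : (a : ℤ) ∣ (q : ℤ) - b := by
      rw [Nat.ModEq.comm, Nat.modEq_iff_dvd, Int.toNat_of_nonneg hu] at hq4
      have h1 : (a : ℤ) ∣ (q : ℤ) - ((a : ℤ) * u + b) := by
        refine dvd_trans ?_ hq4
        exact_mod_cast Dvd.intro _ rfl
      have h2 : (q : ℤ) - b = (q - ((a : ℤ) * u + b)) + a * u := by ring
      rw [h2]
      exact dvd_add h1 (Dvd.intro _ rfl)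
    obtain ⟨k, hk⟩ := hdv
    have h3 : ((q : ℤ) - b) / a = k := by
      rw [hk, Int.mul_ediv_cancel_left _ (by omega)]
    have hq1' : (a : ℤ) * y1 + b < q := by
      have := Int.self_le_toNat ((a : ℤ) * y1 + b)
      have h4 : ((((a : ℤ) * y1 + b).toNat : ℕ) : ℤ) < q := by exact_mod_cast hq1
      linarith
    have hq2' : (q : ℤ) ≤ (a : ℤ) * y2 + b := by
      by_contra hcon
      push Not at hcon
      rcases le_or_gt 0 ((a : ℤ) * y2 + b) with h5 | h5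
      · have h6 := Int.toNat_of_nonneg h5
        have h7 : (q : ℤ) ≤ (((a : ℤ) * y2 + b).toNat : ℕ) := by exact_mod_cast hq2
        omega
      · have h6 : ((a : ℤ) * y2 + b).toNat = 0 := Int.toNat_of_nonpos h5.le
        have := hq3.pos
        omega
    have hk1 : (y1 : ℤ) < k := by
      by_contra hcon
      push Not at hcon
      nlinarith
    have hk2 : k ≤ y2 := by
      by_contra hcon
      push Not at hcon
      nlinarith
    obtain ⟨n, rfl⟩ : ∃ n : ℕ, k = n := ⟨k.toNat, by rw [Int.toNat_of_nonneg]; omega⟩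
    have hqn : (a : ℤ) * n + b = q := by linarith
    rw [h3, Int.toNat_natCast, mem_filter, mem_Ioc]
    refine ⟨⟨by exact_mod_cast hk1, by exact_mod_cast hk2⟩, ((hmod q n hqn).1 hq4).1,
      ⟨q, hq3, hqn⟩, ((hmod q n hqn).1 hq4).2⟩
  · intro n hn
    rw [mem_filter, mem_Ioc] at hn
    obtain ⟨⟨hn1, hn2⟩, hn3, ⟨q, hq, hqn⟩, hn4⟩ := hn
    rw [hqn, Int.toNat_natCast, ← hqn, add_sub_cancel_right, Int.mul_ediv_cancel_left _ (by omega),
      Int.toNat_natCast]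
  · intro q hq
    rw [mem_filter, mem_Ioc] at hq
    obtain ⟨⟨hq1, hq2⟩, hq3, hq4⟩ := hq
    have hdv : (a : ℤ) ∣ (q : ℤ) - b := by
      rw [Nat.ModEq.comm, Nat.modEq_iff_dvd, Int.toNat_of_nonneg hu] at hq4
      have h1 : (a : ℤ) ∣ (q : ℤ) - ((a : ℤ) * u + b) := by
        refine dvd_trans ?_ hq4
        exact_mod_cast Dvd.intro _ rfl
      have h2 : (q : ℤ) - b = (q - ((a : ℤ) * u + b)) + a * u := by ring
      rw [h2]
      exact dvd_add h1 (Dvd.intro _ rfl)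
    obtain ⟨k, hk⟩ := hdv
    have h3 : ((q : ℤ) - b) / a = k := by
      rw [hk, Int.mul_ediv_cancel_left _ (by omega)]
    have hq1' : (a : ℤ) * y1 + b < q := by
      have := Int.self_le_toNat ((a : ℤ) * y1 + b)
      have h4 : ((((a : ℤ) * y1 + b).toNat : ℕ) : ℤ) < q := by exact_mod_cast hq1
      linarith
    have hk1 : (y1 : ℤ) < k := by
      by_contra hcon
      push Not at hcon
      nlinarith
    rw [h3, Int.toNat_of_nonneg (by omega), ← hk, sub_add_cancel, Int.toNat_natCast]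
  · intro n hn
    rw [mem_filter, mem_Ioc] at hn
    obtain ⟨⟨hn1, hn2⟩, hn3, ⟨q, hq, hqn⟩, hn4⟩ := hn
    rw [hqn, Int.toNat_natCast]
    have : ((a : ℝ) * n + b) = q := by exact_mod_cast hqn
    rw [this]

theorem b1_class (a : ℕ) (b : ℤ) (ha : 1 ≤ a) (hab : IsCoprime (a : ℤ) b) (P d : ℕ) (hP : 1 ≤ P)
    (hd : 1 ≤ d) (hPd : P.Coprime d) (v c : ℕ) (hv : IsCoprime ((a : ℤ) * v + b) (P : ℤ))
    (hc : IsCoprime ((a : ℤ) * c + b) (d : ℤ)) :
    ∃ u : ℕ, u ≡ v [MOD P] ∧ u ≡ c [MOD d] ∧ 0 ≤ (a : ℤ) * u + b ∧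
      ((a : ℤ) * u + b).toNat.Coprime (a * (P * d)) := by
  obtain ⟨u0, h1, h2⟩ := Nat.chineseRemainder hPd v c
  obtain ⟨u, hu⟩ : ∃ u : ℕ, u = u0 + P * d * b.natAbs := ⟨_, rfl⟩
  have e1 : u ≡ v [MOD P] := by
    rw [hu, mul_assoc]
    exact (Nat.modEq_iff_dvd.2 (by push_cast; exact ⟨-(d * b.natAbs), by push_cast; ring⟩)).trans h1
  have e2 : u ≡ c [MOD d] := by
    rw [hu, mul_comm P d, mul_assoc]
    exact (Nat.modEq_iff_dvd.2 (by push_cast; exact ⟨-(P * b.natAbs), by push_cast; ring⟩)).trans h2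
  have e3 : 0 ≤ (a : ℤ) * u + b := by
    have h3 : (b.natAbs : ℤ) ≤ u := by
      rw [hu]
      push_cast
      have h4 : (1 : ℤ) ≤ (P : ℤ) * d := by exact_mod_cast Nat.mul_pos hP hd
      have h5 : (0 : ℤ) ≤ u0 := by positivity
      have h6 : (0 : ℤ) ≤ |b| := abs_nonneg b
      nlinarith
    have h4 : (1 : ℤ) ≤ a := by exact_mod_cast ha
    have h5 : -b ≤ (b.natAbs : ℤ) := by
      rw [Int.natCast_natAbs]
      exact neg_le_abs b
    have h6 : (0 : ℤ) ≤ u := by positivity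
    nlinarith
  refine ⟨u, e1, e2, e3, ?_⟩
  rw [← Nat.isCoprime_iff_coprime, Int.toNat_of_nonneg e3]
  have key : ∀ (m t : ℕ), u ≡ t [MOD m] → IsCoprime ((a : ℤ) * t + b) (m : ℤ) →
      IsCoprime ((a : ℤ) * u + b) (m : ℤ) := by
    intro m t h3 h4
    have h5 := Nat.modEq_iff_dvd.1 h3
    obtain ⟨k, hk⟩ := h5
    have h6 : (a : ℤ) * u + b = (a : ℤ) * t + b + m * (-(a * k)) := by
      have : (u : ℤ) = t - m * k := by linarith
      rw [this]
      ring
    rw [h6]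
    exact (IsCoprime.add_mul_left_left_iff).2 h4
  push_cast
  refine IsCoprime.mul_right ?_ (IsCoprime.mul_right (key P v e1 hv) (key d c e2 hc))
  rw [add_comm]
  exact (IsCoprime.add_mul_left_left_iff).2 hab.symm

theorem b1_ev (a s P B A n0 : ℕ) (b : ℤ) (ha : 1 ≤ a) (has : a ≤ s) :
    ∃ x0 : ℕ, ∀ x : ℕ, x0 ≤ x → n0 ≤ s * x ∧
      (∀ y : ℕ, y ≤ 2 * x → ((a : ℤ) * y + b).toNat ≤ 8 * (s * x)) ∧
      (∀ d : ℕ, d ≤ DD x (B + 1) → a * (P * d) ≤ DD (s * x) B) ∧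
      2 * (((s * x : ℕ) : ℝ) / Real.log ((s * x : ℕ) : ℝ) ^ (A + 1)) ≤ x / Real.log x ^ A := by
  have htend : Filter.Tendsto (fun x : ℕ => Real.log (x : ℝ)) Filter.atTop Filter.atTop :=
    Real.tendsto_log_atTop.comp tendsto_natCast_atTop_atTop
  obtain ⟨x1, hx1⟩ := Filter.eventually_atTop.1
    (htend.eventually_ge_atTop (max (max (a * P * 2 ^ B : ℝ) (2 * s)) 1))
  refine ⟨max (max n0 (b.natAbs + 2)) (max x1 s), fun x hx => ?_⟩
  have c1 : n0 ≤ x := ((le_max_left _ _).trans (le_max_left _ _)).trans hx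
  have c2 : b.natAbs + 2 ≤ x := ((le_max_right _ _).trans (le_max_left _ _)).trans hx
  have c3 : x1 ≤ x := ((le_max_left _ _).trans (le_max_right _ _)).trans hx
  have c4 : s ≤ x := ((le_max_right _ _).trans (le_max_right _ _)).trans hx
  have hs : 1 ≤ s := ha.trans has
  have h1 := hx1 x c3
  have l1 : (a * P * 2 ^ B : ℝ) ≤ Real.log x := ((le_max_left _ _).trans (le_max_left _ _)).trans h1
  have l2 : (2 * s : ℝ) ≤ Real.log x := ((le_max_right _ _).trans (le_max_left _ _)).trans h1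
  have l3 : (1 : ℝ) ≤ Real.log x := (le_max_right _ _).trans h1
  have hx0 : (0 : ℝ) < x := by
    have : (0 : ℕ) < x := by omega
    exact_mod_cast this
  have hs0 : (0 : ℝ) < s := by exact_mod_cast hs
  have hs1 : (1 : ℝ) ≤ s := by exact_mod_cast hs
  have hsx : (x : ℝ) ≤ ((s * x : ℕ) : ℝ) := by
    push_cast
    nlinarith
  have hlog1 : Real.log x ≤ Real.log ((s * x : ℕ) : ℝ) := Real.log_le_log hx0 hsx
  have hlog2 : Real.log ((s * x : ℕ) : ℝ) ≤ 2 * Real.log x := by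
    push_cast
    rw [Real.log_mul hs0.ne' hx0.ne']
    have : Real.log s ≤ Real.log x := Real.log_le_log hs0 (by exact_mod_cast c4)
    linarith
  refine ⟨c1.trans (Nat.le_mul_of_pos_left x hs), ?_, ?_, ?_⟩
  · intro y hy
    apply Int.toNat_le.2
    have h2 : b ≤ (b.natAbs : ℤ) := Int.le_natAbs
    have h3 : (b.natAbs : ℤ) + 2 ≤ x := by exact_mod_cast c2
    have h4 : (y : ℤ) ≤ 2 * x := by exact_mod_cast hy
    have h5 : (a : ℤ) ≤ s := by exact_mod_cast has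
    have h6 : (1 : ℤ) ≤ s := by exact_mod_cast hs
    have h7 : (0 : ℤ) ≤ y := by positivity
    have h8 : (a : ℤ) * y ≤ s * (2 * x) := mul_le_mul h5 h4 h7 (by positivity)
    push_cast
    nlinarith
  · intro d hd
    unfold DD at hd ⊢
    have h2 : (d : ℝ) ≤ Real.sqrt x / Real.log x ^ (B + 1) := by
      refine le_trans (by exact_mod_cast hd) (Nat.floor_le ?_)
      positivity
    apply Nat.le_floor
    have h3 : Real.sqrt x ≤ Real.sqrt ((s * x : ℕ) : ℝ) := Real.sqrt_le_sqrt hsx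
    have h4 : Real.log ((s * x : ℕ) : ℝ) ^ B ≤ (2 * Real.log x) ^ B :=
      pow_le_pow_left₀ (by linarith) hlog2 B
    have h5 : Real.sqrt x / (2 * Real.log x) ^ B ≤
        Real.sqrt ((s * x : ℕ) : ℝ) / Real.log ((s * x : ℕ) : ℝ) ^ B := by
      have : 0 < Real.log ((s * x : ℕ) : ℝ) := by linarith
      exact div_le_div₀ (Real.sqrt_nonneg _) h3 (by positivity) h4
    refine le_trans ?_ h5
    push_cast
    have h6 : (a : ℝ) * (P * d) ≤ a * P * (Real.sqrt x / Real.log x ^ (B + 1)) := by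
      rw [← mul_assoc]
      exact mul_le_mul_of_nonneg_left h2 (by positivity)
    refine h6.trans ?_
    have hl : 0 < Real.log x := by linarith
    rw [mul_pow, pow_succ, ← mul_div_assoc, div_le_div_iff₀ (by positivity) (by positivity)]
    have h7 : 0 ≤ Real.sqrt x * Real.log x ^ B := by positivity
    calc (a : ℝ) * P * Real.sqrt x * (2 ^ B * Real.log x ^ B) =
        (a * P * 2 ^ B) * (Real.sqrt x * Real.log x ^ B) := by ring
      _ ≤ Real.log x * (Real.sqrt x * Real.log x ^ B) := mul_le_mul_of_nonneg_right l1 h7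
      _ = _ := by ring
  · have hl : 0 < Real.log x := by linarith
    have h2 : Real.log x ^ (A + 1) ≤ Real.log ((s * x : ℕ) : ℝ) ^ (A + 1) :=
      pow_le_pow_left₀ hl.le hlog1 _
    have h3 : ((s * x : ℕ) : ℝ) / Real.log ((s * x : ℕ) : ℝ) ^ (A + 1) ≤
        ((s * x : ℕ) : ℝ) / Real.log x ^ (A + 1) :=
      div_le_div_of_nonneg_left (by positivity) (by positivity) h2
    refine (mul_le_mul_of_nonneg_left h3 zero_le_two).trans ?_
    push_cast
    rw [pow_succ, ← mul_div_assoc, div_le_div_iff₀ (by positivity) (by positivity)]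
    have h7 : 0 ≤ x * Real.log x ^ A := by positivity
    calc 2 * ((s : ℝ) * x) * Real.log x ^ A = (2 * s) * (x * Real.log x ^ A) := by ring
      _ ≤ Real.log x * (x * Real.log x ^ A) := mul_le_mul_of_nonneg_right l2 h7
      _ = _ := by ring

/-- Proof. `H57C.bvw (A + 1) E` with `n = s x` (`A'`, `B₁`; `s ≥ a` is a constant), `B = B₁ + 1`, at `y = a y2 + b` and `y = a y1 + b` (`.toNat`; they are
`≤ 8 s x` for large `x`), giving `rr₂, rr₁`; `rr d = rr₂ (a P d) + rr₁ (a P d)`. For `d ≤ DD x B` and `x` large `a P d ≤ DD (s x) B₁`; `p1 ∤ a P d`. Let `u` be the solution of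
`u ≡ v [MOD P]`, `u ≡ c [MOD d]` (`Nat.chineseRemainder`, `d` is prime to `P`), shifted by a multiple of `P d` such that `r = a u + b ≥ 0`. The `n ∈ (y1, y2]`
with `n ≡ v [MOD P]`, `n ≡ c [MOD d]`, `a n + b = q` prime correspond to the primes `q ∈ (a y1 + b, a y2 + b]` with `q ≡ r [MOD a P d]`
(`a n ≡ a u [MOD a P d]` iff `n ≡ u [MOD P d]`). So the sum is `thp (a y2 + b) (a P d) r - thp (a y1 + b) (a P d) r`. `r` is prime to `a`
(`hab`), `P`, `d`; `φ(a P d) = φ(a P) φ(d)`. The sum of `E^ω(d) rr d` is at most that of `E^ω(m) rr_i m` over the `m = a P d ≤ DD (s x) B₁`,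
`p1 ∤ m` (`E ≥ 1`; for `E = 0` only `d = 1` counts, the term is `rr_i (a P)`, use `E = 1` instead), so `≤ 2 s x/(log (s x))^(A + 1) ≤ x/(log x)^A`. -/
theorem lin_level (a s : ℕ) (b : ℤ) (ha : 1 ≤ a) (has : a ≤ s) (hab : IsCoprime (a : ℤ) b) (P : ℕ)
    (hP : 1 ≤ P) (A E : ℕ) : ∃ A' B x0 : ℕ, ∀ x : ℕ, x0 ≤ x → ∀ p1 : ℕ, p1.Prime → ¬ p1 ∣ a * P →
    SWp A' (s * x) p1 → ∀ y1 y2 : ℕ, y1 ≤ y2 → y2 ≤ 2 * x → ∃ rr : ℕ → ℝ, (∀ d, 0 ≤ rr d) ∧
      (∀ d, 1 ≤ d → d ≤ DD x B → d.Coprime (a * P) → ¬ p1 ∣ d → ∀ v c : ℕ,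
        IsCoprime ((a : ℤ) * v + b) (P : ℤ) → IsCoprime ((a : ℤ) * c + b) (d : ℤ) →
        |LS a b y1 y2 P v (fun n => n ≡ c [MOD d]) -
          (thl a b y2 - thl a b y1) / (Nat.totient (a * P) : ℝ) / (Nat.totient d : ℝ)| ≤ rr d) ∧
      ∑ d ∈ (Icc 1 (DD x B)).filter (fun d => d.Coprime (a * P) ∧ ¬ p1 ∣ d),
        (E : ℝ) ^ d.primeFactors.card * rr d ≤ x / Real.log x ^ A := by
  obtain ⟨A', B1, n0, hbv⟩ := H57C.bvw (A + 1) (E + 1)
  obtain ⟨x0, hx0⟩ := b1_ev a s P B1 A n0 b ha has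
  refine ⟨A', B1 + 1, x0, fun x hx p1 hp1 hp1aP hSW y1 y2 hy12 hy2 => ?_⟩
  obtain ⟨g1, g2, g3, g4⟩ := hx0 x hx
  obtain ⟨r2, hr20, hr21, hr22⟩ := hbv (s * x) g1 p1 hSW ((a : ℤ) * y2 + b).toNat (g2 y2 hy2)
  obtain ⟨r1, hr10, hr11, hr12⟩ := hbv (s * x) g1 p1 hSW ((a : ℤ) * y1 + b).toNat
    (g2 y1 (hy12.trans hy2))
  have haP : 1 ≤ a * P := Nat.mul_pos ha hP
  have hnd : ∀ d : ℕ, ¬ p1 ∣ d → ¬ p1 ∣ a * (P * d) := by
    intro d hd h
    rw [← mul_assoc] at h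
    rcases (Nat.Prime.dvd_mul hp1).1 h with h1 | h1
    · exact hp1aP h1
    · exact hd h1
  refine ⟨fun d => r2 (a * (P * d)) + r1 (a * (P * d)), fun d => add_nonneg (hr20 _) (hr10 _),
    ?_, ?_⟩
  · intro d hd1 hdD hdc hpd v c hv hc
    have hPd : P.Coprime d := (Nat.Coprime.coprime_mul_left_right hdc).symm
    obtain ⟨u, hu1, hu2, hu3, hu4⟩ := b1_class a b ha hab P d hP hd1 hPd v c hv hc
    rw [b1_sum a b ha P d hPd v c u (fun n => n ≡ c [MOD d]) (fun n => Iff.rfl) hu1 hu2 hu3 y1 y2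
      hy12]
    have hm1 : 1 ≤ a * (P * d) := Nat.mul_pos ha (Nat.mul_pos hP hd1)
    have t2 := hr21 (a * (P * d)) hm1 (g3 d hdD) (hnd d hpd) _ hu4
    have t1 := hr11 (a * (P * d)) hm1 (g3 d hdD) (hnd d hpd) _ hu4
    have hφ : (Nat.totient (a * (P * d)) : ℝ) = Nat.totient (a * P) * Nat.totient d := by
      rw [← mul_assoc, Nat.totient_mul hdc.symm]
      push_cast
      ring
    rw [hφ] at t1 t2
    unfold thl
    rw [div_div]
    have h3 : ∀ p q r t F : ℝ, p - q - (r - t) / F = (p - r / F) - (q - t / F) := by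
      intros; ring
    rw [h3]
    exact (abs_sub _ _).trans (add_le_add t2 t1)
  · have hE : ∀ r : ℕ → ℝ, (∀ d, 0 ≤ r d) →
        ∑ m ∈ (Icc 1 (DD (s * x) B1)).filter (fun d => ¬ p1 ∣ d),
          ((E + 1 : ℕ) : ℝ) ^ m.primeFactors.card * r m ≤
            ((s * x : ℕ) : ℝ) / Real.log ((s * x : ℕ) : ℝ) ^ (A + 1) →
        ∑ d ∈ (Icc 1 (DD x (B1 + 1))).filter (fun d => d.Coprime (a * P) ∧ ¬ p1 ∣ d),
          (E : ℝ) ^ d.primeFactors.card * r (a * (P * d)) ≤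
            ((s * x : ℕ) : ℝ) / Real.log ((s * x : ℕ) : ℝ) ^ (A + 1) := by
      intro r hr0 hr
      refine le_trans ?_ hr
      have hinj : Set.InjOn (fun d : ℕ => a * (P * d))
          ((Icc 1 (DD x (B1 + 1))).filter (fun d => d.Coprime (a * P) ∧ ¬ p1 ∣ d) : Finset ℕ) := by
        intro d1 _ d2 _ h
        have h1 : a * (P * d1) = a * (P * d2) := h
        rw [← mul_assoc, ← mul_assoc] at h1
        exact Nat.eq_of_mul_eq_mul_left haP h1
      have hsub : ((Icc 1 (DD x (B1 + 1))).filter (fun d => d.Coprime (a * P) ∧ ¬ p1 ∣ d)).image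
          (fun d : ℕ => a * (P * d)) ⊆
          (Icc 1 (DD (s * x) B1)).filter (fun d => ¬ p1 ∣ d) := by
        intro m hm
        obtain ⟨d, hd, rfl⟩ := mem_image.1 hm
        rw [mem_filter, mem_Icc] at hd ⊢
        exact ⟨⟨Nat.mul_pos ha (Nat.mul_pos hP hd.1.1), g3 d hd.1.2⟩, hnd d hd.2.2⟩
      calc ∑ d ∈ (Icc 1 (DD x (B1 + 1))).filter (fun d => d.Coprime (a * P) ∧ ¬ p1 ∣ d),
            (E : ℝ) ^ d.primeFactors.card * r (a * (P * d)) ≤
          ∑ d ∈ (Icc 1 (DD x (B1 + 1))).filter (fun d => d.Coprime (a * P) ∧ ¬ p1 ∣ d),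
            ((E + 1 : ℕ) : ℝ) ^ (a * (P * d)).primeFactors.card * r (a * (P * d)) := by
            refine sum_le_sum fun d hd => ?_
            rw [mem_filter, mem_Icc] at hd
            refine mul_le_mul_of_nonneg_right ?_ (hr0 _)
            have h1 : d.primeFactors.card ≤ (a * (P * d)).primeFactors.card := by
              apply card_le_card
              apply Nat.primeFactors_mono
              · exact ⟨a * P, by ring⟩
              · have := Nat.mul_pos ha (Nat.mul_pos hP hd.1.1)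
                exact this.ne'
            calc (E : ℝ) ^ d.primeFactors.card ≤ ((E + 1 : ℕ) : ℝ) ^ d.primeFactors.card := by
                  refine pow_le_pow_left₀ (Nat.cast_nonneg _) ?_ _
                  push_cast
                  linarith
              _ ≤ ((E + 1 : ℕ) : ℝ) ^ (a * (P * d)).primeFactors.card := by
                  refine pow_le_pow_right₀ ?_ h1
                  push_cast
                  have : (0 : ℝ) ≤ E := Nat.cast_nonneg _
                  linarith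
        _ = ∑ m ∈ ((Icc 1 (DD x (B1 + 1))).filter (fun d => d.Coprime (a * P) ∧ ¬ p1 ∣ d)).image
              (fun d : ℕ => a * (P * d)), ((E + 1 : ℕ) : ℝ) ^ m.primeFactors.card * r m := by
            rw [sum_image hinj]
        _ ≤ _ := by
            refine sum_le_sum_of_subset_of_nonneg hsub fun m _ _ => ?_
            exact mul_nonneg (pow_nonneg (Nat.cast_nonneg _) _) (hr0 m)
    have h1 := hE r2 hr20 hr22
    have h2 := hE r1 hr10 hr12
    have h3 : ∑ d ∈ (Icc 1 (DD x (B1 + 1))).filter (fun d => d.Coprime (a * P) ∧ ¬ p1 ∣ d),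
        (E : ℝ) ^ d.primeFactors.card * (r2 (a * (P * d)) + r1 (a * (P * d))) =
      ∑ d ∈ (Icc 1 (DD x (B1 + 1))).filter (fun d => d.Coprime (a * P) ∧ ¬ p1 ∣ d),
        (E : ℝ) ^ d.primeFactors.card * r2 (a * (P * d)) +
      ∑ d ∈ (Icc 1 (DD x (B1 + 1))).filter (fun d => d.Coprime (a * P) ∧ ¬ p1 ∣ d),
        (E : ℝ) ^ d.primeFactors.card * r1 (a * (P * d)) := by
      rw [← sum_add_distrib]
      exact sum_congr rfl fun d _ => by ring
    rw [h3]
    linarith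

end Pool.Agent.Lib.H59W
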