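import Pool.Agent.Lib.H59W.A0B
import Pool.Agent.Lib.H59W.B1
import Pool.Agent.Lib.H57C.BH2
import Pool.Agent.Lib.H59C.C0

/-!
# Chunk B2: `F_i(n)` prime, the other values without small prime factors; an exceptional prime `p1` is left out
-/

open Finset Polynomial

namespace Pool.Agent.Lib.H59W

open Pool.Agent.Lib.H33B (Sys NoFix wF FS_D)
open Pool.Agent.Lib.H59C (DD SWp th thp)

theorem b2_cop {P : ℤ[X]} (h : P.natDegree = 1) (hirr : Irreducible P) :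
    IsCoprime (P.coeff 1) (P.coeff 0) := by
  have hp := hirr.isPrimitive (by omega)
  rw [Int.isCoprime_iff_gcd_eq_one]
  have h1 : C ((Int.gcd (P.coeff 1) (P.coeff 0) : ℕ) : ℤ) ∣ P := by
    rw [C_dvd_iff_dvd_coeff]
    intro i
    rcases i with _ | _ | i
    · exact Int.gcd_dvd_right _ _
    · exact Int.gcd_dvd_left _ _
    · rw [coeff_eq_zero_of_natDegree_lt (show P.natDegree < i + 1 + 1 by omega)]
      exact dvd_zero _
  have h2 := hp _ h1
  rw [Int.isUnit_iff_natAbs_eq, Int.natAbs_natCast] at h2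
  exact h2

theorem b2_root1 {a : ℕ} {b : ℤ} {q : ℕ} (hq : q.Prime) (ha : ¬ q ∣ a) :
    ((range q).filter (fun c : ℕ => (q : ℤ) ∣ (a : ℤ) * c + b)).card = 1 := by
  have : Fact q.Prime := ⟨hq⟩
  have ha' : (a : ZMod q) ≠ 0 := by
    intro h
    exact ha ((ZMod.natCast_eq_zero_iff a q).1 h)
  rw [card_eq_one]
  refine ⟨((-(b : ZMod q)) * (a : ZMod q)⁻¹).val, ?_⟩
  ext c
  rw [mem_filter, mem_range, mem_singleton, ← ZMod.intCast_zmod_eq_zero_iff_dvd]
  push_cast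
  constructor
  · rintro ⟨h1, h2⟩
    have h3 : (c : ZMod q) = -(b : ZMod q) * (a : ZMod q)⁻¹ := by
      rw [eq_mul_inv_iff_mul_eq₀ ha']
      linear_combination h2
    rw [← h3, ZMod.val_natCast, Nat.mod_eq_of_lt h1]
  · rintro rfl
    refine ⟨ZMod.val_lt _, ?_⟩
    rw [ZMod.natCast_val, ZMod.cast_id', id_eq]
    field_simp
    ring

/-- the classes -/
theorem b2_classes {g : ℕ} (F : Fin g → ℤ[X]) (hN : NoFix F) (i : Fin g) (a : ℕ) (b : ℤ)
    (hFi : ∀ n : ℤ, (F i).eval n = a * n + b) (q : ℕ) (hq : q.Prime) (ha : ¬ q ∣ a) :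
    1 ≤ wF F q ∧
    ((range q).filter (fun c : ℕ => (q : ℤ) ∣ (∏ j, F j).eval (c : ℤ) ∧
      ¬ (q : ℤ) ∣ (a : ℤ) * c + b)).card = wF F q - 1 := by
  have h1 := b2_root1 (b := b) hq ha
  have hsub : (range q).filter (fun c : ℕ => (q : ℤ) ∣ (a : ℤ) * c + b) ⊆
      (range q).filter (fun c : ℕ => (q : ℤ) ∣ (∏ j, F j).eval (c : ℤ)) := by
    intro c hc
    rw [mem_filter] at hc ⊢
    refine ⟨hc.1, ?_⟩
    rw [eval_prod]
    have h2 : (q : ℤ) ∣ (F i).eval (c : ℤ) := by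
      rw [hFi]
      exact hc.2
    exact h2.trans (dvd_prod_of_mem _ (mem_univ i))
  have h3 : (range q).filter (fun c : ℕ => (q : ℤ) ∣ (∏ j, F j).eval (c : ℤ) ∧
      ¬ (q : ℤ) ∣ (a : ℤ) * c + b) =
      (range q).filter (fun c : ℕ => (q : ℤ) ∣ (∏ j, F j).eval (c : ℤ)) \
      (range q).filter (fun c : ℕ => (q : ℤ) ∣ (a : ℤ) * c + b) := by
    ext c
    simp only [mem_filter, mem_sdiff]
    tauto
  have h4 : ((range q).filter (fun c : ℕ => (q : ℤ) ∣ (∏ j, F j).eval (c : ℤ))).card = wF F q := rfl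
  have h5 := card_le_card hsub
  rw [h3, card_sdiff_of_subset hsub, h1, h4]
  rw [h1, h4] at h5
  exact ⟨h5, rfl⟩

/-- the classes modulo `d` -/
noncomputable def b2_C {g : ℕ} (F : Fin g → ℤ[X]) (a : ℕ) (b : ℤ) (d : ℕ) : Finset ℕ :=
  (range d).filter (fun c : ℕ => ∀ q ∈ d.primeFactors, (q : ℤ) ∣ (∏ j, F j).eval (c : ℤ) ∧
    ¬ (q : ℤ) ∣ (a : ℤ) * c + b)

theorem b2_lin_mod (a : ℕ) (b : ℤ) (n q : ℕ) :
    (q : ℤ) ∣ (a : ℤ) * ((n % q : ℕ) : ℤ) + b ↔ (q : ℤ) ∣ (a : ℤ) * n + b := by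
  have h := H59.dvd_eval_mod_iff (C (a : ℤ) * X + C b) q n
  simpa using h

theorem b2_Ccard {g : ℕ} (F : Fin g → ℤ[X]) (hN : NoFix F) (i : Fin g) (a : ℕ) (b : ℤ)
    (hFi : ∀ n : ℤ, (F i).eval n = a * n + b) (d : ℕ) (hd : Squarefree d)
    (ha : ∀ q ∈ d.primeFactors, ¬ q ∣ a) :
    (b2_C F a b d).card = ∏ q ∈ d.primeFactors, (wF F q - 1) := by
  have h1 := H33B.SR1_crt d.primeFactors (fun p hp => Nat.prime_of_mem_primeFactors hp)
    (fun q c => (q : ℤ) ∣ (∏ j, F j).eval (c : ℤ) ∧ ¬ (q : ℤ) ∣ (a : ℤ) * c + b)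
    (fun q _ c => by
      rw [H59.dvd_eval_mod_iff, b2_lin_mod])
  rw [Nat.prod_primeFactors_of_squarefree hd] at h1
  unfold b2_C
  rw [h1]
  refine prod_congr rfl fun q hq => ?_
  exact (b2_classes F hN i a b hFi q (Nat.prime_of_mem_primeFactors hq) (ha q hq)).2

theorem b2_mod2 {d q n : ℕ} (h : q ∣ d) (P : ℤ[X]) :
    (q : ℤ) ∣ P.eval ((n % d : ℕ) : ℤ) ↔ (q : ℤ) ∣ P.eval (n : ℤ) := by
  rw [← H59.dvd_eval_mod_iff, Nat.mod_mod_of_dvd _ h, H59.dvd_eval_mod_iff]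

theorem b2_mod3 {d q n : ℕ} (h : q ∣ d) (a : ℕ) (b : ℤ) :
    (q : ℤ) ∣ (a : ℤ) * ((n % d : ℕ) : ℤ) + b ↔ (q : ℤ) ∣ (a : ℤ) * n + b := by
  rw [← b2_lin_mod, Nat.mod_mod_of_dvd _ h, b2_lin_mod]

open Classical in
/-- the set `S` -/
noncomputable def b2_S (a : ℕ) (b : ℤ) (y1 y2 P v : ℕ) : Finset ℕ :=
  (Ioc y1 y2).filter (fun n : ℕ => n ≡ v [MOD P] ∧ ∃ q : ℕ, q.Prime ∧ (a : ℤ) * n + b = q)

theorem b2_memS {a : ℕ} {b : ℤ} {y1 y2 P v n : ℕ} : n ∈ b2_S a b y1 y2 P v ↔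
    (y1 < n ∧ n ≤ y2) ∧ n ≡ v [MOD P] ∧ ∃ q : ℕ, q.Prime ∧ (a : ℤ) * n + b = q := by
  classical
  unfold b2_S
  rw [mem_filter, mem_Ioc]

open Classical in
theorem b2_split {g : ℕ} (F : Fin g → ℤ[X]) (a : ℕ) (b : ℤ)
    (z y1 y2 P v : ℕ) (hy : ∀ n : ℕ, y1 < n → (z : ℤ) < a * n + b) (d : ℕ) (hd0 : 0 < d)
    (hd : ∀ q ∈ d.primeFactors, q ≤ z) :
    ∑ n ∈ (b2_S a b y1 y2 P v).filter (fun n : ℕ => ∀ q ∈ d.primeFactors,
      (q : ℤ) ∣ (∏ j, F j).eval (n : ℤ)), Real.log ((a : ℝ) * n + b) =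
    ∑ c ∈ b2_C F a b d, LS a b y1 y2 P v (fun n => n ≡ c [MOD d]) := by
  rw [← sum_fiberwise_of_maps_to (g := fun n => n % d) (t := b2_C F a b d)]
  · refine sum_congr rfl fun c hc => ?_
    unfold LS
    unfold b2_C at hc
    rw [mem_filter, mem_range] at hc
    refine sum_congr ?_ fun _ _ => rfl
    ext n
    simp only [mem_filter, b2_memS, mem_Ioc]
    constructor
    · rintro ⟨⟨⟨h1, h2, h3⟩, h4⟩, h5⟩
      refine ⟨h1, h2, h3, ?_⟩
      unfold Nat.ModEq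
      rw [h5, Nat.mod_eq_of_lt hc.1]
    · rintro ⟨h1, h2, h3, h4⟩
      have h5 : n % d = c := by
        have h6 : n % d = c % d := h4
        rwa [Nat.mod_eq_of_lt hc.1] at h6
      refine ⟨⟨⟨h1, h2, h3⟩, fun q hq => ?_⟩, h5⟩
      have h6 := (hc.2 q hq).1
      rwa [← h5, b2_mod2 (Nat.dvd_of_mem_primeFactors hq)] at h6
  · intro n hn
    simp only [mem_filter, b2_memS] at hn
    obtain ⟨⟨⟨h0, _⟩, _, q', hq', he⟩, h4⟩ := hn
    unfold b2_C
    rw [mem_filter, mem_range]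
    refine ⟨Nat.mod_lt _ hd0, fun q hq => ?_⟩
    have hqd := Nat.dvd_of_mem_primeFactors hq
    rw [b2_mod2 hqd, b2_mod3 hqd]
    refine ⟨h4 q hq, fun h5 => ?_⟩
    have hqp := Nat.prime_of_mem_primeFactors hq
    rw [he, Int.natCast_dvd_natCast, Nat.prime_dvd_prime_iff_eq hqp hq'] at h5
    have h6 := hy n h0
    rw [he, ← h5] at h6
    have h7 := hd q hq
    have h8 : z < q := by exact_mod_cast h6
    omega

/-- the sifting primes -/
def b2_Q (w z p1 : ℕ) : Finset ℕ := (Nat.primesBelow (z + 1) \ Nat.primesBelow (w + 1)).erase p1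

theorem b2_memQ {w z p1 q : ℕ} : q ∈ b2_Q w z p1 ↔ q ≠ p1 ∧ q.Prime ∧ w < q ∧ q ≤ z := by
  unfold b2_Q
  rw [mem_erase, mem_sdiff, Nat.mem_primesBelow, Nat.mem_primesBelow]
  constructor
  · rintro ⟨h1, ⟨h2, h3⟩, h4⟩
    have h5 : ¬ q < w + 1 := fun h => h4 ⟨h, h3⟩
    exact ⟨h1, h3, by omega, by omega⟩
  · rintro ⟨h1, h2, h3, h4⟩
    exact ⟨h1, ⟨by omega, h2⟩, fun h => by omega⟩

/-- the density -/
noncomputable def b2_g {g : ℕ} (F : Fin g → ℤ[X]) (Q : Finset ℕ) (q : ℕ) : ℝ :=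
  if q ∈ Q then ((wF F q : ℝ) - 1) / ((q : ℝ) - 1) else 0

theorem b2_rem {g : ℕ} (F : Fin g → ℤ[X]) (hF : Sys F) (hN : NoFix F) (i : Fin g) (a : ℕ) (b : ℤ)
    (ha : 1 ≤ a) (hFi : ∀ n : ℤ, (F i).eval n = a * n + b) (w z p1 y1 y2 v D : ℕ) (haw : a ≤ w)
    (hp1 : w < p1) (hp1' : p1.Prime)
    (hy : ∀ n : ℕ, y1 < n → (z : ℤ) < a * n + b) (X : ℝ) (rr : ℕ → ℝ)
    (hrr0 : ∀ d, 0 ≤ rr d) (hrr : ∀ d, 1 ≤ d → d ≤ D → d.Coprime (a * primorial w) → ¬ p1 ∣ d → ∀ c : ℕ,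
        IsCoprime ((a : ℤ) * c + b) (d : ℤ) →
        |LS a b y1 y2 (primorial w) v (fun n => n ≡ c [MOD d]) - X / (Nat.totient d : ℝ)| ≤ rr d)
    (d : ℕ) (hd1 : 1 ≤ d) (hdD : d ≤ D) (hsq : Squarefree d)
    (hdQ : ∀ q ∈ d.primeFactors, q ∈ b2_Q w z p1) :
    |∑ n ∈ (open Classical in (b2_S a b y1 y2 (primorial w) v).filter
        (fun n : ℕ => ∀ q ∈ d.primeFactors, (q : ℤ) ∣ (∏ j, F j).eval (n : ℤ))),
        Real.log ((a : ℝ) * n + b) - X * ∏ q ∈ d.primeFactors, b2_g F (b2_Q w z p1) q| ≤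
      (FS_D F : ℝ) ^ d.primeFactors.card * rr d := by
  classical
  have hqa : ∀ q ∈ d.primeFactors, ¬ q ∣ a := by
    intro q hq h
    have h1 := (b2_memQ.1 (hdQ q hq)).2.2.1
    have h2 := Nat.le_of_dvd (by omega) h
    omega
  have hcopP : d.Coprime (a * primorial w) := by
    refine Nat.coprime_of_dvd fun q hq hqd hqaP => ?_
    have hqm : q ∈ d.primeFactors := Nat.mem_primeFactors.2 ⟨hq, hqd, by omega⟩
    rcases (Nat.Prime.dvd_mul hq).1 hqaP with h | h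
    · exact hqa q hqm h
    · have h1 := (b2_memQ.1 (hdQ q hqm)).2.2.1
      have h2 : primorial w = H33B.PW (w + 1) := rfl
      rw [h2, H33B.CV4_dvd _ _ hq] at h
      omega
  have hp1d : ¬ p1 ∣ d := by
    intro h
    exact (b2_memQ.1 (hdQ p1 (Nat.mem_primeFactors.2 ⟨hp1', h, by omega⟩))).1 rfl
  have htot : (Nat.totient d : ℝ) = ∏ q ∈ d.primeFactors, ((q : ℝ) - 1) :=
    H68T.cg1_totient_squarefree_real hsq
  have htot0 : (0 : ℝ) < Nat.totient d := by exact_mod_cast Nat.totient_pos.2 hd1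
  have hcard : ((b2_C F a b d).card : ℝ) = ∏ q ∈ d.primeFactors, ((wF F q : ℝ) - 1) := by
    rw [b2_Ccard F hN i a b hFi d hsq hqa]
    push_cast
    refine prod_congr rfl fun q hq => ?_
    have h1 := (b2_classes F hN i a b hFi q (Nat.prime_of_mem_primeFactors hq) (hqa q hq)).1
    rw [Nat.cast_sub h1, Nat.cast_one]
  have hg : X * ∏ q ∈ d.primeFactors, b2_g F (b2_Q w z p1) q =
      ∑ c ∈ b2_C F a b d, X / (Nat.totient d : ℝ) := by
    rw [sum_const, nsmul_eq_mul, hcard, htot]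
    have h1 : ∏ q ∈ d.primeFactors, b2_g F (b2_Q w z p1) q =
        (∏ q ∈ d.primeFactors, ((wF F q : ℝ) - 1)) / ∏ q ∈ d.primeFactors, ((q : ℝ) - 1) := by
      rw [← prod_div_distrib]
      refine prod_congr rfl fun q hq => ?_
      unfold b2_g
      rw [if_pos (hdQ q hq)]
    rw [h1]
    ring
  have hle : ((b2_C F a b d).card : ℝ) ≤ (FS_D F : ℝ) ^ d.primeFactors.card := by
    rw [hcard, ← prod_const]
    refine prod_le_prod (fun q hq => ?_) fun q hq => ?_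
    · have h1 := (b2_classes F hN i a b hFi q (Nat.prime_of_mem_primeFactors hq) (hqa q hq)).1
      have h2 : (1 : ℝ) ≤ wF F q := by exact_mod_cast h1
      linarith
    · have h1 : (wF F q : ℝ) ≤ FS_D F := by
        exact_mod_cast H33B.FS_wle F hF q (Nat.prime_of_mem_primeFactors hq)
      linarith
  rw [b2_split F a b z y1 y2 (primorial w) v hy d hd1 fun q hq => (b2_memQ.1 (hdQ q hq)).2.2.2,
    hg, ← sum_sub_distrib]
  have hterm : ∀ c ∈ b2_C F a b d,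
      |LS a b y1 y2 (primorial w) v (fun n => n ≡ c [MOD d]) - X / (Nat.totient d : ℝ)| ≤ rr d := by
    intro c hc
    unfold b2_C at hc
    rw [mem_filter, mem_range] at hc
    refine hrr d hd1 hdD hcopP hp1d c ?_
    rw [← Nat.prod_primeFactors_of_squarefree hsq]
    push_cast
    refine IsCoprime.prod_right fun q hq => ?_
    rw [isCoprime_comm, (Nat.prime_iff_prime_int.mp
      (Nat.prime_of_mem_primeFactors hq)).coprime_iff_not_dvd]
    exact (hc.2 q hq).2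
  calc |∑ c ∈ b2_C F a b d, (LS a b y1 y2 (primorial w) v (fun n => n ≡ c [MOD d]) -
        X / (Nat.totient d : ℝ))| ≤ ∑ c ∈ b2_C F a b d,
        |LS a b y1 y2 (primorial w) v (fun n => n ≡ c [MOD d]) - X / (Nat.totient d : ℝ)| :=
        abs_sum_le_sum_abs _ _
    _ ≤ ∑ _c ∈ b2_C F a b d, rr d := sum_le_sum hterm
    _ = (b2_C F a b d).card * rr d := by rw [sum_const, nsmul_eq_mul]
    _ ≤ (FS_D F : ℝ) ^ d.primeFactors.card * rr d := mul_le_mul_of_nonneg_right hle (hrr0 d)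

theorem b2_cond (a w z p1 d : ℕ) (ha : 1 ≤ a) (haw : a ≤ w) (hp1' : p1.Prime) (hd1 : 1 ≤ d)
    (hdQ : ∀ q ∈ d.primeFactors, q ∈ b2_Q w z p1) :
    d.Coprime (a * primorial w) ∧ ¬ p1 ∣ d := by
  have hqa : ∀ q ∈ d.primeFactors, ¬ q ∣ a := by
    intro q hq h
    have h1 := (b2_memQ.1 (hdQ q hq)).2.2.1
    have h2 := Nat.le_of_dvd (by omega) h
    omega
  constructor
  · refine Nat.coprime_of_dvd fun q hq hqd hqaP => ?_
    have hqm : q ∈ d.primeFactors := Nat.mem_primeFactors.2 ⟨hq, hqd, by omega⟩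
    rcases (Nat.Prime.dvd_mul hq).1 hqaP with h | h
    · exact hqa q hqm h
    · have h1 := (b2_memQ.1 (hdQ q hqm)).2.2.1
      have h2 : primorial w = H33B.PW (w + 1) := rfl
      rw [h2, H33B.CV4_dvd _ _ hq] at h
      omega
  · intro h
    exact (b2_memQ.1 (hdQ p1 (Nat.mem_primeFactors.2 ⟨hp1', h, by omega⟩))).1 rfl

theorem b2_facts {g : ℕ} (F : Fin g → ℤ[X]) (hN : NoFix F) (i : Fin g) (a : ℕ)
    (b : ℤ) (ha : 1 ≤ a) (hFi : ∀ n : ℤ, (F i).eval n = a * n + b) (w q : ℕ) (haw : a ≤ w)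
    (hq : q.Prime) (hwq : w < q) : (1 : ℝ) ≤ wF F q ∧ (wF F q : ℝ) ≤ q - 1 := by
  have hqa : ¬ q ∣ a := by
    intro h
    have h2 := Nat.le_of_dvd (by omega) h
    omega
  constructor
  · exact_mod_cast (b2_classes F hN i a b hFi q hq hqa).1
  · have h1 := H33B.wF_lt F hN q hq
    have h2 : (wF F q : ℝ) + 1 ≤ q := by exact_mod_cast h1
    linarith

open Classical in
theorem b2_sieve {g : ℕ} (F : Fin g → ℤ[X]) (hF : Sys F) (hN : NoFix F) (i : Fin g) (a : ℕ)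
    (b : ℤ) (ha : 1 ≤ a) (hFi : ∀ n : ℤ, (F i).eval n = a * n + b) (w z p1 y1 y2 v D : ℕ)
    (haw : a ≤ w) (hkw : 2 * FS_D F + 2 ≤ w) (hz : 2 ≤ z)
    (hp1 : w < p1) (hp1' : p1.Prime)
    (hy : ∀ n : ℕ, y1 < n → (z : ℤ) < a * n + b) (X R : ℝ) (hX : 0 ≤ X) (rr : ℕ → ℝ)
    (hrr0 : ∀ d, 0 ≤ rr d)
    (hrr : ∀ d, 1 ≤ d → d ≤ D → d.Coprime (a * primorial w) → ¬ p1 ∣ d → ∀ c : ℕ,
        IsCoprime ((a : ℤ) * c + b) (d : ℤ) →
        |LS a b y1 y2 (primorial w) v (fun n => n ≡ c [MOD d]) - X / (Nat.totient d : ℝ)| ≤ rr d)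
    (hsum : ∑ d ∈ (Icc 1 D).filter (fun d => d.Coprime (a * primorial w) ∧ ¬ p1 ∣ d),
        (FS_D F : ℝ) ^ d.primeFactors.card * rr d ≤ R)
    (hzD : z ^ (96 * FS_D F + 10) ≤ D) :
    X / 2 * ∏ q ∈ b2_Q w z p1, (1 - b2_g F (b2_Q w z p1) q) - R ≤
      ∑ n ∈ (b2_S a b y1 y2 (primorial w) v).filter (fun n : ℕ => ∀ q ∈ b2_Q w z p1,
        ¬ (q : ℤ) ∣ (∏ j, F j).eval (n : ℤ)), Real.log ((a : ℝ) * n + b) := by
  have hk : 1 ≤ FS_D F := by
    unfold FS_D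
    exact (hF.deg i).trans (single_le_sum (f := fun j => (F j).natDegree)
      (fun j _ => Nat.zero_le _) (mem_univ i))
  refine le_trans (H57C.bh (FS_D F) z hz hk (b2_Q w z p1) (fun q hq => ?_) (b2_g F (b2_Q w z p1))
    (fun q => ?_) (fun q hq => ?_) (b2_S a b y1 y2 (primorial w) v)
    (fun n : ℕ => Real.log ((a : ℝ) * n + b)) (fun n hn => ?_)
    (fun q n => (q : ℤ) ∣ (∏ j, F j).eval (n : ℤ)) X hX R ?_).1
    (le_of_eq (sum_congr (by ext n; simp only [mem_filter]) fun _ _ => rfl))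
  · obtain ⟨_, h2, h3, h4⟩ := b2_memQ.1 hq
    exact ⟨h2, by omega, h4⟩
  · unfold b2_g
    split_ifs with hq
    · obtain ⟨_, h2, h3, h4⟩ := b2_memQ.1 hq
      have h5 := (b2_facts F hN i a b ha hFi w q haw h2 h3).1
      have h6 : (2 : ℝ) ≤ q := by exact_mod_cast h2.two_le
      exact div_nonneg (by linarith) (by linarith)
    · exact le_rfl
  · unfold b2_g
    rw [if_pos hq]
    obtain ⟨_, h2, h3, h4⟩ := b2_memQ.1 hq
    have h5 := b2_facts F hN i a b ha hFi w q haw h2 h3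
    have h6 : (2 : ℝ) ≤ q := by exact_mod_cast h2.two_le
    have h7 : (wF F q : ℝ) ≤ FS_D F := by exact_mod_cast H33B.FS_wle F hF q h2
    rw [div_le_div_iff₀ (by linarith) (by linarith)]
    nlinarith [h5.1, h5.2]
  · obtain ⟨_, _, q, hq, he⟩ := b2_memS.1 hn
    have h1 : (a : ℝ) * n + b = q := by exact_mod_cast he
    change 0 ≤ Real.log ((a : ℝ) * n + b)
    rw [h1]
    exact Real.log_natCast_nonneg q
  · have h1 : ∀ d ∈ (Icc 1 (z ^ (96 * FS_D F + 10))).filter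
        (fun d => Squarefree d ∧ ∀ q ∈ d.primeFactors, q ∈ b2_Q w z p1),
        |∑ n ∈ (b2_S a b y1 y2 (primorial w) v).filter (fun n : ℕ => ∀ q ∈ d.primeFactors,
          (q : ℤ) ∣ (∏ j, F j).eval (n : ℤ)), Real.log ((a : ℝ) * n + b) -
          X * ∏ q ∈ d.primeFactors, b2_g F (b2_Q w z p1) q| ≤
        (FS_D F : ℝ) ^ d.primeFactors.card * rr d := by
      intro d hd
      rw [mem_filter, mem_Icc] at hd
      exact b2_rem F hF hN i a b ha hFi w z p1 y1 y2 v D haw hp1 hp1' hy X rr hrr0 hrr d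
        hd.1.1 (hd.1.2.trans hzD) hd.2.1 hd.2.2
    refine (sum_le_sum h1).trans (le_trans ?_ hsum)
    refine sum_le_sum_of_subset_of_nonneg (fun d hd => ?_) fun d _ _ =>
      mul_nonneg (by positivity) (hrr0 d)
    rw [mem_filter, mem_Icc] at hd
    rw [mem_filter, mem_Icc]
    exact ⟨⟨hd.1.1, hd.1.2.trans hzD⟩,
      b2_cond a w z p1 d ha haw hp1' hd.1.1 hd.2.2⟩

theorem b2_gd {g : ℕ} (F : Fin g → ℤ[X]) (hN : NoFix F) (w : ℕ) :
    ((gd (∏ i, F i) (primorial w)).card : ℝ) =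
      (primorial w : ℝ) * ∏ p ∈ Nat.primesBelow (w + 1), (1 - (wF F p : ℝ) / p) := by
  have h1 : (gd (∏ i, F i) (primorial w)).card =
      ∏ p ∈ Nat.primesBelow (w + 1), (p - H59.rootCount (∏ i, F i) p) := by
    rw [← H33B.count_coprime]
    unfold gd
    rfl
  have h2 : ((primorial w : ℕ) : ℝ) = ∏ p ∈ Nat.primesBelow (w + 1), (p : ℝ) := by
    have h3 : primorial w = H33B.PW (w + 1) := rfl
    rw [h3]
    unfold H33B.PW
    push_cast
    rfl
  rw [h1, h2, ← prod_mul_distrib]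
  push_cast
  refine prod_congr rfl fun p hp => ?_
  have hpp := Nat.prime_of_mem_primesBelow hp
  have hlt : wF F p < p := H33B.wF_lt F hN p hpp
  have hp0 : (p : ℝ) ≠ 0 := by exact_mod_cast hpp.ne_zero
  have h4 : ((p - H59.rootCount (∏ i, F i) p : ℕ) : ℝ) = (p : ℝ) - wF F p := by
    unfold wF at hlt ⊢
    rw [Nat.cast_sub hlt.le]
  rw [h4]
  field_simp

theorem b2_prod {g : ℕ} (F : Fin g → ℤ[X]) (hF : Sys F) (hN : NoFix F) (i : Fin g) (a : ℕ)
    (b : ℤ) (ha : 1 ≤ a) (hFi : ∀ n : ℤ, (F i).eval n = a * n + b) :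
    ∃ c : ℝ, 0 < c ∧ ∀ w z p1 : ℕ, a ≤ w → w < z →
      c * (Nat.totient (primorial w) : ℝ) / Real.log ((z + 1 : ℕ) : ℝ) ^ (g - 1) ≤
        (gd (∏ j, F j) (primorial w)).card *
          ∏ q ∈ b2_Q w z p1, (1 - b2_g F (b2_Q w z p1) q) := by
  classical
  obtain ⟨c, _, hc, _, h1⟩ := mert F hF hN
  refine ⟨c, hc, fun w z p1 haw hwz => ?_⟩
  set L := Real.log ((z + 1 : ℕ) : ℝ) with hLd
  have hL : 0 < L := Real.log_pos (by exact_mod_cast (by omega : 1 < z + 1))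
  set h : ℕ → ℝ := fun q => (1 - (wF F q : ℝ) / q) * (1 - 1 / (q : ℝ))⁻¹ with hh
  have hpr : ∀ q : ℕ, q.Prime → 0 < 1 - 1 / (q : ℝ) := fun q hq => (H33B.CV4_pos F hN 1 q hq).2
  have hpos : ∀ q : ℕ, q.Prime → 0 < h q := fun q hq =>
    mul_pos (H33B.FS_fac F hN q hq).1 (inv_pos.2 (hpr q hq))
  have hQ : ∏ q ∈ b2_Q w z p1, (1 - b2_g F (b2_Q w z p1) q) = ∏ q ∈ b2_Q w z p1, h q := by
    refine prod_congr rfl fun q hq => ?_
    obtain ⟨_, h2, h3, h4⟩ := b2_memQ.1 hq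
    unfold b2_g
    rw [if_pos hq, hh]
    have h5 : (2 : ℝ) ≤ q := by exact_mod_cast h2.two_le
    have h6 : (q : ℝ) - 1 ≠ 0 := by linarith
    have h7 : (q : ℝ) ≠ 0 := by linarith
    have h8 : (1 - 1 / (q : ℝ))⁻¹ = q / (q - 1) := by
      rw [one_sub_div h7, inv_div]
    change 1 - ((wF F q : ℝ) - 1) / ((q : ℝ) - 1) = (1 - (wF F q : ℝ) / q) * (1 - 1 / (q : ℝ))⁻¹
    rw [h8]
    field_simp
    ring
  have hT : ∏ q ∈ Nat.primesBelow (z + 1) \ Nat.primesBelow (w + 1), h q ≤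
      ∏ q ∈ b2_Q w z p1, h q := by
    refine a0b_sub h (erase_subset _ _) (fun q hq => ?_) fun q hq => ?_
    · exact (hpos q (Nat.prime_of_mem_primesBelow (mem_sdiff.1 hq).1)).le
    · obtain ⟨h2, h3⟩ := mem_sdiff.1 hq
      have h4 := Nat.prime_of_mem_primesBelow h2
      have h5 : w < q := by
        by_contra h6
        exact h3 (Nat.mem_primesBelow.2 ⟨by omega, h4⟩)
      have h6 := (b2_facts F hN i a b ha hFi w q haw h4 h5).1
      change (1 - (wF F q : ℝ) / q) * (1 - 1 / (q : ℝ))⁻¹ ≤ 1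
      rw [mul_inv_le_iff₀ (hpr q h4), one_mul]
      have h7 : 1 / (q : ℝ) ≤ (wF F q : ℝ) / q := div_le_div_of_nonneg_right h6 (by positivity)
      linarith
  have hsub : Nat.primesBelow (w + 1) ⊆ Nat.primesBelow (z + 1) := by
    intro p hp
    rw [Nat.mem_primesBelow] at hp ⊢
    exact ⟨by omega, hp.2⟩
  have hV : c / L ^ (g - 1) ≤ ∏ q ∈ Nat.primesBelow (z + 1), h q := by
    rw [hh, prod_mul_distrib, prod_inv_distrib]
    have h2 := (h1 (z + 1) (by omega)).1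
    have h3 : ∏ q ∈ Nat.primesBelow (z + 1), (1 - 1 / (q : ℝ)) ≤ 1 / L := by
      have h4 := H59.prod_one_sub_inv_le (z := z + 1) (by omega)
      simpa only [one_div] using h4
    have h4 : 0 < ∏ q ∈ Nat.primesBelow (z + 1), (1 - 1 / (q : ℝ)) :=
      prod_pos fun q hq => hpr q (Nat.prime_of_mem_primesBelow hq)
    have h5 : L ≤ (∏ q ∈ Nat.primesBelow (z + 1), (1 - 1 / (q : ℝ)))⁻¹ := by
      rw [le_inv_comm₀ hL h4, ← one_div]
      exact h3
    have h6 : c / L ^ (g - 1) = c / L ^ g * L := by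
      have h7 : L ^ g = L ^ (g - 1) * L := by
        rw [← pow_succ, Nat.sub_add_cancel hF.pos]
      rw [h7]
      field_simp
    rw [h6]
    exact mul_le_mul h2 h5 hL.le (prod_nonneg fun q hq =>
      (H33B.FS_fac F hN q (Nat.prime_of_mem_primesBelow hq)).1.le)
  have hU : ∏ q ∈ Nat.primesBelow (w + 1), h q =
      ((gd (∏ j, F j) (primorial w)).card : ℝ) / Nat.totient (primorial w) := by
    rw [hh, prod_mul_distrib, b2_gd F hN w]
    have h2 : (primorial w : ℝ) / Nat.totient (primorial w) =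
        ∏ p ∈ Nat.primesBelow (w + 1), (1 - 1 / (p : ℝ))⁻¹ := H33B.SR1_ratio (w + 1)
    rw [← h2]
    ring
  have htot : (0 : ℝ) < Nat.totient (primorial w) := by
    exact_mod_cast Nat.totient_pos.2 (primorial_pos w)
  rw [← prod_sdiff hsub, hU] at hV
  rw [hQ]
  have h3 := mul_le_mul_of_nonneg_left hV htot.le
  have h4 : (Nat.totient (primorial w) : ℝ) *
      ((∏ q ∈ Nat.primesBelow (z + 1) \ Nat.primesBelow (w + 1), h q) *
      (((gd (∏ j, F j) (primorial w)).card : ℝ) / Nat.totient (primorial w))) =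
      (gd (∏ j, F j) (primorial w)).card *
        ∏ q ∈ Nat.primesBelow (z + 1) \ Nat.primesBelow (w + 1), h q := by
    field_simp
  rw [h4] at h3
  calc c * (Nat.totient (primorial w) : ℝ) / L ^ (g - 1) =
      (Nat.totient (primorial w) : ℝ) * (c / L ^ (g - 1)) := by ring
    _ ≤ _ := h3
    _ ≤ _ := mul_le_mul_of_nonneg_left hT (Nat.cast_nonneg _)

theorem b2_tot (a P : ℕ) (ha : 1 ≤ a) (hP : 1 ≤ P) :
    (Nat.totient (a * P) : ℝ) ≤ a * Nat.totient P := by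
  have h1 : ∀ n : ℕ, (Nat.totient n : ℝ) = n * ∏ p ∈ n.primeFactors, (1 - (p : ℝ)⁻¹) := by
    intro n
    have h := congrArg (fun q : ℚ => (q : ℝ)) (Nat.totient_eq_mul_prod_factors n)
    push_cast at h
    exact h
  have h2 : ∀ n : ℕ, ∀ p ∈ n.primeFactors, 0 ≤ 1 - (p : ℝ)⁻¹ ∧ 1 - (p : ℝ)⁻¹ ≤ 1 := by
    intro n p hp
    have h3 : (1 : ℝ) < p := by exact_mod_cast (Nat.prime_of_mem_primeFactors hp).one_lt
    have h4 := inv_lt_one_of_one_lt₀ h3
    have h5 : 0 ≤ (p : ℝ)⁻¹ := by positivity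
    constructor <;> linarith
  rw [h1 (a * P), h1 P]
  push_cast
  rw [mul_assoc]
  refine mul_le_mul_of_nonneg_left (mul_le_mul_of_nonneg_left ?_ (Nat.cast_nonneg _))
    (Nat.cast_nonneg _)
  refine a0b_sub _ ?_ (fun p hp => (h2 _ p hp).1) fun p hp => (h2 _ p hp).2
  exact Nat.primeFactors_mono (dvd_mul_left P a) (by positivity)

theorem b2_thl (a : ℕ) (b : ℤ) (ha : 1 ≤ a) : ∃ x0 : ℕ, ∀ x : ℕ, x0 ≤ x →
    (a : ℝ) * x / 4 ≤ thl a b x - thl a b (x / 2) := by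
  obtain ⟨n0, hn0⟩ := H59C.th_pnt (1 / 16) (by norm_num)
  refine ⟨max n0 (8 * b.natAbs + 8), fun x hx => ?_⟩
  have hx0 : n0 ≤ x := (le_max_left _ _).trans hx
  have hxb : 8 * b.natAbs + 8 ≤ x := (le_max_right _ _).trans hx
  have hax : x ≤ a * x := Nat.le_mul_of_pos_left x ha
  have hax2 : x / 2 ≤ a * (x / 2) := Nat.le_mul_of_pos_left _ ha
  have hn : n0 ≤ a * x := hx0.trans hax
  have hb1 : b ≤ b.natAbs := Int.le_natAbs
  have hb2 : -(b.natAbs : ℤ) ≤ b := by omega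
  have hax2' : a * (x / 2) ≤ a * x := Nat.mul_le_mul_left _ (Nat.div_le_self _ _)
  obtain ⟨Y, hY⟩ : ∃ Y : ℕ, a * x = Y := ⟨_, rfl⟩
  obtain ⟨Z, hZ⟩ : ∃ Z : ℕ, a * (x / 2) = Z := ⟨_, rfl⟩
  have e1 : (a : ℤ) * x = Y := by exact_mod_cast hY
  have e2 : (a : ℤ) * ((x / 2 : ℕ) : ℤ) = Z := by exact_mod_cast hZ
  rw [hY] at hax hn hax2'
  rw [hZ] at hax2 hax2'
  have h1 := hn0 Y hn ((a : ℤ) * x + b).toNat (by rw [e1]; omega)
  have h2 := hn0 Y hn ((a : ℤ) * ((x / 2 : ℕ) : ℤ) + b).toNat (by rw [e2]; omega)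
  unfold thl
  rw [e1] at h1 ⊢
  rw [e2] at h2 ⊢
  have c1 : ((((Y : ℤ) + b).toNat : ℕ) : ℝ) = (Y : ℝ) + b := by
    have : ((((Y : ℤ) + b).toNat : ℕ) : ℤ) = (Y : ℤ) + b := by omega
    exact_mod_cast this
  have c2 : ((((Z : ℤ) + b).toNat : ℕ) : ℝ) = (Z : ℝ) + b := by
    have : ((((Z : ℤ) + b).toNat : ℕ) : ℤ) = (Z : ℤ) + b := by omega
    exact_mod_cast this
  rw [c1, abs_le] at h1
  rw [c2, abs_le] at h2
  have h3 : (Z : ℝ) ≤ Y / 2 := by
    have h4 : Z * 2 ≤ Y := by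
      rw [← hZ, ← hY, mul_assoc]
      exact Nat.mul_le_mul_left _ (Nat.div_mul_le_self x 2)
    have h5 : (Z : ℝ) * 2 ≤ Y := by exact_mod_cast h4
    linarith
  have h4 : (a : ℝ) * x = Y := by exact_mod_cast hY
  rw [h4]
  linarith [h1.1, h2.2]

/-- Proof. Let `F_i = a X + b` (`a ≥ 1`, `(a, b) = 1` as `F_i` is irreducible of degree one), `H = ∏_{j ≠ i} F_j`, `k = FS_D F ≥ 1`. Take
`w1 ≥ 2 k + 2, a`, so for `w ≥ w1` all prime factors of `a` divide `P = primorial w`. Put `y1 = ⌊x/2⌋`, `y2 = x`, `z = ⌊x^(dl F)⌋`.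

Sieve: `H57C.bh k z Q g S wt ev X Rm` with `S` = the `n ∈ (y1, y2]`, `n ≡ v [MOD P]`, `a n + b` prime, `wt n = log (a n + b)`, `Q` = the primes
`w < q ≤ z`, `q ≠ p1`, `ev q n`: `q ∣ H(n)`, `g q = (wF F q - 1)/(q - 1)`, `X = (thl a b y2 - thl a b y1)/φ(a P)`. For `q ∤ a` exactly one of the
`wF F q` classes modulo `q` has `q ∣ a n + b`, the other `wF F q - 1 ≤ k` classes are the `c` with `q ∣ H(c)`, `q ∤ a c + b`; in `S` one has
`a n + b > z` prime, so `n` is never in the first class. So for squarefree `d` composed of primes of `Q` the sum over `n ∈ S`, `d ∣ H(n)` is the sum of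
`LS a b y1 y2 P v (· ≡ c [MOD d])` over `∏_{q ∣ d} (wF F q - 1) ≤ k^(ω(d))` classes `c` modulo `d` with `(a c + b, d) = 1` (Chinese remainder theorem), and by
`lin_level` (`s = a`, `A = g + 2`, `E = k`) the remainder is `≤ k^(ω(d)) rr d`; `z^(96 k + 10) ≤ DD x B` for large `x`
(`(96 k + 10) dl F < 1/2`), so `Rm = x/(log x)^(g+2)`. `g q ≤ k/q`: `(wF - 1)/(q - 1) ≤ wF/q`.

Main term: `1 - g q = (1 - wF F q/q)/(1 - 1/q)`, so the product over `w < q ≤ z` is at least `c/(log z)^(g-1) · φ(P)/#gd (∏ F_j) P` (`mert`;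
`∏_{q ≤ z} (1 - 1/q)⁻¹ ≥ log z`, `H59.prod_one_sub_inv_le`, `#gd = P ∏_{q ≤ w} (1 - wF F q/q)`, `H33B.count_coprime`; omitting `p1` only makes it larger);
`X ≥ a x/(4 φ(a P))` by the prime number theorem (`H59C.th_pnt`), `φ(a P) = a φ(P)`. So the number of `n` counted is at least
`(1/(2 log x)) (X/2 · product - Rm) ≥ c x/((log x)^g #gd)` for large `x` (`log (a n + b) ≤ 2 log x`). Each of them has the property below: for `j = i` the only
prime factor of `F_i(n)` is `a n + b > x^(dl F)`; for `j ≠ i` a prime `q ≠ p1`, `q ≤ x^(dl F)`, `q ∣ F_j(n)` would be `≤ w` (but then it divides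
`∏ F_j (v)`) or in `Q`. -/
theorem lin_lower {g : ℕ} (F : Fin g → ℤ[X]) (hF : Sys F) (hN : NoFix F) (i : Fin g)
    (hi : (F i).natDegree = 1) : ∃ c : ℝ, 0 < c ∧ ∃ w1 : ℕ, ∀ w : ℕ, w1 ≤ w → ∃ A' x0 : ℕ,
    ∀ x : ℕ, x0 ≤ x → ∀ p1 : ℕ, p1.Prime → w < p1 → SWp A' ((F i).coeff 1 * x).toNat p1 →
    ∀ v : ℕ, IsCoprime ((∏ j, F j).eval (v : ℤ)) (primorial w : ℤ) →
      c * (x / Real.log x ^ g) ≤ (gd (∏ j, F j) (primorial w)).card *
        (cnt (fun n => n ≡ v [MOD primorial w] ∧ (∃ q : ℕ, q.Prime ∧ (F i).eval (n : ℤ) = q) ∧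
          ∀ j, ∀ q : ℕ, q.Prime → q ≠ p1 → (q : ℤ) ∣ (F j).eval (n : ℤ) → (x : ℝ) ^ (dl F) < q) x :
            ℝ) := by
  classical
  have hlead := hF.lead i
  unfold leadingCoeff at hlead
  rw [hi] at hlead
  obtain ⟨a, hac⟩ : ∃ a : ℕ, (F i).coeff 1 = a := ⟨((F i).coeff 1).toNat, by omega⟩
  set b : ℤ := (F i).coeff 0 with hbd
  have ha : 1 ≤ a := by omega
  have hab : IsCoprime (a : ℤ) b := by
    rw [← hac]
    exact b2_cop hi (hF.irr i)
  have hFi : ∀ n : ℤ, (F i).eval n = a * n + b := by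
    intro n
    rw [eq_X_add_C_of_natDegree_le_one hi.le, hac]
    simp [hbd]
  obtain ⟨c0, hc0, hprod⟩ := b2_prod F hF hN i a b ha hFi
  refine ⟨c0 / 32, by positivity, max (2 * FS_D F + 2) a, fun w hw => ?_⟩
  have hkw : 2 * FS_D F + 2 ≤ w := (le_max_left _ _).trans hw
  have haw : a ≤ w := (le_max_right _ _).trans hw
  have hP1 : 1 ≤ primorial w := primorial_pos w
  have hP0 : (0 : ℝ) < primorial w := by exact_mod_cast hP1
  obtain ⟨A', B, x1, hlev⟩ := lin_level a a b ha le_rfl hab (primorial w) hP1 (g + 2) (FS_D F)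
  obtain ⟨x2, hthl⟩ := b2_thl a b ha
  have hk0 : (0 : ℝ) ≤ FS_D F := Nat.cast_nonneg _
  have hdl : 0 < dl F := by
    unfold dl
    positivity
  have hdl1 : dl F ≤ 1 / 50 := by
    unfold dl
    exact one_div_le_one_div_of_le (by norm_num) (by linarith)
  set θ : ℝ := dl F * (96 * (FS_D F : ℝ) + 10) with hθ
  have hθ1 : θ < 1 / 2 := by
    rw [hθ]
    unfold dl
    rw [one_div_mul_eq_div, div_lt_div_iff₀ (by positivity) (by norm_num)]
    linarith
  have hcast := tendsto_natCast_atTop_atTop (R := ℝ)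
  have e1 : ∀ᶠ x : ℝ in Filter.atTop, Real.log x ^ (B : ℝ) ≤ x ^ (1 / 2 - θ) := by
    have h2 := (isLittleO_log_rpow_rpow_atTop (B : ℝ) (by linarith : (0 : ℝ) < 1 / 2 - θ)).bound
      (zero_lt_one)
    filter_upwards [h2, Filter.eventually_gt_atTop 1] with x hx hx1
    have hlx : 0 < Real.log x := Real.log_pos hx1
    rw [Real.norm_of_nonneg (Real.rpow_nonneg hlx.le _),
      Real.norm_of_nonneg (Real.rpow_nonneg (by linarith) _), one_mul] at hx
    exact hx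
  have e2 : ∀ᶠ x : ℕ in Filter.atTop, ((w + 2 : ℕ) : ℝ) ≤ (x : ℝ) ^ (dl F) :=
    ((tendsto_rpow_atTop hdl).comp hcast).eventually_ge_atTop _
  have e3 : ∀ᶠ x : ℕ in Filter.atTop, (8 : ℝ) ≤ (x : ℝ) ^ (1 - dl F) :=
    ((tendsto_rpow_atTop (by linarith)).comp hcast).eventually_ge_atTop _
  have e4 : ∀ᶠ x : ℕ in Filter.atTop, max 1 (16 * (primorial w : ℝ) / c0) ≤ Real.log x :=
    (Real.tendsto_log_atTop.comp hcast).eventually_ge_atTop _
  obtain ⟨x3, hx3⟩ := Filter.eventually_atTop.1 ((hcast.eventually e1).and (e2.and (e3.and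
    (e4.and (Filter.eventually_ge_atTop (max (max x1 x2) (max (8 * b.natAbs + 8) (a + 1))))))))
  refine ⟨A', x3, fun x hx p1 hp1' hp1 hSW v hv => ?_⟩
  obtain ⟨f1, f2, f3, f4, f5⟩ := hx3 x hx
  have g1 : x1 ≤ x := ((le_max_left _ _).trans (le_max_left _ _)).trans f5
  have g2 : x2 ≤ x := ((le_max_right _ _).trans (le_max_left _ _)).trans f5
  have g3 : 8 * b.natAbs + 8 ≤ x := ((le_max_left _ _).trans (le_max_right _ _)).trans f5
  have g4 : a + 1 ≤ x := ((le_max_right _ _).trans (le_max_right _ _)).trans f5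
  have hx0 : (0 : ℝ) < x := by exact_mod_cast (by omega : 0 < x)
  have hx1 : (1 : ℝ) ≤ x := by exact_mod_cast (by omega : 1 ≤ x)
  have hx8 : (8 : ℝ) ≤ x := by exact_mod_cast (by omega : 8 ≤ x)
  have hl1 : 1 ≤ Real.log x := (le_max_left _ _).trans f4
  have hl0 : 0 < Real.log x := by linarith
  have hl2 : 16 * (primorial w : ℝ) / c0 ≤ Real.log x := (le_max_right _ _).trans f4
  set z : ℕ := ⌊(x : ℝ) ^ (dl F)⌋₊ with hzd
  have hxd0 : 0 < (x : ℝ) ^ (dl F) := Real.rpow_pos_of_pos hx0 _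
  have hzw : w + 2 ≤ z := Nat.le_floor f2
  have hzx : (z : ℝ) ≤ (x : ℝ) ^ (dl F) := Nat.floor_le hxd0.le
  have hxd8 : (x : ℝ) ^ (dl F) ≤ x / 8 := by
    rw [le_div_iff₀ (by norm_num)]
    calc (x : ℝ) ^ (dl F) * 8 ≤ (x : ℝ) ^ (dl F) * (x : ℝ) ^ (1 - dl F) :=
          mul_le_mul_of_nonneg_left f3 hxd0.le
      _ = x := by
          rw [← Real.rpow_add hx0]
          simp
  have hz8 : 8 * z ≤ x := by
    have h1 : 8 * (z : ℝ) ≤ x := by linarith
    exact_mod_cast h1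
  have hzD : z ^ (96 * FS_D F + 10) ≤ DD x B := by
    unfold DD
    refine Nat.le_floor ?_
    rw [le_div_iff₀ (by positivity)]
    push_cast
    have h1 : (z : ℝ) ^ (96 * FS_D F + 10) ≤ (x : ℝ) ^ θ := by
      calc (z : ℝ) ^ (96 * FS_D F + 10) ≤ ((x : ℝ) ^ (dl F)) ^ (96 * FS_D F + 10) :=
            pow_le_pow_left₀ (Nat.cast_nonneg _) hzx _
        _ = (x : ℝ) ^ θ := by
            rw [← Real.rpow_natCast, ← Real.rpow_mul hx0.le, hθ]
            push_cast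
            rfl
    have h2 : Real.log x ^ B ≤ (x : ℝ) ^ (1 / 2 - θ) := by
      rw [← Real.rpow_natCast]
      exact f1
    calc (z : ℝ) ^ (96 * FS_D F + 10) * Real.log x ^ B ≤
        (x : ℝ) ^ θ * (x : ℝ) ^ (1 / 2 - θ) :=
          mul_le_mul h1 h2 (by positivity) (Real.rpow_nonneg hx0.le _)
      _ = Real.sqrt x := by
          rw [← Real.rpow_add hx0, Real.sqrt_eq_rpow]
          congr 1
          ring
  have hy : ∀ n : ℕ, x / 2 < n → (z : ℤ) < a * n + b := by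
    intro n hn
    have h1 : (n : ℤ) ≤ a * n := by
      exact_mod_cast Nat.le_mul_of_pos_left n ha
    have h2 : -(b.natAbs : ℤ) ≤ b := by omega
    omega
  have hSW' : SWp A' (a * x) p1 := by
    have h1 : ((F i).coeff 1 * x).toNat = a * x := by
      rw [hac]
      omega
    rwa [h1] at hSW
  have hp1n : ¬ p1 ∣ a * primorial w := by
    intro h
    rcases (Nat.Prime.dvd_mul hp1').1 h with h | h
    · have := Nat.le_of_dvd (by omega) h
      omega
    · have h2 : primorial w = H33B.PW (w + 1) := rfl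
      rw [h2, H33B.CV4_dvd _ _ hp1'] at h
      omega
  obtain ⟨rr, hrr0, hrr, hsum⟩ := hlev x g1 p1 hp1' hp1n hSW' (x / 2) x (Nat.div_le_self _ _)
    (by omega)
  have hvi : IsCoprime ((a : ℤ) * v + b) (primorial w : ℤ) := by
    rw [eval_prod] at hv
    have h1 := (IsCoprime.prod_left_iff.1 hv) i (mem_univ i)
    rwa [hFi] at h1
  have hD := hthl x g2
  set X : ℝ := (thl a b x - thl a b (x / 2)) / (Nat.totient (a * primorial w) : ℝ) with hXd
  have htot : (0 : ℝ) < Nat.totient (primorial w) := by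
    exact_mod_cast Nat.totient_pos.2 hP1
  have htot2 : (0 : ℝ) < Nat.totient (a * primorial w) := by
    exact_mod_cast Nat.totient_pos.2 (Nat.mul_pos ha hP1)
  have ha0 : (0 : ℝ) < a := by exact_mod_cast ha
  have hXlow : (x : ℝ) / (4 * Nat.totient (primorial w)) ≤ X := by
    rw [hXd, div_le_div_iff₀ (by positivity) htot2]
    have h1 := b2_tot a (primorial w) ha hP1
    calc (x : ℝ) * (Nat.totient (a * primorial w) : ℝ) ≤
        x * (a * Nat.totient (primorial w)) := mul_le_mul_of_nonneg_left h1 hx0.le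
      _ = (a : ℝ) * x / 4 * (4 * Nat.totient (primorial w)) := by ring
      _ ≤ _ := mul_le_mul_of_nonneg_right hD (by positivity)
  have hX0 : 0 ≤ X := le_trans (by positivity) hXlow
  have hsieve := b2_sieve F hF hN i a b ha hFi w z p1 (x / 2) x v (DD x B) haw hkw (by omega)
    hp1 hp1' hy X (x / Real.log x ^ (g + 2)) hX0 rr hrr0
    (fun d hd1 hd2 hd3 hd4 c hc => hrr d hd1 hd2 hd3 hd4 v c hvi hc) hsum hzD
  have hpr := hprod w z p1 haw (by omega)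
  set Pr0 : ℝ := ∏ q ∈ b2_Q w z p1, (1 - b2_g F (b2_Q w z p1) q) with hPr0
  set T : Finset ℕ := (b2_S a b (x / 2) x (primorial w) v).filter (fun n : ℕ =>
    ∀ q ∈ b2_Q w z p1, ¬ (q : ℤ) ∣ (∏ j, F j).eval (n : ℤ)) with hT
  have hsumT : ∑ n ∈ T, Real.log ((a : ℝ) * n + b) ≤ T.card * (2 * Real.log x) := by
    rw [← nsmul_eq_mul, ← sum_const]
    refine sum_le_sum fun n hn => ?_
    rw [hT, mem_filter, b2_memS] at hn
    obtain ⟨⟨⟨_, h2⟩, _, q, hq, he⟩, _⟩ := hn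
    have h3 : (a : ℝ) * n + b = q := by exact_mod_cast he
    rw [h3, two_mul, ← Real.log_mul hx0.ne' hx0.ne']
    refine Real.log_le_log (by exact_mod_cast hq.pos) ?_
    have h4 : (a : ℤ) * n + b ≤ x * x := by
      have h5 : b ≤ x := by omega
      have h6 : (a : ℤ) * n ≤ a * x := by
        exact_mod_cast Nat.mul_le_mul_left a h2
      have h7 : ((a : ℤ) + 1) * x ≤ x * x := by
        exact_mod_cast Nat.mul_le_mul_right x g4
      have h8 : ((a : ℤ) + 1) * x = a * x + x := by ring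
      omega
    rw [he] at h4
    exact_mod_cast h4
  have hTcnt : T.card ≤ cnt (fun n => n ≡ v [MOD primorial w] ∧
      (∃ q : ℕ, q.Prime ∧ (F i).eval (n : ℤ) = q) ∧
      ∀ j, ∀ q : ℕ, q.Prime → q ≠ p1 → (q : ℤ) ∣ (F j).eval (n : ℤ) →
        (x : ℝ) ^ (dl F) < q) x := by
    unfold cnt
    refine card_le_card fun n hn => ?_
    rw [hT, mem_filter, b2_memS] at hn
    obtain ⟨⟨⟨h1, h2⟩, h3, q0, hq0, he⟩, h5⟩ := hn
    simp only [mem_filter, mem_Icc]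
    refine ⟨⟨by omega, h2⟩, h3, ⟨q0, hq0, by rw [hFi, he]⟩, fun j q hq hqp hd => ?_⟩
    by_contra hcon
    push Not at hcon
    have hqz : q ≤ z := Nat.le_floor hcon
    have hd2 : (q : ℤ) ∣ (∏ j, F j).eval (n : ℤ) := by
      rw [eval_prod]
      exact hd.trans (dvd_prod_of_mem _ (mem_univ j))
    by_cases hqw : w < q
    · exact h5 q (b2_memQ.2 ⟨hqp, hq, hqw, hqz⟩) hd2
    · have hqP : q ∣ primorial w := by
        have h6 : primorial w = H33B.PW (w + 1) := rfl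
        rw [h6, H33B.CV4_dvd _ _ hq]
        omega
      have h9 : n % q = v % q := h3.of_dvd hqP
      rw [← H59.dvd_eval_mod_iff, h9, H59.dvd_eval_mod_iff] at hd2
      have h10 : IsUnit (q : ℤ) := hv.isUnit_of_dvd' hd2 (by exact_mod_cast hqP)
      exact (Nat.prime_iff_prime_int.1 hq).not_isUnit h10
  set G : ℝ := ((gd (∏ j, F j) (primorial w)).card : ℝ) with hG
  have hG0 : 0 ≤ G := Nat.cast_nonneg _
  have hGP : G ≤ primorial w := by
    have h1 : (gd (∏ j, F j) (primorial w)).card ≤ primorial w := by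
      unfold gd
      exact (card_filter_le _ _).trans (card_range _).le
    rw [hG]
    exact_mod_cast h1
  have hlz : Real.log ((z + 1 : ℕ) : ℝ) ≤ Real.log x :=
    Real.log_le_log (by positivity) (by exact_mod_cast (by omega : z + 1 ≤ x))
  have hlz0 : 0 < Real.log ((z + 1 : ℕ) : ℝ) :=
    Real.log_pos (by exact_mod_cast (by omega : 1 < z + 1))
  have hmain : c0 * (Nat.totient (primorial w) : ℝ) / Real.log x ^ (g - 1) ≤ G * Pr0 := by
    refine le_trans ?_ hpr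
    refine div_le_div_of_nonneg_left (by positivity) (by positivity) ?_
    exact pow_le_pow_left₀ hlz0.le hlz _
  have hlg : Real.log x ^ (g + 2) = Real.log x ^ (g - 1) * Real.log x ^ 3 := by
    rw [← pow_add]
    congr 1
    have := hF.pos
    omega
  have hlg2 : Real.log x ^ g = Real.log x ^ (g - 1) * Real.log x := by
    rw [← pow_succ, Nat.sub_add_cancel hF.pos]
  set l : ℝ := Real.log x with hl
  set lg : ℝ := l ^ (g - 1) with hlgd
  have hlg0 : 0 < lg := by positivity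
  have hGPr0 : 0 ≤ G * Pr0 := le_trans (by positivity) hmain
  have hR : G * (x / l ^ (g + 2)) ≤ c0 * x / (16 * lg) := by
    rw [hlg, mul_div_assoc', div_le_div_iff₀ (by positivity) (by positivity)]
    have h1 : 16 * G ≤ c0 * l ^ 3 := by
      have h2 : 16 * (primorial w : ℝ) ≤ l * c0 := by
        rwa [div_le_iff₀ hc0] at hl2
      have h3 : l ≤ l ^ 3 := by
        calc l = l ^ 1 := (pow_one l).symm
          _ ≤ l ^ 3 := pow_le_pow_right₀ hl1 (by norm_num)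
      nlinarith
    calc G * x * (16 * lg) = (16 * G) * (x * lg) := by ring
      _ ≤ (c0 * l ^ 3) * (x * lg) := mul_le_mul_of_nonneg_right h1 (by positivity)
      _ = c0 * x * (lg * l ^ 3) := by ring
  have hM : c0 * x / (8 * lg) ≤ G * (X / 2 * Pr0) := by
    calc c0 * x / (8 * lg) = (x / (4 * Nat.totient (primorial w))) / 2 *
          (c0 * (Nat.totient (primorial w) : ℝ) / lg) := by
          field_simp
          ring
      _ ≤ X / 2 * (G * Pr0) :=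
          mul_le_mul (by linarith) hmain (by positivity) (by positivity)
      _ = _ := by ring
  have h1 : c0 * x / (16 * lg) ≤ G * (T.card * (2 * l)) := by
    calc c0 * x / (16 * lg) = c0 * x / (8 * lg) - c0 * x / (16 * lg) := by
          field_simp
          ring
      _ ≤ G * (X / 2 * Pr0) - G * (x / l ^ (g + 2)) := by linarith
      _ = G * (X / 2 * Pr0 - x / l ^ (g + 2)) := by ring
      _ ≤ G * (T.card * (2 * l)) := mul_le_mul_of_nonneg_left (hsieve.trans hsumT) hG0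
  have h2 : (T.card : ℝ) ≤ (cnt (fun n => n ≡ v [MOD primorial w] ∧
      (∃ q : ℕ, q.Prime ∧ (F i).eval (n : ℤ) = q) ∧
      ∀ j, ∀ q : ℕ, q.Prime → q ≠ p1 → (q : ℤ) ∣ (F j).eval (n : ℤ) →
        (x : ℝ) ^ (dl F) < q) x : ℝ) := by exact_mod_cast hTcnt
  refine le_trans ?_ (mul_le_mul_of_nonneg_left h2 hG0)
  have h3 : c0 / 32 * (x / l ^ g) = c0 * x / (16 * lg) / (2 * l) := by
    rw [hlg2]
    field_simp
    ring
  rw [h3, div_le_iff₀ (by positivity)]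
  calc c0 * x / (16 * lg) ≤ G * (T.card * (2 * l)) := h1
    _ = G * T.card * (2 * l) := by ring

end Pool.Agent.Lib.H59W
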