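import Pool.Agent.Lib.H59W.B3A
import Pool.Agent.Lib.H59W.B2
import Pool.Agent.Lib.H57C.V6

/-!
# Chunk B3: one value prime, the others without small prime factors
-/

open Finset Polynomial

namespace Pool.Agent.Lib.H59W

open Pool.Agent.Lib.H33B (Sys NoFix wF FS_D)
open Pool.Agent.Lib.H59C (DD SWp th thp)

/-- Proof. `c₀, w1` from `lin_lower`, `c = c₀/2`. Let `w ≥ w1`, `P = primorial w`, `b = #gd (∏ F_j) P ≤ P`, `A', x0` from `lin_lower`,
`K0` from `p1_few` with `δ = dl F` and `ε = c₀/(2 P + 2)`, and `K = A' + 2`. For `a = (F i).coeff 1 ≥ 1` (the leading coefficient) and `x` large `H57C.sw2 A' (max K0 (w + 1))`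
at `n = a x` gives a prime `p1 ≥ K0`, `p1 > w`, `p1 ≤ (log (a x))^(A' + 1) ≤ (log x)^(A' + 2)`, with `SWp A' (a x) p1`. The `n` counted in `lin_lower` for
which `p1` divides no `F_j(n)` have `PAP F i (dl F) x n`; the others are at most `ε x/(log x)^g`, by `p1_few`. -/
theorem lower_PAP {g : ℕ} (F : Fin g → ℤ[X]) (hF : Sys F) (hN : NoFix F) (i : Fin g)
    (hi : (F i).natDegree = 1) : ∃ c : ℝ, 0 < c ∧ Lower (∏ j, F j) g c (PAP F i (dl F)) := by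
  classical
  obtain ⟨c₀, hc₀, w1, hw1⟩ := lin_lower F hF hN i hi
  refine ⟨c₀ / 2, by positivity, w1, fun w hw => ?_⟩
  obtain ⟨A', x1, hx1⟩ := hw1 w hw
  set P := primorial w with hP
  have hP0 : (0 : ℝ) < P := by exact_mod_cast primorial_pos w
  have hdl : 0 < dl F := by
    unfold dl
    positivity
  obtain ⟨K0, hK0⟩ := p1_few F hF hN (dl F) hdl w (c₀ / (2 * P + 2)) (by positivity)
  obtain ⟨x2, hx2⟩ := hK0 ((A' + 2 : ℕ) : ℝ)
  obtain ⟨n0, hn0⟩ := Pool.Agent.Lib.H57C.sw2 A' (max K0 (w + 1))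
  have ha : 0 < (F i).coeff 1 := by
    have h1 := hF.lead i
    unfold leadingCoeff at h1
    rwa [hi] at h1
  obtain ⟨a, ha1⟩ : ∃ a : ℕ, (a : ℤ) = (F i).coeff 1 := ⟨((F i).coeff 1).toNat, Int.toNat_of_nonneg ha.le⟩
  have ha0 : 1 ≤ a := by omega
  have hlog : Filter.Tendsto (fun x : ℕ => Real.log x) Filter.atTop Filter.atTop :=
    Real.tendsto_log_atTop.comp tendsto_natCast_atTop_atTop
  obtain ⟨x3, hx3⟩ := Filter.eventually_atTop.1 (hlog.eventually_ge_atTop ((2 : ℝ) ^ (A' + 1)))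
  refine ⟨max (max x1 x2) (max (max n0 a) x3), fun x hx v hv => ?_⟩
  have hxx1 : x1 ≤ x := le_trans (le_trans (le_max_left _ _) (le_max_left _ _)) hx
  have hxx2 : x2 ≤ x := le_trans (le_trans (le_max_right _ _) (le_max_left _ _)) hx
  have hxn : n0 ≤ x := le_trans (le_trans (le_max_left _ _) (le_trans (le_max_left _ _) (le_max_right _ _))) hx
  have hxa : a ≤ x := le_trans (le_trans (le_max_right _ _) (le_trans (le_max_left _ _) (le_max_right _ _))) hx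
  have hxx3 : x3 ≤ x := le_trans (le_trans (le_max_right _ _) (le_max_right _ _)) hx
  have hL : (2 : ℝ) ^ (A' + 1) ≤ Real.log x := hx3 x hxx3
  have hL0 : 0 < Real.log x := lt_of_lt_of_le (by positivity) hL
  obtain ⟨p1, hp, hpK, hpl, hSW⟩ := hn0 (a * x) (hxn.trans (Nat.le_mul_of_pos_left x ha0))
  have hpK0 : K0 ≤ p1 := (le_max_left _ _).trans hpK
  have hpw : w < p1 := by
    have := (le_max_right K0 (w + 1)).trans hpK
    omega
  have hp2 : (p1 : ℝ) ≤ Real.log x ^ ((A' + 2 : ℕ) : ℝ) := by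
    rw [Real.rpow_natCast]
    have hax : (1 : ℝ) ≤ a := by exact_mod_cast ha0
    have hxx : (a : ℝ) ≤ x := by exact_mod_cast hxa
    have h1 : Real.log ((a * x : ℕ) : ℝ) ≤ 2 * Real.log x := by
      rw [Nat.cast_mul, Real.log_mul (by linarith) (by linarith)]
      have := Real.log_le_log (by linarith) hxx
      linarith
    have h0 : 0 ≤ Real.log ((a * x : ℕ) : ℝ) := Real.log_natCast_nonneg _
    calc (p1 : ℝ) ≤ Real.log ((a * x : ℕ) : ℝ) ^ (A' + 1) := hpl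
      _ ≤ (2 * Real.log x) ^ (A' + 1) := pow_le_pow_left₀ h0 h1 _
      _ = 2 ^ (A' + 1) * Real.log x ^ (A' + 1) := mul_pow _ _ _
      _ ≤ Real.log x * Real.log x ^ (A' + 1) := mul_le_mul_of_nonneg_right hL (by positivity)
      _ = Real.log x ^ (A' + 2) := by ring
  have hSW2 : SWp A' ((F i).coeff 1 * x).toNat p1 := by
    rw [← ha1]
    have e : ((a : ℤ) * (x : ℤ)).toNat = a * x := by
      rw [← Nat.cast_mul]
      exact Int.toNat_natCast _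
    rw [e]
    exact hSW
  have h1 := hx1 x hxx1 p1 hp hpw hSW2 v hv
  have h2 := hx2 x hxx2 p1 hp hpK0 hpw hp2 v
  set X : ℝ := (x : ℝ) / Real.log x ^ g with hX
  have hX0 : 0 ≤ X := by positivity
  have h3 : cnt (fun n => n ≡ v [MOD P] ∧ (∃ q : ℕ, q.Prime ∧ (F i).eval (n : ℤ) = q) ∧
          ∀ j, ∀ q : ℕ, q.Prime → q ≠ p1 → (q : ℤ) ∣ (F j).eval (n : ℤ) → (x : ℝ) ^ (dl F) < q) x ≤
      cnt (fun n => n ≡ v [MOD P] ∧ PAP F i (dl F) x n) x +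
      cnt (fun n => n ≡ v [MOD P] ∧ (∃ j, (p1 : ℤ) ∣ (F j).eval (n : ℤ)) ∧
        ∀ j, ∀ q : ℕ, q.Prime → q ≠ p1 → (q : ℤ) ∣ (F j).eval (n : ℤ) → (x : ℝ) ^ (dl F) < q) x := by
    have h4 := b3a_cnt (fun n => n ≡ v [MOD P] ∧ (∃ q : ℕ, q.Prime ∧ (F i).eval (n : ℤ) = q) ∧
          ∀ j, ∀ q : ℕ, q.Prime → q ≠ p1 → (q : ℤ) ∣ (F j).eval (n : ℤ) → (x : ℝ) ^ (dl F) < q) x {0, 1}
      (fun c n => if c = 0 then n ≡ v [MOD P] ∧ PAP F i (dl F) x n else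
        n ≡ v [MOD P] ∧ (∃ j, (p1 : ℤ) ∣ (F j).eval (n : ℤ)) ∧
        ∀ j, ∀ q : ℕ, q.Prime → q ≠ p1 → (q : ℤ) ∣ (F j).eval (n : ℤ) → (x : ℝ) ^ (dl F) < q) (by
      rintro n _ _ ⟨hn1, hn2, hn3⟩
      by_cases hj : ∃ j, (p1 : ℤ) ∣ (F j).eval (n : ℤ)
      · refine ⟨1, by simp, ?_⟩
        rw [if_neg one_ne_zero]
        exact ⟨hn1, hj, hn3⟩
      · refine ⟨0, by simp, ?_⟩
        rw [if_pos rfl]
        refine ⟨hn1, hn2, fun j q hq hd => hn3 j q hq ?_ hd⟩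
        rintro rfl
        exact hj ⟨j, hd⟩)
    rw [sum_pair zero_ne_one] at h4
    simpa using h4
  have h3' : (cnt (fun n => n ≡ v [MOD P] ∧ (∃ q : ℕ, q.Prime ∧ (F i).eval (n : ℤ) = q) ∧
          ∀ j, ∀ q : ℕ, q.Prime → q ≠ p1 → (q : ℤ) ∣ (F j).eval (n : ℤ) → (x : ℝ) ^ (dl F) < q) x : ℝ) ≤
      (cnt (fun n => n ≡ v [MOD P] ∧ PAP F i (dl F) x n) x : ℝ) +
      (cnt (fun n => n ≡ v [MOD P] ∧ (∃ j, (p1 : ℤ) ∣ (F j).eval (n : ℤ)) ∧
        ∀ j, ∀ q : ℕ, q.Prime → q ≠ p1 → (q : ℤ) ∣ (F j).eval (n : ℤ) → (x : ℝ) ^ (dl F) < q) x : ℝ) := by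
    exact_mod_cast h3
  have hgd : ((gd (∏ j, F j) P).card : ℝ) ≤ P := by
    have h5 : (gd (∏ j, F j) P).card ≤ P := by
      unfold gd
      exact (card_filter_le _ _).trans (card_range P).le
    exact_mod_cast h5
  have hgd0 : (0 : ℝ) ≤ ((gd (∏ j, F j) P).card : ℝ) := Nat.cast_nonneg _
  have h6 : ((gd (∏ j, F j) P).card : ℝ) * (c₀ / (2 * P + 2) * X) ≤ c₀ / 2 * X := by
    have h7 : (P : ℝ) * (c₀ / (2 * P + 2)) ≤ c₀ / 2 := by
      rw [mul_div_assoc', div_le_div_iff₀ (by positivity) (by norm_num)]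
      nlinarith
    calc ((gd (∏ j, F j) P).card : ℝ) * (c₀ / (2 * P + 2) * X) ≤ P * (c₀ / (2 * P + 2) * X) :=
          mul_le_mul_of_nonneg_right hgd (by positivity)
      _ = P * (c₀ / (2 * P + 2)) * X := by ring
      _ ≤ c₀ / 2 * X := mul_le_mul_of_nonneg_right h7 hX0
  have h8 := mul_le_mul_of_nonneg_left h3' hgd0
  have h9 := mul_le_mul_of_nonneg_left h2 hgd0
  rw [mul_add] at h8
  linarith

end Pool.Agent.Lib.H59W
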