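import Pool.Agent.Lib.H59W.A1

/-!
# Chunk B3A: the exceptional prime
-/

open Finset Polynomial

namespace Pool.Agent.Lib.H59W

open Pool.Agent.Lib.H33B (Sys NoFix wF FS_D)

theorem b3a_coprime {w p1 : ℕ} (hp : p1.Prime) (hw : w < p1) : Nat.Coprime (primorial w) p1 := by
  rw [Nat.coprime_comm, Nat.Prime.coprime_iff_not_dvd hp]
  intro h
  have := (Nat.Prime.dvd_primorial_iff hp).1 h
  omega

theorem b3a_omega {w p1 : ℕ} (hp : p1.Prime) (hw : w < p1) :
    (primorial w * p1).primeFactors.card = (primorial w).primeFactors.card + 1 := by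
  rw [Nat.Coprime.primeFactors_mul (b3a_coprime hp hw), card_union_of_disjoint (b3a_coprime hp hw).disjoint_primeFactors,
    hp.primeFactors, card_singleton]

theorem b3a_cnt (A : ℕ → Prop) (x : ℕ) (R : Finset ℕ) (B : ℕ → ℕ → Prop)
    (h : ∀ n, 1 ≤ n → n ≤ x → A n → ∃ c ∈ R, B c n) : cnt A x ≤ ∑ c ∈ R, cnt (B c) x := by
  classical
  unfold cnt
  refine le_trans (card_le_card (t := R.biUnion fun c => (Icc 1 x).filter (B c)) fun n hn => ?_) ?_
  · rw [mem_filter] at hn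
    rw [mem_biUnion]
    have h1 := mem_Icc.1 hn.1
    obtain ⟨c, hc, h2⟩ := h n h1.1 h1.2 hn.2
    exact ⟨c, hc, mem_filter.2 ⟨hn.1, h2⟩⟩
  · refine card_biUnion_le.trans (le_of_eq (sum_congr rfl fun c _ => ?_))
    congr

/-- The `n` for which `p1` divides some `F_j(n)` are few, if `p1` is large.

Proof. `upper_rough F hF hN δ` gives `D`. Let `P = primorial w`, `q = P p1` (squarefree, `p1 > w`; `q ≤ (log x)^(K + 1)` for large `x`). The `n ≤ x` with
`n ≡ v [MOD P]` and `p1 ∣ F_j(n)` for some `j` are in at most `wF F p1 ≤ FS_D F` classes modulo `q` (`wF` = number of the roots of `∏ F_j`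
modulo `p1`, `H33B.FS_wle`; Chinese remainder theorem); in each of them the number of the `n` counted is at most `D^(ω(P) + 2) (x/(log x)^g)/(P p1)`
(a prime dividing some `F_j(n)` and not dividing `q` is `≠ p1`). So the total is
`≤ FS_D F · D^(ω(P) + 2)/(P p1) · x/(log x)^g`: take `K0 ≥ FS_D F · D^(ω(P) + 2)/(P ε)`. -/
theorem p1_few {g : ℕ} (F : Fin g → ℤ[X]) (hF : Sys F) (hN : NoFix F) (δ : ℝ) (hδ : 0 < δ) (w : ℕ)
    (ε : ℝ) (hε : 0 < ε) : ∃ K0 : ℕ, ∀ K : ℝ, ∃ x0 : ℕ, ∀ x : ℕ, x0 ≤ x → ∀ p1 : ℕ, p1.Prime →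
    K0 ≤ p1 → w < p1 → (p1 : ℝ) ≤ Real.log x ^ K → ∀ v : ℕ,
      (cnt (fun n => n ≡ v [MOD primorial w] ∧ (∃ j, (p1 : ℤ) ∣ (F j).eval (n : ℤ)) ∧
        ∀ j, ∀ q : ℕ, q.Prime → q ≠ p1 → (q : ℤ) ∣ (F j).eval (n : ℤ) → (x : ℝ) ^ δ < q) x : ℝ) ≤
        ε * (x / Real.log x ^ g) := by
  classical
  obtain ⟨D, hD, hU⟩ := upper_rough F hF hN δ hδ
  set P := primorial w with hP
  have hP0 : 0 < P := primorial_pos w
  have hP0' : (0 : ℝ) < P := by exact_mod_cast hP0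
  set E : ℝ := (FS_D F : ℝ) * D ^ (P.primeFactors.card + 2) with hE
  have hD0 : 0 < D := by linarith
  have hE0 : 0 ≤ E := by positivity
  refine ⟨⌈E / (P * ε)⌉₊ + 1, fun K => ?_⟩
  obtain ⟨x1, hx1⟩ := hU (K + 1)
  have hlog : Filter.Tendsto (fun x : ℕ => Real.log x) Filter.atTop Filter.atTop :=
    Real.tendsto_log_atTop.comp tendsto_natCast_atTop_atTop
  obtain ⟨x2, hx2⟩ := Filter.eventually_atTop.1 (hlog.eventually_ge_atTop ((P : ℝ) + 1))
  refine ⟨max x1 x2, fun x hx p1 hp hK hw hpK v => ?_⟩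
  have hlx : (P : ℝ) + 1 ≤ Real.log x := hx2 x (le_of_max_le_right hx)
  have hlx0 : 0 < Real.log x := by linarith
  have hcop : Nat.Coprime P p1 := b3a_coprime hp hw
  have hp0 : (0 : ℝ) < p1 := by exact_mod_cast hp.pos
  -- the classes
  set R : Finset ℕ := (range p1).filter (fun c : ℕ => (p1 : ℤ) ∣ (∏ i, F i).eval (c : ℤ)) with hR
  have hRc : R.card ≤ FS_D F := by
    have h1 : R.card = wF F p1 := rfl
    rw [h1]
    exact Pool.Agent.Lib.H33B.FS_wle F hF p1 hp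
  set b : ℕ → ℕ := fun c => (Nat.chineseRemainder hcop v c : ℕ) with hb
  have hb1 : ∀ c, b c ≡ v [MOD P] := fun c => (Nat.chineseRemainder hcop v c).2.1
  have hb2 : ∀ c, b c ≡ c [MOD p1] := fun c => (Nat.chineseRemainder hcop v c).2.2
  have hsub := b3a_cnt (fun n => n ≡ v [MOD P] ∧ (∃ j, (p1 : ℤ) ∣ (F j).eval (n : ℤ)) ∧
        ∀ j, ∀ q : ℕ, q.Prime → q ≠ p1 → (q : ℤ) ∣ (F j).eval (n : ℤ) → (x : ℝ) ^ δ < q) x R
      (fun c n => n ≡ b c [MOD (P * p1)] ∧ ∀ i, ∀ p : ℕ, p.Prime → ¬ p ∣ P * p1 →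
        (p : ℤ) ∣ (F i).eval (n : ℤ) → (x : ℝ) ^ δ < p) (by
    intro n _ _ hn
    obtain ⟨hn2, ⟨j, hj⟩, hn3⟩ := hn
    refine ⟨n % p1, ?_, ?_⟩
    · rw [hR, mem_filter, mem_range]
      refine ⟨Nat.mod_lt _ hp.pos, ?_⟩
      rw [Pool.Agent.Lib.H59.dvd_eval_mod_iff, eval_prod]
      exact hj.trans (dvd_prod_of_mem _ (mem_univ j))
    · refine ⟨?_, fun i p hpp hpn hd => ?_⟩
      · refine (Nat.modEq_and_modEq_iff_modEq_mul hcop).1 ⟨hn2.trans (hb1 _).symm, ?_⟩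
        exact (Nat.mod_modEq n p1).symm.trans (hb2 _).symm
      · exact hn3 i p hpp (fun h => hpn (h ▸ Dvd.intro_left P rfl)) hd)
  have hqsq : Squarefree (P * p1) := by
    rw [Nat.squarefree_mul hcop]
    exact ⟨squarefree_primorial w, hp.prime.squarefree⟩
  have hqK : ((P * p1 : ℕ) : ℝ) ≤ Real.log x ^ (K + 1) := by
    rw [Real.rpow_add hlx0, Real.rpow_one, mul_comm (Real.log x ^ K)]
    push_cast
    exact mul_le_mul (by linarith) hpK hp0.le hlx0.le
  have hom : (P * p1).primeFactors.card = P.primeFactors.card + 1 := b3a_omega hp hw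
  have hX0 : (0 : ℝ) ≤ x / Real.log x ^ g := by positivity
  have hcls : ∀ c ∈ R, (cnt (fun n => n ≡ b c [MOD (P * p1)] ∧ ∀ i, ∀ p : ℕ, p.Prime → ¬ p ∣ P * p1 →
        (p : ℤ) ∣ (F i).eval (n : ℤ) → (x : ℝ) ^ δ < p) x : ℝ) ≤
      D ^ (P.primeFactors.card + 2) * (x / Real.log x ^ g) / ((P : ℝ) * p1) := by
    intro c _
    have h1 := hx1 x (le_of_max_le_left hx) (P * p1) (b c) hqsq hqK
    have e : P.primeFactors.card + 1 + 1 = P.primeFactors.card + 2 := rfl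
    rw [hom, e, Nat.cast_mul] at h1
    exact h1
  refine (Nat.cast_le.2 hsub).trans ?_
  rw [Nat.cast_sum]
  refine (sum_le_sum hcls).trans ?_
  calc ∑ _c ∈ R, D ^ (P.primeFactors.card + 2) * (x / Real.log x ^ g) / ((P : ℝ) * p1)
      = (R.card : ℝ) * (D ^ (P.primeFactors.card + 2) * (x / Real.log x ^ g) / ((P : ℝ) * p1)) := by
        rw [sum_const, nsmul_eq_mul]
    _ ≤ (FS_D F : ℝ) * (D ^ (P.primeFactors.card + 2) * (x / Real.log x ^ g) / ((P : ℝ) * p1)) := by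
        refine mul_le_mul_of_nonneg_right (by exact_mod_cast hRc) (by positivity)
    _ = E / (P * p1) * (x / Real.log x ^ g) := by
        rw [hE]
        field_simp
    _ ≤ ε * (x / Real.log x ^ g) := by
        refine mul_le_mul_of_nonneg_right ?_ hX0
        rw [div_le_iff₀ (by positivity)]
        have h2 : E / (P * ε) ≤ p1 := by
          have h3 : ((⌈E / (P * ε)⌉₊ + 1 : ℕ) : ℝ) ≤ p1 := by exact_mod_cast hK
          push_cast at h3
          have h4 := Nat.le_ceil (E / (P * ε))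
          linarith
        rw [div_le_iff₀ (by positivity)] at h2
        linarith

end Pool.Agent.Lib.H59W
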