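import Pool.Agent.Lib.H59W.DDefs
import Pool.Agent.Lib.H59C.C0

/-!
# Chunk D0A: the total weight
-/

open Finset Polynomial

namespace Pool.Agent.Lib.H59W

open Pool.Agent.Lib.H59C (PR zz yy Tri BX wB XB lv al Rel Win gq VV sift remd DD SWp)

theorem d0a_totient_mul : ∀ (k a N : ℕ), a = k → 1 ≤ a → (∀ p : ℕ, p.Prime → p ∣ a → p ∣ N) →
    (a * N).totient = a * N.totient := by
  intro k
  induction k using Nat.strong_induction_on with
  | _ k ih =>
    intro a N hk ha h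
    rcases Nat.lt_or_ge 1 a with h1 | h1
    · obtain ⟨p, hp, hpa⟩ := Nat.exists_prime_and_dvd (n := a) (by omega)
      obtain ⟨c, hc⟩ := hpa
      have hc0 : 1 ≤ c := by
        rcases Nat.eq_zero_or_pos c with h2 | h2
        · rw [h2] at hc; omega
        · exact h2
      have hck : c < k := by
        rw [← hk, hc]
        have := hp.two_le
        nlinarith
      have hpN : p ∣ N := h p hp ⟨c, hc⟩
      have h3 := ih c hck c N rfl hc0 (fun q hq hqc => h q hq (hc ▸ Dvd.dvd.mul_left hqc p))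
      rw [hc, mul_assoc, Nat.totient_mul_of_prime_of_dvd hp (Dvd.dvd.mul_left hpN c), h3]
      ring
    · have : a = 1 := le_antisymm h1 ha
      subst this
      simp

/-- `φ(a P) = a φ(P)` if `a ≤ w`. -/
theorem d0a_totient_primorial (a w : ℕ) (ha : 1 ≤ a) (h : a ≤ w) :
    (a * primorial w).totient = a * (primorial w).totient := by
  apply d0a_totient_mul a a _ rfl ha
  intro p hp hpa
  unfold primorial
  apply Finset.dvd_prod_of_mem
  rw [mem_filter, mem_range]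
  have := Nat.le_of_dvd ha hpa
  exact ⟨by omega, hp⟩

/-- Proof. `H59C.th_pnt` (`thl a b y = th (a y + b)`), `φ(a P) = a φ(P)` as all prime factors of `a ≤ w` divide `P = primorial w`
(`Nat.totient_mul_of_prime_of_dvd` and induction, or `Nat.totient_gcd_mul_totient_mul`-like; `Nat.totient_mul_prod_primeFactors`). -/
theorem Xd_bounds {a a' : ℕ} {b b' : ℤ} {w : ℕ} (h : Dat a a' b b' w) (ε : ℝ) (hε : 0 < ε) :
    ∃ x0 : ℕ, ∀ x : ℕ, x0 ≤ x → (1 - ε) * ((x : ℝ) / 2 / (primorial w).totient) ≤ Xd a b w x ∧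
      Xd a b w x ≤ (1 + ε) * ((x : ℝ) / 2 / (primorial w).totient) := by
  obtain ⟨n0, hn0⟩ := H59C.th_pnt (ε / 8) (by linarith)
  obtain ⟨m0, hm0⟩ := exists_nat_ge (2 / ε)
  refine ⟨n0 + m0 + 2 * b.natAbs + 2, fun x hx => ?_⟩
  have ha : 1 ≤ a := h.a0
  have hxa : x ≤ a * x := Nat.le_mul_of_pos_left x ha
  have hbx : (b.natAbs : ℤ) = |b| := Int.natCast_natAbs b
  have hb1 : b ≤ |b| := le_abs_self b
  have hb2 : -|b| ≤ b := neg_abs_le b
  have hx2 : b.natAbs ≤ x / 2 := by omega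
  have hxa2 : x / 2 ≤ a * (x / 2) := Nat.le_mul_of_pos_left _ ha
  have e1 : 0 ≤ (a : ℤ) * x + b := by
    have : (x : ℤ) ≤ (a : ℤ) * x := by exact_mod_cast hxa
    have : ((b.natAbs : ℕ) : ℤ) ≤ x := by exact_mod_cast (by omega : b.natAbs ≤ x)
    linarith
  have e2 : 0 ≤ (a : ℤ) * (x / 2 : ℕ) + b := by
    have : ((x / 2 : ℕ) : ℤ) ≤ (a : ℤ) * (x / 2 : ℕ) := by exact_mod_cast hxa2
    have : ((b.natAbs : ℕ) : ℤ) ≤ (x / 2 : ℕ) := by exact_mod_cast hx2
    linarith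
  have k1 : (((a : ℤ) * x + b).toNat : ℤ) = (a : ℤ) * x + b := Int.toNat_of_nonneg e1
  have k2 : (((a : ℤ) * (x / 2 : ℕ) + b).toNat : ℤ) = (a : ℤ) * (x / 2 : ℕ) + b := Int.toNat_of_nonneg e2
  obtain ⟨y1, hy1⟩ : ∃ y1, y1 = ((a : ℤ) * x + b).toNat := ⟨_, rfl⟩
  obtain ⟨y2, hy2⟩ : ∃ y2, y2 = ((a : ℤ) * (x / 2 : ℕ) + b).toNat := ⟨_, rfl⟩
  obtain ⟨z, hz⟩ : ∃ z, z = x / 2 := ⟨_, rfl⟩
  have hz1 : 2 * z ≤ x := by omega
  have hz2 : x ≤ 2 * z + 1 := by omega
  have hX : Xd a b w x = (H59C.th y1 - H59C.th y2) / (a * ((primorial w).totient : ℝ)) := by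
    unfold Xd thl
    rw [← hy1, ← hy2, d0a_totient_primorial a w ha h.aw, Nat.cast_mul]
  rw [← hy1] at k1
  rw [← hy2, ← hz] at k2
  rw [← hz] at hx2
  have r1 : (y1 : ℝ) = (a : ℝ) * x + b := by exact_mod_cast k1
  have r2 : (y2 : ℝ) = (a : ℝ) * z + b := by exact_mod_cast k2
  have hA : (1 : ℝ) ≤ a := by exact_mod_cast ha
  have hxl : b ≤ a * x := by
    have h1 : ((b.natAbs : ℕ) : ℤ) ≤ x := by exact_mod_cast (by omega : b.natAbs ≤ x)
    have h2 : (x : ℤ) ≤ (a : ℤ) * x := by exact_mod_cast hxa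
    linarith
  have y1le : y1 ≤ 8 * (a * x) := by
    have : (y1 : ℤ) ≤ 8 * (a * x) := by
      rw [k1]
      have : (0 : ℤ) ≤ (a : ℤ) * x := by positivity
      linarith
    exact_mod_cast this
  have y2le : y2 ≤ 8 * (a * x) := by
    have : (y2 : ℤ) ≤ 8 * (a * x) := by
      rw [k2]
      have h3 : (z : ℤ) ≤ x := by exact_mod_cast (by omega : z ≤ x)
      have : (0 : ℤ) ≤ (a : ℤ) * x := by positivity
      nlinarith
    exact_mod_cast this
  have t1 := hn0 (a * x) (by omega) y1 y1le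
  have t2 := hn0 (a * x) (by omega) y2 y2le
  rw [abs_le] at t1 t2
  push_cast at t1 t2
  rw [r1] at t1
  rw [r2] at t2
  have hxε : 2 ≤ ε * x := by
    have h1 : 2 / ε ≤ x := hm0.trans (by exact_mod_cast (by omega : m0 ≤ x))
    rw [div_le_iff₀ hε] at h1
    linarith
  have hφ : (0 : ℝ) < (primorial w).totient := by
    exact_mod_cast Nat.totient_pos.2 (primorial_pos w)
  have hz1' : 2 * (z : ℝ) ≤ x := by exact_mod_cast hz1
  have hz2' : (x : ℝ) ≤ 2 * z + 1 := by exact_mod_cast hz2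
  have q1 : (a : ℝ) * (2 * z) ≤ a * x := mul_le_mul_of_nonneg_left hz1' (by linarith)
  have q2 : (a : ℝ) * x ≤ a * (2 * z + 1) := mul_le_mul_of_nonneg_left hz2' (by linarith)
  have q3 : (a : ℝ) * 2 ≤ a * (ε * x) := mul_le_mul_of_nonneg_left hxε (by linarith)
  rw [hX]
  constructor
  · rw [le_div_iff₀ (by positivity)]
    have e : (1 - ε) * ((x : ℝ) / 2 / (primorial w).totient) * (a * ((primorial w).totient : ℝ)) =
        (1 - ε) * (x / 2) * a := by field_simp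
    rw [e]
    nlinarith
  · rw [div_le_iff₀ (by positivity)]
    have e : (1 + ε) * ((x : ℝ) / 2 / (primorial w).totient) * (a * ((primorial w).totient : ℝ)) =
        (1 + ε) * (x / 2) * a := by field_simp
    rw [e]
    nlinarith

/-- `φ(a P) = a φ(P)` if `a ≤ w`. -/
theorem totient_primorial (a w : ℕ) (ha : 1 ≤ a) (h : a ≤ w) :
    (a * primorial w).totient = a * (primorial w).totient :=
  d0a_totient_primorial a w ha h

end Pool.Agent.Lib.H59W
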