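import Pool.Agent.Lib.H59W.DDefs
import Pool.Agent.Lib.H59W.A0B

/-!
# Chunk D0B: the sieve product
-/

open Finset Polynomial

namespace Pool.Agent.Lib.H59W

open Pool.Agent.Lib.H33B (Sys NoFix wF FS_D)
open Pool.Agent.Lib.H59C (PR zz yy Tri BX wB XB lv al Rel Win gq VV sift remd DD SWp)

/-- `F2` is a system. (`C a * X + C b` with `(a, b) = 1` is primitive of degree one, so irreducible; the two forms are different as the
determinant is not `0`.) -/
theorem F2_sys {a a' : ℕ} {b b' : ℤ} {w : ℕ} (h : Dat a a' b b' w) : Sys (F2 a a' b b') := by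
  have ha : (a : ℤ) ≠ 0 := by have := h.a0; omega
  have ha' : (a' : ℤ) ≠ 0 := by have := h.a0'; omega
  refine ⟨by norm_num, ?_, ?_, ?_, ?_⟩
  · intro i
    fin_cases i
    · exact irreducible_C_mul_X_add_C ha h.ab.isRelPrime
    · exact irreducible_C_mul_X_add_C ha' h.ab'.isRelPrime
  · intro i
    fin_cases i
    · exact (natDegree_linear ha).ge
    · exact (natDegree_linear ha').ge
  · intro i
    fin_cases i
    · have : (C (a : ℤ) * X + C b).leadingCoeff = (a : ℤ) := leadingCoeff_linear ha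
      show 0 < (C (a : ℤ) * X + C b).leadingCoeff
      rw [this]
      have := h.a0; omega
    · have : (C (a' : ℤ) * X + C b').leadingCoeff = (a' : ℤ) := leadingCoeff_linear ha'
      show 0 < (C (a' : ℤ) * X + C b').leadingCoeff
      rw [this]
      have := h.a0'; omega
  · have hne : C (a : ℤ) * X + C b ≠ C (a' : ℤ) * X + C b' := by
      intro he
      have h1 := congrArg (fun P => eval (1 : ℤ) P) he
      have h0 := congrArg (fun P => eval (0 : ℤ) P) he
      simp only [eval_add, eval_mul, eval_C, eval_X, mul_zero, zero_add, mul_one] at h1 h0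
      apply h.det
      rw [h0] at h1 ⊢
      have h2 : (a : ℤ) = a' := by linarith
      rw [h2]
      ring
    intro i j hij
    fin_cases i <;> fin_cases j
    · rfl
    · exact absurd hij hne
    · exact absurd hij.symm hne
    · rfl

theorem d0b_root {q a : ℕ} {b : ℤ} (hq : q.Prime) (ha : 1 ≤ a) (haq : a < q) :
    ∃ v : ℕ, v < q ∧ (q : ℤ) ∣ (a : ℤ) * v + b := by
  haveI := Fact.mk hq
  have h1 : ((a : ℤ) : ZMod q) ≠ 0 := by
    intro h
    rw [ZMod.intCast_zmod_eq_zero_iff_dvd] at h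
    have := Int.le_of_dvd (by omega) h
    omega
  refine ⟨(-(b : ZMod q) * ((a : ℤ) : ZMod q)⁻¹).val, ZMod.val_lt _, ?_⟩
  rw [← ZMod.intCast_zmod_eq_zero_iff_dvd]
  push_cast
  rw [ZMod.natCast_zmod_val]
  have h2 : ((a : ℕ) : ZMod q) ≠ 0 := by simpa using h1
  field_simp
  ring

theorem d0b_two {a a' : ℕ} {b b' : ℤ} {w : ℕ} (h : Dat a a' b b' w) {q : ℕ} (hq : q.Prime) (hw : w < q) :
    2 ≤ wF (F2 a a' b b') q := by
  classical
  obtain ⟨v, hv, hd⟩ := d0b_root (b := b) hq h.a0 (lt_of_le_of_lt h.aw hw)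
  obtain ⟨v', hv', hd'⟩ := d0b_root (b := b') hq h.a0' (lt_of_le_of_lt h.aw' hw)
  have hne : v ≠ v' := by
    rintro rfl
    have h1 : (q : ℤ) ∣ (a' : ℤ) * b - a * b' := by
      have : (a' : ℤ) * b - a * b' = a' * (a * v + b) - a * (a' * v + b') := by ring
      rw [this]
      exact dvd_sub (Dvd.dvd.mul_left hd _) (Dvd.dvd.mul_left hd' _)
    have h2 : (q : ℤ) ∣ |(a' : ℤ) * b - a * b'| := (dvd_abs _ _).2 h1
    have h3 := Int.le_of_dvd (abs_pos.2 h.det) h2
    have := h.detw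
    omega
  unfold wF H59.rootCount
  have h4 : ({v, v'} : Finset ℕ) ⊆ (Finset.range q).filter fun u : ℕ => (q : ℤ) ∣ (∏ i, F2 a a' b b' i).eval (u : ℤ) := by
    intro u hu
    rw [mem_insert, mem_singleton] at hu
    rw [mem_filter, mem_range]
    have e : ∀ u : ℕ, (∏ i, F2 a a' b b' i).eval (u : ℤ) = ((a : ℤ) * u + b) * ((a' : ℤ) * u + b') := by
      intro u
      rw [Fin.prod_univ_two]
      simp [F2]
    rw [e]
    rcases hu with rfl | rfl
    · exact ⟨hv, Dvd.dvd.mul_right hd _⟩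
    · exact ⟨hv', Dvd.dvd.mul_left hd' _⟩
  have h5 := card_le_card h4
  rwa [card_pair hne] at h5

theorem d0b_wF_le {g : ℕ} (F : Fin g → ℤ[X]) (q : ℕ) : wF F q ≤ q := by
  unfold wF H59.rootCount
  exact (card_filter_le _ _).trans (card_range q).le

theorem d0b_ratio {g : ℕ} (F : Fin g → ℤ[X]) (w : ℕ) :
    ((gd (∏ i, F i) (primorial w)).card : ℝ) / primorial w =
      ∏ p ∈ Nat.primesBelow (w + 1), (1 - (wF F p : ℝ) / p) := by
  have h1 := H33B.count_coprime (∏ i, F i) (w + 1)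
  have hP : H33B.PW (w + 1) = primorial w := rfl
  rw [hP] at h1
  have h2 : (gd (∏ i, F i) (primorial w)).card = ∏ p ∈ Nat.primesBelow (w + 1), (p - wF F p) := by
    unfold wF
    rw [← h1]
    unfold gd
    congr 1
  have h3 : ((primorial w : ℕ) : ℝ) = ∏ p ∈ Nat.primesBelow (w + 1), (p : ℝ) := by
    rw [← hP]
    unfold H33B.PW
    push_cast
    rfl
  rw [h2, h3, Nat.cast_prod, ← prod_div_distrib]
  refine prod_congr rfl fun p hp => ?_
  rw [Nat.cast_sub (d0b_wF_le F p)]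
  have : (0 : ℝ) < p := by exact_mod_cast (Nat.prime_of_mem_primesBelow hp).pos
  field_simp

theorem d0b_phi (w : ℕ) : ((primorial w).totient : ℝ) / primorial w =
      ∏ p ∈ Nat.primesBelow (w + 1), (1 - (p : ℝ)⁻¹) := by
  have h1 := H33B.SR1_ratio (w + 1)
  have hP : H33B.PW (w + 1) = primorial w := rfl
  rw [hP] at h1
  have h2 := congrArg (fun r => r⁻¹) h1
  simp only [inv_div] at h2
  rw [h2, ← prod_inv_distrib]
  refine prod_congr rfl fun p _ => ?_
  rw [inv_inv, one_div]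

/-- The comparison, everything explicit. -/
theorem d0b_main {a a' : ℕ} {b b' : ℤ} {w : ℕ} (h : Dat a a' b b' w) {c : ℝ} (hc : 0 < c)
    {Z : ℕ} (hZ : 3 ≤ Z) (hwZ : w + 1 ≤ Z)
    (hm : c / Real.log Z ^ 2 ≤ ∏ p ∈ Nat.primesBelow Z, (1 - (wF (F2 a a' b b') p : ℝ) / p)) :
    c / Real.log Z * ((primorial w).totient / (gd (∏ i, F2 a a' b b' i) (primorial w)).card) ≤
      ∏ q ∈ Nat.primesBelow Z \ Nat.primesBelow (w + 1), (1 - gq q) := by
  have hL : 0 < Real.log Z := Real.log_pos (by exact_mod_cast (by omega : 1 < Z))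
  have hsub : Nat.primesBelow (w + 1) ⊆ Nat.primesBelow Z := by
    intro p hp
    rw [Nat.mem_primesBelow] at hp ⊢
    exact ⟨by omega, hp.2⟩
  have A := Finset.prod_sdiff (f := fun p : ℕ => (1 - (wF (F2 a a' b b') p : ℝ) / p)) hsub
  have B := Finset.prod_sdiff (f := fun p : ℕ => (1 - (p : ℝ)⁻¹)) hsub
  rw [← d0b_ratio (F2 a a' b b') w] at A
  rw [← d0b_phi w] at B
  have hAZ : 0 < ∏ p ∈ Nat.primesBelow Z, (1 - (wF (F2 a a' b b') p : ℝ) / p) :=
    lt_of_lt_of_le (by positivity) hm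
  have hBZ : ∏ p ∈ Nat.primesBelow Z, (1 - (p : ℝ)⁻¹) ≤ 1 / Real.log Z := H59.prod_one_sub_inv_le (by omega)
  have hBZ0 : 0 < ∏ p ∈ Nat.primesBelow Z, (1 - (p : ℝ)⁻¹) := by
    refine prod_pos fun p hp => ?_
    have h1 : (1 : ℝ) < p := by exact_mod_cast (Nat.prime_of_mem_primesBelow hp).one_lt
    have := inv_lt_one_of_one_lt₀ h1
    linarith
  have hP : (0 : ℝ) < primorial w := by exact_mod_cast primorial_pos w
  have hφ : (0 : ℝ) < (primorial w).totient := by exact_mod_cast Nat.totient_pos.2 (primorial_pos w)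
  obtain ⟨G, hG⟩ : ∃ G : ℝ, G = ((gd (∏ i, F2 a a' b b' i) (primorial w)).card : ℝ) := ⟨_, rfl⟩
  rw [← hG] at A ⊢
  have hG0 : 0 < G := by
    have h0 : 0 ≤ G := by rw [hG]; positivity
    rcases h0.lt_or_eq with h1 | h1
    · exact h1
    · rw [← h1, zero_div, mul_zero] at A
      rw [← A] at hAZ
      exact absurd hAZ (lt_irrefl _)
  -- the lower bound of the product
  have hle : ∏ q ∈ Nat.primesBelow Z \ Nat.primesBelow (w + 1),
      ((1 - (wF (F2 a a' b b') q : ℝ) / q) / (1 - (q : ℝ)⁻¹)) ≤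
      ∏ q ∈ Nat.primesBelow Z \ Nat.primesBelow (w + 1), (1 - gq q) := by
    refine prod_le_prod (fun q hq => ?_) (fun q hq => ?_)
    · rw [mem_sdiff, Nat.mem_primesBelow] at hq
      have h1 : (1 : ℝ) < q := by exact_mod_cast hq.1.2.one_lt
      have h2 : (wF (F2 a a' b b') q : ℝ) ≤ q := by exact_mod_cast d0b_wF_le _ q
      have h3 := inv_lt_one_of_one_lt₀ h1
      apply div_nonneg
      · rw [sub_nonneg, div_le_one (by linarith)]
        exact h2
      · linarith
    · rw [mem_sdiff, Nat.mem_primesBelow, Nat.mem_primesBelow] at hq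
      have hw : w < q := by
        by_contra h4
        exact hq.2 ⟨by omega, hq.1.2⟩
      have h1 : (1 : ℝ) < q := by exact_mod_cast hq.1.2.one_lt
      have h2 : (2 : ℝ) ≤ wF (F2 a a' b b') q := by exact_mod_cast d0b_two h hq.1.2 hw
      have h3 := inv_lt_one_of_one_lt₀ h1
      unfold gq
      rw [div_le_iff₀ (by linarith)]
      have e : (1 - 1 / ((q : ℝ) - 1)) * (1 - (q : ℝ)⁻¹) = 1 - 2 / q := by
        have h5 : (q : ℝ) - 1 ≠ 0 := by linarith
        field_simp
        ring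
      rw [e]
      have : 2 / (q : ℝ) ≤ (wF (F2 a a' b b') q : ℝ) / q := by
        apply div_le_div_of_nonneg_right h2 (by linarith)
      linarith
  refine le_trans ?_ hle
  rw [prod_div_distrib]
  obtain ⟨SA, hSA⟩ : ∃ S : ℝ, S = ∏ q ∈ Nat.primesBelow Z \ Nat.primesBelow (w + 1),
      (1 - (wF (F2 a a' b b') q : ℝ) / q) := ⟨_, rfl⟩
  obtain ⟨SB, hSB⟩ : ∃ S : ℝ, S = ∏ q ∈ Nat.primesBelow Z \ Nat.primesBelow (w + 1),
      (1 - (q : ℝ)⁻¹) := ⟨_, rfl⟩
  rw [← hSA, ← hSB]
  rw [← hSA] at A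
  rw [← hSB] at B
  have hSB0 : 0 < SB := by
    have h1 : 0 < SB * (((primorial w).totient : ℝ) / primorial w) := by rw [B]; exact hBZ0
    exact (mul_pos_iff_of_pos_right (by positivity)).1 h1
  have e1 : c / Real.log Z ^ 2 ≤ SA * (G / primorial w) := by rw [A]; exact hm
  have e2 : SB * (((primorial w).totient : ℝ) / primorial w) ≤ 1 / Real.log Z := by rw [B]; exact hBZ
  rw [le_div_iff₀ hSB0]
  have e3 : c / Real.log Z * (((primorial w).totient : ℝ) / G) * SB =
      (SB * (((primorial w).totient : ℝ) / primorial w)) * (c / Real.log Z * (primorial w / G)) := by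
    field_simp
  rw [e3]
  calc (SB * (((primorial w).totient : ℝ) / primorial w)) * (c / Real.log Z * (primorial w / G))
      ≤ (1 / Real.log Z) * (c / Real.log Z * (primorial w / G)) :=
        mul_le_mul_of_nonneg_right e2 (by positivity)
    _ = c / Real.log Z ^ 2 * (primorial w / G) := by field_simp
    _ ≤ SA * (G / primorial w) * (primorial w / G) := mul_le_mul_of_nonneg_right e1 (by positivity)
    _ = SA := by field_simp

/-- Proof. For a prime `q > w` one has `wF (F2 a a' b b') q = 2` (`q ∤ a a'`, and the roots of the two forms modulo `q` are different as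
`q ∤ a' b - a b'`), so `1 - gq q = (q - 2)/(q - 1) = (1 - wF/q)/(1 - 1/q)` and, leaving out `p1` (which only makes the product larger),
`VV ≥ ∏_{w < q < z} (1 - wF/q)/(1 - 1/q) = [∏_{q < z} (1 - wF/q)] [∏_{q < z} (1 - 1/q)]⁻¹ [∏_{q ≤ w} (1 - wF/q)]⁻¹ ∏_{q ≤ w} (1 - 1/q)`
with `z = (m)^(1/8)`. The four factors: `≥ c/(log z)^2` (`mert`), `≥ log z'` with `z' ≥ z` a natural number (`H59.prod_one_sub_inv_le`), `= P/#gd`
(`H33B.count_coprime`, `primorial w = H33B.PW (w + 1)`), `= φ(P)/P` (`H33B.SR1_ratio`). `c` does not depend on `w` (if there is no `w` with `Dat` there is nothing to prove; otherwise `F2_sys`). (`Pd w p1 M` with `M = m ≥ z`.)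
`VV ≤ 1`: all factors are in `[0, 1]`. -/
theorem VVd_lower (a a' : ℕ) (b b' : ℤ) (hN : NoFix (F2 a a' b b')) : ∃ c : ℝ, 0 < c ∧
    ∀ w : ℕ, Dat a a' b b' w → ∃ x0 : ℕ, ∀ x : ℕ, x0 ≤ x → ∀ p1 : ℕ,
      c / Real.log x * ((primorial w).totient / (gd (∏ i, F2 a a' b b' i) (primorial w)).card) ≤
        VV (Pd w p1 (ms a' x)) (zz (ms a' x)) ∧ VV (Pd w p1 (ms a' x)) (zz (ms a' x)) ≤ 1 := by
  by_cases hD : ∃ w0, Dat a a' b b' w0
  swap
  · exact ⟨1, one_pos, fun w hw => absurd ⟨w, hw⟩ hD⟩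
  obtain ⟨w0, hw0⟩ := hD
  obtain ⟨c, C, hc, _, hm⟩ := mert (F2 a a' b b') (F2_sys hw0) hN
  refine ⟨c, hc, fun w hw => ⟨(w + 4) ^ 8 + 2 * a', fun x hx p1 => ?_⟩⟩
  have ha' : 1 ≤ a' := hw.a0'
  have hx1 : (w + 4) ^ 8 ≤ x := by omega
  have hx2 : 2 * a' ≤ x := by omega
  have hx16 : (4 : ℕ) ^ 8 ≤ x := le_trans (Nat.pow_le_pow_left (by omega) 8) hx1
  have hxr : (65536 : ℝ) ≤ x := by exact_mod_cast (by simpa using hx16 : 65536 ≤ x)
  have hms1 : ((w : ℝ) + 4) ^ 8 ≤ (ms a' x : ℕ) := by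
    have : (w + 4) ^ 8 ≤ ms a' x := by
      unfold ms
      nlinarith
    exact_mod_cast this
  have hms2 : ((ms a' x : ℕ) : ℝ) ≤ (x : ℝ) ^ 2 := by
    have : ms a' x ≤ x ^ 2 := by
      unfold ms
      nlinarith
    exact_mod_cast this
  have hz1 : (w : ℝ) + 4 ≤ zz (ms a' x) := by
    unfold zz
    have h1 : (w : ℝ) + 4 = (((w : ℝ) + 4) ^ 8) ^ (1 / 8 : ℝ) := by
      rw [← Real.rpow_natCast, ← Real.rpow_mul (by positivity)]
      norm_num
    rw [h1]
    exact Real.rpow_le_rpow (by positivity) hms1 (by norm_num)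
  have hz2 : zz (ms a' x) ≤ Real.sqrt x := by
    unfold zz
    rw [Real.sqrt_eq_rpow]
    have h1 : (x : ℝ) ^ (1 / 2 : ℝ) = ((x : ℝ) ^ 4) ^ (1 / 8 : ℝ) := by
      rw [← Real.rpow_natCast, ← Real.rpow_mul (by positivity)]
      norm_num
    rw [h1]
    apply Real.rpow_le_rpow (by positivity) _ (by norm_num)
    refine hms2.trans ?_
    exact pow_le_pow_right₀ (by linarith) (by norm_num)
  have hsx : Real.sqrt x + 1 ≤ x := by
    have h1 : (2 : ℝ) ≤ Real.sqrt x := by
      apply Real.le_sqrt_of_sq_le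
      linarith
    have h2 : Real.sqrt x * Real.sqrt x = x := Real.mul_self_sqrt (by linarith)
    nlinarith
  obtain ⟨Z, hZ⟩ : ∃ Z, Z = ⌈zz (ms a' x)⌉₊ := ⟨_, rfl⟩
  have hZ1 : w + 4 ≤ Z := by
    have h1 := Nat.le_ceil (zz (ms a' x))
    rw [← hZ] at h1
    exact_mod_cast hz1.trans h1
  have hZx : (Z : ℝ) ≤ x := by
    have h1 := Nat.ceil_lt_add_one (a := zz (ms a' x)) (by linarith [Nat.cast_nonneg (α := ℝ) w])
    rw [← hZ] at h1
    linarith
  have hsubset : (Pd w p1 (ms a' x)).filter (fun q : ℕ => (q : ℝ) < zz (ms a' x)) ⊆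
      Nat.primesBelow Z \ Nat.primesBelow (w + 1) := by
    intro q hq
    rw [mem_filter, Pd, mem_filter, mem_Ioc] at hq
    rw [mem_sdiff, Nat.mem_primesBelow, Nat.mem_primesBelow, hZ, Nat.lt_ceil]
    exact ⟨⟨hq.2, hq.1.2.1⟩, fun h => by omega⟩
  have hfac : ∀ q ∈ Nat.primesBelow Z \ Nat.primesBelow (w + 1), 0 ≤ 1 - gq q ∧ 1 - gq q ≤ 1 := by
    intro q hq
    rw [mem_sdiff, Nat.mem_primesBelow, Nat.mem_primesBelow] at hq
    have hwq : w < q := by
      by_contra h4
      exact hq.2 ⟨by omega, hq.1.2⟩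
    have hw3 := hw.w3
    have h1 : (4 : ℝ) ≤ q := by exact_mod_cast (by omega : 4 ≤ q)
    have h2 : (0 : ℝ) < (q : ℝ) - 1 := by linarith
    unfold gq
    constructor
    · rw [sub_nonneg, div_le_one h2]
      linarith
    · have : 0 ≤ 1 / ((q : ℝ) - 1) := by positivity
      linarith
  constructor
  · have h1 : c / Real.log x * ((primorial w).totient / (gd (∏ i, F2 a a' b b' i) (primorial w)).card) ≤
        c / Real.log Z * ((primorial w).totient / (gd (∏ i, F2 a a' b b' i) (primorial w)).card) := by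
      apply mul_le_mul_of_nonneg_right _ (by positivity)
      apply div_le_div_of_nonneg_left hc.le
      · exact Real.log_pos (by exact_mod_cast (by omega : 1 < Z))
      · exact Real.log_le_log (by exact_mod_cast (by omega : 0 < Z)) hZx
    refine h1.trans ((d0b_main hw hc (by omega) (by omega) (hm Z (by omega)).1).trans ?_)
    unfold VV H59C.VP
    exact prod_le_prod_of_subset_of_le_one hsubset (fun q hq => (hfac q hq).1) (fun q hq _ => (hfac q hq).2)
  · unfold VV H59C.VP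
    exact prod_le_one (fun q hq => (hfac q (hsubset hq)).1) (fun q hq => (hfac q (hsubset hq)).2)

end Pool.Agent.Lib.H59W
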