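import Pool.Agent.Lib.H59W.DDefs
import Pool.Agent.Lib.H59W.B1
import Pool.Agent.Lib.H59C.CR

/-!
# Chunk D1: remainder terms
-/

open Finset Polynomial

namespace Pool.Agent.Lib.H59W

open Pool.Agent.Lib.H59C (PR zz yy Tri BX wB XB lv al Rel Win gq VV sift remd DD SWp)

theorem d1_DD (a' B1 : ℕ) (ha : 1 ≤ a') : ∃ x0 : ℕ, ∀ x : ℕ, x0 ≤ x → DD (ms a' x) (B1 + 1) ≤ DD x B1 := by
  refine ⟨⌈Real.exp (Real.sqrt (2 * a'))⌉₊ + 3, fun x hx => ?_⟩
  unfold DD ms
  apply Nat.floor_le_floor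
  have hx3 : (3 : ℝ) ≤ x := by exact_mod_cast (by omega : 3 ≤ x)
  have hx0 : (0 : ℝ) < x := by linarith
  have ha1 : (1 : ℝ) ≤ a' := by exact_mod_cast ha
  have hlx : 0 < Real.log x := Real.log_pos (by linarith)
  have hm : (x : ℝ) ≤ 2 * a' * x := by nlinarith
  have hL : Real.log x ≤ Real.log (2 * a' * x) := Real.log_le_log hx0 hm
  have hexp : Real.exp (Real.sqrt (2 * a')) ≤ x := by
    refine le_trans (Nat.le_ceil _) ?_
    exact_mod_cast (by omega : ⌈Real.exp (Real.sqrt (2 * a'))⌉₊ ≤ x)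
  have hs : Real.sqrt (2 * a') ≤ Real.log x := by
    rw [Real.le_log_iff_exp_le hx0]; exact hexp
  have hL0 : 0 < Real.log (2 * a' * x) := lt_of_lt_of_le hlx hL
  push_cast
  have h1 : Real.sqrt (2 * a' * x) = Real.sqrt (2 * a') * Real.sqrt x := by
    rw [Real.sqrt_mul (by positivity)]
  rw [h1, pow_succ, div_le_div_iff₀ (by positivity) (by positivity)]
  have h2 : Real.log x ^ B1 ≤ Real.log (2 * a' * x) ^ B1 := pow_le_pow_left₀ hlx.le hL _
  have h3 : Real.sqrt (2 * a') ≤ Real.log (2 * a' * x) := le_trans hs hL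
  calc Real.sqrt (2 * a') * Real.sqrt x * Real.log x ^ B1
      = Real.sqrt x * (Real.log x ^ B1 * Real.sqrt (2 * a')) := by ring
    _ ≤ Real.sqrt x * (Real.log (2 * a' * x) ^ B1 * Real.log (2 * a' * x)) := by
        apply mul_le_mul_of_nonneg_left _ (Real.sqrt_nonneg _)
        exact mul_le_mul h2 h3 (Real.sqrt_nonneg _) (by positivity)

theorem d1_primorial {w p : ℕ} (hp : p.Prime) (h : p ∣ primorial w) : p ≤ w := by
  unfold primorial at h
  rw [Prime.dvd_finsetProd_iff hp.prime] at h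
  obtain ⟨q, hq, hd⟩ := h
  rw [mem_filter, mem_range] at hq
  have := Nat.le_of_dvd hq.2.pos hd
  omega

/-- the term of one modulus -/
theorem d1_term {a a' : ℕ} {b b' : ℤ} {w : ℕ} (h : Dat a a' b b' w) {x p1 d v : ℕ} {rr : ℕ → ℝ}
    (hx : 2 * b'.natAbs + 2 ≤ x)
    (hd0 : 1 ≤ d) (hp : ∀ l ∈ d.primeFactors, w < l ∧ l ≠ p1) (hv : Gcl a a' b b' w v)
    (hp1 : p1.Prime)
    (hrr : d.Coprime (a * primorial w) → ¬ p1 ∣ d → ∀ v c : ℕ,
        IsCoprime ((a : ℤ) * v + b) (primorial w : ℤ) → IsCoprime ((a : ℤ) * c + b) (d : ℤ) →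
        |LS a b (x / 2) x (primorial w) v (fun n => n ≡ c [MOD d]) -
          (thl a b x - thl a b (x / 2)) / (Nat.totient (a * primorial w) : ℝ) / (Nat.totient d : ℝ)| ≤ rr d) :
    d.Coprime (a * primorial w) ∧ ¬ p1 ∣ d ∧
    |∑ n ∈ (Sd a b w v x).filter (fun n => d ∣ f2 a' b' n), lwt a b n -
      Xd a b w x / (Nat.totient d : ℝ)| ≤ rr d := by
  classical
  have ha0 := h.a0
  have ha0' := h.a0'
  have hc1 : d.Coprime (a * primorial w) := by
    apply Nat.coprime_of_dvd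
    intro k hk hkd hka
    have h1 := (hp k (Nat.mem_primeFactors.mpr ⟨hk, hkd, by omega⟩)).1
    rcases (Nat.Prime.dvd_mul hk).mp hka with h2 | h2
    · have h3 := Nat.le_of_dvd (by omega) h2
      have := h.aw
      omega
    · have h3 := d1_primorial hk h2
      omega
  have hc2 : ¬ p1 ∣ d := fun h1 => (hp p1 (Nat.mem_primeFactors.mpr ⟨hp1, h1, by omega⟩)).2 rfl
  refine ⟨hc1, hc2, ?_⟩
  have hca : Nat.Coprime a' d := by
    apply Nat.coprime_of_dvd
    intro k hk hka hkd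
    have h1 := (hp k (Nat.mem_primeFactors.mpr ⟨hk, hkd, by omega⟩)).1
    have h3 := Nat.le_of_dvd (by omega) hka
    have := h.aw'
    omega
  have hcaz : IsCoprime (a' : ℤ) (d : ℤ) := Nat.isCoprime_iff_coprime.mpr hca
  -- the class `c`
  obtain ⟨c, hc⟩ : ∃ c : ℕ, (d : ℤ) ∣ (a' : ℤ) * c + b' := by
    obtain ⟨s, t, hst⟩ := hcaz
    have hd0z : (0 : ℤ) < d := by exact_mod_cast hd0
    refine ⟨((-(s * b')) % (d : ℤ)).toNat, ?_⟩
    have h1 : (((-(s * b')) % (d : ℤ)).toNat : ℤ) = (-(s * b')) % (d : ℤ) :=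
      Int.toNat_of_nonneg (Int.emod_nonneg _ hd0z.ne')
    rw [h1]
    have h2 : (d : ℤ) ∣ (-(s * b')) % (d : ℤ) - (-(s * b')) := by
      have := Int.emod_emod_of_dvd (-(s * b')) (dvd_refl (d : ℤ))
      exact Int.dvd_of_emod_eq_zero (by
        rw [Int.sub_emod, this, sub_self, Int.zero_emod])
    obtain ⟨k, hk⟩ := h2
    refine ⟨a' * k + t * b', ?_⟩
    have h3 : (-(s * b')) % (d : ℤ) = -(s * b') + d * k := by linarith
    rw [h3]
    linear_combination (-b') * hst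
  have hac : IsCoprime ((a : ℤ) * c + b) (d : ℤ) := by
    rw [Int.isCoprime_iff_gcd_eq_one]
    by_contra hne
    obtain ⟨k, hk, hkd⟩ := Nat.exists_prime_and_dvd hne
    have hk1 : (k : ℤ) ∣ (a : ℤ) * c + b :=
      dvd_trans (Int.natCast_dvd_natCast.mpr hkd) (Int.gcd_dvd_left ..)
    have hk2 : (k : ℤ) ∣ (d : ℤ) :=
      dvd_trans (Int.natCast_dvd_natCast.mpr hkd) (Int.gcd_dvd_right ..)
    have hk3 : k ∣ d := Int.natCast_dvd_natCast.mp hk2
    have hk4 := (hp k (Nat.mem_primeFactors.mpr ⟨hk, hk3, by omega⟩)).1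
    have hk5 : (k : ℤ) ∣ (a' : ℤ) * b - a * b' := by
      have e : (a' : ℤ) * b - a * b' = a' * ((a : ℤ) * c + b) - a * ((a' : ℤ) * c + b') := by ring
      rw [e]
      exact dvd_sub (Dvd.dvd.mul_left hk1 _) (Dvd.dvd.mul_left (dvd_trans hk2 hc) _)
    have hk6 := Int.le_of_dvd (abs_pos.mpr h.det) ((dvd_abs _ _).mpr hk5)
    have hk7 := h.detw
    have : (k : ℤ) ≤ w := le_trans hk6 hk7
    have : k ≤ w := by exact_mod_cast this
    omega
  have hmain := hrr hc1 hc2 v c hv.1 hac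
  have hsum : ∑ n ∈ (Sd a b w v x).filter (fun n => d ∣ f2 a' b' n), lwt a b n =
      LS a b (x / 2) x (primorial w) v (fun n => n ≡ c [MOD d]) := by
    unfold LS Sd lwt
    rw [filter_filter]
    apply sum_congr _ fun _ _ => rfl
    ext n
    simp only [mem_filter, mem_Ioc]
    have key : x / 2 < n → (d ∣ f2 a' b' n ↔ n ≡ c [MOD d]) := by
      intro hn
      have hpos : 0 ≤ (a' : ℤ) * n + b' := by
        have h1 : (n : ℤ) ≤ (a' : ℤ) * n := by
          have : (1 : ℤ) ≤ a' := by exact_mod_cast ha0'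
          nlinarith [(by positivity : (0 : ℤ) ≤ n)]
        have h2 : b'.natAbs ≤ n := by omega
        have h3 : -(b'.natAbs : ℤ) ≤ b' := by
          rw [Int.natCast_natAbs]; exact neg_abs_le b'
        have h4 : (b'.natAbs : ℤ) ≤ n := by exact_mod_cast h2
        linarith
      have h1 : d ∣ f2 a' b' n ↔ (d : ℤ) ∣ (a' : ℤ) * n + b' := by
        unfold f2
        rw [← Int.natCast_dvd_natCast, Int.toNat_of_nonneg hpos]
      rw [h1, ← Int.natCast_modEq_iff]
      constructor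
      · intro h2
        have h3 : (d : ℤ) ∣ (a' : ℤ) * ((c : ℤ) - n) := by
          have e : (a' : ℤ) * ((c : ℤ) - n) = ((a' : ℤ) * c + b') - ((a' : ℤ) * n + b') := by ring
          rw [e]
          exact dvd_sub hc h2
        exact Int.modEq_iff_dvd.mpr (hcaz.symm.dvd_of_dvd_mul_left h3)
      · intro h2
        have h3 := Int.modEq_iff_dvd.mp h2
        have e : (a' : ℤ) * n + b' = ((a' : ℤ) * c + b') - a' * ((c : ℤ) - n) := by ring
        rw [e]
        exact dvd_sub hc (Dvd.dvd.mul_left h3 _)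
    constructor
    · rintro ⟨h1, ⟨h2, h3⟩, h4⟩
      exact ⟨h1, h2, h3, (key h1.1).mp h4⟩
    · rintro ⟨h1, h2, h3, h4⟩
      exact ⟨h1, ⟨h2, h3⟩, (key h1.1).mpr h4⟩
  rw [hsum]
  unfold Xd
  exact hmain

/-- Proof. (Model: `H59C.rem_A`, file `H59C/CR.lean`.) `lin_level` with `s = 2 a a'`, `P = primorial w`, `E = 1`, `y1 = x/2`, `y2 = x`: constants
`A', B₁`; `B = B₁ + 1`, so `DD (ms a' x) B ≤ DD x B₁` for large `x`. `p1 ∤ a P` as `p1 > w ≥ a`. The `d` in `remd` are squarefree with prime factors in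
`Pd`, so `> w`, `≠ p1`: coprime to `a P`, not divisible by `p1`. Let `c` be a natural number with `a' c + b' ≡ 0` modulo `d` (`(a', d) = 1`). For `n > x/2`
(`x` large) `f2 n = a' n + b' > 0` and `d ∣ f2 n` iff `n ≡ c [MOD d]`. And `a' (a c + b) ≡ a' b - a b'` modulo `d`, which is prime to `d`
(`0 < |a' b - a b'| ≤ w`), so `(a c + b, d) = 1`. The sum over `d ∣ f2 n` is `LS a b (x/2) x P v (· ≡ c [MOD d])`. First part: the sum of the `rr d`.
Second part: for `q ∈ Qd` (a prime in `[z, y)`, `> w`, `≠ p1`) and `d ≤ D/q` composed of primes `< z ≤ q`: `d q ≤ D`, `(d, q) = 1`, `gq q/φ(d) = 1/φ(d q)`; the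
products `d q` are pairwise different. -/
theorem rem_D {a a' : ℕ} {b b' : ℤ} {w : ℕ} (h : Dat a a' b b' w) (A : ℕ) : ∃ A' B x0 : ℕ,
    ∀ x : ℕ, x0 ≤ x → ∀ p1 : ℕ, p1.Prime → w < p1 → SWp A' (2 * a * a' * x) p1 → ∀ v : ℕ,
    Gcl a a' b b' w v →
    remd (Sd a b w v x) (lwt a b) (f2 a' b') (Pd w p1 (ms a' x)) (zz (ms a' x)) (Xd a b w x)
      (DD (ms a' x) B) ≤ x / Real.log x ^ A ∧
    ∑ q ∈ Qd w p1 (ms a' x), remd ((Sd a b w v x).filter (fun n => q ∣ f2 a' b' n)) (lwt a b)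
      (f2 a' b') (Pd w p1 (ms a' x)) (zz (ms a' x)) (Xd a b w x * gq q)
      ((DD (ms a' x) B : ℝ) / q) ≤ x / Real.log x ^ A := by
  classical
  have ha0 := h.a0
  have ha0' := h.a0'
  have haw := h.aw
  have hP : 1 ≤ primorial w := primorial_pos w
  obtain ⟨A', B, n0, hlev⟩ := lin_level a (2 * a * a') b ha0 (by nlinarith) h.ab (primorial w) hP A 1
  obtain ⟨x1, hx1⟩ := d1_DD a' B ha0'
  refine ⟨A', B + 1, n0 + x1 + 2 * b'.natAbs + 2, fun x hx p1 hp1 hwp hSW v hv => ?_⟩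
  have hp1a : ¬ p1 ∣ a * primorial w := by
    intro h1
    rcases (Nat.Prime.dvd_mul hp1).mp h1 with h2 | h2
    · have := Nat.le_of_dvd (by omega) h2
      omega
    · have := d1_primorial hp1 h2
      omega
  obtain ⟨rr, hrr0, hrr, hsumrr⟩ := hlev x (by omega) p1 hp1 hp1a hSW (x / 2) x (by omega) (by omega)
  have hDD := hx1 x (by omega)
  obtain ⟨M, hM⟩ : ∃ M : ℕ, M = ms a' x := ⟨_, rfl⟩
  rw [← hM] at hDD ⊢
  obtain ⟨T, hT⟩ : ∃ T : Finset ℕ, T = (Icc 1 (DD x B)).filter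
      (fun d => d.Coprime (a * primorial w) ∧ ¬ p1 ∣ d) := ⟨_, rfl⟩
  have hTsum : ∑ d ∈ T, rr d ≤ x / Real.log x ^ A := by
    rw [hT]
    refine le_trans (le_of_eq ?_) hsumrr
    apply sum_congr rfl
    intro d _
    simp
  have hterm : ∀ d, 1 ≤ d → d ≤ DD x B → (∀ l ∈ d.primeFactors, w < l ∧ l ≠ p1) →
      d ∈ T ∧ |∑ n ∈ (Sd a b w v x).filter (fun n => d ∣ f2 a' b' n), lwt a b n -
        Xd a b w x / (Nat.totient d : ℝ)| ≤ rr d := by
    intro d hd1 hd2 hd3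
    obtain ⟨e1, e2, e3⟩ := d1_term h (x := x) (v := v) (rr := rr) (by omega) hd1 hd3 hv hp1
      (fun g1 g2 v' c' g3 g4 => hrr d hd1 hd2 g1 g2 v' c' g3 g4)
    refine ⟨?_, e3⟩
    rw [hT, mem_filter, mem_Icc]
    exact ⟨⟨hd1, hd2⟩, e1, e2⟩
  constructor
  · refine le_trans ?_ hTsum
    unfold remd
    rw [Nat.floor_natCast]
    have hfac : ∀ d ∈ (Icc 1 (DD M (B + 1))).filter (fun d => Squarefree d ∧ ∀ q ∈ d.primeFactors,
        q ∈ Pd w p1 M ∧ (q : ℝ) < zz M), d ∈ T ∧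
          |∑ n ∈ (Sd a b w v x).filter (fun n => d ∣ f2 a' b' n), lwt a b n -
        Xd a b w x / (Nat.totient d : ℝ)| ≤ rr d := by
      intro d hd
      rw [mem_filter, mem_Icc] at hd
      obtain ⟨⟨hd1, hd2⟩, -, hd3⟩ := hd
      apply hterm d hd1 (le_trans hd2 hDD)
      intro l hl
      have h1 := (hd3 l hl).1
      unfold Pd at h1
      rw [mem_filter, mem_Ioc] at h1
      exact ⟨h1.1.1, h1.2.2⟩
    calc _ ≤ ∑ d ∈ (Icc 1 (DD M (B + 1))).filter (fun d => Squarefree d ∧ ∀ q ∈ d.primeFactors,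
        q ∈ Pd w p1 M ∧ (q : ℝ) < zz M), rr d := sum_le_sum fun d hd => (hfac d hd).2
      _ ≤ ∑ d ∈ T, rr d := by
        apply sum_le_sum_of_subset_of_nonneg
        · intro d hd
          exact (hfac d hd).1
        · intro d _ _
          exact hrr0 d
  · refine le_trans ?_ hTsum
    obtain ⟨r, hr⟩ : ∃ r : ℕ → ℝ, r = fun d => |∑ n ∈ (Sd a b w v x).filter
      (fun n => d ∣ f2 a' b' n), lwt a b n - Xd a b w x / (Nat.totient d : ℝ)| := ⟨_, rfl⟩
    obtain ⟨E, hE⟩ : ∃ E : ℕ → Finset ℕ, E = fun q : ℕ => (Icc 1 ⌊(DD M (B + 1) : ℝ) / (q : ℝ)⌋₊).filter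
      (fun d => Squarefree d ∧ ∀ l ∈ d.primeFactors, l ∈ Pd w p1 M ∧ (l : ℝ) < zz M) := ⟨_, rfl⟩
    -- facts about a pair
    have hpair : ∀ q ∈ Qd w p1 M, ∀ d ∈ E q, q.Prime ∧ 0 < d ∧ Nat.Coprime q d ∧ q * d ≤ DD M (B + 1) ∧
        (∀ l ∈ (q * d).primeFactors, w < l ∧ l ≠ p1) ∧ zz M ≤ q ∧
        ∀ l ∈ d.primeFactors, (l : ℝ) < zz M := by
      intro q hq d hd
      rw [hE] at hd
      simp only [mem_filter, mem_Icc] at hd
      obtain ⟨⟨hd1, hd2⟩, hd3, hd4⟩ := hd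
      have hq' : q ∈ PR (zz M) (yy M) ∧ q ∈ Pd w p1 M := by
        unfold Qd at hq
        exact mem_filter.mp hq
      obtain ⟨hqp, hq1, hq2⟩ := H59C.mem_PR.mp hq'.1
      have hqPP := hq'.2
      unfold Pd at hqPP
      rw [mem_filter, mem_Ioc] at hqPP
      have hqpos : (0 : ℝ) < q := by exact_mod_cast hqp.pos
      have hcop : Nat.Coprime q d := by
        rw [Nat.Prime.coprime_iff_not_dvd hqp]
        intro hqd
        have h1 := (hd4 q (Nat.mem_primeFactors.mpr ⟨hqp, hqd, by omega⟩)).2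
        linarith
      have hle : q * d ≤ DD M (B + 1) := by
        have h1 : (d : ℝ) ≤ (DD M (B + 1) : ℝ) / q := by
          have h0 : (0 : ℝ) ≤ (DD M (B + 1) : ℝ) / q := by positivity
          exact (Nat.le_floor_iff h0).mp hd2
        rw [le_div_iff₀ hqpos] at h1
        have h2 : ((q * d : ℕ) : ℝ) ≤ (DD M (B + 1) : ℝ) := by
          push_cast
          linarith
        exact_mod_cast h2
      refine ⟨hqp, hd1, hcop, hle, ?_, hq1, fun l hl => (hd4 l hl).2⟩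
      intro l hl
      rw [Nat.mem_primeFactors] at hl
      rcases (Nat.Prime.dvd_mul hl.1).mp hl.2.1 with h1 | h1
      · have h2 := (Nat.prime_dvd_prime_iff_eq hl.1 hqp).mp h1
        rw [h2]
        exact ⟨hqPP.1.1, hqPP.2.2⟩
      · have h2 := (hd4 l (Nat.mem_primeFactors.mpr ⟨hl.1, h1, by omega⟩)).1
        unfold Pd at h2
        rw [mem_filter, mem_Ioc] at h2
        exact ⟨h2.1.1, h2.2.2⟩
    have htm : ∀ q ∈ Qd w p1 M, remd ((Sd a b w v x).filter (fun n => q ∣ f2 a' b' n)) (lwt a b)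
      (f2 a' b') (Pd w p1 M) (zz M) (Xd a b w x * gq q) ((DD M (B + 1) : ℝ) / q) =
        ∑ d ∈ E q, r (q * d) := by
      intro q hq
      unfold remd
      rw [hE]
      apply sum_congr rfl
      intro d hd
      have hd' : d ∈ E q := by rw [hE]; exact hd
      obtain ⟨hqp, hd0, hcop, hle, -, -, -⟩ := hpair q hq d hd'
      rw [hr]
      show |_| = |_|
      congr 1
      congr 1
      · rw [filter_filter]
        apply sum_congr _ fun _ _ => rfl
        ext p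
        simp only [mem_filter]
        constructor
        · rintro ⟨h1, h2, h3⟩
          exact ⟨h1, Nat.Coprime.mul_dvd_of_dvd_of_dvd hcop h2 h3⟩
        · rintro ⟨h1, h2⟩
          exact ⟨h1, dvd_trans (dvd_mul_right _ _) h2, dvd_trans (dvd_mul_left _ _) h2⟩
      · rw [Nat.totient_mul hcop, Nat.totient_prime hqp]
        unfold gq
        have hq1 := hqp.one_lt
        rw [Nat.cast_mul, Nat.cast_sub hq1.le, Nat.cast_one]
        have h1 : (1 : ℝ) < q := by exact_mod_cast hq1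
        have h2 : (0 : ℝ) < Nat.totient d := by exact_mod_cast Nat.totient_pos.mpr hd0
        have h3 : (q : ℝ) - 1 ≠ 0 := by linarith
        field_simp
    rw [sum_congr rfl htm, sum_sigma']
    have hinj : Set.InjOn (fun x : (_ : ℕ) × ℕ => x.1 * x.2) ((Qd w p1 M).sigma E) := by
      rintro ⟨q, d⟩ hx ⟨q', d'⟩ hx' heq
      simp only [coe_sigma, Set.mem_sigma_iff, mem_coe] at hx hx'
      obtain ⟨hqp, hd0, hcop, hle, -, hz, hl⟩ := hpair q hx.1 d hx.2
      obtain ⟨hqp', hd0', hcop', hle', -, hz', hl'⟩ := hpair q' hx'.1 d' hx'.2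
      have heq' : q * d = q' * d' := heq
      have hqq : q = q' := by
        have h1 : q ∣ q' * d' := by rw [← heq']; exact dvd_mul_right _ _
        rcases (Nat.Prime.dvd_mul hqp).mp h1 with h2 | h2
        · exact (Nat.prime_dvd_prime_iff_eq hqp hqp').mp h2
        · exfalso
          have h3 := hl' q (Nat.mem_primeFactors.mpr ⟨hqp, h2, by omega⟩)
          linarith
      subst hqq
      have hdd : d = d' := Nat.eq_of_mul_eq_mul_left hqp.pos heq'
      rw [hdd]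
    have hmem : ∀ m ∈ ((Qd w p1 M).sigma E).image (fun x : (_ : ℕ) × ℕ => x.1 * x.2),
        m ∈ T ∧ r m ≤ rr m := by
      intro m hm
      rw [mem_image] at hm
      obtain ⟨⟨q, d⟩, hx, rfl⟩ := hm
      rw [mem_sigma] at hx
      obtain ⟨hqp, hd0, hcop, hle, hcc, hz, hl⟩ := hpair q hx.1 d hx.2
      have h1 := hterm (q * d) (Nat.mul_pos hqp.pos hd0) (le_trans hle hDD) hcc
      refine ⟨h1.1, ?_⟩
      rw [hr]
      exact h1.2
    calc ∑ x ∈ (Qd w p1 M).sigma E, r (x.1 * x.2)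
        = ∑ m ∈ ((Qd w p1 M).sigma E).image (fun x : (_ : ℕ) × ℕ => x.1 * x.2), r m := by
          rw [sum_image hinj]
      _ ≤ ∑ m ∈ ((Qd w p1 M).sigma E).image (fun x : (_ : ℕ) × ℕ => x.1 * x.2), rr m :=
          sum_le_sum fun m hm => (hmem m hm).2
      _ ≤ ∑ m ∈ T, rr m := by
          apply sum_le_sum_of_subset_of_nonneg
          · intro m hm
            exact (hmem m hm).1
          · intro m _ _
            exact hrr0 m

end Pool.Agent.Lib.H59W
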