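import Pool.Agent.Lib.H59W.DDefs
import Pool.Agent.Lib.H59C.CE1

/-!
# Chunk D9B: squares
-/

open Finset Polynomial

namespace Pool.Agent.Lib.H59W

open Pool.Agent.Lib.H59C (PR zz yy Tri BX wB XB lv al Rel Win gq VV sift remd DD SWp)

theorem d9b_lin {a : ℕ} (ha : 1 ≤ a) (b : ℤ) {x n : ℕ} (hx : 2 * b.natAbs + 6 ≤ x) (h1 : x / 2 < n)
    (h2 : n ≤ x) : 2 ≤ (a : ℤ) * n + b ∧ (a : ℤ) * n + b ≤ 2 * a * x := by
  have h3 : (b.natAbs : ℤ) = |b| := Int.natCast_natAbs b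
  have h4 : -|b| ≤ b := neg_abs_le b
  have h5 : b ≤ |b| := le_abs_self b
  have ha' : (1 : ℤ) ≤ a := by exact_mod_cast ha
  have hn : b.natAbs + 3 ≤ n := by omega
  have hn' : |b| + 3 ≤ (n : ℤ) := by
    rw [← h3]
    exact_mod_cast hn
  have hnx : (n : ℤ) ≤ x := by exact_mod_cast h2
  have h0 : 0 ≤ |b| := abs_nonneg b
  have h6 : (n : ℤ) ≤ a * n := by nlinarith
  have h7 : (a : ℤ) * n ≤ a * x := by nlinarith
  constructor
  · linarith
  · have h8 : (x : ℤ) ≤ a * x := by nlinarith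
    linarith

theorem d9b_f2 {a' : ℕ} (ha : 1 ≤ a') (b' : ℤ) {x n : ℕ} (hx : 2 * b'.natAbs + 6 ≤ x) (h1 : x / 2 < n)
    (h2 : n ≤ x) : ((f2 a' b' n : ℕ) : ℤ) = (a' : ℤ) * n + b' ∧ 2 ≤ f2 a' b' n ∧ f2 a' b' n ≤ ms a' x := by
  obtain ⟨h3, h4⟩ := d9b_lin ha b' hx h1 h2
  have h5 : ((f2 a' b' n : ℕ) : ℤ) = (a' : ℤ) * n + b' := by
    unfold f2
    rw [Int.toNat_of_nonneg (by linarith)]
  refine ⟨h5, ?_, ?_⟩
  · have : (2 : ℤ) ≤ ((f2 a' b' n : ℕ) : ℤ) := by rw [h5]; exact h3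
    exact_mod_cast this
  · have : ((f2 a' b' n : ℕ) : ℤ) ≤ ((ms a' x : ℕ) : ℤ) := by
      rw [h5]
      unfold ms
      push_cast
      exact h4
    exact_mod_cast this

theorem d9b_lwt {a : ℕ} (ha : 1 ≤ a) (b : ℤ) {x n : ℕ} (hx : 2 * b.natAbs + 6 ≤ x) (h1 : x / 2 < n)
    (h2 : n ≤ x) : 0 ≤ lwt a b n ∧ lwt a b n ≤ Real.log (2 * a * x) := by
  obtain ⟨h3, h4⟩ := d9b_lin ha b hx h1 h2
  have h5 : (2 : ℝ) ≤ (a : ℝ) * n + b := by exact_mod_cast h3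
  have h6 : (a : ℝ) * n + b ≤ 2 * a * x := by exact_mod_cast h4
  unfold lwt
  exact ⟨Real.log_nonneg (by linarith), Real.log_le_log (by linarith) h6⟩

open Classical in
theorem d9b_count {a' : ℕ} (ha : 1 ≤ a') (b' : ℤ) {x : ℕ} (hx : 2 * b'.natAbs + 6 ≤ x) {q : ℕ}
    (hq0 : 0 < q) (hq : a' < q) :
    ((((Ioc (x / 2) x).filter (fun n => q.Prime ∧ q ^ 2 ∣ f2 a' b' n)).card : ℕ) : ℝ) ≤
      (x : ℝ) / (q : ℝ) ^ 2 + 1 := by
  rcases ((Ioc (x / 2) x).filter (fun n => q.Prime ∧ q ^ 2 ∣ f2 a' b' n)).eq_empty_or_nonempty with h0 | ⟨n0, hn0⟩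
  · rw [h0, Finset.card_empty, Nat.cast_zero]
    positivity
  · rw [Finset.mem_filter, Finset.mem_Ioc] at hn0
    obtain ⟨⟨g1, g2⟩, hqp, g3⟩ := hn0
    have h1 := H59C.ce1_count n0 (x / 2) x (q ^ 2) x (by omega) le_rfl (by positivity)
    rw [Nat.cast_pow] at h1
    refine le_trans ?_ h1
    have h2 : ((Ioc (x / 2) x).filter (fun n => q.Prime ∧ q ^ 2 ∣ f2 a' b' n)) ⊆
        (Ioc (x / 2) x).filter (fun p => q ^ 2 ∣ Nat.dist n0 p) := by
      intro n hn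
      rw [Finset.mem_filter, Finset.mem_Ioc] at hn
      obtain ⟨⟨k1, k2⟩, -, k3⟩ := hn
      rw [Finset.mem_filter, Finset.mem_Ioc]
      refine ⟨⟨k1, k2⟩, ?_⟩
      rw [H59C.ce1_dvd, Nat.modEq_iff_dvd]
      have e1 := (d9b_f2 ha b' hx g1 g2).1
      have e2 := (d9b_f2 ha b' hx k1 k2).1
      have f1 : ((q ^ 2 : ℕ) : ℤ) ∣ (a' : ℤ) * n0 + b' := by
        rw [← e1]
        exact_mod_cast g3
      have f2' : ((q ^ 2 : ℕ) : ℤ) ∣ (a' : ℤ) * n + b' := by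
        rw [← e2]
        exact_mod_cast k3
      have f3 : ((q ^ 2 : ℕ) : ℤ) ∣ (a' : ℤ) * ((n0 : ℤ) - n) := by
        have := dvd_sub f1 f2'
        have e : (a' : ℤ) * ((n0 : ℤ) - n) = (a' : ℤ) * n0 + b' - ((a' : ℤ) * n + b') := by ring
        rw [e]
        exact this
      have hcop : IsCoprime ((q ^ 2 : ℕ) : ℤ) (a' : ℤ) := by
        rw [Nat.isCoprime_iff_coprime]
        refine Nat.Coprime.pow_left 2 ?_
        rw [hqp.coprime_iff_not_dvd]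
        intro h
        have := Nat.le_of_dvd (by omega) h
        omega
      exact hcop.dvd_of_dvd_mul_left f3
    exact_mod_cast Finset.card_le_card h2

open Classical in
/-- Squares.

Proof. For a prime `q ≥ zz m = m^(1/8)` the number of the `n ≤ x` with `q² ∣ a' n + b'` is at most `x/q² + 1` (`(a', q) = 1` for large `x`), and only `q² ≤ 2 m` matter
(`0 < f2 n ≤ m` for `x/2 < n ≤ x`, `x` large). So there are at most `2 x/m^(1/8) + √(2m)` such `n`, with weights `lwt n ≤ 2 log x`. -/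
theorem bad_sq_D {a a' : ℕ} {b b' : ℤ} {w : ℕ} (h : Dat a a' b b' w) : ∃ x0 : ℕ, ∀ x : ℕ, x0 ≤ x →
    ∀ v : ℕ, ∑ n ∈ (Sd a b w v x).filter (fun n => ∃ q : ℕ, q.Prime ∧ zz (ms a' x) ≤ q ∧
      q ^ 2 ∣ f2 a' b' n), lwt a b n ≤ (x : ℝ) ^ (9 / 10 : ℝ) := by
  obtain ⟨n1, hn1⟩ := H59C.cdl_log_pow 1 (4 + 4 * (a' : ℝ)) (1 / 40) (by positivity) (by norm_num)
  obtain ⟨n2, hn2⟩ := H59C.cdl_zz ((a' : ℝ) + 2)
  refine ⟨n1 + n2 + 2 * b.natAbs + 2 * b'.natAbs + 2 * a + 1000, fun x hx v => ?_⟩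
  have hX : (1000 : ℝ) ≤ x := by exact_mod_cast (by omega : 1000 ≤ x)
  have hL : 0 < Real.log x := Real.log_pos (by linarith)
  have h6 := hn1 x (by omega)
  rw [pow_one] at h6
  have ha1 := h.a0
  have ha1' := h.a0'
  have ha1r : (1 : ℝ) ≤ a := by exact_mod_cast ha1
  have ha1r' : (1 : ℝ) ≤ a' := by exact_mod_cast ha1'
  obtain ⟨m, hm⟩ : ∃ m : ℕ, m = ms a' x := ⟨_, rfl⟩
  have hmx : x ≤ m := by
    rw [hm]
    unfold ms
    nlinarith
  have hmr : (m : ℝ) = 2 * a' * x := by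
    rw [hm]
    unfold ms
    push_cast
    ring
  have hz2 := hn2 m (by omega)
  have hzpos : 0 < zz m := by linarith
  rw [← hm]
  obtain ⟨W, hWd⟩ : ∃ W : Finset ℕ, W = (Sd a b w v x).filter
    (fun n => ∃ q : ℕ, q.Prime ∧ zz m ≤ q ∧ q ^ 2 ∣ f2 a' b' n) := ⟨_, rfl⟩
  have hSd : ∀ n ∈ Sd a b w v x, x / 2 < n ∧ n ≤ x := by
    intro n hn
    exact Finset.mem_Ioc.1 (Finset.mem_filter.1 hn).1
  obtain ⟨k, hk⟩ : ∃ k : ℕ, k + 1 = ⌈zz m⌉₊ := by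
    have : 0 < ⌈zz m⌉₊ := Nat.ceil_pos.mpr hzpos
    exact ⟨⌈zz m⌉₊ - 1, by omega⟩
  have hkz : zz m ≤ (k : ℝ) + 1 := by
    have := Nat.le_ceil (zz m)
    rw [← hk] at this
    exact_mod_cast this
  have hka : a' ≤ k := by
    have h1 : (a' : ℝ) ≤ k := by linarith
    exact_mod_cast h1
  obtain ⟨t, ht⟩ : ∃ t : ℕ, t = Nat.sqrt m := ⟨_, rfl⟩
  have hWc : (W.card : ℝ) ≤ 2 * (x : ℝ) ^ (7 / 8 : ℝ) + 2 * a' * (x : ℝ) ^ (1 / 2 : ℝ) := by
    have hsub : W ⊆ (Ioo k (t + 1)).biUnion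
        (fun q => (Ioc (x / 2) x).filter (fun n => q.Prime ∧ q ^ 2 ∣ f2 a' b' n)) := by
      intro n hn
      rw [hWd] at hn
      obtain ⟨hn1, q, hq, hqz, hqd⟩ := Finset.mem_filter.1 hn
      obtain ⟨g1, g2⟩ := hSd n hn1
      obtain ⟨-, f2a, f2b⟩ := d9b_f2 ha1' b' (x := x) (by omega) g1 g2
      rw [mem_biUnion]
      refine ⟨q, ?_, ?_⟩
      · rw [mem_Ioo]
        constructor
        · have : ⌈zz m⌉₊ ≤ q := Nat.ceil_le.mpr hqz
          omega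
        · have h2 : q ^ 2 ≤ f2 a' b' n := Nat.le_of_dvd (by omega) hqd
          have h4 : q ≤ t := by
            rw [ht, Nat.le_sqrt', hm]
            omega
          omega
      · rw [mem_filter, mem_Ioc]
        exact ⟨⟨g1, g2⟩, hq, hqd⟩
    have h1 : W.card ≤ ∑ q ∈ Ioo k (t + 1),
        ((Ioc (x / 2) x).filter (fun n => q.Prime ∧ q ^ 2 ∣ f2 a' b' n)).card :=
      (card_le_card hsub).trans card_biUnion_le
    have h2 : (W.card : ℝ) ≤ ∑ q ∈ Ioo k (t + 1),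
        (((Ioc (x / 2) x).filter (fun n => q.Prime ∧ q ^ 2 ∣ f2 a' b' n)).card : ℝ) := by
      exact_mod_cast h1
    have h3 : ∑ q ∈ Ioo k (t + 1),
        (((Ioc (x / 2) x).filter (fun n => q.Prime ∧ q ^ 2 ∣ f2 a' b' n)).card : ℝ) ≤
        ∑ q ∈ Ioo k (t + 1), (x * ((q : ℝ) ^ 2)⁻¹ + 1) := by
      apply sum_le_sum
      intro q hq
      rw [mem_Ioo] at hq
      have h4 := d9b_count ha1' b' (x := x) (by omega) (q := q) (by omega) (by omega)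
      rwa [div_eq_mul_inv] at h4
    have h4 : ∑ q ∈ Ioo k (t + 1), (x * ((q : ℝ) ^ 2)⁻¹ + 1) ≤ x * (2 / ((k : ℝ) + 1)) + t := by
      rw [sum_add_distrib, ← mul_sum]
      apply add_le_add
      · apply mul_le_mul_of_nonneg_left _ (by linarith)
        exact sum_Ioo_inv_sq_le (α := ℝ) k (t + 1)
      · rw [sum_const, nsmul_eq_mul, mul_one, Nat.card_Ioo]
        have : t + 1 - k - 1 ≤ t := by omega
        exact_mod_cast this
    have hzx : (x : ℝ) ^ (1 / 8 : ℝ) ≤ zz m := by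
      unfold zz
      exact Real.rpow_le_rpow (by linarith) (by exact_mod_cast hmx) (by norm_num)
    have hx8 : 0 < (x : ℝ) ^ (1 / 8 : ℝ) := Real.rpow_pos_of_pos (by linarith) _
    have h5 : (x : ℝ) * (2 / ((k : ℝ) + 1)) ≤ 2 * (x : ℝ) ^ (7 / 8 : ℝ) := by
      have h6 : (x : ℝ) * (2 / ((k : ℝ) + 1)) ≤ x * (2 / (x : ℝ) ^ (1 / 8 : ℝ)) := by
        apply mul_le_mul_of_nonneg_left _ (by linarith)
        exact div_le_div_of_nonneg_left (by norm_num) hx8 (hzx.trans hkz)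
      refine h6.trans (le_of_eq ?_)
      have h7 : (x : ℝ) = (x : ℝ) ^ (7 / 8 : ℝ) * (x : ℝ) ^ (1 / 8 : ℝ) := by
        rw [← Real.rpow_add (by linarith)]
        norm_num
      have h8 : (x : ℝ) * (2 / (x : ℝ) ^ (1 / 8 : ℝ)) =
          (x : ℝ) ^ (7 / 8 : ℝ) * (x : ℝ) ^ (1 / 8 : ℝ) * (2 / (x : ℝ) ^ (1 / 8 : ℝ)) := by
        rw [← h7]
      rw [h8]
      field_simp
    have h6 : (t : ℝ) ≤ 2 * a' * (x : ℝ) ^ (1 / 2 : ℝ) := by
      have h7 : (t : ℝ) ≤ Real.sqrt m := by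
        rw [ht]
        exact Real.nat_sqrt_le_real_sqrt
      have h8 : Real.sqrt m = Real.sqrt (2 * a') * Real.sqrt x := by
        rw [hmr, Real.sqrt_mul (by positivity)]
      have h9 : Real.sqrt (2 * a') ≤ 2 * a' := by
        rw [Real.sqrt_le_left (by positivity)]
        nlinarith
      rw [h8] at h7
      rw [← Real.sqrt_eq_rpow]
      exact h7.trans (mul_le_mul_of_nonneg_right h9 (Real.sqrt_nonneg _))
    linarith
  have hlog2 : Real.log (2 * a * x) ≤ 2 * Real.log x := by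
    have h1 : (2 * a : ℝ) ≤ x := by exact_mod_cast (by omega : 2 * a ≤ x)
    rw [Real.log_mul (by positivity) (by linarith)]
    have h2 : Real.log (2 * a) ≤ Real.log x := Real.log_le_log (by positivity) h1
    linarith
  have hpow2 : (x : ℝ) ^ (1 / 2 : ℝ) ≤ (x : ℝ) ^ (7 / 8 : ℝ) :=
    Real.rpow_le_rpow_of_exponent_le (by linarith) (by norm_num)
  have hp78 : 0 < (x : ℝ) ^ (7 / 8 : ℝ) := Real.rpow_pos_of_pos (by linarith) _
  calc ∑ n ∈ (Sd a b w v x).filter (fun n => ∃ q : ℕ, q.Prime ∧ zz m ≤ q ∧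
      q ^ 2 ∣ f2 a' b' n), lwt a b n ≤ ∑ n ∈ W, 2 * Real.log x := by
        rw [hWd]
        apply sum_le_sum
        intro n hn
        obtain ⟨g1, g2⟩ := hSd n (Finset.mem_filter.1 hn).1
        exact (d9b_lwt ha1 b (by omega) g1 g2).2.trans hlog2
    _ = (W.card : ℝ) * (2 * Real.log x) := by
        rw [sum_const, nsmul_eq_mul]
    _ ≤ ((2 + 2 * a') * (x : ℝ) ^ (7 / 8 : ℝ)) * (2 * Real.log x) := by
        apply mul_le_mul_of_nonneg_right _ (by positivity)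
        have h1 : 2 * (a' : ℝ) * (x : ℝ) ^ (1 / 2 : ℝ) ≤ 2 * a' * (x : ℝ) ^ (7 / 8 : ℝ) :=
          mul_le_mul_of_nonneg_left hpow2 (by positivity)
        linarith
    _ = (x : ℝ) ^ (7 / 8 : ℝ) * ((4 + 4 * a') * Real.log x) := by ring
    _ ≤ (x : ℝ) ^ (7 / 8 : ℝ) * (x : ℝ) ^ (1 / 40 : ℝ) := mul_le_mul_of_nonneg_left h6 hp78.le
    _ = (x : ℝ) ^ (9 / 10 : ℝ) := by
        rw [← Real.rpow_add (by linarith)]
        norm_num

end Pool.Agent.Lib.H59W
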