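import Pool.Agent.Lib.H59W.D9
import Pool.Agent.Lib.H59W.D9B

/-!
# Chunk D10: the sum with Chen's weights
-/

open Finset Polynomial

namespace Pool.Agent.Lib.H59W

open Pool.Agent.Lib.H59C (PR zz yy Tri BX wB XB lv al Rel Win gq VV sift remd DD SWp)

open Classical in
/-- The good `n`. -/
noncomputable def Gdd (a a' : ℕ) (b b' : ℤ) (w v x : ℕ) : Finset ℕ :=
  (Sd a b w v x).filter (fun n => PP2 (f2 a' b' n) ∧
    ∀ q : ℕ, q.Prime → q ∣ f2 a' b' n → zz (ms a' x) ≤ q)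

theorem d10_big {a a' : ℕ} {b b' : ℤ} {w : ℕ} (h : Dat a a' b b' w) {x v n p1 : ℕ}
    (hx : 2 * b'.natAbs + 6 ≤ x) (hG : Gcl a a' b b' w v) (hn : n ∈ Sd a b w v x)
    (hp1 : ¬ p1 ∣ f2 a' b' n) {q : ℕ} (hq : q.Prime) (hqd : q ∣ f2 a' b' n) : q ∈ Pd w p1 (ms a' x) := by
  classical
  obtain ⟨g1, g2⟩ := Finset.mem_Ioc.1 (Finset.mem_filter.1 hn).1
  have g3 := (Finset.mem_filter.1 hn).2.1
  obtain ⟨e1, e2, e3⟩ := d9b_f2 h.a0' b' hx g1 g2
  unfold Pd
  rw [Finset.mem_filter, Finset.mem_Ioc]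
  have hle : q ≤ f2 a' b' n := Nat.le_of_dvd (by omega) hqd
  refine ⟨⟨?_, hle.trans e3⟩, hq, ?_⟩
  · by_contra hcon
    have hqw : q ≤ w := not_lt.1 hcon
    have hqP : q ∣ primorial w := (hq.dvd_primorial_iff).2 hqw
    have f1 : (q : ℤ) ∣ (a' : ℤ) * n + b' := by
      rw [← e1]
      exact_mod_cast hqd
    have f2' : (q : ℤ) ∣ (n : ℤ) - v := by
      have h1 : (primorial w : ℤ) ∣ (n : ℤ) - v := by
        have := (Nat.modEq_iff_dvd.1 g3.symm)
        exact this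
      exact dvd_trans (by exact_mod_cast hqP) h1
    have f3 : (q : ℤ) ∣ (a' : ℤ) * v + b' := by
      have h2 : (a' : ℤ) * v + b' = ((a' : ℤ) * n + b') - a' * ((n : ℤ) - v) := by ring
      rw [h2]
      exact dvd_sub f1 (dvd_mul_of_dvd_right f2' _)
    have h3 : IsUnit (q : ℤ) := hG.2.isUnit_of_dvd' f3 (by exact_mod_cast hqP)
    have h4 : q = 1 := by
      rw [Int.isUnit_iff] at h3
      rcases h3 with h3 | h3
      · exact_mod_cast h3
      · exfalso
        have : (0 : ℤ) ≤ q := Int.natCast_nonneg q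
        omega
    exact hq.one_lt.ne' h4
  · rintro rfl
    exact hp1 hqd

open Classical in
/-- Proof. (Model: `H59C.chen_sum`, file `H59C/CW1.lean`.) Sum the brackets `1 - (1/2) #{q ∈ Qd : q ∣ f2 n} - (1/2) [Tri]` over the `n ∈ Sd` for which no `q ∈ Pd`, `q < zz m`,
divides `f2 n`, with weights `lwt n ≥ 0`. The left side is at most this sum (in the last sum the condition on the small primes is dropped). Terms with a positive bracket: if
`p1 ∣ f2 n` they are in the last sum, if some `q² ∣ f2 n`, `q ≥ zz m`, in the second one (bracket `≤ 1`); otherwise all prime factors of `k = f2 n` are `≥ zz m`: a prime factor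
`q ≤ w` would divide `P` and `a' v + b'` (`n ≡ v`), so `q > w`, `q ≠ p1`, `q ≤ k ≤ m`, thus `q ∈ Pd`, and `q < zz m` is excluded. `1 < k < 2 m` for large `x`; and
`Qd`, `PR` contain the same divisors of `k`; `pointwise_gen` gives `PP2 k`, so `n ∈ Gdd`, weight `≤ log (2 a x)`. -/
theorem chen_sum_D {a a' : ℕ} {b b' : ℤ} {w : ℕ} (h : Dat a a' b b' w) : ∃ x0 : ℕ, ∀ x : ℕ,
    x0 ≤ x → ∀ p1 : ℕ, ∀ v : ℕ, Gcl a a' b b' w v →
    sift (Sd a b w v x) (lwt a b) (f2 a' b') (Pd w p1 (ms a' x)) (zz (ms a' x)) -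
      1 / 2 * ∑ q ∈ Qd w p1 (ms a' x), sift ((Sd a b w v x).filter (fun n => q ∣ f2 a' b' n))
        (lwt a b) (f2 a' b') (Pd w p1 (ms a' x)) (zz (ms a' x)) -
      1 / 2 * ∑ n ∈ (Sd a b w v x).filter (fun n => Tri (ms a' x) (f2 a' b' n)), lwt a b n ≤
    Real.log (2 * a * x) * ((Gdd a a' b b' w v x).card : ℝ) +
      ∑ n ∈ (Sd a b w v x).filter (fun n => ∃ q : ℕ, q.Prime ∧ zz (ms a' x) ≤ q ∧
        q ^ 2 ∣ f2 a' b' n), lwt a b n +
      ∑ n ∈ (Sd a b w v x).filter (fun n => p1 ∣ f2 a' b' n ∧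
        ∀ q ∈ Pd w p1 (ms a' x), (q : ℝ) < zz (ms a' x) → ¬ q ∣ f2 a' b' n), lwt a b n := by
  obtain ⟨n0, hpt⟩ := pointwise_gen
  refine ⟨n0 + 2 * b.natAbs + 2 * b'.natAbs + 6, fun x hx p1 v hGcl => ?_⟩
  have hxb : 2 * b.natAbs + 6 ≤ x := by omega
  have hxb' : 2 * b'.natAbs + 6 ≤ x := by omega
  obtain ⟨m, hm⟩ : ∃ m : ℕ, m = ms a' x := ⟨_, rfl⟩
  have hmx : x ≤ m := by
    rw [hm]
    unfold ms
    nlinarith [h.a0']
  rw [← hm]
  obtain ⟨L, hLd⟩ : ∃ L : ℝ, L = Real.log (2 * a * x) := ⟨_, rfl⟩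
  rw [← hLd]
  obtain ⟨S, hS⟩ : ∃ S : Finset ℕ, S = Sd a b w v x := ⟨_, rfl⟩
  obtain ⟨F, hF⟩ : ∃ F : ℕ → ℕ, F = f2 a' b' := ⟨_, rfl⟩
  obtain ⟨lg, hlgd⟩ : ∃ lg : ℕ → ℝ, lg = lwt a b := ⟨_, rfl⟩
  obtain ⟨G, hG⟩ : ∃ G : Finset ℕ, G = S.filter (fun n => ∀ q ∈ Pd w p1 m, (q : ℝ) < zz m → ¬ q ∣ F n) := ⟨_, rfl⟩
  obtain ⟨r, hr⟩ : ∃ r : ℕ → ℝ, ∀ n, r n = (((Qd w p1 m).filter (fun q => q ∣ F n)).card : ℝ) := ⟨_, fun n => rfl⟩
  obtain ⟨T, hT⟩ : ∃ T : ℕ → ℝ, ∀ n, T n = if Tri m (F n) then 1 else 0 := ⟨_, fun n => rfl⟩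
  obtain ⟨E1, hE1⟩ : ∃ E1 : ℕ → Prop, E1 = fun n => ∃ q : ℕ, q.Prime ∧ zz m ≤ q ∧ q ^ 2 ∣ F n := ⟨_, rfl⟩
  obtain ⟨E2, hE2⟩ : ∃ E2 : ℕ → Prop, E2 = fun n => p1 ∣ F n ∧
    ∀ q ∈ Pd w p1 m, (q : ℝ) < zz m → ¬ q ∣ F n := ⟨_, rfl⟩
  obtain ⟨Gd, hGd⟩ : ∃ Gd : Finset ℕ, Gd = Gdd a a' b b' w v x := ⟨_, rfl⟩
  have hlg : ∀ n ∈ S, 0 ≤ lg n ∧ lg n ≤ L := by
    intro n hn
    rw [hS] at hn
    obtain ⟨g1, g2⟩ := Finset.mem_Ioc.1 (Finset.mem_filter.1 hn).1
    rw [hlgd, hLd]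
    exact d9b_lwt h.a0 b hxb g1 g2
  rw [← hS, ← hF, ← hlgd, ← hGd]
  have hL0 : 0 ≤ L := by
    rw [hLd]
    refine Real.log_nonneg ?_
    have h1 : (1 : ℝ) ≤ a := by exact_mod_cast h.a0
    have h2 : (1 : ℝ) ≤ x := by exact_mod_cast (by omega : 1 ≤ x)
    nlinarith
  have e1 : sift S lg F (Pd w p1 m) (zz m) = ∑ n ∈ G, lg n := by
    rw [hG]
    rfl
  have e2 : ∑ q ∈ Qd w p1 m, sift (S.filter (fun n => q ∣ F n)) lg F (Pd w p1 m) (zz m) =
      ∑ n ∈ G, lg n * r n := by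
    have h1 : ∀ q ∈ Qd w p1 m, sift (S.filter (fun n => q ∣ F n)) lg F (Pd w p1 m) (zz m) =
        ∑ n ∈ G, if q ∣ F n then lg n else 0 := by
      intro q _
      rw [← Finset.sum_filter]
      unfold sift
      refine Finset.sum_congr ?_ fun p _ => rfl
      ext p
      rw [hG]
      simp only [Finset.mem_filter]
      tauto
    rw [Finset.sum_congr rfl h1, Finset.sum_comm]
    refine Finset.sum_congr rfl fun n _ => ?_
    rw [← Finset.sum_filter, Finset.sum_const, nsmul_eq_mul, mul_comm, hr]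
  have hGsub : G ⊆ S := by rw [hG]; exact Finset.filter_subset _ _
  have hGs : ∀ n ∈ G, ∀ q ∈ Pd w p1 m, (q : ℝ) < zz m → ¬ q ∣ F n := fun n hn => by
    rw [hG] at hn
    exact (Finset.mem_filter.1 hn).2
  have e3 : ∑ n ∈ G, lg n * T n ≤ ∑ n ∈ S.filter (fun n => Tri m (F n)), lg n := by
    rw [Finset.sum_filter]
    have h1 : ∑ n ∈ G, lg n * T n = ∑ n ∈ G, if Tri m (F n) then lg n else 0 := by
      refine Finset.sum_congr rfl fun n _ => ?_
      rw [hT, mul_ite, mul_one, mul_zero]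
    rw [h1]
    refine Finset.sum_le_sum_of_subset_of_nonneg hGsub fun p hp _ => ?_
    split_ifs
    · exact (hlg p hp).1
    · exact le_rfl
  have hmain : ∀ n ∈ G, lg n * (1 - 1 / 2 * r n - 1 / 2 * T n) ≤
      (if n ∈ Gd then L else 0) + (if E1 n then lg n else 0) +
        (if E2 n then lg n else 0) := by
    intro n hn
    have hnS := hGsub hn
    obtain ⟨hl0, hl1⟩ := hlg n hnS
    have t1 : 0 ≤ (if n ∈ Gd then L else 0) := by
      split_ifs
      · exact hL0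
      · exact le_rfl
    have t2 : 0 ≤ (if E1 n then lg n else 0) := by
      split_ifs
      · exact hl0
      · exact le_rfl
    have t3 : 0 ≤ (if E2 n then lg n else 0) := by
      split_ifs
      · exact hl0
      · exact le_rfl
    have hr0 : 0 ≤ r n := by rw [hr]; exact Nat.cast_nonneg _
    have hT0 : 0 ≤ T n := by
      rw [hT]
      split_ifs <;> norm_num
    have hb1 : 1 - 1 / 2 * r n - 1 / 2 * T n ≤ 1 := by linarith
    have hle : lg n * (1 - 1 / 2 * r n - 1 / 2 * T n) ≤ lg n :=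
      mul_le_of_le_one_right hl0 hb1
    rcases le_or_gt (1 - 1 / 2 * r n - 1 / 2 * T n) 0 with hb | hb
    · have h1 : lg n * (1 - 1 / 2 * r n - 1 / 2 * T n) ≤ 0 :=
        mul_nonpos_of_nonneg_of_nonpos hl0 hb
      linarith
    · by_cases hc1 : E1 n
      · rw [if_pos hc1]
        linarith
      · by_cases hc2 : E2 n
        · rw [if_pos hc2]
          linarith
        · have hsift := hGs n hn
          rw [hE1] at hc1
          rw [hE2] at hc2
          have hp1 : ¬ p1 ∣ F n := fun h => hc2 ⟨h, hsift⟩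
          have hPd : ∀ q : ℕ, q.Prime → q ∣ F n → q ∈ Pd w p1 m := by
            intro q hq hqd
            rw [hS] at hnS
            rw [hF] at hp1 hqd
            rw [hm]
            exact d10_big h hxb' hGcl hnS hp1 hq hqd
          have hz : ∀ q : ℕ, q.Prime → q ∣ F n → zz m ≤ q := by
            intro q hq hqd
            by_contra hcon
            exact hsift q (hPd q hq hqd) (not_le.1 hcon) hqd
          have hsq : ∀ q : ℕ, q.Prime → ¬ q ^ 2 ∣ F n := fun q h1 h3 =>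
            hc1 ⟨q, h1, hz q h1 (dvd_trans (dvd_pow_self q two_ne_zero) h3), h3⟩
          have hk : 1 < F n ∧ F n < 2 * m := by
            rw [hS] at hnS
            obtain ⟨g1, g2⟩ := Finset.mem_Ioc.1 (Finset.mem_filter.1 hnS).1
            obtain ⟨-, e2, e3⟩ := d9b_f2 h.a0' b' hxb' g1 g2
            rw [hF]
            rw [← hm] at e3
            constructor <;> omega
          have hcard : (((PR (zz m) (yy m)).filter (fun q => q ∣ F n)).card : ℝ) ≤ r n := by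
            rw [hr]
            have : ((PR (zz m) (yy m)).filter (fun q => q ∣ F n)) ⊆ ((Qd w p1 m).filter (fun q => q ∣ F n)) := by
              intro q hq
              rw [Finset.mem_filter] at hq
              refine Finset.mem_filter.2 ⟨?_, hq.2⟩
              unfold Qd
              rw [Finset.mem_filter]
              exact ⟨hq.1, hPd q (H59C.mem_PR.1 hq.1).1 hq.2⟩
            exact_mod_cast Finset.card_le_card this
          have hpp := hpt m (by omega) (F n) hk.1 hk.2 hz hsq (by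
            rw [← hT]
            linarith)
          have hgood : n ∈ Gd := by
            rw [hGd]
            unfold Gdd
            rw [hS] at hnS
            refine Finset.mem_filter.2 ⟨hnS, ?_⟩
            rw [← hF, ← hm]
            exact ⟨hpp, hz⟩
          rw [if_pos hgood]
          linarith
  have hsum : ∑ n ∈ G, lg n * (1 - 1 / 2 * r n - 1 / 2 * T n) ≤
      L * (Gd.card : ℝ) + ∑ n ∈ S.filter E1, lg n + ∑ n ∈ S.filter E2, lg n := by
    refine (Finset.sum_le_sum hmain).trans ?_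
    rw [Finset.sum_add_distrib, Finset.sum_add_distrib]
    have s1 : ∑ n ∈ G, (if n ∈ Gd then L else 0) ≤ L * (Gd.card : ℝ) := by
      rw [← Finset.sum_filter, Finset.sum_const, nsmul_eq_mul, mul_comm]
      refine mul_le_mul_of_nonneg_left ?_ hL0
      exact_mod_cast Finset.card_le_card fun p hp => (Finset.mem_filter.1 hp).2
    have s2 : ∀ (E : ℕ → Prop) [DecidablePred E], ∑ n ∈ G, (if E n then lg n else 0) ≤
        ∑ n ∈ S.filter E, lg n := by
      intro E _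
      rw [Finset.sum_filter]
      refine Finset.sum_le_sum_of_subset_of_nonneg hGsub fun p hp _ => ?_
      split_ifs
      · exact (hlg p hp).1
      · exact le_rfl
    exact add_le_add (add_le_add s1 (@s2 E1 _)) (@s2 E2 _)
  have e4 : ∑ n ∈ G, lg n * (1 - 1 / 2 * r n - 1 / 2 * T n) =
      ∑ n ∈ G, lg n - 1 / 2 * ∑ n ∈ G, lg n * r n - 1 / 2 * ∑ n ∈ G, lg n * T n := by
    rw [Finset.mul_sum, Finset.mul_sum, ← Finset.sum_sub_distrib, ← Finset.sum_sub_distrib]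
    refine Finset.sum_congr rfl fun p _ => ?_
    ring
  rw [e1, e2]
  have q1 : ∑ n ∈ S.filter E1, lg n =
      ∑ n ∈ S.filter (fun n => ∃ q : ℕ, q.Prime ∧ zz m ≤ q ∧ q ^ 2 ∣ F n), lg n := by
    refine Finset.sum_congr (Finset.filter_congr fun n _ => ?_) fun _ _ => rfl
    rw [hE1]
  have q2 : ∑ n ∈ S.filter E2, lg n =
      ∑ n ∈ S.filter (fun n => p1 ∣ F n ∧ ∀ q ∈ Pd w p1 m, (q : ℝ) < zz m → ¬ q ∣ F n), lg n := by
    refine Finset.sum_congr (Finset.filter_congr fun n _ => ?_) fun _ _ => rfl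
    rw [hE2]
  rw [q1, q2] at hsum
  refine le_trans ?_ hsum
  rw [e4]
  linarith

end Pool.Agent.Lib.H59W
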