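import Pool.Agent.Lib.H59W.D0A
import Pool.Agent.Lib.H59W.D0B
import Pool.Agent.Lib.H59W.D1
import Pool.Agent.Lib.H59C.CS1

/-!
# Chunk D2: the first sum
-/

open Finset Polynomial

namespace Pool.Agent.Lib.H59W

open Pool.Agent.Lib.H33B (Sys NoFix wF FS_D)
open Pool.Agent.Lib.H59C (PR zz yy Tri BX wB XB lv al Rel Win gq VV sift remd DD SWp AA)

/-- The class of `v` is good. -/
theorem d2_gd_pos {a a' : ℕ} {b b' : ℤ} {w v : ℕ} (hG : Gcl a a' b b' w v) :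
    0 < (gd (∏ i, F2 a a' b b' i) (primorial w)).card := by
  rw [card_pos]
  have hP := primorial_pos w
  refine ⟨v % primorial w, ?_⟩
  unfold gd
  rw [mem_filter, mem_range]
  refine ⟨Nat.mod_lt _ hP, ?_⟩
  have e : ((v % primorial w : ℕ) : ℤ) = v - (primorial w : ℤ) * ((v / primorial w : ℕ) : ℤ) := by
    have h := Nat.mod_add_div v (primorial w)
    zify at h
    push_cast
    linarith
  have e1 : (∏ i, F2 a a' b b' i).eval ((v % primorial w : ℕ) : ℤ) =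
      (((a : ℤ) * v + b) + (primorial w : ℤ) * (-((a : ℤ) * ((v / primorial w : ℕ) : ℤ)))) *
      (((a' : ℤ) * v + b') + (primorial w : ℤ) * (-((a' : ℤ) * ((v / primorial w : ℕ) : ℤ)))) := by
    rw [Fin.prod_univ_two, e]
    simp only [F2, Matrix.cons_val_zero, Matrix.cons_val_one, eval_mul, eval_add, eval_C, eval_X]
    ring
  rw [e1]
  exact IsCoprime.mul_left (IsCoprime.add_mul_left_left hG.1 _)
    (IsCoprime.add_mul_left_left hG.2 _)

theorem d2_ms {a' x : ℕ} (h : 1 ≤ a') : x ≤ ms a' x := by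
  unfold ms
  nlinarith

theorem d2_log {a' : ℕ} (h : 1 ≤ a') (x : ℕ) (hx : 1 ≤ x) : Real.log x ≤ Real.log (ms a' x) := by
  apply Real.log_le_log (by exact_mod_cast hx)
  exact_mod_cast d2_ms h

/-- The main term is nonnegative and the remainder is small. -/
theorem d2_rem {a a' : ℕ} {b b' : ℤ} {w : ℕ} (h : Dat a a' b b' w) (hN : NoFix (F2 a a' b b'))
    (ε : ℝ) (hε : 0 < ε) : ∃ x0 : ℕ, ∀ x : ℕ, x0 ≤ x → 0 ≤ Xd a b w x ∧
    ∀ p1 : ℕ, 0 ≤ VV (Pd w p1 (ms a' x)) (zz (ms a' x)) ∧ ∀ v : ℕ, Gcl a a' b b' w v →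
    (x : ℝ) / Real.log x ^ 3 ≤
      ε * (Xd a b w x * VV (Pd w p1 (ms a' x)) (zz (ms a' x))) := by
  obtain ⟨c, hc, hV⟩ := VVd_lower a a' b b' hN
  obtain ⟨x1, hx1⟩ := hV w h
  obtain ⟨x2, hx2⟩ := Xd_bounds h (1 / 2) (by norm_num)
  obtain ⟨K, hK⟩ : ∃ K : ℝ, K = (gd (∏ i, F2 a a' b b' i) (primorial w)).card := ⟨_, rfl⟩
  obtain ⟨φ, hφ⟩ : ∃ φ : ℝ, φ = (primorial w).totient := ⟨_, rfl⟩
  have hφ0 : 0 < φ := by
    rw [hφ]
    exact_mod_cast Nat.totient_pos.2 (primorial_pos w)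
  have hK0 : 0 ≤ K := by rw [hK]; exact Nat.cast_nonneg _
  obtain ⟨x3, hx3⟩ := H59C.cdl_log (max 1 (4 * K / (ε * c)))
  refine ⟨x1 + x2 + x3 + 3, fun x hx => ?_⟩
  have hL := hx3 x (by omega)
  have hL1 : 1 ≤ Real.log x := le_trans (le_max_left _ _) hL
  have hL2 : 4 * K / (ε * c) ≤ Real.log x := le_trans (le_max_right _ _) hL
  have hL0 : 0 < Real.log x := by linarith
  have hx0 : (0 : ℝ) ≤ x := Nat.cast_nonneg _
  obtain ⟨hXl, -⟩ := hx2 x (by omega)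
  rw [← hφ] at hXl
  have hXd : 0 ≤ Xd a b w x := by
    refine le_trans ?_ hXl
    positivity
  refine ⟨hXd, fun p1 => ?_⟩
  obtain ⟨hVl, -⟩ := hx1 x (by omega) p1
  rw [← hφ, ← hK] at hVl
  refine ⟨le_trans (by positivity) hVl, fun v hG => ?_⟩
  have hK1 : 0 < K := by
    rw [hK]
    exact_mod_cast d2_gd_pos hG
  have hmul : (1 - 1 / 2) * ((x : ℝ) / 2 / φ) * (c / Real.log x * (φ / K)) ≤
      Xd a b w x * VV (Pd w p1 (ms a' x)) (zz (ms a' x)) := by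
    apply mul_le_mul hXl hVl (by positivity) hXd
  have e1 : (1 - 1 / 2) * ((x : ℝ) / 2 / φ) * (c / Real.log x * (φ / K)) =
      c * x / (4 * K * Real.log x) := by
    field_simp
    ring
  rw [e1] at hmul
  refine le_trans ?_ (mul_le_mul_of_nonneg_left hmul hε.le)
  have e2 : ε * (c * x / (4 * K * Real.log x)) = x * (ε * c / (4 * K * Real.log x)) := by ring
  rw [e2, div_eq_mul_inv]
  apply mul_le_mul_of_nonneg_left _ hx0
  rw [div_le_iff₀ (by positivity)] at hL2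
  rw [inv_le_comm₀ (by positivity) (by positivity), inv_div, div_le_iff₀ (by positivity)]
  have e3 : Real.log x ≤ Real.log x ^ 2 := by nlinarith
  have e4 : 4 * K ≤ Real.log x ^ 2 * (ε * c) := by
    refine le_trans hL2 ?_
    apply mul_le_mul_of_nonneg_right e3 (by positivity)
  calc 4 * K * Real.log x ≤ Real.log x ^ 2 * (ε * c) * Real.log x :=
        mul_le_mul_of_nonneg_right e4 hL0.le
    _ = Real.log x ^ 3 * (ε * c) := by ring

theorem d2_Pd {w p1 M : ℕ} (h3 : 3 ≤ w) : ∀ q ∈ Pd w p1 M, q.Prime ∧ 3 ≤ q := by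
  intro q hq
  unfold Pd at hq
  rw [mem_filter, mem_Ioc] at hq
  exact ⟨hq.2.1, by omega⟩

open Classical in
theorem d2_lwt {a : ℕ} {b : ℤ} {w v x : ℕ} : ∀ n ∈ Sd a b w v x, 0 ≤ lwt a b n := by
  intro n hn
  unfold Sd at hn
  rw [mem_filter] at hn
  obtain ⟨-, -, q, hq, hqe⟩ := hn
  unfold lwt
  have e : (a : ℝ) * n + b = (q : ℝ) := by
    have := congrArg (fun t : ℤ => (t : ℝ)) hqe
    push_cast at this
    exact this
  rw [e]
  exact Real.log_natCast_nonneg q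

/-- Proof. (Model: `H59C.S1_lower`, file `H59C/CS1.lean`.) `H59C.jr (ε/4)` gives `Q0, z0`; `rem_D h 3` gives `A', B, x0`. `m = ms a' x`, `z = zz m`,
`D = DD m B/Q0`, `s = log D/log z ≤ 4`, `s → 4` (`H59C.dd_log`), so `AA log (s - 1)/s ≥ AA (log 3)/4 - ε/4`. The remainder `x/(log x)^3` is at most
`(ε/4) Xd VV`, as `Xd ≥ x/(4 φ(P))`, `VV ≥ c/log x` (`Xd_bounds`, `VVd_lower`; the constants depend on `w`). The set `Pd` consists of primes `≥ 3` (`w ≥ 3`),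
`lwt ≥ 0` on `Sd` (`a n + b` is a prime). -/
theorem S1_D {a a' : ℕ} {b b' : ℤ} {w : ℕ} (h : Dat a a' b b' w) (hN : NoFix (F2 a a' b b'))
    (ε : ℝ) (hε : 0 < ε) : ∃ A' x0 : ℕ, ∀ x : ℕ, x0 ≤ x → ∀ p1 : ℕ, p1.Prime → w < p1 →
    SWp A' (2 * a * a' * x) p1 → ∀ v : ℕ, Gcl a a' b b' w v →
    Xd a b w x * VV (Pd w p1 (ms a' x)) (zz (ms a' x)) * (AA * Real.log 3 / 4 - ε) ≤
      sift (Sd a b w v x) (lwt a b) (f2 a' b') (Pd w p1 (ms a' x)) (zz (ms a' x)) := by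
  obtain ⟨Q0, hQ0, z0, hz0, hjr⟩ := H59C.jr (ε / 4) (by linarith)
  obtain ⟨A', B, n1, hrem⟩ := rem_D h 3
  obtain ⟨n2, hn2⟩ := d2_rem h hN (ε / 4) (by linarith)
  have hcont : ContinuousAt (fun s : ℝ => AA * Real.log (s - 1) / s) 4 := by
    apply ContinuousAt.div
    · apply ContinuousAt.mul continuousAt_const
      apply ContinuousAt.log
      · fun_prop
      · norm_num
    · fun_prop
    · norm_num
  obtain ⟨δ, hδ, hcδ⟩ := Metric.continuousAt_iff.mp hcont (ε / 4) (by linarith)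
  obtain ⟨η, hη⟩ : ∃ η : ℝ, η = min (δ / 16) (1 / 8) := ⟨_, rfl⟩
  have hη0 : 0 < η := by rw [hη]; exact lt_min (by linarith) (by norm_num)
  have hη1 : η ≤ δ / 16 := by rw [hη]; exact min_le_left _ _
  have hη2 : η ≤ 1 / 8 := by rw [hη]; exact min_le_right _ _
  obtain ⟨n3, hn3⟩ := H59C.dd_log B Q0 hQ0 η hη0
  obtain ⟨n4, hn4⟩ := H59C.cdl_zz z0
  refine ⟨A', n1 + n2 + n3 + n4 + 3, fun x hx p1 hp1 hwp hSW v hG => ?_⟩
  have hmx : x ≤ ms a' x := d2_ms h.a0'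
  obtain ⟨n, hn⟩ : ∃ n : ℕ, n = ms a' x := ⟨_, rfl⟩
  obtain ⟨hr, -⟩ := hrem x (by omega) p1 hp1 hwp hSW v hG
  obtain ⟨hX, hsm⟩ := hn2 x (by omega)
  obtain ⟨hV, hsm⟩ := hsm p1
  have hsm := hsm v hG
  rw [← hn] at hr hV hsm hmx ⊢
  have hNn : (3 : ℝ) ≤ n := by exact_mod_cast (by omega : 3 ≤ n)
  have hL : 0 < Real.log n := Real.log_pos (by linarith)
  obtain ⟨hD1, hDl, hDu, hDp⟩ := hn3 n (by omega)
  have hzn := hn4 n (by omega)
  have hlz := H59C.log_zz n (by omega)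
  have hzpos : 0 < zz n := by linarith
  obtain ⟨D, hD⟩ : ∃ D : ℝ, D = (DD n B : ℝ) / Q0 := ⟨_, rfl⟩
  rw [← hD] at hDl hDu hDp
  have hlz0 : 0 < Real.log (zz n) := by rw [hlz]; linarith
  have h2z : 2 * Real.log (zz n) ≤ Real.log D := by
    rw [hlz]
    have : (3 / 8 : ℝ) * Real.log n ≤ (1 / 2 - η) * Real.log n := by
      apply mul_le_mul_of_nonneg_right (by linarith) hL.le
    linarith
  have h4z : Real.log D ≤ 4 * Real.log (zz n) := by
    rw [hlz]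
    linarith
  have hzD : zz n ≤ D := by
    rw [← Real.log_le_log_iff hzpos hDp]
    linarith
  obtain ⟨-, hlow⟩ := hjr (Pd w p1 n) (d2_Pd h.w3) (zz n) D hzn hzD (Sd a b w v x) (lwt a b)
    (f2 a' b') (Xd a b w x) hX d2_lwt
  have hlow := hlow h2z h4z
  have hDQ : D * (Q0 : ℝ) = (DD n B : ℝ) := by
    rw [hD]
    have : (Q0 : ℝ) ≠ 0 := by
      have : (1 : ℝ) ≤ Q0 := by exact_mod_cast hQ0
      linarith
    field_simp
  rw [hDQ] at hlow
  obtain ⟨s, hs⟩ : ∃ s : ℝ, s = Real.log D / Real.log (zz n) := ⟨_, rfl⟩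
  rw [← hs] at hlow
  have hs4 : s ≤ 4 := by
    rw [hs, div_le_iff₀ hlz0]
    linarith
  have hsl : 4 - 8 * η ≤ s := by
    rw [hs, le_div_iff₀ hlz0, hlz]
    have : (4 - 8 * η) * (1 / 8 * Real.log n) = (1 / 2 - η) * Real.log n := by ring
    linarith
  have hdist : dist s 4 < δ := by
    rw [Real.dist_eq, abs_lt]
    constructor <;> linarith
  have hclose := hcδ hdist
  rw [Real.dist_eq, abs_lt] at hclose
  have hmain : AA * Real.log 3 / 4 - ε / 4 ≤ AA * Real.log (s - 1) / s := by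
    have h31 : (4 : ℝ) - 1 = 3 := by norm_num
    have := hclose.1
    rw [h31] at this
    linarith
  have hVX : 0 ≤ Xd a b w x * VV (Pd w p1 n) (zz n) := mul_nonneg hX hV
  have hA : Xd a b w x * VV (Pd w p1 n) (zz n) * (AA * Real.log 3 / 4 - ε / 2) ≤
      Xd a b w x * VV (Pd w p1 n) (zz n) * (AA * Real.log (s - 1) / s - ε / 4) := by
    apply mul_le_mul_of_nonneg_left _ hVX
    linarith
  have e1 : Xd a b w x * VV (Pd w p1 n) (zz n) * (AA * Real.log 3 / 4 - ε) =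
      Xd a b w x * VV (Pd w p1 n) (zz n) * (AA * Real.log 3 / 4 - ε / 2) -
        ε / 2 * (Xd a b w x * VV (Pd w p1 n) (zz n)) := by ring
  have e2 : 0 ≤ ε / 4 * (Xd a b w x * VV (Pd w p1 n) (zz n)) := by positivity
  rw [e1]
  linarith

end Pool.Agent.Lib.H59W
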