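import Pool.Agent.Lib.H59W.D0A
import Pool.Agent.Lib.H59W.D0B
import Pool.Agent.Lib.H59W.D1
import Pool.Agent.Lib.H59W.D2
import Pool.Agent.Lib.H59C.CS2

/-!
# Chunk D3: the second sum
-/

open Finset Polynomial

namespace Pool.Agent.Lib.H59W

open Pool.Agent.Lib.H33B (Sys NoFix wF FS_D)
open Pool.Agent.Lib.H59C (PR zz yy Tri BX wB XB lv al Rel Win gq VV sift remd DD SWp AA)

/-- Proof. (Model: `H59C.S2_upper`, file `H59C/CS2.lean`.) `H59C.jr (ε/8)` gives `Q0, z0`; `rem_D h 3` gives `A', B, x0`. For every `q ∈ Qd` apply the upper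
bound of `jr` to the `n ∈ Sd` with `q ∣ f2 n`, `X_q = Xd * gq q`, `z = zz m`, `D_q = DD m B/q/Q0` (`log D_q ≤ 3 log z`, `z ≤ D_q`). Sum over
`q ∈ Qd ⊆ PR (zz m) (yy m)`: `H59C.prime_S2 (ε/(4 AA))` with `n = m`, and `rem_D`; the remainder `x/(log x)^3 ≤ (ε/4) Xd VV` as in chunk D2. -/
theorem S2_D {a a' : ℕ} {b b' : ℤ} {w : ℕ} (h : Dat a a' b b' w) (hN : NoFix (F2 a a' b b'))
    (ε : ℝ) (hε : 0 < ε) : ∃ A' x0 : ℕ, ∀ x : ℕ, x0 ≤ x → ∀ p1 : ℕ, p1.Prime → w < p1 →
    SWp A' (2 * a * a' * x) p1 → ∀ v : ℕ, Gcl a a' b b' w v →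
    ∑ q ∈ Qd w p1 (ms a' x), sift ((Sd a b w v x).filter (fun n => q ∣ f2 a' b' n)) (lwt a b)
        (f2 a' b') (Pd w p1 (ms a' x)) (zz (ms a' x)) ≤
      Xd a b w x * VV (Pd w p1 (ms a' x)) (zz (ms a' x)) * (AA / 4 * Real.log 6 + ε) := by
  have hAA := H59C.AA_pos
  obtain ⟨Q0, hQ0, z0, hz0, hjr⟩ := H59C.jr (ε / 8) (by linarith)
  obtain ⟨A', B, n1, hrem⟩ := rem_D h 3
  obtain ⟨n2, hn2⟩ := d2_rem h hN (ε / 4) (by linarith)
  obtain ⟨n3, hn3⟩ := H59C.dd_log B Q0 hQ0 (1 / 100) (by norm_num)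
  obtain ⟨n4, hn4⟩ := H59C.cdl_zz z0
  obtain ⟨n5, hn5⟩ := H59C.prime_S2 (ε / (4 * AA)) (by positivity) B Q0 hQ0
  obtain ⟨n6, hn6⟩ := H59C.cdl_log 100
  refine ⟨A', n1 + n2 + n3 + n4 + n5 + n6 + 3, fun x hx p1 hp1 hwp hSW v hG => ?_⟩
  have hmx : x ≤ ms a' x := d2_ms h.a0'
  obtain ⟨n, hn⟩ : ∃ n : ℕ, n = ms a' x := ⟨_, rfl⟩
  obtain ⟨-, hr⟩ := hrem x (by omega) p1 hp1 hwp hSW v hG
  obtain ⟨hX, hsm⟩ := hn2 x (by omega)
  obtain ⟨hV, hsm⟩ := hsm p1
  have hsm := hsm v hG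
  rw [← hn] at hr hV hsm hmx ⊢
  have hNn : (3 : ℝ) ≤ n := by exact_mod_cast (by omega : 3 ≤ n)
  have hL : 0 < Real.log n := Real.log_pos (by linarith)
  have hL100 := hn6 n (by omega)
  obtain ⟨hD1, hDl, hDu, hDp⟩ := hn3 n (by omega)
  have hzn := hn4 n (by omega)
  have hlz := H59C.log_zz n (by omega)
  obtain ⟨hps, hps2⟩ := hn5 n (by omega)
  have hzpos : 0 < zz n := by linarith
  have hlz0 : 0 < Real.log (zz n) := by rw [hlz]; linarith
  have hQ0' : (1 : ℝ) ≤ Q0 := by exact_mod_cast hQ0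
  have hVX : 0 ≤ Xd a b w x * VV (Pd w p1 n) (zz n) := mul_nonneg hX hV
  -- the bound for one `q`
  have hone : ∀ q ∈ Qd w p1 n, sift ((Sd a b w v x).filter (fun n => q ∣ f2 a' b' n)) (lwt a b)
        (f2 a' b') (Pd w p1 n) (zz n) ≤
      Xd a b w x * VV (Pd w p1 n) (zz n) * (AA * (gq q * (Real.log (zz n) /
        Real.log ((DD n B : ℝ) / q / Q0))) + ε / 8 * gq q) +
      remd ((Sd a b w v x).filter (fun n => q ∣ f2 a' b' n)) (lwt a b)
        (f2 a' b') (Pd w p1 n) (zz n) (Xd a b w x * gq q) ((DD n B : ℝ) / q) := by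
    intro q hq
    have hq' : q ∈ PR (zz n) (yy n) ∧ q ∈ Pd w p1 n := by
      unfold Qd at hq
      exact mem_filter.mp hq
    obtain ⟨hqp, hq1, hq2⟩ := H59C.mem_PR.mp hq'.1
    have hqpos : (0 : ℝ) < q := by linarith
    have hlq1 : Real.log (zz n) ≤ Real.log q := Real.log_le_log hzpos hq1
    have hyy : Real.log (yy n) = 1 / 3 * (Real.log 2 + Real.log n) := by
      unfold yy
      rw [Real.log_rpow (by linarith), Real.log_mul (by norm_num) (by linarith)]
    have hlq2 : Real.log q ≤ 1 / 3 * (Real.log 2 + Real.log n) := by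
      rw [← hyy]
      exact Real.log_le_log hqpos hq2.le
    have hlog2 : Real.log 2 ≤ 1 := by
      have := Real.log_two_lt_d9
      linarith
    have hDDpos : (0 : ℝ) < DD n B := by
      have : (1 : ℝ) ≤ DD n B := by exact_mod_cast hD1
      linarith
    obtain ⟨Dq, hDq⟩ : ∃ Dq : ℝ, Dq = (DD n B : ℝ) / q / Q0 := ⟨_, rfl⟩
    have hDqpos : 0 < Dq := by rw [hDq]; positivity
    have hDqlog : Real.log Dq = Real.log ((DD n B : ℝ) / Q0) - Real.log q := by
      rw [hDq, show (DD n B : ℝ) / q / Q0 = (DD n B : ℝ) / Q0 / q by ring,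
        Real.log_div hDp.ne' hqpos.ne']
    have h3z : Real.log Dq ≤ 3 * Real.log (zz n) := by
      rw [hDqlog]
      rw [hlz] at hlq1 ⊢
      linarith
    have hzD : zz n ≤ Dq := by
      rw [← Real.log_le_log_iff hzpos hDqpos, hDqlog, hlz]
      nlinarith
    obtain ⟨hup, -⟩ := hjr (Pd w p1 n) (d2_Pd h.w3) (zz n) Dq hzn hzD
      ((Sd a b w v x).filter (fun n => q ∣ f2 a' b' n)) (lwt a b)
      (f2 a' b') (Xd a b w x * gq q) (by
        apply mul_nonneg hX
        unfold gq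
        have h3 := (d2_Pd h.w3 q hq'.2).2
        have h3' : (3 : ℝ) ≤ q := by exact_mod_cast h3
        apply div_nonneg zero_le_one
        linarith) (fun i hi => d2_lwt i (mem_filter.mp hi).1)
    have hup := hup h3z
    have hDQ : Dq * (Q0 : ℝ) = (DD n B : ℝ) / q := by
      rw [hDq]
      field_simp
    rw [hDQ] at hup
    refine hup.trans (le_of_eq ?_)
    rw [← hDq]
    have hDlog0 : Real.log Dq ≠ 0 := by
      have : 0 < Real.log Dq := by
        rw [hDqlog]
        nlinarith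
      exact this.ne'
    congr 1
    field_simp
  calc ∑ q ∈ Qd w p1 n, sift ((Sd a b w v x).filter (fun n => q ∣ f2 a' b' n)) (lwt a b)
        (f2 a' b') (Pd w p1 n) (zz n)
      ≤ ∑ q ∈ Qd w p1 n, (Xd a b w x * VV (Pd w p1 n) (zz n) * (AA * (gq q * (Real.log (zz n) /
        Real.log ((DD n B : ℝ) / q / Q0))) + ε / 8 * gq q) +
      remd ((Sd a b w v x).filter (fun n => q ∣ f2 a' b' n)) (lwt a b)
        (f2 a' b') (Pd w p1 n) (zz n) (Xd a b w x * gq q) ((DD n B : ℝ) / q)) :=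
        sum_le_sum hone
    _ = Xd a b w x * VV (Pd w p1 n) (zz n) * (AA * ∑ q ∈ Qd w p1 n, gq q * (Real.log (zz n) /
        Real.log ((DD n B : ℝ) / q / Q0)) + ε / 8 * ∑ q ∈ Qd w p1 n, gq q) +
        ∑ q ∈ Qd w p1 n, remd ((Sd a b w v x).filter (fun n => q ∣ f2 a' b' n)) (lwt a b)
        (f2 a' b') (Pd w p1 n) (zz n) (Xd a b w x * gq q) ((DD n B : ℝ) / q) := by
        rw [sum_add_distrib, ← mul_sum, sum_add_distrib, ← mul_sum, ← mul_sum]
    _ ≤ Xd a b w x * VV (Pd w p1 n) (zz n) *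
          (AA * (1 / 4 * Real.log 6 + ε / (4 * AA)) + ε / 8 * 2) + x / Real.log x ^ 3 := by
        apply add_le_add _ hr
        apply mul_le_mul_of_nonneg_left _ hVX
        have hgq : ∀ q ∈ PR (zz n) (yy n), 0 ≤ gq q := by
          intro q hq
          have h2 := (H59C.mem_PR.mp hq).1.two_le
          have h2' : (2 : ℝ) ≤ q := by exact_mod_cast h2
          unfold gq
          apply div_nonneg zero_le_one
          linarith
        have hsub : Qd w p1 n ⊆ PR (zz n) (yy n) := by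
          unfold Qd
          exact filter_subset _ _
        apply add_le_add
        · apply mul_le_mul_of_nonneg_left _ hAA.le
          refine le_trans (sum_le_sum_of_subset_of_nonneg hsub ?_) hps
          intro q hq _
          apply mul_nonneg (hgq q hq)
          apply div_nonneg hlz0.le
          obtain ⟨hqp, hq1, hq2⟩ := H59C.mem_PR.mp hq
          have hqpos : (0 : ℝ) < q := by linarith
          rw [show (DD n B : ℝ) / q / Q0 = (DD n B : ℝ) / Q0 / q by ring,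
            Real.log_div hDp.ne' hqpos.ne']
          have hyy : Real.log (yy n) = 1 / 3 * (Real.log 2 + Real.log n) := by
            unfold yy
            rw [Real.log_rpow (by linarith), Real.log_mul (by norm_num) (by linarith)]
          have hlq2 : Real.log q ≤ 1 / 3 * (Real.log 2 + Real.log n) := by
            rw [← hyy]
            exact Real.log_le_log hqpos hq2.le
          have hlog2 : Real.log 2 ≤ 1 := by
            have := Real.log_two_lt_d9
            linarith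
          nlinarith
        · apply mul_le_mul_of_nonneg_left _ (by linarith)
          exact le_trans (sum_le_sum_of_subset_of_nonneg hsub fun q hq _ => hgq q hq) hps2
    _ ≤ Xd a b w x * VV (Pd w p1 n) (zz n) *
          (AA * (1 / 4 * Real.log 6 + ε / (4 * AA)) + ε / 8 * 2) +
        ε / 4 * (Xd a b w x * VV (Pd w p1 n) (zz n)) := by
        linarith
    _ = Xd a b w x * VV (Pd w p1 n) (zz n) * (AA / 4 * Real.log 6 + 3 / 4 * ε) := by
        field_simp
        ring
    _ ≤ Xd a b w x * VV (Pd w p1 n) (zz n) * (AA / 4 * Real.log 6 + ε) := by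
        apply mul_le_mul_of_nonneg_left _ hVX
        linarith

end Pool.Agent.Lib.H59W
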