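import Pool.Agent.Lib.H59W.D5
import Pool.Agent.Lib.H59C.CBS

/-!
# Chunk D6: the sieve for the switched sequence, one box
-/

open Finset Polynomial

namespace Pool.Agent.Lib.H59W

open Pool.Agent.Lib.H59C (PR zz yy Tri BX wB XB lv al Rel Win gq VV sift remd DD SWp AA)

theorem d6_mem_Pd {w p1 M q : ℕ} : q ∈ Pd w p1 M ↔ (w < q ∧ q ≤ M) ∧ q.Prime ∧ q ≠ p1 := by
  unfold Pd
  rw [mem_filter, mem_Ioc]

/-- Proof. (Model: `H59C.box_sieve`, file `H59C/CBS.lean`.) `H59C.jr (ε/8)` gives `Q0, z0`, `rem_box_D h 6` gives `A', B`. `m = ms a' x`, `z' = m^(1/6)`,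
`D = DD m B/Q0`: `log D ≤ 3 log z'`, `z' ≤ D`. Primes `bbd ≥ z'` are not divisible by any prime `q < z'`, so the left side is at most `sift`, and
`sift ≤ X VV(z') (AA log z'/log D + ε/8) + remd` with `X = XB/φ(a' P)`. `H59C.ratio_VV` (`n = m`, `N = p1`, `z = zz m`, `z'`; every prime in `[z, z')` other than `p1` is in
`Pd w p1 m`; `z > w`; `p1 ≤ x ≤ m^3`): `VV(z') ≤ (1 + η) (log z/log z') VV(z)`, and `log z/log D → 1/4`. -/
theorem box_sieve_D {a a' : ℕ} {b b' : ℤ} {w : ℕ} (h : Dat a a' b b' w) (ε : ℝ) (hε : 0 < ε) :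
    ∃ A' x0 : ℕ, ∀ x : ℕ, x0 ≤ x → ∀ p1 : ℕ, p1.Prime → w < p1 → p1 ≤ x →
    SWp A' (2 * a * a' * x) p1 → ∀ v : ℕ, Gcl a a' b b' w v →
    ∀ (M u u' : ℕ) (α : ℕ → ℝ), Cf (2 * a * a' * x) M u u' α →
    ∑ y ∈ (BXr a' b' w v M u u').filter (fun y => (bbd a a' b b' y).Prime ∧
      (ms a' x : ℝ) ^ (1 / 6 : ℝ) ≤ bbd a a' b b' y), wB α y ≤
      XB M u u' α / (Nat.totient (a' * primorial w) : ℝ) *
        VV (Pd w p1 (ms a' x)) (zz (ms a' x)) * (AA / 4 + ε) + x / Real.log x ^ 6 := by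
  have hAA := H59C.AA_pos
  have ha' := h.a0'
  have hw3 := h.w3
  obtain ⟨Q0, hQ0, z0, hz0, hjr⟩ := H59C.jr (ε / 8) (by linarith)
  obtain ⟨A', B, n1, hrem⟩ := rem_box_D h 6
  -- `ρ`: relative error
  obtain ⟨ρ, hρ⟩ : ∃ ρ : ℝ, ρ = min (1 / 8) (ε / (8 * AA)) := ⟨_, rfl⟩
  have hρ0 : 0 < ρ := by rw [hρ]; exact lt_min (by norm_num) (by positivity)
  have hρ1 : ρ ≤ 1 / 8 := by rw [hρ]; exact min_le_left _ _
  have hρ2 : AA * ρ ≤ ε / 8 := by
    have h : ρ ≤ ε / (8 * AA) := by rw [hρ]; exact min_le_right _ _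
    calc AA * ρ ≤ AA * (ε / (8 * AA)) := mul_le_mul_of_nonneg_left h hAA.le
      _ = ε / 8 := by field_simp
  obtain ⟨n2, hn2⟩ := H59C.ratio_VV ρ hρ0
  obtain ⟨n3, hn3⟩ := H59C.dd_log B Q0 hQ0 (ρ / 8) (by linarith)
  obtain ⟨n4, hn4⟩ := H59C.cdl_zz (max z0 (w + 1))
  refine ⟨A', n1 + n2 + n3 + n4 + 3, fun x hx p1 hp1 hwp hpx hSW v hv M u u' α hC => ?_⟩
  obtain ⟨n, hn⟩ : ∃ n : ℕ, n = ms a' x := ⟨_, rfl⟩
  have hxn : x ≤ n := by
    rw [hn]
    unfold ms
    have h1 : x ≤ a' * x := Nat.le_mul_of_pos_left x ha'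
    have h2 : 2 * a' * x = 2 * (a' * x) := by ring
    omega
  have hr := hrem x (by omega) p1 hp1 hwp hSW v hv M u u' α hC
  rw [← hn] at hr ⊢
  have hN : (3 : ℝ) ≤ n := by exact_mod_cast (by omega : 3 ≤ n)
  have hL : 0 < Real.log n := Real.log_pos (by linarith)
  obtain ⟨hD1, hDl, hDu, hDp⟩ := hn3 n (by omega)
  have hzn' := hn4 n (by omega)
  have hzn : z0 ≤ zz n := le_trans (le_max_left _ _) hzn'
  have hznw : (w : ℝ) + 1 ≤ zz n := le_trans (le_max_right _ _) hzn'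
  have hlz := H59C.log_zz n (by omega)
  have hzpos : 0 < zz n := by linarith
  have hlz0 : 0 < Real.log (zz n) := by rw [hlz]; linarith
  obtain ⟨z', hz'⟩ : ∃ z' : ℝ, z' = (n : ℝ) ^ (1 / 6 : ℝ) := ⟨_, rfl⟩
  have hlz' : Real.log z' = 1 / 6 * Real.log n := by
    rw [hz', Real.log_rpow (by linarith)]
  have hz'pos : 0 < z' := by rw [hz']; positivity
  have hzz' : zz n ≤ z' := by
    rw [← Real.log_le_log_iff hzpos hz'pos, hlz, hlz']
    linarith
  have hz'n : z' ≤ n := by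
    rw [← Real.log_le_log_iff hz'pos (by linarith), hlz']
    linarith
  have hα0 : ∀ x, 0 ≤ wB α x := fun x => mul_nonneg (hC.al01 _).1 (H59C.lg_nonneg _)
  obtain ⟨X, hX⟩ : ∃ X : ℝ, X = XB M u u' α / (Nat.totient (a' * primorial w) : ℝ) := ⟨_, rfl⟩
  rw [← hX] at hr ⊢
  have hXB : 0 ≤ X := by
    rw [hX]
    apply div_nonneg _ (Nat.cast_nonneg _)
    unfold XB
    exact mul_nonneg (sum_nonneg fun m _ => (hC.al01 m).1) (H59C.XX_nonneg _ _)
  have hP3 : ∀ q ∈ Pd w p1 n, q.Prime ∧ 3 ≤ q := by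
    intro q hq
    rw [d6_mem_Pd] at hq
    exact ⟨hq.2.1, by omega⟩
  have hV : ∀ z : ℝ, 0 ≤ VV (Pd w p1 n) z := by
    intro z
    unfold VV H59C.VP
    apply prod_nonneg
    intro q hq
    have h3 := (hP3 q (mem_filter.mp hq).1).2
    have h3' : (3 : ℝ) ≤ q := by exact_mod_cast h3
    unfold gq
    rw [sub_nonneg, div_le_one (by linarith)]
    linarith
  -- the level
  obtain ⟨D, hD⟩ : ∃ D : ℝ, D = (DD n B : ℝ) / Q0 := ⟨_, rfl⟩
  rw [← hD] at hDl hDu hDp
  have hQ0' : (1 : ℝ) ≤ Q0 := by exact_mod_cast hQ0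
  have hDQ : D * (Q0 : ℝ) = (DD n B : ℝ) := by
    rw [hD]
    field_simp
  have h3z : Real.log D ≤ 3 * Real.log z' := by
    rw [hlz']
    linarith
  have hz'D : z' ≤ D := by
    rw [← Real.log_le_log_iff hz'pos hDp, hlz']
    have : (1 / 6 : ℝ) * Real.log n ≤ (1 / 2 - ρ / 8) * Real.log n :=
      mul_le_mul_of_nonneg_right (by linarith) hL.le
    linarith
  obtain ⟨hup, -⟩ := hjr (Pd w p1 n) hP3 z' D (by linarith) hz'D
    (BXr a' b' w v M u u') (wB α) (bbd a a' b b') X hXB (fun x _ => hα0 x)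
  have hup := hup h3z
  rw [hDQ] at hup
  have hr := hr z'
  -- the left side is at most the sifted sum
  have hleft : ∑ y ∈ (BXr a' b' w v M u u').filter (fun y => (bbd a a' b b' y).Prime ∧
      (n : ℝ) ^ (1 / 6 : ℝ) ≤ bbd a a' b b' y), wB α y ≤
      sift (BXr a' b' w v M u u') (wB α) (bbd a a' b b') (Pd w p1 n) z' := by
    unfold sift
    apply sum_le_sum_of_subset_of_nonneg
    · intro y hy
      rw [mem_filter] at hy ⊢
      refine ⟨hy.1, ?_⟩
      intro q hq hqz hdvd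
      have h1 := (Nat.prime_dvd_prime_iff_eq (hP3 q hq).1 hy.2.1).mp hdvd
      have h2 := hy.2.2
      rw [← hz', ← h1] at h2
      linarith
    · intro y _ _
      exact hα0 y
  -- comparison of the products
  have hN3 : p1 ≤ n ^ 3 := by
    have h3 : 3 ≤ n := by omega
    calc p1 ≤ n := by omega
      _ = n ^ 1 := (pow_one n).symm
      _ ≤ n ^ 3 := Nat.pow_le_pow_right (by omega) (by norm_num)
  have hratio := hn2 n (by omega) (Pd w p1 n) p1 (zz n) z' hp1.pos hN3 (by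
      unfold zz
      apply Real.rpow_le_rpow_of_exponent_le (by linarith) (by norm_num)) hzz' hz'n
    hP3 (by
      intro q hq hzq hqz'
      by_cases hqp : q = p1
      · right; rw [hqp]
      · left
        rw [d6_mem_Pd]
        refine ⟨⟨?_, ?_⟩, hq, hqp⟩
        · have h1 : (w : ℝ) < q := by linarith
          exact_mod_cast h1
        · have h1 : (q : ℝ) ≤ n := by linarith
          exact_mod_cast h1)
  -- final computation
  have hlD0 : 0 < Real.log D := by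
    have : 0 < (1 / 2 - ρ / 8) * Real.log n := mul_pos (by linarith) hL
    linarith
  have hq34 : Real.log (zz n) / Real.log z' = 3 / 4 := by
    rw [hlz, hlz']
    field_simp
    norm_num
  rw [hq34] at hratio
  have hs : Real.log z' / Real.log D ≤ 1 / 3 * (1 + ρ) := by
    rw [div_le_iff₀ hlD0, hlz']
    have h1 : (1 / 2 - ρ / 8) * Real.log n * (1 / 3 * (1 + ρ)) ≤ Real.log D * (1 / 3 * (1 + ρ)) :=
      mul_le_mul_of_nonneg_right hDl (by positivity)
    have h2 : 1 / 6 * Real.log n ≤ (1 / 2 - ρ / 8) * Real.log n * (1 / 3 * (1 + ρ)) := by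
      have h3 : 1 / 6 ≤ (1 / 2 - ρ / 8) * (1 / 3 * (1 + ρ)) := by nlinarith
      calc 1 / 6 * Real.log n ≤ ((1 / 2 - ρ / 8) * (1 / 3 * (1 + ρ))) * Real.log n :=
            mul_le_mul_of_nonneg_right h3 hL.le
        _ = (1 / 2 - ρ / 8) * Real.log n * (1 / 3 * (1 + ρ)) := by ring
    linarith
  have hfac : AA / (Real.log D / Real.log z') + ε / 8 ≤ AA / 3 * (1 + ρ) + ε / 8 := by
    have h1 : AA / (Real.log D / Real.log z') = AA * (Real.log z' / Real.log D) := by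
      rw [div_div_eq_mul_div, mul_div_assoc]
    rw [h1]
    have := mul_le_mul_of_nonneg_left hs hAA.le
    linarith
  calc ∑ y ∈ (BXr a' b' w v M u u').filter (fun y => (bbd a a' b b' y).Prime ∧
      (n : ℝ) ^ (1 / 6 : ℝ) ≤ bbd a a' b b' y), wB α y
      ≤ X * VV (Pd w p1 n) z' * (AA / (Real.log D / Real.log z') + ε / 8) +
        remd (BXr a' b' w v M u u') (wB α) (bbd a a' b b') (Pd w p1 n) z' X (DD n B) :=
        hleft.trans hup
    _ ≤ X * VV (Pd w p1 n) z' * (AA / 3 * (1 + ρ) + ε / 8) + x / Real.log x ^ 6 := by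
        apply add_le_add _ hr
        exact mul_le_mul_of_nonneg_left hfac (mul_nonneg hXB (hV _))
    _ ≤ X * ((1 + ρ) * (3 / 4) * VV (Pd w p1 n) (zz n)) * (AA / 3 * (1 + ρ) + ε / 8) +
        x / Real.log x ^ 6 := by
        have h1 : X * VV (Pd w p1 n) z' ≤
            X * ((1 + ρ) * (3 / 4) * VV (Pd w p1 n) (zz n)) :=
          mul_le_mul_of_nonneg_left hratio hXB
        have h2 := mul_le_mul_of_nonneg_right h1
          (by positivity : 0 ≤ AA / 3 * (1 + ρ) + ε / 8)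
        linarith
    _ = X * VV (Pd w p1 n) (zz n) * ((1 + ρ) * (3 / 4) * (AA / 3 * (1 + ρ) + ε / 8)) +
        x / Real.log x ^ 6 := by ring
    _ ≤ X * VV (Pd w p1 n) (zz n) * (AA / 4 + ε) + x / Real.log x ^ 6 := by
        have h1 : (1 + ρ) * (3 / 4) * (AA / 3 * (1 + ρ) + ε / 8) ≤ AA / 4 + ε := by
          have e1 : (1 + ρ) * (3 / 4) * (AA / 3 * (1 + ρ) + ε / 8) =
              AA / 4 + AA * ρ * (1 / 2 + ρ / 4) + (1 + ρ) * (3 / 4) * (ε / 8) := by ring
          rw [e1]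
          have e2 : AA * ρ * (1 / 2 + ρ / 4) ≤ ε / 8 * 1 := by
            apply mul_le_mul hρ2 (by linarith) (by positivity) (by linarith)
          have e3 : (1 + ρ) * (3 / 4) * (ε / 8) ≤ 1 * (ε / 8) := by
            apply mul_le_mul_of_nonneg_right _ (by linarith)
            linarith
          linarith
        have h2 := mul_le_mul_of_nonneg_left h1 (mul_nonneg hXB (hV (zz n)))
        linarith

end Pool.Agent.Lib.H59W
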