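import Pool.Agent.Lib.H59W.D7A
import Pool.Agent.Lib.H59C.CCV
import Pool.Agent.Lib.H59C.CRP

/-!
# Chunk D7: covering by boxes
-/

open Finset Polynomial

namespace Pool.Agent.Lib.H59W

open Pool.Agent.Lib.H59C (PR zz yy Tri BX wB XB lv al Rel Win gq VV sift remd DD SWp)

open Classical in
/-- Proof. (Model: `H59C.cover`, file `H59C/CCV.lean`.) Let `n` be in the filter, `k = f2 n = a' n + b' = q1 q2 q3`, `m₁ = q1 q2`. By `H59C.ccv_index` there are `i, j` with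
`lv i < m₁ ≤ lv (i+1)`, `lv j < q3 ≤ lv (j+1)`, and the indices are in the range of `Rel` (`H59C.ccv_index_le`). `q2 ≤ q3 ≤ lv (j+1)`, so `al m δ (i,j) m₁ = 1`, and `(i, j) ∈ Rl`
(with `p = k + 2`: `f2 (x/2) + 2 < p ≤ f2 x + 2`, `Nat.dist 2 p = k`). Put `y = (m₁, q3) ∈ BX (lv (i+1)) (lv j) (lv (j+1))`: `k = a' n + b' ≡ a' v + b'` modulo `a' P`, so
`y ∈ BXr`; `bbd y = (a k + (a' b - a b'))/a' = a n + b` is a prime, `≥ m^(1/6)` (`n > x/2`). Different `n` give different `(i, j, y)` (`k` determines `n`). The weight is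
`1 ≤ al m δ (i,j) m₁ · log q3/log (lv j)`. -/
theorem cover_D {a a' : ℕ} {b b' : ℤ} {w : ℕ} (h : Dat a a' b b' w) (δ : ℝ) (hδ : 0 < δ)
    (hδ1 : δ ≤ 1 / 100) : ∃ x0 : ℕ, ∀ x : ℕ, x0 ≤ x → ∀ v : ℕ,
    ((((Sd a b w v x).filter (fun n => Tri (ms a' x) (f2 a' b' n))).card : ℕ) : ℝ) ≤
      ∑ y ∈ Rl a' b' x δ, 1 / Real.log (lv δ y.2) *
        ∑ t ∈ (BXr a' b' w v (lv δ (y.1 + 1)) (lv δ y.2) (lv δ (y.2 + 1))).filter
          (fun t => (bbd a a' b b' t).Prime ∧ (ms a' x : ℝ) ^ (1 / 6 : ℝ) ≤ bbd a a' b b' t),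
          wB (al (ms a' x) δ y) t := by
  have ha := h.a0
  have ha' := h.a0'
  obtain ⟨n1, hn1⟩ := H59C.cdl_zz 4
  refine ⟨n1 + 1000 + 32 * a' + 8 * b.natAbs + 8 * b'.natAbs, fun x hx v => ?_⟩
  obtain ⟨m, hm⟩ : ∃ m : ℕ, m = ms a' x := ⟨_, rfl⟩
  have hax : x ≤ a' * x := Nat.le_mul_of_pos_left x ha'
  have hms : m = 2 * (a' * x) := by rw [hm]; unfold ms; ring
  rw [← hm]
  have hmN : 1000 ≤ m := by omega
  have hN : (1000 : ℝ) ≤ m := by exact_mod_cast hmN
  have hz4 := hn1 m (by omega)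
  have hyz : zz m ≤ yy m := by
    unfold zz yy
    calc (m : ℝ) ^ (1 / 8 : ℝ) ≤ (m : ℝ) ^ (1 / 3 : ℝ) :=
          Real.rpow_le_rpow_of_exponent_le (by linarith) (by norm_num)
      _ ≤ (2 * m : ℝ) ^ (1 / 3 : ℝ) :=
          Real.rpow_le_rpow (by linarith) (by linarith) (by norm_num)
  obtain ⟨F, hF⟩ : ∃ F : ℕ × ℕ → Finset (ℕ × ℕ), F = fun y =>
    (BXr a' b' w v (lv δ (y.1 + 1)) (lv δ y.2) (lv δ (y.2 + 1))).filter
          (fun t => (bbd a a' b b' t).Prime ∧ (m : ℝ) ^ (1 / 6 : ℝ) ≤ bbd a a' b b' t) := ⟨_, rfl⟩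
  obtain ⟨t, ht⟩ : ∃ t : (_ : ℕ × ℕ) × (ℕ × ℕ) → ℝ, t = fun y =>
    1 / Real.log (lv δ y.1.2) * wB (al m δ y.1) y.2 := ⟨_, rfl⟩
  have ht0 : ∀ y, 0 ≤ t y := by
    intro y
    rw [ht]
    apply mul_nonneg
    · exact div_nonneg zero_le_one (Real.log_natCast_nonneg _)
    · apply mul_nonneg (H59C.ccv_al_nonneg _ _ _ _)
      unfold H59C.lg
      exact Real.log_natCast_nonneg _
  -- the data of an `n`
  have hdata : ∀ n ∈ (Sd a b w v x).filter (fun n => Tri m (f2 a' b' n)),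
      ∃ y : (_ : ℕ × ℕ) × (ℕ × ℕ), y ∈ (Rl a' b' x δ).sigma F ∧
        ((bbd a a' b b' y.2 : ℕ) : ℤ) = a * n + b ∧ 1 ≤ t y := by
    intro n hn
    rw [mem_filter] at hn
    obtain ⟨hn, q1, q2, q3, hq1, hq2, hq3, hz1, hy1, hy2, h23, hf⟩ := hn
    unfold Sd at hn
    rw [mem_filter, mem_Ioc] at hn
    obtain ⟨⟨hnx1, hnx2⟩, hnv, ⟨pr, hpr, hprn⟩⟩ := hn
    -- the value of the second form
    have hfn : ((f2 a' b' n : ℕ) : ℤ) = ((a' * n : ℕ) : ℤ) + b' :=
      d7a_f2 a' b' ha' n (by omega)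
    have hf1 : ((f2 a' b' (x / 2) : ℕ) : ℤ) = ((a' * (x / 2) : ℕ) : ℤ) + b' :=
      d7a_f2 a' b' ha' (x / 2) (by omega)
    have hf2 : ((f2 a' b' x : ℕ) : ℤ) = ((a' * x : ℕ) : ℤ) + b' :=
      d7a_f2 a' b' ha' x (by omega)
    have hm1 : a' * (x / 2) < a' * n := Nat.mul_lt_mul_of_pos_left hnx1 ha'
    have hm2 : a' * n ≤ a' * x := Nat.mul_le_mul_left _ hnx2
    obtain ⟨k, hk⟩ : ∃ k : ℕ, k = q1 * q2 * q3 := ⟨_, rfl⟩
    rw [← hk] at hf
    have hkle : k ≤ 2 * m := by omega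
    have hm2' : 2 ≤ q1 * q2 := by
      have := hq1.two_le
      have := hq2.two_le
      nlinarith
    have hmle : q1 * q2 ≤ 2 * m := by
      have h1 : q1 * q2 * 1 ≤ q1 * q2 * q3 := Nat.mul_le_mul_left _ hq3.one_lt.le
      rw [mul_one] at h1
      omega
    have hqle : q3 ≤ 2 * m := by
      have h1 : 1 * q3 ≤ q1 * q2 * q3 := Nat.mul_le_mul_right _ (by omega)
      omega
    obtain ⟨i, hi1, hi2⟩ := H59C.ccv_index δ hδ (q1 * q2) hm2'
    obtain ⟨j, hj1, hj2⟩ := H59C.ccv_index δ hδ q3 hq3.two_le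
    have hal : al m δ (i, j) (q1 * q2) = 1 := by
      unfold al
      rw [if_pos]
      exact ⟨hi1, q1, q2, hq1, hq2, hz1, hy1, hy2, h23.trans hj2, rfl⟩
    have hyq3 : yy m ≤ q3 := by
      have : (q2 : ℝ) ≤ q3 := by exact_mod_cast h23
      linarith
    have hRel : (i, j) ∈ Rl a' b' x δ := by
      unfold Rl
      rw [← hm]
      unfold H59C.Rel
      rw [mem_filter, mem_product, mem_range, mem_range]
      refine ⟨⟨H59C.ccv_index_le δ hδ hδ1 m _ i (by omega) hmle hi1,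
        H59C.ccv_index_le δ hδ hδ1 m _ j (by omega) hqle hj1⟩,
        q1 * q2, q3, k + 2, hi1, hi2, hj1, hj2, hq3, hal, hyq3, ?_, ?_, ?_⟩
      · omega
      · omega
      · rw [← hk]
        unfold Nat.dist
        omega
    have hkz : (k : ℤ) = a' * n + b' := by
      rw [← hf, hfn]
      push_cast
      ring
    have hbbz : ((a : ℤ) * (((q1 * q2 : ℕ) : ℤ) * ((q3 : ℕ) : ℤ)) +
        ((a' : ℤ) * b - a * b')) / a' = a * n + b := by
      have h1 : (((q1 * q2 : ℕ) : ℤ) * ((q3 : ℕ) : ℤ)) = (k : ℤ) := by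
        rw [hk]
        push_cast
        ring
      rw [h1, hkz]
      have h2 : (a : ℤ) * (a' * n + b') + ((a' : ℤ) * b - a * b') = a' * (a * n + b) := by ring
      rw [h2]
      exact Int.mul_ediv_cancel_left _ (by exact_mod_cast (by omega : a' ≠ 0))
    have hbb : bbd a a' b b' (q1 * q2, q3) = pr := by
      unfold bbd
      show (((a : ℤ) * (((q1 * q2 : ℕ) : ℤ) * ((q3 : ℕ) : ℤ)) +
        ((a' : ℤ) * b - a * b')) / a').toNat = pr
      rw [hbbz, hprn]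
      exact Int.toNat_natCast pr
    have hplow : (m : ℝ) ^ (1 / 6 : ℝ) ≤ pr := by
      have han : n ≤ a * n := Nat.le_mul_of_pos_left n ha
      have h1 : x ≤ 4 * pr := by
        have h2 : ((a * n : ℕ) : ℤ) + b = pr := by
          push_cast
          exact hprn
        omega
      have h1r : (x : ℝ) ≤ 4 * pr := by exact_mod_cast h1
      have h2 : (m : ℝ) ^ (1 / 6 : ℝ) ≤ (m : ℝ) ^ (1 / 2 : ℝ) :=
        Real.rpow_le_rpow_of_exponent_le (by linarith) (by norm_num)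
      refine h2.trans ?_
      rw [← Real.sqrt_eq_rpow]
      rw [Real.sqrt_le_left (Nat.cast_nonneg _)]
      have h3 : (m : ℝ) = 2 * (a' * x) := by rw [hms]; push_cast; ring
      have h4 : (32 : ℝ) * a' ≤ x := by exact_mod_cast (by omega : 32 * a' ≤ x)
      have h5 : (0 : ℝ) ≤ x := Nat.cast_nonneg _
      rw [h3]
      nlinarith
    have hlv2 : 2 ≤ lv δ j := by
      have h1 : (q3 : ℝ) ≤ (1 + δ) ^ (j + 1) := by
        have h2 : (q3 : ℝ) ≤ (lv δ (j + 1) : ℝ) := by exact_mod_cast hj2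
        have h3 : (lv δ (j + 1) : ℝ) ≤ (1 + δ) ^ (j + 1) := by
          unfold lv
          exact Nat.floor_le (by positivity)
        linarith
      have h2 : (3 : ℝ) ≤ (1 + δ) ^ j := by
        rw [pow_succ] at h1
        have h3 : (4 : ℝ) ≤ (1 + δ) ^ j * (1 + δ) := by linarith
        have h4 : (0 : ℝ) < (1 + δ) ^ j := by positivity
        nlinarith
      unfold lv
      apply Nat.le_floor
      push_cast
      linarith
    refine ⟨⟨(i, j), (q1 * q2, q3)⟩, ?_, ?_, ?_⟩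
    · rw [mem_sigma]
      refine ⟨hRel, ?_⟩
      rw [hF]
      show (q1 * q2, q3) ∈ (BXr a' b' w v (lv δ (i + 1)) (lv δ j) (lv δ (j + 1))).filter
          (fun t => (bbd a a' b b' t).Prime ∧ (m : ℝ) ^ (1 / 6 : ℝ) ≤ bbd a a' b b' t)
      rw [mem_filter]
      constructor
      · unfold BXr
        rw [mem_filter]
        constructor
        · unfold BX
          rw [mem_product, mem_Icc, H59C.mem_Sq]
          exact ⟨⟨by show 1 ≤ q1 * q2; omega, hi2⟩, ⟨hj1, hj2⟩, hq3⟩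
        · show ((q1 * q2 * q3 : ℕ) : ℤ) ≡ (a' : ℤ) * v + b' [ZMOD (a' * primorial w : ℕ)]
          rw [← hk, hkz]
          apply Int.ModEq.add_right
          push_cast
          exact Int.ModEq.mul_left' (Int.natCast_modEq_iff.mpr hnv)
      · rw [hbb]
        exact ⟨hpr, hplow⟩
    · show ((bbd a a' b b' (q1 * q2, q3) : ℕ) : ℤ) = a * n + b
      rw [hbb, hprn]
    · rw [ht]
      show 1 ≤ 1 / Real.log (lv δ j) * (al m δ (i, j) (q1 * q2) * H59C.lg q3)
      rw [hal, one_mul, one_div, ← div_eq_inv_mul]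
      have h1 : (2 : ℝ) ≤ lv δ j := by exact_mod_cast hlv2
      have h2 : 0 < Real.log (lv δ j) := Real.log_pos (by linarith)
      rw [le_div_iff₀ h2, one_mul]
      unfold H59C.lg
      apply Real.log_le_log (by linarith)
      exact_mod_cast hj1.le
  choose! f hf1 hf2 hf3 using hdata
  have hinj : Set.InjOn f ((Sd a b w v x).filter (fun n => Tri m (f2 a' b' n))) := by
    intro n hn n' hn' heq
    have h1 := hf2 n hn
    have h2 := hf2 n' hn'
    rw [heq, h2] at h1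
    have h3 : (a : ℤ) * n' = a * n := by linarith
    have h4 : (a : ℤ) ≠ 0 := by exact_mod_cast (by omega : a ≠ 0)
    have h5 := mul_left_cancel₀ h4 h3
    exact_mod_cast h5.symm
  calc ((((Sd a b w v x).filter (fun n => Tri m (f2 a' b' n))).card : ℕ) : ℝ)
      = ∑ n ∈ (Sd a b w v x).filter (fun n => Tri m (f2 a' b' n)), (1 : ℝ) := by
        rw [sum_const, nsmul_eq_mul, mul_one]
    _ ≤ ∑ n ∈ (Sd a b w v x).filter (fun n => Tri m (f2 a' b' n)), t (f n) :=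
        sum_le_sum fun n hn => hf3 n hn
    _ = ∑ y ∈ ((Sd a b w v x).filter (fun n => Tri m (f2 a' b' n))).image f, t y := by
        rw [sum_image hinj]
    _ ≤ ∑ y ∈ (Rl a' b' x δ).sigma F, t y := by
        apply sum_le_sum_of_subset_of_nonneg
        · intro y hy
          rw [mem_image] at hy
          obtain ⟨n, hn, rfl⟩ := hy
          exact hf1 n hn
        · intro y _ _
          exact ht0 y
    _ = ∑ y ∈ Rl a' b' x δ, ∑ s ∈ F y, t ⟨y, s⟩ := by
        rw [sum_sigma]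
    _ = _ := by
        apply sum_congr rfl
        intro y _
        rw [mul_sum, ht, hF]

end Pool.Agent.Lib.H59W
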