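import Pool.Agent.Lib.H59W.D0A
import Pool.Agent.Lib.H59W.D0B
import Pool.Agent.Lib.H59W.D6
import Pool.Agent.Lib.H59W.D7
import Pool.Agent.Lib.H59C.CS3

/-!
# Chunk D8: the third sum
-/

open Finset Polynomial

namespace Pool.Agent.Lib.H59W

open Pool.Agent.Lib.H33B (Sys NoFix wF FS_D)
open Pool.Agent.Lib.H59C (PR zz yy Tri BX wB XB lv al Rel Win gq VV sift remd DD SWp AA)

/-- There is a good residue. -/
theorem d8_gd_pos {a a' : ℕ} {b b' : ℤ} {w v : ℕ} (hv : Gcl a a' b b' w v) :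
    0 < (gd (∏ i, F2 a a' b b' i) (primorial w)).card := by
  classical
  rw [card_pos]
  refine ⟨v % primorial w, ?_⟩
  unfold gd
  rw [mem_filter, mem_range]
  refine ⟨Nat.mod_lt _ (primorial_pos w), ?_⟩
  obtain ⟨P0, hP0⟩ : ∃ P0 : ℤ[X], P0 = ∏ i, F2 a a' b b' i := ⟨_, rfl⟩
  rw [← hP0]
  have h1 : IsCoprime (P0.eval (v : ℤ)) (primorial w : ℤ) := by
    have h2 : P0.eval (v : ℤ) = ((a : ℤ) * v + b) * ((a' : ℤ) * v + b') := by
      rw [hP0, Fin.prod_univ_two, eval_mul]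
      simp [F2]
    rw [h2]
    exact hv.1.mul_left hv.2
  have h3 : (((v % primorial w : ℕ) : ℤ)) - (v : ℤ) ∣
      P0.eval ((v % primorial w : ℕ) : ℤ) - P0.eval (v : ℤ) := Polynomial.sub_dvd_eval_sub _ _ _
  have h4 : ((primorial w : ℕ) : ℤ) ∣ (((v % primorial w : ℕ) : ℤ)) - (v : ℤ) := by
    have h5 : ((v % primorial w : ℕ) : ℤ) ≡ (v : ℤ) [ZMOD (primorial w : ℕ)] := by
      exact Int.natCast_modEq_iff.mpr (Nat.mod_modEq _ _)
    exact h5.symm.dvd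
  obtain ⟨k, hk⟩ := h4.trans h3
  have h6 : P0.eval ((v % primorial w : ℕ) : ℤ) = P0.eval (v : ℤ) + (primorial w : ℤ) * k := by
    linarith
  rw [h6]
  exact (IsCoprime.add_mul_left_left_iff).2 h1

open Classical in
/-- Proof. (Model: `H59C.S3_upper`, file `H59C/CS3.lean`.) `m = ms a' x`, `V = VV(Pd) (zz m)`, `P = primorial w`. `lwt n ≤ log (2 a x)` on `Sd`, so the sum is at most `log (2 a x)` times the
left side of `cover_D δ`; `box_sieve_D ε'` for every box (`box_Cf`), `1/log (lv j) ≤ 4/log m` and the number of boxes is `≤ 25 (log m)^2/δ^2` (`H59C.rel_par` with `win_D`):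
`≤ (V/φ(a' P)) (AA/4 + ε') ∑_boxes XB/log (lv j) + 100 x/(δ² (log x)^4)`. `H59C.count_boxes ε'` (its `δ`; window `win_D`) and `H59C.triple_sum` (`n = m`):
`∑_boxes XB/log (lv j) ≤ (1 + ε') a' (x/2 + 1) (373/1000)/log m`. `φ(a' P) = a' φ(P)` (`totient_primorial`), `log (2 a x)/log m → 1`, and
`(x/2)/φ(P) ≤ (1 + 2ε') Xd` (`Xd_bounds`), `(373/1000) (1 + ..) ≤ 3/8`; the last term is `≤ (ε/2) Xd V` (`VVd_lower`). -/
theorem S3_D {a a' : ℕ} {b b' : ℤ} {w : ℕ} (h : Dat a a' b b' w) (hN : NoFix (F2 a a' b b'))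
    (ε : ℝ) (hε : 0 < ε) : ∃ A' x0 : ℕ, ∀ x : ℕ, x0 ≤ x → ∀ p1 : ℕ, p1.Prime → w < p1 → p1 ≤ x →
    SWp A' (2 * a * a' * x) p1 → ∀ v : ℕ, Gcl a a' b b' w v →
    ∑ n ∈ (Sd a b w v x).filter (fun n => Tri (ms a' x) (f2 a' b' n)), lwt a b n ≤
      Xd a b w x * VV (Pd w p1 (ms a' x)) (zz (ms a' x)) * (AA / 4 * (3 / 8) + ε) := by
  have hAA := H59C.AA_pos
  have ha := h.a0
  have ha' := h.a0'
  have hw3 := h.w3
  have har : (1 : ℝ) ≤ a := by exact_mod_cast ha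
  have har' : (1 : ℝ) ≤ a' := by exact_mod_cast ha'
  obtain ⟨A', n1, hbox⟩ := box_sieve_D h ε hε
  obtain ⟨δ, hδ, hδ1, n2, hcount⟩ := H59C.count_boxes (1 / 1000) (by norm_num)
  obtain ⟨n3, hcov⟩ := cover_D h δ hδ hδ1
  obtain ⟨n4, hpar⟩ := H59C.rel_par δ hδ hδ1
  obtain ⟨n5, htri⟩ := H59C.triple_sum
  obtain ⟨n6, hXd⟩ := Xd_bounds h (1 / 10000) (by norm_num)
  obtain ⟨n7, hwin⟩ := win_D a' b' ha'
  obtain ⟨n8, hCf⟩ := box_Cf a a' b' ha ha' δ hδ hδ1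
  obtain ⟨c, hc, hVl⟩ := VVd_lower a a' b b' hN
  obtain ⟨n9, hVl⟩ := hVl w h
  obtain ⟨φP, hφP⟩ : ∃ φP : ℝ, φP = ((primorial w).totient : ℝ) := ⟨_, rfl⟩
  have hφ1 : 0 < φP := by
    rw [hφP]
    exact_mod_cast Nat.totient_pos.2 (primorial_pos w)
  obtain ⟨cg, hcg⟩ : ∃ cg : ℝ, cg = ((gd (∏ i, F2 a a' b b' i) (primorial w)).card : ℝ) :=
    ⟨_, rfl⟩
  obtain ⟨K, hK⟩ : ∃ K : ℝ, K = 4000 * cg / (δ ^ 2 * (ε * c)) := ⟨_, rfl⟩
  obtain ⟨n10, hlog⟩ := H59C.cdl_log (max (max 1 K) (10000 * Real.log (2 * a)))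
  obtain ⟨n11, hlog'⟩ := H59C.cdl_log (10000 * Real.log (2 * a'))
  refine ⟨A', n1 + n2 + n3 + n4 + n5 + n6 + n7 + n8 + n9 + n10 + n11 + b.natAbs + 20000,
    fun x hx p1 hp1 hwp hpx hSW v hv => ?_⟩
  obtain ⟨m, hm⟩ : ∃ m : ℕ, m = ms a' x := ⟨_, rfl⟩
  have hxm : x ≤ m := by
    rw [hm]
    unfold ms
    have h1 : x ≤ a' * x := Nat.le_mul_of_pos_left x ha'
    have h2 : 2 * a' * x = 2 * (a' * x) := by ring
    omega
  have hx2 : (20000 : ℝ) ≤ x := by exact_mod_cast (by omega : 20000 ≤ x)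
  have hmr : (m : ℝ) = 2 * a' * x := by rw [hm]; unfold ms; push_cast; ring
  have hl0 := hlog x (by omega)
  have hl1 : 1 ≤ Real.log x := le_trans (le_trans (le_max_left _ _) (le_max_left _ _)) hl0
  have hlK : K ≤ Real.log x := le_trans (le_trans (le_max_right _ _) (le_max_left _ _)) hl0
  have hla : 10000 * Real.log (2 * a) ≤ Real.log x := le_trans (le_max_right _ _) hl0
  have hla' := hlog' x (by omega)
  -- the logarithms
  obtain ⟨Lm, hLm⟩ : ∃ Lm : ℝ, Lm = Real.log m := ⟨_, rfl⟩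
  obtain ⟨Lx, hLx⟩ : ∃ Lx : ℝ, Lx = Real.log x := ⟨_, rfl⟩
  obtain ⟨La, hLa⟩ : ∃ La : ℝ, La = Real.log (2 * a * x) := ⟨_, rfl⟩
  have hLmx : Lx ≤ Lm := by
    rw [hLx, hLm]
    apply Real.log_le_log (by linarith)
    exact_mod_cast hxm
  have hLm2 : Lm ≤ 2 * Lx := by
    rw [hLm, hmr, Real.log_mul (by positivity) (by linarith), hLx]
    linarith
  have hLa1 : La ≤ (1 + 1 / 10000) * Lm := by
    have h1 : La ≤ (1 + 1 / 10000) * Lx := by
      rw [hLa, Real.log_mul (by positivity) (by linarith), hLx]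
      linarith
    have h2 : (1 + 1 / 10000) * Lx ≤ (1 + 1 / 10000) * Lm :=
      mul_le_mul_of_nonneg_left hLmx (by norm_num)
    linarith
  have hLx1 : 1 ≤ Lx := by rw [hLx]; exact hl1
  have hLm1 : 1 ≤ Lm := by linarith
  have hLm0 : 0 < Lm := by linarith
  have hLa0 : 0 ≤ La := by
    rw [hLa]
    apply Real.log_nonneg
    nlinarith
  obtain ⟨W, hW2⟩ := hwin x (by omega)
  obtain ⟨y1, hy1⟩ : ∃ y1 : ℕ, y1 = f2 a' b' (x / 2) + 2 := ⟨_, rfl⟩
  obtain ⟨y2, hy2⟩ : ∃ y2 : ℕ, y2 = f2 a' b' x + 2 := ⟨_, rfl⟩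
  rw [← hm, ← hy1, ← hy2] at W
  rw [← hy1, ← hy2] at hW2
  have hRl : Rl a' b' x δ = Rel m 2 y1 y2 δ := by
    unfold Rl
    rw [← hm, ← hy1, ← hy2]
  have hcount := hcount m (by omega) 2 y1 y2 W
  have hcov := hcov x (by omega) v
  obtain ⟨hp1', hp2, hp3⟩ := hpar m (by omega) 2 y1 y2 W
  have htri := htri m (by omega)
  obtain ⟨hX1, hX2⟩ := hXd x (by omega)
  obtain ⟨hV1, -⟩ := hVl x (by omega) p1
  rw [← hLm] at htri hp2
  rw [← hm] at hcov hV1 ⊢
  rw [hRl] at hcov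
  rw [← hφP] at hX1 hX2 hV1
  rw [← hcg, ← hLx] at hV1
  obtain ⟨V, hV⟩ : ∃ V : ℝ, V = VV (Pd w p1 m) (zz m) := ⟨_, rfl⟩
  rw [← hV] at hV1 ⊢
  obtain ⟨XD, hXD⟩ : ∃ XD : ℝ, XD = Xd a b w x := ⟨_, rfl⟩
  rw [← hXD] at hX1 hX2 ⊢
  have hcg1 : 1 ≤ cg := by
    rw [hcg]
    exact_mod_cast d8_gd_pos hv
  have hV0 : 0 ≤ V := by
    refine le_trans ?_ hV1
    positivity
  have hXD1 : (x : ℝ) / 2 / φP ≤ (1001 / 1000) * XD := by
    have h1 : (0 : ℝ) ≤ (x : ℝ) / 2 / φP := by positivity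
    nlinarith
  have hXD0 : 0 ≤ XD := by
    have h1 : (0 : ℝ) ≤ (x : ℝ) / 2 / φP := by positivity
    nlinarith
  have hφa : ((a' * primorial w).totient : ℝ) = a' * φP := by
    rw [totient_primorial a' w ha' h.aw', hφP]
    push_cast
    ring
  -- weights
  have hstep1 : ∑ n ∈ (Sd a b w v x).filter (fun n => Tri m (f2 a' b' n)), lwt a b n ≤
      La * (((Sd a b w v x).filter (fun n => Tri m (f2 a' b' n))).card : ℝ) := by
    rw [mul_comm, ← nsmul_eq_mul]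
    apply sum_le_card_nsmul
    intro n hn
    rw [mem_filter] at hn
    have hn1 := hn.1
    unfold Sd at hn1
    rw [mem_filter, mem_Ioc] at hn1
    obtain ⟨⟨hnx1, hnx2⟩, -, ⟨q, hq, hqn⟩⟩ := hn1
    unfold lwt
    have h1 : (a : ℝ) * n + b = q := by exact_mod_cast congrArg (Int.cast (R := ℝ)) hqn
    rw [hLa]
    apply Real.log_le_log
    · rw [h1]
      exact_mod_cast hq.pos
    · have h2 : (b : ℝ) ≤ x := by
        have h3 : b ≤ (x : ℤ) := by omega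
        exact_mod_cast h3
      have h4 : (n : ℝ) ≤ x := by exact_mod_cast hnx2
      nlinarith
  -- the logarithms of the box ends
  have hlv : ∀ y ∈ Rel m 2 y1 y2 δ, 0 ≤ 1 / Real.log (lv δ y.2) ∧
      1 / Real.log (lv δ y.2) ≤ 4 / Lm := by
    intro y hy
    have h1 := (hp1' y hy).2.2.1
    have hm0 : (0 : ℝ) < m := by
      rw [hmr]
      positivity
    have h2 : 1 / 4 * Lm ≤ Real.log (lv δ y.2) := by
      have h3 := Real.log_le_log (by positivity) h1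
      rw [Real.log_rpow hm0, ← hLm] at h3
      exact h3
    have h4 : 0 < Real.log (lv δ y.2) := by linarith
    refine ⟨by positivity, ?_⟩
    rw [div_le_div_iff₀ h4 hLm0]
    linarith
  -- one box
  obtain ⟨R, hR⟩ : ∃ R : ℝ, R = (x : ℝ) / Lx ^ 6 := ⟨_, rfl⟩
  have hR0 : 0 ≤ R := by rw [hR]; positivity
  have hone : ∀ y ∈ Rel m 2 y1 y2 δ, 1 / Real.log (lv δ y.2) *
        ∑ t ∈ (BXr a' b' w v (lv δ (y.1 + 1)) (lv δ y.2) (lv δ (y.2 + 1))).filter
          (fun t => (bbd a a' b b' t).Prime ∧ (m : ℝ) ^ (1 / 6 : ℝ) ≤ bbd a a' b b' t),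
          wB (al m δ y) t ≤
      V * (AA / 4 + ε) / (a' * φP) * (1 / Real.log (lv δ y.2) *
        XB (lv δ (y.1 + 1)) (lv δ y.2) (lv δ (y.2 + 1)) (al m δ y)) +
      4 / Lm * R := by
    intro y hy
    have h0 := hCf x (by omega) y (by rw [hRl]; exact hy)
    have h6 := hbox x (by omega) p1 hp1 hwp hpx hSW v hv (lv δ (y.1 + 1)) (lv δ y.2)
      (lv δ (y.2 + 1)) (al (ms a' x) δ y) h0
    rw [← hm] at h6
    rw [← hV, hφa, ← hLx, ← hR] at h6
    obtain ⟨h7, h8⟩ := hlv y hy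
    have h9 := mul_le_mul_of_nonneg_left h6 h7
    refine h9.trans ?_
    rw [mul_add]
    apply add_le_add
    · apply le_of_eq
      ring
    · exact mul_le_mul_of_nonneg_right h8 hR0
  -- sum over the boxes
  have hsum : (((Sd a b w v x).filter (fun n => Tri m (f2 a' b' n))).card : ℝ) ≤
      V * (AA / 4 + ε) / (a' * φP) * (∑ y ∈ Rel m 2 y1 y2 δ, 1 / Real.log (lv δ y.2) *
        XB (lv δ (y.1 + 1)) (lv δ y.2) (lv δ (y.2 + 1)) (al m δ y)) +
      ((Rel m 2 y1 y2 δ).card : ℝ) * (4 / Lm * R) := by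
    refine hcov.trans ((sum_le_sum hone).trans (le_of_eq ?_))
    rw [sum_add_distrib, ← mul_sum, sum_const, nsmul_eq_mul]
  -- the main term
  obtain ⟨T, hT⟩ : ∃ T : ℝ, T = ∑ q1 ∈ PR (zz m) (yy m),
      ∑ q2 ∈ (PR (yy m) m).filter (fun q2 => q1 * q2 ^ 2 ≤ 3 * m),
        1 / ((q1 : ℝ) * q2 * Real.log (m / (20 * q1 * q2))) := ⟨_, rfl⟩
  rw [← hT] at htri hcount
  obtain ⟨SB, hSB⟩ : ∃ SB : ℝ, SB = ∑ y ∈ Rel m 2 y1 y2 δ, 1 / Real.log (lv δ y.2) *
      XB (lv δ (y.1 + 1)) (lv δ y.2) (lv δ (y.2 + 1)) (al m δ y) := ⟨_, rfl⟩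
  rw [← hSB] at hcount hsum
  have hSB0 : 0 ≤ SB := by
    rw [hSB]
    apply sum_nonneg
    intro y hy
    apply mul_nonneg (hlv y hy).1
    unfold XB
    exact mul_nonneg (sum_nonneg fun k _ => (hp3 y k).1) (H59C.XX_nonneg _ _)
  have hyd : (0 : ℝ) ≤ (y2 : ℝ) - y1 := by
    have : (y1 : ℝ) ≤ y2 := by exact_mod_cast W.lt.le
    linarith
  have hmainS : La * SB ≤ 3 / 8 * (998 / 1000) * (a' * (x / 2)) := by
    have h1 : La * SB ≤ (1 + 1 / 10000) * Lm * SB := mul_le_mul_of_nonneg_right hLa1 hSB0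
    have h2 : Lm * SB ≤ (1 + 1 / 1000) * ((y2 : ℝ) - y1) * (Lm * T) := by
      calc Lm * SB ≤ Lm * ((1 + 1 / 1000) * ((y2 : ℝ) - y1) * T) :=
            mul_le_mul_of_nonneg_left hcount hLm0.le
        _ = (1 + 1 / 1000) * ((y2 : ℝ) - y1) * (Lm * T) := by ring
    have h3 : (1 + 1 / 1000) * ((y2 : ℝ) - y1) * (Lm * T) ≤
        (1 + 1 / 1000) * ((y2 : ℝ) - y1) * (373 / 1000) :=
      mul_le_mul_of_nonneg_left htri (by positivity)
    have h4 : (y2 : ℝ) - y1 ≤ (1 + 1 / 10000) * (a' * (x / 2)) := by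
      refine hW2.trans ?_
      have h5 : (x : ℝ) / 2 + 1 ≤ (1 + 1 / 10000) * (x / 2) := by linarith
      calc (a' : ℝ) * ((x : ℝ) / 2 + 1) ≤ a' * ((1 + 1 / 10000) * (x / 2)) :=
            mul_le_mul_of_nonneg_left h5 (by linarith)
        _ = (1 + 1 / 10000) * (a' * (x / 2)) := by ring
    have h6 : (0 : ℝ) ≤ a' * (x / 2) := by positivity
    nlinarith
  have hmain : La * (V * (AA / 4 + ε) / (a' * φP) * SB) ≤
      XD * V * (AA / 4 * (3 / 8) + 3 / 8 * ε) := by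
    have h1 : La * (V * (AA / 4 + ε) / (a' * φP) * SB) =
        V * (AA / 4 + ε) / (a' * φP) * (La * SB) := by ring
    rw [h1]
    calc V * (AA / 4 + ε) / (a' * φP) * (La * SB)
        ≤ V * (AA / 4 + ε) / (a' * φP) * (3 / 8 * (998 / 1000) * (a' * (x / 2))) :=
          mul_le_mul_of_nonneg_left hmainS (by positivity)
      _ = V * (AA / 4 + ε) * (3 / 8 * (998 / 1000) * ((x : ℝ) / 2 / φP)) := by
          field_simp
      _ ≤ V * (AA / 4 + ε) * (3 / 8 * XD) := by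
          apply mul_le_mul_of_nonneg_left _ (by positivity)
          linarith
      _ = XD * V * (AA / 4 * (3 / 8) + 3 / 8 * ε) := by ring
  have hXV : c * x / (4 * cg * Lx) ≤ XD * V := by
    have h1 : (x : ℝ) / 4 / φP ≤ XD := by
      have h2 : (0 : ℝ) ≤ (x : ℝ) / 4 / φP := by positivity
      have h3 : (x : ℝ) / 4 / φP = (x : ℝ) / 2 / φP / 2 := by ring
      linarith
    calc c * x / (4 * cg * Lx) = (x : ℝ) / 4 / φP * (c / Lx * (φP / cg)) := by
          field_simp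
      _ ≤ XD * V := mul_le_mul h1 hV1 (by positivity) hXD0
  have hrest : La * (((Rel m 2 y1 y2 δ).card : ℝ) * (4 / Lm * R)) ≤ ε / 2 * (XD * V) := by
    calc La * (((Rel m 2 y1 y2 δ).card : ℝ) * (4 / Lm * R))
        ≤ (1 + 1 / 10000) * Lm * ((25 * Lm ^ 2 / δ ^ 2) * (4 / Lm * R)) := by
          apply mul_le_mul hLa1 _ (by positivity) (by positivity)
          exact mul_le_mul_of_nonneg_right hp2 (by positivity)
      _ = (1 + 1 / 10000) * 100 / δ ^ 2 * (Lm ^ 2 * R) := by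
          field_simp
          ring
      _ ≤ (1 + 1 / 10000) * 100 / δ ^ 2 * ((2 * Lx) ^ 2 * R) := by
          apply mul_le_mul_of_nonneg_left _ (by positivity)
          apply mul_le_mul_of_nonneg_right _ hR0
          exact pow_le_pow_left₀ hLm0.le hLm2 2
      _ = (1 + 1 / 10000) * 400 / δ ^ 2 * (x / Lx ^ 4) := by
          rw [hR]
          field_simp
          ring
      _ ≤ 500 / δ ^ 2 * (x / Lx ^ 2) := by
          have h1 : (x : ℝ) / Lx ^ 4 ≤ x / Lx ^ 2 := by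
            apply div_le_div_of_nonneg_left (by positivity) (by positivity)
            exact pow_le_pow_right₀ hLx1 (by norm_num)
          have h2 : (1 + 1 / 10000) * 400 / δ ^ 2 ≤ 500 / δ ^ 2 := by
            apply div_le_div_of_nonneg_right (by norm_num) (by positivity)
          exact mul_le_mul h2 h1 (by positivity) (by positivity)
      _ ≤ ε / 8 * (c * x / (cg * Lx)) := by
          have h1 : K ≤ Lx := by rw [hLx]; exact hlK
          have h2 : 4000 * cg ≤ Lx * (δ ^ 2 * (ε * c)) := by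
            rw [hK, div_le_iff₀ (by positivity)] at h1
            exact h1
          have h3 : 500 / δ ^ 2 * (x / Lx ^ 2) = (4000 * cg) * (x / (8 * cg * δ ^ 2 * Lx ^ 2)) := by
            field_simp
            norm_num
          have h4 : ε / 8 * (c * x / (cg * Lx)) =
              (Lx * (δ ^ 2 * (ε * c))) * (x / (8 * cg * δ ^ 2 * Lx ^ 2)) := by
            field_simp
          rw [h3, h4]
          exact mul_le_mul_of_nonneg_right h2 (by positivity)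
      _ = ε / 2 * (c * x / (4 * cg * Lx)) := by
          field_simp
          ring
      _ ≤ ε / 2 * (XD * V) := mul_le_mul_of_nonneg_left hXV (by positivity)
  calc ∑ n ∈ (Sd a b w v x).filter (fun n => Tri m (f2 a' b' n)), lwt a b n
      ≤ La * (((Sd a b w v x).filter (fun n => Tri m (f2 a' b' n))).card : ℝ) := hstep1
    _ ≤ La * (V * (AA / 4 + ε) / (a' * φP) * SB +
      ((Rel m 2 y1 y2 δ).card : ℝ) * (4 / Lm * R)) :=
        mul_le_mul_of_nonneg_left hsum hLa0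
    _ ≤ XD * V * (AA / 4 * (3 / 8) + 3 / 8 * ε) + ε / 2 * (XD * V) := by
        rw [mul_add]
        exact add_le_add hmain hrest
    _ ≤ XD * V * (AA / 4 * (3 / 8) + ε) := by
        have : 0 ≤ ε / 8 * (XD * V) := by positivity
        linarith

end Pool.Agent.Lib.H59W
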