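import Pool.Agent.Lib.H59W.B3A
import Pool.Agent.Lib.H59W.D2
import Pool.Agent.Lib.H59W.D3
import Pool.Agent.Lib.H59W.D8
import Pool.Agent.Lib.H59W.D10
import Pool.Agent.Lib.H59W.D9B
import Pool.Agent.Lib.H57C.V6
import Pool.Agent.Lib.H59C.CW

/-!
# Chunk D11: Chen's theorem in residue classes
-/

open Finset Polynomial

namespace Pool.Agent.Lib.H59W

open Pool.Agent.Lib.H33B (Sys NoFix wF FS_D)
open Pool.Agent.Lib.H59C (PR zz yy Tri BX wB XB lv al Rel Win gq VV sift remd DD SWp AA)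

theorem d11_ev0 (a a' : ℕ) (b b' n : ℤ) : (F2 a a' b b' 0).eval n = (a : ℤ) * n + b := by
  simp [F2]

theorem d11_ev1 (a a' : ℕ) (b b' n : ℤ) : (F2 a a' b b' 1).eval n = (a' : ℤ) * n + b' := by
  simp [F2]

theorem d11_cnt (A : ℕ → Prop) (x : ℕ) (S : Finset ℕ) (h : ∀ n ∈ S, 1 ≤ n ∧ n ≤ x ∧ A n) :
    S.card ≤ cnt A x := by
  classical
  unfold cnt
  refine card_le_card fun n hn => ?_
  obtain ⟨h1, h2, h3⟩ := h n hn
  exact Finset.mem_filter.2 ⟨Finset.mem_Icc.2 ⟨h1, h2⟩, h3⟩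

theorem d11_big {a a' : ℕ} {b b' : ℤ} {w : ℕ} (h : Dat a a' b b' w) {x v n p1 : ℕ}
    (hx : 2 * b'.natAbs + 6 ≤ x) (hG : Gcl a a' b b' w v) (hn : n ∈ Sd a b w v x)
    {q : ℕ} (hq : q.Prime) (hqp : q ≠ p1) (hqd : q ∣ f2 a' b' n) : q ∈ Pd w p1 (ms a' x) := by
  classical
  obtain ⟨g1, g2⟩ := Finset.mem_Ioc.1 (Finset.mem_filter.1 hn).1
  have g3 := (Finset.mem_filter.1 hn).2.1
  obtain ⟨e1, e2, e3⟩ := d9b_f2 h.a0' b' hx g1 g2
  unfold Pd
  rw [Finset.mem_filter, Finset.mem_Ioc]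
  have hle : q ≤ f2 a' b' n := Nat.le_of_dvd (by omega) hqd
  refine ⟨⟨?_, hle.trans e3⟩, hq, hqp⟩
  by_contra hcon
  have hqw : q ≤ w := not_lt.1 hcon
  have hqP : q ∣ primorial w := (hq.dvd_primorial_iff).2 hqw
  have f1 : (q : ℤ) ∣ (a' : ℤ) * n + b' := by
    rw [← e1]
    exact_mod_cast hqd
  have f2' : (q : ℤ) ∣ (n : ℤ) - v := by
    have h1 : (primorial w : ℤ) ∣ (n : ℤ) - v := Nat.modEq_iff_dvd.1 g3.symm
    exact dvd_trans (by exact_mod_cast hqP) h1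
  have f3 : (q : ℤ) ∣ (a' : ℤ) * v + b' := by
    have h2 : (a' : ℤ) * v + b' = ((a' : ℤ) * n + b') - a' * ((n : ℤ) - v) := by ring
    rw [h2]
    exact dvd_sub f1 (dvd_mul_of_dvd_right f2' _)
  have h3 : IsUnit (q : ℤ) := hG.2.isUnit_of_dvd' f3 (by exact_mod_cast hqP)
  have h4 : q = 1 := by
    rw [Int.isUnit_iff] at h3
    rcases h3 with h3 | h3
    · exact_mod_cast h3
    · exfalso
      have : (0 : ℤ) ≤ q := Int.natCast_nonneg q
      omega
  exact hq.one_lt.ne' h4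

theorem d11_gd {a a' : ℕ} {b b' : ℤ} {w v : ℕ} (hG : Gcl a a' b b' w v) :
    0 < (gd (∏ i, F2 a a' b b' i) (primorial w)).card ∧
      (gd (∏ i, F2 a a' b b' i) (primorial w)).card ≤ primorial w := by
  classical
  have hP0 := primorial_pos w
  constructor
  · rw [Finset.card_pos]
    refine ⟨v % primorial w, ?_⟩
    unfold gd
    refine Finset.mem_filter.2 ⟨Finset.mem_range.2 (Nat.mod_lt _ hP0), ?_⟩
    rw [Fin.prod_univ_two, Polynomial.eval_mul, d11_ev0, d11_ev1]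
    have e : (v : ℤ) = ((v % primorial w : ℕ) : ℤ) + (primorial w : ℤ) * ((v / primorial w : ℕ) : ℤ) := by
      exact_mod_cast (Nat.mod_add_div v (primorial w)).symm
    refine IsCoprime.mul_left ?_ ?_
    · have h1 := hG.1
      have h2 : (a : ℤ) * v + b = (a : ℤ) * ((v % primorial w : ℕ) : ℤ) + b +
          (primorial w : ℤ) * (a * ((v / primorial w : ℕ) : ℤ)) := by
        rw [e]
        push_cast
        ring_nf
      rw [h2, IsCoprime.add_mul_left_left_iff] at h1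
      exact h1
    · have h1 := hG.2
      have h2 : (a' : ℤ) * v + b' = (a' : ℤ) * ((v % primorial w : ℕ) : ℤ) + b' +
          (primorial w : ℤ) * (a' * ((v / primorial w : ℕ) : ℤ)) := by
        rw [e]
        push_cast
        ring_nf
      rw [h2, IsCoprime.add_mul_left_left_iff] at h1
      exact h1
  · unfold gd
    refine (Finset.card_filter_le _ _).trans ?_
    rw [Finset.card_range]

theorem d11_size {a : ℕ} (ha : 1 ≤ a) (b : ℤ) : ∃ x0 : ℕ, ∀ x : ℕ, x0 ≤ x → ∀ n : ℕ, x / 2 < n → n ≤ x →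
    (x : ℝ) ^ (1 / 10 : ℝ) < (a : ℝ) * n + b := by
  refine ⟨16 + 4 * b.natAbs, fun x hx n h1 h2 => ?_⟩
  have hx1 : (16 : ℝ) + 4 * (b.natAbs : ℝ) ≤ x := by exact_mod_cast hx
  have hb : -(b.natAbs : ℝ) ≤ (b : ℝ) := by
    have h3 : -(b.natAbs : ℤ) ≤ b := by
      rw [Int.natCast_natAbs]
      exact neg_abs_le b
    exact_mod_cast h3
  have hb0 : (0 : ℝ) ≤ (b.natAbs : ℝ) := Nat.cast_nonneg _
  have hn : (x : ℝ) < 2 * n := by
    have : x < 2 * n := by omega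
    exact_mod_cast this
  have ha' : (1 : ℝ) ≤ a := by exact_mod_cast ha
  have h3 : (n : ℝ) ≤ a * n := by nlinarith [Nat.cast_nonneg (α := ℝ) n]
  have h4 : (x : ℝ) ^ (1 / 10 : ℝ) ≤ (x : ℝ) ^ (1 / 2 : ℝ) :=
    Real.rpow_le_rpow_of_exponent_le (by linarith) (by norm_num)
  have h5 : (x : ℝ) ^ (1 / 2 : ℝ) ≤ x / 4 := by
    rw [← Real.sqrt_eq_rpow, Real.sqrt_le_left (by linarith)]
    nlinarith
  linarith

/-- Proof. (Model: `H59C.chen_window`, file `H59C/CW.lean`.) `κ = (AA/8) (2 log 3 - log 6 - 3/8) > 0` (`H59C.AA_pos`, `H59C.cw_log`). `S1_D`, `S2_D`, `S3_D` with `ε = κ/8`, `A'` the maximum of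
the three (`H59C.SWp_mono`): the left side of `chen_sum_D` is `≥ (κ/2) Xd VV ≥ (κ/2) (1/4) (x/φ(P)) (c/log x) (φ(P)/#gd) = c₁ x/(log x #gd)` (`Xd_bounds`, `VVd_lower`), with
`c₁` independent of `w`. `P = primorial w`, `F = F2 a a' b b'`, `#gd = #gd (∏ F_i) P ≤ P`. `p1_few F (F2_sys h) hN (1/10) w ε'` with `ε' = c₁/(16 P)` gives `K0`; `H57C.sw2 A' (max K0 (w + 1))` at
`n = 2 a a' x` gives `p1` (`p1 ≤ (log n)^(A' + 1) ≤ (log x)^(A' + 2) ≤ x`). In the last sum of `chen_sum_D` the `n` are counted in `p1_few`: `F_0(n) = a n + b` is a prime `> x^(1/10)`,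
and a prime `q ≠ p1` dividing `F_1(n) = f2 n` is not `≤ w` (it would divide `a' v + b'`), so it is in `Pd` and `≥ zz m > x^(1/10)`, or `> m`; weight `≤ 2 log x`. So this sum
is `≤ 2 ε' x/log x ≤ (1/8) c₁ x/(log x #gd)`. The second one is `≤ x^(9/10)` (`bad_sq_D`). So `#Gdd ≥ (c₁/4) x/((log x)^2 #gd)`, and every `n ∈ Gdd` has `Chn F (1/10) x n`
(`zz m = (2 a' x)^(1/8) > x^(1/10)`). -/
theorem lower_D (a a' : ℕ) (b b' : ℤ) (hN : NoFix (F2 a a' b b')) : ∃ c : ℝ, 0 < c ∧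
    ∀ w : ℕ, Dat a a' b b' w → ∃ x0 : ℕ, ∀ x : ℕ, x0 ≤ x → ∀ v : ℕ, Gcl a a' b b' w v →
      c * (x / Real.log x ^ 2) ≤ (gd (∏ i, F2 a a' b b' i) (primorial w)).card *
        (cnt (fun n => n ≡ v [MOD primorial w] ∧ Chn (F2 a a' b b') (1 / 10) x n) x : ℝ) := by
  classical
  have hAA := H59C.AA_pos
  obtain ⟨κ, hκ⟩ : ∃ κ : ℝ, κ = AA / 8 * (2 * Real.log 3 - Real.log 6 - 3 / 8) := ⟨_, rfl⟩
  have hκ0 : 0 < κ := by
    rw [hκ]
    have := H59C.cw_log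
    exact mul_pos (by linarith) (by linarith)
  obtain ⟨c0, hc0, hVV⟩ := VVd_lower a a' b b' hN
  obtain ⟨c1, hc1d⟩ : ∃ c1 : ℝ, c1 = κ * c0 / 8 := ⟨_, rfl⟩
  have hc1 : 0 < c1 := by rw [hc1d]; positivity
  refine ⟨c1 / 4, by positivity, fun w h => ?_⟩
  obtain ⟨P, hP⟩ : ∃ P : ℕ, P = primorial w := ⟨_, rfl⟩
  have hP0 : 0 < P := by rw [hP]; exact primorial_pos w
  have hPr : (0 : ℝ) < P := by exact_mod_cast hP0
  have hφ : (0 : ℝ) < P.totient := by exact_mod_cast Nat.totient_pos.2 hP0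
  obtain ⟨A1, n1, h1⟩ := S1_D h hN (κ / 4) (by linarith)
  obtain ⟨A2, n2, h2⟩ := S2_D h hN (κ / 4) (by linarith)
  obtain ⟨A3, n3, h3⟩ := S3_D h hN (κ / 4) (by linarith)
  obtain ⟨n4, h4⟩ := hVV w h
  obtain ⟨n5, h5⟩ := Xd_bounds h (1 / 2) (by norm_num)
  obtain ⟨n6, h6⟩ := bad_sq_D h
  obtain ⟨n7, h7⟩ := chen_sum_D h
  obtain ⟨K0, hK0⟩ := p1_few (F2 a a' b b') (F2_sys h) hN (1 / 10) (by norm_num) w (c1 / (16 * P)) (by positivity)
  obtain ⟨A, hA⟩ : ∃ A : ℕ, A = A1 + A2 + A3 := ⟨_, rfl⟩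
  obtain ⟨n8, h8⟩ := H57C.sw2 A (max K0 (w + 1))
  obtain ⟨n9, h9⟩ := hK0 ((A + 2 : ℕ) : ℝ)
  obtain ⟨n10, h10⟩ := H59C.cdl_log_pow 1 (8 * P / c1) (1 / 10) (by positivity) (by norm_num)
  obtain ⟨n11, h11⟩ := H59C.cdl_log_pow (A + 2) 1 1 (by norm_num) (by norm_num)
  obtain ⟨n12, h12⟩ := H59C.cdl_log (2 ^ (A + 1))
  obtain ⟨n13, h13⟩ := d11_size h.a0 b
  refine ⟨n1 + n2 + n3 + n4 + n5 + n6 + n7 + n8 + n9 + n10 + n11 + n12 + n13 + 2 * a * a' + 2 * a +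
    2 * b.natAbs + 2 * b'.natAbs + 6, fun x hx v hG => ?_⟩
  have hX : (6 : ℝ) ≤ x := by exact_mod_cast (by omega : 6 ≤ x)
  have hL : 0 < Real.log x := Real.log_pos (by linarith)
  obtain ⟨L, hLd⟩ : ∃ L : ℝ, L = Real.log x := ⟨_, rfl⟩
  have ha1r : (1 : ℝ) ≤ a := by exact_mod_cast h.a0
  have ha1r' : (1 : ℝ) ≤ a' := by exact_mod_cast h.a0'
  have hn2 : x ≤ 2 * a * a' * x := by
    have h1 : 1 ≤ 2 * a * a' := Nat.mul_pos (Nat.mul_pos two_pos h.a0) h.a0'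
    nlinarith
  obtain ⟨p1, hp1, hpK, hplog, hSW⟩ := h8 (2 * a * a' * x) (by omega)
  have hpw : w < p1 := by
    have := (le_max_right _ _).trans hpK
    omega
  have hpK0 : K0 ≤ p1 := (le_max_left _ _).trans hpK
  have hlog1 : Real.log ((2 * a * a' * x : ℕ) : ℝ) ≤ 2 * L := by
    push_cast
    have e1 : (2 * a * a' : ℝ) ≤ x := by exact_mod_cast (by omega : 2 * a * a' ≤ x)
    have e2 : (0 : ℝ) < 2 * a * a' := by positivity
    rw [Real.log_mul e2.ne' (by linarith), hLd]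
    have e3 := Real.log_le_log e2 e1
    linarith
  have hlog0 : 0 ≤ Real.log ((2 * a * a' * x : ℕ) : ℝ) := Real.log_natCast_nonneg _
  have hp1L : (p1 : ℝ) ≤ L ^ (A + 2) := by
    have e1 := h12 x (by omega)
    rw [← hLd] at e1
    calc (p1 : ℝ) ≤ Real.log ((2 * a * a' * x : ℕ) : ℝ) ^ (A + 1) := hplog
      _ ≤ (2 * L) ^ (A + 1) := pow_le_pow_left₀ hlog0 hlog1 _
      _ = 2 ^ (A + 1) * L ^ (A + 1) := mul_pow _ _ _
      _ ≤ L * L ^ (A + 1) := mul_le_mul_of_nonneg_right e1 (by rw [hLd]; positivity)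
      _ = L ^ (A + 2) := by ring
  have hp1x : p1 ≤ x := by
    have e1 := h11 x (by omega)
    rw [one_mul, Real.rpow_one, ← hLd] at e1
    exact_mod_cast hp1L.trans e1
  have hn3 : 3 ≤ 2 * a * a' * x := by omega
  have s1 := h1 x (by omega) p1 hp1 hpw (H59C.SWp_mono (by omega) hn3 hSW) v hG
  have s2 := h2 x (by omega) p1 hp1 hpw (H59C.SWp_mono (by omega) hn3 hSW) v hG
  have s3 := h3 x (by omega) p1 hp1 hpw hp1x (H59C.SWp_mono (by omega) hn3 hSW) v hG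
  obtain ⟨s4, -⟩ := h4 x (by omega) p1
  obtain ⟨s5, -⟩ := h5 x (by omega)
  have s6 := h6 x (by omega) v
  have s7 := h7 x (by omega) p1 v hG
  have s9 := h9 x (by omega) p1 hp1 hpK0 hpw (by
    rw [Real.rpow_natCast, ← hLd]
    exact hp1L) v
  have s10 := h10 x (by omega)
  obtain ⟨hgd0, hgdP⟩ := d11_gd hG
  obtain ⟨k, hk⟩ : ∃ k : ℕ, k = (gd (∏ i, F2 a a' b b' i) (primorial w)).card := ⟨_, rfl⟩
  rw [← hk] at s4 hgd0 hgdP ⊢
  rw [← hP] at s4 s5 s9 hgdP ⊢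
  have hk0 : (0 : ℝ) < k := by exact_mod_cast hgd0
  have hkP : (k : ℝ) ≤ P := by exact_mod_cast hgdP
  obtain ⟨m, hm⟩ : ∃ m : ℕ, m = ms a' x := ⟨_, rfl⟩
  obtain ⟨V, hV⟩ : ∃ V : ℝ, V = VV (Pd w p1 (ms a' x)) (zz (ms a' x)) := ⟨_, rfl⟩
  obtain ⟨X1, hX1⟩ : ∃ X1 : ℝ, X1 = Xd a b w x := ⟨_, rfl⟩
  obtain ⟨T, hT⟩ : ∃ T : ℝ, T = X1 * V := ⟨_, rfl⟩
  rw [← hV, ← hX1, ← hT] at s1 s2 s3
  rw [← hV, ← hLd] at s4
  rw [← hX1] at s5
  have hL0 : 0 < L := by rw [hLd]; exact hL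
  -- the main term
  obtain ⟨H, hH⟩ : ∃ H : ℝ, H = (x : ℝ) / (L * k) := ⟨_, rfl⟩
  have hH0 : 0 < H := by rw [hH]; positivity
  have hTH : c0 / 4 * H ≤ T := by
    have e1 : (x : ℝ) / (4 * P.totient) ≤ X1 := by
      refine le_trans (le_of_eq ?_) s5
      field_simp
      ring
    have e2 : 0 < c0 / L * (P.totient / k) := by positivity
    calc c0 / 4 * H = (x : ℝ) / (4 * P.totient) * (c0 / L * (P.totient / k)) := by
          rw [hH]
          field_simp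
      _ ≤ X1 * V := mul_le_mul e1 s4 e2.le (le_trans (by positivity) e1)
      _ = T := hT.symm
  have hlow : κ / 2 * T ≤ sift (Sd a b w v x) (lwt a b) (f2 a' b') (Pd w p1 (ms a' x)) (zz (ms a' x)) -
      1 / 2 * ∑ q ∈ Qd w p1 (ms a' x), sift ((Sd a b w v x).filter (fun n => q ∣ f2 a' b' n))
        (lwt a b) (f2 a' b') (Pd w p1 (ms a' x)) (zz (ms a' x)) -
      1 / 2 * ∑ n ∈ (Sd a b w v x).filter (fun n => Tri (ms a' x) (f2 a' b' n)), lwt a b n := by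
    have e1 : κ / 2 * T = T * (AA * Real.log 3 / 4 - κ / 4) -
        1 / 2 * (T * (AA / 4 * Real.log 6 + κ / 4)) - 1 / 2 * (T * (AA / 4 * (3 / 8) + κ / 4)) := by
      have : T * (AA * Real.log 3 / 4 - κ / 4) -
        1 / 2 * (T * (AA / 4 * Real.log 6 + κ / 4)) - 1 / 2 * (T * (AA / 4 * (3 / 8) + κ / 4)) =
        T * (AA / 8 * (2 * Real.log 3 - Real.log 6 - 3 / 8)) - T * (κ / 2) := by ring
      rw [this, ← hκ]
      ring
    rw [e1]
    linarith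
  -- the squares
  have e6 : (x : ℝ) ^ (9 / 10 : ℝ) ≤ c1 / 8 * H := by
    rw [pow_one, ← hLd] at s10
    have e1 : (x : ℝ) = (x : ℝ) ^ (9 / 10 : ℝ) * (x : ℝ) ^ (1 / 10 : ℝ) := by
      rw [← Real.rpow_add (by linarith)]
      norm_num
    have e2 : (x : ℝ) ^ (9 / 10 : ℝ) * (8 * P / c1 * L) ≤ x := by
      calc (x : ℝ) ^ (9 / 10 : ℝ) * (8 * P / c1 * L)
          ≤ (x : ℝ) ^ (9 / 10 : ℝ) * (x : ℝ) ^ (1 / 10 : ℝ) :=
            mul_le_mul_of_nonneg_left s10 (by positivity)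
        _ = x := e1.symm
    have e3 : (x : ℝ) / (L * P) ≤ H := by
      rw [hH]
      exact div_le_div_of_nonneg_left (by linarith) (by positivity) (mul_le_mul_of_nonneg_left hkP hL0.le)
    have e4 : (x : ℝ) ^ (9 / 10 : ℝ) ≤ c1 / 8 * ((x : ℝ) / (L * P)) := by
      have e5 : (x : ℝ) ^ (9 / 10 : ℝ) = c1 / 8 * (((x : ℝ) ^ (9 / 10 : ℝ) * (8 * P / c1 * L)) / (L * P)) := by
        field_simp
      rw [e5]
      apply mul_le_mul_of_nonneg_left _ (by positivity)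
      exact div_le_div_of_nonneg_right e2 (by positivity)
    exact e4.trans (mul_le_mul_of_nonneg_left e3 (by positivity))
  have hlog2 : Real.log (2 * a * x) ≤ 2 * L := by
    have e1 : (2 * a : ℝ) ≤ x := by exact_mod_cast (by omega : 2 * a ≤ x)
    rw [Real.log_mul (by positivity) (by linarith), hLd]
    have e2 : Real.log (2 * a) ≤ Real.log x := Real.log_le_log (by positivity) e1
    linarith
  have hSd : ∀ n ∈ Sd a b w v x, x / 2 < n ∧ n ≤ x := by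
    intro n hn
    exact Finset.mem_Ioc.1 (Finset.mem_filter.1 hn).1
  have hzz : (x : ℝ) ^ (1 / 10 : ℝ) < zz (ms a' x) := by
    have e1 : (x : ℝ) ^ (1 / 10 : ℝ) < (x : ℝ) ^ (1 / 8 : ℝ) :=
      Real.rpow_lt_rpow_of_exponent_lt (by linarith) (by norm_num)
    have e2 : (x : ℝ) ≤ ((ms a' x : ℕ) : ℝ) := by
      unfold ms
      push_cast
      nlinarith
    unfold zz
    exact e1.trans_le (Real.rpow_le_rpow (by linarith) e2 (by norm_num))
  have hpr : ∀ n ∈ Sd a b w v x, ∀ q : ℕ, q.Prime → (q : ℤ) ∣ (F2 a a' b b' 0).eval (n : ℤ) →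
      (x : ℝ) ^ (1 / 10 : ℝ) < q := by
    intro n hn q hq hqd
    obtain ⟨g1, g2⟩ := hSd n hn
    obtain ⟨q0, hq0, hq0e⟩ := (Finset.mem_filter.1 hn).2.2
    have e1 := h13 x (by omega) n g1 g2
    rw [d11_ev0, hq0e] at hqd
    have e2 : q ∣ q0 := by exact_mod_cast hqd
    have e3 : q = q0 := (Nat.prime_dvd_prime_iff_eq hq hq0).1 e2
    have e4 : (a : ℝ) * n + b = (q0 : ℝ) := by exact_mod_cast hq0e
    rw [e3, ← e4]
    exact e1
  -- the exceptional prime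
  have e9 : ∑ n ∈ (Sd a b w v x).filter (fun n => p1 ∣ f2 a' b' n ∧
      ∀ q ∈ Pd w p1 (ms a' x), (q : ℝ) < zz (ms a' x) → ¬ q ∣ f2 a' b' n), lwt a b n ≤ c1 / 8 * H := by
    obtain ⟨W, hW⟩ : ∃ W : Finset ℕ, W = (Sd a b w v x).filter (fun n => p1 ∣ f2 a' b' n ∧
      ∀ q ∈ Pd w p1 (ms a' x), (q : ℝ) < zz (ms a' x) → ¬ q ∣ f2 a' b' n) := ⟨_, rfl⟩
    have hWc : (W.card : ℝ) ≤ c1 / (16 * P) * (x / L ^ 2) := by
      rw [← hLd] at s9
      refine le_trans ?_ s9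
      have hle := d11_cnt (fun n => n ≡ v [MOD P] ∧ (∃ j, (p1 : ℤ) ∣ (F2 a a' b b' j).eval (n : ℤ)) ∧
        ∀ j, ∀ q : ℕ, q.Prime → q ≠ p1 → (q : ℤ) ∣ (F2 a a' b b' j).eval (n : ℤ) →
          (x : ℝ) ^ (1 / 10 : ℝ) < q) x W (by
        intro n hn
        rw [hW] at hn
        obtain ⟨hnS, hpd, hsf⟩ := Finset.mem_filter.1 hn
        obtain ⟨g1, g2⟩ := hSd n hnS
        obtain ⟨f1, -, -⟩ := d9b_f2 h.a0' b' (x := x) (by omega) g1 g2
        refine ⟨by omega, g2, ?_, ⟨1, ?_⟩, ?_⟩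
        · rw [hP]
          exact (Finset.mem_filter.1 hnS).2.1
        · rw [d11_ev1, ← f1]
          exact_mod_cast hpd
        · intro j q hq hqp hqd
          have hj : j = 0 ∨ j = 1 := by omega
          rcases hj with rfl | rfl
          · exact hpr n hnS q hq hqd
          · rw [d11_ev1, ← f1] at hqd
            have hqd' : q ∣ f2 a' b' n := by exact_mod_cast hqd
            have hqP := d11_big h (by omega) hG hnS hq hqp hqd'
            have hqz : zz (ms a' x) ≤ q := by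
              by_contra hcon
              exact hsf q hqP (not_le.1 hcon) hqd'
            exact hzz.trans_le hqz)
      exact_mod_cast hle
    rw [← hW]
    calc ∑ n ∈ W, lwt a b n ≤ ∑ n ∈ W, 2 * L := by
          apply Finset.sum_le_sum
          intro n hn
          rw [hW] at hn
          obtain ⟨g1, g2⟩ := hSd n (Finset.mem_filter.1 hn).1
          exact (d9b_lwt h.a0 b (by omega) g1 g2).2.trans hlog2
      _ = (W.card : ℝ) * (2 * L) := by rw [Finset.sum_const, nsmul_eq_mul]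
      _ ≤ (c1 / (16 * P) * (x / L ^ 2)) * (2 * L) := mul_le_mul_of_nonneg_right hWc (by positivity)
      _ = c1 / 8 * ((x : ℝ) / (L * P)) := by
          field_simp
          ring
      _ ≤ c1 / 8 * H := by
          apply mul_le_mul_of_nonneg_left _ (by positivity)
          rw [hH]
          exact div_le_div_of_nonneg_left (by linarith) (by positivity) (mul_le_mul_of_nonneg_left hkP hL0.le)
  -- the conclusion
  have hfin : 3 / 8 * c1 * H ≤ L * ((Gdd a a' b b' w v x).card : ℝ) := by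
    have q1 : c1 * H ≤ κ / 2 * T := by
      have := mul_le_mul_of_nonneg_left hTH (by linarith : 0 ≤ κ / 2)
      refine le_trans (le_of_eq ?_) this
      rw [hc1d]
      ring
    have q2 : Real.log (2 * a * x) * ((Gdd a a' b b' w v x).card : ℝ) ≤
        2 * L * ((Gdd a a' b b' w v x).card : ℝ) :=
      mul_le_mul_of_nonneg_right hlog2 (Nat.cast_nonneg _)
    have q3 := s6.trans e6
    have q4 : c1 * H ≤ 2 * L * ((Gdd a a' b b' w v x).card : ℝ) + c1 / 8 * H + c1 / 8 * H := by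
      refine q1.trans (hlow.trans (s7.trans ?_))
      linarith
    linarith
  have hcnt : ((Gdd a a' b b' w v x).card : ℝ) ≤
      (cnt (fun n => n ≡ v [MOD P] ∧ Chn (F2 a a' b b') (1 / 10) x n) x : ℝ) := by
    have hle := d11_cnt (fun n => n ≡ v [MOD P] ∧ Chn (F2 a a' b b') (1 / 10) x n) x
      (Gdd a a' b b' w v x) (by
      intro n hn
      obtain ⟨hnS, hpp, hbig⟩ := Finset.mem_filter.1 hn
      obtain ⟨g1, g2⟩ := hSd n hnS
      obtain ⟨f1, -, -⟩ := d9b_f2 h.a0' b' (x := x) (by omega) g1 g2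
      obtain ⟨q0, hq0, hq0e⟩ := (Finset.mem_filter.1 hnS).2.2
      refine ⟨by omega, g2, ?_, ⟨q0, hq0, ?_⟩, ⟨f2 a' b' n, hpp, ?_⟩, ?_⟩
      · rw [hP]
        exact (Finset.mem_filter.1 hnS).2.1
      · rw [d11_ev0]
        exact hq0e
      · rw [d11_ev1]
        exact f1.symm
      · intro j q hq hqd
        have hj : j = 0 ∨ j = 1 := by omega
        rcases hj with rfl | rfl
        · exact hpr n hnS q hq hqd
        · rw [d11_ev1, ← f1] at hqd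
          have hqd' : q ∣ f2 a' b' n := by exact_mod_cast hqd
          exact hzz.trans_le (hbig q hq hqd'))
    exact_mod_cast hle
  rw [← hLd]
  have hfin2 : c1 / 4 * ((x : ℝ) / L) ≤ (k : ℝ) * (L * ((Gdd a a' b b' w v x).card : ℝ)) := by
    have q1 : k * H = (x : ℝ) / L := by
      rw [hH]
      field_simp
    calc c1 / 4 * ((x : ℝ) / L) = k * (c1 / 4 * H) := by rw [← q1]; ring
      _ ≤ k * (3 / 8 * c1 * H) := by
          apply mul_le_mul_of_nonneg_left _ hk0.le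
          nlinarith [mul_pos hc1 hH0]
      _ ≤ _ := mul_le_mul_of_nonneg_left hfin hk0.le
  calc c1 / 4 * ((x : ℝ) / L ^ 2) = (c1 / 4 * ((x : ℝ) / L)) / L := by
        field_simp
    _ ≤ ((k : ℝ) * (L * ((Gdd a a' b b' w v x).card : ℝ))) / L := div_le_div_of_nonneg_right hfin2 hL0.le
    _ = (k : ℝ) * ((Gdd a a' b b' w v x).card : ℝ) := by
        field_simp
    _ ≤ _ := mul_le_mul_of_nonneg_left hcnt hk0.le

end Pool.Agent.Lib.H59W
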