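import Pool.Agent.Lib.H59W.D11

/-!
# Chunk D12: Chen's theorem in residue classes, for systems
-/

open Finset Polynomial

namespace Pool.Agent.Lib.H59W

open Pool.Agent.Lib.H33B (Sys NoFix wF FS_D)

theorem d12_lin {f : ℤ[X]} (hirr : Irreducible f) (hl : 0 < f.leadingCoeff) (hd : f.natDegree = 1) :
    ∃ (a : ℕ) (b : ℤ), 1 ≤ a ∧ IsCoprime (a : ℤ) b ∧ f = C (a : ℤ) * X + C b := by
  obtain ⟨s, t, hst⟩ := Polynomial.exists_eq_X_add_C_of_natDegree_le_one hd.le
  have hs : f.leadingCoeff = s := by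
    rw [leadingCoeff, hd, hst, coeff_add, coeff_C_mul, coeff_X_one, coeff_C, if_neg one_ne_zero]
    ring
  rw [hs] at hl
  have hsn : ((s.toNat : ℕ) : ℤ) = s := Int.toNat_of_nonneg hl.le
  refine ⟨s.toNat, t, by omega, ?_, by rw [hsn]; exact hst⟩
  rw [hsn]
  have hprim : f.IsPrimitive := hirr.isPrimitive (by omega)
  rw [Int.isCoprime_iff_gcd_eq_one]
  have h1 : C ((Int.gcd s t : ℕ) : ℤ) ∣ f := by
    rw [hst]
    apply dvd_add
    · apply Dvd.dvd.mul_right
      exact map_dvd C (Int.gcd_dvd_left ..)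
    · exact map_dvd C (Int.gcd_dvd_right ..)
  have h2 := hprim _ h1
  have h3 := Int.isUnit_iff.mp h2
  rcases h3 with h3 | h3
  · exact_mod_cast h3
  · have : (0 : ℤ) ≤ ((Int.gcd s t : ℕ) : ℤ) := Int.natCast_nonneg _
    omega

/-- Proof. `F 0 = C a * X + C b`, `F 1 = C a' * X + C b'` with `a, a' ≥ 1` (leading coefficients), primitive as they are irreducible of positive degree; `a' b ≠ a b'` since
otherwise the two primitive polynomials with positive leading coefficients are equal (`Sys.inj`). So `F = F2 a a' b b'`, and `Dat a a' b b' w` for all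
`w ≥ w1 = max a a' + |a' b - a b'| + 3`; `IsCoprime` of the product is `Gcl`. -/
theorem lower_Chn (F : Fin 2 → ℤ[X]) (hF : Sys F) (hN : NoFix F) (h0 : (F 0).natDegree = 1)
    (h1 : (F 1).natDegree = 1) : ∃ c : ℝ, 0 < c ∧ Lower (∏ i, F i) 2 c (Chn F (1 / 10)) := by
  obtain ⟨a, b, ha, hab, hf0⟩ := d12_lin (hF.irr 0) (hF.lead 0) h0
  obtain ⟨a', b', ha', hab', hf1⟩ := d12_lin (hF.irr 1) (hF.lead 1) h1
  have hFF : F = F2 a a' b b' := by
    funext i
    fin_cases i
    · exact hf0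
    · exact hf1
  have hdet : (a' : ℤ) * b - a * b' ≠ 0 := by
    intro h
    have e : (a' : ℤ) * b = a * b' := by linarith
    have h2 : (a : ℤ) ∣ a' := hab.dvd_of_dvd_mul_right (by rw [e]; exact dvd_mul_right _ _)
    have h3 : (a' : ℤ) ∣ a := hab'.dvd_of_dvd_mul_right (by rw [← e]; exact dvd_mul_right _ _)
    have h4 : a = a' := Nat.dvd_antisymm (Int.natCast_dvd_natCast.mp h2) (Int.natCast_dvd_natCast.mp h3)
    have h5 : b = b' := by
      rw [← h4] at e
      have : (a : ℤ) ≠ 0 := by exact_mod_cast (by omega : a ≠ 0)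
      exact mul_left_cancel₀ this e
    have h6 : F 0 = F 1 := by rw [hf0, hf1, h4, h5]
    have := hF.inj h6
    exact absurd this (by decide)
  subst hFF
  obtain ⟨c, hc, hlow⟩ := lower_D a a' b b' hN
  refine ⟨c, hc, a + a' + ((a' : ℤ) * b - a * b').natAbs + 3, fun w hw => ?_⟩
  have hD : Dat a a' b b' w :=
    { a0 := ha
      a0' := ha'
      ab := hab
      ab' := hab'
      aw := by omega
      aw' := by omega
      w3 := by omega
      det := hdet
      detw := by
        rw [← Int.natCast_natAbs]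
        exact_mod_cast (by omega : ((a' : ℤ) * b - a * b').natAbs ≤ w) }
  obtain ⟨x0, hx0⟩ := hlow w hD
  refine ⟨x0, fun x hx v hv => hx0 x hx v ?_⟩
  rw [Fin.prod_univ_two, eval_mul] at hv
  have e0 : (F2 a a' b b' 0).eval (v : ℤ) = (a : ℤ) * v + b := by simp [F2]
  have e1 : (F2 a a' b b' 1).eval (v : ℤ) = (a' : ℤ) * v + b' := by simp [F2]
  rw [e0, e1] at hv
  exact ⟨hv.of_mul_left_left, hv.of_mul_left_right⟩

end Pool.Agent.Lib.H59W
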