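import Pool.Agent.Lib.H59W.DDefs
import Pool.Agent.Lib.H57C.V4

/-!
# Chunk D4: level of distribution of the products `m q` in a fixed residue class
-/

open Finset Polynomial

namespace Pool.Agent.Lib.H59W

open Pool.Agent.Lib.H59C (PR zz yy Tri BX wB XB lv al Rel Win gq VV sift remd DD SWp)

theorem d4_crt {R d e c : ℕ} (h : d.Coprime R) (he : e.Coprime R) (hc : c.Coprime d) :
    ∃ f : ℕ, f.Coprime (R * d) ∧
      ∀ k : ℕ, (k ≡ e [MOD R] ∧ k ≡ c [MOD d]) ↔ k ≡ f [MOD R * d] := by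
  obtain ⟨f, hf1, hf2⟩ := Nat.chineseRemainder h.symm e c
  refine ⟨f, ?_, fun k => ?_⟩
  · apply Nat.Coprime.mul_right
    · rw [Nat.Coprime, hf1.gcd_eq]
      exact he
    · rw [Nat.Coprime, hf2.gcd_eq]
      exact hc
  · rw [← Nat.modEq_and_modEq_iff_modEq_mul h.symm]
    exact ⟨fun hk => ⟨hk.1.trans hf1.symm, hk.2.trans hf2.symm⟩,
      fun hk => ⟨hk.1.trans hf1, hk.2.trans hf2⟩⟩

theorem d4_S (M u v m a : ℕ) (α : ℕ → ℝ) (p : ℕ × ℕ → Prop) [DecidablePred p]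
    (h : ∀ x : ℕ × ℕ, p x ↔ x.1 * x.2 ≡ a [MOD m]) :
    ∑ x ∈ (BX M u v).filter p, wB α x =
      ∑ k ∈ Icc 1 M, α k * ∑ q ∈ (Ioc u v).filter (fun q => q.Prime ∧ k * q ≡ a [MOD m]),
        Real.log q := by
  unfold H59C.BX
  rw [sum_filter, sum_product]
  refine sum_congr rfl fun k _ => ?_
  unfold H59C.Sq H59C.wB H59C.lg
  rw [mul_sum, ← filter_filter, sum_filter (s := (Ioc u v).filter Nat.Prime)]
  refine sum_congr rfl fun q _ => ?_
  by_cases hq : k * q ≡ a [MOD m]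
  · rw [if_pos hq, if_pos ((h (k, q)).2 hq)]
  · rw [if_neg hq, if_neg (fun h' => hq ((h (k, q)).1 h'))]

theorem d4_DD (s R B : ℕ) (hs : 1 ≤ s) : ∃ x0 : ℕ, ∀ x : ℕ, x0 ≤ x →
    R * DD x (B + 1) ≤ DD (s * x) B := by
  obtain ⟨n1, hn1⟩ := H59C.bv2_large ((R : ℝ) * 2 ^ B + 1) 0
  refine ⟨n1 + s + 2, fun x hx => ?_⟩
  obtain ⟨hL, -⟩ := hn1 x (by omega)
  have hs' : (1 : ℝ) ≤ s := by exact_mod_cast hs
  have hx1 : (1 : ℝ) ≤ x := by exact_mod_cast (by omega : 1 ≤ x)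
  have hxs : (s : ℝ) ≤ x := by exact_mod_cast (by omega : s ≤ x)
  have hx0 : (0 : ℝ) < x := by linarith
  have hR0 : (0 : ℝ) ≤ (R : ℝ) * 2 ^ B := by positivity
  have hL1 : 1 ≤ Real.log x := by linarith
  have hL2 : Real.log ((s * x : ℕ) : ℝ) ≤ 2 * Real.log x := by
    push_cast
    rw [Real.log_mul (by positivity) (by positivity)]
    have := Real.log_le_log (by linarith) hxs
    linarith
  have hL3 : Real.log x ≤ Real.log ((s * x : ℕ) : ℝ) := by
    apply Real.log_le_log hx0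
    push_cast
    nlinarith
  have hL4 : 0 < Real.log ((s * x : ℕ) : ℝ) := by linarith
  unfold H59C.DD
  apply Nat.le_floor
  push_cast
  have h1 : ((⌊Real.sqrt x / Real.log x ^ (B + 1)⌋₊ : ℕ) : ℝ) ≤
      Real.sqrt x / Real.log x ^ (B + 1) := Nat.floor_le (by positivity)
  have h2 : Real.sqrt (x : ℝ) ≤ Real.sqrt ((s : ℝ) * x) := Real.sqrt_le_sqrt (by nlinarith)
  have h0 : (0 : ℝ) ≤ Real.sqrt x := Real.sqrt_nonneg _
  push_cast at hL2 hL3 hL4
  rw [le_div_iff₀ (by positivity)]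
  calc (R : ℝ) * (⌊Real.sqrt x / Real.log x ^ (B + 1)⌋₊ : ℕ) * Real.log ((s : ℝ) * x) ^ B
      ≤ (R : ℝ) * (Real.sqrt x / Real.log x ^ (B + 1)) * (2 * Real.log x) ^ B := by
        apply mul_le_mul _ _ (by positivity) (by positivity)
        · exact mul_le_mul_of_nonneg_left h1 (Nat.cast_nonneg _)
        · exact pow_le_pow_left₀ hL4.le hL2 _
    _ = (R : ℝ) * 2 ^ B / Real.log x * Real.sqrt x := by
        rw [mul_pow, pow_succ]
        field_simp
    _ ≤ 1 * Real.sqrt x := by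
        apply mul_le_mul_of_nonneg_right _ h0
        rw [div_le_one (by linarith)]
        linarith
    _ ≤ Real.sqrt ((s : ℝ) * x) := by linarith

/-- the numerical conclusion -/
theorem d4_num (s A : ℕ) (hs : 1 ≤ s) : ∃ x0 : ℕ, ∀ x : ℕ, x0 ≤ x →
    ((s * x : ℕ) : ℝ) / Real.log ((s * x : ℕ) : ℝ) ^ (A + 1) +
      ((1 + Real.log x) * (500 * Real.log x) ^ (2 * 1)) *
        (40 * Real.log ((s * x : ℕ) : ℝ) ^ 2 *
          (((s * x : ℕ) : ℝ) / ((s * x : ℕ) : ℝ) ^ (1 / 10 : ℝ))) ≤ x / Real.log x ^ A := by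
  obtain ⟨n1, hn1⟩ := H59C.bv2_large (160 * s * 500 ^ 2 * 4) (A + 5)
  refine ⟨n1 + s + 2, fun x hx => ?_⟩
  obtain ⟨hL, hLn⟩ := hn1 x (by omega)
  have hs' : (1 : ℝ) ≤ s := by exact_mod_cast hs
  have hx1 : (1 : ℝ) ≤ x := by exact_mod_cast (by omega : 1 ≤ x)
  have hxs : (s : ℝ) ≤ x := by exact_mod_cast (by omega : s ≤ x)
  have hx0 : (0 : ℝ) < x := by linarith
  have hL1 : 1 ≤ Real.log x := by nlinarith
  have hLs : 2 * (s : ℝ) ≤ Real.log x := by nlinarith
  have hL2 : Real.log ((s * x : ℕ) : ℝ) ≤ 2 * Real.log x := by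
    push_cast
    rw [Real.log_mul (by positivity) (by positivity)]
    have := Real.log_le_log (by linarith) hxs
    linarith
  have hL3 : Real.log x ≤ Real.log ((s * x : ℕ) : ℝ) := by
    apply Real.log_le_log hx0
    push_cast
    nlinarith
  obtain ⟨L, hLd⟩ : ∃ L : ℝ, L = Real.log x := ⟨_, rfl⟩
  obtain ⟨L', hLd'⟩ : ∃ L' : ℝ, L' = Real.log ((s * x : ℕ) : ℝ) := ⟨_, rfl⟩
  obtain ⟨t, ht⟩ : ∃ t : ℝ, t = (x : ℝ) ^ (1 / 10 : ℝ) := ⟨_, rfl⟩
  obtain ⟨t', ht'⟩ : ∃ t' : ℝ, t' = ((s * x : ℕ) : ℝ) ^ (1 / 10 : ℝ) := ⟨_, rfl⟩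
  rw [← hLd] at hL hLn hL1 hLs hL2 hL3 ⊢
  rw [← hLd'] at hL2 hL3 ⊢
  rw [← ht']
  have ht0 : 0 < t := by rw [ht]; exact Real.rpow_pos_of_pos hx0 _
  have htt : t ≤ t' := by
    rw [ht, ht']
    apply Real.rpow_le_rpow hx0.le _ (by norm_num)
    push_cast
    nlinarith
  have ht0' : 0 < t' := lt_of_lt_of_le ht0 htt
  have hLt : 160 * (s : ℝ) * 500 ^ 2 * 4 * L ^ (A + 5) ≤ t := by
    refine hLn.trans ?_
    rw [ht]
    exact Real.rpow_le_rpow_of_exponent_le hx1 (by norm_num)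
  have hL0 : 0 < L := by linarith
  have hL0' : 0 < L' := by linarith
  have p1 : ((s * x : ℕ) : ℝ) / L' ^ (A + 1) ≤ x / L ^ A * (1 / 2) := by
    have q1 : ((s * x : ℕ) : ℝ) / L' ^ (A + 1) ≤ ((s * x : ℕ) : ℝ) / L ^ (A + 1) := by
      apply div_le_div_of_nonneg_left (by positivity) (by positivity)
      exact pow_le_pow_left₀ hL0.le hL3 _
    refine q1.trans ?_
    push_cast
    rw [div_le_iff₀ (by positivity)]
    have e : (x : ℝ) / L ^ A * (1 / 2) * L ^ (A + 1) = x * (L / 2) := by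
      rw [pow_succ]
      field_simp
    rw [e, mul_comm]
    apply mul_le_mul_of_nonneg_left _ hx0.le
    linarith
  have p2 : ((1 + L) * (500 * L) ^ (2 * 1)) * (40 * L' ^ 2 * (((s * x : ℕ) : ℝ) / t')) ≤
      x / L ^ A * (1 / 2) := by
    have q1 : ((s * x : ℕ) : ℝ) / t' ≤ s * x / t := by
      push_cast
      apply div_le_div_of_nonneg_left (by positivity) ht0 htt
    have q2 : L' ^ 2 ≤ 4 * L ^ 2 := by nlinarith
    have q3 : (1 + L) ≤ 2 * L := by linarith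
    calc ((1 + L) * (500 * L) ^ (2 * 1)) * (40 * L' ^ 2 * (((s * x : ℕ) : ℝ) / t'))
        ≤ ((2 * L) * (500 * L) ^ (2 * 1)) * (40 * (4 * L ^ 2) * (s * x / t)) := by
          apply mul_le_mul _ _ (by positivity) (by positivity)
          · exact mul_le_mul_of_nonneg_right q3 (by positivity)
          · apply mul_le_mul _ q1 (by positivity) (by positivity)
            linarith
      _ = (160 * (s : ℝ) * 500 ^ 2 * 4 * L ^ (A + 5)) * (x / (2 * L ^ A * t)) := by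
          rw [pow_add]
          field_simp
          ring
      _ ≤ t * (x / (2 * L ^ A * t)) := by
          apply mul_le_mul_of_nonneg_right hLt (by positivity)
      _ = x / L ^ A * (1 / 2) := by
          field_simp
  linarith

/-- Proof. (Model: `H57C.lvlC`, file `H57C/V4.lean`.) `H57C.bilw (A + 1) 1` at `n = s x` (`A', B₁`), `B = B₁ + 1`; `rr d = rr_bil (R d) + 40 (log n)^2 n^(9/10)/φ(R d)`.
For `d ≤ DD x B` and large `x`: `R d ≤ DD n B₁`. Let `f` be a natural number with `f ≡ e [MOD R]`, `f ≡ c [MOD d]` (prime to `R d`): the sum is over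
`m q ≡ f [MOD R d]`, as in `bilw` (`H57C.V4_S`-like). The main terms `XB M u u' α/φ(R d)` and `(1/φ(R d)) (∑_{(m,Rd)=1} α)(∑_{(q,Rd)=1} log q)` differ by at most
`(1/φ(R d)) 40 (log n)^2 n^(9/10)` (`H59C.CBR_A`, `CBR_Q`, `CBR_main`, `CBR_num` with `R d` in place of `d`, `R d ≤ n`). `φ(R d) = φ(R) φ(d)`. Sum over `d ≤ DD x B`:
`∑ 1/φ(R d) ≤ ∑ 1/φ(d) ≤ (1 + log x) (500 log x)^2` (`H57C.V1_w 1`). -/
theorem bil_level (s R : ℕ) (hs : 1 ≤ s) (hR : 1 ≤ R) (A : ℕ) : ∃ A' B x0 : ℕ, ∀ x : ℕ, x0 ≤ x →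
    ∀ p1 : ℕ, p1.Prime → ¬ p1 ∣ R → SWp A' (s * x) p1 → ∀ (M u u' : ℕ) (α : ℕ → ℝ),
    Cf (s * x) M u u' α → ∃ rr : ℕ → ℝ, (∀ d, 0 ≤ rr d) ∧
      (∀ d, 1 ≤ d → d ≤ DD x B → d.Coprime R → ¬ p1 ∣ d → ∀ e c : ℕ, e.Coprime R → c.Coprime d →
        |∑ y ∈ (BX M u u').filter (fun y => y.1 * y.2 ≡ e [MOD R] ∧ y.1 * y.2 ≡ c [MOD d]), wB α y -
          XB M u u' α / (Nat.totient R : ℝ) / (Nat.totient d : ℝ)| ≤ rr d) ∧
      ∑ d ∈ (Icc 1 (DD x B)).filter (fun d => d.Coprime R ∧ ¬ p1 ∣ d), rr d ≤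
        x / Real.log x ^ A := by
  classical
  obtain ⟨A', B, n1, hbil⟩ := H57C.bilw (A + 1) 1
  obtain ⟨n2, hn2⟩ := H59C.bv2_large 500 0
  obtain ⟨n3, hn3⟩ := d4_DD s R B hs
  obtain ⟨n4, hn4⟩ := d4_num s A hs
  refine ⟨A', B + 1, n1 + n2 + n3 + n4 + 8, fun x hx p1 hp1 hpR hSW M u v α hC => ?_⟩
  obtain ⟨hα, hαr, hM, hv, huv, hMv⟩ := hC
  obtain ⟨n, hn⟩ : ∃ n : ℕ, n = s * x := ⟨_, rfl⟩
  have hnx : x ≤ n := by rw [hn]; nlinarith
  have hRD := hn3 x (by omega)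
  have hnum0 := hn4 x (by omega)
  rw [← hn] at hSW hαr hM hv hMv hRD hnum0
  obtain ⟨hL, -⟩ := hn2 n (by omega)
  have hn8 : 8 ≤ n := by omega
  have hn1 : (1 : ℝ) ≤ n := by
    have : 1 ≤ n := by omega
    exact_mod_cast this
  have hn0 : (0 : ℝ) < n := by linarith
  obtain ⟨rb, hrb0, hrb, hrbs⟩ := hbil n (by omega) p1 hSW M u v α (fun m => by
    rw [abs_of_nonneg (hα m).1]; exact (hα m).2) hM hv huv hMv
  obtain ⟨D, hD⟩ : ∃ D : ℕ, D = DD n B := ⟨_, rfl⟩
  rw [← hD] at hRD hrb hrbs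
  obtain ⟨L, hLdef⟩ : ∃ L : ℝ, L = Real.log n := ⟨_, rfl⟩
  rw [← hLdef] at hL hrbs hnum0
  have hL0 : 0 < L := by linarith
  have hDn : D ≤ n := by
    have h1 : (D : ℝ) ≤ Real.sqrt n / L ^ B := by
      rw [hD, hLdef]
      unfold H59C.DD
      apply Nat.floor_le
      rw [← hLdef]
      positivity
    have h2 : Real.sqrt n / L ^ B ≤ Real.sqrt n :=
      div_le_self (Real.sqrt_nonneg _) (one_le_pow₀ (by linarith))
    have h3 : Real.sqrt n ≤ n := by
      rw [Real.sqrt_le_left (by linarith)]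
      nlinarith
    have h4 : (D : ℝ) ≤ n := by linarith
    exact_mod_cast h4
  obtain ⟨W, hW⟩ : ∃ W : ℝ, W = 40 * L ^ 2 * ((n : ℝ) / (n : ℝ) ^ (1 / 10 : ℝ)) := ⟨_, rfl⟩
  have hW0 : 0 ≤ W := by rw [hW]; positivity
  rw [← hW] at hnum0
  refine ⟨fun d => rb (R * d) + 1 / (Nat.totient (R * d) : ℝ) * W, fun m => add_nonneg (hrb0 _)
    (by positivity), ?_, ?_⟩
  · intro d hd hdD hdR hpd e c he hc
    obtain ⟨f, hf, hfk⟩ := d4_crt hdR he hc
    obtain ⟨m, hm⟩ : ∃ m : ℕ, m = R * d := ⟨_, rfl⟩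
    have hd1 : 1 ≤ m := by rw [hm]; exact Nat.mul_pos hR hd
    have hmD : m ≤ D := by
      rw [hm]
      exact (Nat.mul_le_mul_left R hdD).trans hRD
    have hmn : m ≤ n := hmD.trans hDn
    have hpm : ¬ p1 ∣ m := by
      rw [hm, hp1.dvd_mul]
      tauto
    have hphi : (Nat.totient m : ℝ) = Nat.totient R * Nat.totient d := by
      rw [hm, Nat.totient_mul hdR.symm]
      push_cast
      rfl
    rw [← hm] at hf hfk
    change _ ≤ rb (R * d) + 1 / (Nat.totient (R * d) : ℝ) * W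
    rw [← hm]
    have hb := hrb m hd1 hmD hpm f hf
    have hph : (0 : ℝ) < Nat.totient m := by exact_mod_cast Nat.totient_pos.2 hd1
    have hAd0 : 0 ≤ ∑ k ∈ (Icc 1 M).filter (fun k => k.Coprime m), α k :=
      sum_nonneg fun k _ => (hα k).1
    have hAdM : ∑ k ∈ (Icc 1 M).filter (fun k => k.Coprime m), α k ≤ M := by
      refine (sum_le_sum fun k _ => (hα k).2).trans ?_
      rw [sum_const, nsmul_eq_mul, mul_one]
      have : ((Icc 1 M).filter (fun k => k.Coprime m)).card ≤ M := by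
        refine (card_filter_le _ _).trans ?_
        simp
      exact_mod_cast this
    have hAA : 0 ≤ ∑ k ∈ Icc 1 M, α k - ∑ k ∈ (Icc 1 M).filter (fun k => k.Coprime m), α k := by
      rw [sub_nonneg]
      exact sum_le_sum_of_subset_of_nonneg (filter_subset _ _) fun k _ _ => (hα k).1
    have hAA' := H59C.CBR_A M m hd1 α hα ((n : ℝ) ^ (1 / 10 : ℝ)) (Real.rpow_pos_of_pos hn0 _) hαr
    obtain ⟨hQ1, hQ2⟩ := H59C.CBR_Q u v m hd1
    have hmain := H59C.CBR_main hAA (by convert hAA' using 2) (H59C.CBR_XX_nonneg u v)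
      (by convert hQ1 using 2) (by convert hQ2 using 2) hAd0 hAdM
    have hnum := H59C.CBR_num hn8 (by linarith) hd1 hmn hv hMv u huv
    rw [← hLdef, ← hW] at hnum
    have hm2 := hmain.trans hnum
    have hS := d4_S M u v m f α (fun y : ℕ × ℕ => y.1 * y.2 ≡ e [MOD R] ∧ y.1 * y.2 ≡ c [MOD d])
      (fun y => hfk (y.1 * y.2))
    have hprod : XB M u v α / (Nat.totient R : ℝ) / (Nat.totient d : ℝ) =
        XB M u v α / (Nat.totient m : ℝ) := by
      rw [hphi, div_div]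
    rw [hprod]
    obtain ⟨S, hSd⟩ : ∃ S : ℝ, S = ∑ k ∈ Icc 1 M, α k *
      ∑ q ∈ (Ioc u v).filter (fun q => q.Prime ∧ k * q ≡ f [MOD m]), Real.log q := ⟨_, rfl⟩
    have hS' : ∑ y ∈ (BX M u v).filter
        (fun y => y.1 * y.2 ≡ e [MOD R] ∧ y.1 * y.2 ≡ c [MOD d]), wB α y = S := by
      rw [hSd, ← hS]
    rw [hS']
    rw [← hSd] at hb
    have e1 : S - XB M u v α / (Nat.totient m : ℝ) =
        (S - 1 / (Nat.totient m : ℝ) *
          ((∑ m' ∈ (Icc 1 M).filter (fun m' => m'.Coprime m), α m') *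
            ∑ q ∈ (Ioc u v).filter (fun q => q.Prime ∧ q.Coprime m), Real.log q)) -
        1 / (Nat.totient m : ℝ) * ((∑ k ∈ Icc 1 M, α k) * H59C.XX u v -
          (∑ m' ∈ (Icc 1 M).filter (fun m' => m'.Coprime m), α m') *
            ∑ q ∈ (Ioc u v).filter (fun q => q.Prime ∧ q.Coprime m), Real.log q) := by
      unfold H59C.XB
      ring
    rw [e1]
    refine (abs_sub _ _).trans ?_
    apply add_le_add
    · exact hb
    · rw [abs_mul, abs_of_nonneg (by positivity : (0 : ℝ) ≤ 1 / (Nat.totient m : ℝ))]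
      exact mul_le_mul_of_nonneg_left hm2 (by positivity)
  · rw [sum_add_distrib]
    have e1 : ∑ d ∈ (Icc 1 (DD x (B + 1))).filter (fun d => d.Coprime R ∧ ¬ p1 ∣ d),
        rb (R * d) ≤ n / L ^ (A + 1) := by
      have h1 : ∑ d ∈ (Icc 1 (DD x (B + 1))).filter (fun d => d.Coprime R ∧ ¬ p1 ∣ d),
          rb (R * d) = ∑ m ∈ ((Icc 1 (DD x (B + 1))).filter
            (fun d => d.Coprime R ∧ ¬ p1 ∣ d)).image (fun d => R * d), rb m := by
        rw [sum_image]
        intro d1 _ d2 _ h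
        exact Nat.eq_of_mul_eq_mul_left hR h
      rw [h1]
      refine le_trans ?_ hrbs
      simp only [Nat.cast_one, one_pow, one_mul]
      apply sum_le_sum_of_subset_of_nonneg
      · intro m hm
        rw [mem_image] at hm
        obtain ⟨d, hd, rfl⟩ := hm
        rw [mem_filter, mem_Icc] at hd
        rw [mem_filter, mem_Icc]
        refine ⟨⟨Nat.mul_pos hR hd.1.1, (Nat.mul_le_mul_left R hd.1.2).trans hRD⟩, ?_⟩
        rw [hp1.dvd_mul]
        tauto
      · intro m _ _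
        exact hrb0 m
    have e2 : ∑ d ∈ (Icc 1 (DD x (B + 1))).filter (fun d => d.Coprime R ∧ ¬ p1 ∣ d),
        1 / (Nat.totient (R * d) : ℝ) * W ≤
        ((1 + Real.log x) * (500 * Real.log x) ^ (2 * 1)) * W := by
      rw [← sum_mul]
      apply mul_le_mul_of_nonneg_right _ hW0
      refine le_trans ?_ (H57C.V1_w 1 x (by omega))
      have hDx : DD x (B + 1) ≤ x := by
        have hlx : 1 ≤ Real.log x := by
          obtain ⟨h5, -⟩ := hn2 x (by omega)
          linarith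
        have hx1 : (1 : ℝ) ≤ x := by exact_mod_cast (by omega : 1 ≤ x)
        have h1 : ((DD x (B + 1) : ℕ) : ℝ) ≤ Real.sqrt x / Real.log x ^ (B + 1) := by
          unfold H59C.DD
          apply Nat.floor_le
          positivity
        have h2 : Real.sqrt x / Real.log x ^ (B + 1) ≤ Real.sqrt x :=
          div_le_self (Real.sqrt_nonneg _) (one_le_pow₀ hlx)
        have h3 : Real.sqrt x ≤ x := by
          rw [Real.sqrt_le_left (by linarith)]
          nlinarith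
        have h4 : (DD x (B + 1) : ℝ) ≤ x := by linarith
        exact_mod_cast h4
      calc ∑ d ∈ (Icc 1 (DD x (B + 1))).filter (fun d => d.Coprime R ∧ ¬ p1 ∣ d),
            1 / (Nat.totient (R * d) : ℝ)
          ≤ ∑ d ∈ (Icc 1 (DD x (B + 1))).filter (fun d => d.Coprime R ∧ ¬ p1 ∣ d),
            ((1 : ℕ) : ℝ) ^ d.primeFactors.card / (Nat.totient d : ℝ) := by
            apply sum_le_sum
            intro d hd
            rw [mem_filter, mem_Icc] at hd
            rw [Nat.cast_one, one_pow]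
            apply div_le_div_of_nonneg_left zero_le_one
            · exact_mod_cast Nat.totient_pos.2 hd.1.1
            · rw [Nat.totient_mul hd.2.1.symm]
              push_cast
              have h1 : (1 : ℝ) ≤ Nat.totient R := by exact_mod_cast Nat.totient_pos.2 hR
              have h2 : (0 : ℝ) ≤ Nat.totient d := Nat.cast_nonneg _
              nlinarith
        _ ≤ _ := by
            apply sum_le_sum_of_subset_of_nonneg
            · intro d hd
              rw [mem_filter, mem_Icc] at hd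
              rw [mem_Icc]
              exact ⟨hd.1.1, hd.1.2.trans hDx⟩
            · intro d _ _
              positivity
    exact (add_le_add e1 e2).trans hnum0

end Pool.Agent.Lib.H59W
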