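import Pool.Agent.Lib.H59W.D4

/-!
# Chunk D5: remainder terms of the switched sequence
-/

open Finset Polynomial

namespace Pool.Agent.Lib.H59W

open Pool.Agent.Lib.H59C (PR zz yy Tri BX wB XB lv al Rel Win gq VV sift remd DD SWp)

theorem d5_cop {w d k : ℕ} (hk : 1 ≤ k) (hkw : k ≤ w) (h : ∀ q ∈ d.primeFactors, w < q)
    (hd : 1 ≤ d) : d.Coprime k := by
  by_contra hc
  obtain ⟨q, hq, ha, hqm⟩ := Nat.Prime.not_coprime_iff_dvd.1 hc
  have h1 := h q (Nat.mem_primeFactors.2 ⟨hq, ha, by omega⟩)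
  have h2 := Nat.le_of_dvd hk hqm
  omega

theorem d5_copP {w d : ℕ} (h : ∀ q ∈ d.primeFactors, w < q) (hd : 1 ≤ d) :
    d.Coprime (primorial w) := by
  by_contra hc
  obtain ⟨q, hq, ha, hqm⟩ := Nat.Prime.not_coprime_iff_dvd.1 hc
  have h1 := h q (Nat.mem_primeFactors.2 ⟨hq, ha, by omega⟩)
  have h2 := hq.dvd_primorial_iff.1 hqm
  omega

/-- a natural representative -/
theorem d5_rep (d : ℕ) (hd : 1 ≤ d) (c : ℤ) : ∃ e : ℕ, (d : ℤ) ∣ (e : ℤ) - c := by
  have h1 : (0 : ℤ) ≤ c % d := Int.emod_nonneg _ (by omega)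
  refine ⟨(c % d).toNat, ?_⟩
  rw [Int.toNat_of_nonneg h1]
  exact ⟨-(c / d), by have := Int.emod_add_mul_ediv c d; linarith⟩

theorem d5_c {a : ℕ} {Δ : ℤ} {w d : ℕ} (hd : 1 ≤ d) (h : ∀ q ∈ d.primeFactors, w < q)
    (ha : d.Coprime a) (hΔ : Δ ≠ 0) (hΔw : |Δ| ≤ w) :
    ∃ c : ℕ, c.Coprime d ∧ (d : ℤ) ∣ (a : ℤ) * c + Δ := by
  obtain ⟨u, v, huv⟩ := Int.isCoprime_iff_gcd_eq_one.2
    (show Int.gcd (a : ℤ) (d : ℤ) = 1 by rw [Int.gcd_natCast_natCast]; exact ha.symm)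
  obtain ⟨c, hc⟩ := d5_rep d hd (-Δ * u)
  have hdvd : (d : ℤ) ∣ (a : ℤ) * c + Δ := by
    have e : (a : ℤ) * c + Δ = a * ((c : ℤ) - -Δ * u) + d * (Δ * v) := by
      have : Δ = Δ * (u * a + v * d) := by rw [huv, mul_one]
      linear_combination this
    rw [e]
    exact dvd_add (hc.mul_left _) (dvd_mul_right _ _)
  refine ⟨c, ?_, hdvd⟩
  by_contra hcc
  obtain ⟨q, hq, hqc, hqd⟩ := Nat.Prime.not_coprime_iff_dvd.1 hcc
  have h1 := h q (Nat.mem_primeFactors.2 ⟨hq, hqd, by omega⟩)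
  have h2 : (q : ℤ) ∣ Δ := by
    have h3 : (q : ℤ) ∣ (a : ℤ) * c + Δ := (Int.natCast_dvd_natCast.2 hqd).trans hdvd
    have h4 : (q : ℤ) ∣ (a : ℤ) * c := (Int.natCast_dvd_natCast.2 hqc).mul_left _
    exact (dvd_add_right h4).1 h3
  have h5 := Int.le_of_dvd (abs_pos.2 hΔ) ((dvd_abs _ _).2 h2)
  omega

theorem d5_iff {a a' : ℕ} {b b' : ℤ} {w : ℕ} (h : Dat a a' b b' w) (d : ℕ) (hda : d.Coprime a)
    (hda' : d.Coprime a') (c : ℕ) (hc : (d : ℤ) ∣ (a : ℤ) * c + ((a' : ℤ) * b - a * b'))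
    (y : ℕ × ℕ) (hy : w ≤ y.1 * y.2) (hk : (a' : ℤ) ∣ ((y.1 * y.2 : ℕ) : ℤ) - b') :
    d ∣ bbd a a' b b' y ↔ y.1 * y.2 ≡ c [MOD d] := by
  unfold bbd
  have hk1 : ((y.1 * y.2 : ℕ) : ℤ) = (y.1 : ℤ) * y.2 := by push_cast; rfl
  obtain ⟨k, hkd⟩ : ∃ k : ℕ, k = y.1 * y.2 := ⟨_, rfl⟩
  rw [← hk1, ← hkd]
  rw [← hkd] at hy hk
  have h1 : (a' : ℤ) ∣ (a : ℤ) * k + ((a' : ℤ) * b - a * b') := by
    have e : (a : ℤ) * k + ((a' : ℤ) * b - a * b') = a * ((k : ℤ) - b') + a' * b := by ring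
    rw [e]
    exact dvd_add (hk.mul_left _) (dvd_mul_right _ _)
  obtain ⟨t, ht⟩ := h1
  have ha'0 : (0 : ℤ) < a' := by exact_mod_cast h.a0'
  have ha0 : (1 : ℤ) ≤ a := by exact_mod_cast h.a0
  rw [ht, Int.mul_ediv_cancel_left _ ha'0.ne']
  have ht0 : 0 ≤ t := by
    have h2 : 0 ≤ (a' : ℤ) * t := by
      rw [← ht]
      have h3 := (abs_le.1 h.detw).1
      have h4 : (w : ℤ) ≤ k := by exact_mod_cast hy
      have h5 : (k : ℤ) ≤ a * k := by nlinarith
      linarith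
    exact nonneg_of_mul_nonneg_right h2 ha'0
  obtain ⟨t', rfl⟩ := Int.eq_ofNat_of_zero_le ht0
  rw [Int.toNat_natCast]
  have hIa : IsCoprime (d : ℤ) (a : ℤ) := Nat.isCoprime_iff_coprime.2 hda
  have hIa' : IsCoprime (d : ℤ) (a' : ℤ) := Nat.isCoprime_iff_coprime.2 hda'
  rw [Nat.modEq_iff_dvd, ← Int.natCast_dvd_natCast]
  constructor
  · intro h2
    have h3 : (d : ℤ) ∣ (a' : ℤ) * t' := h2.mul_left _
    rw [← ht] at h3
    have h4 : (d : ℤ) ∣ (a : ℤ) * ((c : ℤ) - k) := by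
      have e : (a : ℤ) * ((c : ℤ) - k) = ((a : ℤ) * c + ((a' : ℤ) * b - a * b')) -
        ((a : ℤ) * k + ((a' : ℤ) * b - a * b')) := by ring
      rw [e]
      exact dvd_sub hc h3
    exact hIa.dvd_of_dvd_mul_left h4
  · intro h2
    have h3 : (d : ℤ) ∣ (a' : ℤ) * t' := by
      rw [← ht]
      have e : (a : ℤ) * k + ((a' : ℤ) * b - a * b') =
        ((a : ℤ) * c + ((a' : ℤ) * b - a * b')) - (a : ℤ) * ((c : ℤ) - k) := by ring
      rw [e]
      exact dvd_sub hc (h2.mul_left _)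
    exact hIa'.dvd_of_dvd_mul_left h3

theorem d5_DD (a' B : ℕ) (h : 1 ≤ a') : ∃ x0 : ℕ, ∀ x : ℕ, x0 ≤ x →
    DD (ms a' x) (B + 1) ≤ DD x B := by
  obtain ⟨n1, hn1⟩ := H59C.bv2_large (2 * a') 0
  refine ⟨n1 + 2, fun x hx => ?_⟩
  obtain ⟨hL, -⟩ := hn1 x (by omega)
  have ha' : (1 : ℝ) ≤ a' := by exact_mod_cast h
  have hx1 : (1 : ℝ) ≤ x := by exact_mod_cast (by omega : 1 ≤ x)
  have hx0 : (0 : ℝ) < x := by linarith
  have hL1 : 1 ≤ Real.log x := by linarith
  have hL3 : Real.log x ≤ Real.log ((ms a' x : ℕ) : ℝ) := by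
    apply Real.log_le_log hx0
    unfold ms
    push_cast
    nlinarith
  have hL4 : 0 < Real.log ((ms a' x : ℕ) : ℝ) := by linarith
  unfold H59C.DD
  apply Nat.floor_le_floor
  have h1 : Real.sqrt ((ms a' x : ℕ) : ℝ) ≤ 2 * a' * Real.sqrt x := by
    rw [Real.sqrt_le_left (by positivity)]
    unfold ms
    rw [mul_pow, Real.sq_sqrt hx0.le]
    push_cast
    apply mul_le_mul_of_nonneg_right _ hx0.le
    nlinarith
  rw [div_le_div_iff₀ (by positivity) (by positivity)]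
  have h2 : Real.log x ^ (B + 1) ≤ Real.log ((ms a' x : ℕ) : ℝ) ^ (B + 1) :=
    pow_le_pow_left₀ (by linarith) hL3 _
  calc Real.sqrt ((ms a' x : ℕ) : ℝ) * Real.log x ^ B
      ≤ (2 * a' * Real.sqrt x) * Real.log x ^ B := mul_le_mul_of_nonneg_right h1 (by positivity)
    _ ≤ (Real.log x * Real.sqrt x) * Real.log x ^ B := by
        apply mul_le_mul_of_nonneg_right _ (by positivity)
        exact mul_le_mul_of_nonneg_right hL (Real.sqrt_nonneg _)
    _ = Real.sqrt x * Real.log x ^ (B + 1) := by ring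
    _ ≤ _ := mul_le_mul_of_nonneg_left h2 (Real.sqrt_nonneg _)

open Classical in
/-- the pairs with a small product -/
theorem d5_small (w M u u' : ℕ) (α : ℕ → ℝ) (hα : ∀ m, 0 ≤ α m ∧ α m ≤ 1) :
    ∑ y ∈ (BX M u u').filter (fun y => y.1 * y.2 < w), wB α y ≤ (w : ℝ) ^ 3 := by
  have h1 : (BX M u u').filter (fun y => y.1 * y.2 < w) ⊆
      (range w ×ˢ range w).filter (fun y => y.1 * y.2 < w ∧ 1 ≤ y.2) := by
    intro y hy
    rw [mem_filter] at hy
    obtain ⟨hy, hyw⟩ := hy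
    unfold H59C.BX at hy
    rw [mem_product, H59C.mem_Sq, mem_Icc] at hy
    have h2 := hy.2.2.two_le
    have h3 := hy.1.1
    rw [mem_filter, mem_product, mem_range, mem_range]
    refine ⟨⟨?_, ?_⟩, hyw, by omega⟩
    · nlinarith
    · nlinarith
  have hnn : ∀ y : ℕ × ℕ, 0 ≤ wB α y := by
    intro y
    unfold H59C.wB H59C.lg
    exact mul_nonneg (hα _).1 (Real.log_natCast_nonneg _)
  calc ∑ y ∈ (BX M u u').filter (fun y => y.1 * y.2 < w), wB α y
      ≤ ∑ y ∈ (range w ×ˢ range w).filter (fun y => y.1 * y.2 < w ∧ 1 ≤ y.2), wB α y :=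
        sum_le_sum_of_subset_of_nonneg h1 fun y _ _ => hnn y
    _ ≤ ∑ y ∈ (range w ×ˢ range w).filter (fun y => y.1 * y.2 < w ∧ 1 ≤ y.2), (w : ℝ) := by
        apply sum_le_sum
        intro y hy
        rw [mem_filter, mem_product, mem_range, mem_range] at hy
        unfold H59C.wB H59C.lg
        have h3 : Real.log y.2 ≤ w := by
          have h4 : (0 : ℝ) < y.2 := by exact_mod_cast (by omega : 0 < y.2)
          have h5 := Real.log_le_sub_one_of_pos h4
          have h6 : (y.2 : ℝ) ≤ w := by exact_mod_cast hy.1.2.le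
          linarith
        have h7 := Real.log_natCast_nonneg y.2
        have h8 := hα y.1
        nlinarith
    _ ≤ ∑ y ∈ (range w ×ˢ range w), (w : ℝ) := by
        apply sum_le_sum_of_subset_of_nonneg (filter_subset _ _)
        intro _ _ _
        exact Nat.cast_nonneg _
    _ = (w : ℝ) ^ 3 := by
        rw [sum_const, card_product, card_range, nsmul_eq_mul]
        push_cast
        ring

theorem d5_diff {ι : Type} (S : Finset ι) (f : ι → ℝ) (hf : ∀ y ∈ S, 0 ≤ f y) (p q r : ι → Prop)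
    [DecidablePred p] [DecidablePred q] [DecidablePred r]
    (h : ∀ y ∈ S, ¬ r y → (p y ↔ q y)) :
    |∑ y ∈ S.filter p, f y - ∑ y ∈ S.filter q, f y| ≤ ∑ y ∈ S.filter r, f y := by
  rw [sum_filter, sum_filter, sum_filter, ← sum_sub_distrib]
  refine (abs_sum_le_sum_abs _ _).trans (sum_le_sum fun y hy => ?_)
  have h0 := hf y hy
  by_cases hr : r y
  · rw [if_pos hr]
    split_ifs
    · simpa using h0
    · simp [abs_of_nonneg h0]
    · simp [abs_of_nonneg h0]
    · simpa using h0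
  · rw [if_neg hr]
    by_cases hp : p y
    · rw [if_pos hp, if_pos ((h y hy hr).1 hp)]
      simp
    · rw [if_neg hp, if_neg (fun hq => hp ((h y hy hr).2 hq))]
      simp

/-- Proof. `bil_level` with `s = 2 a a'`, `R = a' P`, `P = primorial w`: `A', B₁`, `B = B₁ + 1`, `DD (ms a' x) B ≤ DD x B₁` for large `x`. The `d` in `remd` are
squarefree with prime factors in `Pd`, so coprime to `R` and `a`, and `p1 ∤ d`. `Δ = a' b - a b'`. For `y = (m, q) ∈ BXr`, `k = m q`, one has `k ≡ b' [ZMOD a']`, so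
`a' ∣ a k + Δ`; if `k ≥ w ≥ |Δ|` then `a k + Δ ≥ 0` and `d ∣ bbd y` iff `a k ≡ -Δ` modulo `d` (`(a', d) = 1`). Let `c` be a natural number with
`a c ≡ -Δ [ZMOD d]`; it is prime to `d` as `0 < |Δ| ≤ w`; let `e ≥ 0` be natural with `e ≡ a' v + b' [ZMOD R]`, prime to `R` (`Gcl`, `(a', b') = 1`). So the sum over the
`y ∈ BXr`, `d ∣ bbd y`, is that of `bil_level` (`k ≡ e [MOD R]`, `k ≡ c [MOD d]`) up to pairs with `k < w`: there are at most `w^2` of them, with weights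
`wB ≤ log w`, so for all `d ≤ DD (ms a' x) B ≤ √m` together at most `w^2 log w √m ≤ x/(2 (log x)^A)` for large `x`. -/
theorem rem_box_D {a a' : ℕ} {b b' : ℤ} {w : ℕ} (h : Dat a a' b b' w) (A : ℕ) : ∃ A' B x0 : ℕ,
    ∀ x : ℕ, x0 ≤ x → ∀ p1 : ℕ, p1.Prime → w < p1 → SWp A' (2 * a * a' * x) p1 → ∀ v : ℕ,
    Gcl a a' b b' w v → ∀ (M u u' : ℕ) (α : ℕ → ℝ), Cf (2 * a * a' * x) M u u' α → ∀ z : ℝ,
    remd (BXr a' b' w v M u u') (wB α) (bbd a a' b b') (Pd w p1 (ms a' x)) z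
      (XB M u u' α / (Nat.totient (a' * primorial w) : ℝ)) (DD (ms a' x) B) ≤
      x / Real.log x ^ A := by
  classical
  have hP := primorial_pos w
  have ha0 := h.a0
  have ha0' := h.a0'
  have hR1 : 1 ≤ a' * primorial w := Nat.mul_pos ha0' hP
  have hs1 : 1 ≤ 2 * a * a' := by
    have := Nat.mul_pos ha0 ha0'
    nlinarith
  obtain ⟨A', B, n1, hlev⟩ := bil_level (2 * a * a') (a' * primorial w) hs1 hR1 (A + 1)
  obtain ⟨n2, hn2⟩ := d5_DD a' B ha0'
  obtain ⟨n3, hn3⟩ := H59C.bv2_large (2 * (w : ℝ) ^ 3 + 2) A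
  refine ⟨A', B + 1, n1 + n2 + n3 + 8, fun x hx p1 hp1 hwp hSW v hG M u u' α hC z => ?_⟩
  have hDD := hn2 x (by omega)
  obtain ⟨hL, hLn⟩ := hn3 x (by omega)
  have hw0 : (0 : ℝ) ≤ (w : ℝ) ^ 3 := by positivity
  have hL2 : 2 ≤ Real.log x := by linarith
  have hx1 : (1 : ℝ) ≤ x := by exact_mod_cast (by omega : 1 ≤ x)
  have hpR : ¬ p1 ∣ a' * primorial w := by
    rw [hp1.dvd_mul, hp1.dvd_primorial_iff]
    rintro (h1 | h1)
    · have := Nat.le_of_dvd ha0' h1
      have := h.aw'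
      omega
    · omega
  obtain ⟨rr, hrr0, hrr, hrrs⟩ := hlev x (by omega) p1 hp1 hpR hSW M u u' α hC
  obtain ⟨e, he⟩ := d5_rep (a' * primorial w) hR1 ((a' : ℤ) * v + b')
  have heR : e.Coprime (a' * primorial w) := by
    have h1 : IsCoprime (e : ℤ) ((a' * primorial w : ℕ) : ℤ) := by
      obtain ⟨t, ht⟩ := he
      have e1 : (e : ℤ) = ((a' : ℤ) * v + b') + ((a' * primorial w : ℕ) : ℤ) * t := by linarith
      rw [e1]
      apply IsCoprime.add_mul_left_left
      push_cast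
      apply IsCoprime.mul_right
      · have h2 : IsCoprime (b' + (a' : ℤ) * v) (a' : ℤ) :=
          IsCoprime.add_mul_left_left h.ab'.symm _
        rw [add_comm]
        exact h2
      · exact hG.2
    exact Nat.isCoprime_iff_coprime.1 h1
  have hα := hC.al01
  have hsub : (Icc 1 (DD (ms a' x) (B + 1))).filter
      (fun d => Squarefree d ∧ ∀ q ∈ d.primeFactors, q ∈ Pd w p1 (ms a' x) ∧ (q : ℝ) < z) ⊆
      (Icc 1 (DD x B)).filter (fun d => d.Coprime (a' * primorial w) ∧ ¬ p1 ∣ d) := by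
    intro d hd
    rw [mem_filter, mem_Icc] at hd
    obtain ⟨⟨hd1, hdD⟩, hsq, hq⟩ := hd
    have hqw : ∀ q ∈ d.primeFactors, w < q := by
      intro q hq'
      have := (hq q hq').1
      unfold Pd at this
      rw [mem_filter, mem_Ioc] at this
      exact this.1.1
    rw [mem_filter, mem_Icc]
    refine ⟨⟨hd1, hdD.trans hDD⟩, ?_, ?_⟩
    · exact Nat.Coprime.mul_right (d5_cop ha0' h.aw' hqw hd1) (d5_copP hqw hd1)
    · intro hpd
      have := (hq p1 (Nat.mem_primeFactors.2 ⟨hp1, hpd, by omega⟩)).1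
      unfold Pd at this
      rw [mem_filter] at this
      exact this.2.2 rfl
  have hone : ∀ d ∈ (Icc 1 (DD (ms a' x) (B + 1))).filter
      (fun d => Squarefree d ∧ ∀ q ∈ d.primeFactors, q ∈ Pd w p1 (ms a' x) ∧ (q : ℝ) < z),
      |∑ y ∈ (BXr a' b' w v M u u').filter (fun y => d ∣ bbd a a' b b' y), wB α y -
        XB M u u' α / (Nat.totient (a' * primorial w) : ℝ) / (Nat.totient d : ℝ)| ≤
      rr d + (w : ℝ) ^ 3 := by
    intro d hd
    have hd2 := hsub hd
    rw [mem_filter, mem_Icc] at hd hd2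
    obtain ⟨⟨hd1, hdD⟩, hsq, hq⟩ := hd
    have hqw : ∀ q ∈ d.primeFactors, w < q := by
      intro q hq'
      have := (hq q hq').1
      unfold Pd at this
      rw [mem_filter, mem_Ioc] at this
      exact this.1.1
    have hda := d5_cop ha0 h.aw hqw hd1
    have hda' := d5_cop ha0' h.aw' hqw hd1
    obtain ⟨c, hcd, hc⟩ := d5_c hd1 hqw hda h.det h.detw
    have hb := hrr d hd1 hd2.1.2 hd2.2.1 hd2.2.2 e c heR hcd
    have hBXr : (BXr a' b' w v M u u').filter (fun y => d ∣ bbd a a' b b' y) =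
        (BX M u u').filter (fun y => ((y.1 * y.2 : ℕ) : ℤ) ≡ (a' : ℤ) * v + b'
          [ZMOD (a' * primorial w : ℕ)] ∧ d ∣ bbd a a' b b' y) := by
      unfold BXr
      rw [filter_filter]
    have hdiff := d5_diff (BX M u u') (wB α) (fun y _ => by
      unfold H59C.wB H59C.lg
      exact mul_nonneg (hα _).1 (Real.log_natCast_nonneg _))
      (fun y => ((y.1 * y.2 : ℕ) : ℤ) ≡ (a' : ℤ) * v + b'
          [ZMOD (a' * primorial w : ℕ)] ∧ d ∣ bbd a a' b b' y)
      (fun y => y.1 * y.2 ≡ e [MOD (a' * primorial w)] ∧ y.1 * y.2 ≡ c [MOD d])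
      (fun y => y.1 * y.2 < w) (by
        intro y _ hyw
        push Not at hyw
        have hE : ((y.1 * y.2 : ℕ) : ℤ) ≡ (a' : ℤ) * v + b' [ZMOD (a' * primorial w : ℕ)] ↔
            y.1 * y.2 ≡ e [MOD (a' * primorial w)] := by
          rw [Int.modEq_iff_dvd, Nat.modEq_iff_dvd]
          constructor
          · intro h1
            have := dvd_add he h1
            have e2 : (e : ℤ) - ((a' : ℤ) * v + b') + ((a' : ℤ) * v + b' -
              ((y.1 * y.2 : ℕ) : ℤ)) = e - ((y.1 * y.2 : ℕ) : ℤ) := by ring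
            rwa [e2] at this
          · intro h1
            have := dvd_sub h1 he
            have e2 : (e : ℤ) - ((y.1 * y.2 : ℕ) : ℤ) - ((e : ℤ) - ((a' : ℤ) * v + b')) =
              (a' : ℤ) * v + b' - ((y.1 * y.2 : ℕ) : ℤ) := by ring
            rwa [e2] at this
        rw [hE]
        apply and_congr_right
        intro h1
        apply d5_iff h d hda hda' c hc y hyw
        have h2 := hE.2 h1
        rw [Int.modEq_iff_dvd] at h2
        have h3 : (a' : ℤ) ∣ ((a' * primorial w : ℕ) : ℤ) := by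
          push_cast
          exact dvd_mul_right _ _
        have h4 := h3.trans h2
        have e2 : ((y.1 * y.2 : ℕ) : ℤ) - b' = (a' : ℤ) * v -
          ((a' : ℤ) * v + b' - ((y.1 * y.2 : ℕ) : ℤ)) := by ring
        rw [e2]
        exact dvd_sub (dvd_mul_right _ _) h4)
    have hsm := d5_small w M u u' α hα
    rw [hBXr]
    have htri := abs_sub_le (∑ y ∈ (BX M u u').filter (fun y => ((y.1 * y.2 : ℕ) : ℤ) ≡
        (a' : ℤ) * v + b' [ZMOD (a' * primorial w : ℕ)] ∧ d ∣ bbd a a' b b' y), wB α y)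
      (∑ y ∈ (BX M u u').filter (fun y => y.1 * y.2 ≡ e [MOD (a' * primorial w)] ∧
        y.1 * y.2 ≡ c [MOD d]), wB α y)
      (XB M u u' α / (Nat.totient (a' * primorial w) : ℝ) / (Nat.totient d : ℝ))
    refine htri.trans ?_
    have hb' : |∑ y ∈ (BX M u u').filter (fun y => y.1 * y.2 ≡ e [MOD (a' * primorial w)] ∧
        y.1 * y.2 ≡ c [MOD d]), wB α y -
      XB M u u' α / (Nat.totient (a' * primorial w) : ℝ) / (Nat.totient d : ℝ)| ≤ rr d := by
      refine le_trans (le_of_eq ?_) hb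
      congr 2
    linarith [hdiff.trans hsm]
  unfold H59C.remd
  rw [Nat.floor_natCast]
  have hx0 : (0 : ℝ) < x := by linarith
  have hDx : ((DD x B : ℕ) : ℝ) ≤ Real.sqrt x := by
    have h1 : ((DD x B : ℕ) : ℝ) ≤ Real.sqrt x / Real.log x ^ B := by
      unfold H59C.DD
      apply Nat.floor_le
      positivity
    exact h1.trans (div_le_self (Real.sqrt_nonneg _) (one_le_pow₀ (by linarith)))
  have hfin1 : (x : ℝ) / Real.log x ^ (A + 1) ≤ x / Real.log x ^ A * (1 / 2) := by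
    rw [div_le_iff₀ (by positivity)]
    have e : (x : ℝ) / Real.log x ^ A * (1 / 2) * Real.log x ^ (A + 1) = x * (Real.log x / 2) := by
      rw [pow_succ]
      field_simp
    rw [e]
    nlinarith
  have hfin2 : Real.sqrt x * (w : ℝ) ^ 3 ≤ x / Real.log x ^ A * (1 / 2) := by
    have h1 : (2 * (w : ℝ) ^ 3) * Real.log x ^ A ≤ Real.sqrt x := by
      have h2 : (2 * (w : ℝ) ^ 3) * Real.log x ^ A ≤ (2 * (w : ℝ) ^ 3 + 2) * Real.log x ^ A := by
        apply mul_le_mul_of_nonneg_right (by linarith) (by positivity)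
      refine h2.trans (hLn.trans ?_)
      rw [Real.sqrt_eq_rpow]
      exact Real.rpow_le_rpow_of_exponent_le hx1 (by norm_num)
    have h3 : Real.sqrt x * Real.sqrt x = x := Real.mul_self_sqrt hx0.le
    have e : (x : ℝ) / Real.log x ^ A * (1 / 2) = x / (2 * Real.log x ^ A) := by
      field_simp
    rw [e, le_div_iff₀ (by positivity)]
    calc Real.sqrt x * (w : ℝ) ^ 3 * (2 * Real.log x ^ A)
        = Real.sqrt x * ((2 * (w : ℝ) ^ 3) * Real.log x ^ A) := by ring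
      _ ≤ Real.sqrt x * Real.sqrt x := mul_le_mul_of_nonneg_left h1 (Real.sqrt_nonneg _)
      _ = x := h3
  calc _ ≤ ∑ d ∈ (Icc 1 (DD (ms a' x) (B + 1))).filter
            (fun d => Squarefree d ∧ ∀ q ∈ d.primeFactors, q ∈ Pd w p1 (ms a' x) ∧ (q : ℝ) < z),
              (rr d + (w : ℝ) ^ 3) := by
        refine sum_le_sum fun d hd => ?_
        refine le_trans (le_of_eq ?_) (hone d hd)
        congr 2
    _ ≤ ∑ d ∈ (Icc 1 (DD x B)).filter (fun d => d.Coprime (a' * primorial w) ∧ ¬ p1 ∣ d),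
        (rr d + (w : ℝ) ^ 3) := by
        apply sum_le_sum_of_subset_of_nonneg hsub
        intro d _ _
        exact add_nonneg (hrr0 d) hw0
    _ = ∑ d ∈ (Icc 1 (DD x B)).filter (fun d => d.Coprime (a' * primorial w) ∧ ¬ p1 ∣ d), rr d +
        ((Icc 1 (DD x B)).filter (fun d => d.Coprime (a' * primorial w) ∧ ¬ p1 ∣ d)).card *
          (w : ℝ) ^ 3 := by
        rw [sum_add_distrib, sum_const, nsmul_eq_mul]
    _ ≤ x / Real.log x ^ (A + 1) + Real.sqrt x * (w : ℝ) ^ 3 := by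
        apply add_le_add
        · refine le_trans (le_of_eq ?_) hrrs
          exact sum_congr (filter_congr fun _ _ => Iff.rfl) fun _ _ => rfl
        · apply mul_le_mul_of_nonneg_right _ hw0
          refine le_trans ?_ hDx
          have h1 : ((Icc 1 (DD x B)).filter
            (fun d => d.Coprime (a' * primorial w) ∧ ¬ p1 ∣ d)).card ≤ DD x B := by
            refine (card_filter_le _ _).trans ?_
            simp
          exact_mod_cast h1
    _ ≤ x / Real.log x ^ A * (1 / 2) + x / Real.log x ^ A * (1 / 2) := add_le_add hfin1 hfin2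
    _ = x / Real.log x ^ A := by ring

end Pool.Agent.Lib.H59W
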