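import Pool.Agent.Lib.H59W.DDefs
import Pool.Agent.Lib.H59C.CCV
import Pool.Agent.Lib.H59C.CRP

/-!
# Chunk D7A: windows and boxes
-/

open Finset Polynomial

namespace Pool.Agent.Lib.H59W

open Pool.Agent.Lib.H59C (PR zz yy Tri BX wB XB lv al Rel Win gq VV sift remd DD SWp)

/-- The values of the second form, for large arguments. -/
theorem d7a_f2 (a' : ℕ) (b' : ℤ) (ha' : 1 ≤ a') (n : ℕ) (hn : b'.natAbs ≤ n) :
    ((f2 a' b' n : ℕ) : ℤ) = ((a' * n : ℕ) : ℤ) + b' := by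
  unfold f2
  have h1 : n ≤ a' * n := Nat.le_mul_of_pos_left n ha'
  have h2 : ((a' * n : ℕ) : ℤ) = (a' : ℤ) * n := by push_cast; ring
  rw [← h2]
  omega

/-- `Rl` belongs to a window of `Lib/H59C` (`N = 2`, to the left of the window).

Proof. `m = 2 a' x`, `k1 = f2 (x/2) ≥ a' (x - 1)/2 + b'`, `k2 = f2 x = a' x + b'`; all inequalities hold for large `x`: `k2 + 2 ≤ m`,
`k2 - k1 = a' (x - x/2) ≥ m/4`, `m ≤ 16 (k1 + 2)`, `m ≤ 8 k1`. -/
theorem win_D (a' : ℕ) (b' : ℤ) (ha' : 1 ≤ a') : ∃ x0 : ℕ, ∀ x : ℕ, x0 ≤ x →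
    Win (ms a' x) 2 (f2 a' b' (x / 2) + 2) (f2 a' b' x + 2) ∧
    ((f2 a' b' x + 2 : ℕ) : ℝ) - ((f2 a' b' (x / 2) + 2 : ℕ) : ℝ) ≤ a' * ((x : ℝ) / 2 + 1) := by
  refine ⟨16 * b'.natAbs + 100, fun x hx => ?_⟩
  obtain ⟨h, hh⟩ : ∃ h : ℕ, h = x / 2 := ⟨_, rfl⟩
  obtain ⟨r, hr⟩ : ∃ r : ℕ, r = x % 2 := ⟨_, rfl⟩
  have hxr : x = 2 * h + r := by omega
  have hr2 : r < 2 := by omega
  have e1 := d7a_f2 a' b' ha' x (by omega)
  have e2 := d7a_f2 a' b' ha' h (by omega)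
  rw [← hh]
  have p1 : h ≤ a' * h := Nat.le_mul_of_pos_left h ha'
  have p2 : a' * x = 2 * (a' * h) + a' * r := by rw [hxr]; ring
  have p3 : a' * r ≤ a' := by
    rcases (by omega : r = 0 ∨ r = 1) with h0 | h0 <;> simp [h0]
  have p4 : a' * 50 ≤ a' * h := Nat.mul_le_mul_left _ (by omega)
  have p5 : a' * (8 * b'.natAbs) ≤ a' * h := Nat.mul_le_mul_left _ (by omega)
  have p6 : b'.natAbs ≤ a' * b'.natAbs := Nat.le_mul_of_pos_left _ ha'
  have p7 : a' * (8 * b'.natAbs) = 8 * (a' * b'.natAbs) := by ring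
  have hms : ms a' x = 2 * (a' * x) := by unfold ms; ring
  have q1 : h * 1 ≤ h * a' := Nat.mul_le_mul_left _ ha'
  constructor
  · constructor
    · norm_num
    · exact dvd_refl 2
    · rw [hms]; omega
    · omega
    · rw [hms]; omega
    · rw [hms]; omega
    · rw [hms]; omega
    · right
      rw [hms]
      constructor
      · omega
      · omega
  · have h3 : ((f2 a' b' x + 2 : ℕ) : ℝ) - ((f2 a' b' h + 2 : ℕ) : ℝ) =
        (a' : ℝ) * (h + r : ℕ) := by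
      have h4 : ((f2 a' b' x + 2 : ℕ) : ℤ) - ((f2 a' b' h + 2 : ℕ) : ℤ) =
          ((a' * (h + r) : ℕ) : ℤ) := by
        have h5 : a' * (h + r) = a' * h + a' * r := by ring
        rw [h5]
        push_cast
        push_cast at e1 e2
        rw [e1, e2]
        have h6 : (a' : ℤ) * x = 2 * (a' * h) + a' * r := by exact_mod_cast p2
        rw [h6]
        ring
      have h7 : (((f2 a' b' x + 2 : ℕ) : ℤ) : ℝ) - (((f2 a' b' h + 2 : ℕ) : ℤ) : ℝ) =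
          (((a' * (h + r) : ℕ) : ℤ) : ℝ) := by exact_mod_cast congrArg (Int.cast (R := ℝ)) h4
      simp only [Int.cast_natCast] at h7
      rw [h7]
      push_cast
      ring
    rw [h3]
    apply mul_le_mul_of_nonneg_left _ (Nat.cast_nonneg _)
    have h8 : (x : ℝ) = 2 * h + r := by exact_mod_cast hxr
    have h9 : (r : ℝ) ≤ 1 := by exact_mod_cast (by omega : r ≤ 1)
    have h10 : (0 : ℝ) ≤ r := Nat.cast_nonneg _
    rw [h8]
    push_cast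
    linarith

/-- The boxes satisfy the hypotheses of the sieve.

Proof. `H59C.rel_par` (with `win_D`) gives the bound for `M u'` (`8 m ≤ 8 · 2 a a' x`), `u ≤ u'`, `0 ≤ al ≤ 1`; the sizes: as in its proof (`H59C.CRP_box`), a relevant box contains
`m₁ = q1 q2 ≥ m^(1/8) (2m)^(1/3)` and `q ≥ (2m)^(1/3)`, so `lv (i+1) ≥ m^(11/24)`, `lv (j + 1) ≥ m^(1/3)`, both `≥ (a m)^(1/4)` for large `x`; the prime
factors of an `m₁` with `al ≠ 0` are `≥ zz m = m^(1/8) ≥ (a m)^(1/10)` for large `x`. -/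
theorem box_Cf (a a' : ℕ) (b' : ℤ) (ha : 1 ≤ a) (ha' : 1 ≤ a') (δ : ℝ) (hδ : 0 < δ)
    (hδ1 : δ ≤ 1 / 100) : ∃ x0 : ℕ, ∀ x : ℕ, x0 ≤ x → ∀ y ∈ Rl a' b' x δ,
      Cf (2 * a * a' * x) (lv δ (y.1 + 1)) (lv δ y.2) (lv δ (y.2 + 1)) (al (ms a' x) δ y) := by
  obtain ⟨x1, hx1⟩ := win_D a' b' ha'
  refine ⟨x1 + 2 ^ 24 + a ^ 4, fun x hx y hy => ?_⟩
  obtain ⟨W, -⟩ := hx1 x (by omega)
  obtain ⟨m, hm⟩ : ∃ m : ℕ, m = ms a' x := ⟨_, rfl⟩
  have hmx : x ≤ m := by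
    rw [hm]
    unfold ms
    have h1 : x ≤ a' * x := Nat.le_mul_of_pos_left x ha'
    have h2 : 2 * a' * x = 2 * (a' * x) := by ring
    omega
  have hm24 : 2 ^ 24 ≤ m := by omega
  have hma : a ^ 4 ≤ m := by omega
  have hm1 : 1 ≤ m := by omega
  have hmr : (1 : ℝ) ≤ m := by exact_mod_cast hm1
  have hnm : 2 * a * a' * x = a * m := by rw [hm]; unfold ms; ring
  rw [← hm] at W ⊢
  unfold Rl at hy
  rw [← hm] at hy
  obtain ⟨-, c2, -, c4, c5⟩ := H59C.CRP_box hδ hδ1 hm24 W hy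
  -- sizes
  have ha1 : (1 : ℝ) ≤ a := by exact_mod_cast ha
  have ha4 : (a : ℝ) ≤ (m : ℝ) ^ (1 / 4 : ℝ) := by
    have h1 : ((a : ℝ) ^ (4 : ℕ)) ^ (1 / 4 : ℝ) ≤ (m : ℝ) ^ (1 / 4 : ℝ) :=
      Real.rpow_le_rpow (by positivity) (by exact_mod_cast hma) (by norm_num)
    have h2 : ((a : ℝ) ^ (4 : ℕ)) ^ (1 / 4 : ℝ) = a := by
      rw [← Real.rpow_natCast, ← Real.rpow_mul (by linarith)]
      norm_num
    rwa [h2] at h1
  have ham : ((a * m : ℕ) : ℝ) ≤ (m : ℝ) ^ (5 / 4 : ℝ) := by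
    push_cast
    calc (a : ℝ) * m ≤ (m : ℝ) ^ (1 / 4 : ℝ) * m :=
          mul_le_mul_of_nonneg_right ha4 (by linarith)
      _ = (m : ℝ) ^ (1 / 4 : ℝ) * (m : ℝ) ^ (1 : ℝ) := by rw [Real.rpow_one]
      _ = (m : ℝ) ^ (5 / 4 : ℝ) := by
        rw [← Real.rpow_add (by linarith)]
        norm_num
  have hpow : ∀ t : ℝ, 0 ≤ t → ((a * m : ℕ) : ℝ) ^ t ≤ (m : ℝ) ^ (5 / 4 * t) := by
    intro t ht
    calc ((a * m : ℕ) : ℝ) ^ t ≤ ((m : ℝ) ^ (5 / 4 : ℝ)) ^ t :=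
          Real.rpow_le_rpow (Nat.cast_nonneg _) ham ht
      _ = (m : ℝ) ^ (5 / 4 * t) := by rw [← Real.rpow_mul (by linarith)]
  have hyyb : ((a * m : ℕ) : ℝ) ^ (1 / 4 : ℝ) ≤ yy m := by
    refine (hpow (1 / 4) (by norm_num)).trans ?_
    exact H59C.CRP_yy hm1 (by norm_num)
  unfold H59C.Rel at hy
  classical
  obtain ⟨-, m₁, q, p, hm1', hm2, hq1, hq2, hq, hal, hyq, hp1, hp2, hd⟩ := Finset.mem_filter.1 hy
  have hal' : al m δ y m₁ ≠ 0 := by rw [hal]; norm_num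
  obtain ⟨-, q1, q2, hq1p, hq2p, hz, -, hy2, -, hmq⟩ := H59C.CRP_al hal'
  rw [hnm]
  refine ⟨fun k => ?_, fun k hk r hr hrk => ?_, ?_, ?_, c4, ?_⟩
  · unfold al
    split_ifs <;> norm_num
  · obtain ⟨-, s1, s2, hs1, hs2, hsz, -, hsy, -, hks⟩ := H59C.CRP_al hk
    rw [hks] at hrk
    rcases (Nat.Prime.dvd_mul hr).1 hrk with h1 | h1
    · rw [(Nat.prime_dvd_prime_iff_eq hr hs1).1 h1]
      refine le_trans ?_ hsz
      refine (hpow (1 / 10) (by norm_num)).trans ?_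
      exact H59C.CRP_zz hm1 (by norm_num)
    · rw [(Nat.prime_dvd_prime_iff_eq hr hs2).1 h1]
      refine le_trans ?_ hsy
      refine (hpow (1 / 10) (by norm_num)).trans ?_
      exact H59C.CRP_yy hm1 (by norm_num)
  · refine (hyyb.trans hy2).trans ?_
    have h2 : q2 ≤ m₁ := by
      rw [hmq]
      exact Nat.le_mul_of_pos_left q2 hq1p.pos
    exact_mod_cast h2.trans hm2
  · refine (hyyb.trans hyq).trans ?_
    exact_mod_cast hq2
  · refine c5.trans ?_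
    have h1 : m ≤ a * m := Nat.le_mul_of_pos_left m ha
    omega

end Pool.Agent.Lib.H59W
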