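import Pool.Agent.Lib.H59W.ADefs
import Pool.Agent.Lib.H59C.CDefs

/-!
# Project H59W, module D (Chen's theorem in residue classes): definitions

Forms `a n + b` (prime) and `a' n + b'` (a product of at most two primes). `w` is a large constant, `P = primorial w`, `x` the
scale: `n ∈ (x/2, x]`; `m = 2 a' x` is the scale of the sieve (`z = m^(1/8)`, `y = (2m)^(1/3)`), and `2 a a' x` that of the
theorem of Bombieri and Vinogradov. `Sq, lg, XX, zz, yy, PR, Tri, BX, wB, XB, lv, al, Rel, Win, gq, VV, sift, remd, DD, SWp` are those of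
`Lib/H59C`.
-/

open Finset Polynomial

namespace Pool.Agent.Lib.H59W

open Pool.Agent.Lib.H33B (Sys NoFix wF FS_D)
open Pool.Agent.Lib.H59C (PR zz yy Tri BX wB XB lv al Rel Win gq VV sift remd DD SWp)

/-- The data. -/
structure Dat (a a' : ℕ) (b b' : ℤ) (w : ℕ) : Prop where
  a0 : 1 ≤ a
  a0' : 1 ≤ a'
  ab : IsCoprime (a : ℤ) b
  ab' : IsCoprime (a' : ℤ) b'
  aw : a ≤ w
  aw' : a' ≤ w
  w3 : 3 ≤ w
  det : (a' : ℤ) * b - a * b' ≠ 0
  detw : |(a' : ℤ) * b - a * b'| ≤ w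

/-- The system. -/
noncomputable def F2 (a a' : ℕ) (b b' : ℤ) : Fin 2 → ℤ[X] :=
  ![C (a : ℤ) * X + C b, C (a' : ℤ) * X + C b']

/-- `v` is a good class. -/
def Gcl (a a' : ℕ) (b b' : ℤ) (w v : ℕ) : Prop :=
  IsCoprime ((a : ℤ) * v + b) (primorial w : ℤ) ∧ IsCoprime ((a' : ℤ) * v + b') (primorial w : ℤ)

/-- The scale of the sieve. -/
def ms (a' x : ℕ) : ℕ := 2 * a' * x

/-- The sifting primes. -/
def Pd (w p1 M : ℕ) : Finset ℕ := (Ioc w M).filter (fun q => q.Prime ∧ q ≠ p1)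

/-- The primes with weights. -/
noncomputable def Qd (w p1 M : ℕ) : Finset ℕ := (PR (zz M) (yy M)).filter (fun q => q ∈ Pd w p1 M)

open Classical in
/-- The `n ∈ (x/2, x]` of the class `v` with `a n + b` prime. -/
noncomputable def Sd (a : ℕ) (b : ℤ) (w v x : ℕ) : Finset ℕ :=
  (Ioc (x / 2) x).filter (fun n : ℕ => n ≡ v [MOD primorial w] ∧
    ∃ q : ℕ, q.Prime ∧ (a : ℤ) * n + b = q)

/-- Their weight. -/
noncomputable def lwt (a : ℕ) (b : ℤ) (n : ℕ) : ℝ := Real.log ((a : ℝ) * n + b)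

/-- The second form. -/
def f2 (a' : ℕ) (b' : ℤ) (n : ℕ) : ℕ := ((a' : ℤ) * n + b').toNat

/-- The total weight. -/
noncomputable def Xd (a : ℕ) (b : ℤ) (w x : ℕ) : ℝ :=
  (thl a b x - thl a b (x / 2)) / (Nat.totient (a * primorial w) : ℝ)

open Classical in
/-- The pairs of a box in the right class. -/
noncomputable def BXr (a' : ℕ) (b' : ℤ) (w v M u u' : ℕ) : Finset (ℕ × ℕ) :=
  (BX M u u').filter (fun x => ((x.1 * x.2 : ℕ) : ℤ) ≡ (a' : ℤ) * v + b' [ZMOD (a' * primorial w : ℕ)])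

/-- The value of the first form, if the second one is `x.1 x.2`. -/
def bbd (a a' : ℕ) (b b' : ℤ) (x : ℕ × ℕ) : ℕ :=
  (((a : ℤ) * (x.1 * x.2) + ((a' : ℤ) * b - a * b')) / a').toNat

/-- A prime or a product of two primes. -/
def PP2 (k : ℕ) : Prop := k.Prime ∨ ∃ r s : ℕ, r.Prime ∧ s.Prime ∧ k = r * s

/-- `F_0(n)` is a prime, `F_1(n)` a prime or a product of two primes, all prime factors are `> x^δ`. -/
def Chn (F : Fin 2 → ℤ[X]) (δ : ℝ) (x n : ℕ) : Prop :=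
  (∃ q : ℕ, q.Prime ∧ (F 0).eval (n : ℤ) = q) ∧ (∃ k : ℕ, PP2 k ∧ (F 1).eval (n : ℤ) = k) ∧
    AP F δ x n

/-- The boxes. -/
noncomputable def Rl (a' : ℕ) (b' : ℤ) (x : ℕ) (δ : ℝ) : Finset (ℕ × ℕ) :=
  Rel (ms a' x) 2 (f2 a' b' (x / 2) + 2) (f2 a' b' x + 2) δ

/-- The coefficients of a box. -/
structure Cf (n M u u' : ℕ) (α : ℕ → ℝ) : Prop where
  al01 : ∀ m, 0 ≤ α m ∧ α m ≤ 1
  big : ∀ m, α m ≠ 0 → ∀ r : ℕ, r.Prime → r ∣ m → (n : ℝ) ^ (1 / 10 : ℝ) ≤ r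
  M1 : (n : ℝ) ^ (1 / 4 : ℝ) ≤ M
  v1 : (n : ℝ) ^ (1 / 4 : ℝ) ≤ u'
  uv : u ≤ u'
  Mv : M * u' ≤ 8 * n

end Pool.Agent.Lib.H59W
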