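import Pool.Agent.Lib.H57M.Q4
import Pool.Agent.Lib.H57M.EngA
import Pool.Agent.Lib.H92G.R1
import Pool.Agent.Lib.H33B.SR2

/-!
# Project H59W (MP_0bf1d2_nt): lower bounds of the right order for almost all `N`. Definitions

See `PROOF.md` in this folder.
-/

open Finset Polynomial

namespace Pool.Agent.Lib.H59W

open Pool.Agent.Lib.H59 (argSet argCount Admissible primeCount omegaN seriesTrunc rootCount)

/-- `N - G(n)` is a (positive) prime. -/
def PG (G : ℤ[X]) (N n : ℕ) : Prop := ∃ q : ℕ, q.Prime ∧ (N : ℤ) - G.eval (n : ℤ) = q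

open Classical in
/-- The residues `v` modulo `P` for which `P0(v)` is prime to `P`. -/
noncomputable def gd (P0 : ℤ[X]) (P : ℕ) : Finset ℕ :=
  (range P).filter (fun v : ℕ => IsCoprime (P0.eval (v : ℤ)) (P : ℤ))

open Classical in
/-- The residues `v` modulo `P` for which `P0(v)` and `N - G(v)` are prime to `P`. -/
noncomputable def gN (P0 G : ℤ[X]) (N P : ℕ) : Finset ℕ :=
  (gd P0 P).filter (fun v : ℕ => IsCoprime ((N : ℤ) - G.eval (v : ℤ)) (P : ℤ))

open Classical in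
/-- The number of the `n ≤ x` with the property `A`. -/
noncomputable def cnt (A : ℕ → Prop) (x : ℕ) : ℕ := ((Icc 1 x).filter A).card

open Classical in
/-- The number of the `N ∈ (Y/2, Y]` with the property `Q`. -/
noncomputable def bcnt (Q : ℕ → Prop) (Y : ℕ) : ℕ := ((Ioc (Y / 2) Y).filter Q).card

/-- Sieve type upper bound in the residue classes: dimension `g`, constant `D`. -/
def Upper (g : ℕ) (D : ℝ) (A : ℕ → ℕ → Prop) : Prop :=
  ∀ K : ℝ, ∃ x0 : ℕ, ∀ x : ℕ, x0 ≤ x → ∀ q b : ℕ, Squarefree q → (q : ℝ) ≤ Real.log x ^ K →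
    (cnt (fun n => n ≡ b [MOD q] ∧ A x n) x : ℝ) ≤
      D ^ (q.primeFactors.card + 1) * (x / Real.log x ^ g) / q

/-- Lower bound of the right order in the good residue classes modulo the (large) primorials. -/
def Lower (P0 : ℤ[X]) (g : ℕ) (c : ℝ) (A : ℕ → ℕ → Prop) : Prop :=
  ∃ w1 : ℕ, ∀ w : ℕ, w1 ≤ w → ∃ x0 : ℕ, ∀ x : ℕ, x0 ≤ x → ∀ v : ℕ,
    IsCoprime (P0.eval (v : ℤ)) (primorial w : ℤ) →
    c * (x / Real.log x ^ g) ≤
      (gd P0 (primorial w)).card * (cnt (fun n => n ≡ v [MOD primorial w] ∧ A x n) x : ℝ)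

/-- The local factor `P #gN/(φ(P) #gd)` is bounded below for almost all `N` for which it is not `0`. -/
def Local (P0 G : ℤ[X]) : Prop :=
  ∀ η : ℝ, 0 < η → ∃ σ0 : ℝ, 0 < σ0 ∧ ∀ w : ℕ,
    (cnt (fun N => 0 < (gN P0 G N (primorial w)).card ∧
      (primorial w : ℝ) * (gN P0 G N (primorial w)).card <
        σ0 * ((primorial w).totient * (gd P0 (primorial w)).card)) (primorial w) : ℝ) ≤
      η * primorial w

/-! ## Windows -/

/-- `m` is a prime or has no prime factor `≤ T`. -/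
def Rough (T : ℝ) (m : ℕ) : Prop := m.Prime ∨ T < (m.minFac : ℝ)

/-- The pattern: the rough numbers of the window `(n, n + Λ L]` are in the intervals
`(n + β_j L, n + (β_j + ε) L]`, at most one in each of them, and at least `k + 1` of them are primes. -/
structure Pat {J : ℕ} (β : Fin J → ℝ) (ε Λ : ℝ) (k : ℕ) (T L : ℝ) (n : ℕ) : Prop where
  cover : ∀ m : ℕ, n < m → (m : ℝ) ≤ n + Λ * L → Rough T m →
    ∃ j, (n : ℝ) + β j * L < m ∧ (m : ℝ) ≤ n + (β j + ε) * L
  one : ∀ j, ∀ m m' : ℕ, Rough T m → Rough T m' → (n : ℝ) + β j * L < m →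
    (m : ℝ) ≤ n + (β j + ε) * L → (n : ℝ) + β j * L < m' → (m' : ℝ) ≤ n + (β j + ε) * L → m = m'
  many : k + 1 ≤ ((Ioc n (n + ⌊Λ * L⌋₊)).filter Nat.Prime).card

/-- The system `a x + h_1, …, a x + h_g`. -/
noncomputable def lin {g : ℕ} (a : ℕ) (h : Fin g → ℕ) : Fin g → ℤ[X] :=
  fun i => C (a : ℤ) * X + C (h i : ℤ)

open Classical in
/-- The tuples `0 ≤ h_1 < ⋯ < h_g ≤ L`. -/
noncomputable def Tup (g L : ℕ) : Finset (Fin g → ℕ) :=
  (Fintype.piFinset fun _ => range (L + 1)).filter StrictMono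

end Pool.Agent.Lib.H59W
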