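import Pool.Agent.Lib.H59W.W8

/-!
# The final theorems on windows
-/

open Finset Polynomial

namespace Pool.Agent.Lib.H59W

open Pool.Agent.Lib.H59 (argSet argCount Admissible primeCount omegaN seriesTrunc rootCount)

theorem average (G : ℤ[X]) (hG : 1 ≤ G.natDegree) (hlc : 0 < G.leadingCoeff) (g a : ℕ)
    (hg : 1 ≤ g) (ha : 1 ≤ a) (lam : ℝ) (hlam : 0 < lam) : ∃ c : ℝ, 0 < c ∧ ∀ ε : ℝ, 0 < ε →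
    ∃ z0 : ℕ, ∀ z : ℕ, z0 ≤ z → ∃ Y0 : ℕ, ∀ Y : ℕ, Y0 ≤ Y →
      (cnt (fun N => ∑ h ∈ AdmTup g a lam G N, (primeCount (lin a h) G N : ℝ) <
          c * ∑ h ∈ AdmTup g a lam G N, mt a h G N z) Y : ℝ) ≤ ε * Y := by
  obtain ⟨c, hc, h⟩ := avg_block G hG hlc g a hg ha lam hlam
  refine ⟨c, hc, fun ε hε => ?_⟩
  obtain ⟨z0, hz⟩ := h (ε / 4) (by positivity)
  refine ⟨z0, fun z hzz => ?_⟩
  obtain ⟨Y0, hY⟩ := hz z hzz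
  exact dyadic _ ε hε Y0 hY

theorem proportion (k : ℕ) (δ : ℝ) (hδ : 0 < δ) : ∃ J0 : ℕ, 1 ≤ J0 ∧ ∀ (J : ℕ) (β : Fin J → ℝ)
    (ε Λ : ℝ), J0 ≤ J → H92G.Conf J β ε Λ → ∀ a : ℕ, 1 ≤ a → ∀ G : ℤ[X], 1 ≤ G.natDegree →
    0 < G.leadingCoeff → ∃ c : ℝ, 0 < c ∧ ∀ η : ℝ, 0 < η → ∃ Y0 : ℕ, ∀ Y : ℕ, Y0 ≤ Y →
      (cnt (fun N => (∀ p : ℕ, p.Prime → ¬ ∀ n : ℤ, (p : ℤ) ∣ (C (N : ℤ) - G).eval n) ∧
        (cnt (fun n => Pat β ε Λ k ((argCount G N : ℝ) ^ δ) (Real.log (argCount G N)) (a * n) ∧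
          PG G N n) (argCount G N) : ℝ) < c * cnt (PG G N) (argCount G N)) Y : ℝ) ≤ η * Y := by
  obtain ⟨J0, hJ0, h⟩ := prop_block k δ hδ
  refine ⟨J0, hJ0, fun J β ε Λ hJ hC a ha G hG hlc => ?_⟩
  obtain ⟨c, hc, h2⟩ := h J β ε Λ hJ hC a ha G hG hlc
  refine ⟨c, hc, fun η hη => ?_⟩
  obtain ⟨Y0, hY⟩ := h2 (η / 4) (by positivity)
  exact dyadic _ η hη Y0 hY

end Pool.Agent.Lib.H59W
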