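import Pool.Agent.Lib.H59W.K1
import Pool.Agent.Lib.H59W.A2
import Pool.Agent.Lib.H59W.B3

/-!
# The final theorems of the modules A and B
-/

open Finset Polynomial Filter Topology

namespace Pool.Agent.Lib.H59W

open Pool.Agent.Lib.H59 (argSet argCount Admissible primeCount omegaN seriesTrunc rootCount)
open Pool.Agent.Lib.H33B (Sys NoFix wF FS_D)

/-- change of the scale -/
theorem rpow_scale (δ δ' C : ℝ) (h : δ' < δ) (h0 : 0 < δ') : ∃ x0 : ℕ, ∀ x X : ℕ, x0 ≤ x → x ≤ X →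
    (X : ℝ) ≤ C * x → (X : ℝ) ^ δ' ≤ (x : ℝ) ^ δ := by
  have h1 : Tendsto (fun x : ℕ => (x : ℝ) ^ (δ - δ')) atTop atTop :=
    (tendsto_rpow_atTop (sub_pos.2 h)).comp tendsto_natCast_atTop_atTop
  obtain ⟨x0, hx0⟩ := eventually_atTop.1 (h1.eventually_ge_atTop ((max C 1) ^ δ'))
  refine ⟨max x0 1, fun x X hx hxX hXC => ?_⟩
  have hx1 : (0 : ℝ) < x := by exact_mod_cast (le_trans (le_max_right _ _) hx)
  have h2 := hx0 x (le_trans (le_max_left _ _) hx)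
  calc (X : ℝ) ^ δ' ≤ (max C 1 * x) ^ δ' :=
        Real.rpow_le_rpow (Nat.cast_nonneg _)
          (hXC.trans (mul_le_mul_of_nonneg_right (le_max_left _ _) hx1.le)) h0.le
    _ = (max C 1) ^ δ' * (x : ℝ) ^ δ' := Real.mul_rpow (by positivity) hx1.le
    _ ≤ (x : ℝ) ^ (δ - δ') * (x : ℝ) ^ δ' := mul_le_mul_of_nonneg_right h2 (by positivity)
    _ = (x : ℝ) ^ δ := by rw [← Real.rpow_add hx1]; congr 1; ring

theorem AP_scale {g : ℕ} (F : Fin g → ℤ[X]) (δ δ' : ℝ) (h : δ' < δ) (h0 : 0 < δ') (C : ℝ) :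
    ∃ x0 : ℕ, ∀ x X n : ℕ, x0 ≤ x → x ≤ X → (X : ℝ) ≤ C * x → n ≤ x → AP F δ x n →
      AP F δ' X n := by
  obtain ⟨x0, hx0⟩ := rpow_scale δ δ' C h h0
  exact ⟨x0, fun x X n h1 h2 h3 _ h5 i p hp hd =>
    lt_of_le_of_lt (hx0 x X h1 h2 h3) (h5 i p hp hd)⟩

theorem not_adm {g : ℕ} {F : Fin g → ℤ[X]} {G : ℤ[X]} {N : ℕ} (h : ¬ NoFix F) :
    ¬ Admissible F G N := by
  intro hA
  apply h
  intro p hp
  by_contra hc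
  push Not at hc
  exact hA.2 p hp fun n => by
    rw [eval_mul]
    exact Dvd.dvd.mul_right (hc n) _

/-- Trivial if `∏ F_i` has a fixed prime divisor. -/
theorem all_of {g : ℕ} (F : Fin g → ℤ[X]) (G : ℤ[X]) (Q : ℝ → ℕ → ℕ → Prop)
    (h : NoFix F → ∃ c' : ℝ, 0 < c' ∧ ∀ ε : ℝ, 0 < ε → ∃ z0 : ℕ, ∀ z : ℕ, z0 ≤ z → ∃ Y0 : ℕ,
      ∀ Y : ℕ, Y0 ≤ Y → (cnt (fun N => Admissible F G N ∧ Q c' N z) Y : ℝ) ≤ ε * Y) :
    ∃ c' : ℝ, 0 < c' ∧ ∀ ε : ℝ, 0 < ε → ∃ z0 : ℕ, ∀ z : ℕ, z0 ≤ z → ∃ Y0 : ℕ,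
      ∀ Y : ℕ, Y0 ≤ Y → (cnt (fun N => Admissible F G N ∧ Q c' N z) Y : ℝ) ≤ ε * Y := by
  classical
  by_cases hN : NoFix F
  · exact h hN
  · refine ⟨1, one_pos, fun ε hε => ⟨0, fun z _ => ⟨0, fun Y _ => ?_⟩⟩⟩
    rw [cnt_zero fun N h2 => not_adm hN h2.1]
    rw [Nat.cast_zero]
    positivity

/-- **Theorem A.** -/
theorem rough_values {g : ℕ} (F : Fin g → ℤ[X]) (hF : Sys F) (G : ℤ[X]) (hG : 1 ≤ G.natDegree)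
    (hlc : 0 < G.leadingCoeff) (δ : ℝ) (h0 : 0 < δ) (hδ : δ < dl F) :
    ∃ c' : ℝ, 0 < c' ∧ ∀ ε : ℝ, 0 < ε → ∃ z0 : ℕ, ∀ z : ℕ, z0 ≤ z → ∃ Y0 : ℕ, ∀ Y : ℕ, Y0 ≤ Y →
      (cnt (fun N => Admissible F G N ∧
        (cnt (fun n => AP F δ (argCount G N) n ∧ PG G N n) (argCount G N) : ℝ) <
          c' * (H33B.mainT F G N * seriesTrunc F G N z)) Y : ℝ) ≤ ε * Y := by
  refine all_of F G _ fun hN => ?_
  obtain ⟨c, hc, hL⟩ := lower_AP F hF hN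
  obtain ⟨D, hD, hU⟩ := upper_AP F hF hN (dl F) (h0.trans hδ)
  exact sys_all F hF hN G hG hlc _ _ c D hc hD (hU _ fun x n h => h) hL
    (AP_scale F (dl F) δ hδ h0)

/-- **Theorem B.** -/
theorem prime_rough_values {g : ℕ} (F : Fin g → ℤ[X]) (hF : Sys F) (i : Fin g)
    (hi : (F i).natDegree = 1) (G : ℤ[X]) (hG : 1 ≤ G.natDegree) (hlc : 0 < G.leadingCoeff) (δ : ℝ)
    (h0 : 0 < δ) (hδ : δ < dl F) :
    ∃ c' : ℝ, 0 < c' ∧ ∀ ε : ℝ, 0 < ε → ∃ z0 : ℕ, ∀ z : ℕ, z0 ≤ z → ∃ Y0 : ℕ, ∀ Y : ℕ, Y0 ≤ Y →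
      (cnt (fun N => Admissible F G N ∧
        (cnt (fun n => PAP F i δ (argCount G N) n ∧ PG G N n) (argCount G N) : ℝ) <
          c' * (H33B.mainT F G N * seriesTrunc F G N z)) Y : ℝ) ≤ ε * Y := by
  refine all_of F G _ fun hN => ?_
  obtain ⟨c, hc, hL⟩ := lower_PAP F hF hN i hi
  obtain ⟨D, hD, hU⟩ := upper_AP F hF hN (dl F) (h0.trans hδ)
  refine sys_all F hF hN G hG hlc _ _ c D hc hD (hU _ fun x n h => h.2) hL fun C => ?_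
  obtain ⟨x0, hx0⟩ := AP_scale F (dl F) δ hδ h0 C
  exact ⟨x0, fun x X n h1 h2 h3 h4 h5 => ⟨h5.1, hx0 x X n h1 h2 h3 h4 h5.2⟩⟩

end Pool.Agent.Lib.H59W
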