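import Pool.Agent.Lib.H59W.FinB
import Pool.Agent.Lib.H59W.D12

/-!
# The final theorem of the module D
-/

open Finset Polynomial Filter Topology

namespace Pool.Agent.Lib.H59W

open Pool.Agent.Lib.H59 (argSet argCount Admissible primeCount omegaN seriesTrunc rootCount)
open Pool.Agent.Lib.H33B (Sys NoFix wF FS_D)

/-- **Theorem D.** -/
theorem chen_values (F : Fin 2 → ℤ[X]) (hF : Sys F) (h0 : (F 0).natDegree = 1)
    (h1 : (F 1).natDegree = 1) (G : ℤ[X]) (hG : 1 ≤ G.natDegree) (hlc : 0 < G.leadingCoeff)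
    (δ : ℝ) (hδ0 : 0 < δ) (hδ : δ < 1 / 10) :
    ∃ c' : ℝ, 0 < c' ∧ ∀ ε : ℝ, 0 < ε → ∃ z0 : ℕ, ∀ z : ℕ, z0 ≤ z → ∃ Y0 : ℕ, ∀ Y : ℕ, Y0 ≤ Y →
      (cnt (fun N => Admissible F G N ∧
        (cnt (fun n => Chn F δ (argCount G N) n ∧ PG G N n) (argCount G N) : ℝ) <
          c' * (H33B.mainT F G N * seriesTrunc F G N z)) Y : ℝ) ≤ ε * Y := by
  refine all_of F G _ fun hN => ?_
  obtain ⟨c, hc, hL⟩ := lower_Chn F hF hN h0 h1
  obtain ⟨D, hD, hU⟩ := upper_AP F hF hN (1 / 10) (by norm_num)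
  refine sys_all F hF hN G hG hlc _ _ c D hc hD (hU _ fun x n h => h.2.2) hL fun C => ?_
  obtain ⟨x0, hx0⟩ := AP_scale F (1 / 10) δ hδ hδ0 C
  exact ⟨x0, fun x X n h1 h2 h3 h4 h5 => ⟨h5.1, h5.2.1, hx0 x X n h1 h2 h3 h4 h5.2.2⟩⟩

end Pool.Agent.Lib.H59W
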