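import Pool.Agent.Lib.H59W.P6
import Pool.Agent.Lib.H59W.B3A
import Pool.Agent.Lib.H57C.V6

/-!
# Chunk P7: Maynard-Tao with all forms rough, in residue classes
-/

open Finset Polynomial

namespace Pool.Agent.Lib.H59W

open Pool.Agent.Lib.H33B (Sys NoFix wF FS_D)
open Pool.Agent.Lib.H59C (DD SWp)

theorem p7_cop (H : Finset ℕ) (v P : ℕ) (h : IsCoprime ((∏ i, FH H i).eval (v : ℤ)) (P : ℤ)) :
    ∀ h ∈ H, (v + h).Coprime P := by
  intro a ha
  obtain ⟨i, hi⟩ := p4_surj H a ha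
  rw [eval_prod] at h
  have h1 := (IsCoprime.prod_left_iff.1 h) i (mem_univ i)
  rw [p4_eval, hi] at h1
  exact Nat.isCoprime_iff_coprime.1 (by exact_mod_cast h1)

theorem p7_cnt (A B C : ℕ → Prop) (x : ℕ) (h : ∀ n, A n → ¬ B n → C n) :
    cnt A x ≤ cnt C x + cnt (fun n => A n ∧ B n) x := by
  classical
  unfold cnt
  refine (card_le_card ?_).trans (card_union_le _ _)
  intro n hn
  simp only [mem_filter] at hn
  simp only [mem_union, mem_filter]
  by_cases hB : B n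
  · exact Or.inr ⟨hn.1, hn.2, hB⟩
  · exact Or.inl ⟨hn.1, h n hn.2 hB⟩

theorem p7_mono {A B : ℕ → Prop} (x : ℕ) (h : ∀ n, A n → B n) : cnt A x ≤ cnt B x := by
  classical
  unfold cnt
  refine card_le_card fun n hn => ?_
  simp only [mem_filter] at hn ⊢
  exact ⟨hn.1, h n hn.2⟩

theorem p7_pow (A' : ℕ) (δ : ℝ) (hδ : 0 < δ) : ∃ x0 : ℕ, ∀ x : ℕ, x0 ≤ x →
    Real.log x ^ (A' + 1) ≤ (x : ℝ) ^ δ := by
  have h2 := (isLittleO_log_rpow_rpow_atTop (((A' + 1 : ℕ)) : ℝ) hδ).bound (zero_lt_one)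
  obtain ⟨x0, hx0⟩ := Filter.eventually_atTop.1
    (tendsto_natCast_atTop_atTop (R := ℝ) |>.eventually h2)
  refine ⟨max x0 2, fun x hx => ?_⟩
  have h3 := hx0 x ((le_max_left _ _).trans hx)
  have hx2 : (1 : ℝ) < x := by
    have : 2 ≤ x := (le_max_right _ _).trans hx
    exact_mod_cast this
  have hlx : 0 < Real.log x := Real.log_pos hx2
  rw [Real.norm_of_nonneg (Real.rpow_nonneg hlx.le _),
    Real.norm_of_nonneg (Real.rpow_nonneg (by linarith) _), one_mul, Real.rpow_natCast] at h3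
  exact h3

/-- Proof. (As `lower_PAP`, chunk B3.) `K` from `count_MP` (enlarged to be `≥ 1`); `δ, c₀, w1` from there, `c = c₀/2`. Let `w ≥ w1`, `P = primorial w`, `#gd ≤ P`, `A'` from `count_MP`,
`K0` from `p1_few (FH H) (FH_sys H _) hN δ _ w (c₀/(2 P + 2))`; `H57C.sw2 A' (max K0 (w + 1))` at `n = x` gives a prime `p1 ≥ K0`, `p1 > w`, `p1 ≤ (log x)^(A' + 1) ≤ x^δ`, `SWp A' x p1`.
`IsCoprime (∏ (v + h)) P` is `(v + h).Coprime P` for all `h`. The `n` counted in `count_MP` for which `p1` divides no `n + h` have `MP H g δ x n`; the others are at most `ε x/(log x)^#H` by `p1_few`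
(`(FH H j).eval n = n + h`, the `H.orderEmbOfFin rfl j` are the elements of `H`). -/
theorem lower_MP (g : ℕ) (hg : 1 ≤ g) : ∃ K : ℕ, ∀ H : Finset ℕ, K ≤ H.card → NoFix (FH H) →
    ∃ δ : ℝ, 0 < δ ∧ ∃ c : ℝ, 0 < c ∧ Lower (∏ i, FH H i) H.card c (MP H g δ) := by
  obtain ⟨K, hK⟩ := count_MP g hg
  refine ⟨max K 1, fun H hH hN => ?_⟩
  have hH1 : 1 ≤ H.card := (le_max_right _ _).trans hH
  obtain ⟨δ, hδ, c0, hc0, w1, hw1⟩ := hK H ((le_max_left _ _).trans hH) hN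
  refine ⟨δ, hδ, c0 / 2, by positivity, w1, fun w hw => ?_⟩
  obtain ⟨A', x1, hx1⟩ := hw1 w hw
  have hP1 : 1 ≤ primorial w := primorial_pos w
  have hP0 : (0 : ℝ) < primorial w := by exact_mod_cast hP1
  obtain ⟨K0, hK0⟩ := p1_few (FH H) (FH_sys H hH1) hN δ hδ w (c0 / (2 * primorial w + 2))
    (by positivity)
  obtain ⟨x2, hx2⟩ := hK0 ((A' + 1 : ℕ) : ℝ)
  obtain ⟨x3, hx3⟩ := H57C.sw2 A' (max K0 (w + 1))
  obtain ⟨x4, hx4⟩ := p7_pow A' δ hδ
  refine ⟨max (max x1 x2) (max (max x3 x4) 2), fun x hx v hv => ?_⟩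
  have f1 : x1 ≤ x := ((le_max_left _ _).trans (le_max_left _ _)).trans hx
  have f2 : x2 ≤ x := ((le_max_right _ _).trans (le_max_left _ _)).trans hx
  have f3 : x3 ≤ x :=
    (((le_max_left _ _).trans (le_max_left _ _)).trans (le_max_right _ _)).trans hx
  have f4 : x4 ≤ x :=
    (((le_max_right _ _).trans (le_max_left _ _)).trans (le_max_right _ _)).trans hx
  have f5 : 2 ≤ x := ((le_max_right _ _).trans (le_max_right _ _)).trans hx
  have hlog : 0 < Real.log x := Real.log_pos (by exact_mod_cast (by omega : 1 < x))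
  obtain ⟨p1, hp1, hpK, hpl, hSW⟩ := hx3 x f3
  have hpK0 : K0 ≤ p1 := (le_max_left _ _).trans hpK
  have hpw : w < p1 := (le_max_right _ _).trans hpK
  have hvH := p7_cop H v (primorial w) hv
  have h1 := hx1 x f1 p1 hp1 hpw (hpl.trans (hx4 x f4)) hSW v hvH
  have h2 := hx2 x f2 p1 hp1 hpK0 hpw (by rw [Real.rpow_natCast]; exact hpl) v
  set G : ℝ := ((gd (∏ i, FH H i) (primorial w)).card : ℝ) with hG
  have hG0 : 0 ≤ G := Nat.cast_nonneg _
  have hGP : G ≤ primorial w := by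
    classical
    have h1 : (gd (∏ i, FH H i) (primorial w)).card ≤ primorial w := by
      unfold gd
      exact (card_filter_le _ _).trans (card_range _).le
    rw [hG]
    exact_mod_cast h1
  have h3 : cnt (fun n => n ≡ v [MOD primorial w] ∧
      g ≤ (H.filter (fun h => (n + h).Prime)).card ∧
      ∀ h ∈ H, ∀ q : ℕ, q.Prime → q ≠ p1 → q ∣ n + h → (x : ℝ) ^ δ < q) x ≤
      cnt (fun n => n ≡ v [MOD primorial w] ∧ MP H g δ x n) x +
      cnt (fun n => n ≡ v [MOD primorial w] ∧ (∃ j, (p1 : ℤ) ∣ (FH H j).eval (n : ℤ)) ∧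
        ∀ j, ∀ q : ℕ, q.Prime → q ≠ p1 → (q : ℤ) ∣ (FH H j).eval (n : ℤ) → (x : ℝ) ^ δ < q) x := by
    refine (p7_cnt _ (fun n => ∃ j, (p1 : ℤ) ∣ (FH H j).eval (n : ℤ))
      (fun n => n ≡ v [MOD primorial w] ∧ MP H g δ x n) x ?_).trans
      (Nat.add_le_add_left (p7_mono x ?_) _)
    · rintro n ⟨i1, i2, i3⟩ i4
      refine ⟨i1, fun h hh q hq hd => ?_, i2⟩
      refine i3 h hh q hq (fun he => i4 ?_) hd
      obtain ⟨i, hi⟩ := p4_surj H h hh
      refine ⟨i, ?_⟩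
      rw [p4_eval, hi, ← he]
      exact_mod_cast hd
    · rintro n ⟨⟨i1, i2, i3⟩, i4⟩
      refine ⟨i1, i4, fun j q hq hqp hd => ?_⟩
      rw [p4_eval] at hd
      exact i3 _ (H.orderEmbOfFin_mem rfl j) q hq hqp (by exact_mod_cast hd)
  have h3' : (cnt (fun n => n ≡ v [MOD primorial w] ∧
      g ≤ (H.filter (fun h => (n + h).Prime)).card ∧
      ∀ h ∈ H, ∀ q : ℕ, q.Prime → q ≠ p1 → q ∣ n + h → (x : ℝ) ^ δ < q) x : ℝ) ≤
      (cnt (fun n => n ≡ v [MOD primorial w] ∧ MP H g δ x n) x : ℝ) +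
      (cnt (fun n => n ≡ v [MOD primorial w] ∧ (∃ j, (p1 : ℤ) ∣ (FH H j).eval (n : ℤ)) ∧
        ∀ j, ∀ q : ℕ, q.Prime → q ≠ p1 → (q : ℤ) ∣ (FH H j).eval (n : ℤ) →
          (x : ℝ) ^ δ < q) x : ℝ) := by exact_mod_cast h3
  have h4 : G * (c0 / (2 * primorial w + 2) * (x / Real.log x ^ H.card)) ≤
      c0 / 2 * (x / Real.log x ^ H.card) := by
    rw [← mul_assoc]
    refine mul_le_mul_of_nonneg_right ?_ (by positivity)
    rw [mul_div_assoc', div_le_div_iff₀ (by positivity) (by norm_num)]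
    nlinarith
  have h5 := mul_le_mul_of_nonneg_left (h3'.trans (add_le_add_right h2 _)) hG0
  rw [mul_add] at h5
  linarith

end Pool.Agent.Lib.H59W
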