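import Pool.Agent.Lib.H59W.FinB
import Pool.Agent.Lib.H59W.P7

/-!
# The final theorem of the module P
-/

open Finset Polynomial Filter Topology

namespace Pool.Agent.Lib.H59W

open Pool.Agent.Lib.H59 (argSet argCount Admissible primeCount omegaN seriesTrunc rootCount)
open Pool.Agent.Lib.H33B (Sys NoFix wF FS_D)

/-- **Theorem P.** -/
theorem maynard_values (g : ℕ) (hg : 1 ≤ g) : ∃ K : ℕ, ∀ H : Finset ℕ, K ≤ H.card →
    ∃ δ : ℝ, 0 < δ ∧ ∀ G : ℤ[X], 1 ≤ G.natDegree → 0 < G.leadingCoeff →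
    ∃ c' : ℝ, 0 < c' ∧ ∀ ε : ℝ, 0 < ε → ∃ z0 : ℕ, ∀ z : ℕ, z0 ≤ z → ∃ Y0 : ℕ, ∀ Y : ℕ, Y0 ≤ Y →
      (cnt (fun N => Admissible (FH H) G N ∧
        (cnt (fun n => MP H g δ (argCount G N) n ∧ PG G N n) (argCount G N) : ℝ) <
          c' * (H33B.mainT (FH H) G N * seriesTrunc (FH H) G N z)) Y : ℝ) ≤ ε * Y := by
  obtain ⟨K, hK⟩ := lower_MP g hg
  refine ⟨max K 1, fun H hH => ?_⟩
  have hH1 : 1 ≤ H.card := (le_max_right _ _).trans hH
  have hH2 : K ≤ H.card := (le_max_left _ _).trans hH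
  by_cases hN : NoFix (FH H)
  · obtain ⟨δ, hδ, c, hc, hL⟩ := hK H hH2 hN
    refine ⟨δ / 2, by positivity, fun G hG hlc => ?_⟩
    have hF := FH_sys H hH1
    obtain ⟨D, hD, hU⟩ := upper_AP (FH H) hF hN δ hδ
    refine sys_all (FH H) hF hN G hG hlc _ _ c D hc hD
      (hU (MP H g δ) fun x n h => (FH_AP H δ x n).2 h.1) hL fun C => ?_
    obtain ⟨x0, hx0⟩ := rpow_scale δ (δ / 2) C (by linarith) (by positivity)
    exact ⟨x0, fun x X n h1 h2 h3 _ h5 => ⟨fun h hh p hp hd =>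
      lt_of_le_of_lt (hx0 x X h1 h2 h3) (h5.1 h hh p hp hd), h5.2⟩⟩
  · exact ⟨1, one_pos, fun G _ _ => all_of (FH H) G _ fun h => absurd h hN⟩

end Pool.Agent.Lib.H59W
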