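import Pool.Agent.Lib.H59W.Defs

/-!
# Chunk T1: from sets of integers to `N - G(n)` prime, for almost all `N`
-/

open Finset Polynomial

namespace Pool.Agent.Lib.H59W

open Pool.Agent.Lib.H59 (argSet argCount Admissible primeCount omegaN seriesTrunc rootCount)

theorem t1_fc {α : Type} (s : Finset α) (p : α → Prop) (i1 i2 : DecidablePred p) :
    @Finset.filter α p i1 s = @Finset.filter α p i2 s := by
  have h : i1 = i2 := Subsingleton.elim _ _
  rw [h]

theorem t1_cnt (A : ℕ → Prop) [i : DecidablePred A] (x : ℕ) : cnt A x = ((Icc 1 x).filter A).card := by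
  unfold cnt
  exact congrArg Finset.card (t1_fc _ _ _ _)

theorem t1_bcnt_le (Q : ℕ → Prop) (Y : ℕ) (S : Finset ℕ) (h : ∀ N ∈ Ioc (Y / 2) Y, Q N → N ∈ S) :
    bcnt Q Y ≤ S.card := by
  classical
  unfold bcnt
  rw [t1_fc _ _ _ (fun a => Classical.propDecidable (Q a))]
  refine Finset.card_le_card fun N hN => ?_
  have hN' := (@Finset.mem_filter ℕ Q (fun a => Classical.propDecidable (Q a)) (Ioc (Y / 2) Y) N).1 hN
  exact h N hN'.1 hN'.2

theorem t1_lower (G : ℤ[X]) (hlc : 0 < G.leadingCoeff) : ∃ c0 : ℕ, ∀ n : ℕ, -(c0 : ℤ) ≤ G.eval (n : ℤ) := by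
  obtain ⟨n0, hn0⟩ := H57M.Q1_low G hlc
  refine ⟨∑ n ∈ range n0, (G.eval (n : ℤ)).natAbs, fun n => ?_⟩
  rcases Nat.lt_or_ge n n0 with h | h
  · have h1 : (G.eval (n : ℤ)).natAbs ≤ ∑ n ∈ range n0, (G.eval (n : ℤ)).natAbs :=
      Finset.single_le_sum (f := fun n : ℕ => (G.eval (n : ℤ)).natAbs) (fun _ _ => Nat.zero_le _) (Finset.mem_range.2 h)
    have h2 : -((G.eval (n : ℤ)).natAbs : ℤ) ≤ G.eval (n : ℤ) := by
      rw [Int.natCast_natAbs]
      exact neg_abs_le _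
    have h3 : ((G.eval (n : ℤ)).natAbs : ℤ) ≤ ((∑ n ∈ range n0, (G.eval (n : ℤ)).natAbs : ℕ) : ℤ) := by
      exact_mod_cast h1
    linarith
  · have h1 := hn0 n h
    have h2 : (0 : ℝ) ≤ ((G.eval (n : ℤ) : ℤ) : ℝ) := by
      have : (0 : ℝ) ≤ (n : ℝ) ^ G.natDegree / 2 := by positivity
      linarith
    have h3 : 0 ≤ G.eval (n : ℤ) := by exact_mod_cast h2
    have h4 : (0 : ℤ) ≤ ((∑ n ∈ range n0, (G.eval (n : ℤ)).natAbs : ℕ) : ℤ) := Int.natCast_nonneg _
    linarith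

theorem t1_scale (G : ℤ[X]) (hG : 1 ≤ G.natDegree) (hlc : 0 < G.leadingCoeff) :
    ∃ B : ℝ, 1 ≤ B ∧ ∀ L0 : ℝ, ∃ Y0 : ℕ, ∀ Y : ℕ, Y0 ≤ Y →
      L0 ≤ (argCount G (Y / 2) : ℝ) ∧ L0 ≤ Real.log (argCount G (Y / 2) : ℝ) ∧
      (argCount G Y : ℝ) ≤ B * (argCount G (Y / 2) : ℝ) ∧
      Real.log (argCount G (Y / 2) : ℝ) ≤ B * Real.log Y ∧
      Real.log Y ≤ B * Real.log (argCount G (Y / 2) : ℝ) ∧
      (∀ n : ℕ, 1 ≤ n → n ≤ argCount G (Y / 2) → G.eval (n : ℤ) < (Y / 2 : ℕ)) ∧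
      argCount G (Y / 2) ≤ argCount G Y ∧ L0 ≤ (Y : ℝ) := by
  obtain ⟨Y1, h1⟩ := H57M.argSet_eq G hG hlc
  obtain ⟨A, Y2, hA, h2⟩ := H57M.argCount_bounds G hG hlc
  have hmono : ∀ N N' : ℕ, Y1 ≤ N → N ≤ N' → argCount G N ≤ argCount G N' := by
    intro N N' hN hNN'
    rcases Nat.eq_zero_or_pos (argCount G N) with h0 | h0
    · omega
    · have h3 := (h1 N hN (argCount G N)).2 ⟨h0, le_refl _⟩
      have h4 : argCount G N ∈ argSet G N' := by
        refine ⟨h3.1, ?_⟩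
        have h5 := h3.2
        have : (N : ℤ) ≤ N' := by exact_mod_cast hNN'
        linarith
      exact ((h1 N' (hN.trans hNN') _).1 h4).2
  refine ⟨A, hA, fun L0 => ?_⟩
  obtain ⟨B, hB⟩ : ∃ B : ℝ, B = max (max L0 (Real.exp L0)) 1 := ⟨_, rfl⟩
  have hB1 : 1 ≤ B := by rw [hB]; exact le_max_right _ _
  have hBL : L0 ≤ B := by rw [hB]; exact (le_max_left _ _).trans (le_max_left _ _)
  have hBe : Real.exp L0 ≤ B := by rw [hB]; exact (le_max_right _ _).trans (le_max_left _ _)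
  have hApos : 0 < A := by linarith
  have htend : Filter.Tendsto (fun Y : ℕ => (Y : ℝ) ^ (1 / A)) Filter.atTop Filter.atTop :=
    (tendsto_rpow_atTop (by positivity)).comp tendsto_natCast_atTop_atTop
  obtain ⟨Y3, h3⟩ := Filter.eventually_atTop.1 (htend.eventually_ge_atTop B)
  obtain ⟨Y4, h4⟩ := exists_nat_ge L0
  refine ⟨max (max (2 * Y1 + 2) Y2) (max Y3 Y4), fun Y hY => ?_⟩
  have hYa : 2 * Y1 + 2 ≤ Y := le_trans ((le_max_left _ _).trans (le_max_left _ _)) hY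
  have hYb : Y2 ≤ Y := le_trans ((le_max_right _ _).trans (le_max_left _ _)) hY
  have hYc : Y3 ≤ Y := le_trans ((le_max_left _ _).trans (le_max_right _ _)) hY
  have hYd : Y4 ≤ Y := le_trans ((le_max_right _ _).trans (le_max_right _ _)) hY
  have hY1 : Y1 ≤ Y / 2 := by omega
  obtain ⟨g1, g2, g3, g4⟩ := h2 Y hYb
  have g5 := h3 Y hYc
  have hm : argCount G (Y / 2) ≤ argCount G Y := hmono _ _ hY1 (Nat.div_le_self _ _)
  have hxB : B ≤ (argCount G (Y / 2) : ℝ) := g5.trans g4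
  have hx0 : (0 : ℝ) < (argCount G (Y / 2) : ℝ) := by linarith
  refine ⟨hBL.trans hxB, ?_, g1, ?_, g2, ?_, hm, ?_⟩
  · rw [Real.le_log_iff_exp_le hx0]
    exact hBe.trans hxB
  · have h5 : Real.log (argCount G (Y / 2) : ℝ) ≤ Real.log (argCount G Y : ℝ) :=
      Real.log_le_log hx0 (by exact_mod_cast hm)
    exact h5.trans g3
  · intro n hn1 hn2
    have := ((h1 (Y / 2) hY1 n).2 ⟨hn1, hn2⟩).2
    linarith
  · exact h4.trans (by exact_mod_cast hYd)

theorem t1_gN_mod (P0 G : ℤ[X]) {N N' P : ℕ} (h : (P : ℤ) ∣ (N' : ℤ) - N) : gN P0 G N P = gN P0 G N' P := by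
  classical
  unfold gN
  refine Finset.filter_congr fun v _ => ?_
  obtain ⟨k, hk⟩ := h
  have e : (N' : ℤ) - G.eval (v : ℤ) = (N : ℤ) - G.eval (v : ℤ) + (P : ℤ) * k := by
    linear_combination hk
  rw [e, IsCoprime.add_mul_left_left_iff]

/-- The number of the `N ≤ Y` with a property which depends on the class modulo `P`. -/
theorem t1_count (P Y : ℕ) (hP : 0 < P) (Q : ℕ → Prop) [DecidablePred Q]
    (hQ : ∀ N N' : ℕ, (P : ℤ) ∣ (N' : ℤ) - N → (Q N ↔ Q N')) :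
    ((Icc 1 Y).filter Q).card ≤ cnt Q P * (Y / P + 1) := by
  classical
  have h1 : ((Icc 1 Y).filter Q).card ≤ (((Icc 1 P).filter Q) ×ˢ range (Y / P + 1)).card := by
    refine Finset.card_le_card_of_injOn (fun N => ((N - 1) % P + 1, (N - 1) / P)) ?_ ?_
    · intro N hN
      rw [Finset.mem_coe, Finset.mem_filter, Finset.mem_Icc] at hN
      rw [Finset.mem_coe, Finset.mem_product, Finset.mem_range, Finset.mem_filter, Finset.mem_Icc]
      refine ⟨⟨⟨by simp, ?_⟩, ?_⟩, ?_⟩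
      · have := Nat.mod_lt (N - 1) hP
        show (N - 1) % P + 1 ≤ P
        omega
      · show Q ((N - 1) % P + 1)
        refine (hQ _ _ ?_).2 hN.2
        have h2 := Nat.mod_add_div (N - 1) P
        have h3 : N = (N - 1) % P + P * ((N - 1) / P) + 1 := by omega
        refine ⟨(((N - 1) / P : ℕ) : ℤ), ?_⟩
        have h4 : (N : ℤ) = (((N - 1) % P : ℕ) : ℤ) + (P : ℤ) * (((N - 1) / P : ℕ) : ℤ) + 1 := by exact_mod_cast h3
        push_cast at h4 ⊢
        linear_combination h4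
      · show (N - 1) / P < Y / P + 1
        have : (N - 1) / P ≤ Y / P := Nat.div_le_div_right (by omega)
        omega
    · intro a ha b hb hab
      rw [Finset.mem_coe, Finset.mem_filter, Finset.mem_Icc] at ha hb
      rw [Prod.mk.injEq] at hab
      have h2 := Nat.mod_add_div (a - 1) P
      have h3 := Nat.mod_add_div (b - 1) P
      have h4 : (a - 1) % P = (b - 1) % P := by omega
      rw [h4, hab.2, h3] at h2
      omega
  rw [Finset.card_product, Finset.card_range] at h1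
  refine h1.trans (le_of_eq ?_)
  rw [t1_cnt]

open Classical in
/-- The lower bound for the main term. -/
theorem t1_main (P0 G : ℤ[X]) (w x : ℕ) (A : ℕ → Prop) (V : ℝ) (f : ℕ → ℝ)
    (hf0 : ∀ n, 0 ≤ f n) (hf : ∀ n ∈ Icc 1 x, A n → f n = 1)
    (hL : ∀ v : ℕ, IsCoprime (P0.eval (v : ℤ)) (primorial w : ℤ) →
      V ≤ (gd P0 (primorial w)).card * (cnt (fun n => n ≡ v [MOD primorial w] ∧ A n) x : ℝ)) (N : ℕ) :
    ((primorial w : ℝ) * (gN P0 G N (primorial w)).card) * V ≤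
      ((primorial w).totient * (gd P0 (primorial w)).card) *
        ∑ n ∈ Icc 1 x, f n * H57M.Lam w ((N : ℤ) - G.eval (n : ℤ)) := by
  obtain ⟨P, hP⟩ : ∃ P : ℕ, P = primorial w := ⟨_, rfl⟩
  have hP0 : 0 < P := by rw [hP]; exact primorial_pos w
  have hPr : (0 : ℝ) < P := by exact_mod_cast hP0
  have hφ : (0 : ℝ) < P.totient := by exact_mod_cast Nat.totient_pos.2 hP0
  have hgd : ∀ v ∈ gN P0 G N P, v ∈ gd P0 P := fun v hv => (Finset.mem_filter.1 hv).1
  rw [← hP] at hL ⊢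
  -- the sum over the good classes
  have h1 : ∑ v ∈ gN P0 G N P, ∑ n ∈ (Icc 1 x).filter (fun n => n ≡ v [MOD P]),
      f n * ((P : ℝ) / P.totient) ≤
      ∑ n ∈ Icc 1 x, f n * H57M.Lam w ((N : ℤ) - G.eval (n : ℤ)) := by
    have h2 := Finset.sum_fiberwise_of_maps_to (s := Icc 1 x) (t := range P)
      (g := fun n => n % P) (fun n _ => Finset.mem_range.2 (Nat.mod_lt _ hP0))
      (fun n : ℕ => f n * H57M.Lam w ((N : ℤ) - G.eval (n : ℤ)))
    rw [← h2]
    have hnn : ∀ n : ℕ, 0 ≤ f n * H57M.Lam w ((N : ℤ) - G.eval (n : ℤ)) := by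
      intro n
      refine mul_nonneg (hf0 n) ?_
      unfold H57M.Lam
      split_ifs
      · positivity
      · exact le_refl _
    refine le_trans ?_ (Finset.sum_le_sum_of_subset_of_nonneg (s := gN P0 G N P) (t := range P) ?_ ?_)
    · refine Finset.sum_le_sum fun v hv => ?_
      have hvP : v < P := Finset.mem_range.1 (Finset.mem_filter.1 (hgd v hv)).1
      have e : (Icc 1 x).filter (fun n => n ≡ v [MOD P]) =
          (Icc 1 x).filter (fun n => n % P = v) := by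
        refine Finset.filter_congr fun n _ => ?_
        unfold Nat.ModEq
        rw [Nat.mod_eq_of_lt hvP]
      rw [e]
      refine Finset.sum_le_sum fun n hn => ?_
      have hnv := (Finset.mem_filter.1 hn).2
      apply mul_le_mul_of_nonneg_left _ (hf0 n)
      have hcop : IsCoprime ((N : ℤ) - G.eval (n : ℤ)) (P : ℤ) := by
        have hv2 := (Finset.mem_filter.1 hv).2
        have hd : (P : ℤ) ∣ (n : ℤ) - v := by
          have h := Nat.mod_add_div n P
          rw [hnv] at h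
          exact ⟨((n / P : ℕ) : ℤ), by
            have : (n : ℤ) = (v : ℤ) + (P : ℤ) * ((n / P : ℕ) : ℤ) := by exact_mod_cast h.symm
            linear_combination this⟩
        obtain ⟨c, hc⟩ := hd.trans (Polynomial.sub_dvd_eval_sub (n : ℤ) (v : ℤ) G)
        have e2 : (N : ℤ) - G.eval (n : ℤ) = (N : ℤ) - G.eval (v : ℤ) + (P : ℤ) * (-c) := by
          linear_combination -hc
        rw [e2, IsCoprime.add_mul_left_left_iff]
        exact hv2
      unfold H57M.Lam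
      rw [← hP, if_pos hcop]
    · intro v hv
      exact (Finset.mem_filter.1 (hgd v hv)).1
    · intro v _ _
      exact Finset.sum_nonneg fun n _ => hnn n
  have h3 : ∀ v ∈ gN P0 G N P, V ≤ (gd P0 P).card *
      ∑ n ∈ (Icc 1 x).filter (fun n => n ≡ v [MOD P]), f n := by
    intro v hv
    refine (hL v (Finset.mem_filter.1 (hgd v hv)).2).trans ?_
    apply mul_le_mul_of_nonneg_left _ (Nat.cast_nonneg _)
    have h4 : (cnt (fun n => n ≡ v [MOD P] ∧ A n) x : ℝ) =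
        ∑ n ∈ (Icc 1 x).filter (fun n => n ≡ v [MOD P] ∧ A n), f n := by
      rw [t1_cnt, Finset.card_eq_sum_ones]
      push_cast
      refine Finset.sum_congr rfl fun n hn => ?_
      rw [Finset.mem_filter] at hn
      exact (hf n hn.1 hn.2.2).symm
    rw [h4]
    refine Finset.sum_le_sum_of_subset_of_nonneg ?_ fun n _ _ => hf0 n
    intro n hn
    rw [Finset.mem_filter] at hn ⊢
    exact ⟨hn.1, hn.2.1⟩
  have h4 : ((gN P0 G N P).card : ℝ) * V ≤ (gd P0 P).card *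
      ∑ v ∈ gN P0 G N P, ∑ n ∈ (Icc 1 x).filter (fun n => n ≡ v [MOD P]), f n := by
    rw [Finset.mul_sum, ← nsmul_eq_mul, ← Finset.sum_const]
    exact Finset.sum_le_sum h3
  have h5 : ∑ v ∈ gN P0 G N P, ∑ n ∈ (Icc 1 x).filter (fun n => n ≡ v [MOD P]),
      f n * ((P : ℝ) / P.totient) =
      (∑ v ∈ gN P0 G N P, ∑ n ∈ (Icc 1 x).filter (fun n => n ≡ v [MOD P]), f n) *
        ((P : ℝ) / P.totient) := by
    rw [Finset.sum_mul]
    refine Finset.sum_congr rfl fun v _ => ?_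
    rw [Finset.sum_mul]
  rw [h5] at h1
  obtain ⟨Sg1, hSg1⟩ : ∃ S1 : ℝ, S1 = ∑ v ∈ gN P0 G N P, ∑ n ∈ (Icc 1 x).filter (fun n => n ≡ v [MOD P]), f n := ⟨_, rfl⟩
  rw [← hSg1] at h1 h4
  calc (P : ℝ) * (gN P0 G N P).card * V = P * ((gN P0 G N P).card * V) := by ring
    _ ≤ P * ((gd P0 P).card * Sg1) := mul_le_mul_of_nonneg_left h4 hPr.le
    _ = (P.totient * (gd P0 P).card) * (Sg1 * ((P : ℝ) / P.totient)) := by
        field_simp
    _ ≤ _ := mul_le_mul_of_nonneg_left h1 (by positivity)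

/-- Proof. (Compare `H57M.block_weighted` in `H57M/Q2.lean`, which is a weaker variant, and `H57M.Q2_main`.) Put `x = argCount G (Y/2)`,
`P = primorial w` (`w ≥ w1`, `w1` from `hL`), `φ = φ(P)`, `a(N) = #gN P0 G N P`, `b = #gd P0 P`, `M = c x/(log x)^g`, and `f n = 1` if `1 ≤ n ≤ x` and `A x n`,
`f n = 0` otherwise. `H57M.argSet_eq`, `H57M.argCount_bounds`, `H57M.Q2_scale`: for large `Y` one has `G(n) < Y/2` for `1 ≤ n ≤ x`,
`argCount G Y ≤ C₁ x`, `log Y ≤ C₁ log x`, `log x ≤ C₁ log Y`, `Y^(1/C₁) ≤ x`.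

Engine: `H57M.engine_all G hG hlc`, used with the exponent `C = g + 2`, the constant `D`, the function `f` and
`S = D x/(log x)^g`. Its hypotheses: `f ≤ 1 ≤ (log Y)^C`; `argCount G Y ≤ C₁ x ≤ S (log Y)^C` for large `Y`; for squarefree
`q ≤ (log Y)^K' ≤ (log x)^(K'' )` (`K'' = |K'| + 1`, as `log Y ≤ C₁ log x`) the sum of `f` over the class `b mod q` is `cnt (n ≡ b ∧ A x n) x ≤
D^(ω(q)+1) (x/(log x)^g)/q = D^ω(q) S/q` by `hU`. So `∑_{N ≤ Y} |∑_n f(n) (lp - Lam w)(N - G(n))| ≤ ε Y S` with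
`ε = η c σ0/(8 D)` (`σ0` from `hloc (η/4)`), where the inner sum is over all `n ≤ x` if `N > Y/2`.

Let `Y/2 < N ≤ Y` be in the filter. (i) `∑ f(n) lp(N - G(n)) ≤ log Y · cnt (A x ∧ PG)` (`lp m = log m` if `m` is prime, `0` otherwise; `m ≤ Y`).
(ii) `∑ f(n) Lam w (N - G(n)) ≥ (P/φ) ∑_{v ∈ gN} cnt (n ≡ v ∧ A x n) x ≥ (P/φ) a(N) M/b` by `hL` (compare `Q2_main`; `N - G(n) ≡ N - G(v)`
modulo `P` for `n ≡ v`; `b > 0` as `a(N) > 0`). The hypothesis on `N` says
`log Y · cnt (A x ∧ PG) < (1/2) M P a(N)/(φ b)`. Hence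
`|∑ f (lp - Lam)(N - G(n))| ≥ (1/2) M P a(N)/(φ b)`. If moreover `P a(N) ≥ σ0 φ b` this is at least `σ0 M/2`: the number of such `N` is at
most `ε Y S/(σ0 M/2) = 2 ε D Y/(c σ0) = η Y/4`. The other `N` have `0 < a(N)`, `P a(N) < σ0 φ b`, which depends only on `N` modulo `P`:
by `hloc` at most `(η/4) P (Y/P + 1) ≤ η Y/2` of the `N ≤ Y` (`Y ≥ P`). -/
theorem block_low (G : ℤ[X]) (hG : 1 ≤ G.natDegree) (hlc : 0 < G.leadingCoeff) (P0 : ℤ[X]) (g : ℕ)
    (A : ℕ → ℕ → Prop) (c D : ℝ) (hc : 0 < c) (hD : 1 ≤ D) (hU : Upper g D A)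
    (hL : Lower P0 g c A) (hloc : Local P0 G) (η : ℝ) (hη : 0 < η) :
    ∃ w0 : ℕ, ∀ w : ℕ, w0 ≤ w → ∃ Y0 : ℕ, ∀ Y : ℕ, Y0 ≤ Y →
      (bcnt (fun N : ℕ => 0 < (gN P0 G N (primorial w)).card ∧
        2 * (((primorial w).totient : ℝ) * (gd P0 (primorial w)).card * (Real.log Y *
          (cnt (fun n => A (argCount G (Y / 2)) n ∧ PG G N n) (argCount G (Y / 2)) : ℝ))) <
        c * ((argCount G (Y / 2) : ℝ) / Real.log (argCount G (Y / 2)) ^ g) *
          ((primorial w : ℝ) * (gN P0 G N (primorial w)).card)) Y : ℝ) ≤ η * Y := by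
  classical
  obtain ⟨B, hB, hsc⟩ := t1_scale G hG hlc
  obtain ⟨σ0, hσ0, hloc⟩ := hloc (η / 4) (by linarith)
  obtain ⟨w1, hL⟩ := hL
  obtain ⟨c0, hc0⟩ := t1_lower G hlc
  have hg2 : (1 : ℝ) ≤ (g : ℝ) + 2 := by
    have : (0 : ℝ) ≤ g := Nat.cast_nonneg g
    linarith
  obtain ⟨K', hK'⟩ := H57M.engine_all G hG hlc ((g : ℝ) + 2) D hg2 hD
  have hD0 : 0 < D := by linarith
  have hB0 : 0 < B := by linarith
  obtain ⟨we, hwe⟩ := hK' (η * c * σ0 / (8 * D)) (by positivity)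
  refine ⟨max we w1, fun w hw => ?_⟩
  obtain ⟨Ye, hYe⟩ := hwe w ((le_max_left _ _).trans hw)
  obtain ⟨xL, hxL⟩ := hL w ((le_max_right _ _).trans hw)
  obtain ⟨xU, hxU⟩ := hU (max K' 0 + 1)
  have hBg : 1 ≤ B ^ (g + 1) := one_le_pow₀ hB
  have hBK : 0 < B ^ (max K' 0) := Real.rpow_pos_of_pos hB0 _
  obtain ⟨L0, hL0⟩ : ∃ L0 : ℝ, L0 = (xL : ℝ) + xU + B * (B ^ (g + 1) + 2) + B ^ (max K' 0) + c0 := ⟨_, rfl⟩
  have hz1 : (0 : ℝ) ≤ xL := Nat.cast_nonneg _
  have hz2 : (0 : ℝ) ≤ xU := Nat.cast_nonneg _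
  have hz3 : 0 < B * (B ^ (g + 1) + 2) := by positivity
  have hz4 : (0 : ℝ) ≤ c0 := Nat.cast_nonneg _
  obtain ⟨Ys, hYs⟩ := hsc L0
  obtain ⟨P, hPdef⟩ : ∃ P : ℕ, P = primorial w := ⟨_, rfl⟩
  have hP0 : 0 < P := by rw [hPdef]; exact primorial_pos w
  rw [← hPdef]
  have hlocw := hloc w
  rw [← hPdef] at hlocw
  refine ⟨max (max Ye Ys) P, fun Y hY => ?_⟩
  have hY1 : Ye ≤ Y := le_trans ((le_max_left _ _).trans (le_max_left _ _)) hY
  have hY2 : Ys ≤ Y := le_trans ((le_max_right _ _).trans (le_max_left _ _)) hY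
  have hYP : P ≤ Y := le_trans (le_max_right _ _) hY
  obtain ⟨s1, s2, s3, s4, s5, s6, s7, s8⟩ := hYs Y hY2
  obtain ⟨x, hx⟩ : ∃ x : ℕ, x = argCount G (Y / 2) := ⟨_, rfl⟩
  rw [← hx] at s1 s2 s3 s4 s5 s6 s7 ⊢
  have hxLx : xL ≤ x := by
    have : (xL : ℝ) ≤ x := by linarith
    exact_mod_cast this
  have hxUx : xU ≤ x := by
    have : (xU : ℝ) ≤ x := by linarith
    exact_mod_cast this
  have hx0 : (0 : ℝ) < x := by linarith
  obtain ⟨l, hl⟩ : ∃ l : ℝ, l = Real.log x := ⟨_, rfl⟩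
  obtain ⟨ly, hly⟩ : ∃ ly : ℝ, ly = Real.log Y := ⟨_, rfl⟩
  have hxL' := hxL x hxLx
  have hxU' := hxU x hxUx
  rw [← hl] at s2 s4 s5 hxL' hxU' ⊢
  rw [← hly] at s4 s5 ⊢
  have hl1 : B * (B ^ (g + 1) + 2) ≤ l := by linarith
  have hl0 : 0 < l := by linarith
  have hly1 : B ^ (g + 1) + 2 ≤ ly := le_of_mul_le_mul_left (hl1.trans s4) hB0
  have hly3 : 3 ≤ ly := by linarith
  have hly0 : 0 < ly := by linarith
  have hBKl : B ^ (max K' 0) ≤ l := by linarith
  have hc0Y : (c0 : ℝ) ≤ Y := by linarith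
  have hY0 : (0 : ℝ) < Y := by linarith
  obtain ⟨V, hV⟩ : ∃ V : ℝ, V = (x : ℝ) / l ^ g := ⟨_, rfl⟩
  have hlg : 0 < l ^ g := by positivity
  have hV0 : 0 < V := by rw [hV]; positivity
  rw [← hV] at hxL' hxU' ⊢
  obtain ⟨f, hf⟩ : ∃ f : ℕ → ℝ, ∀ n, f n = if 1 ≤ n ∧ n ≤ x ∧ A x n then 1 else 0 := ⟨_, fun n => rfl⟩
  have hf0 : ∀ n, 0 ≤ f n := by
    intro n
    rw [hf]
    split_ifs
    · exact zero_le_one
    · exact le_rfl
  have hf1 : ∀ n, f n ≤ 1 := by
    intro n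
    rw [hf]
    split_ifs
    · exact le_rfl
    · exact zero_le_one
  have hfs : ∀ n, f n ≠ 0 → n ≤ x ∧ A x n := by
    intro n hn
    rw [hf] at hn
    by_contra hcon
    apply hn
    rw [if_neg]
    exact fun h => hcon h.2
  -- the engine
  have hrp : ly ^ ((g : ℝ) + 2) = ly ^ g * ly ^ 2 := by
    rw [Real.rpow_add hly0, Real.rpow_natCast, Real.rpow_two]
  have hxV : (x : ℝ) = V * l ^ g := by
    rw [hV]
    field_simp
  have hEng := hYe Y hY1 f (D * V) hf0 (fun n => by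
      rw [← hly]
      exact (hf1 n).trans (Real.one_le_rpow (by linarith) (by linarith))) (by
      rw [← hly, hrp]
      have h1 : l ^ g ≤ B ^ g * ly ^ g := by
        rw [← mul_pow]
        exact pow_le_pow_left₀ hl0.le s4 g
      have h2 : B ^ (g + 1) ≤ ly ^ 2 := by nlinarith
      have h3 : 0 < ly ^ g := by positivity
      calc (argCount G Y : ℝ) ≤ B * x := s3
        _ = B * (V * l ^ g) := by rw [← hxV]
        _ ≤ B * (V * (B ^ g * ly ^ g)) := by gcongr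
        _ = (V * ly ^ g) * B ^ (g + 1) := by ring
        _ ≤ (V * ly ^ g) * ly ^ 2 := mul_le_mul_of_nonneg_left h2 (by positivity)
        _ = 1 * (V * (ly ^ g * ly ^ 2)) := by ring
        _ ≤ D * (V * (ly ^ g * ly ^ 2)) := mul_le_mul_of_nonneg_right hD (by positivity)
        _ = _ := by ring) (by
      intro q b hq hqb
      rw [← hly] at hqb
      have e : ∑ n ∈ (Icc 1 (argCount G Y)).filter (fun n => n ≡ b [MOD q]), f n =
          (cnt (fun n => n ≡ b [MOD q] ∧ A x n) x : ℝ) := by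
        unfold cnt
        rw [Finset.card_eq_sum_ones]
        push_cast
        rw [Finset.sum_filter, Finset.sum_filter]
        symm
        rw [← Finset.sum_subset (Finset.Icc_subset_Icc_right s7 : Icc 1 x ⊆ Icc 1 (argCount G Y))]
        · refine Finset.sum_congr rfl fun n hn => ?_
          rw [Finset.mem_Icc] at hn
          rw [hf]
          by_cases h1 : n ≡ b [MOD q]
          · by_cases h2 : A x n
            · rw [if_pos ⟨h1, h2⟩, if_pos h1, if_pos ⟨hn.1, hn.2, h2⟩]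
            · rw [if_neg fun h => h2 h.2, if_pos h1, if_neg fun h => h2 h.2.2]
          · rw [if_neg fun h => h1 h.1, if_neg h1]
        · intro n _ hn2
          have h3 : f n = 0 := by
            by_contra h0
            apply hn2
            have h4 := hf n
            by_contra h5
            apply h0
            rw [h4, if_neg]
            exact fun h => h5 (Finset.mem_Icc.2 ⟨h.1, h.2.1⟩)
          rw [h3, ite_self]
      rw [e]
      refine (hxU' q b hq (hqb.trans ?_)).trans (le_of_eq ?_)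
      · have hm0 : 0 ≤ max K' 0 := le_max_right _ _
        calc ly ^ K' ≤ ly ^ (max K' 0) :=
              Real.rpow_le_rpow_of_exponent_le (by linarith) (le_max_left _ _)
          _ ≤ (B * l) ^ (max K' 0) := Real.rpow_le_rpow hly0.le s5 hm0
          _ = B ^ (max K' 0) * l ^ (max K' 0) := Real.mul_rpow hB0.le hl0.le
          _ ≤ l * l ^ (max K' 0) := mul_le_mul_of_nonneg_right hBKl (Real.rpow_nonneg hl0.le _)
          _ = l ^ (max K' 0 + 1) := by
            rw [Real.rpow_add hl0, Real.rpow_one, mul_comm]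
      · rw [pow_succ]
        ring)
  -- notation
  obtain ⟨R, hR⟩ : ∃ R : ℕ → ℝ, ∀ N, R N = ∑ n ∈ Icc 1 x, f n * H68T.lp ((N : ℤ) - G.eval (n : ℤ)) :=
    ⟨_, fun N => rfl⟩
  obtain ⟨M, hM⟩ : ∃ M : ℕ → ℝ, ∀ N, M N = ∑ n ∈ Icc 1 x, f n * H57M.Lam w ((N : ℤ) - G.eval (n : ℤ)) :=
    ⟨_, fun N => rfl⟩
  have hdiff : ∀ N ∈ Ioc (Y / 2) Y,
      ∑ n ∈ (Icc 1 (argCount G Y)).filter (fun n : ℕ => G.eval (n : ℤ) < N),
          f n * (H68T.lp ((N : ℤ) - G.eval (n : ℤ)) - H57M.Lam w ((N : ℤ) - G.eval (n : ℤ))) =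
        R N - M N := by
    intro N hN
    rw [Finset.mem_Ioc] at hN
    have e : R N - M N = ∑ n ∈ Icc 1 x,
        f n * (H68T.lp ((N : ℤ) - G.eval (n : ℤ)) - H57M.Lam w ((N : ℤ) - G.eval (n : ℤ))) := by
      rw [hR, hM, ← Finset.sum_sub_distrib]
      exact Finset.sum_congr rfl fun n _ => by ring
    rw [e]
    symm
    refine Finset.sum_subset ?_ ?_
    · intro n hn
      rw [Finset.mem_Icc] at hn
      rw [Finset.mem_filter, Finset.mem_Icc]
      refine ⟨⟨hn.1, hn.2.trans s7⟩, ?_⟩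
      have h1 := s6 n hn.1 hn.2
      have h2 : ((Y / 2 : ℕ) : ℤ) < N := by exact_mod_cast hN.1
      linarith
    · intro n hn hn2
      have : f n = 0 := by
        by_contra h0
        apply hn2
        rw [Finset.mem_filter, Finset.mem_Icc] at hn
        rw [Finset.mem_Icc]
        exact ⟨hn.1.1, (hfs n h0).1⟩
      rw [this, zero_mul]
  -- the upper bound for R
  have hRle : ∀ N : ℕ, N ≤ Y → R N ≤ 3 / 2 * (ly * (cnt (fun n => A x n ∧ PG G N n) x : ℝ)) := by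
    intro N hN
    rw [hR]
    have h1 : (3 : ℝ) / 2 * (ly * (cnt (fun n => A x n ∧ PG G N n) x : ℝ)) =
        ∑ n ∈ Icc 1 x, if A x n ∧ PG G N n then 3 / 2 * ly else 0 := by
      rw [← Finset.sum_filter, Finset.sum_const, nsmul_eq_mul]
      have h2 : cnt (fun n => A x n ∧ PG G N n) x = ((Icc 1 x).filter fun n => A x n ∧ PG G N n).card := by
        exact t1_cnt _ _
      rw [h2]
      ring
    rw [h1]
    refine Finset.sum_le_sum fun n hn => ?_
    by_cases h0 : f n = 0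
    · rw [h0, zero_mul]
      split_ifs
      · positivity
      · exact le_rfl
    · have hA := (hfs n h0).2
      by_cases hpr : ((N : ℤ) - G.eval (n : ℤ)).toNat.Prime
      · have hpos : 0 < (N : ℤ) - G.eval (n : ℤ) := by
          by_contra hcon
          have h3 : ((N : ℤ) - G.eval (n : ℤ)).toNat = 0 := Int.toNat_of_nonpos (not_lt.1 hcon)
          rw [h3] at hpr
          exact Nat.not_prime_zero hpr
        have hPG : PG G N n := ⟨_, hpr, (Int.toNat_of_nonneg hpos.le).symm⟩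
        rw [if_pos ⟨hA, hPG⟩]
        have h4 : H68T.lp ((N : ℤ) - G.eval (n : ℤ)) ≤ 3 / 2 * ly := by
          unfold H68T.lp
          rw [if_pos hpr]
          have h5 : (((N : ℤ) - G.eval (n : ℤ) : ℤ) : ℝ) ≤ 2 * Y := by
            have h6 := hc0 n
            have h7 : ((N : ℤ) - G.eval (n : ℤ)) ≤ (Y : ℤ) + c0 := by
              have : (N : ℤ) ≤ Y := by exact_mod_cast hN
              linarith
            have h8 : (((N : ℤ) - G.eval (n : ℤ) : ℤ) : ℝ) ≤ (Y : ℝ) + c0 := by exact_mod_cast h7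
            linarith
          have h9 : (0 : ℝ) < (((N : ℤ) - G.eval (n : ℤ) : ℤ) : ℝ) := by exact_mod_cast hpos
          calc Real.log (((N : ℤ) - G.eval (n : ℤ) : ℤ) : ℝ) ≤ Real.log (2 * Y) := Real.log_le_log h9 h5
            _ = Real.log 2 + ly := by rw [Real.log_mul (by norm_num) hY0.ne', hly]
            _ ≤ 1 + ly := by
              have := Real.log_two_lt_d9
              linarith
            _ ≤ _ := by linarith
        calc f n * H68T.lp ((N : ℤ) - G.eval (n : ℤ)) ≤ f n * (3 / 2 * ly) :=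
              mul_le_mul_of_nonneg_left h4 (hf0 n)
          _ ≤ 1 * (3 / 2 * ly) := mul_le_mul_of_nonneg_right (hf1 n) (by positivity)
          _ = _ := one_mul _
      · have h4 : H68T.lp ((N : ℤ) - G.eval (n : ℤ)) = 0 := by
          unfold H68T.lp
          rw [if_neg hpr]
        rw [h4, mul_zero]
        split_ifs
        · positivity
        · exact le_rfl
  -- the lower bound for M
  have hMge : ∀ N : ℕ, ((P : ℝ) * (gN P0 G N P).card) * (c * V) ≤ (P.totient * (gd P0 P).card) * M N := by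
    intro N
    rw [hM, hPdef]
    refine t1_main P0 G w x (A x) (c * V) f hf0 ?_ ?_ N
    · intro n hn hAn
      rw [Finset.mem_Icc] at hn
      rw [hf, if_pos ⟨hn.1, hn.2, hAn⟩]
    · intro v hv
      exact hxL' v hv
  obtain ⟨Q, hQ⟩ : ∃ Q : ℕ → Prop, ∀ N, Q N ↔ (0 < (gN P0 G N P).card ∧
      (P : ℝ) * (gN P0 G N P).card < σ0 * (P.totient * (gd P0 P).card)) := ⟨_, fun N => Iff.rfl⟩
  have hQP : (cnt Q P : ℝ) ≤ η / 4 * P := by
    have h1 : cnt Q P = cnt (fun N => 0 < (gN P0 G N P).card ∧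
        (P : ℝ) * (gN P0 G N P).card < σ0 * (P.totient * (gd P0 P).card)) P := by
      exact congrArg (fun q => cnt q P) (funext fun N => propext (hQ N))
    rw [h1]
    exact hlocw
  obtain ⟨B1, hB1⟩ : ∃ B1 : Finset ℕ, B1 = (Icc 1 Y).filter Q := ⟨_, rfl⟩
  obtain ⟨B2, hB2⟩ : ∃ B2 : Finset ℕ, B2 = (Ioc (Y / 2) Y).filter (fun N => c * V * σ0 / 4 ≤ |R N - M N|) := ⟨_, rfl⟩
  have hc1 : (B1.card : ℝ) ≤ η / 2 * Y := by
    have h1 : (B1.card : ℝ) ≤ cnt Q P * ((Y / P : ℕ) + 1) := by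
      rw [hB1]
      exact_mod_cast t1_count P Y hP0 Q (fun N N' h => by
        rw [hQ, hQ, t1_gN_mod P0 G h])
    have hPr : (0 : ℝ) < P := by exact_mod_cast hP0
    have h2 : ((Y / P : ℕ) : ℝ) * P ≤ Y := by
      exact_mod_cast Nat.div_mul_le_self Y P
    have h3 : (P : ℝ) ≤ Y := by exact_mod_cast hYP
    calc (B1.card : ℝ) ≤ cnt Q P * ((Y / P : ℕ) + 1) := h1
      _ ≤ (η / 4 * P) * ((Y / P : ℕ) + 1) :=
          mul_le_mul_of_nonneg_right hQP (by positivity)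
      _ = η / 4 * (((Y / P : ℕ) : ℝ) * P + P) := by ring
      _ ≤ η / 4 * (Y + Y) := by
          apply mul_le_mul_of_nonneg_left (by linarith) (by linarith)
      _ = η / 2 * Y := by ring
  have hc2 : (B2.card : ℝ) ≤ η / 2 * Y := by
    have h1 : (B2.card : ℝ) * (c * V * σ0 / 4) ≤ η * c * σ0 / (8 * D) * Y * (D * V) := by
      calc (B2.card : ℝ) * (c * V * σ0 / 4) = ∑ N ∈ B2, c * V * σ0 / 4 := by
            rw [Finset.sum_const, nsmul_eq_mul]
        _ ≤ ∑ N ∈ B2, |R N - M N| := Finset.sum_le_sum fun N hN => by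
            rw [hB2] at hN
            exact (Finset.mem_filter.1 hN).2
        _ = ∑ N ∈ B2, |∑ n ∈ (Icc 1 (argCount G Y)).filter (fun n : ℕ => G.eval (n : ℤ) < N),
              f n * (H68T.lp ((N : ℤ) - G.eval (n : ℤ)) - H57M.Lam w ((N : ℤ) - G.eval (n : ℤ)))| := by
            refine Finset.sum_congr rfl fun N hN => ?_
            rw [hB2] at hN
            rw [hdiff N (Finset.mem_filter.1 hN).1]
        _ ≤ ∑ N ∈ Icc 1 Y, |∑ n ∈ (Icc 1 (argCount G Y)).filter (fun n : ℕ => G.eval (n : ℤ) < N),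
              f n * (H68T.lp ((N : ℤ) - G.eval (n : ℤ)) - H57M.Lam w ((N : ℤ) - G.eval (n : ℤ)))| := by
            refine Finset.sum_le_sum_of_subset_of_nonneg ?_ fun _ _ _ => abs_nonneg _
            intro N hN
            rw [hB2] at hN
            have := Finset.mem_Ioc.1 (Finset.mem_filter.1 hN).1
            exact Finset.mem_Icc.2 ⟨by omega, this.2⟩
        _ ≤ _ := hEng
    have h2 : η * c * σ0 / (8 * D) * Y * (D * V) = (η / 2 * Y) * (c * V * σ0 / 4) := by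
      field_simp
      ring
    rw [h2] at h1
    exact le_of_mul_le_mul_right h1 (by positivity)
  have hsub : ∀ N ∈ Ioc (Y / 2) Y, (0 < (gN P0 G N P).card ∧
      2 * ((P.totient : ℝ) * (gd P0 P).card * (ly * (cnt (fun n => A x n ∧ PG G N n) x : ℝ))) <
        c * V * ((P : ℝ) * (gN P0 G N P).card)) → N ∈ B1 ∪ B2 := by
    intro N hN1 hN2
    have hN1' := Finset.mem_Ioc.1 hN1
    rw [Finset.mem_union]
    by_cases hq : Q N
    · left
      rw [hB1]
      exact Finset.mem_filter.2 ⟨Finset.mem_Icc.2 ⟨by omega, hN1'.2⟩, hq⟩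
    · right
      rw [hB2]
      refine Finset.mem_filter.2 ⟨hN1, ?_⟩
      have hge : σ0 * (P.totient * (gd P0 P).card) ≤ (P : ℝ) * (gN P0 G N P).card := by
        by_contra hlt
        exact hq ((hQ N).2 ⟨hN2.1, not_le.1 hlt⟩)
      have hgd0 : (0 : ℝ) < P.totient * (gd P0 P).card := by
        have h1 : 0 < P.totient := Nat.totient_pos.2 hP0
        have h2 : 0 < (gd P0 P).card := lt_of_lt_of_le hN2.1 (Finset.card_filter_le _ _)
        exact_mod_cast Nat.mul_pos h1 h2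
      have hm := hMge N
      have hr := hRle N hN1'.2
      obtain ⟨a, ha⟩ : ∃ a : ℝ, a = (P : ℝ) * (gN P0 G N P).card := ⟨_, rfl⟩
      obtain ⟨b, hb⟩ : ∃ b : ℝ, b = (P.totient : ℝ) * (gd P0 P).card := ⟨_, rfl⟩
      obtain ⟨k, hk⟩ : ∃ k : ℝ, k = ly * (cnt (fun n => A x n ∧ PG G N n) x : ℝ) := ⟨_, rfl⟩
      have hlt := hN2.2
      rw [← ha] at hge hm hlt
      rw [← hb] at hge hm hgd0 hlt
      rw [← hk] at hr hlt
      have h1 : b * R N ≤ b * (3 / 2 * k) := mul_le_mul_of_nonneg_left hr hgd0.le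
      have h2 : (σ0 * b) * (c * V) ≤ a * (c * V) := mul_le_mul_of_nonneg_right hge (by positivity)
      have h3 : b * (c * V * σ0 / 4) ≤ b * (M N - R N) := by nlinarith
      have h4 : c * V * σ0 / 4 ≤ M N - R N := le_of_mul_le_mul_left h3 hgd0
      rw [abs_sub_comm]
      exact h4.trans (le_abs_self _)
  have h6 : (bcnt (fun N : ℕ => 0 < (gN P0 G N P).card ∧
      2 * ((P.totient : ℝ) * (gd P0 P).card * (ly * (cnt (fun n => A x n ∧ PG G N n) x : ℝ))) <
        c * V * ((P : ℝ) * (gN P0 G N P).card)) Y : ℝ) ≤ B1.card + B2.card := by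
    have h7 : (bcnt (fun N : ℕ => 0 < (gN P0 G N P).card ∧
      2 * ((P.totient : ℝ) * (gd P0 P).card * (ly * (cnt (fun n => A x n ∧ PG G N n) x : ℝ))) <
        c * V * ((P : ℝ) * (gN P0 G N P).card)) Y) ≤ (B1 ∪ B2).card := by
      exact t1_bcnt_le _ _ _ fun N hN1 hN2 => hsub N hN1 hN2
    exact_mod_cast h7.trans (Finset.card_union_le _ _)
  refine h6.trans ?_
  linarith

end Pool.Agent.Lib.H59W
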