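import Pool.Agent.Lib.H59W.Defs
import Pool.Agent.Lib.H33B.FS

/-!
# Chunk T2: the local factors
-/

open Finset Polynomial

namespace Pool.Agent.Lib.H59W

open Pool.Agent.Lib.H59 (argSet argCount Admissible primeCount omegaN seriesTrunc rootCount)

/-- The number of the good residues by the Chinese remainder theorem. -/
theorem t2_gN (P0 G : ℤ[X]) (N w : ℕ) : (gN P0 G N (primorial w)).card =
    ((range (H33B.PW (w + 1))).filter (fun b : ℕ => IsCoprime ((P0 * (C (N : ℤ) - G)).eval (b : ℤ)) (H33B.PW (w + 1) : ℤ))).card := by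
  congr 1
  ext b
  unfold gN gd
  rw [mem_filter, mem_filter, mem_filter, eval_mul, IsCoprime.mul_left_iff, eval_sub, eval_C]
  exact and_assoc

theorem t2_gd (P0 : ℤ[X]) (w : ℕ) : (gd P0 (primorial w)).card =
    ((range (H33B.PW (w + 1))).filter (fun b : ℕ => IsCoprime (P0.eval (b : ℤ)) (H33B.PW (w + 1) : ℤ))).card := by
  congr 1

theorem t2_mod (P0 G : ℤ[X]) (N P : ℕ) : gN P0 G (N % P) P = gN P0 G N P := by
  unfold gN
  ext v
  rw [mem_filter, mem_filter]
  have h := Nat.mod_add_div N P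
  have e : (N : ℤ) - G.eval (v : ℤ) = ((N % P : ℕ) : ℤ) - G.eval (v : ℤ) + (P : ℤ) * ((N / P : ℕ) : ℤ) := by
    have : (N : ℤ) = ((N % P : ℕ) : ℤ) + (P : ℤ) * ((N / P : ℕ) : ℤ) := by exact_mod_cast h.symm
    linear_combination this
  rw [e, IsCoprime.add_mul_left_left_iff]

theorem t2_cnt (A : ℕ → Prop) (x : ℕ) (S : Finset ℕ) (f : ℕ → ℕ) (hf : Set.InjOn f (Icc 1 x : Finset ℕ))
    (h : ∀ n, 1 ≤ n → n ≤ x → A n → f n ∈ S) : cnt A x ≤ S.card := by
  classical
  unfold cnt
  refine card_le_card_of_injOn f (fun n hn => ?_) (hf.mono fun n hn => ?_)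
  · have h1 := mem_filter.1 (mem_coe.1 hn)
    have h2 := mem_Icc.1 h1.1
    exact mem_coe.2 (h n h2.1 h2.2 h1.2)
  · exact (mem_filter.1 (mem_coe.1 hn)).1

theorem t2_inj (P : ℕ) : Set.InjOn (fun N => N % P) (Icc 1 P : Finset ℕ) := by
  intro a ha b hb h
  rw [mem_coe, mem_Icc] at ha hb
  have h1 : a ≡ b [MOD P] := h
  refine Nat.ModEq.eq_of_abs_lt h1 ?_
  rw [abs_lt]
  constructor <;> omega

/-- Proof. `H57M.local_avg ∅ G hG`: for `H = ∅` the set `H57M.cF ∅ P` is `range P`, `gd 1 P` is `range P` as well, and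
`H57M.aN ∅ G N P = gN 1 G N P`. The property depends only on `N` modulo `P` (`H57M.Q2_aN_mod`), so the number of the
`N ∈ [1, P]` is the number of the `N ∈ [0, P)`. -/
theorem local_one (G : ℤ[X]) (hG : 1 ≤ G.natDegree) : Local 1 G := by
  intro η hη
  obtain ⟨σ0, hσ, h⟩ := H57M.local_avg ∅ G hG η hη
  refine ⟨σ0, hσ, fun w => le_trans ?_ (h w)⟩
  set P := primorial w with hP
  have hP0 : 0 < P := primorial_pos w
  have h1 : gd 1 P = range P := by
    ext v
    unfold gd
    rw [mem_filter, eval_one]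
    exact ⟨fun h => h.1, fun h => ⟨h, isCoprime_one_left⟩⟩
  have h2 : H57M.cF ∅ P = range P := by
    ext v
    unfold H57M.cF
    rw [mem_filter, prod_empty]
    exact ⟨fun h => h.1, fun h => ⟨h, Nat.coprime_one_left P⟩⟩
  have h3 : ∀ N, gN 1 G N P = H57M.aN ∅ G N P := by
    intro N
    unfold gN H57M.aN
    ext v
    rw [mem_filter, mem_filter, h1, h2]
  rw [Nat.cast_le]
  refine t2_cnt _ _ _ (fun N => N % P) (t2_inj P) fun N _ _ hN => ?_
  rw [mem_filter, mem_range]
  refine ⟨Nat.mod_lt _ hP0, ?_⟩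
  rw [← h3, t2_mod, h2, ← h1]
  exact hN

/-- Proof. `H33B.moment_inv F hF hN G` with `w + 1` in place of `w` (`H33B.PW (w + 1) = primorial w`, see `H57M.EngA_Lam`), `Y = P =
primorial w`. `H33B.series_count` : `seriesTrunc F G N (w + 1) = (P/φ(P))^(g+1) #gN/P` (`gN` for `P0 = ∏ F_i`; `IsCoprime` of the
product is `IsCoprime` of both factors), and `#gd = P ∏_{p < w+1} (1 - wF F p/p)` (`H33B.count_coprime`). So with
`T_w = (P/φ(P))^g #gd/P = ∏_{p < w + 1} (1 - wF F p/p) (1 - 1/p)^(-g)` one has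
`seriesTrunc = T_w · P #gN/(φ(P) #gd)`. `T_w ≤ C₂` (`H33B.FS_bh`, `H33B.FS_mert`, or `H33B.SR2_gen` with `s = -1`: bounded above, uniformly in
`w`, since `∑ (wF F p - g)/p` is bounded, `H33B.sum_bdd`). If `0 < #gN` then all `omegaN F G N p < p` for `p < w + 1`, and
`P #gN < σ0 φ(P) #gd` gives `seriesTrunc < σ0 C₂`, so the number of these `N ≤ P` is at most
`σ0 C₂ ∑ 1/seriesTrunc ≤ σ0 C₂ C P`. Take `σ0 = η/(C C₂)`. -/
theorem local_sys {g : ℕ} (F : Fin g → ℤ[X]) (hF : H33B.Sys F) (hN : H33B.NoFix F) (G : ℤ[X])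
    (hG : 1 ≤ G.natDegree) (hlc : 0 < G.leadingCoeff) : Local (∏ i, F i) G := by
  classical
  intro η hη
  obtain ⟨C, hC, hm⟩ := H33B.moment_inv F hF hN G hG hlc
  obtain ⟨c₂, C₂', hc₂, hb'⟩ := H33B.bh_bounds F hF hN
  obtain ⟨C₂, hC₂, hb⟩ : ∃ C₂ : ℝ, 0 < C₂ ∧ ∀ z, H33B.bhTrunc F 1 z ≤ C₂ :=
    ⟨C₂', lt_of_lt_of_le hc₂ ((hb' 0).1.trans (hb' 0).2), fun z => (hb' z).2⟩
  refine ⟨η / (C * C₂), by positivity, fun w => ?_⟩
  have hPW : H33B.PW (w + 1) = primorial w := rfl
  have hP0 : 0 < primorial w := primorial_pos w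
  have hP0' : (0 : ℝ) < primorial w := by exact_mod_cast hP0
  have hφ0 : (0 : ℝ) < (primorial w).totient := by exact_mod_cast Nat.totient_pos.2 hP0
  obtain ⟨P, hP⟩ : ∃ P : ℕ, P = primorial w := ⟨_, rfl⟩
  -- the number of good residues for `F`
  have hgd : ((gd (∏ i, F i) (primorial w)).card : ℝ) / primorial w =
      H33B.bhTrunc F 1 (w + 1) * (((primorial w).totient : ℝ) / primorial w) ^ g := by
    have h1 : ((gd (∏ i, F i) (primorial w)).card : ℝ) / primorial w =
        ∏ p ∈ Nat.primesBelow (w + 1), (1 - (H33B.wF F p : ℝ) / p) := by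
      rw [t2_gd, H33B.count_coprime, Nat.cast_prod]
      have h2 : ((primorial w : ℕ) : ℝ) = ∏ p ∈ Nat.primesBelow (w + 1), (p : ℝ) := by
        rw [← hPW]
        unfold H33B.PW
        push_cast
        rfl
      rw [h2, ← prod_div_distrib]
      refine prod_congr rfl fun p hp => ?_
      have hpp := Nat.prime_of_mem_primesBelow hp
      have h3 : rootCount (∏ i, F i) p < p := H33B.wF_lt F hN p hpp
      have hp0 : (p : ℝ) ≠ 0 := by exact_mod_cast hpp.ne_zero
      rw [Nat.cast_sub h3.le, sub_div, div_self hp0]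
      rfl
    rw [h1, H33B.FS_bh F hN]
    congr 2
    have h4 := H33B.SR1_ratio (w + 1)
    rw [hPW, prod_inv_distrib] at h4
    have h5 : ((primorial w).totient : ℝ) / primorial w = ((primorial w : ℝ) / (primorial w).totient)⁻¹ := by
      rw [inv_div]
    rw [h5, h4, inv_inv]
    refine prod_congr rfl fun p _ => ?_
    rw [one_div]
  have hser : ∀ N, seriesTrunc F G N (w + 1) = ((primorial w : ℝ) / (primorial w).totient) ^ (g + 1) *
      (((gN (∏ i, F i) G N (primorial w)).card : ℝ) / primorial w) := by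
    intro N
    rw [H33B.series_count, t2_gN]
    rfl
  have hser0 : ∀ N, 0 ≤ seriesTrunc F G N (w + 1) := by
    intro N
    rw [hser]
    positivity
  have hsum0 := hm (w + 1) (primorial w) (le_of_eq hPW)
  have hsum : ∑ N ∈ (Icc 1 (primorial w)).filter (fun N => ∀ p ∈ Nat.primesBelow (w + 1), omegaN F G N p < p),
      (seriesTrunc F G N (w + 1))⁻¹ ≤ C * primorial w := by
    refine le_trans (le_of_eq ?_) hsum0
    congr
  -- the exceptional numbers
  set T : Finset ℕ := (Icc 1 (primorial w)).filter (fun N => 0 < (gN (∏ i, F i) G N (primorial w)).card ∧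
      (primorial w : ℝ) * (gN (∏ i, F i) G N (primorial w)).card <
        η / (C * C₂) * ((primorial w).totient * (gd (∏ i, F i) (primorial w)).card)) with hT
  have hTs : ∀ N ∈ T, 0 < seriesTrunc F G N (w + 1) ∧ seriesTrunc F G N (w + 1) ≤ η / C := by
    intro N hNT
    rw [hT, mem_filter] at hNT
    obtain ⟨_, h1, h2⟩ := hNT
    have h1' : (0 : ℝ) < (gN (∏ i, F i) G N (primorial w)).card := by exact_mod_cast h1
    refine ⟨?_, ?_⟩
    · rw [hser]
      positivity
    · have e1 : η / C = η / (C * C₂) * C₂ := by field_simp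
      rw [e1]
      refine le_trans ?_ (mul_le_mul_of_nonneg_left (hb (w + 1)) (by positivity))
      rw [hser]
      have h3 : H33B.bhTrunc F 1 (w + 1) = ((primorial w : ℝ) / (primorial w).totient) ^ g *
          (((gd (∏ i, F i) (primorial w)).card : ℝ) / primorial w) := by
        rw [hgd, mul_left_comm, ← mul_pow, div_mul_div_cancel₀ hφ0.ne', div_self hP0'.ne', one_pow, mul_one]
      rw [h3]
      have h4 : ((primorial w : ℝ) / (primorial w).totient) * (((gN (∏ i, F i) G N (primorial w)).card : ℝ) / primorial w) ≤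
          η / (C * C₂) * (((gd (∏ i, F i) (primorial w)).card : ℝ) / primorial w) := by
        rw [div_mul_div_comm, mul_div_assoc', div_le_div_iff₀ (by positivity) hP0']
        have h5 := mul_le_mul_of_nonneg_right h2.le hP0'.le
        calc (primorial w : ℝ) * ((gN (∏ i, F i) G N (primorial w)).card : ℝ) * primorial w
            ≤ η / (C * C₂) * ((primorial w).totient * (gd (∏ i, F i) (primorial w)).card) * primorial w := h5
          _ = η / (C * C₂) * ((gd (∏ i, F i) (primorial w)).card) * ((primorial w).totient * primorial w) := by ring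
      have h6 : (0 : ℝ) ≤ ((primorial w : ℝ) / (primorial w).totient) ^ g := by positivity
      have h7 := mul_le_mul_of_nonneg_left h4 h6
      rw [pow_succ]
      calc _ = ((primorial w : ℝ) / (primorial w).totient) ^ g * (((primorial w : ℝ) / (primorial w).totient) *
            (((gN (∏ i, F i) G N (primorial w)).card : ℝ) / primorial w)) := by ring
        _ ≤ _ := h7
        _ = _ := by ring
  have hTsub : T ⊆ (Icc 1 (primorial w)).filter (fun N => ∀ p ∈ Nat.primesBelow (w + 1), omegaN F G N p < p) := by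
    intro N hNT
    have h1 := (hTs N hNT).1
    simp only [mem_filter]
    refine ⟨(mem_filter.1 hNT).1, fun p hp => ?_⟩
    by_contra hcon
    have hpp := Nat.prime_of_mem_primesBelow hp
    have h2 : omegaN F G N p ≤ p := by
      unfold Pool.Agent.Lib.H59.omegaN
      exact (card_filter_le _ _).trans (card_range p).le
    have h3 : omegaN F G N p = p := by omega
    have h4 : seriesTrunc F G N (w + 1) = 0 := by
      unfold Pool.Agent.Lib.H59.seriesTrunc
      refine prod_eq_zero hp ?_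
      have hp0 : (p : ℝ) ≠ 0 := by exact_mod_cast hpp.ne_zero
      rw [h3, div_self hp0, sub_self, zero_mul]
    exact h1.ne' h4
  have hfin : (T.card : ℝ) * (C / η) ≤ C * primorial w := by
    calc (T.card : ℝ) * (C / η) = ∑ _N ∈ T, (C / η) := by rw [sum_const, nsmul_eq_mul]
      _ ≤ ∑ N ∈ T, (seriesTrunc F G N (w + 1))⁻¹ := by
          refine sum_le_sum fun N hNT => ?_
          obtain ⟨h1, h2⟩ := hTs N hNT
          have e : C / η = (η / C)⁻¹ := (inv_div _ _).symm
          rw [e]
          exact inv_anti₀ h1 h2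
      _ ≤ ∑ N ∈ (Icc 1 (primorial w)).filter (fun N => ∀ p ∈ Nat.primesBelow (w + 1), omegaN F G N p < p),
          (seriesTrunc F G N (w + 1))⁻¹ :=
          sum_le_sum_of_subset_of_nonneg hTsub fun N _ _ => inv_nonneg.2 (hser0 N)
      _ ≤ C * primorial w := hsum
  have hcT : (cnt (fun N => 0 < (gN (∏ i, F i) G N (primorial w)).card ∧
      (primorial w : ℝ) * (gN (∏ i, F i) G N (primorial w)).card <
        η / (C * C₂) * ((primorial w).totient * (gd (∏ i, F i) (primorial w)).card)) (primorial w)) = T.card := by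
    unfold cnt
    rw [hT]
    congr
  rw [hcT]
  have h9 : (T.card : ℝ) * (C / η) = (T.card : ℝ) * C / η := by ring
  rw [h9, div_le_iff₀ hη] at hfin
  have h10 : C * (T.card : ℝ) ≤ C * (η * primorial w) := by nlinarith
  exact le_of_mul_le_mul_left h10 hC

/-- If `N - G` (times `P0`) has no fixed prime divisor then `#gN > 0` for every primorial.

Proof. Chinese remainder theorem: `H33B.count_coprime` for the polynomial `P0 (C N - G)` and `w + 1`: the number is
`∏_{p ≤ w} (p - rootCount p) > 0`; compare `H57M.NFD.aN_pos`. -/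
theorem gN_pos (P0 G : ℤ[X]) (N w : ℕ)
    (h : ∀ p : ℕ, p.Prime → ¬ ∀ n : ℤ, (p : ℤ) ∣ (P0 * (C (N : ℤ) - G)).eval n) :
    0 < (gN P0 G N (primorial w)).card := by
  classical
  rw [t2_gN, H33B.count_coprime]
  refine prod_pos fun p hp => ?_
  have hpp := Nat.prime_of_mem_primesBelow hp
  have h1 := h p hpp
  rw [not_forall] at h1
  obtain ⟨n, hn⟩ := h1
  have hp' : (0 : ℤ) < p := by exact_mod_cast hpp.pos
  obtain ⟨v, hv⟩ : ∃ v : ℕ, (v : ℤ) = n % p :=
    ⟨(n % p).toNat, Int.toNat_of_nonneg (Int.emod_nonneg _ hp'.ne')⟩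
  have hvp : v < p := by
    have := Int.emod_lt_of_pos n hp'
    rw [← hv] at this
    exact_mod_cast this
  have hnd : ¬ (p : ℤ) ∣ (P0 * (C (N : ℤ) - G)).eval (v : ℤ) := by
    intro h2
    apply hn
    have h3 : (p : ℤ) ∣ n - (v : ℤ) := by
      rw [hv]
      exact Int.dvd_self_sub_emod
    have h4 := h3.trans (Polynomial.sub_dvd_eval_sub n (v : ℤ) (P0 * (C (N : ℤ) - G)))
    have h5 := dvd_add h4 h2
    rwa [sub_add_cancel] at h5
  have hlt : rootCount (P0 * (C (N : ℤ) - G)) p < p := by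
    unfold Pool.Agent.Lib.H59.rootCount
    calc _ < (range p).card := by
          refine card_lt_card ?_
          rw [Finset.ssubset_iff_of_subset (filter_subset _ _)]
          exact ⟨v, mem_range.2 hvp, fun h2 => hnd (mem_filter.1 h2).2⟩
      _ = p := card_range p
  omega

end Pool.Agent.Lib.H59W
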