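import Pool.Agent.Lib.H59W.W1

/-!
# Chunk W2: patterns in residue classes
-/

open Finset

namespace Pool.Agent.Lib.H59W

theorem w2_exists (a P v : ℕ) (ha : 1 ≤ a) (hP : 1 ≤ P) (n0 : ℕ) (h0 : 1 ≤ n0) :
    ∃ n : ℕ, 1 ≤ n ∧ n ≡ v [MOD P] ∧ n0 ≤ a * n ∧ a * n ≤ n0 + a * P := by
  obtain ⟨m, hm⟩ : ∃ m : ℕ, m = (n0 - 1) / a + 1 := ⟨_, rfl⟩
  have hm1 : 1 ≤ m := by
    rw [hm]
    exact Nat.le_add_left 1 _
  have h1 : n0 ≤ a * m := by
    have := Nat.lt_mul_div_succ (n0 - 1) (by omega : 0 < a)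
    rw [hm]
    omega
  have h2 : a * m ≤ n0 - 1 + a := by
    have := Nat.mul_div_le (n0 - 1) a
    rw [hm, mul_add, mul_one]
    omega
  obtain ⟨r, hr1, hr2⟩ : ∃ r : ℕ, r < P ∧ m + r ≡ v [MOD P] := by
    refine ⟨(v + P * m - m) % P, Nat.mod_lt _ (by omega), ?_⟩
    have h3 : m ≤ P * m := Nat.le_mul_of_pos_left m (by omega)
    have h4 : m + (v + P * m - m) % P ≡ m + (v + P * m - m) [MOD P] :=
      Nat.ModEq.add_left _ (Nat.mod_modEq _ _)
    refine h4.trans ?_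
    have h5 : m + (v + P * m - m) = v + P * m := by omega
    rw [h5]
    exact Nat.add_mul_mod_self_left v P m
  refine ⟨m + r, by omega, hr2, ?_, ?_⟩
  · exact h1.trans (Nat.mul_le_mul_left a (by omega))
  · have h3 : a * (m + r) ≤ a * m + a * (P - 1) := by
      rw [mul_add]
      exact Nat.add_le_add_left (Nat.mul_le_mul_left a (by omega)) _
    have h4 : a * (P - 1) + a = a * P := by
      rw [← Nat.mul_succ]
      congr 1
      omega
    omega

/-- Proof. `H92G.key_realR k (δ/2)` gives `J0`. Given `J, β, ε, Λ, a`, apply it to `β_j + ε/4`, `ε/2`, `Λ + ε` (these satisfy `Conf`) at the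
real number `a x`: for large `x` there is `s ⊆ [1, a x]`, `#s ≥ c₁ a x`, all whose elements `n0` satisfy
`Pat (β + ε/4) (ε/2) (Λ + ε) k ((a x)^(δ/2)) (log (a x)) n0` (the three properties there are `cover`, `one`, `many`). For large `x`,
`(a x)^(δ/2) ≤ x^δ` and `|log (a x) - log x| = log a`. For `n0 ∈ s` let `n` be the smallest integer `≥ 1` with `n ≡ v [MOD P]` and `a n ≥ n0`; then
`a n ≤ n0 + a P`, so `Pat β ε Λ k (x^δ) (log x) (a n)` by `pat_perturb` (with `P := a P`, `B := log a`). If `n0 ≤ a x - a P` then `n ≤ x`;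
at most `a P` elements of `s` are lost, and each `n` is obtained from at most `a P + 1` elements `n0`. So the number of `n` is at least
`(c₁ a x - a P)/(a P + 1) ≥ (c₁/4) x/P` for large `x`: take `c = c₁/4`. -/
theorem class_lower (k : ℕ) (δ : ℝ) (hδ : 0 < δ) : ∃ J0 : ℕ, 1 ≤ J0 ∧ ∀ (J : ℕ) (β : Fin J → ℝ)
    (ε Λ : ℝ), J0 ≤ J → H92G.Conf J β ε Λ → ∀ a : ℕ, 1 ≤ a → ∃ c : ℝ, 0 < c ∧ ∀ P : ℕ, 1 ≤ P →
      ∃ x0 : ℕ, ∀ x : ℕ, x0 ≤ x → ∀ v : ℕ, c * x ≤
        P * (cnt (fun n => n ≡ v [MOD P] ∧ Pat β ε Λ k ((x : ℝ) ^ δ) (Real.log x) (a * n)) x : ℝ) := by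
  classical
  obtain ⟨J0, hJ0, hkey⟩ := H92G.key_realR k (δ / 2) (by positivity)
  refine ⟨J0, hJ0, fun J β ε Λ hJ hC a ha => ?_⟩
  have he := hC.e0
  have hC' : H92G.Conf J (fun j => β j + ε / 4) (ε / 2) (Λ + ε) :=
    { e0 := by positivity
      b0 := fun j => by have := hC.b0 j; positivity
      bL := fun j => by have := hC.bL j; linarith
      sep := fun j j' h => by have := hC.sep j j' h; linarith }
  obtain ⟨c1, hc1, x0, hx0⟩ := hkey J _ _ _ hJ hC'
  refine ⟨c1 / 4, by positivity, fun P hP => ?_⟩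
  have ha' : (1 : ℝ) ≤ a := by exact_mod_cast ha
  have hP' : (1 : ℝ) ≤ P := by exact_mod_cast hP
  have ha0 : (0 : ℝ) < a := by linarith
  have hP0 : (0 : ℝ) < P := by linarith
  obtain ⟨L0, hL0⟩ := pat_perturb β ε Λ hC k ((a * P : ℕ) : ℝ) (Real.log a) (Nat.cast_nonneg _)
    (Real.log_nonneg ha')
  obtain ⟨x1, hx1⟩ : ∃ x1 : ℕ, ∀ x : ℕ, x1 ≤ x → L0 ≤ Real.log x := by
    have h := (Real.tendsto_log_atTop.comp tendsto_natCast_atTop_atTop).eventually_ge_atTop L0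
    obtain ⟨x1, h⟩ := Filter.eventually_atTop.1 h
    exact ⟨x1, h⟩
  refine ⟨max (max 1 a) (max x1 (max ⌈x0⌉₊ ⌈2 * P / c1⌉₊)), fun x hx v => ?_⟩
  have e1 : 1 ≤ x := ((le_max_left _ _).trans (le_max_left _ _)).trans hx
  have e2 : a ≤ x := ((le_max_right _ _).trans (le_max_left _ _)).trans hx
  have e3 : x1 ≤ x := ((le_max_left _ _).trans (le_max_right _ _)).trans hx
  have e4 : ⌈x0⌉₊ ≤ x := (((le_max_left _ _).trans (le_max_right _ _)).trans (le_max_right _ _)).trans hx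
  have e5 : ⌈2 * P / c1⌉₊ ≤ x := (((le_max_right _ _).trans (le_max_right _ _)).trans (le_max_right _ _)).trans hx
  have hx' : (1 : ℝ) ≤ x := by exact_mod_cast e1
  have hxpos : (0 : ℝ) < x := by linarith
  have hX : x0 ≤ (a : ℝ) * x := by
    have := Nat.ceil_le.1 e4
    nlinarith
  have hxP : 2 * P / c1 ≤ (x : ℝ) := Nat.ceil_le.1 e5
  have hax : (a : ℝ) ≤ x := by exact_mod_cast e2
  obtain ⟨s, hs1, hs3, hs2⟩ := hx0 _ hX
  have hT : ((a : ℝ) * x) ^ (δ / 2) ≤ (x : ℝ) ^ δ := by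
    have : (x : ℝ) ^ δ = (x * x) ^ (δ / 2) := by
      rw [← pow_two, ← Real.rpow_natCast, ← Real.rpow_mul hxpos.le]
      congr 1
      push_cast
      ring
    rw [this]
    exact Real.rpow_le_rpow (by positivity) (by nlinarith) (by positivity)
  have hLL : |Real.log x - Real.log ((a : ℝ) * x)| ≤ Real.log a := by
    rw [Real.log_mul (by positivity) (by positivity)]
    have : Real.log x - (Real.log a + Real.log x) = -Real.log a := by ring
    rw [this, abs_neg, abs_of_nonneg (Real.log_nonneg ha')]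
  have hpos : ∀ n0 ∈ s, 1 ≤ n0 := fun n0 h => (mem_Icc.1 (hs1 h)).1
  -- the map
  have hex : ∀ n0 : ℕ, ∃ n : ℕ, 1 ≤ n0 → 1 ≤ n ∧ n ≡ v [MOD P] ∧ n0 ≤ a * n ∧ a * n ≤ n0 + a * P := by
    intro n0
    by_cases h : 1 ≤ n0
    · obtain ⟨n, hn⟩ := w2_exists a P v ha hP n0 h
      exact ⟨n, fun _ => hn⟩
    · exact ⟨0, fun h' => absurd h' h⟩
  choose f hf using hex
  obtain ⟨s', hs'⟩ : ∃ s' : Finset ℕ, s' = s.filter (fun n0 => n0 + a * P ≤ a * x) := ⟨_, rfl⟩
  obtain ⟨t, ht⟩ : ∃ t : Finset ℕ, t = (Icc 1 x).filter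
      (fun n => n ≡ v [MOD P] ∧ Pat β ε Λ k ((x : ℝ) ^ δ) (Real.log x) (a * n)) := ⟨_, rfl⟩
  have himg : s'.image f ⊆ t := by
    intro n hn
    rw [mem_image] at hn
    obtain ⟨n0, hn0, rfl⟩ := hn
    rw [hs', mem_filter] at hn0
    obtain ⟨hn0s, hn0x⟩ := hn0
    obtain ⟨f1, f2, f3, f4⟩ := hf n0 (hpos n0 hn0s)
    rw [ht, mem_filter, mem_Icc]
    refine ⟨⟨f1, ?_⟩, f2, ?_⟩
    · have : a * f n0 ≤ a * x := by omega
      exact Nat.le_of_mul_le_mul_left this (by omega)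
    · obtain ⟨g1, g2, g3⟩ := hs2 n0 hn0s
      refine hL0 (Real.log x) (Real.log ((a : ℝ) * x)) ((x : ℝ) ^ δ) (((a : ℝ) * x) ^ (δ / 2)) n0
        (a * f n0) (hx1 x e3) hLL hT f3 (by exact_mod_cast f4) ⟨?_, ?_, ?_⟩
      · intro m hm1 hm2 hm3
        exact g1 m hm3 hm1 hm2
      · intro j m m' hm hm'
        exact g2 j m m' hm hm'
      · exact g3
  have hfib : ∀ n ∈ s'.image f, (s'.filter fun n0 => f n0 = n).card ≤ a * P + 1 := by
    intro n _
    have : (s'.filter fun n0 => f n0 = n) ⊆ Icc (a * n - a * P) (a * n) := by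
      intro n0 hn0
      rw [mem_filter, hs', mem_filter] at hn0
      obtain ⟨⟨hn0s, _⟩, rfl⟩ := hn0
      obtain ⟨f1, f2, f3, f4⟩ := hf n0 (hpos n0 hn0s)
      rw [mem_Icc]
      omega
    refine (card_le_card this).trans ?_
    rw [Nat.card_Icc]
    omega
  have hcard1 : s'.card ≤ (a * P + 1) * t.card :=
    (card_le_mul_card_image s' _ hfib).trans (Nat.mul_le_mul_left _ (card_le_card himg))
  have hcard2 : s.card ≤ s'.card + a * P := by
    have h1 : s = s' ∪ s.filter (fun n0 => ¬ n0 + a * P ≤ a * x) := by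
      rw [hs', filter_union_filter_not_eq]
    have h2 : (s.filter (fun n0 => ¬ n0 + a * P ≤ a * x)) ⊆ Ioc (a * x - a * P) (a * x) := by
      intro n0 hn0
      rw [mem_filter] at hn0
      have h3 := (mem_Icc.1 (hs1 hn0.1)).2
      have h4 : ⌊(a : ℝ) * x⌋₊ = a * x := by
        rw [← Nat.cast_mul, Nat.floor_natCast]
      have h5 := hpos n0 hn0.1
      rw [h4] at h3
      rw [mem_Ioc]
      omega
    have h3 := card_le_card h2
    rw [Nat.card_Ioc] at h3
    have h4 : s.card ≤ s'.card + (s.filter (fun n0 => ¬ n0 + a * P ≤ a * x)).card := by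
      conv_lhs => rw [h1]
      exact card_union_le _ _
    omega
  have hfin : (s.card : ℝ) ≤ (a * P + 1) * t.card + a * P := by
    have : s.card ≤ (a * P + 1) * t.card + a * P := by omega
    exact_mod_cast this
  have hcnt : (cnt (fun n => n ≡ v [MOD P] ∧ Pat β ε Λ k ((x : ℝ) ^ δ) (Real.log x) (a * n)) x) = t.card := by
    rw [ht]
    unfold cnt
    congr
  rw [hcnt]
  have htc : (0 : ℝ) ≤ t.card := Nat.cast_nonneg _
  have haP : (1 : ℝ) ≤ a * P := by nlinarith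
  rw [div_le_iff₀ hc1] at hxP
  have k1 : c1 * (a * x) ≤ 2 * (a * P) * t.card + a * P := by
    have : ((a : ℝ) * P + 1) * t.card ≤ 2 * (a * P) * t.card := by
      apply mul_le_mul_of_nonneg_right _ htc
      linarith
    linarith
  have k2 : c1 * x ≤ 2 * P * t.card + P := by
    have : (a : ℝ) * (c1 * x) ≤ a * (2 * P * t.card + P) := by linarith
    exact le_of_mul_le_mul_left this ha0
  linarith

end Pool.Agent.Lib.H59W
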