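import Pool.Agent.Lib.H59W.T1
import Pool.Agent.Lib.H59W.T2
import Pool.Agent.Lib.H59W.W2

/-!
# Chunk W5: patterns and `N - G(n)` prime, one dyadic block
-/

open Finset Polynomial

namespace Pool.Agent.Lib.H59W

open Pool.Agent.Lib.H59 (argSet argCount Admissible primeCount omegaN seriesTrunc rootCount)

theorem w5_gd (P : ℕ) : gd 1 P = range P := by
  unfold gd
  apply filter_true_of_mem
  intro v _
  rw [eval_one]
  exact isCoprime_one_left

theorem w5_log_pow (K : ℝ) : ∃ x0 : ℕ, ∀ x : ℕ, x0 ≤ x → Real.log x ^ K ≤ x := by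
  have h := (isLittleO_log_rpow_rpow_atTop (s := 1) K one_pos).bound (one_pos)
  have h' := tendsto_natCast_atTop_atTop (R := ℝ) |>.eventually h
  obtain ⟨x0, hx0⟩ := Filter.eventually_atTop.1 h'
  refine ⟨max 1 x0, fun x hx => ?_⟩
  have h1 := hx0 x ((le_max_right _ _).trans hx)
  have h2 : (1 : ℝ) ≤ x := by exact_mod_cast (le_max_left _ _).trans hx
  rw [one_mul, Real.rpow_one, Real.norm_eq_abs, Real.norm_eq_abs, abs_of_nonneg (a := (x : ℝ)) (by linarith)] at h1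
  exact (le_abs_self _).trans h1

theorem w5_cnt_le (A : ℕ → Prop) (x M : ℕ) (f : ℕ → ℕ) (h1 : ∀ n, n ≤ x → A n → f n < M)
    (h2 : ∀ n m, A n → A m → f n = f m → n = m) : cnt A x ≤ M := by
  classical
  unfold cnt
  rw [← card_range M]
  apply card_le_card_of_injOn f
  · intro n hn
    rw [mem_coe, mem_filter, mem_Icc] at hn
    rw [mem_coe, mem_range]
    exact h1 n hn.1.2 hn.2
  · intro n hn m hm h
    rw [mem_coe, mem_filter] at hn hm
    exact h2 n m hn.2 hm.2 h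

theorem w5_class (x q b : ℕ) : cnt (fun n => n ≡ b [MOD q]) x ≤ x / q + 1 := by
  apply w5_cnt_le _ _ _ (fun n => n / q)
  · intro n hn _
    exact Nat.lt_succ_of_le (Nat.div_le_div_right hn)
  · intro n m hn hm h
    have h1 : n % q = m % q := hn.trans hm.symm
    rw [← Nat.div_add_mod n q, ← Nat.div_add_mod m q, h, h1]

theorem w5_cnt_mono {A B : ℕ → Prop} (h : ∀ n, A n → B n) (x : ℕ) : cnt A x ≤ cnt B x := by
  classical
  unfold cnt
  apply card_le_card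
  intro n hn
  rw [mem_filter] at hn ⊢
  exact ⟨hn.1, h n hn.2⟩

theorem w5_bcnt_mono {A B : ℕ → Prop} (h : ∀ n, A n → B n) (x : ℕ) : bcnt A x ≤ bcnt B x := by
  classical
  unfold bcnt
  apply card_le_card
  intro n hn
  rw [mem_filter] at hn ⊢
  exact ⟨hn.1, h n hn.2⟩

theorem w5_upper (A : ℕ → ℕ → Prop) : Upper 0 2 A := by
  intro K
  obtain ⟨x0, hx0⟩ := w5_log_pow K
  refine ⟨max 1 x0, fun x hx q b hq hqK => ?_⟩
  have hq0 : 1 ≤ q := Nat.one_le_iff_ne_zero.2 hq.ne_zero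
  have hx1 : 1 ≤ x := (le_max_left _ _).trans hx
  have h1 : (q : ℝ) ≤ x := hqK.trans (hx0 x ((le_max_right _ _).trans hx))
  have h2 : q ≤ x := by exact_mod_cast h1
  have h3 : cnt (fun n => n ≡ b [MOD q] ∧ A x n) x ≤ x / q + 1 :=
    (w5_cnt_mono (fun n h => h.1) x).trans (w5_class x q b)
  have hq0' : (0 : ℝ) < q := by exact_mod_cast hq0
  have h4 : ((x / q + 1 : ℕ) : ℝ) ≤ 2 * (x / q) := by
    push_cast
    have e1 : ((x / q : ℕ) : ℝ) ≤ x / q := Nat.cast_div_le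
    have e2 : (1 : ℝ) ≤ x / q := by
      rw [le_div_iff₀ hq0']
      linarith
    linarith
  rw [pow_zero, div_one]
  have h5 : (2 : ℝ) ≤ 2 ^ (q.primeFactors.card + 1) := by
    rw [pow_succ]
    have : (1 : ℝ) ≤ 2 ^ (q.primeFactors.card) := one_le_pow₀ (by norm_num)
    linarith
  calc (cnt (fun n => n ≡ b [MOD q] ∧ A x n) x : ℝ) ≤ ((x / q + 1 : ℕ) : ℝ) := by exact_mod_cast h3
    _ ≤ 2 * (x / q) := h4
    _ ≤ 2 ^ (q.primeFactors.card + 1) * (x / q) := by gcongr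
    _ = 2 ^ (q.primeFactors.card + 1) * x / q := by ring

/-- Proof. `J0` from `class_lower k δ`; `c₁` from there. `block_low` with `P0 = 1`, `g = 0`, `A x n := Pat β ε Λ k (x^δ) (log x) (a * n)`, `D = 2`:
`Upper 0 2 A`: the number of the `n ≤ x` in a class modulo `q` is at most `x/q + 1 ≤ 2 x/q` if `q ≤ (log x)^K ≤ x` (and `2 ≤ 2^(ω(q)+1)`);
`Lower 1 0 c₁ A`: `gd 1 P = range P`; `Local 1 G` by `local_one`. In the conclusion `#gd 1 P = P` cancels: for the `N` outside the exceptional set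
`c₁ x #gN ≤ 2 φ(P) log Y cnt`. -/
theorem pat_block (k : ℕ) (δ : ℝ) (hδ : 0 < δ) : ∃ J0 : ℕ, 1 ≤ J0 ∧ ∀ (J : ℕ) (β : Fin J → ℝ)
    (ε Λ : ℝ), J0 ≤ J → H92G.Conf J β ε Λ → ∀ a : ℕ, 1 ≤ a → ∃ c : ℝ, 0 < c ∧
    ∀ G : ℤ[X], 1 ≤ G.natDegree → 0 < G.leadingCoeff → ∀ η : ℝ, 0 < η →
    ∃ w0 : ℕ, ∀ w : ℕ, w0 ≤ w → ∃ Y0 : ℕ, ∀ Y : ℕ, Y0 ≤ Y →
      (bcnt (fun N : ℕ => 0 < (gN 1 G N (primorial w)).card ∧
        ((primorial w).totient : ℝ) * (Real.log Y *
          (cnt (fun n => Pat β ε Λ k ((argCount G (Y / 2) : ℝ) ^ δ) (Real.log (argCount G (Y / 2)))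
            (a * n) ∧ PG G N n) (argCount G (Y / 2)) : ℝ)) <
        c * ((argCount G (Y / 2) : ℝ) * (gN 1 G N (primorial w)).card)) Y : ℝ) ≤ η * Y := by
  classical
  obtain ⟨J0, hJ0, hcl⟩ := class_lower k δ hδ
  refine ⟨J0, hJ0, fun J β ε Λ hJ hC a ha => ?_⟩
  obtain ⟨c1, hc1, hc⟩ := hcl J β ε Λ hJ hC a ha
  refine ⟨c1 / 2, by positivity, fun G hG hlc η hη => ?_⟩
  obtain ⟨w0, hw0⟩ := block_low G hG hlc 1 0
    (fun x n => Pat β ε Λ k ((x : ℝ) ^ δ) (Real.log x) (a * n)) c1 2 hc1 (by norm_num)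
    (w5_upper _) (by
      refine ⟨0, fun w _ => ?_⟩
      obtain ⟨x0, hx0⟩ := hc (primorial w) (primorial_pos w)
      refine ⟨x0, fun x hx v _ => ?_⟩
      rw [pow_zero, div_one, w5_gd, card_range]
      exact hx0 x hx v) (local_one G hG) η hη
  refine ⟨w0, fun w hw => ?_⟩
  obtain ⟨Y0, hY0⟩ := hw0 w hw
  refine ⟨Y0, fun Y hY => ?_⟩
  refine le_trans ?_ (hY0 Y hY)
  have hP : (0 : ℝ) < primorial w := by exact_mod_cast primorial_pos w
  have : bcnt (fun N : ℕ => 0 < (gN 1 G N (primorial w)).card ∧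
        ((primorial w).totient : ℝ) * (Real.log Y *
          (cnt (fun n => Pat β ε Λ k ((argCount G (Y / 2) : ℝ) ^ δ) (Real.log (argCount G (Y / 2)))
            (a * n) ∧ PG G N n) (argCount G (Y / 2)) : ℝ)) <
        c1 / 2 * ((argCount G (Y / 2) : ℝ) * (gN 1 G N (primorial w)).card)) Y ≤
      bcnt (fun N : ℕ => 0 < (gN 1 G N (primorial w)).card ∧
        2 * (((primorial w).totient : ℝ) * (gd 1 (primorial w)).card * (Real.log Y *
          (cnt (fun n => Pat β ε Λ k ((argCount G (Y / 2) : ℝ) ^ δ) (Real.log (argCount G (Y / 2)))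
            (a * n) ∧ PG G N n) (argCount G (Y / 2)) : ℝ))) <
        c1 * ((argCount G (Y / 2) : ℝ) / Real.log (argCount G (Y / 2)) ^ 0) *
          ((primorial w : ℝ) * (gN 1 G N (primorial w)).card)) Y := by
    refine w5_bcnt_mono (fun N hN => ?_) Y
    refine ⟨hN.1, ?_⟩
    have h := hN.2
    rw [pow_zero, div_one, w5_gd, card_range]
    have h' := mul_lt_mul_of_pos_left h (mul_pos two_pos hP)
    linarith
  exact_mod_cast this

end Pool.Agent.Lib.H59W
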