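import Pool.Agent.Lib.H59W.T3
import Pool.Agent.Lib.H59W.W5

/-!
# Chunk W7: a positive proportion of the `n` with `N - G(n)` prime has the pattern
-/

open Finset Polynomial

namespace Pool.Agent.Lib.H59W

open Pool.Agent.Lib.H59 (argSet argCount Admissible primeCount omegaN seriesTrunc rootCount)

theorem w7_bcnt_or {Q A B : ℕ → Prop} (Y : ℕ) (h : ∀ N, Y / 2 < N → N ≤ Y → Q N → A N ∨ B N) :
    bcnt Q Y ≤ bcnt A Y + bcnt B Y := by
  classical
  unfold bcnt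
  refine (card_le_card ?_).trans (card_union_le _ _)
  intro N hN
  rw [mem_filter, mem_Ioc] at hN
  rw [mem_union, mem_filter, mem_filter, mem_Ioc]
  rcases h N hN.1.1 hN.1.2 hN.2 with h1 | h1
  · exact Or.inl ⟨hN.1, h1⟩
  · exact Or.inr ⟨hN.1, h1⟩

theorem w7_cnt_mono {A B : ℕ → Prop} (h : ∀ n, A n → B n) {x y : ℕ} (hxy : x ≤ y) : cnt A x ≤ cnt B y := by
  classical
  unfold cnt
  apply card_le_card
  intro n hn
  rw [mem_filter, mem_Icc] at hn ⊢
  exact ⟨⟨hn.1.1, hn.1.2.trans hxy⟩, h n hn.2⟩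

/-- One dyadic block.

Proof. `J0` from `pat_block k (δ/2)`. Given `J, β, ε, Λ, a`, use `pat_block` for `β_j + ε/4`, `ε/2`, `Λ + ε` (`Conf`) with constant `c₁`, and `block_up` with
constant `B`, both with `η/2` and a common `w`. Let `Y/2 < N ≤ Y` be in neither exceptional set, and let `N - G` have no fixed prime divisor; `#gN > 0`
by `gN_pos` (`P0 = 1`). `x = argCount G (Y/2) ≤ X = argCount G N ≤ C₁ x` for large `Y`. By `pat_perturb` (`P := 0`, `B := log C₁`, `n0 = n`,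
`T' = x^(δ/2) ≤ X^δ`), every `n ≤ x ≤ X` counted in `pat_block` has `Pat β ε Λ k (X^δ) (log X) (a * n)`. So
`cnt_pattern ≥ c₁ x #gN/(φ(P) log Y)` and `cnt (PG G N) X ≤ B X #gN/(φ(P) log Y) ≤ B C₁ x #gN/(φ(P) log Y)`. Take `c = c₁/(B C₁)`. -/
theorem prop_block (k : ℕ) (δ : ℝ) (hδ : 0 < δ) : ∃ J0 : ℕ, 1 ≤ J0 ∧ ∀ (J : ℕ) (β : Fin J → ℝ)
    (ε Λ : ℝ), J0 ≤ J → H92G.Conf J β ε Λ → ∀ a : ℕ, 1 ≤ a → ∀ G : ℤ[X], 1 ≤ G.natDegree →
    0 < G.leadingCoeff → ∃ c : ℝ, 0 < c ∧ ∀ η : ℝ, 0 < η → ∃ Y0 : ℕ, ∀ Y : ℕ, Y0 ≤ Y →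
      (bcnt (fun N : ℕ =>
        (∀ p : ℕ, p.Prime → ¬ ∀ n : ℤ, (p : ℤ) ∣ (C (N : ℤ) - G).eval n) ∧
        (cnt (fun n => Pat β ε Λ k ((argCount G N : ℝ) ^ δ) (Real.log (argCount G N)) (a * n) ∧
          PG G N n) (argCount G N) : ℝ) < c * cnt (PG G N) (argCount G N)) Y : ℝ) ≤
        η * Y := by
  classical
  obtain ⟨J0, hJ0, hpb⟩ := pat_block k (δ / 2) (by positivity)
  refine ⟨J0, hJ0, fun J β ε Λ hJ hC a ha G hG hlc => ?_⟩
  have he := hC.e0
  have hC' : H92G.Conf J (fun j => β j + ε / 4) (ε / 2) (Λ + ε) :=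
    { e0 := by positivity
      b0 := fun j => by have := hC.b0 j; positivity
      bL := fun j => by have := hC.bL j; linarith
      sep := fun j j' h => by have := hC.sep j j' h; linarith }
  obtain ⟨c1, hc1, h1⟩ := hpb J _ _ _ hJ hC' a ha
  obtain ⟨B, hB, h2⟩ := block_up G hG hlc
  obtain ⟨A, hA, h3⟩ := H57M.Q2_scale G hG hlc
  obtain ⟨L0, hL0⟩ := pat_perturb β ε Λ hC k 0 (Real.log A) le_rfl (Real.log_nonneg hA)
  have hA0 : 0 < A := by linarith
  refine ⟨c1 / (B * A), by positivity, fun η hη => ?_⟩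
  obtain ⟨w1, hw1⟩ := h1 G hG hlc (η / 2) (by positivity)
  obtain ⟨w2, hw2⟩ := h2 (η / 2) (by positivity)
  obtain ⟨w, hw⟩ : ∃ w : ℕ, w = max w1 w2 := ⟨_, rfl⟩
  obtain ⟨Y1, hY1⟩ := hw1 w (by rw [hw]; exact le_max_left _ _)
  obtain ⟨Y2, hY2⟩ := hw2 w (by rw [hw]; exact le_max_right _ _)
  obtain ⟨Y3, hY3⟩ := h3 (max 1 L0)
  refine ⟨max 2 (max Y1 (max Y2 Y3)), fun Y hY => ?_⟩
  have f0 : 2 ≤ Y := (le_max_left _ _).trans hY
  have f1 : Y1 ≤ Y := ((le_max_left _ _).trans (le_max_right _ _)).trans hY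
  have f2 : Y2 ≤ Y := (((le_max_left _ _).trans (le_max_right _ _)).trans (le_max_right _ _)).trans hY
  have f3 : Y3 ≤ Y := (((le_max_right _ _).trans (le_max_right _ _)).trans (le_max_right _ _)).trans hY
  obtain ⟨g1, g2, g3, _, _, _, g7⟩ := hY3 Y f3
  have e1 := hY1 Y f1
  have e2 := hY2 Y f2
  obtain ⟨x, hx⟩ : ∃ x : ℕ, x = argCount G (Y / 2) := ⟨_, rfl⟩
  rw [← hx] at e1 g1 g2 g3 g7
  have hx60 : ((x / 60 : ℕ) : ℝ) ≤ x := by exact_mod_cast Nat.div_le_self x 60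
  have hx1 : (1 : ℝ) ≤ x := ((le_max_left _ _).trans g1).trans hx60
  have hx0 : (0 : ℝ) < x := by linarith
  have hxlog : L0 ≤ Real.log x := by
    refine ((le_max_right _ _).trans g2).trans ?_
    have : (0 : ℝ) < ((x / 60 : ℕ) : ℝ) := by
      have := (le_max_left (1 : ℝ) L0).trans g1
      linarith
    exact Real.log_le_log this hx60
  have key : bcnt (fun N : ℕ =>
        (∀ p : ℕ, p.Prime → ¬ ∀ n : ℤ, (p : ℤ) ∣ (C (N : ℤ) - G).eval n) ∧
        (cnt (fun n => Pat β ε Λ k ((argCount G N : ℝ) ^ δ) (Real.log (argCount G N)) (a * n) ∧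
          PG G N n) (argCount G N) : ℝ) < c1 / (B * A) * cnt (PG G N) (argCount G N)) Y ≤
      bcnt (fun N : ℕ => 0 < (gN 1 G N (primorial w)).card ∧
        ((primorial w).totient : ℝ) * (Real.log Y *
          (cnt (fun n => Pat (fun j => β j + ε / 4) (ε / 2) (Λ + ε) k ((x : ℝ) ^ (δ / 2)) (Real.log x)
            (a * n) ∧ PG G N n) x : ℝ)) <
        c1 * ((x : ℝ) * (gN 1 G N (primorial w)).card)) Y +
      bcnt (fun N : ℕ => 0 < (gN 1 G N (primorial w)).card ∧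
        B * ((argCount G N : ℝ) * (gN 1 G N (primorial w)).card) <
        ((primorial w).totient : ℝ) * (Real.log Y * (cnt (PG G N) (argCount G N) : ℝ))) Y := by
    refine w7_bcnt_or Y (fun N hN1 hN2 hN => ?_)
    by_contra hcon
    rw [not_or] at hcon
    obtain ⟨hn1, hn2⟩ := hcon
    obtain ⟨hfix, hlt⟩ := hN
    have hgN : 0 < (gN 1 G N (primorial w)).card := by
      refine gN_pos 1 G N w (fun p hp => ?_)
      rw [one_mul]
      exact hfix p hp
    have hn1' : c1 * ((x : ℝ) * (gN 1 G N (primorial w)).card) ≤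
        ((primorial w).totient : ℝ) * (Real.log Y *
          (cnt (fun n => Pat (fun j => β j + ε / 4) (ε / 2) (Λ + ε) k ((x : ℝ) ^ (δ / 2)) (Real.log x)
            (a * n) ∧ PG G N n) x : ℝ)) := by
      by_contra h
      exact hn1 ⟨hgN, lt_of_not_ge h⟩
    have hn2' : ((primorial w).totient : ℝ) * (Real.log Y * (cnt (PG G N) (argCount G N) : ℝ)) ≤
        B * ((argCount G N : ℝ) * (gN 1 G N (primorial w)).card) := by
      by_contra h
      exact hn2 ⟨hgN, lt_of_not_ge h⟩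
    obtain ⟨i1, i2, _⟩ := g7 N hN1.le hN2
    obtain ⟨X, hX⟩ : ∃ X : ℕ, X = argCount G N := ⟨_, rfl⟩
    rw [← hX] at i1 i2 hn2' hlt
    have hxX : (x : ℝ) ≤ X := by exact_mod_cast i1
    have hXA : (X : ℝ) ≤ A * x := by
      have i2' : (X : ℝ) ≤ argCount G Y := by exact_mod_cast i2
      refine i2'.trans (g3.trans ?_)
      exact mul_le_mul_of_nonneg_left hx60 hA0.le
    have hX0 : (0 : ℝ) < X := by linarith
    have hmono : cnt (fun n => Pat (fun j => β j + ε / 4) (ε / 2) (Λ + ε) k ((x : ℝ) ^ (δ / 2)) (Real.log x)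
            (a * n) ∧ PG G N n) x ≤
        cnt (fun n => Pat β ε Λ k ((X : ℝ) ^ δ) (Real.log X) (a * n) ∧ PG G N n) X := by
      refine w7_cnt_mono (fun n hn => ?_) i1
      refine ⟨hL0 (Real.log X) (Real.log x) ((X : ℝ) ^ δ) ((x : ℝ) ^ (δ / 2)) (a * n) (a * n)
        (hxlog.trans (Real.log_le_log hx0 hxX)) ?_ ?_ le_rfl (by simp) hn.1, hn.2⟩
      · rw [abs_of_nonneg (sub_nonneg.2 (Real.log_le_log hx0 hxX))]
        have := Real.log_le_log hX0 hXA
        rw [Real.log_mul hA0.ne' hx0.ne'] at this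
        linarith
      · calc (x : ℝ) ^ (δ / 2) ≤ (x : ℝ) ^ δ := Real.rpow_le_rpow_of_exponent_le hx1 (by linarith)
          _ ≤ (X : ℝ) ^ δ := Real.rpow_le_rpow hx0.le hxX hδ.le
    have hmono' : ((cnt (fun n => Pat (fun j => β j + ε / 4) (ε / 2) (Λ + ε) k ((x : ℝ) ^ (δ / 2)) (Real.log x)
            (a * n) ∧ PG G N n) x : ℕ) : ℝ) ≤
        ((cnt (fun n => Pat β ε Λ k ((X : ℝ) ^ δ) (Real.log X) (a * n) ∧ PG G N n) X : ℕ) : ℝ) := by
      exact_mod_cast hmono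
    have hphi : (0 : ℝ) < ((primorial w).totient : ℝ) := by
      exact_mod_cast Nat.totient_pos.2 (primorial_pos w)
    have hlogY : 0 < Real.log Y := Real.log_pos (by exact_mod_cast f0)
    have hD : 0 < ((primorial w).totient : ℝ) * Real.log Y := mul_pos hphi hlogY
    obtain ⟨u1, hu1⟩ : ∃ u : ℝ, u = (cnt (fun n => Pat (fun j => β j + ε / 4) (ε / 2) (Λ + ε) k
      ((x : ℝ) ^ (δ / 2)) (Real.log x) (a * n) ∧ PG G N n) x : ℝ) := ⟨_, rfl⟩
    obtain ⟨u2, hu2⟩ : ∃ u : ℝ, u = (cnt (fun n => Pat β ε Λ k ((X : ℝ) ^ δ) (Real.log X) (a * n) ∧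
      PG G N n) X : ℝ) := ⟨_, rfl⟩
    obtain ⟨u3, hu3⟩ : ∃ u : ℝ, u = (cnt (PG G N) X : ℝ) := ⟨_, rfl⟩
    obtain ⟨g, hg⟩ : ∃ g : ℝ, g = ((gN 1 G N (primorial w)).card : ℝ) := ⟨_, rfl⟩
    rw [← hu1, ← hg] at hn1'
    rw [← hu1, ← hu2] at hmono'
    rw [← hu3, ← hg] at hn2'
    rw [← hu2, ← hu3] at hlt
    have hg0 : 0 ≤ g := by rw [hg]; exact Nat.cast_nonneg _
    have hBA : 0 < B * A := mul_pos hB hA0
    have k1 : u2 * (B * A) < c1 * u3 := by
      rw [div_mul_eq_mul_div, lt_div_iff₀ hBA] at hlt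
      exact hlt
    have k2 : ((primorial w).totient : ℝ) * Real.log Y * u3 ≤ B * A * (x * g) := by
      calc ((primorial w).totient : ℝ) * Real.log Y * u3 =
          ((primorial w).totient : ℝ) * (Real.log Y * u3) := by ring
        _ ≤ B * (X * g) := hn2'
        _ ≤ B * (A * x * g) := by gcongr
        _ = B * A * (x * g) := by ring
    have k3 : c1 * (x * g) ≤ ((primorial w).totient : ℝ) * Real.log Y * u2 := by
      calc c1 * (x * g) ≤ ((primorial w).totient : ℝ) * (Real.log Y * u1) := hn1'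
        _ = ((primorial w).totient : ℝ) * Real.log Y * u1 := by ring
        _ ≤ ((primorial w).totient : ℝ) * Real.log Y * u2 := by gcongr
    have k4 := mul_lt_mul_of_pos_left k1 hD
    have k5 := mul_le_mul_of_nonneg_left k2 hc1.le
    have k6 := mul_le_mul_of_nonneg_left k3 hBA.le
    linarith
  have key' := (Nat.cast_le (α := ℝ)).2 key
  rw [Nat.cast_add] at key'
  linarith

end Pool.Agent.Lib.H59W
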