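import Pool.Agent.Lib.H59W.W6
import Pool.Agent.Lib.H59W.W7

/-!
# Chunk W8: from dyadic blocks to all `N ≤ Y`
-/

open Finset Polynomial

namespace Pool.Agent.Lib.H59W

open Pool.Agent.Lib.H59 (argSet argCount Admissible primeCount omegaN seriesTrunc rootCount)

theorem w8_step (Q : ℕ → Prop) (Y : ℕ) : cnt Q Y ≤ cnt Q (Y / 2) + bcnt Q Y := by
  classical
  unfold cnt bcnt
  refine le_trans (card_le_card ?_) (card_union_le _ _)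
  intro m hm
  rw [mem_filter, mem_Icc] at hm
  rw [mem_union, mem_filter, mem_filter, mem_Icc, mem_Ioc]
  by_cases h : m ≤ Y / 2
  · exact Or.inl ⟨⟨hm.1.1, h⟩, hm.2⟩
  · exact Or.inr ⟨⟨not_le.mp h, hm.1.2⟩, hm.2⟩

theorem w8_triv (Q : ℕ → Prop) (Y : ℕ) : cnt Q Y ≤ Y := by
  classical
  unfold cnt
  refine le_trans (card_filter_le _ _) ?_
  simp

theorem w8_ind (Q : ℕ → Prop) (ε : ℝ) (hε : 0 < ε) (Y0 : ℕ)
    (h : ∀ Y : ℕ, Y0 ≤ Y → (bcnt Q Y : ℝ) ≤ ε / 4 * Y) (Y : ℕ) :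
    (cnt Q Y : ℝ) ≤ ε / 2 * Y + Y0 := by
  induction Y using Nat.strong_induction_on with
  | _ Y ih =>
    by_cases hY : Y0 ≤ Y ∧ 1 ≤ Y
    · have h1 := ih (Y / 2) (by omega)
      have h2 := h Y hY.1
      have h3 : (cnt Q Y : ℝ) ≤ cnt Q (Y / 2) + bcnt Q Y := by exact_mod_cast w8_step Q Y
      have h4 : ((Y / 2 : ℕ) : ℝ) ≤ (Y : ℝ) / 2 := Nat.cast_div_le
      have h5 : ε / 2 * ((Y / 2 : ℕ) : ℝ) ≤ ε / 2 * ((Y : ℝ) / 2) :=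
        mul_le_mul_of_nonneg_left h4 (by linarith)
      nlinarith
    · have h1 : (cnt Q Y : ℝ) ≤ Y := by exact_mod_cast w8_triv Q Y
      have h2 : Y ≤ Y0 := by
        by_contra hne
        exact hY ⟨by omega, by omega⟩
      have h3 : (Y : ℝ) ≤ Y0 := by exact_mod_cast h2
      have h4 : 0 ≤ ε / 2 * (Y : ℝ) := by positivity
      linarith

/-- Proof. Apply the hypothesis with `η = ε/4`: `Y0`. For `Y ≥ Y1` split `[1, Y]` into the blocks `(Y_{j+1}, Y_j]`, `Y_j = ⌊Y/2^j⌋`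
(`Y_{j+1} = Y_j / 2`, `Nat.div_div_eq_div_mul`), as long as `Y_j ≥ Y0`; the rest is in `[1, Y0]`. The total is at most
`∑_j (ε/4) Y/2^j + Y0 ≤ (ε/2) Y + Y0 ≤ ε Y` for `Y ≥ 2 Y0/ε`. (Induction on `Y`: the number of the `N ≤ Y` with the property is at most
`(ε/2) Y + Y0`, strong induction with `Y / 2 < Y`.) -/
theorem dyadic (Q : ℕ → Prop) (ε : ℝ) (hε : 0 < ε) (Y0 : ℕ)
    (h : ∀ Y : ℕ, Y0 ≤ Y → (bcnt Q Y : ℝ) ≤ ε / 4 * Y) :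
    ∃ Y1 : ℕ, ∀ Y : ℕ, Y1 ≤ Y → (cnt Q Y : ℝ) ≤ ε * Y := by
  refine ⟨⌈2 * Y0 / ε⌉₊, fun Y hY => ?_⟩
  have h1 := w8_ind Q ε hε Y0 h Y
  have h2 : 2 * (Y0 : ℝ) / ε ≤ Y := le_trans (Nat.le_ceil _) (by exact_mod_cast hY)
  rw [div_le_iff₀ hε] at h2
  nlinarith

end Pool.Agent.Lib.H59W
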