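import Pool.Agent.Lib.H59W.ADefs
import Pool.Agent.Lib.H59W.T1
import Pool.Agent.Lib.H59W.T2
import Pool.Agent.Lib.H59W.W8

/-!
# Chunk K1: lower bounds of the right order for almost all `N`
-/

open Finset Polynomial

namespace Pool.Agent.Lib.H59W

open Pool.Agent.Lib.H59 (argSet argCount Admissible primeCount omegaN seriesTrunc rootCount)
open Pool.Agent.Lib.H33B (Sys NoFix wF FS_D)

theorem k1_gd_card {g : ℕ} (F : Fin g → ℤ[X]) (hN : NoFix F) (w : ℕ) :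
    ((gd (∏ i, F i) (primorial w)).card : ℝ) =
      primorial w * (H33B.bhTrunc F 1 (w + 1) *
        ((primorial w).totient / (primorial w : ℝ)) ^ g) := by
  have h0 : H33B.PW (w + 1) = primorial w := rfl
  have h1 := H33B.count_coprime (∏ i, F i) (w + 1)
  rw [h0] at h1
  have h2 : (gd (∏ i, F i) (primorial w)).card =
      ∏ p ∈ Nat.primesBelow (w + 1), (p - rootCount (∏ i, F i) p) := by
    rw [← h1]
    unfold gd
    congr
  have h3 := H33B.FS_bh F hN (w + 1)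
  have h4 := H33B.SR1_ratio (w + 1)
  rw [h0] at h4
  have h5 : ((primorial w).totient / (primorial w : ℝ)) =
      ∏ p ∈ Nat.primesBelow (w + 1), (1 - (p : ℝ)⁻¹) := by
    rw [← inv_div, h4, ← Finset.prod_inv_distrib]
    refine Finset.prod_congr rfl fun p _ => ?_
    rw [inv_inv, one_div]
  rw [h5, ← h3, h2, Nat.cast_prod]
  have h6 : ((primorial w : ℕ) : ℝ) = ∏ p ∈ Nat.primesBelow (w + 1), (p : ℝ) := by
    rw [← h0]
    unfold H33B.PW
    push_cast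
    rfl
  rw [h6, ← Finset.prod_mul_distrib]
  refine Finset.prod_congr rfl fun p hp => ?_
  have hpp := Nat.prime_of_mem_primesBelow hp
  have hlt := H33B.wF_lt F hN p hpp
  have hp0 : (p : ℝ) ≠ 0 := by exact_mod_cast hpp.ne_zero
  rw [Nat.cast_sub (by unfold H33B.wF at hlt; exact hlt.le)]
  unfold H33B.wF
  field_simp

theorem k1_gN_card {g : ℕ} (F : Fin g → ℤ[X]) (G : ℤ[X]) (N w : ℕ) :
    seriesTrunc F G N (w + 1) = ((primorial w : ℝ) / (primorial w).totient) ^ (g + 1) *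
      (((gN (∏ i, F i) G N (primorial w)).card : ℝ) / primorial w) := by
  have h0 : H33B.PW (w + 1) = primorial w := rfl
  have h1 := H33B.series_count F G N (w + 1)
  rw [h0] at h1
  rw [h1]
  congr 3
  unfold gN gd
  rw [Finset.filter_filter]
  congr 1
  apply Finset.filter_congr
  intro v _
  rw [eval_mul, IsCoprime.mul_left_iff]
  simp

theorem k1_num (g : ℕ) (c C2 A1 x X lx lX lY P r bh ST a c1 m : ℝ) (hc : 0 < c) (hC2 : 0 < C2)
    (hA1 : 0 < A1) (hx : 0 < x) (hX : 0 < X) (hlx : 0 < lx) (hlX : 0 < lX) (hlxX : lx ≤ lX)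
    (hlY : 0 < lY) (hlYX : lY ≤ A1 * lX) (hXx : X ≤ A1 * x) (hP : 0 < P) (hr : 0 < r)
    (hbh : bh ≤ C2) (ha0 : 0 ≤ a)
    (ha : ST = (P / (P * r)) ^ (g + 1) * (a / P)) (hc1 : 0 ≤ c1)
    (hcon : c * (x / lx ^ g) * (P * a) ≤ 2 * (P * r * (P * (bh * r ^ g)) * (lY * c1)))
    (hm : m ≤ X / lX ^ (g + 1)) : c / (2 * A1 ^ 2 * C2) * (m * ST) ≤ c1 := by
  have ha' : P * a = P * P * ST * r ^ (g + 1) := by
    have h1 : P / (P * r) = r⁻¹ := by field_simp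
    rw [ha, h1, inv_pow]
    field_simp
  have hST0 : 0 ≤ ST := by
    rw [ha]
    positivity
  rw [ha'] at hcon
  have hmain : c * (x / lx ^ g) * ST ≤ 2 * (bh * (lY * c1)) := by
    have h1 : 0 < P * P * r ^ (g + 1) := by positivity
    refine le_of_mul_le_mul_right ?_ h1
    calc c * (x / lx ^ g) * ST * (P * P * r ^ (g + 1)) =
        c * (x / lx ^ g) * (P * P * ST * r ^ (g + 1)) := by ring
      _ ≤ _ := hcon
      _ = _ := by ring
  have hbound : 2 * (bh * (lY * c1)) ≤ 2 * (C2 * (A1 * lX * c1)) := by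
    have h1 : lY * c1 ≤ A1 * lX * c1 := mul_le_mul_of_nonneg_right hlYX hc1
    have h2 : 0 ≤ lY * c1 := by positivity
    have h3 : bh * (lY * c1) ≤ C2 * (A1 * lX * c1) :=
      mul_le_mul hbh h1 h2 hC2.le
    exact mul_le_mul_of_nonneg_left h3 zero_le_two
  have hxl : X / A1 / lX ^ g ≤ x / lx ^ g := by
    have h1 : X / A1 ≤ x := by
      rw [div_le_iff₀ hA1, mul_comm]
      exact hXx
    have h2 : lx ^ g ≤ lX ^ g := pow_le_pow_left₀ hlx.le hlxX g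
    exact div_le_div₀ hx.le h1 (by positivity) h2
  have hfin : c * (X / A1 / lX ^ g) * ST ≤ 2 * (C2 * (A1 * lX * c1)) := by
    refine le_trans ?_ (hmain.trans hbound)
    exact mul_le_mul_of_nonneg_right (mul_le_mul_of_nonneg_left hxl hc.le) hST0
  have hc1' : c / (2 * A1 ^ 2 * C2) * (X / lX ^ (g + 1) * ST) ≤ c1 := by
    have h1 : 0 < 2 * (C2 * (A1 * lX)) := by positivity
    refine le_of_mul_le_mul_left ?_ h1
    calc 2 * (C2 * (A1 * lX)) *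
          (c / (2 * A1 ^ 2 * C2) * (X / lX ^ (g + 1) * ST)) =
        c * (X / A1 / lX ^ g) * ST := by
          field_simp
          ring
      _ ≤ _ := hfin
      _ = _ := by ring
  refine le_trans ?_ hc1'
  exact mul_le_mul_of_nonneg_left (mul_le_mul_of_nonneg_right hm hST0) (by positivity)

theorem k1_bcnt (Y : ℕ) (Q1 Q2 : ℕ → Prop) (h : ∀ N, Y / 2 < N → N ≤ Y → Q1 N → Q2 N) :
    (bcnt Q1 Y : ℝ) ≤ bcnt Q2 Y := by
  classical
  unfold bcnt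
  refine Nat.cast_le.2 (Finset.card_le_card fun N hN => ?_)
  rw [Finset.mem_filter, Finset.mem_Ioc] at hN ⊢
  exact ⟨hN.1, h N hN.1.1 hN.1.2 hN.2⟩

theorem k1_cnt (x y : ℕ) (hxy : x ≤ y) (Q1 Q2 : ℕ → Prop) (h : ∀ n, n ≤ x → Q1 n → Q2 n) :
    (cnt Q1 x : ℝ) ≤ cnt Q2 y := by
  classical
  unfold cnt
  refine Nat.cast_le.2 (Finset.card_le_card fun N hN => ?_)
  rw [Finset.mem_filter, Finset.mem_Icc] at hN ⊢
  exact ⟨⟨hN.1.1, hN.1.2.trans hxy⟩, h N hN.1.2 hN.2⟩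

/-- One dyadic block.

Proof. `P0 = ∏ F_i`, `Local P0 G` by `local_sys`; `C₁` from `H57M.argCount_bounds G hG hlc`, `C₂ ≥ 1` with `bhTrunc F 1 z ≤ C₂` for all `z`
(`H33B.bh_bounds F hF hN`). `c' = c/(2 C₁^(g + 2) C₂)`-like constant. Given `η`: `w0` from `block_low` for `η`; `z0 = w0 + 1`, `w = z - 1` (so `z = w + 1`),
`P = primorial w = H33B.PW (w + 1)`. For `Y/2 < N ≤ Y`, `N` admissible and outside the exceptional set of `block_low`:
`#gN > 0` by `gN_pos` (`Admissible` is its hypothesis, `P0 * (C N - G)`), so with `x = argCount G (Y/2)`, `X = argCount G N` (`x ≤ X ≤ C₁ x` for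
large `Y`: `argCount` is monotone, `H57M.argSet_eq`, and `argCount G N ≤ argCount G Y ≤ C₁ x`)
`cnt (A x ∧ PG) x ≥ (c/2) (x/((log x)^g log Y)) · P #gN/(φ(P) #gd)`. `H33B.series_count`: `seriesTrunc F G N z = (P/φ(P))^(g+1) #gN/P`
(`IsCoprime` of a product), `#gd = P ∏_{p < z} (1 - wF F p/p)` (`H33B.count_coprime`), `H33B.FS_bh` and `H33B.SR1_ratio`:
`P #gN/(φ(P) #gd) = seriesTrunc F G N z/bhTrunc F 1 z ≥ seriesTrunc/C₂`. And `log Y ≤ C₁ log x`, `log x ≤ log X`, `x ≥ X/C₁`;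
`mainT F G N ≤ X/(log X)^(g+1)` (`H33B.mainT`; the degrees are `≥ 1`). By `hA` every `n` counted has `A2 X n`, and `n ≤ x ≤ X`. -/
theorem sys_block {g : ℕ} (F : Fin g → ℤ[X]) (hF : Sys F) (hN : NoFix F) (G : ℤ[X])
    (hG : 1 ≤ G.natDegree) (hlc : 0 < G.leadingCoeff) (A A2 : ℕ → ℕ → Prop) (c D : ℝ) (hc : 0 < c)
    (hD : 1 ≤ D) (hU : Upper g D A) (hL : Lower (∏ i, F i) g c A)
    (hA : ∀ C : ℝ, ∃ x0 : ℕ, ∀ x X n : ℕ, x0 ≤ x → x ≤ X → (X : ℝ) ≤ C * x → n ≤ x → A x n →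
      A2 X n) :
    ∃ c' : ℝ, 0 < c' ∧ ∀ η : ℝ, 0 < η → ∃ z0 : ℕ, ∀ z : ℕ, z0 ≤ z → ∃ Y0 : ℕ, ∀ Y : ℕ, Y0 ≤ Y →
      (bcnt (fun N => Admissible F G N ∧
        (cnt (fun n => A2 (argCount G N) n ∧ PG G N n) (argCount G N) : ℝ) <
          c' * (H33B.mainT F G N * seriesTrunc F G N z)) Y : ℝ) ≤ η * Y := by
  obtain ⟨cb, C2, hcb, hbh⟩ := H33B.bh_bounds F hF hN
  obtain ⟨A1, hA1, hsc⟩ := H57M.Q2_scale G hG hlc
  obtain ⟨x0, hx0⟩ := hA A1
  have hC2 : 0 < C2 := lt_of_lt_of_le hcb ((hbh 0).1.trans (hbh 0).2)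
  have hA1p : 0 < A1 := by linarith
  refine ⟨c / (2 * A1 ^ 2 * C2), by positivity, fun η hη => ?_⟩
  obtain ⟨w0, hw0⟩ := block_low G hG hlc (∏ i, F i) g A c D hc hD hU hL
    (local_sys F hF hN G hG hlc) η hη
  refine ⟨w0 + 1, fun z hz => ?_⟩
  obtain ⟨w, rfl⟩ : ∃ w, z = w + 1 := ⟨z - 1, by omega⟩
  obtain ⟨Y1, hY1⟩ := hw0 w (by omega)
  obtain ⟨Y2, hY2⟩ := hsc (max (x0 : ℝ) 2)
  refine ⟨max 3 (max Y1 Y2), fun Y hY => ?_⟩
  refine le_trans ?_ (hY1 Y (le_trans ((le_max_left _ _).trans (le_max_right _ _)) hY))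
  obtain ⟨e1, e2, e3, -, e5, -, e7⟩ := hY2 Y (le_trans ((le_max_right _ _).trans (le_max_right _ _)) hY)
  apply k1_bcnt
  intro N hN1 hN2 hN3
  obtain ⟨hadm, hlt⟩ := hN3
  refine ⟨gN_pos _ G N w hadm.2, ?_⟩
  by_contra hcon
  push Not at hcon
  obtain ⟨f1, f2, -⟩ := e7 N hN1.le hN2
  set x := argCount G (Y / 2) with hx
  set X := argCount G N with hX
  set P := primorial w with hP
  set n60 : ℕ := x / 60 with hn60
  have hn60x : (n60 : ℝ) ≤ x := by exact_mod_cast Nat.div_le_self x 60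
  have hx2 : (2 : ℝ) ≤ n60 := (le_max_right _ _).trans e1
  have hxx0 : x0 ≤ x := by
    have : (x0 : ℝ) ≤ x := ((le_max_left _ _).trans e1).trans hn60x
    exact_mod_cast this
  have hlogn : 2 ≤ Real.log n60 := (le_max_right _ _).trans e2
  have hlogx : Real.log n60 ≤ Real.log x := Real.log_le_log (by linarith) hn60x
  have hxX : (x : ℝ) ≤ X := by exact_mod_cast f1
  have hlogX : Real.log x ≤ Real.log X := Real.log_le_log (by linarith) hxX
  have hXA : (X : ℝ) ≤ A1 * x := by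
    have h1 : (X : ℝ) ≤ argCount G Y := by exact_mod_cast f2
    have h2 : A1 * (n60 : ℝ) ≤ A1 * x := mul_le_mul_of_nonneg_left hn60x hA1p.le
    linarith
  have hlogY : Real.log Y ≤ A1 * Real.log X := by
    have h1 : A1 * Real.log n60 ≤ A1 * Real.log X :=
      mul_le_mul_of_nonneg_left (hlogx.trans hlogX) hA1p.le
    linarith
  have hYpos : 0 < Real.log Y := by
    apply Real.log_pos
    have h1 : 3 ≤ Y := (le_max_left _ _).trans hY
    have h2 : (3 : ℝ) ≤ Y := by exact_mod_cast h1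
    linarith
  have hcnt : (cnt (fun n => A x n ∧ PG G N n) x : ℝ) ≤
      cnt (fun n => A2 X n ∧ PG G N n) X := by
    exact k1_cnt x X f1 _ _ fun n hn h => ⟨hx0 x X n hxx0 f1 hXA hn h.1, h.2⟩
  have hLx : 0 < Real.log x := by linarith
  have hLX : 0 < Real.log X := by linarith
  have hP0 : (0 : ℝ) < P := by exact_mod_cast primorial_pos w
  have hφ0 : (0 : ℝ) < P.totient := by exact_mod_cast Nat.totient_pos.2 (primorial_pos w)
  have hXp : (0 : ℝ) < X := by linarith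
  have hxp : (0 : ℝ) < x := by linarith
  obtain ⟨r, hr⟩ : ∃ r : ℝ, r = (P.totient : ℝ) / P := ⟨_, rfl⟩
  have hr0 : 0 < r := by rw [hr]; positivity
  have hφr : (P.totient : ℝ) = P * r := by rw [hr]; field_simp
  obtain ⟨bh, hbhd⟩ : ∃ b : ℝ, b = H33B.bhTrunc F 1 (w + 1) := ⟨_, rfl⟩
  have hbh1 := hbh (w + 1)
  rw [← hbhd] at hbh1
  have hB := k1_gd_card F hN w
  rw [← hP, ← hbhd, ← hr] at hB
  obtain ⟨ST, hST⟩ : ∃ S : ℝ, S = seriesTrunc F G N (w + 1) := ⟨_, rfl⟩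
  have ha := k1_gN_card F G N w
  rw [← hP, ← hST, hφr] at ha
  obtain ⟨a, had⟩ : ∃ a : ℝ, a = ((gN (∏ i, F i) G N P).card : ℝ) := ⟨_, rfl⟩
  rw [← had] at ha hcon
  obtain ⟨c1, hc1⟩ : ∃ c1 : ℝ, c1 = (cnt (fun n => A x n ∧ PG G N n) x : ℝ) := ⟨_, rfl⟩
  rw [← hc1] at hcon hcnt
  have hc10 : 0 ≤ c1 := by rw [hc1]; exact Nat.cast_nonneg _
  have ha0 : 0 ≤ a := by rw [had]; exact Nat.cast_nonneg _
  rw [hB, hφr] at hcon
  have hmT : H33B.mainT F G N ≤ X / Real.log X ^ (g + 1) := by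
    unfold H33B.mainT
    rw [← hX]
    have h1 : (1 : ℝ) ≤ (G.natDegree : ℝ) * ∏ i, ((F i).natDegree : ℝ) := by
      have h2 : (1 : ℝ) ≤ G.natDegree := by exact_mod_cast hG
      have h3 : (1 : ℝ) ≤ ∏ i, ((F i).natDegree : ℝ) := by
        have h4 : ∏ _i : Fin g, (1 : ℝ) ≤ ∏ i, ((F i).natDegree : ℝ) :=
          Finset.prod_le_prod (fun _ _ => zero_le_one) fun i _ => by exact_mod_cast hF.deg i
        simpa using h4
      nlinarith
    have h5 : 0 ≤ (X : ℝ) / Real.log X ^ (g + 1) := by positivity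
    exact mul_le_of_le_one_right h5 (inv_le_one_of_one_le₀ h1)
  have hlast := k1_num g c C2 A1 x X (Real.log x) (Real.log X) (Real.log Y) P r bh ST a c1
    (H33B.mainT F G N) hc hC2 hA1p hxp hXp hLx hLX hlogX hYpos hlogY hXA hP0 hr0 hbh1.2 ha0 ha
    hc10 hcon hmT
  rw [← hST] at hlt
  linarith

/-- All `N ≤ Y`. -/
theorem sys_all {g : ℕ} (F : Fin g → ℤ[X]) (hF : Sys F) (hN : NoFix F) (G : ℤ[X])
    (hG : 1 ≤ G.natDegree) (hlc : 0 < G.leadingCoeff) (A A2 : ℕ → ℕ → Prop) (c D : ℝ) (hc : 0 < c)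
    (hD : 1 ≤ D) (hU : Upper g D A) (hL : Lower (∏ i, F i) g c A)
    (hA : ∀ C : ℝ, ∃ x0 : ℕ, ∀ x X n : ℕ, x0 ≤ x → x ≤ X → (X : ℝ) ≤ C * x → n ≤ x → A x n →
      A2 X n) :
    ∃ c' : ℝ, 0 < c' ∧ ∀ ε : ℝ, 0 < ε → ∃ z0 : ℕ, ∀ z : ℕ, z0 ≤ z → ∃ Y0 : ℕ, ∀ Y : ℕ, Y0 ≤ Y →
      (cnt (fun N => Admissible F G N ∧
        (cnt (fun n => A2 (argCount G N) n ∧ PG G N n) (argCount G N) : ℝ) <
          c' * (H33B.mainT F G N * seriesTrunc F G N z)) Y : ℝ) ≤ ε * Y := by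
  obtain ⟨c', hc', h⟩ := sys_block F hF hN G hG hlc A A2 c D hc hD hU hL hA
  refine ⟨c', hc', fun ε hε => ?_⟩
  obtain ⟨z0, hz⟩ := h (ε / 4) (by positivity)
  refine ⟨z0, fun z hzz => ?_⟩
  obtain ⟨Y0, hY⟩ := hz z hzz
  exact dyadic _ ε hε Y0 hY

end Pool.Agent.Lib.H59W
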