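import Pool.Agent.Lib.H59W.PDefs
import Pool.Agent.Lib.H57C.X5

/-!
# Chunk P0: the weight, with small primes up to a power of `x`
-/

open Finset Polynomial

namespace Pool.Agent.Lib.H59W

open Pool.Agent.Lib.H15P Pool.Agent.Lib.H92G Pool.Agent.Lib.H57M Pool.Agent.Lib.H57C


theorem p0_le_of_sq (a b : ℝ) (h : a ^ 2 ≤ b ^ 2) (hb : 0 ≤ b) : a ≤ b := abs_le_of_sq_le_sq' h hb |>.2

theorem p0_mkPar : ∃ κ0 Dt : ℝ, 0 < κ0 ∧ κ0 ≤ 1 / 100 ∧ 1 ≤ Dt ∧ ∀ n : ℕ, 1 ≤ n → ∀ θ : ℝ,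
    0 < θ → θ ≤ 1 → ∀ δ : ℝ, 0 < δ → δ ≤ κ0 * θ / (n * 4000 ^ n) → ∀ c₀ : ℝ, 0 ≤ c₀ →
    κ0 * θ / (4000 * 4000 ^ n * n * δ) ≤ c₀ ^ 2 → ∃ L0 : ℝ, ∀ L : ℝ, L0 ≤ L →
    ∀ W : ℕ, 4 * (4000 ^ n) ^ 2 ≤ W →
    Real.log W ≤ δ * L → δ * L / 2 ≤ Real.log W → ∃ w : Par (4000 ^ n), w.n = n ∧ w.W = W ∧
      w.P = PP W (κ0 * θ * L / n) ∧ w.Dt = Dt ∧
      κ0 * θ * n * L / (8000 * Real.log W) ≤ 4000 ^ n * (1 + n * w.c) ^ 2 ∧
      ∃ lvs : Fin w.n → ℝ, (∀ i, 1 ≤ lvs i) ∧ (∀ i, Ex1 w.P (w.D i) (2 * c₀) (lvs i)) ∧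
        ∏ i, lvs i ^ w.m i ≤ Real.exp (θ * L) := by
  have hsig : 0 ≤ sig := by
    unfold sig
    have : 0 ≤ Real.log (1000 * ((4000 : ℕ) : ℝ)) := by
      apply Real.log_nonneg
      push_cast
      norm_num
    linarith
  obtain ⟨r0, hr0⟩ := exists_r0 sig hsig
  have hr1 : (0 : ℝ) < (r0 : ℝ) + 1 := by positivity
  refine ⟨1 / (24 * 4004 * ((r0 : ℝ) + 1)), 32 * Real.exp (4 * sig), by positivity, ?_, ?_, ?_⟩
  · rw [div_le_div_iff₀ (by positivity) (by norm_num)]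
    have : (0 : ℝ) ≤ r0 := Nat.cast_nonneg r0
    linarith
  · have h2 : 1 ≤ Real.exp (4 * sig) := Real.one_le_exp (by positivity)
    linarith
  set κ0 : ℝ := 1 / (24 * 4004 * ((r0 : ℝ) + 1)) with hκ0
  have hκpos : 0 < κ0 := by positivity
  have hκle : κ0 ≤ 1 / 100 := by
    rw [hκ0, div_le_div_iff₀ (by positivity) (by norm_num)]
    have : (0 : ℝ) ≤ r0 := Nat.cast_nonneg r0
    linarith
  intro n hn θ hθ hθ1 δ hδ hδ1 c₀ hc₀ hc₀2
  have hn0 : (0 : ℝ) < n := by exact_mod_cast hn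
  have hn1 : (1 : ℝ) ≤ n := by exact_mod_cast hn
  have h4n : (0 : ℝ) < 4000 ^ n := by positivity
  set Sm := ∑ i : Fin n, R1_m i with hSm
  set A : ℝ := 3 * ((n : ℝ) * (4000 ^ n : ℕ) + 1) ^ Sm with hA
  have hA0 : 0 < A := by positivity
  -- growth
  have hgrow : ∀ᶠ L : ℝ in Filter.atTop, A * (1 + 4 * c₀) ^ Sm ≤ Real.exp (θ / 2 * L) := by
    have h1 : Filter.Tendsto (fun L : ℝ => Real.exp (θ / 2 * L)) Filter.atTop Filter.atTop :=
      Real.tendsto_exp_atTop.comp (Filter.tendsto_id.const_mul_atTop (by positivity))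
    exact h1.eventually_ge_atTop _
  obtain ⟨L1, hL1⟩ := Filter.eventually_atTop.1 hgrow
  set β : ℝ := κ0 * θ / (n * 4000 ^ n) with hβ
  have hβ0 : 0 < β := by positivity
  refine ⟨max L1 (max 100 (2 / β)), fun L hL W hKW hlogW hlogW2 => ?_⟩
  have hLL1 : L1 ≤ L := (le_max_left _ _).trans hL
  have hL100 : 100 ≤ L := ((le_max_left _ _).trans (le_max_right _ _)).trans hL
  have hLb : 2 / β ≤ L := ((le_max_right _ _).trans (le_max_right _ _)).trans hL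
  have hLpos : 0 < L := by linarith
  set T : ℝ := κ0 * θ * L / n with hT
  have hTβ : T / 4000 ^ n = β * L := by
    rw [hT, hβ]
    field_simp
  have hT2 : 2 ≤ T / 4000 ^ n := by
    rw [hTβ]
    rw [div_le_iff₀ hβ0] at hLb
    linarith
  have hT1 : Real.log W ≤ T / 4000 ^ n := by
    rw [hTβ]
    exact hlogW.trans (mul_le_mul_of_nonneg_right hδ1 hLpos.le)
  have hW64 : 64 ≤ W := by
    have h1 : 4000 ≤ 4000 ^ n := by
      calc 4000 = 4000 ^ 1 := (pow_one _).symm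
        _ ≤ 4000 ^ n := Nat.pow_le_pow_right (by norm_num) hn
    nlinarith
  have hlog1 : 1 ≤ Real.log W := by
    have h1 : (64 : ℝ) ≤ W := by exact_mod_cast hW64
    rw [Real.le_log_iff_exp_le (by linarith)]
    linarith [Real.exp_one_lt_d9]
  have hTpos : 0 < T := by positivity
  set c : ℝ := Real.sqrt (T / (8000 * 4000 ^ n * Real.log W)) with hc
  have hden : 0 < 8000 * 4000 ^ n * Real.log W := by positivity
  have hc2 : c ^ 2 = T / (8000 * 4000 ^ n * Real.log W) := Real.sq_sqrt (by positivity)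
  have hc0 : 0 ≤ c := Real.sqrt_nonneg _
  have hcc : c ≤ c₀ := by
    refine p0_le_of_sq _ _ ?_ hc₀
    refine le_trans ?_ hc₀2
    rw [hc2, hT]
    rw [div_le_div_iff₀ hden (by positivity)]
    have e1 : κ0 * θ * L / n * (4000 * 4000 ^ n * n * δ) = κ0 * θ * (8000 * 4000 ^ n * (δ * L / 2)) := by
      field_simp
      ring
    rw [e1]
    gcongr
  have hlvb : 3 * ((n : ℝ) * (4000 ^ n : ℕ) + 1) ^ (∑ i : Fin n, R1_m i) *
      ∏ i : Fin n, ((1 + 4 * c) * Real.exp (12 * ((r0 : ℝ) + 1) * (T / 4000 ^ (i : ℕ)))) ^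
        R1_m i ≤ Real.exp (θ * L) := by
    have e1 : ∏ i : Fin n, ((1 + 4 * c) * Real.exp (12 * ((r0 : ℝ) + 1) * (T / 4000 ^ (i : ℕ)))) ^
        R1_m i = (1 + 4 * c) ^ Sm *
          Real.exp (∑ i : Fin n, (R1_m i : ℝ) * (12 * ((r0 : ℝ) + 1) * T / 4000 ^ (i : ℕ))) := by
      rw [Real.exp_sum, ← Finset.prod_pow_eq_pow_sum, ← Finset.prod_mul_distrib]
      refine Finset.prod_congr rfl fun i _ => ?_
      rw [mul_pow, ← Real.exp_nat_mul]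
      congr 2
      ring
    rw [e1]
    have h1 := R1_sum_m n (12 * ((r0 : ℝ) + 1) * T) (by positivity)
    have h2 : 4004 * n * (12 * ((r0 : ℝ) + 1) * T) = θ / 2 * L := by
      rw [hT, hκ0]
      field_simp
      ring
    rw [h2] at h1
    have h4 : (1 + 4 * c) ^ Sm ≤ (1 + 4 * c₀) ^ Sm :=
      pow_le_pow_left₀ (by positivity) (by linarith) _
    have h5 := hL1 L hLL1
    calc A * ((1 + 4 * c) ^ Sm * Real.exp (∑ i : Fin n,
          (R1_m i : ℝ) * (12 * ((r0 : ℝ) + 1) * T / 4000 ^ (i : ℕ))))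
        ≤ A * ((1 + 4 * c₀) ^ Sm * Real.exp (θ / 2 * L)) := by
          have := Real.exp_le_exp.2 h1
          gcongr
      _ = (A * (1 + 4 * c₀) ^ Sm) * Real.exp (θ / 2 * L) := by ring
      _ ≤ Real.exp (θ / 2 * L) * Real.exp (θ / 2 * L) := by gcongr
      _ = Real.exp (θ * L) := by
          rw [← Real.exp_add]
          congr 1
          ring
  obtain ⟨w, w1, w2, w3, w4, w5, w6, w7, w8, w9⟩ := X2_core n W r0 T c (Real.exp (θ * L)) hKW hr0 hT1 hT2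
    hc0 (by linarith) (by rw [hc2]; field_simp) (Real.one_le_exp (by positivity)) hlvb
  refine ⟨w, w1, w2, w3, w4, ?_,
    fun i => Real.exp (12 * ((r0 : ℝ) + 1) * (T / 4000 ^ (i : ℕ))),
    fun i => Real.one_le_exp (by positivity),
    fun i => X2_mono (w9 i) (by linarith), ?_⟩
  · rw [w7]
    have h1 : (n : ℝ) ^ 2 * c ^ 2 ≤ (1 + n * c) ^ 2 := by
      have : 0 ≤ (n : ℝ) * c := by positivity
      nlinarith
    calc κ0 * θ * n * L / (8000 * Real.log W) = 4000 ^ n * ((n : ℝ) ^ 2 * c ^ 2) := by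
          rw [hc2, hT]
          field_simp
      _ ≤ 4000 ^ n * (1 + n * c) ^ 2 := by gcongr
  · have e1 : ∏ i : Fin w.n, Real.exp (12 * ((r0 : ℝ) + 1) * (T / 4000 ^ (i : ℕ))) ^ w.m i =
        ∏ i : Fin n, Real.exp (12 * ((r0 : ℝ) + 1) * (T / 4000 ^ (i : ℕ))) ^ R1_m i := by
      exact (Finset.prod_congr rfl fun i _ => by rw [w8 i]).trans
        (X2_prod (fun i => Real.exp (12 * ((r0 : ℝ) + 1) * (T / 4000 ^ i)) ^ R1_m i) w1)
    rw [e1]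
    have e2 : ∏ i : Fin n, Real.exp (12 * ((r0 : ℝ) + 1) * (T / 4000 ^ (i : ℕ))) ^ R1_m i =
        Real.exp (∑ i : Fin n, (R1_m i : ℝ) * (12 * ((r0 : ℝ) + 1) * T / 4000 ^ (i : ℕ))) := by
      rw [Real.exp_sum]
      refine Finset.prod_congr rfl fun i _ => ?_
      rw [← Real.exp_nat_mul]
      congr 1
      ring
    rw [e2]
    have h1 := R1_sum_m n (12 * ((r0 : ℝ) + 1) * T) (by positivity)
    have h2 : 4004 * n * (12 * ((r0 : ℝ) + 1) * T) = θ / 2 * L := by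
      rw [hT, hκ0]
      field_simp
      ring
    rw [h2] at h1
    apply Real.exp_le_exp.2
    nlinarith

/-- Large `x`. -/
theorem p0_large (δ A B : ℝ) (hδ : 0 < δ) : ∃ x0 : ℕ, ∀ x : ℕ, x0 ≤ x →
    3 ≤ x ∧ A ≤ Real.log x ∧ B * Real.log x ≤ (x : ℝ) ^ (δ / 2) ∧ A ≤ (x : ℝ) ^ (δ / 2) := by
  have h0 : Filter.Tendsto (fun x : ℕ => Real.log x) Filter.atTop Filter.atTop :=
    Real.tendsto_log_atTop.comp tendsto_natCast_atTop_atTop
  have h1 := h0.eventually_ge_atTop A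
  have h2 : Filter.Tendsto (fun x : ℕ => (x : ℝ) ^ (δ / 2)) Filter.atTop Filter.atTop :=
    (tendsto_rpow_atTop (by positivity)).comp tendsto_natCast_atTop_atTop
  have h3 := h2.eventually_ge_atTop A
  have h4 := (isLittleO_log_rpow_atTop (show (0 : ℝ) < δ / 2 by positivity)).bound
    (show (0 : ℝ) < 1 / (|B| + 1) by positivity)
  have h5 := tendsto_natCast_atTop_atTop (R := ℝ) |>.eventually h4
  have h6 := h1.and (h3.and (h5.and (Filter.eventually_ge_atTop 3)))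
  obtain ⟨x0, hx0⟩ := Filter.eventually_atTop.1 h6
  refine ⟨x0, fun x hx => ?_⟩
  obtain ⟨a1, a2, a3, a4⟩ := hx0 x hx
  refine ⟨a4, a1, ?_, a2⟩
  have hx3 : (3 : ℝ) ≤ x := by exact_mod_cast a4
  have hL0 : 0 ≤ Real.log x := Real.log_nonneg (by linarith)
  have hX0 : 0 ≤ (x : ℝ) ^ (δ / 2) := Real.rpow_nonneg (by linarith) _
  rw [Real.norm_of_nonneg hL0, Real.norm_of_nonneg hX0] at a3
  have hB0 : (0 : ℝ) < |B| + 1 := by positivity
  have hB1 : B ≤ |B| + 1 := by linarith [le_abs_self B]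
  calc B * Real.log x ≤ (|B| + 1) * Real.log x := mul_le_mul_of_nonneg_right hB1 hL0
    _ ≤ (|B| + 1) * (1 / (|B| + 1) * (x : ℝ) ^ (δ / 2)) := mul_le_mul_of_nonneg_left a3 hB0.le
    _ = (x : ℝ) ^ (δ / 2) := by field_simp

/-- Proof. (Model: `H57M.mkPar` in `H57M/R1.lean`, `H57C.mkPar2` in `H57C/X2.lean`, `H57C.wt_exists` in `H57C/X5.lean`; the only difference is that `log W` is now
`≈ δ L` with a constant `δ` instead of `≤ √L`, so that all constants are bounded.) `L = log x`. `r0` from `exists_r0 sig`, `κ0 = 1/(24·4004 (r0 + 1))`, `θ = 1/40`,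
`m` a natural number `≥ 1` and `≥ 8000 G/(κ0 θ)`, `K = 4000^m`, `T = κ0 θ L/m`, `δ1 = κ0 θ/(m 4000^m)`. For `δ ≤ δ1` and `W = ⌊x^δ⌋`: `δ L/2 ≤ log W ≤ δ L ≤ T/4000^m` and
`2 ≤ T/4000^m` for large `L`, so `H57M.R1_core` (with `n = m`, `c = √(T/(8000·4000^m log W))`, which is between `0` and the constant `c₀ = √(κ0 θ/(4000·4000^m m δ))`, and
`lv = exp (θ L)`) gives `wp`; its hypothesis on `lv`: `3 (m K + 1)^Sm ∏ (1 + 4 c)^(R1_m i) exp (12 (r0+1) T ∑ R1_m i/4000^i) ≤ exp (θ L)` by `R1_sum_m`, for large `L`.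
* `gain`: `4000^m (1 + m c)^2 log W ≥ 4000^m m^2 c^2 log W = m^2 T/8000 = m κ0 θ L/8000 ≥ G L`.
* `small`: the primes of `PP W T` are `≤ e^T ≤ x^(1/100)`.
* `big`: `Q/φ(Q) ≤ C T` (`H92G.Q_div_totient_le`), `CL = (2 (m + 1))^K`, `Dt` constants, `W = ⌊x^δ⌋ → ∞` faster than `T`.
* `ex`: as in `mkPar2`: `D i` has an expansion with coefficients `≤ 2 c ≤ 2 c₀` and level `lvs i = exp (12 (r0 + 1) T/4000^i)` (`H57C.ex1_DB`), `∏ lvs^(m i) ≤ exp (θ L)`; `exJ_L` with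
`C = max 1 (2 c₀)`: constant `((m + 1) C)^K`; `exJ_sq`: constant `((m + 1) C)^(2K) =: CF`, level `exp (2 θ L) ≤ x^(1/10)` (`x5_mono`). (For every `H'` with `#H' = 4000^m`.) -/
theorem wt_const (G : ℝ) (hG : 0 < G) : ∃ m : ℕ, 1 ≤ m ∧ ∃ δ1 : ℝ, 0 < δ1 ∧ δ1 ≤ 1 / 200 ∧
    ∀ δ : ℝ, 0 < δ → δ ≤ δ1 → ∃ CF : ℝ, 1 ≤ CF ∧ ∃ x0 : ℕ, ∀ x : ℕ, x0 ≤ x →
      ∃ wp : Par (4000 ^ m), ∀ H' : Finset ℕ, H'.card = 4000 ^ m → Wt wp H' δ G CF x := by
  obtain ⟨κ0, Dt, hκ, hκ1, hDt, hmk⟩ := p0_mkPar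
  obtain ⟨CQ, hCQ, hQt⟩ := Q_div_totient_le
  obtain ⟨θ, hθe⟩ : ∃ θ : ℝ, θ = 1 / 40 := ⟨_, rfl⟩
  have hθ : 0 < θ := by rw [hθe]; norm_num
  have hθ1 : θ ≤ 1 := by rw [hθe]; norm_num
  set m : ℕ := ⌈8000 * G / (κ0 * θ)⌉₊ + 1 with hm
  have hm1 : 1 ≤ m := by omega
  have hmG : 8000 * G ≤ κ0 * θ * m := by
    have h1 : 8000 * G / (κ0 * θ) ≤ ⌈8000 * G / (κ0 * θ)⌉₊ := Nat.le_ceil _
    have h2 : (m : ℝ) = ⌈8000 * G / (κ0 * θ)⌉₊ + 1 := by rw [hm]; push_cast; ring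
    have h3 : 8000 * G / (κ0 * θ) ≤ m := by linarith
    rw [div_le_iff₀ (by positivity)] at h3
    linarith
  clear_value m
  have hm0 : (1 : ℝ) ≤ m := by exact_mod_cast hm1
  have hmpos : (0 : ℝ) < m := by linarith
  have h41 : (1 : ℝ) ≤ 4000 ^ m := one_le_pow₀ (by norm_num)
  refine ⟨m, hm1, κ0 * θ / (m * 4000 ^ m), by positivity, ?_, fun δ hδ hδ1 => ?_⟩
  · rw [div_le_div_iff₀ (by positivity) (by norm_num)]
    have a1 : κ0 * θ ≤ 1 / 100 * (1 / 40) := by rw [hθe]; nlinarith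
    have a2 : (1 : ℝ) ≤ m * 4000 ^ m := by nlinarith
    linarith
  obtain ⟨c₀, hc₀e⟩ : ∃ c₀ : ℝ, c₀ = Real.sqrt (κ0 * θ / (4000 * 4000 ^ m * m * δ)) := ⟨_, rfl⟩
  have hc₀ : 0 ≤ c₀ := by rw [hc₀e]; exact Real.sqrt_nonneg _
  have hc₀2 : κ0 * θ / (4000 * 4000 ^ m * m * δ) ≤ c₀ ^ 2 := by
    rw [hc₀e, Real.sq_sqrt (by positivity)]
  obtain ⟨L0, hL0⟩ := hmk m hm1 θ hθ hθ1 δ hδ hδ1 c₀ hc₀ hc₀2
  obtain ⟨C, hCe⟩ : ∃ C : ℝ, C = max 1 (2 * c₀) := ⟨_, rfl⟩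
  have hC1 : 1 ≤ C := by rw [hCe]; exact le_max_left _ _
  have hC2 : 2 * c₀ ≤ C := by rw [hCe]; exact le_max_right _ _
  have hC3 : 1 ≤ ((m : ℝ) + 1) * C := by nlinarith
  obtain ⟨K, hK⟩ : ∃ K : ℕ, K = 4000 ^ m := ⟨_, rfl⟩
  obtain ⟨X, hX⟩ : ∃ X : ℝ, X = 8 * ((4000 ^ m : ℕ) : ℝ) ^ 2 *
    (2 * ((m : ℝ) + 1)) ^ (4000 ^ m) * Dt ^ 2 := ⟨_, rfl⟩
  have hX0 : 0 ≤ X := by rw [hX]; positivity
  refine ⟨((((m : ℝ) + 1) * C) ^ (4000 ^ m)) ^ 2, one_le_pow₀ (one_le_pow₀ hC3), ?_⟩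
  obtain ⟨x0, hx0⟩ := p0_large δ (max L0 (max (m / (κ0 * θ)) (400 * ((4000 ^ m : ℕ) : ℝ) ^ 2)))
    (100 * (CQ * X)) hδ
  refine ⟨x0, fun x hx => ?_⟩
  obtain ⟨hx3, hLm, hLX, hXm⟩ := hx0 x hx
  set L := Real.log x with hL
  have hLL0 : L0 ≤ L := le_trans (le_max_left _ _) hLm
  have hLT : (m : ℝ) / (κ0 * θ) ≤ L :=
    le_trans (le_trans (le_max_left _ _) (le_max_right _ _)) hLm
  have hXK : 400 * ((4000 ^ m : ℕ) : ℝ) ^ 2 ≤ (x : ℝ) ^ (δ / 2) :=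
    le_trans (le_trans (le_max_right _ _) (le_max_right _ _)) hXm
  have hx3' : (3 : ℝ) ≤ x := by exact_mod_cast hx3
  have hxpos : (0 : ℝ) < x := by linarith
  have hLpos : 0 < L := Real.log_pos (by linarith)
  have hexpL : ∀ y : ℝ, Real.exp (y * L) = (x : ℝ) ^ y := by
    intro y
    rw [Real.rpow_def_of_pos hxpos, mul_comm]
  obtain ⟨Y, hY⟩ : ∃ Y : ℝ, Y = (x : ℝ) ^ (δ / 2) := ⟨_, rfl⟩
  rw [← hY] at hXK hLX
  have hYY : (x : ℝ) ^ δ = Y ^ 2 := by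
    rw [hY, ← Real.rpow_natCast, ← Real.rpow_mul hxpos.le]
    congr 1
    push_cast
    ring
  have hK1 : (1 : ℝ) ≤ ((4000 ^ m : ℕ) : ℝ) := by push_cast; exact h41
  have hY2 : 2 ≤ Y := by nlinarith
  obtain ⟨W, hW⟩ : ∃ W : ℕ, W = ⌊(x : ℝ) ^ δ⌋₊ := ⟨_, rfl⟩
  have hWle : (W : ℝ) ≤ Y ^ 2 := by
    rw [hW, ← hYY]; exact Nat.floor_le (Real.rpow_nonneg hxpos.le _)
  have hWge : Y ≤ W := by
    have h1 : (x : ℝ) ^ δ < W + 1 := by rw [hW]; exact Nat.lt_floor_add_one _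
    rw [hYY] at h1
    nlinarith
  have hWpos : (0 : ℝ) < W := by linarith
  have hlogW : Real.log W ≤ δ * L := by
    have h1 : Real.log W ≤ Real.log ((x : ℝ) ^ δ) := by
      apply Real.log_le_log hWpos
      rw [hYY]; exact hWle
    rwa [Real.log_rpow hxpos] at h1
  have hlogW2 : δ * L / 2 ≤ Real.log W := by
    have h1 : Real.log ((x : ℝ) ^ (δ / 2)) ≤ Real.log W := by
      apply Real.log_le_log (Real.rpow_pos_of_pos hxpos _)
      rw [← hY]; exact hWge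
    rw [Real.log_rpow hxpos] at h1
    linarith
  have hW400 : 400 * (4000 ^ m) ^ 2 ≤ W := by
    have : ((400 * (4000 ^ m) ^ 2 : ℕ) : ℝ) ≤ W := by
      push_cast
      push_cast at hXK
      linarith
    exact_mod_cast this
  have hW4 : 4 * (4000 ^ m) ^ 2 ≤ W := by
    have : 4 * (4000 ^ m) ^ 2 ≤ 400 * (4000 ^ m) ^ 2 := Nat.mul_le_mul_right _ (by norm_num)
    omega
  obtain ⟨w, hwn, hwW, hwP, hwD, hwg, lvs, hl1, hl2, hl3⟩ := hL0 L hLL0 W hW4 hlogW hlogW2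
  have hlogW0 : 0 < Real.log W := by
    have : 0 < δ * L / 2 := by positivity
    linarith
  refine ⟨w, fun H hH => ⟨?_, ?_, ?_, ?_, ?_, ?_⟩⟩
  · rw [hwW, hW]
  · intro p hp
    rw [hwP] at hp
    have h1 : (p : ℝ) ≤ Real.exp (κ0 * θ * L / m) := by
      unfold PP at hp
      rw [mem_filter, mem_Ioc] at hp
      exact (Nat.le_floor_iff (Real.exp_pos _).le).mp hp.1.2
    refine h1.trans ?_
    rw [← hexpL]
    apply Real.exp_le_exp.mpr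
    rw [div_le_iff₀ (by linarith)]
    have h2 : κ0 * θ ≤ 1 / 100 := by nlinarith
    have h3 : κ0 * θ * L ≤ 1 / 100 * L := mul_le_mul_of_nonneg_right h2 hLpos.le
    have h4 : 1 / 100 * L ≤ 1 / 100 * L * m := by nlinarith
    linarith
  · rw [hwW, hwn]
    push_cast
    have h1 : G * L ≤ κ0 * θ * m * L / (8000 * Real.log W) * Real.log W := by
      have h2 : κ0 * θ * m * L / (8000 * Real.log W) * Real.log W = κ0 * θ * m / 8000 * L := by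
        field_simp
      rw [h2]
      apply mul_le_mul_of_nonneg_right _ hLpos.le
      linarith
    exact h1.trans (mul_le_mul_of_nonneg_right hwg hlogW0.le)
  · have hT1 : 1 ≤ κ0 * θ * L / m := by
      rw [le_div_iff₀ hmpos, one_mul]
      rw [div_le_iff₀ (by positivity)] at hLT
      linarith
    have h1 := hQt W (κ0 * θ * L / m) hT1
    rw [← hwP] at h1
    have hTL : κ0 * θ * L / m ≤ L := by
      rw [div_le_iff₀ hmpos]
      have h2 : κ0 * θ ≤ 1 := by nlinarith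
      have h3 : κ0 * θ * L ≤ 1 * L := mul_le_mul_of_nonneg_right h2 hLpos.le
      nlinarith
    have h2 : ((∏ p ∈ w.P, p : ℕ) : ℝ) / ((∏ p ∈ w.P, p).totient : ℝ) ≤ CQ * L :=
      h1.trans (mul_le_mul_of_nonneg_left hTL hCQ.le)
    have e1 : 8 * ((4000 ^ m : ℕ) : ℝ) ^ 2 * w.CL * w.Dt ^ 2 / w.W = X / W := by
      rw [hX, hwW, hwD]
      unfold Par.CL
      rw [hwn]
    rw [e1]
    have h3 : 0 ≤ X / W := by positivity
    calc ((∏ p ∈ w.P, p : ℕ) : ℝ) / ((∏ p ∈ w.P, p).totient : ℝ) * (X / W)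
        ≤ CQ * L * (X / W) := mul_le_mul_of_nonneg_right h2 h3
      _ = (CQ * X * L) / W := by ring
      _ ≤ 1 / 100 := by
          rw [div_le_div_iff₀ hWpos (by norm_num)]
          nlinarith
  · rw [hwW]; exact hW400
  · have hJ : Fintype.card {h // h ∈ H} = 4000 ^ m := by rw [Fintype.card_coe, hH]
    have hl2' : ∀ i, Ex1 w.P (w.D i) C (lvs i) := fun i => X2_mono (hl2 i) hC2
    have e1 := exJ_L w C hC1 lvs hl1 hl2' {h // h ∈ H} hJ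
    obtain ⟨hz1, hz2⟩ := w.z_bounds
    have hzK : 1 ≤ w.z ^ (4000 ^ m) := one_le_pow₀ hz1
    have hD0 : 0 ≤ ∏ i, lvs i ^ w.m i :=
      prod_nonneg fun i _ => pow_nonneg (zero_le_one.trans (hl1 i)) _
    have e2 := exJ_sq w.P w.prime _ _ _ (by positivity) hD0 e1 (1 / w.z ^ (4000 ^ m))
      (by positivity) (by rw [div_le_one (by positivity)]; exact hzK)
    have e3 : (fun S => 1 / w.z ^ (4000 ^ m) * w.L S ^ 2) = FC w H := by
      funext S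
      unfold FC
      ring
    rw [e3] at e2
    refine x5_mono e2 ?_ ?_
    · rw [hwn]
    · calc (∏ i, lvs i ^ w.m i) ^ 2 ≤ Real.exp (θ * L) ^ 2 := pow_le_pow_left₀ hD0 hl3 2
        _ = (x : ℝ) ^ (2 * θ) := by
            rw [← Real.exp_nat_mul, ← hexpL]
            congr 1
            push_cast
            ring
        _ ≤ (x : ℝ) ^ (1 / 10 : ℝ) := by
            apply Real.rpow_le_rpow_of_exponent_le (by linarith)
            rw [hθe]; norm_num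

end Pool.Agent.Lib.H59W
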