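import Pool.Agent.Lib.H59W.PDefs
import Pool.Agent.Lib.H59W.B1
import Pool.Agent.Lib.H57C.V5

/-!
# Chunk P1: level of distribution
-/

open Finset Polynomial

namespace Pool.Agent.Lib.H59W

open Pool.Agent.Lib.H15P Pool.Agent.Lib.H92G Pool.Agent.Lib.H57M Pool.Agent.Lib.H57C
open Pool.Agent.Lib.H59C (DD SWp)

theorem p1_gq (m : ℕ) (hm : Squarefree m) :
    ∏ q ∈ m.primeFactors, H59C.gq q = 1 / (Nat.totient m : ℝ) := by
  have h1 : Nat.totient m = ∏ q ∈ m.primeFactors, (q - 1) := by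
    have h2 := Nat.totient_mul_prod_primeFactors m
    rw [Nat.prod_primeFactors_of_squarefree hm, mul_comm] at h2
    exact Nat.eq_of_mul_eq_mul_left (Nat.pos_of_ne_zero hm.ne_zero) h2
  rw [h1]
  push_cast
  rw [one_div, ← prod_inv_distrib]
  apply prod_congr rfl
  intro q hq
  have h3 := (Nat.prime_of_mem_primeFactors hq).one_le
  unfold H59C.gq
  rw [one_div, Nat.cast_sub h3, Nat.cast_one]

theorem p1_memM {w p1 D m : ℕ} : m ∈ Mw w p1 D ↔ (1 ≤ m ∧ m ≤ D) ∧ Squarefree m ∧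
    ∀ q ∈ m.primeFactors, w < q ∧ q ≠ p1 := by
  unfold Mw
  rw [mem_filter, mem_Icc]

theorem p1_cop {w p1 D m : ℕ} (hm : m ∈ Mw w p1 D) : m.Coprime (primorial w) := by
  obtain ⟨⟨h1, _⟩, _, h3⟩ := p1_memM.1 hm
  refine Nat.coprime_of_dvd fun q hq hqm hqP => ?_
  have h4 := (h3 q (Nat.mem_primeFactors.2 ⟨hq, hqm, by omega⟩)).1
  have h2 : primorial w = H33B.PW (w + 1) := rfl
  rw [h2, H33B.CV4_dvd _ _ hq] at hqP
  omega

theorem p1_some (h w A E : ℕ) : ∃ A' B x0 : ℕ, ∀ x : ℕ, x0 ≤ x → ∀ p1 : ℕ, p1.Prime →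
    w < p1 → SWp A' x p1 → ∀ v : ℕ, (v + h).Coprime (primorial w) →
      Lv2 (some h) w v x p1 (DD x B) E (x / Real.log x ^ A) := by
  have hP1 : 1 ≤ primorial w := primorial_pos w
  obtain ⟨A', B, x0, hlev⟩ := lin_level 1 1 (h : ℤ) le_rfl le_rfl
    (by rw [Nat.cast_one]; exact isCoprime_one_left) (primorial w) hP1 A E
  refine ⟨A', B, x0, fun x hx p1 hp1 hwp hSW v hv => ?_⟩
  have hp1P : ¬ p1 ∣ 1 * primorial w := by
    rw [one_mul]
    intro h3
    have h2 : primorial w = H33B.PW (w + 1) := rfl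
    rw [h2, H33B.CV4_dvd _ _ hp1] at h3
    omega
  obtain ⟨rr, h0, h1, h2⟩ := hlev x hx p1 hp1 hp1P (by rw [one_mul]; exact hSW) (x / 2) x
    (Nat.div_le_self _ _) (by omega)
  refine ⟨rr, h0, fun m hm c hc => ?_, ?_⟩
  · obtain ⟨⟨hm1, hm2⟩, hsq, hm3⟩ := p1_memM.1 hm
    have hpm : ¬ p1 ∣ m := fun hd => (hm3 p1 (Nat.mem_primeFactors.2 ⟨hp1, hd, by omega⟩)).2 rfl
    have hv' : IsCoprime (((1 : ℕ) : ℤ) * v + h) (primorial w : ℤ) := by
      rw [Nat.cast_one, one_mul]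
      exact_mod_cast Nat.isCoprime_iff_coprime.2 hv
    have hc' : IsCoprime (((1 : ℕ) : ℤ) * c + h) (m : ℤ) := by
      rw [Nat.cast_one, one_mul]
      exact_mod_cast Nat.isCoprime_iff_coprime.2 (hc h rfl)
    have h3 := h1 m hm1 hm2 (by rw [one_mul]; exact p1_cop hm) hpm v c hv' hc'
    have e1 : LS 1 (h : ℤ) (x / 2) x (primorial w) v (fun n => n ≡ c [MOD m]) =
        ∑ n ∈ (Sq2 (some h) (primorial w) v x).filter (fun n => n ≡ c [MOD m]), wt2 (some h) n := by
      classical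
      unfold LS
      refine sum_congr ?_ fun n _ => ?_
      · ext n
        unfold Sq2
        simp only [mem_filter]
        constructor
        · rintro ⟨h4, h5, ⟨q, hq, he⟩, h6⟩
          refine ⟨⟨h4, h5, fun h' hh' => ?_⟩, h6⟩
          rw [← Option.some.inj hh']
          have h7 : n + h = q := by
            rw [Nat.cast_one, one_mul] at he
            exact_mod_cast he
          rw [h7]
          exact hq
        · rintro ⟨⟨h4, h5, h6⟩, h7⟩
          refine ⟨h4, h5, ⟨n + h, h6 h rfl, ?_⟩, h7⟩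
          push_cast
          ring
      · change Real.log (((1 : ℕ) : ℝ) * n + ((h : ℤ) : ℝ)) = Real.log ((n : ℝ) + h)
        congr 1
        push_cast
        ring
    have e2 : X2 (some h) (primorial w) x * ∏ q ∈ m.primeFactors, hdr (some h) q =
        (thl 1 h x - thl 1 h (x / 2)) / (Nat.totient (1 * primorial w) : ℝ) /
          (Nat.totient m : ℝ) := by
      have e3 : ∏ q ∈ m.primeFactors, hdr (some h) q = 1 / (Nat.totient m : ℝ) := by
        rw [← p1_gq m hsq]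
        refine prod_congr rfl fun q _ => ?_
        unfold hdr
        rw [if_neg (by simp)]
        rfl
      have e4 : X2 (some h) (primorial w) x =
          (thl 1 h x - thl 1 h (x / 2)) / (Nat.totient (primorial w) : ℝ) := rfl
      rw [e3, e4, one_mul, mul_one_div]
    rw [← e1, e2]
    exact h3
  · refine le_trans (sum_le_sum_of_subset_of_nonneg (fun m hm => ?_) fun m _ _ =>
      mul_nonneg (by positivity) (h0 m)) h2
    obtain ⟨⟨hm1, hm2⟩, hsq, hm3⟩ := p1_memM.1 hm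
    rw [mem_filter, mem_Icc]
    refine ⟨⟨hm1, hm2⟩, by rw [one_mul]; exact p1_cop hm, fun hd => ?_⟩
    exact (hm3 p1 (Nat.mem_primeFactors.2 ⟨hp1, hd, by omega⟩)).2 rfl

theorem p1_none (w A E : ℕ) : ∃ x0 : ℕ, ∀ x : ℕ, x0 ≤ x → ∀ p1 : ℕ, ∀ v : ℕ,
      Lv2 none w v x p1 (DD x 0) E (x / Real.log x ^ A) := by
  classical
  have hP1 : 1 ≤ primorial w := primorial_pos w
  have hC : (0 : ℝ) < (E + 1 : ℝ) ^ ((E + 1) ^ 10) := by positivity
  obtain ⟨n1, hn1⟩ := v5_large A _ hC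
  refine ⟨n1, fun x hx p1 v => ⟨fun _ => 1, fun _ => zero_le_one, fun m hm c _ => ?_, ?_⟩⟩
  · obtain ⟨⟨hm1, hm2⟩, hsq, hm3⟩ := p1_memM.1 hm
    have hcop : Nat.Coprime (primorial w) m := (p1_cop hm).symm
    obtain ⟨u, hv1, hv2⟩ := Nat.chineseRemainder hcop v c
    have hset : (Sq2 none (primorial w) v x).filter (fun n => n ≡ c [MOD m]) =
        (Ioc (x / 2) x).filter (fun t => t ≡ u [MOD (primorial w * m)]) := by
      ext t
      unfold Sq2
      rw [mem_filter, mem_filter, mem_filter, ← Nat.modEq_and_modEq_iff_modEq_mul hcop]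
      constructor
      · rintro ⟨⟨h0, h1, _⟩, h2⟩
        exact ⟨h0, h1.trans hv1.symm, h2.trans hv2.symm⟩
      · rintro ⟨h0, h1, h2⟩
        exact ⟨⟨h0, h1.trans hv1, fun h hh => by simp at hh⟩, h2.trans hv2⟩
    have hpr : (m : ℝ) = ∏ p ∈ m.primeFactors, (p : ℝ) := by
      have := Nat.prod_primeFactors_of_squarefree hsq
      conv_lhs => rw [← this]
      push_cast
      rfl
    have h2 := v5_count (x / 2) x (primorial w * m) u (Nat.mul_pos hP1 hm1) (Nat.div_le_self _ _)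
    have e1 : ∑ n ∈ (Sq2 none (primorial w) v x).filter (fun n => n ≡ c [MOD m]), wt2 none n =
        (((Ioc (x / 2) x).filter (fun t => t ≡ u [MOD (primorial w * m)])).card : ℝ) := by
      rw [hset, card_eq_sum_ones, Nat.cast_sum]
      refine sum_congr rfl fun n _ => ?_
      rw [Nat.cast_one]
      rfl
    have e2 : X2 none (primorial w) x * ∏ q ∈ m.primeFactors, hdr none q =
        ((x : ℝ) - (x / 2 : ℕ)) / ((primorial w * m : ℕ) : ℝ) := by
      have e3 : ∏ q ∈ m.primeFactors, hdr none q = 1 / (m : ℝ) := by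
        rw [hpr, one_div, ← prod_inv_distrib]
        refine prod_congr rfl fun q _ => ?_
        unfold hdr
        rw [if_pos rfl, one_div]
      have e4 : X2 none (primorial w) x = ((x : ℝ) - (x / 2 : ℕ)) / (primorial w : ℝ) := rfl
      rw [e3, e4, Nat.cast_mul, mul_one_div, div_div]
    rw [e1, e2]
    exact h2
  · have hDD : DD x 0 = ⌊Real.sqrt x⌋₊ := by
      unfold DD
      rw [pow_zero, div_one]
    have hD : ((DD x 0 : ℕ) : ℝ) ≤ Real.sqrt x := by
      rw [hDD]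
      exact Nat.floor_le (Real.sqrt_nonneg _)
    calc ∑ m ∈ Mw w p1 (DD x 0), (E : ℝ) ^ m.primeFactors.card * 1
        ≤ ∑ _m ∈ Mw w p1 (DD x 0), (E + 1 : ℝ) ^ ((E + 1) ^ 10) * (Real.sqrt x) ^ (1 / 10 : ℝ) := by
          refine Finset.sum_le_sum fun m hm => ?_
          obtain ⟨⟨hm1, hm2⟩, hsq, _⟩ := p1_memM.1 hm
          rw [mul_one]
          refine (v5_omega E m hsq).trans (mul_le_mul_of_nonneg_left ?_ hC.le)
          refine Real.rpow_le_rpow (Nat.cast_nonneg _) ?_ (by norm_num)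
          exact le_trans (by exact_mod_cast hm2) hD
      _ = ((Mw w p1 (DD x 0)).card : ℝ) *
          ((E + 1 : ℝ) ^ ((E + 1) ^ 10) * (Real.sqrt x) ^ (1 / 10 : ℝ)) := by
          rw [Finset.sum_const, nsmul_eq_mul]
      _ ≤ Real.sqrt x * ((E + 1 : ℝ) ^ ((E + 1) ^ 10) * (Real.sqrt x) ^ (1 / 10 : ℝ)) := by
          refine mul_le_mul_of_nonneg_right ?_ (by positivity)
          refine le_trans ?_ hD
          have : (Mw w p1 (DD x 0)).card ≤ DD x 0 := by
            unfold Mw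
            refine (Finset.card_filter_le _ _).trans ?_
            simp
          exact_mod_cast this
      _ = (E + 1 : ℝ) ^ ((E + 1) ^ 10) * (x : ℝ) ^ (11 / 20 : ℝ) := by
          have hn0 : (0 : ℝ) ≤ x := Nat.cast_nonneg _
          have e3 : Real.sqrt x * (Real.sqrt x) ^ (1 / 10 : ℝ) = (x : ℝ) ^ (11 / 20 : ℝ) := by
            rw [Real.sqrt_eq_rpow, ← Real.rpow_mul hn0, ← Real.rpow_add_of_nonneg hn0 (by norm_num) (by norm_num)]
            norm_num
          rw [← e3]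
          ring
      _ ≤ _ := hn1 x hx

/-- Proof. `i = some h`: `lin_level` with `a = 1`, `s = 1`, `b = h`, `P = primorial w`, `y1 = x/2`, `y2 = x`: for `n > x/2` the condition `(1:ℤ) n + h = q` prime is `(n + h).Prime`, so the sum
is `LS 1 h (x/2) x P v (· ≡ c [MOD m])`; `∏_{q ∣ m} 1/(q - 1) = 1/φ(m)` for squarefree `m` (`H57C.V3_gq`); the `m ∈ Mw` are prime to `P` and to `p1`, `p1 ∤ P` as `p1 > w`; `IsCoprime` of integers is
`Nat.Coprime`. `i = none`: `rr m = 1` for all `m`: the `n ∈ (x/2, x]` with `n ≡ v [MOD P]`, `n ≡ c [MOD m]` form one class modulo `P m` (`(P, m) = 1`), their number differs from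
`(x - x/2)/(P m)` by at most `1` (`H57C.v5_count`); `∑_{m ≤ DD x B} E^ω(m) ≤ x/(log x)^A` for large `x` (`H57C.v5_omega`, `v5_large`, `DD x B ≤ √x`). -/
theorem lev2 (i : Option ℕ) (w A E : ℕ) : ∃ A' B x0 : ℕ, ∀ x : ℕ, x0 ≤ x → ∀ p1 : ℕ, p1.Prime →
    w < p1 → SWp A' x p1 → ∀ v : ℕ, (∀ h, i = some h → (v + h).Coprime (primorial w)) →
      Lv2 i w v x p1 (DD x B) E (x / Real.log x ^ A) := by
  cases i with
  | none =>
    obtain ⟨x0, hx0⟩ := p1_none w A E
    exact ⟨0, 0, x0, fun x hx p1 _ _ _ v _ => hx0 x hx p1 v⟩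
  | some h =>
    obtain ⟨A', B, x0, hx0⟩ := p1_some h w A E
    exact ⟨A', B, x0, fun x hx p1 hp1 hwp hSW v hv => hx0 x hx p1 hp1 hwp hSW v (hv h rfl)⟩

end Pool.Agent.Lib.H59W
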