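import Pool.Agent.Lib.H59W.PDefs
import Pool.Agent.Lib.H57C.M1
import Pool.Agent.Lib.H57C.M2
import Pool.Agent.Lib.H57C.M3

/-!
# Chunk P2: the transfer theorem
-/

open Finset Polynomial

namespace Pool.Agent.Lib.H59W

open Pool.Agent.Lib.H15P Pool.Agent.Lib.H92G Pool.Agent.Lib.H57M Pool.Agent.Lib.H57C

theorem p2_memQ {w W p1 q : ℕ} : q ∈ Qw w W p1 ↔ (w < q ∧ q ≤ W) ∧ q.Prime ∧ q ≠ p1 := by
  unfold Qw
  rw [mem_filter, mem_Ioc]

/-- The classes of the bad event. -/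
theorem p2_cls (H : Finset ℕ) (i : Option ℕ) (w q : ℕ) (hH : ∀ h ∈ H, h ≤ w) (hq : q.Prime)
    (hwq : w < q) (R : Finset ℕ)
    (hR : ∀ c, c ∈ R ↔ c < q ∧ ∃ h ∈ H, i ≠ some h ∧ q ∣ c + h) :
    R.card = (H.filter (fun h => i ≠ some h)).card := by
  have h1 : R = (H.filter (fun h => i ≠ some h)).image (fun h => (q - h) % q) := by
    ext c
    rw [hR, mem_image]
    have e1 : ∀ h ∈ H, q ∣ h + (q - h) % q := by
      intro h hh
      have h2 := hH h hh
      rw [Nat.dvd_iff_mod_eq_zero, Nat.add_mod, Nat.mod_mod, ← Nat.add_mod]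
      have : h + (q - h) = q := by omega
      rw [this, Nat.mod_self]
    constructor
    · rintro ⟨hc, h, hh, hih, hd⟩
      refine ⟨h, mem_filter.2 ⟨hh, hih⟩, ?_⟩
      rw [add_comm] at hd
      exact (m3_diff (c := h) hc (Nat.mod_lt _ hq.pos) hd (e1 h hh)).symm
    · rintro ⟨h, hh, rfl⟩
      rw [mem_filter] at hh
      refine ⟨Nat.mod_lt _ hq.pos, h, hh.1, hh.2, ?_⟩
      rw [add_comm]
      exact e1 h hh.1
  rw [h1, card_image_of_injOn]
  intro h hh h' hh' he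
  rw [mem_coe, mem_filter] at hh hh'
  have h1 := hH h hh.1
  have h2 := hH h' hh'.1
  have h3 : (q - h) % q = (q - h') % q := he
  rcases Nat.eq_zero_or_pos h with h4 | h4 <;> rcases Nat.eq_zero_or_pos h' with h5 | h5
  · rw [h4, h5]
  · rw [h4, Nat.sub_zero, Nat.mod_self, Nat.mod_eq_of_lt (by omega : q - h' < q)] at h3
    omega
  · rw [h5, Nat.sub_zero, Nat.mod_self, Nat.mod_eq_of_lt (by omega : q - h < q)] at h3
    omega
  · rw [Nat.mod_eq_of_lt (by omega : q - h < q), Nat.mod_eq_of_lt (by omega : q - h' < q)] at h3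
    omega

/-- The sequence in the form of `H57C`. -/
noncomputable def p2_s (i : Option ℕ) (P v x : ℕ) : Seq ℕ where
  S := Sq2 i P v x
  wt := wt2 i
  x := fun n => n
  X := X2 i P x
  hd := hdr i
  Al := fun q c => ∀ h, i = some h → ¬ q ∣ c + h

theorem p2_al (i : Option ℕ) (P v x : ℕ) (q c c' : ℕ) (h : c ≡ c' [MOD q]) :
    (p2_s i P v x).Al q c ↔ (p2_s i P v x).Al q c' := by
  refine forall₂_congr fun a _ => not_congr ?_
  exact Nat.ModEq.dvd_iff (Nat.ModEq.add_right a h) dvd_rfl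

/-- The triple of `H57C`. -/
def p2_t {P H' : Finset ℕ} (d : ℕ) (U : Fam P H') : ℕ × Finset ℕ × Fam P H' :=
  (1, d.primeFactors, U)

theorem p2_ok {P H' : Finset ℕ} {w W p1 : ℕ} (hP : ∀ p ∈ P, p.Prime ∧ W < p) (d : ℕ)
    (hdQ : ∀ q ∈ d.primeFactors, q ∈ Qw w W p1) (U : Fam P H')
    (hU : ∀ h h', h ≠ h' → Disjoint (U h) (U h')) : m2_ok W p1 ∅ (p2_t d U) := by
  refine ⟨squarefree_one, ?_, ?_, hU, ?_⟩
  · intro q hq
    unfold p2_t at hq
    simp at hq
  · intro q hq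
    obtain ⟨⟨h1, h2⟩, h3, h4⟩ := p2_memQ.1 (hdQ q hq)
    unfold Ps
    rw [mem_filter, mem_Icc]
    exact ⟨⟨h3.one_lt.le, h2⟩, h3, h4⟩
  · intro h p _ hd
    exact (hP p.1 p.2).1.one_lt.ne' (Nat.dvd_one.1 hd)

theorem p2_mm {P H' : Finset ℕ} (d : ℕ) (hd : Squarefree d) (U : Fam P H') :
    m2_m (p2_t d U) = fp U * d := by
  unfold m2_m p2_t
  simp only [mul_one]
  rw [Nat.prod_primeFactors_of_squarefree hd]

theorem p2_vac {W : ℕ} : ∀ q ∈ (∅ : Finset ℕ), q.Prime ∧ W < q := fun q hq => by simp at hq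

theorem p2_pf {P H' : Finset ℕ} {w W p1 : ℕ} (hP : ∀ p ∈ P, p.Prime ∧ W < p) (d : ℕ)
    (hd : Squarefree d) (hdQ : ∀ q ∈ d.primeFactors, q ∈ Qw w W p1) (U : Fam P H')
    (hU : ∀ h h', h ≠ h' → Disjoint (U h) (U h')) :
    (fp U * d).primeFactors = m2_UU U ∪ d.primeFactors ∧ Squarefree (fp U * d) := by
  have ok := p2_ok hP d hdQ U hU
  have h1 := m2_pf hP p2_vac ok
  have h2 := m2_m_eq hP p2_vac ok
  have h3 := m2_sqf _ (m2_pr hP ok)
  rw [← h2] at h3
  rw [p2_mm d hd U] at h1 h3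
  refine ⟨?_, h3⟩
  rw [h1]
  unfold p2_t
  simp

theorem p2_mem {P H' : Finset ℕ} {w W p1 D : ℕ} (hP : ∀ p ∈ P, p.Prime ∧ W < p) (hwW : w ≤ W)
    (hp1 : p1 ≤ W) (d : ℕ) (hd : Squarefree d) (hdQ : ∀ q ∈ d.primeFactors, q ∈ Qw w W p1)
    (U : Fam P H') (hU : ∀ h h', h ≠ h' → Disjoint (U h) (U h')) (hD : fp U * d ≤ D) :
    fp U * d ∈ Mw w p1 D := by
  obtain ⟨h1, h2⟩ := p2_pf hP d hd hdQ U hU
  unfold Mw
  rw [mem_filter, mem_Icc]
  refine ⟨⟨Nat.pos_of_ne_zero h2.ne_zero, hD⟩, h2, fun q hq => ?_⟩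
  rw [h1, mem_union] at hq
  rcases hq with hq | hq
  · obtain ⟨g, hqP, _⟩ := (m2_mem_UU _ _).1 hq
    have := (hP q hqP).2
    exact ⟨by omega, by omega⟩
  · obtain ⟨⟨h3, _⟩, _, h4⟩ := p2_memQ.1 (hdQ q hq)
    exact ⟨h3, h4⟩

open Classical in
/-- The estimate for one family and one modulus. -/
theorem p2_one (H H' : Finset ℕ) (i : Option ℕ) (w W p1 x v : ℕ) (hs : Sh2 H H' w)
    (hi : ∀ h, i = some h → h ∈ H') (hwW : w ≤ W) (hp1 : p1 ≤ W) (P : Finset ℕ)
    (hP : ∀ p ∈ P, p.Prime ∧ W < p) (D : ℕ) (rr : ℕ → ℝ) (hrr0 : ∀ m, 0 ≤ rr m)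
    (hrr : ∀ m ∈ Mw w p1 D, ∀ c : ℕ, (∀ h, i = some h → (c + h).Coprime m) →
      |∑ n ∈ (Sq2 i (primorial w) v x).filter (fun n => n ≡ c [MOD m]), wt2 i n -
        X2 i (primorial w) x * ∏ q ∈ m.primeFactors, hdr i q| ≤ rr m)
    (d : ℕ) (hd : Squarefree d) (hdQ : ∀ q ∈ d.primeFactors, q ∈ Qw w W p1) (U : Fam P H')
    (hU : okA P H' i U) (hD : fp U * d ≤ D) :
    |∑ n ∈ (Sq2 i (primorial w) v x).filter (fun n => (∀ q ∈ d.primeFactors, evH H i q n) ∧
        ∀ h, U h ⊆ cfg P H' i n h), wt2 i n -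
      X2 i (primorial w) x * (fpr (hdr i) U * ∏ q ∈ d.primeFactors, rho H i q)| ≤
      (H.card : ℝ) ^ d.primeFactors.card * rr (fp U * d) := by
  obtain ⟨hpf, hm⟩ := p2_pf hP d hd hdQ U hU.2
  have hmem := p2_mem hP hwW hp1 d hd hdQ U hU.2 hD
  have ok := p2_ok hP d hdQ U hU.2
  have dis1 : Disjoint (m2_UU U) d.primeFactors := m2_VU hP ok
  have dis2 : Disjoint (m2_UU U ∪ d.primeFactors) (1 : ℕ).primeFactors := by simp
  obtain ⟨A, aV, _, aU⟩ := m1_A (p2_s i (primorial w) v x)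
    (fun q => (range q).filter (fun c => evH H i q c)) (fun _ => ∅) U d.primeFactors 1 dis1 dis2 hU.2
  have hB := hrr _ hmem
  have hrrm := hrr0 (fp U * d)
  generalize fp U * d = m at hm hpf hB hrrm hmem
  -- a prime `> w` divides at most one of the numbers
  have hdiff : ∀ q : ℕ, w < q → ∀ c h h' : ℕ, h ∈ H → h' ∈ H → q ∣ c + h → q ∣ c + h' → h = h' :=
    fun q hq c h h' hh hh' h1 h2 => m3_diff (c := c) (lt_of_le_of_lt (hs.le h hh) hq)
      (lt_of_le_of_lt (hs.le h' hh') hq) h1 h2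
  have hAV : ∀ q ∈ d.primeFactors, ∀ c, c ∈ A q ↔ c < q ∧ evH H i q c := by
    intro q hq c
    rw [aV q hq, mem_filter, mem_filter, mem_range]
    constructor
    · exact fun h => h.1
    · rintro ⟨h1, h2⟩
      refine ⟨⟨h1, h2⟩, fun h0 hh0 hd0 => ?_⟩
      obtain ⟨h, hh, hih, hdd⟩ := h2
      have hwq := (p2_memQ.1 (hdQ q hq)).1.1
      have h3 := hdiff q hwq c h h0 hh (hs.sub (hi h0 hh0)) hdd hd0
      exact hih (by rw [hh0, h3])
  have cases2 : ∀ q ∈ m.primeFactors, (q ∈ d.primeFactors) ∨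
      ∃ (h : {h // h ∈ H'}) (p : {p // p ∈ P}), p ∈ U h ∧ p.1 = q := fun q hq => by
    rw [hpf] at hq
    rcases Finset.mem_union.1 hq with hq | hq
    · obtain ⟨g, hqP, hq'⟩ := (m2_mem_UU _ _).1 hq
      exact Or.inr ⟨g, ⟨q, hqP⟩, hq', rfl⟩
    · exact Or.inl hq
  have memd : ∀ q ∈ d.primeFactors, q ∈ m.primeFactors := fun q hq => by
    rw [hpf]; exact Finset.mem_union_right _ hq
  have memU : ∀ (h : {h // h ∈ H'}) (p : {p // p ∈ P}), p ∈ U h → p.1 ∈ m.primeFactors :=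
    fun h p hp => by
      rw [hpf]
      exact Finset.mem_union_left _ ((m2_mem_UU _ _).2 ⟨h, p.2, hp⟩)
  have hiU : ∀ (g : {h // h ∈ H'}) (p : {p // p ∈ P}), p ∈ U g → i ≠ some g.1 := by
    intro g p hp hg
    rw [hU.1 g hg] at hp
    simp at hp
  have key := class_sum (p2_s i (primorial w) v x) (p2_al i (primorial w) v x) m hm (rr m)
    (fun c hc => hB c fun h hh => by
      have hm1 := (mem_filter.1 hmem).1
      rw [mem_Icc] at hm1
      refine Nat.coprime_of_dvd fun q hq hqc hqm => ?_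
      exact hc q (Nat.mem_primeFactors.2 ⟨hq, hqm, by omega⟩) h hh hqc) A
    (fun q hq => by
      rcases cases2 q hq with h | ⟨h, p, hp, rfl⟩
      · intro c hc
        exact mem_range.2 ((hAV q h c).1 hc).1
      · rw [aU h p hp]; exact Finset.filter_subset _ _)
    (fun q hq c hc => by
      rcases cases2 q hq with h | ⟨h, p, hp, rfl⟩
      · rw [aV q h] at hc; exact (Finset.mem_filter.1 hc).2
      · rw [aU h p hp] at hc
        intro h0 hh0 hd0
        have h1 := (Finset.mem_filter.1 hc).2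
        have h2 : w < p.1 := lt_of_le_of_lt hwW (hP p.1 p.2).2
        have h3 := hdiff p.1 h2 c h.1 h0 (hs.sub h.2) (hs.sub (hi h0 hh0)) h1 hd0
        exact hiU h p hp (by rw [hh0, h3]))
  -- the sum
  have e1 : (p2_s i (primorial w) v x).S.filter (fun j => ∀ q ∈ m.primeFactors,
      (p2_s i (primorial w) v x).x j % q ∈ A q) =
      (Sq2 i (primorial w) v x).filter (fun n => (∀ q ∈ d.primeFactors, evH H i q n) ∧
        ∀ h, U h ⊆ cfg P H' i n h) := by
    ext n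
    rw [mem_filter, mem_filter]
    refine and_congr_right fun hn => ?_
    have hx : (p2_s i (primorial w) v x).x n = n := rfl
    rw [hx]
    constructor
    · intro h
      refine ⟨fun q hq => ?_, fun g p hp => ?_⟩
      · obtain ⟨_, a, ha, hia, hda⟩ := (hAV q hq _).1 (h q (memd q hq))
        refine ⟨a, ha, hia, ?_⟩
        exact (Nat.ModEq.dvd_iff (Nat.ModEq.add_right a (Nat.mod_modEq n q)) dvd_rfl).1 hda
      · have h1 := h p.1 (memU g p hp)
        rw [aU g p hp, Finset.mem_filter] at h1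
        unfold H57C.cfg
        rw [if_neg (hiU g p hp)]
        unfold hit
        rw [Finset.mem_filter]
        refine ⟨Finset.mem_univ _, ?_⟩
        exact (Nat.ModEq.dvd_iff (Nat.ModEq.add_right g.1 (Nat.mod_modEq n p.1)) dvd_rfl).1 h1.2
    · rintro ⟨h1, h2⟩ q hq
      rcases cases2 q hq with h | ⟨g, p, hp, rfl⟩
      · rw [hAV q h]
        obtain ⟨a, ha, hia, hda⟩ := h1 q h
        refine ⟨Nat.mod_lt _ (Nat.prime_of_mem_primeFactors h).pos, a, ha, hia, ?_⟩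
        exact (Nat.ModEq.dvd_iff (Nat.ModEq.add_right a (Nat.mod_modEq n q)) dvd_rfl).2 hda
      · rw [aU g p hp, Finset.mem_filter, Finset.mem_range]
        refine ⟨Nat.mod_lt _ (hP p.1 p.2).1.pos, ?_⟩
        have h4 := h2 g hp
        unfold H57C.cfg at h4
        rw [if_neg (hiU g p hp)] at h4
        unfold hit at h4
        rw [Finset.mem_filter] at h4
        exact (Nat.ModEq.dvd_iff (Nat.ModEq.add_right g.1 (Nat.mod_modEq n p.1)) dvd_rfl).2 h4.2
  have hcardV : ∀ q ∈ d.primeFactors, (A q).card = (H.filter (fun h => i ≠ some h)).card := by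
    intro q hq
    obtain ⟨⟨h1, _⟩, h2, _⟩ := p2_memQ.1 (hdQ q hq)
    exact p2_cls H i w q hs.le h2 h1 (A q) (fun c => hAV q hq c)
  have e2 : ∏ q ∈ m.primeFactors, (((A q).card : ℝ) * hdr i q) = fpr (hdr i) U *
        ∏ q ∈ d.primeFactors, rho H i q := by
    rw [hpf, Finset.prod_union dis1, m2_prod_UU U hU.2]
    congr 1
    · unfold fpr
      refine Finset.prod_congr rfl fun h _ => Finset.prod_congr rfl fun p hp => ?_
      rw [aU h p hp, m1_one p.1 h.1 (hP p.1 p.2).1.pos, Nat.cast_one, one_mul]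
    · refine Finset.prod_congr rfl fun q hq => ?_
      rw [hcardV q hq]
      unfold rho
      congr 3
  have e3 : ∏ q ∈ m.primeFactors, ((A q).card : ℝ) ≤ (H.card : ℝ) ^ d.primeFactors.card := by
    rw [hpf, Finset.prod_union dis1, m2_prod_UU U hU.2]
    have h1 : ∏ h, ∏ p ∈ U h, ((A p.1).card : ℝ) = 1 := by
      refine Finset.prod_eq_one fun h _ => Finset.prod_eq_one fun p hp => ?_
      rw [aU h p hp, m1_one p.1 h.1 (hP p.1 p.2).1.pos, Nat.cast_one]
    rw [h1, one_mul, ← Finset.prod_const]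
    refine Finset.prod_le_prod (fun q _ => Nat.cast_nonneg _) fun q hq => ?_
    rw [hcardV q hq]
    exact_mod_cast Finset.card_filter_le _ _
  rw [e1] at key
  have e4 : (p2_s i (primorial w) v x).X * ∏ q ∈ m.primeFactors,
      (((A q).card : ℝ) * (p2_s i (primorial w) v x).hd q) =
      X2 i (primorial w) x * (fpr (hdr i) U * ∏ q ∈ d.primeFactors, rho H i q) := by
    rw [← e2]
    rfl
  rw [e4] at key
  exact key.trans (mul_le_mul_of_nonneg_right e3 hrrm)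

open Classical in
/-- The bad families. -/
theorem p2_zero (H H' : Finset ℕ) (i : Option ℕ) (w W x v : ℕ) (hs : Sh2 H H' w)
    (hwW : w ≤ W) (P : Finset ℕ) (hP : ∀ p ∈ P, p.Prime ∧ W < p)
    (d : ℕ) (U : Fam P H') (hU : ¬ okA P H' i U) :
    ∑ n ∈ (Sq2 i (primorial w) v x).filter (fun n => (∀ q ∈ d.primeFactors, evH H i q n) ∧
        ∀ h, U h ⊆ cfg P H' i n h), wt2 i n = 0 := by
  refine Finset.sum_eq_zero fun n hn => ?_
  exfalso
  rw [mem_filter] at hn
  obtain ⟨_, _, h2⟩ := hn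
  have hi : ∀ (g : {h // h ∈ H'}) (p : {p // p ∈ P}), p ∈ U g → i ≠ some g.1 ∧ p.1 ∣ n + g.1 := by
    intro g p hp
    have h3 := h2 g hp
    unfold H57C.cfg at h3
    by_cases h4 : i = some g.1
    · rw [if_pos h4] at h3
      simp at h3
    · rw [if_neg h4] at h3
      unfold hit at h3
      rw [Finset.mem_filter] at h3
      exact ⟨h4, h3.2⟩
  apply hU
  refine ⟨fun g hg => ?_, fun g g' hne => ?_⟩
  · rw [Finset.eq_empty_iff_forall_notMem]
    intro p hp
    exact (hi g p hp).1 hg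
  · rw [Finset.disjoint_left]
    intro p hp hp'
    have h3 := (hi g p hp).2
    have h4 := (hi g' p hp').2
    have hW := (hP p.1 p.2).2
    have h5 := hs.le g.1 (hs.sub g.2)
    have h6 := hs.le g'.1 (hs.sub g'.2)
    exact hne (Subtype.ext (m3_diff (c := n) (by omega) (by omega) h3 h4))

/-- The weight of a colour. -/
noncomputable def p2_w (H' : Finset ℕ) (k E : ℕ) : Option (Option {h // h ∈ H'}) → ℝ
  | none => k
  | some none => 0
  | some (some _) => E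

theorem p2_w_sum (H' : Finset ℕ) (k E : ℕ) :
    ∑ x, p2_w H' k E x = ((E * H'.card + k : ℕ) : ℝ) := by
  rw [Fintype.sum_option, Fintype.sum_option]
  simp only [p2_w]
  simp
  ring

theorem p2_wt {P H' : Finset ℕ} {w W p1 : ℕ} (hP : ∀ p ∈ P, p.Prime ∧ W < p) (d : ℕ)
    (hd : Squarefree d) (hdQ : ∀ q ∈ d.primeFactors, q ∈ Qw w W p1) (U : Fam P H')
    (hU : ∀ h h', h ≠ h' → Disjoint (U h) (U h')) (k E : ℕ) :
    ∏ q ∈ (fp U * d).primeFactors, p2_w H' k E (m2_c (p2_t d U) q) =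
      (E : ℝ) ^ (∑ h, (U h).card) * (k : ℝ) ^ d.primeFactors.card := by
  have ok := p2_ok hP d hdQ U hU
  obtain ⟨hpf, hm⟩ := p2_pf hP d hd hdQ U hU
  have dis1 : Disjoint (m2_UU U) d.primeFactors := m2_VU hP ok
  rw [hpf, Finset.prod_union dis1]
  have h1 : ∏ q ∈ d.primeFactors, p2_w H' k E (m2_c (p2_t d U) q) =
      (k : ℝ) ^ d.primeFactors.card := by
    rw [Finset.prod_congr rfl fun q (hq : q ∈ d.primeFactors) => by
      rw [show m2_c (p2_t d U) q = none from m2_cV (p2_t d U) hq], Finset.prod_const]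
    rfl
  have h3 : ∏ q ∈ m2_UU U, p2_w H' k E (m2_c (p2_t d U) q) = (E : ℝ) ^ (∑ h, (U h).card) := by
    rw [m2_prod_UU _ hU, ← Finset.prod_pow_eq_pow_sum]
    refine Finset.prod_congr rfl fun h' _ => ?_
    rw [Finset.prod_congr rfl fun p (hp : p ∈ U h') => by
      rw [show m2_c (p2_t d U) p.1 = some (some h') from
        m2_cU (t := p2_t d U) hP ok (hqP := p.2) hp], Finset.prod_const]
    rfl
  rw [h1, h3]

open Classical in
/-- The sum of the remainder terms. -/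
theorem p2_rem (H' : Finset ℕ) (w W p1 k E D D1 : ℕ) (hwW : w ≤ W) (hp1 : p1 ≤ W) (P : Finset ℕ)
    (hP : ∀ p ∈ P, p.Prime ∧ W < p) (DF : ℝ) (hD : DF * D1 ≤ D) (rr : ℕ → ℝ)
    (hrr0 : ∀ m, 0 ≤ rr m) :
    ∑ d ∈ (Icc 1 D1).filter (fun d => Squarefree d ∧ ∀ q ∈ d.primeFactors, q ∈ Qw w W p1),
      ∑ U : Fam P H', (if (∀ h h', h ≠ h' → Disjoint (U h) (U h')) ∧ (fp U : ℝ) ≤ DF then
        (E : ℝ) ^ (∑ h, (U h).card) * (k : ℝ) ^ d.primeFactors.card * rr (fp U * d) else 0) ≤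
      ∑ m ∈ Mw w p1 D, ((E * H'.card + k : ℕ) : ℝ) ^ m.primeFactors.card * rr m := by
  obtain ⟨Dd, hDd⟩ : ∃ Dd : Finset ℕ, Dd = (Icc 1 D1).filter
      (fun d => Squarefree d ∧ ∀ q ∈ d.primeFactors, q ∈ Qw w W p1) := ⟨_, rfl⟩
  rw [← hDd]
  set I : Finset (ℕ × Fam P H') := (Dd ×ˢ (Finset.univ : Finset (Fam P H'))).filter (fun t =>
        (∀ h h', h ≠ h' → Disjoint (t.2 h) (t.2 h')) ∧ (fp t.2 : ℝ) ≤ DF) with hI
  have hok : ∀ t ∈ I, (Squarefree t.1 ∧ ∀ q ∈ t.1.primeFactors, q ∈ Qw w W p1) ∧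
      (∀ h h', h ≠ h' → Disjoint (t.2 h) (t.2 h')) ∧ fp t.2 * t.1 ∈ Mw w p1 D := by
    intro t ht
    rw [hI, mem_filter, mem_product, hDd, mem_filter, mem_Icc] at ht
    obtain ⟨⟨⟨⟨hd1, hd2⟩, hd3, hd4⟩, _⟩, hU1, hU3⟩ := ht
    refine ⟨⟨hd3, hd4⟩, hU1, p2_mem hP hwW hp1 t.1 hd3 hd4 t.2 hU1 ?_⟩
    have h7 : ((fp t.2 * t.1 : ℕ) : ℝ) ≤ D := by
      refine le_trans ?_ hD
      push_cast
      have h8 : (t.1 : ℝ) ≤ D1 := by exact_mod_cast hd2
      exact mul_le_mul hU3 h8 (Nat.cast_nonneg _) ((Nat.cast_nonneg _).trans hU3)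
    exact_mod_cast h7
  have step1 : ∑ d ∈ Dd, ∑ U : Fam P H',
      (if (∀ h h', h ≠ h' → Disjoint (U h) (U h')) ∧ (fp U : ℝ) ≤ DF then
        (E : ℝ) ^ (∑ h, (U h).card) * (k : ℝ) ^ d.primeFactors.card * rr (fp U * d) else 0) =
      ∑ t ∈ I, (E : ℝ) ^ (∑ h, (t.2 h).card) * (k : ℝ) ^ t.1.primeFactors.card *
        rr (fp t.2 * t.1) := by
    rw [hI, Finset.sum_filter, Finset.sum_product]
  rw [step1, ← Finset.sum_fiberwise_of_maps_to (g := fun t : ℕ × Fam P H' => fp t.2 * t.1)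
    (fun t ht => (hok t ht).2.2)]
  refine Finset.sum_le_sum fun m hm => ?_
  have step2 : ∑ t ∈ I.filter (fun t => fp t.2 * t.1 = m), (E : ℝ) ^ (∑ h, (t.2 h).card) *
        (k : ℝ) ^ t.1.primeFactors.card * rr (fp t.2 * t.1) =
      (∑ t ∈ I.filter (fun t => fp t.2 * t.1 = m),
        ∏ q ∈ m.primeFactors, p2_w H' k E (m2_c (p2_t t.1 t.2) q)) * rr m := by
    rw [Finset.sum_mul]
    refine Finset.sum_congr rfl fun t ht => ?_
    rw [Finset.mem_filter] at ht
    obtain ⟨⟨h1, h2⟩, h3, _⟩ := hok t ht.1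
    rw [← p2_wt hP t.1 h1 h2 t.2 h3 k E, ht.2]
  rw [step2]
  refine mul_le_mul_of_nonneg_right ?_ (hrr0 m)
  have hw0 : ∀ x, 0 ≤ p2_w H' k E x := by
    intro x
    rcases x with _ | _ | _ <;> simp only [p2_w] <;> positivity
  have hcol := m2_col (X := Option (Option {h // h ∈ H'})) m.primeFactors
    (I.filter (fun t => fp t.2 * t.1 = m)) (fun t q => m2_c (p2_t t.1 t.2) q) (p2_w H' k E) hw0
    (fun t ht t' ht' hc => ?_)
  · rw [p2_w_sum H' k E] at hcol
    exact hcol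
  · rw [Finset.mem_filter] at ht ht'
    obtain ⟨⟨h1, h2⟩, h3, _⟩ := hok t ht.1
    obtain ⟨⟨h1', h2'⟩, h3', _⟩ := hok t' ht'.1
    have h4 := m2_inj hP p2_vac m (p2_ok hP t.1 h2 t.2 h3) (p2_ok hP t'.1 h2' t'.2 h3')
      (by rw [p2_mm t.1 h1, ht.2]) (by rw [p2_mm t'.1 h1', ht'.2]) hc
    unfold p2_t at h4
    have h5 := congrArg (fun z => z.2.1) h4
    have h6 := congrArg (fun z => z.2.2) h4
    have h7 : t.1.primeFactors = t'.1.primeFactors := h5
    have h8 : t.1 = t'.1 := by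
      rw [← Nat.prod_primeFactors_of_squarefree h1, h7, Nat.prod_primeFactors_of_squarefree h1']
    exact Prod.ext h8 h6

open Classical in
/-- Proof. (Compare `H57C/M1.lean`, `M2.lean`, `M5.lean`; here everything is exact.) `F(S) = ∑_U c(U) 1[U_h ⊆ S_h for all h]`, `|c(U)| ≤ CF E^(∑|U_h|)`, `c(U) ≠ 0` only if `fp U ≤ DF`; and
`AE P H' i F = ∑_{U : okA P H' i U} c(U) fpr (hdr i) U` (`H57C.ae_sum`, `Am`). Fix `d` and `U` with `c(U) ≠ 0`. If `U` is not `okA` there is no `n` with `U_h ⊆ cfg P H' i n h` for all `h` (`U_h = ∅` is needed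
if `i = some h`; `p ∣ n + h, n + h'` gives `p ∣ h - h'`, `|h - h'| ≤ w < p`). If `U` is `okA` then `e = fp U` is squarefree, composed of primes of `P` (`> W`), `m = e d ∈ Mw w p1 D` (`p1 ≤ W`,
`e d ≤ DF D1 ≤ D`), and the `n` with `U_h ⊆ cfg P H' i n h` for all `h` and `evH H i q n` for all `q ∣ d` are those in a set of classes modulo `m`: for `p ∈ U_h` the class of `-h`, for `q ∣ d` the classes of
the `-h`, `h ∈ H`, `i ≠ some h` (different as `q > w`), so `∏_{q ∣ d} #{h ∈ H : i ≠ some h} ≤ #H^ω(d)` classes (`H57C.crt_card`, `H57C.class_sum`), and all of them are allowed (`c + h0` prime to `m` if `i = some h0`, as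
`0 < |h - h0| ≤ w`). By `hl` the sum of `wt2 i n` over these `n` is `X2 fpr (hdr i) U ∏_{q ∣ d} rho H i q` up to `#H^ω(d) rr(m)`. Sum over `U` and `d`: for given `m` the pair `(U, d)` is determined by the
function `m.primeFactors → {d} ∪ H'` (`q ∣ d` or `q ∈ U_h`), so the total error is at most
`∑_m CF rr(m) ∑ E^ω(e) #H^ω(d) ≤ CF ∑_m (E #H' + #H)^ω(m) rr(m)`. -/
theorem transfer (H H' : Finset ℕ) (i : Option ℕ) (w W p1 x v : ℕ) (hs : Sh2 H H' w)
    (hi : ∀ h, i = some h → h ∈ H') (hwW : w ≤ W) (hp1 : p1 ≤ W) (P : Finset ℕ)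
    (hP : ∀ p ∈ P, p.Prime ∧ W < p) (F : Fam P H' → ℝ) (CF DF : ℝ) (hCF : 0 ≤ CF) (E : ℕ)
    (hF : ExJ P F CF E DF) (D D1 : ℕ) (hD : DF * D1 ≤ D) (Err : ℝ)
    (hl : Lv2 i w v x p1 D (E * H'.card + H.card) Err) :
    ∑ d ∈ (Icc 1 D1).filter (fun d => Squarefree d ∧ ∀ q ∈ d.primeFactors, q ∈ Qw w W p1),
      |∑ n ∈ (Sq2 i (primorial w) v x).filter (fun n => ∀ q ∈ d.primeFactors, evH H i q n),
          wt2 i n * F (cfg P H' i n) -
        X2 i (primorial w) x * AE P H' i F * ∏ q ∈ d.primeFactors, rho H i q| ≤ CF * Err := by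
  obtain ⟨rr, hrr0, hrr, hErr⟩ := hl
  obtain ⟨c, hc1, hc2, hc3⟩ := hF
  have hAE : AE P H' i F = ∑ U : Fam P H', if okA P H' i U then c U * fpr (hdr i) U else 0 := by
    rw [ae_sum P H' i W hP (fun h hh => (hs.le h (hs.sub hh)).trans hwW) hi F c hc1]
    unfold Am
    refine sum_congr rfl fun U _ => ?_
    have hB : okB P H' (fun _ _ => True) 1 U := by
      refine ⟨?_, ?_⟩
      · intro h p _ hd
        exact (hP p.1 p.2).1.one_lt.ne' (Nat.dvd_one.1 hd)
      · intro h p _ c _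
        trivial
    by_cases hok : okA P H' i U
    · rw [if_pos ⟨hok, hB⟩, if_pos hok]
    · rw [if_neg (fun h => hok h.1), if_neg hok]
  have hkey : ∀ d ∈ (Icc 1 D1).filter
      (fun d => Squarefree d ∧ ∀ q ∈ d.primeFactors, q ∈ Qw w W p1),
      |∑ n ∈ (Sq2 i (primorial w) v x).filter (fun n => ∀ q ∈ d.primeFactors, evH H i q n),
          wt2 i n * F (cfg P H' i n) -
        X2 i (primorial w) x * AE P H' i F * ∏ q ∈ d.primeFactors, rho H i q| ≤
      CF * ∑ U : Fam P H', (if (∀ h h', h ≠ h' → Disjoint (U h) (U h')) ∧ (fp U : ℝ) ≤ DF then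
        (E : ℝ) ^ (∑ h, (U h).card) * ((H.card : ℕ) : ℝ) ^ d.primeFactors.card *
          rr (fp U * d) else 0) := by
    intro d hdm
    rw [mem_filter, mem_Icc] at hdm
    obtain ⟨⟨hd1, hd2⟩, hdsq, hdQ⟩ := hdm
    have e1 : ∑ n ∈ (Sq2 i (primorial w) v x).filter (fun n => ∀ q ∈ d.primeFactors, evH H i q n),
          wt2 i n * F (cfg P H' i n) =
        ∑ U : Fam P H', c U * ∑ n ∈ (Sq2 i (primorial w) v x).filter
          (fun n => (∀ q ∈ d.primeFactors, evH H i q n) ∧ ∀ h, U h ⊆ cfg P H' i n h), wt2 i n := by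
      have e2 : ∀ U : Fam P H', c U * ∑ n ∈ (Sq2 i (primorial w) v x).filter
          (fun n => (∀ q ∈ d.primeFactors, evH H i q n) ∧ ∀ h, U h ⊆ cfg P H' i n h), wt2 i n =
          ∑ n ∈ (Sq2 i (primorial w) v x).filter (fun n => ∀ q ∈ d.primeFactors, evH H i q n),
            wt2 i n * (if ∀ h, U h ⊆ cfg P H' i n h then c U else 0) := by
        intro U
        rw [← filter_filter, sum_filter, mul_sum]
        refine sum_congr rfl fun n _ => ?_
        split_ifs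
        · ring
        · ring
      rw [sum_congr rfl fun U _ => e2 U, sum_comm]
      refine sum_congr rfl fun n _ => ?_
      rw [hc1, mul_sum]
    have e3 : X2 i (primorial w) x * AE P H' i F * ∏ q ∈ d.primeFactors, rho H i q =
        ∑ U : Fam P H', if okA P H' i U then c U * (X2 i (primorial w) x *
          (fpr (hdr i) U * ∏ q ∈ d.primeFactors, rho H i q)) else 0 := by
      rw [hAE, mul_sum, sum_mul]
      refine sum_congr rfl fun U _ => ?_
      split_ifs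
      · ring
      · ring
    rw [e1, e3, ← sum_sub_distrib, mul_sum]
    refine (abs_sum_le_sum_abs _ _).trans (sum_le_sum fun U _ => ?_)
    have hnn : 0 ≤ CF * (if (∀ h h', h ≠ h' → Disjoint (U h) (U h')) ∧ (fp U : ℝ) ≤ DF then
        (E : ℝ) ^ (∑ h, (U h).card) * ((H.card : ℕ) : ℝ) ^ d.primeFactors.card *
          rr (fp U * d) else 0) := by
      refine mul_nonneg hCF ?_
      split_ifs
      · exact mul_nonneg (by positivity) (hrr0 _)
      · exact le_rfl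
    by_cases hok : okA P H' i U
    swap
    · rw [if_neg hok, p2_zero H H' i w W x v hs hwW P hP d U hok, mul_zero, sub_zero, abs_zero]
      exact hnn
    rw [if_pos hok, ← mul_sub, abs_mul]
    by_cases hcU : c U = 0
    · rw [hcU, abs_zero, zero_mul]
      exact hnn
    have hfp : (fp U : ℝ) ≤ DF := by
      have := hc3 U hcU
      unfold fp
      push_cast
      exact this
    have hmD : fp U * d ≤ D := by
      have h7 : ((fp U * d : ℕ) : ℝ) ≤ D := by
        refine le_trans ?_ hD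
        push_cast
        have h8 : (d : ℝ) ≤ D1 := by exact_mod_cast hd2
        exact mul_le_mul hfp h8 (Nat.cast_nonneg _) ((Nat.cast_nonneg _).trans hfp)
      exact_mod_cast h7
    rw [if_pos ⟨hok.2, hfp⟩]
    have h1 := p2_one H H' i w W p1 x v hs hi hwW hp1 P hP D rr hrr0 hrr d hdsq hdQ U hok hmD
    calc |c U| * |∑ n ∈ (Sq2 i (primorial w) v x).filter
          (fun n => (∀ q ∈ d.primeFactors, evH H i q n) ∧ ∀ h, U h ⊆ cfg P H' i n h), wt2 i n -
          X2 i (primorial w) x * (fpr (hdr i) U * ∏ q ∈ d.primeFactors, rho H i q)| ≤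
        (CF * (E : ℝ) ^ (∑ h, (U h).card)) * ((H.card : ℝ) ^ d.primeFactors.card *
          rr (fp U * d)) := mul_le_mul (hc2 U) h1 (abs_nonneg _) (by positivity)
      _ = _ := by ring
  refine (sum_le_sum hkey).trans ?_
  rw [← mul_sum]
  refine mul_le_mul_of_nonneg_left ?_ hCF
  exact (p2_rem H' w W p1 H.card E D D1 hwW hp1 P hP DF hD rr hrr0).trans hErr

end Pool.Agent.Lib.H59W
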