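import Pool.Agent.Lib.H59W.P1
import Pool.Agent.Lib.H59W.P2
import Pool.Agent.Lib.H57C.BH2
import Pool.Agent.Lib.H57M.B9

/-!
# Chunk P3: the sieve
-/

open Finset Polynomial

namespace Pool.Agent.Lib.H59W

open Pool.Agent.Lib.H15P Pool.Agent.Lib.H92G Pool.Agent.Lib.H57M Pool.Agent.Lib.H57C
open Pool.Agent.Lib.H59C (DD SWp)

theorem p3_FC {K : ℕ} (w : Par K) (H : Finset ℕ) (S : {h // h ∈ H} → Finset {p // p ∈ w.P}) :
    0 ≤ FC w H S := by
  have hz := w.z_bounds.1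
  have hzK : 0 < w.z ^ K := pow_pos (by linarith) K
  exact div_nonneg (sq_nonneg _) hzK.le

theorem p3_AE {K : ℕ} (w : Par K) (H : Finset ℕ) (i : Option ℕ) :
    0 ≤ AE w.P H i (FC w H) := by
  cases i with
  | none =>
    unfold AE EP
    exact div_nonneg (Finset.sum_nonneg fun t _ => p3_FC w H _) (Nat.cast_nonneg _)
  | some h =>
    unfold AE EU
    exact div_nonneg (Finset.sum_nonneg fun t _ => p3_FC w H _) (Nat.cast_nonneg _)

theorem p3_X2 (i : Option ℕ) (P x : ℕ) : 0 ≤ X2 i P x := by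
  cases i with
  | none =>
    have h1 : X2 none P x = ((x : ℝ) - (x / 2 : ℕ)) / (P : ℝ) := rfl
    rw [h1]
    have h2 : ((x / 2 : ℕ) : ℝ) ≤ x := by exact_mod_cast Nat.div_le_self x 2
    exact div_nonneg (by linarith) (Nat.cast_nonneg _)
  | some h =>
    have h1 : X2 (some h) P x =
        (thl 1 h x - thl 1 h (x / 2)) / (Nat.totient P : ℝ) := rfl
    rw [h1]
    refine div_nonneg ?_ (Nat.cast_nonneg _)
    rw [sub_nonneg]
    unfold thl H59C.th
    refine sum_le_sum_of_subset_of_nonneg ?_ fun q _ _ => Real.log_natCast_nonneg q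
    refine filter_subset_filter _ (Icc_subset_Icc_right ?_)
    refine Int.toNat_le_toNat ?_
    have := Nat.div_le_self x 2
    omega

/-- large `x`: the level of distribution -/
theorem p3_level (B : ℕ) : ∃ x0 : ℕ, ∀ x : ℕ, x0 ≤ x →
    (x : ℝ) ^ (1 / 5 : ℝ) ≤ ((DD x B : ℕ) : ℝ) := by
  have h2 := (isLittleO_log_rpow_rpow_atTop (B : ℝ) (by norm_num : (0 : ℝ) < 1 / 5)).bound
    (zero_lt_one)
  have e1 : ∀ᶠ x : ℕ in Filter.atTop, (2 : ℝ) ≤ (x : ℝ) ^ (1 / 10 : ℝ) :=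
    ((tendsto_rpow_atTop (by norm_num)).comp
      (tendsto_natCast_atTop_atTop (R := ℝ))).eventually_ge_atTop _
  obtain ⟨x0, hx0⟩ := Filter.eventually_atTop.1
    ((tendsto_natCast_atTop_atTop (R := ℝ) |>.eventually h2).and e1)
  refine ⟨max x0 3, fun x hx => ?_⟩
  obtain ⟨h3, h4⟩ := hx0 x ((le_max_left _ _).trans hx)
  have hx3 : (1 : ℝ) < x := by
    have : 3 ≤ x := (le_max_right _ _).trans hx
    exact_mod_cast (by omega : 1 < x)
  have hx0' : (0 : ℝ) < x := by linarith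
  have hlx : 0 < Real.log x := Real.log_pos hx3
  rw [Real.norm_of_nonneg (Real.rpow_nonneg hlx.le _),
    Real.norm_of_nonneg (Real.rpow_nonneg hx0'.le _), one_mul, Real.rpow_natCast] at h3
  have h5 : (x : ℝ) ^ (3 / 10 : ℝ) ≤ Real.sqrt x / Real.log x ^ B := by
    rw [le_div_iff₀ (by positivity), Real.sqrt_eq_rpow]
    calc (x : ℝ) ^ (3 / 10 : ℝ) * Real.log x ^ B ≤
        (x : ℝ) ^ (3 / 10 : ℝ) * (x : ℝ) ^ (1 / 5 : ℝ) :=
          mul_le_mul_of_nonneg_left h3 (Real.rpow_nonneg hx0'.le _)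
      _ = (x : ℝ) ^ (1 / 2 : ℝ) := by
          rw [← Real.rpow_add hx0']
          norm_num
  have h6 : Real.sqrt x / Real.log x ^ B < (DD x B : ℕ) + 1 := Nat.lt_floor_add_one _
  have h7 : (x : ℝ) ^ (3 / 10 : ℝ) = (x : ℝ) ^ (1 / 5 : ℝ) * (x : ℝ) ^ (1 / 10 : ℝ) := by
    rw [← Real.rpow_add hx0']
    norm_num
  have h8 : 1 ≤ (x : ℝ) ^ (1 / 5 : ℝ) := Real.one_le_rpow hx3.le (by norm_num)
  have h9 : (x : ℝ) ^ (1 / 5 : ℝ) * 2 ≤ (x : ℝ) ^ (1 / 5 : ℝ) * (x : ℝ) ^ (1 / 10 : ℝ) :=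
    mul_le_mul_of_nonneg_left h4 (by linarith)
  linarith

theorem p3_CF {m : ℕ} {wp : Par (4000 ^ m)} {H' : Finset ℕ} {CF D : ℝ}
    (h : ExJ wp.P (FC wp H') CF 3 D) : 0 ≤ CF := by
  obtain ⟨c, _, h2, _⟩ := h
  have h3 := h2 (fun _ => ∅)
  simp only [card_empty, sum_const_zero, pow_zero, mul_one] at h3
  exact (abs_nonneg _).trans h3

theorem p3_memQ {w W p1 q : ℕ} : q ∈ Qw w W p1 ↔ (w < q ∧ q ≤ W) ∧ q.Prime ∧ q ≠ p1 := by
  unfold Qw
  rw [mem_filter, mem_Ioc]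

theorem p3_rho {H : Finset ℕ} {i : Option ℕ} (hi : ∀ h, i = some h → h ∈ H) {q : ℕ}
    (hq : 2 ≤ q) (hk : H.card ≤ q) : 0 ≤ rho H i q ∧ rho H i q ≤ H.card / (q : ℝ) := by
  have hq2 : (2 : ℝ) ≤ q := by exact_mod_cast hq
  have hkq : (H.card : ℝ) ≤ q := by exact_mod_cast hk
  cases i with
  | none =>
    have h1 : rho H none q = H.card / (q : ℝ) := by
      unfold rho hdr
      rw [if_pos rfl, filter_true_of_mem (fun h _ => by simp), mul_one_div]
    rw [h1]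
    exact ⟨by positivity, le_rfl⟩
  | some h =>
    have hh := hi h rfl
    have hc : 1 ≤ H.card := card_pos.2 ⟨h, hh⟩
    have hc' : (1 : ℝ) ≤ H.card := by exact_mod_cast hc
    have h1 : rho H (some h) q = ((H.card : ℝ) - 1) / ((q : ℝ) - 1) := by
      unfold rho hdr
      rw [if_neg (by simp), mul_one_div]
      have h1 : H.filter (fun h' => some h ≠ some h') = H.erase h := by
        ext h'
        rw [mem_filter, mem_erase]
        constructor
        · rintro ⟨h2, h3⟩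
          exact ⟨fun h4 => h3 (by rw [h4]), h2⟩
        · rintro ⟨h2, h3⟩
          refine ⟨h3, fun h4 => h2 ?_⟩
          exact (Option.some.inj h4).symm
      rw [h1, card_erase_of_mem hh, Nat.cast_sub hc, Nat.cast_one]
    rw [h1]
    constructor
    · exact div_nonneg (by linarith) (by linarith)
    · rw [div_le_div_iff₀ (by linarith) (by linarith)]
      nlinarith

open Classical in
/-- Proof. `H57C.bh k z Q hQ g S wt ev X Rm` with `k = #H` (`≥ 1`, as `4000^m ≤ #H`), `z = wp.W = ⌊x^δ⌋`, `Q = Qw w z p1` (primes `> w ≥ 2k + 2`), `g q = rho H i q` for `q ∈ Q` and `0` otherwise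
(`rho ≤ k/q`: `k/q` or `(k - 1)/(q - 1)`), `S = Sq2 i P v x`, weights `wt2 i n * FC wp H' (cfg wp.P H' i n) ≥ 0`, `ev q n = evH H i q n`, `X = X2 AE ≥ 0` (`AE` is a mean value of nonnegative numbers), and
`Rm ≤ CF x/(log x)^(A+1) ≤ x/(log x)^A` by `transfer` with `D1 = z^(96 k + 10) ≤ x^(1/10)` (`hδ`), `DF = x^(1/10)`, `D = DD x B ≥ x^(1/5)` for large `x`, and `lev2 i w (A + 1) (3 #H' + #H)`. -/
theorem sieve2 {H H' : Finset ℕ} {w m : ℕ} (hs : Sh2 H H' w) (hc : H'.card = 4000 ^ m)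
    (i : Option ℕ) (hi : ∀ h, i = some h → h ∈ H') (δ G CF : ℝ) (h0 : 0 < δ)
    (hδ : δ * (96 * H.card + 10) ≤ 1 / 10) (A : ℕ) : ∃ A' x0 : ℕ, ∀ x : ℕ, x0 ≤ x → ∀ p1 : ℕ,
    p1.Prime → w < p1 → (p1 : ℝ) ≤ (x : ℝ) ^ δ → SWp A' x p1 → ∀ v : ℕ,
    (∀ h ∈ H, (v + h).Coprime (primorial w)) → ∀ wp : Par (4000 ^ m), Wt wp H' δ G CF x →
    1 / 2 * (X2 i (primorial w) x * AE wp.P H' i (FC wp H') *
        ∏ q ∈ Qw w wp.W p1, (1 - rho H i q)) - x / Real.log x ^ A ≤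
      ∑ n ∈ (Sq2 i (primorial w) v x).filter (fun n => ∀ q ∈ Qw w wp.W p1, ¬ evH H i q n),
        wt2 i n * FC wp H' (cfg wp.P H' i n) ∧
    ∑ n ∈ (Sq2 i (primorial w) v x).filter (fun n => ∀ q ∈ Qw w wp.W p1, ¬ evH H i q n),
        wt2 i n * FC wp H' (cfg wp.P H' i n) ≤
      2 * (X2 i (primorial w) x * AE wp.P H' i (FC wp H') *
        ∏ q ∈ Qw w wp.W p1, (1 - rho H i q)) + x / Real.log x ^ A := by
  have hiH : ∀ h, i = some h → h ∈ H := fun h hh => hs.sub (hi h hh)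
  have hk : 1 ≤ H.card := by
    have h1 := card_le_card hs.sub
    rw [hc] at h1
    exact le_trans (Nat.one_le_pow _ _ (by norm_num)) h1
  have hkw := hs.card
  obtain ⟨A', B, x1, hlev⟩ := lev2 i w (A + 1) (3 * H'.card + H.card)
  obtain ⟨x2, hx2⟩ := p3_level B
  have e1 : ∀ᶠ x : ℕ in Filter.atTop, ((w + 2 : ℕ) : ℝ) ≤ (x : ℝ) ^ δ :=
    ((tendsto_rpow_atTop h0).comp (tendsto_natCast_atTop_atTop (R := ℝ))).eventually_ge_atTop _
  have e2 : ∀ᶠ x : ℕ in Filter.atTop, max CF 1 ≤ Real.log x :=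
    (Real.tendsto_log_atTop.comp (tendsto_natCast_atTop_atTop (R := ℝ))).eventually_ge_atTop _
  obtain ⟨x3, hx3⟩ := Filter.eventually_atTop.1 (e1.and e2)
  refine ⟨A', max (max x1 x2) (max x3 2), fun x hx p1 hp1 hwp hpx hSW v hv wp hw => ?_⟩
  have f1 : x1 ≤ x := ((le_max_left _ _).trans (le_max_left _ _)).trans hx
  have f2 : x2 ≤ x := ((le_max_right _ _).trans (le_max_left _ _)).trans hx
  have f3 : x3 ≤ x := ((le_max_left _ _).trans (le_max_right _ _)).trans hx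
  have f4 : 2 ≤ x := ((le_max_right _ _).trans (le_max_right _ _)).trans hx
  obtain ⟨g1, g2⟩ := hx3 x f3
  have hx1r : (1 : ℝ) ≤ x := by exact_mod_cast (by omega : 1 ≤ x)
  have hx0r : (0 : ℝ) < x := by linarith
  have hl1 : 1 ≤ Real.log x := (le_max_right _ _).trans g2
  have hlC : CF ≤ Real.log x := (le_max_left _ _).trans g2
  have hl0 : 0 < Real.log x := by linarith
  have hCF : 0 ≤ CF := p3_CF hw.ex
  have hxd0 : 0 < (x : ℝ) ^ δ := Real.rpow_pos_of_pos hx0r _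
  have hWw : w + 2 ≤ wp.W := by
    rw [hw.W]
    exact Nat.le_floor g1
  have hpW : p1 ≤ wp.W := by
    rw [hw.W]
    exact Nat.le_floor hpx
  have hWx : (wp.W : ℝ) ≤ (x : ℝ) ^ δ := by
    rw [hw.W]
    exact Nat.floor_le hxd0.le
  have hl := hlev x f1 p1 hp1 hwp hSW v (fun h hh => hv h (hiH h hh))
  have hD : (x : ℝ) ^ (1 / 10 : ℝ) * ((wp.W ^ (96 * H.card + 10) : ℕ) : ℝ) ≤
      ((DD x B : ℕ) : ℝ) := by
    have h1 : ((wp.W ^ (96 * H.card + 10) : ℕ) : ℝ) ≤ (x : ℝ) ^ (1 / 10 : ℝ) := by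
      push_cast
      calc (wp.W : ℝ) ^ (96 * H.card + 10) ≤ ((x : ℝ) ^ δ) ^ (96 * H.card + 10) :=
            pow_le_pow_left₀ (Nat.cast_nonneg _) hWx _
        _ = (x : ℝ) ^ (δ * (96 * H.card + 10)) := by
            rw [← Real.rpow_natCast, ← Real.rpow_mul hx0r.le]
            push_cast
            rfl
        _ ≤ (x : ℝ) ^ (1 / 10 : ℝ) := Real.rpow_le_rpow_of_exponent_le hx1r hδ
    calc (x : ℝ) ^ (1 / 10 : ℝ) * ((wp.W ^ (96 * H.card + 10) : ℕ) : ℝ) ≤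
        (x : ℝ) ^ (1 / 10 : ℝ) * (x : ℝ) ^ (1 / 10 : ℝ) :=
          mul_le_mul_of_nonneg_left h1 (Real.rpow_nonneg hx0r.le _)
      _ = (x : ℝ) ^ (1 / 5 : ℝ) := by
          rw [← Real.rpow_add hx0r]
          norm_num
      _ ≤ _ := hx2 x f2
  have htr := transfer H H' i w wp.W p1 x v hs hi (by omega) hpW wp.P
    (fun p hp => ⟨wp.prime p hp, wp.big p hp⟩) (FC wp H') CF ((x : ℝ) ^ (1 / 10 : ℝ)) hCF 3 hw.ex
    (DD x B) (wp.W ^ (96 * H.card + 10)) hD (x / Real.log x ^ (A + 1)) hl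
  have hErr : CF * (x / Real.log x ^ (A + 1)) ≤ x / Real.log x ^ A := by
    rw [pow_succ]
    calc CF * (x / (Real.log x ^ A * Real.log x)) ≤
        Real.log x * (x / (Real.log x ^ A * Real.log x)) :=
          mul_le_mul_of_nonneg_right hlC (by positivity)
      _ = x / Real.log x ^ A := by field_simp
  set gq : ℕ → ℝ := fun q => if q ∈ Qw w wp.W p1 then rho H i q else 0 with hgq
  have hQf : ∀ q ∈ Qw w wp.W p1, 2 ≤ q ∧ H.card ≤ q := by
    intro q hq
    obtain ⟨⟨h1, _⟩, h2, _⟩ := p3_memQ.1 hq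
    exact ⟨h2.two_le, by omega⟩
  have hprod : ∏ q ∈ Qw w wp.W p1, (1 - gq q) = ∏ q ∈ Qw w wp.W p1, (1 - rho H i q) := by
    refine prod_congr rfl fun q hq => ?_
    rw [hgq]
    simp only [if_pos hq]
  have hX : 0 ≤ X2 i (primorial w) x * AE wp.P H' i (FC wp H') :=
    mul_nonneg (p3_X2 _ _ _) (p3_AE _ _ _)
  have hbh := H57C.bh H.card wp.W (by omega) hk (Qw w wp.W p1) (fun q hq => by
      obtain ⟨⟨h1, h3⟩, h2, _⟩ := p3_memQ.1 hq
      exact ⟨h2, by omega, h3⟩) gq (fun q => by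
      rw [hgq]
      change 0 ≤ if q ∈ Qw w wp.W p1 then rho H i q else 0
      split_ifs with hq
      · exact (p3_rho hiH (hQf q hq).1 (hQf q hq).2).1
      · exact le_rfl) (fun q hq => by
      rw [hgq]
      simp only [if_pos hq]
      exact (p3_rho hiH (hQf q hq).1 (hQf q hq).2).2)
    (Sq2 i (primorial w) v x) (fun n => wt2 i n * FC wp H' (cfg wp.P H' i n)) (fun n hn => by
      refine mul_nonneg ?_ (p3_FC _ _ _)
      unfold Sq2 at hn
      rw [mem_filter] at hn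
      cases i with
      | none => exact zero_le_one
      | some h =>
        change 0 ≤ Real.log ((n : ℝ) + h)
        have h1 : (n : ℝ) + h = ((n + h : ℕ) : ℝ) := by push_cast; ring
        rw [h1]
        exact Real.log_natCast_nonneg _) (fun q n => evH H i q n)
    (X2 i (primorial w) x * AE wp.P H' i (FC wp H')) hX (x / Real.log x ^ A) (by
      refine le_trans (le_of_eq ?_) (htr.trans hErr)
      refine sum_congr ?_ fun d hd => ?_
      · ext d
        simp only [mem_filter]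
      · rw [mem_filter] at hd
        have h1 : ∏ q ∈ d.primeFactors, gq q = ∏ q ∈ d.primeFactors, rho H i q := by
          refine prod_congr rfl fun q hq => ?_
          rw [hgq]
          simp only [if_pos (hd.2.2 q hq)]
        rw [h1])
  rw [hprod] at hbh
  constructor
  · refine le_trans (le_of_eq ?_) hbh.1
    ring
  · refine hbh.2.trans (le_of_eq ?_)
    ring

end Pool.Agent.Lib.H59W
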