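import Pool.Agent.Lib.H59W.PDefs
import Pool.Agent.Lib.H59C.C0

/-!
# Chunk P4: the system, the total weights
-/

open Finset Polynomial

namespace Pool.Agent.Lib.H59W

open Pool.Agent.Lib.H33B (Sys NoFix wF FS_D)
open Pool.Agent.Lib.H15P Pool.Agent.Lib.H92G Pool.Agent.Lib.H57M Pool.Agent.Lib.H57C

/-- `FH H` is a system. -/
theorem FH_sys (H : Finset ℕ) (hH : 1 ≤ H.card) : Sys (FH H) := by
  refine ⟨hH, fun i => ?_, fun i => ?_, fun i => ?_, fun i j hij => ?_⟩
  · have h := Polynomial.irreducible_X_sub_C (-((H.orderEmbOfFin rfl i : ℕ) : ℤ))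
    unfold FH
    rwa [C_neg, sub_neg_eq_add] at h
  · unfold FH
    rw [natDegree_X_add_C]
  · unfold FH
    rw [(monic_X_add_C _).leadingCoeff]
    exact one_pos
  · unfold FH at hij
    have h1 := add_left_cancel hij
    have h2 := C_injective h1
    have h3 : H.orderEmbOfFin rfl i = H.orderEmbOfFin rfl j := by exact_mod_cast h2
    exact (H.orderEmbOfFin rfl).injective h3

theorem p4_eval (H : Finset ℕ) (i : Fin H.card) (n : ℤ) :
    (FH H i).eval n = n + ((H.orderEmbOfFin rfl i : ℕ) : ℤ) := by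
  unfold FH
  simp

theorem p4_surj (H : Finset ℕ) (h : ℕ) (hh : h ∈ H) : ∃ i, H.orderEmbOfFin rfl i = h := by
  have h1 : h ∈ Set.range (H.orderEmbOfFin rfl) := by
    rw [Finset.range_orderEmbOfFin]
    exact hh
  exact h1

/-- The values. -/
theorem FH_AP (H : Finset ℕ) (δ : ℝ) (x n : ℕ) :
    AP (FH H) δ x n ↔ ∀ h ∈ H, ∀ p : ℕ, p.Prime → p ∣ n + h → (x : ℝ) ^ δ < p := by
  unfold AP
  constructor
  · intro hA h hh p hp hd
    obtain ⟨i, hi⟩ := p4_surj H h hh
    refine hA i p hp ?_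
    rw [p4_eval, hi]
    exact_mod_cast hd
  · intro hA i p hp hd
    rw [p4_eval] at hd
    exact hA _ (H.orderEmbOfFin_mem rfl i) p hp (by exact_mod_cast hd)

/-- Proof. `H59C.th_pnt` (`thl 1 h y = th (y + h)`). -/
theorem X2_bounds (w : ℕ) (i : Option ℕ) : ∃ x0 : ℕ, ∀ x : ℕ, x0 ≤ x →
    (∀ h, i = some h → 9 / 20 * ((x : ℝ) / (primorial w).totient) ≤ X2 i (primorial w) x) ∧
    (i = none → 0 ≤ X2 i (primorial w) x ∧ X2 i (primorial w) x ≤ 11 / 20 * ((x : ℝ) / primorial w)) := by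
  have hP1 : 1 ≤ primorial w := primorial_pos w
  have hP0 : (0 : ℝ) < primorial w := by exact_mod_cast hP1
  have hφ : (0 : ℝ) < (primorial w).totient := by exact_mod_cast Nat.totient_pos.2 hP1
  cases i with
  | none =>
    refine ⟨10, fun x hx => ⟨fun h hh => by simp at hh, fun _ => ?_⟩⟩
    have h1 : X2 none (primorial w) x = ((x : ℝ) - (x / 2 : ℕ)) / (primorial w : ℝ) := rfl
    rw [h1]
    have h2 : ((x / 2 : ℕ) : ℝ) ≤ x := by exact_mod_cast Nat.div_le_self x 2
    have h3 : x ≤ 2 * (x / 2) + 1 := by omega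
    have h4 : (x : ℝ) ≤ 2 * ((x / 2 : ℕ) : ℝ) + 1 := by exact_mod_cast h3
    have h5 : (10 : ℝ) ≤ x := by exact_mod_cast hx
    constructor
    · exact div_nonneg (by linarith) hP0.le
    · rw [← mul_div_assoc]
      refine div_le_div_of_nonneg_right ?_ hP0.le
      linarith
  | some h =>
    obtain ⟨n0, hn0⟩ := H59C.th_pnt (1 / 100) (by norm_num)
    refine ⟨max n0 (h + 1), fun x hx => ⟨fun h' _ => ?_, fun hh => by simp at hh⟩⟩
    have hx0 : n0 ≤ x := (le_max_left _ _).trans hx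
    have hxh : h + 1 ≤ x := (le_max_right _ _).trans hx
    have h1 := hn0 x hx0 (x + h) (by omega)
    have h2 := hn0 x hx0 (x / 2 + h) (by omega)
    have e1 : thl 1 (h : ℤ) x = H59C.th (x + h) := by
      unfold thl
      congr 1
      omega
    have e2 : thl 1 (h : ℤ) (x / 2) = H59C.th (x / 2 + h) := by
      unfold thl
      congr 1
      omega
    have h3 : X2 (some h) (primorial w) x =
        (thl 1 h x - thl 1 h (x / 2)) / (Nat.totient (primorial w) : ℝ) := rfl
    rw [h3, e1, e2, ← mul_div_assoc]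
    refine div_le_div_of_nonneg_right ?_ hφ.le
    rw [abs_le] at h1 h2
    push_cast at h1 h2
    have h4 : ((x / 2 : ℕ) : ℝ) * 2 ≤ x := by exact_mod_cast Nat.div_mul_le_self x 2
    linarith [h1.1, h2.2]

end Pool.Agent.Lib.H59W
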