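import Pool.Agent.Lib.H59W.P4
import Pool.Agent.Lib.H59W.A0B

/-!
# Chunk P4B: the sieve products
-/

open Finset Polynomial

namespace Pool.Agent.Lib.H59W

open Pool.Agent.Lib.H33B (Sys NoFix wF FS_D)
open Pool.Agent.Lib.H15P Pool.Agent.Lib.H92G Pool.Agent.Lib.H57M Pool.Agent.Lib.H57C

theorem p4b_memQ {w W p1 q : ℕ} : q ∈ Qw w W p1 ↔ (w < q ∧ q ≤ W) ∧ q.Prime ∧ q ≠ p1 := by
  unfold Qw
  rw [mem_filter, mem_Ioc]

theorem p4b_Q (w W p1 : ℕ) : Qw w W p1 =
    (Nat.primesBelow (W + 1) \ Nat.primesBelow (w + 1)).erase p1 := by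
  ext q
  rw [p4b_memQ, mem_erase, mem_sdiff, Nat.mem_primesBelow, Nat.mem_primesBelow]
  constructor
  · rintro ⟨⟨h1, h2⟩, h3, h4⟩
    exact ⟨h4, ⟨by omega, h3⟩, fun h => by omega⟩
  · rintro ⟨h1, ⟨h2, h3⟩, h4⟩
    have h5 : ¬ q < w + 1 := fun h => h4 ⟨h, h3⟩
    exact ⟨⟨by omega, by omega⟩, h3, h1⟩

theorem p4b_rho_none (H : Finset ℕ) (q : ℕ) : rho H none q = H.card / (q : ℝ) := by
  unfold rho hdr
  rw [if_pos rfl, filter_true_of_mem (fun h _ => by simp), mul_one_div]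

theorem p4b_rho_some (H : Finset ℕ) (h : ℕ) (hh : h ∈ H) (q : ℕ) :
    rho H (some h) q = ((H.card : ℝ) - 1) / ((q : ℝ) - 1) := by
  unfold rho hdr
  rw [if_neg (by simp), mul_one_div]
  have h1 : H.filter (fun h' => some h ≠ some h') = H.erase h := by
    ext h'
    rw [mem_filter, mem_erase]
    constructor
    · rintro ⟨h2, h3⟩
      exact ⟨fun h4 => h3 (by rw [h4]), h2⟩
    · rintro ⟨h2, h3⟩
      refine ⟨h3, fun h4 => h2 ?_⟩
      exact (Option.some.inj h4).symm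
  rw [h1, card_erase_of_mem hh, Nat.cast_sub (card_pos.2 ⟨h, hh⟩), Nat.cast_one]

theorem p4b_pos (p : ℕ) (hp : p.Prime) : 0 < 1 - 1 / (p : ℝ) ∧ 1 / 2 ≤ 1 - 1 / (p : ℝ) := by
  have h2 : (2 : ℝ) ≤ p := by exact_mod_cast hp.two_le
  have : 1 / (p : ℝ) ≤ 1 / 2 := one_div_le_one_div_of_le (by norm_num) h2
  constructor <;> linarith

theorem p4b_inv (w W p1 : ℕ) (hW : 2 ≤ W) (hp1 : p1.Prime) (hwW : w ≤ W) :
    1 / 2 * ((primorial w).totient / (primorial w : ℝ)) * Real.log W ≤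
      ∏ q ∈ Qw w W p1, (1 - 1 / (q : ℝ))⁻¹ := by
  have hP1 : 1 ≤ primorial w := primorial_pos w
  have hP0 : (0 : ℝ) < primorial w := by exact_mod_cast hP1
  have hφ : (0 : ℝ) < (primorial w).totient := by exact_mod_cast Nat.totient_pos.2 hP1
  have hsub : Nat.primesBelow (w + 1) ⊆ Nat.primesBelow (W + 1) := by
    intro p hp
    rw [Nat.mem_primesBelow] at hp ⊢
    exact ⟨by omega, hp.2⟩
  have hU : (primorial w : ℝ) / Nat.totient (primorial w) =
      ∏ p ∈ Nat.primesBelow (w + 1), (1 - 1 / (p : ℝ))⁻¹ := H33B.SR1_ratio (w + 1)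
  have hlW : 0 < Real.log W := Real.log_pos (by exact_mod_cast (by omega : 1 < W))
  have hV : Real.log W ≤ ∏ q ∈ Nat.primesBelow (W + 1), (1 - 1 / (q : ℝ))⁻¹ := by
    have h3 : ∏ q ∈ Nat.primesBelow (W + 1), (1 - 1 / (q : ℝ)) ≤
        1 / Real.log ((W + 1 : ℕ) : ℝ) := by
      have h4 := H59.prod_one_sub_inv_le (z := W + 1) (by omega)
      simpa only [one_div] using h4
    have h4 : 0 < ∏ q ∈ Nat.primesBelow (W + 1), (1 - 1 / (q : ℝ)) :=
      prod_pos fun q hq => (p4b_pos q (Nat.prime_of_mem_primesBelow hq)).1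
    have h5 : 0 < Real.log ((W + 1 : ℕ) : ℝ) :=
      Real.log_pos (by exact_mod_cast (by omega : 1 < W + 1))
    rw [prod_inv_distrib]
    calc Real.log W ≤ Real.log ((W + 1 : ℕ) : ℝ) :=
          Real.log_le_log (by exact_mod_cast (by omega : 0 < W)) (by exact_mod_cast Nat.le_succ W)
      _ ≤ _ := by
          rw [le_inv_comm₀ h5 h4, ← one_div]
          exact h3
  have hpos : ∀ s : Finset ℕ, (∀ q ∈ s, q.Prime) → 0 < ∏ q ∈ s, (1 - 1 / (q : ℝ))⁻¹ :=
    fun s hs => prod_pos fun q hq => inv_pos.2 (p4b_pos q (hs q hq)).1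
  have hT : ∏ q ∈ Nat.primesBelow (W + 1) \ Nat.primesBelow (w + 1), (1 - 1 / (q : ℝ))⁻¹ ≤
      2 * ∏ q ∈ Qw w W p1, (1 - 1 / (q : ℝ))⁻¹ := by
    rw [p4b_Q]
    have hT0 : 0 < ∏ q ∈ (Nat.primesBelow (W + 1) \ Nat.primesBelow (w + 1)).erase p1,
        (1 - 1 / (q : ℝ))⁻¹ := hpos _ fun q hq =>
          Nat.prime_of_mem_primesBelow (mem_sdiff.1 (mem_of_mem_erase hq)).1
    by_cases hm : p1 ∈ Nat.primesBelow (W + 1) \ Nat.primesBelow (w + 1)
    · rw [← mul_prod_erase _ _ hm]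
      refine mul_le_mul_of_nonneg_right ?_ hT0.le
      have h1 := (p4b_pos p1 hp1).2
      have h2 := inv_anti₀ (by norm_num : (0 : ℝ) < 1 / 2) h1
      have h3 : ((1 : ℝ) / 2)⁻¹ = 2 := by norm_num
      rwa [h3] at h2
    · rw [erase_eq_of_notMem hm] at hT0 ⊢
      linarith
  rw [← prod_sdiff hsub, ← hU] at hV
  have h1 : Real.log W * ((primorial w).totient / (primorial w : ℝ)) ≤
      ∏ q ∈ Nat.primesBelow (W + 1) \ Nat.primesBelow (w + 1), (1 - 1 / (q : ℝ))⁻¹ := by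
    have h2 := mul_le_mul_of_nonneg_right hV
      (by positivity : 0 ≤ ((primorial w).totient / (primorial w : ℝ)))
    refine h2.trans (le_of_eq ?_)
    rw [mul_assoc]
    have h3 : (primorial w : ℝ) / ((primorial w).totient : ℝ) *
        (((primorial w).totient : ℝ) / (primorial w : ℝ)) = 1 := by
      field_simp
    rw [h3, mul_one]
  linarith

/-- Proof. For a prime `q > w`: `1 - (k - 1)/(q - 1) = (1 - k/q)/(1 - 1/q)`, `k = #H`, so the left product is the right one times `∏_{q ∈ Qw} (1 - 1/q)⁻¹`, and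
`∏_{q ∈ Qw} (1 - 1/q)⁻¹ ≥ (1 - 1/p1) ∏_{q ≤ w} (1 - 1/q) ∏_{q ≤ W} (1 - 1/q)⁻¹ ≥ (1/2) (φ(P)/P) log W` (`H33B.SR1_ratio` with `primorial w = H33B.PW (w + 1)`;
`H59.prod_one_sub_inv_le`). -/
theorem prod_some {H H' : Finset ℕ} {w : ℕ} (hs : Sh2 H H' w) (h : ℕ) (hh : h ∈ H) (W p1 : ℕ)
    (hW : 2 ≤ W) (hp1 : p1.Prime) (hwW : w ≤ W) :
    1 / 2 * ((primorial w).totient / (primorial w : ℝ)) * Real.log W *
      ∏ q ∈ Qw w W p1, (1 - rho H none q) ≤ ∏ q ∈ Qw w W p1, (1 - rho H (some h) q) := by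
  have hk := hs.card
  have h1 : ∏ q ∈ Qw w W p1, (1 - rho H (some h) q) =
      (∏ q ∈ Qw w W p1, (1 - 1 / (q : ℝ))⁻¹) * ∏ q ∈ Qw w W p1, (1 - rho H none q) := by
    rw [← prod_mul_distrib]
    refine prod_congr rfl fun q hq => ?_
    obtain ⟨⟨h2, h3⟩, h4, _⟩ := p4b_memQ.1 hq
    rw [p4b_rho_none, p4b_rho_some H h hh]
    have h5 : (2 : ℝ) ≤ q := by exact_mod_cast h4.two_le
    have h6 : (q : ℝ) - 1 ≠ 0 := by linarith
    have h7 : (q : ℝ) ≠ 0 := by linarith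
    have h8 : (1 - 1 / (q : ℝ))⁻¹ = q / (q - 1) := by
      rw [one_sub_div h7, inv_div]
    rw [h8]
    field_simp
    ring
  rw [h1]
  refine mul_le_mul_of_nonneg_right (p4b_inv w W p1 hW hp1 hwW) ?_
  refine prod_nonneg fun q hq => ?_
  obtain ⟨⟨h2, h3⟩, h4, _⟩ := p4b_memQ.1 hq
  rw [p4b_rho_none, sub_nonneg, div_le_one (by exact_mod_cast h4.pos)]
  exact_mod_cast (by omega : H.card ≤ q)

theorem p4b_gd {g : ℕ} (F : Fin g → ℤ[X]) (hN : NoFix F) (w : ℕ) :
    ((gd (∏ i, F i) (primorial w)).card : ℝ) =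
      (primorial w : ℝ) * ∏ p ∈ Nat.primesBelow (w + 1), (1 - (wF F p : ℝ) / p) := by
  have h1 : (gd (∏ i, F i) (primorial w)).card =
      ∏ p ∈ Nat.primesBelow (w + 1), (p - H59.rootCount (∏ i, F i) p) := by
    rw [← H33B.count_coprime]
    unfold gd
    rfl
  have h2 : ((primorial w : ℕ) : ℝ) = ∏ p ∈ Nat.primesBelow (w + 1), (p : ℝ) := by
    have h3 : primorial w = H33B.PW (w + 1) := rfl
    rw [h3]
    unfold H33B.PW
    push_cast
    rfl
  rw [h1, h2, ← prod_mul_distrib]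
  push_cast
  refine prod_congr rfl fun p hp => ?_
  have hpp := Nat.prime_of_mem_primesBelow hp
  have hlt : wF F p < p := H33B.wF_lt F hN p hpp
  have hp0 : (p : ℝ) ≠ 0 := by exact_mod_cast hpp.ne_zero
  have h4 : ((p - H59.rootCount (∏ i, F i) p : ℕ) : ℝ) = (p : ℝ) - wF F p := by
    unfold wF at hlt ⊢
    rw [Nat.cast_sub hlt.le]
  rw [h4]
  field_simp

theorem p4b_wF (H : Finset ℕ) (w q : ℕ) (hw : ∀ h ∈ H, h ≤ w) (hq : q.Prime) (hwq : w < q) :
    H.card ≤ wF (FH H) q := by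
  unfold wF H59.rootCount
  refine card_le_card_of_injOn (fun h => (q - h) % q) (fun h hh => ?_) (fun h hh h' hh' he => ?_)
  · have h1 := hw h hh
    rw [mem_coe, mem_filter, mem_range]
    refine ⟨Nat.mod_lt _ hq.pos, ?_⟩
    rw [H59.dvd_eval_mod_iff, eval_prod]
    obtain ⟨i, hi⟩ := p4_surj H h hh
    refine dvd_trans ?_ (dvd_prod_of_mem _ (mem_univ i))
    rw [p4_eval, hi]
    have h2 : (((q - h : ℕ) : ℤ) + (h : ℤ)) = q := by omega
    rw [h2]
  · have h1 := hw h hh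
    have h2 := hw h' hh'
    have h3 : (q - h) % q = (q - h') % q := he
    rcases Nat.eq_zero_or_pos h with h4 | h4 <;> rcases Nat.eq_zero_or_pos h' with h5 | h5
    · rw [h4, h5]
    · rw [h4, Nat.sub_zero, Nat.mod_self, Nat.mod_eq_of_lt (by omega : q - h' < q)] at h3
      omega
    · rw [h5, Nat.sub_zero, Nat.mod_self, Nat.mod_eq_of_lt (by omega : q - h < q)] at h3
      omega
    · rw [Nat.mod_eq_of_lt (by omega : q - h < q), Nat.mod_eq_of_lt (by omega : q - h' < q)] at h3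
      omega

/-- Proof. For a prime `q > w` one has `wF (FH H) q = k` (`k = #H`; the classes `-h` are different as `q > w ≥ h`). So, leaving out `p1`,
`∏_{q ∈ Qw} (1 - k/q) ≥ ∏_{q ≤ W} (1 - wF/q)/∏_{q ≤ w} (1 - wF/q) ≥ (c/(log (W + 1))^k) (P/#gd)` (`mert`, `H33B.count_coprime`), and `log (W + 1) ≤ 2 log x`. `c` does not depend on `w`. -/
theorem prod_none (H : Finset ℕ) (hH : 1 ≤ H.card) (hN : NoFix (FH H)) : ∃ c : ℝ, 0 < c ∧
    ∀ (H' : Finset ℕ) (w : ℕ), Sh2 H H' w → ∀ W p1 x : ℕ, 2 ≤ W → w ≤ W → W ≤ x →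
      c / Real.log x ^ H.card *
        ((primorial w : ℝ) / (gd (∏ i, FH H i) (primorial w)).card) ≤
      ∏ q ∈ Qw w W p1, (1 - rho H none q) ∧ ∏ q ∈ Qw w W p1, (1 - rho H none q) ≤ 1 := by
  obtain ⟨c, _, hc, _, h1⟩ := mert (FH H) (FH_sys H hH) hN
  refine ⟨c / 2 ^ H.card, by positivity, fun H' w hs W p1 x hW hwW hWx => ?_⟩
  have hk := hs.card
  have hfac : ∀ q : ℕ, q.Prime → w < q → 0 ≤ 1 - rho H none q ∧ 1 - rho H none q ≤ 1 := by
    intro q hq hwq
    have hq0 : (0 : ℝ) < q := by exact_mod_cast hq.pos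
    rw [p4b_rho_none]
    constructor
    · rw [sub_nonneg, div_le_one hq0]
      exact_mod_cast (by omega : H.card ≤ q)
    · have : 0 ≤ (H.card : ℝ) / q := by positivity
      linarith
  refine ⟨?_, prod_le_one (fun q hq => ?_) fun q hq => ?_⟩
  · have hf := H33B.FS_fac (FH H) hN
    have hsub : Nat.primesBelow (w + 1) ⊆ Nat.primesBelow (W + 1) := by
      intro p hp
      rw [Nat.mem_primesBelow] at hp ⊢
      exact ⟨by omega, hp.2⟩
    have hmem : ∀ q ∈ Nat.primesBelow (W + 1) \ Nat.primesBelow (w + 1), q.Prime ∧ w < q := by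
      intro q hq
      obtain ⟨h2, h3⟩ := mem_sdiff.1 hq
      have h4 := Nat.prime_of_mem_primesBelow h2
      refine ⟨h4, ?_⟩
      by_contra h6
      exact h3 (Nat.mem_primesBelow.2 ⟨by omega, h4⟩)
    have hT : ∏ q ∈ Nat.primesBelow (W + 1) \ Nat.primesBelow (w + 1),
        (1 - (wF (FH H) q : ℝ) / q) ≤ ∏ q ∈ Qw w W p1, (1 - rho H none q) := by
      calc ∏ q ∈ Nat.primesBelow (W + 1) \ Nat.primesBelow (w + 1),
            (1 - (wF (FH H) q : ℝ) / q) ≤
          ∏ q ∈ Nat.primesBelow (W + 1) \ Nat.primesBelow (w + 1), (1 - rho H none q) := by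
            refine prod_le_prod (fun q hq => (hf q (hmem q hq).1).1.le) fun q hq => ?_
            obtain ⟨h2, h3⟩ := hmem q hq
            rw [p4b_rho_none]
            have h4 : (H.card : ℝ) ≤ wF (FH H) q := by
              exact_mod_cast p4b_wF H w q hs.le h2 h3
            have h5 : (H.card : ℝ) / q ≤ (wF (FH H) q : ℝ) / q :=
              div_le_div_of_nonneg_right h4 (Nat.cast_nonneg _)
            linarith
        _ ≤ ∏ q ∈ Qw w W p1, (1 - rho H none q) := by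
            rw [p4b_Q]
            refine a0b_sub _ (erase_subset _ _) (fun q hq => ?_) fun q hq => ?_
            · exact (hfac q (hmem q hq).1 (hmem q hq).2).1
            · exact (hfac q (hmem q hq).1 (hmem q hq).2).2
    refine le_trans ?_ hT
    have hm := (h1 (W + 1) (by omega)).1
    rw [← prod_sdiff hsub] at hm
    rw [p4b_gd (FH H) hN w]
    have hP0 : (0 : ℝ) < primorial w := by exact_mod_cast primorial_pos w
    set s := ∏ p ∈ Nat.primesBelow (W + 1) \ Nat.primesBelow (w + 1),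
      (1 - (wF (FH H) p : ℝ) / p) with hsd
    set t := ∏ p ∈ Nat.primesBelow (w + 1), (1 - (wF (FH H) p : ℝ) / p) with htd
    have ht : 0 < t := prod_pos fun p hp => (hf p (Nat.prime_of_mem_primesBelow hp)).1
    have hx2 : 2 ≤ x := hW.trans hWx
    have hx0 : (0 : ℝ) < x := by exact_mod_cast (by omega : 0 < x)
    have hlx : 0 < Real.log x := Real.log_pos (by exact_mod_cast (by omega : 1 < x))
    have hl0 : 0 < Real.log ((W + 1 : ℕ) : ℝ) :=
      Real.log_pos (by exact_mod_cast (by omega : 1 < W + 1))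
    have hl : Real.log ((W + 1 : ℕ) : ℝ) ≤ 2 * Real.log x := by
      rw [two_mul, ← Real.log_mul hx0.ne' hx0.ne']
      refine Real.log_le_log (by positivity) ?_
      have h2 : W + 1 ≤ x * x := by nlinarith
      exact_mod_cast h2
    have h2 : c / (2 * Real.log x) ^ H.card ≤ s * t := by
      refine le_trans ?_ hm
      refine div_le_div_of_nonneg_left hc.le (by positivity) ?_
      exact pow_le_pow_left₀ hl0.le hl _
    have h3 : (primorial w : ℝ) / (primorial w * t) = 1 / t := by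
      field_simp
    rw [h3]
    calc c / 2 ^ H.card / Real.log x ^ H.card * (1 / t) =
        c / (2 * Real.log x) ^ H.card / t := by
          rw [mul_pow]
          field_simp
      _ ≤ s := by
          rw [div_le_iff₀ ht]
          exact h2
  · obtain ⟨⟨h2, _⟩, h3, _⟩ := p4b_memQ.1 hq
    exact (hfac q h3 h2).1
  · obtain ⟨⟨h2, _⟩, h3, _⟩ := p4b_memQ.1 hq
    exact (hfac q h3 h2).2

end Pool.Agent.Lib.H59W
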