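import Pool.Agent.Lib.H59W.PDefs
import Pool.Agent.Lib.H57M.B9

/-!
# Chunk P5: the weight is bounded
-/

open Finset Polynomial

namespace Pool.Agent.Lib.H59W

open Pool.Agent.Lib.H15P Pool.Agent.Lib.H92G Pool.Agent.Lib.H57M Pool.Agent.Lib.H57C

theorem p5_nonneg {K : ℕ} (w : Par K) (H : Finset ℕ) (S : {h // h ∈ H} → Finset {p // p ∈ w.P}) :
    0 ≤ FC w H S := by
  have hz := w.z_bounds.1
  have hzK : 0 < w.z ^ K := pow_pos (by linarith) K
  exact div_nonneg (sq_nonneg _) hzK.le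

/-- The bound in terms of the number of the primes. -/
theorem p5_le {J : Type} [Fintype J] [DecidableEq J] (P : Finset ℕ)
    (F : (J → Finset {p // p ∈ P}) → ℝ) (C : ℝ) (D : ℝ) (h : ExJ P F C 3 D) (hC : 0 ≤ C)
    (S : J → Finset {p // p ∈ P}) (M : ℕ) (hM : ∀ j, (S j).card ≤ M) :
    F S ≤ C * 6 ^ (Fintype.card J * M) := by
  classical
  obtain ⟨c, h1, h2, _⟩ := h
  rw [h1 S, ← sum_filter]
  have h3 : (univ.filter fun U : J → Finset {p // p ∈ P} => ∀ j, U j ⊆ S j) =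
      Fintype.piFinset fun j => (S j).powerset := by
    ext U
    simp [Fintype.mem_piFinset]
  have hS : ∑ j, (S j).card ≤ Fintype.card J * M := by
    calc ∑ j, (S j).card ≤ ∑ _j : J, M := sum_le_sum fun j _ => hM j
      _ = Fintype.card J * M := by rw [sum_const, card_univ, smul_eq_mul]
  have h4 : ∀ U ∈ (univ.filter fun U : J → Finset {p // p ∈ P} => ∀ j, U j ⊆ S j),
      c U ≤ C * 3 ^ (Fintype.card J * M) := by
    intro U hU
    rw [mem_filter] at hU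
    have h5 : ∑ j, (U j).card ≤ Fintype.card J * M :=
      (sum_le_sum fun j _ => card_le_card (hU.2 j)).trans hS
    refine ((le_abs_self _).trans (h2 U)).trans (mul_le_mul_of_nonneg_left ?_ hC)
    have h6 : ((3 : ℕ) : ℝ) = 3 := by norm_num
    rw [h6]
    exact pow_le_pow_right₀ (by norm_num) h5
  have h5 : (((univ.filter fun U : J → Finset {p // p ∈ P} => ∀ j, U j ⊆ S j).card : ℕ) : ℝ) ≤
      2 ^ (Fintype.card J * M) := by
    rw [h3, Fintype.card_piFinset]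
    have h6 : ∏ j, ((S j).powerset).card = 2 ^ ∑ j, (S j).card := by
      rw [← prod_pow_eq_pow_sum]
      exact prod_congr rfl fun j _ => card_powerset _
    rw [h6]
    push_cast
    exact pow_le_pow_right₀ (by norm_num) hS
  calc ∑ U ∈ (univ.filter fun U : J → Finset {p // p ∈ P} => ∀ j, U j ⊆ S j), c U ≤
      ∑ _U ∈ (univ.filter fun U : J → Finset {p // p ∈ P} => ∀ j, U j ⊆ S j),
        C * 3 ^ (Fintype.card J * M) := sum_le_sum h4
    _ = (((univ.filter fun U : J → Finset {p // p ∈ P} => ∀ j, U j ⊆ S j).card : ℕ) : ℝ) *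
        (C * 3 ^ (Fintype.card J * M)) := by rw [sum_const, nsmul_eq_mul]
    _ ≤ 2 ^ (Fintype.card J * M) * (C * 3 ^ (Fintype.card J * M)) :=
        mul_le_mul_of_nonneg_right h5 (by positivity)
    _ = C * (2 * 3) ^ (Fintype.card J * M) := by
        rw [mul_pow]
        ring
    _ = C * 6 ^ (Fintype.card J * M) := by norm_num

/-- The number of the primes of `P` dividing `e`. -/
theorem p5_hit (P : Finset ℕ) (hP : ∀ p ∈ P, p.Prime) (e : ℕ) (he : 1 ≤ e) (y : ℝ) (hy : 0 ≤ y)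
    (hb : ∀ p ∈ P, y ≤ p) : y ^ (hit P e).card ≤ e := by
  have h1 : ∏ p ∈ (hit P e).map (Function.Embedding.subtype _), p ∣ e := by
    refine Finset.prod_primes_dvd e (fun p hp => ?_) fun p hp => ?_
    · rw [mem_map] at hp
      obtain ⟨q, _, rfl⟩ := hp
      exact (hP q.1 q.2).prime
    · rw [mem_map] at hp
      obtain ⟨q, hq, rfl⟩ := hp
      unfold hit at hq
      exact (mem_filter.1 hq).2
  rw [prod_map] at h1
  have h2 := Nat.le_of_dvd he h1
  have h3 : (∏ p ∈ hit P e, ((p.1 : ℕ) : ℝ)) ≤ e := by exact_mod_cast h2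
  refine le_trans ?_ h3
  rw [← prod_const]
  exact prod_le_prod (fun _ _ => hy) fun p _ => hb p.1 p.2

/-- Proof. `ex` (`ExJ`): `FC = ∑_U c(U) 1[U_h ⊆ S_h]`, `|c(U)| ≤ CF 3^(∑|U_h|)`, so `FC ≤ CF ∏_h ∑_{U_h ⊆ S_h} 3^|U_h| = CF 4^(∑_h |S_h|)`. With `S_h = cfg wp.P H' none n h = hit wp.P (n + h)`: the product of the
primes in `S_h` divides `n + h ≤ 2 x`, and all of them are `≥ x^δ` (they are `> W = ⌊x^δ⌋`), so `|S_h| δ log x ≤ log (2 x) ≤ 2 log x`: `|S_h| ≤ 2/δ`. So `C0 = CF 4^(4000^m ⌈2/δ⌉)`. -/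
theorem FC_le (m : ℕ) (H' : Finset ℕ) (hc : H'.card = 4000 ^ m) (δ G CF : ℝ) (h0 : 0 < δ)
    (hCF : 1 ≤ CF) : ∃ C0 : ℝ, 1 ≤ C0 ∧ ∃ x0 : ℕ, ∀ x : ℕ, x0 ≤ x → ∀ wp : Par (4000 ^ m),
    Wt wp H' δ G CF x → ∀ n : ℕ, 1 ≤ n → n ≤ x →
      0 ≤ FC wp H' (cfg wp.P H' none n) ∧ FC wp H' (cfg wp.P H' none n) ≤ C0 := by
  refine ⟨CF * 6 ^ (4000 ^ m * ⌊2 / δ⌋₊), ?_, max 3 (∑ h ∈ H', h), fun x hx wp hw n hn hnx => ?_⟩
  · have h1 : (1 : ℝ) ≤ 6 ^ (4000 ^ m * ⌊2 / δ⌋₊) := one_le_pow₀ (by norm_num)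
    exact one_le_mul_of_one_le_of_one_le hCF h1
  have hx3 : 3 ≤ x := (le_max_left _ _).trans hx
  have hxr : (1 : ℝ) < x := by exact_mod_cast (by omega : 1 < x)
  have hx0 : (0 : ℝ) < x := by linarith
  refine ⟨p5_nonneg wp H' _, ?_⟩
  have hcard : Fintype.card {h // h ∈ H'} = 4000 ^ m := by rw [Fintype.card_coe, hc]
  have h1 := p5_le wp.P (FC wp H') CF _ hw.ex (by linarith) (cfg wp.P H' none n) ⌊2 / δ⌋₊ ?_
  · rwa [hcard] at h1
  intro j
  have hj : j.1 ≤ x := by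
    have h2 : j.1 ≤ ∑ h ∈ H', h := single_le_sum (f := fun h => h) (fun _ _ => Nat.zero_le _) j.2
    exact h2.trans ((le_max_right _ _).trans hx)
  have e1 : cfg wp.P H' none n j = hit wp.P (n + j.1) := by
    unfold H57C.cfg
    rw [if_neg (by simp)]
  rw [e1]
  have h2 := p5_hit wp.P wp.prime (n + j.1) (by omega) ((x : ℝ) ^ δ) (Real.rpow_nonneg hx0.le _)
    (fun p hp => by
      have h3 := wp.big p hp
      rw [hw.W] at h3
      exact (Nat.lt_of_floor_lt h3).le)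
  have h3 : (((n + j.1 : ℕ)) : ℝ) ≤ (x : ℝ) ^ (2 : ℝ) := by
    rw [Real.rpow_two]
    have h4 : n + j.1 ≤ x ^ 2 := by nlinarith
    exact_mod_cast h4
  have h4 : (x : ℝ) ^ (δ * ((hit wp.P (n + j.1)).card : ℝ)) ≤ (x : ℝ) ^ (2 : ℝ) := by
    rw [Real.rpow_mul hx0.le, Real.rpow_natCast]
    exact h2.trans h3
  rw [Real.rpow_le_rpow_left_iff hxr] at h4
  refine Nat.le_floor ?_
  rw [le_div_iff₀ h0]
  linarith

/-- Proof. As `H57C.pw_Fs_eq`: if `n + h` is a prime larger than the primes of `wp.P` (`≤ x^(1/100) < x/2 < n`) then `hit wp.P (n + h) = ∅`, so `cfg wp.P H' (some h) n = cfg wp.P H' none n`. -/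
theorem cfg_eq {m : ℕ} {wp : Par (4000 ^ m)} {H' : Finset ℕ} {δ G CF : ℝ} {x : ℕ} (hx : 16 ≤ x)
    (hw : Wt wp H' δ G CF x) (h n : ℕ) (hn : x / 2 < n) (hp : (n + h).Prime) :
    cfg wp.P H' (some h) n = cfg wp.P H' none n := by
  have hx16 : (16 : ℝ) ≤ x := by exact_mod_cast hx
  have hP : ∀ p ∈ wp.P, p < n + h := by
    intro p hpp
    have h1 := hw.small p hpp
    have h2 : (x : ℝ) ^ (1 / 100 : ℝ) ≤ (x : ℝ) ^ (1 / 2 : ℝ) :=
      Real.rpow_le_rpow_of_exponent_le (by linarith) (by norm_num)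
    have h3 : (x : ℝ) ^ (1 / 2 : ℝ) ≤ x / 4 := by
      rw [← Real.sqrt_eq_rpow, Real.sqrt_le_left (by linarith)]
      nlinarith
    have h4 : (4 : ℝ) * p ≤ x := by linarith
    have h5 : 4 * p ≤ x := by exact_mod_cast h4
    have h6 := (wp.prime p hpp).pos
    omega
  funext h'
  unfold H57C.cfg
  by_cases h2 : h'.1 = h
  · have h3 : (some h : Option ℕ) = some h'.1 := by rw [h2]
    rw [if_pos h3, if_neg (by simp), h2]
    symm
    unfold Pool.Agent.Lib.H15P.hit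
    rw [Finset.filter_eq_empty_iff]
    intro p _ hd
    have h4 := hP p.1 p.2
    have h5 := (Nat.prime_dvd_prime_iff_eq (wp.prime p.1 p.2) hp).1 hd
    omega
  · have h3 : ¬ ((some h : Option ℕ) = some h'.1) := by
      intro h4
      rw [Option.some.injEq] at h4
      exact h2 h4.symm
    rw [if_neg h3, if_neg (by simp)]

end Pool.Agent.Lib.H59W
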