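import Pool.Agent.Lib.H59W.P0
import Pool.Agent.Lib.H59W.P3
import Pool.Agent.Lib.H59W.P4B
import Pool.Agent.Lib.H59W.P5
import Pool.Agent.Lib.H57C.A1

/-!
# Chunk P6: many `n` with `g` primes, the exceptional prime left out
-/

open Finset Polynomial

namespace Pool.Agent.Lib.H59W

open Pool.Agent.Lib.H33B (Sys NoFix wF FS_D)
open Pool.Agent.Lib.H15P Pool.Agent.Lib.H92G Pool.Agent.Lib.H57M Pool.Agent.Lib.H57C
open Pool.Agent.Lib.H59C (DD SWp)

theorem p6_gd (H : Finset ℕ) (P v : ℕ) (hP : 0 < P) (hv : ∀ h ∈ H, (v + h).Coprime P) :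
    0 < (gd (∏ i, FH H i) P).card := by
  classical
  rw [Finset.card_pos]
  refine ⟨v % P, ?_⟩
  unfold gd
  rw [mem_filter, mem_range]
  refine ⟨Nat.mod_lt _ hP, ?_⟩
  rw [Polynomial.eval_prod]
  apply IsCoprime.prod_left
  intro i _
  unfold FH
  rw [Polynomial.eval_add, Polynomial.eval_X, Polynomial.eval_C]
  have h1 := hv (H.orderEmbOfFin rfl i) (Finset.orderEmbOfFin_mem H rfl i)
  have h2 : (v % P + (H.orderEmbOfFin rfl i : ℕ)).Coprime P := by
    have e : (v % P + (H.orderEmbOfFin rfl i : ℕ)) ≡ v + (H.orderEmbOfFin rfl i : ℕ) [MOD P] :=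
      (Nat.mod_modEq v P).add_right _
    have := e.gcd_eq
    unfold Nat.Coprime at h1 ⊢
    omega
  have h3 := Nat.isCoprime_iff_coprime.2 h2
  push_cast at h3
  push_cast
  exact h3

theorem p6_large (A B : ℝ) (δ : ℝ) (hδ : 0 < δ) (hδ1 : δ ≤ 1 / 2) : ∃ x0 : ℕ, ∀ x : ℕ, x0 ≤ x →
    16 ≤ x ∧ A ≤ x ∧ B ≤ Real.log x ∧ Real.log (2 * x) ≤ 11 / 10 * Real.log x ∧ A ≤ (x : ℝ) ^ δ ∧
    (x : ℝ) ^ δ ≤ x / 4 := by
  have h0 : Filter.Tendsto (fun x : ℕ => Real.log x) Filter.atTop Filter.atTop :=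
    Real.tendsto_log_atTop.comp tendsto_natCast_atTop_atTop
  have h1 := h0.eventually_ge_atTop (max B 10)
  have h2 : Filter.Tendsto (fun x : ℕ => (x : ℝ) ^ δ) Filter.atTop Filter.atTop :=
    (tendsto_rpow_atTop (by positivity)).comp tendsto_natCast_atTop_atTop
  have h3 := h2.eventually_ge_atTop A
  have h4 := (tendsto_natCast_atTop_atTop (R := ℝ)).eventually_ge_atTop (max A 16)
  obtain ⟨x0, hx0⟩ := Filter.eventually_atTop.1 (h1.and (h3.and h4))
  refine ⟨x0, fun x hx => ?_⟩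
  obtain ⟨a1, a2, a3⟩ := hx0 x hx
  have hA := (le_max_left _ _).trans a3
  have h16 : (16 : ℝ) ≤ x := (le_max_right _ _).trans a3
  have hB := (le_max_left _ _).trans a1
  have hL : 10 ≤ Real.log x := (le_max_right _ _).trans a1
  refine ⟨by exact_mod_cast h16, hA, hB, ?_, a2, ?_⟩
  · rw [Real.log_mul (by norm_num) (by linarith)]
    have := Real.log_two_lt_d9
    linarith
  · have h5 : (x : ℝ) ^ δ ≤ (x : ℝ) ^ (1 / 2 : ℝ) :=
      Real.rpow_le_rpow_of_exponent_le (by linarith) hδ1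
    have h6 : (x : ℝ) ^ (1 / 2 : ℝ) = Real.sqrt x := (Real.sqrt_eq_rpow _).symm
    rw [h6] at h5
    refine h5.trans ?_
    have h7 : 4 ≤ Real.sqrt x := Real.le_sqrt_of_sq_le (by linarith)
    have h8 : Real.sqrt x * Real.sqrt x = x := Real.mul_self_sqrt (by linarith)
    nlinarith

theorem p6_rho (H : Finset ℕ) (w : ℕ) (hw : 2 * H.card + 2 ≤ w) (i : Option ℕ) (q : ℕ) (hq : w < q) :
    0 ≤ 1 - rho H i q := by
  have h1 : ((H.filter (fun h => i ≠ some h)).card : ℝ) ≤ H.card := by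
    exact_mod_cast Finset.card_filter_le _ _
  have h2 : (2 * H.card + 2 : ℝ) ≤ q := by exact_mod_cast (by omega : 2 * H.card + 2 ≤ q)
  have h0 : (0 : ℝ) ≤ H.card := Nat.cast_nonneg _
  have h3 : hdr i q ≤ 1 / ((q : ℝ) - 1) := by
    unfold hdr
    split_ifs
    · apply one_div_le_one_div_of_le <;> linarith
    · exact le_refl _
  have h3' : 0 ≤ hdr i q := by
    unfold hdr
    split_ifs
    · positivity
    · apply div_nonneg (by norm_num)
      linarith
  have h4 : rho H i q ≤ H.card * (1 / ((q : ℝ) - 1)) := by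
    unfold rho
    exact mul_le_mul h1 h3 h3' h0
  have h5 : (H.card : ℝ) * (1 / ((q : ℝ) - 1)) ≤ 1 := by
    rw [mul_one_div, div_le_one (by linarith)]
    linarith
  linarith

open Classical in
/-- The primes, pointwise. -/
theorem p6_Sh {H H' : Finset ℕ} {w m : ℕ} (hs : Sh2 H H' w) (δ G CF : ℝ) (x : ℕ) (hx16 : 16 ≤ x)
    (hxd : (x : ℝ) ^ δ ≤ x / 4) (hwx : w ≤ x)
    (wp : Par (4000 ^ m)) (hw : Wt wp H' δ G CF x) (p1 v P : ℕ) (h : ℕ) (hh : h ∈ H') :
    ∑ n ∈ (Sq2 (some h) P v x).filter (fun n => ∀ q ∈ Qw w wp.W p1, ¬ evH H (some h) q n),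
        wt2 (some h) n * FC wp H' (cfg wp.P H' (some h) n) ≤
    ∑ n ∈ (Sq2 none P v x).filter (fun n => ∀ q ∈ Qw w wp.W p1, ¬ evH H none q n),
      (if (n + h).Prime then Real.log (2 * x) * FC wp H' (cfg wp.P H' none n) else 0) := by
  have hz := wp.z_bounds.1
  have hzK : 0 < wp.z ^ (4000 ^ m) := pow_pos (by linarith) _
  have hFC : ∀ S, 0 ≤ FC wp H' S := fun S => div_nonneg (sq_nonneg _) hzK.le
  rw [← Finset.sum_filter]
  have hx0 : (16 : ℝ) ≤ x := by exact_mod_cast hx16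
  have hsub : (Sq2 (some h) P v x).filter (fun n => ∀ q ∈ Qw w wp.W p1, ¬ evH H (some h) q n) ⊆
      ((Sq2 none P v x).filter (fun n => ∀ q ∈ Qw w wp.W p1, ¬ evH H none q n)).filter
        (fun n => (n + h).Prime) := by
    intro n hn
    unfold Sq2 at hn ⊢
    simp only [mem_filter, mem_Ioc] at hn ⊢
    obtain ⟨⟨⟨h1, h2⟩, h3, h4⟩, h5⟩ := hn
    have hpr := h4 h rfl
    refine ⟨⟨⟨⟨h1, h2⟩, h3, fun h' hh' => by cases hh'⟩, fun q hq hev => ?_⟩, hpr⟩
    obtain ⟨h', hh', -, hd⟩ := hev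
    by_cases he : h = h'
    · subst he
      have hq' := hq
      unfold Qw at hq'
      rw [mem_filter, mem_Ioc] at hq'
      have hqq : q = n + h := by
        rcases (Nat.dvd_prime hpr).1 hd with hd | hd
        · exact absurd hd hq'.2.1.one_lt.ne'
        · exact hd
      have h6 : (q : ℝ) ≤ (x : ℝ) ^ δ := by
        have h7 : q ≤ ⌊(x : ℝ) ^ δ⌋₊ := by rw [← hw.W]; exact hq'.1.2
        exact (Nat.le_floor_iff (Real.rpow_nonneg (by linarith) _)).1 h7
      have h8 : (4 * q : ℝ) ≤ x := by linarith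
      have h9 : 4 * q ≤ x := by exact_mod_cast h8
      omega
    · refine h5 q hq ⟨h', hh', ?_, hd⟩
      intro hc
      exact he (Option.some.inj hc)
  refine (Finset.sum_le_sum (fun n hn => ?_)).trans
    (Finset.sum_le_sum_of_subset_of_nonneg hsub (fun n _ _ => mul_nonneg (Real.log_nonneg (by linarith)) (hFC _)))
  have hn' := hsub hn
  unfold Sq2 at hn'
  simp only [mem_filter, mem_Ioc] at hn'
  obtain ⟨⟨⟨⟨h1, h2⟩, -⟩, -⟩, hpr⟩ := hn'
  rw [cfg_eq hx16 hw h n h1 hpr]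
  refine mul_le_mul_of_nonneg_right ?_ (hFC _)
  show Real.log ((n : ℝ) + h) ≤ Real.log (2 * x)
  have hhw := hs.le h (hs.sub hh)
  have h3 : ((n + h : ℕ) : ℝ) ≤ ((2 * x : ℕ) : ℝ) := by exact_mod_cast (by omega : n + h ≤ 2 * x)
  push_cast at h3
  apply Real.log_le_log _ h3
  have : (1 : ℝ) ≤ n := by exact_mod_cast (by omega : 1 ≤ n)
  have : (0 : ℝ) ≤ h := Nat.cast_nonneg _
  linarith

open Classical in
theorem p6_count {H H' : Finset ℕ} {w m : ℕ} (hs : Sh2 H H' w) (δ G CF : ℝ) (x : ℕ) (hx16 : 16 ≤ x)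
    (wp : Par (4000 ^ m)) (hw : Wt wp H' δ G CF x) (p1 v g : ℕ)
    (hv : ∀ h ∈ H, (v + h).Coprime (primorial w)) :
    (((Sq2 none (primorial w) v x).filter (fun n => ∀ q ∈ Qw w wp.W p1, ¬ evH H none q n)).filter
      (fun n => g ≤ (H'.filter (fun h => (n + h).Prime)).card)).card ≤
    cnt (fun n => n ≡ v [MOD primorial w] ∧ g ≤ (H.filter (fun h => (n + h).Prime)).card ∧
          ∀ h ∈ H, ∀ q : ℕ, q.Prime → q ≠ p1 → q ∣ n + h → (x : ℝ) ^ δ < q) x := by
  unfold cnt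
  apply Finset.card_le_card
  intro n hn
  unfold Sq2 at hn
  simp only [mem_filter, mem_Ioc, mem_Icc] at hn ⊢
  obtain ⟨⟨⟨⟨h1, h2⟩, h3, -⟩, h5⟩, h6⟩ := hn
  refine ⟨⟨by omega, h2⟩, h3, h6.trans (card_le_card (filter_subset_filter _ hs.sub)), ?_⟩
  intro h hh q hq hq1 hd
  by_contra hc
  rw [not_lt] at hc
  have hqW : q ≤ wp.W := by
    rw [hw.W]
    exact Nat.le_floor hc
  rcases Nat.lt_or_ge w q with hwq | hwq
  · refine h5 q ?_ ⟨h, hh, by simp, hd⟩
    unfold Qw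
    rw [mem_filter, mem_Ioc]
    exact ⟨⟨hwq, hqW⟩, hq, hq1⟩
  · have hqP : q ∣ primorial w := (Nat.Prime.dvd_primorial_iff hq).2 hwq
    have h7 : q ∣ v + h := by
      have h8 : n + h ≡ v + h [MOD primorial w] := h3.add_right _
      exact ((h8.of_dvd hqP).dvd_iff dvd_rfl).1 hd
    exact hq.one_lt.ne' (Nat.Coprime.eq_one_of_dvd ((hv h hh).coprime_dvd_left h7) hqP)

/-- The final inequality. -/
theorem p6_final (g K C0 cn L LL x P gdc V N S0 S X : ℝ) (hg : 1 ≤ g) (hK : 1 ≤ K) (hC0 : 1 ≤ C0) (hcn : 0 < cn)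
    (hL : 1 ≤ L) (hLL : LL ≤ 11 / 10 * L) (hLL0 : 0 ≤ LL) (hx : 0 < x) (hP : 0 < P) (hgd : 0 < gdc)
    (k : ℕ) (hV : cn / L ^ k * (P / gdc) ≤ V)
    (hX : X = x / L ^ (k + 2)) (hS0 : S0 ≤ 121 / 100 * (x / P) * V + X)
    (hS : 4 * g * L * (x / P) * V - K * X ≤ S) (hS2 : S ≤ LL * ((g - 1) * S0 + K * C0 * N))
    (hbig : (K + 2 * g) * gdc ≤ g * cn * L) (hN : 0 ≤ N) :
    g * cn / (2 * K * C0) * (x / L ^ k) ≤ gdc * N := by
  have hLp : 0 < L ^ k := by positivity
  have hV0 : 0 ≤ V := le_trans (by positivity) hV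
  have hX0 : 0 ≤ X := by rw [hX]; positivity
  obtain ⟨Z, hZ⟩ : ∃ Z : ℝ, Z = x / P * V := ⟨_, rfl⟩
  have hZ0 : 0 ≤ Z := by rw [hZ]; positivity
  have hZ1 : cn * x / (L ^ k * gdc) ≤ Z := by
    rw [hZ]
    calc cn * x / (L ^ k * gdc) = x / P * (cn / L ^ k * (P / gdc)) := by
          field_simp
      _ ≤ x / P * V := mul_le_mul_of_nonneg_left hV (by positivity)
  have e1 : 121 / 100 * (x / P) * V + X = 121 / 100 * Z + X := by rw [hZ]; ring
  have e2 : 4 * g * L * (x / P) * V - K * X = 4 * g * L * Z - K * X := by rw [hZ]; ring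
  rw [e1] at hS0
  rw [e2] at hS
  have h1 : LL * ((g - 1) * S0 + K * C0 * N) ≤
      11 / 10 * L * ((g - 1) * (121 / 100 * Z + X) + K * C0 * N) := by
    have a1 : (g - 1) * S0 + K * C0 * N ≤ (g - 1) * (121 / 100 * Z + X) + K * C0 * N := by
      have := mul_le_mul_of_nonneg_left hS0 (by linarith : 0 ≤ g - 1)
      linarith
    have a2 : 0 ≤ (g - 1) * (121 / 100 * Z + X) + K * C0 * N := by
      have : 0 ≤ g - 1 := by linarith
      positivity
    calc LL * ((g - 1) * S0 + K * C0 * N) ≤ LL * ((g - 1) * (121 / 100 * Z + X) + K * C0 * N) :=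
          mul_le_mul_of_nonneg_left a1 hLL0
      _ ≤ _ := mul_le_mul_of_nonneg_right hLL a2
  have h2 : (g - 1) * (121 / 100 * Z + X) ≤ g * (121 / 100 * Z + X) :=
    mul_le_mul_of_nonneg_right (by linarith) (by positivity)
  have h3 : 4 * g * L * Z - K * X ≤ 11 / 10 * L * (g * (121 / 100 * Z + X) + K * C0 * N) := by
    refine (hS.trans (hS2.trans h1)).trans (mul_le_mul_of_nonneg_left (by linarith) (by positivity))
  -- error
  have h4 : (K + 2 * g) * L * X ≤ g * L * Z := by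
    have e3 : (K + 2 * g) * X ≤ g * (cn * x / (L ^ k * gdc)) := by
      rw [hX, pow_add]
      rw [← mul_div_assoc, ← mul_div_assoc, div_le_div_iff₀ (by positivity) (by positivity)]
      calc (K + 2 * g) * x * (L ^ k * gdc) = ((K + 2 * g) * gdc) * (x * L ^ k) := by ring
        _ ≤ (g * cn * L) * (x * L ^ k) := mul_le_mul_of_nonneg_right hbig (by positivity)
        _ = (g * cn * x * L ^ k) * (L * 1) := by ring
        _ ≤ (g * cn * x * L ^ k) * (L * L) := by gcongr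
        _ = g * (cn * x) * (L ^ k * L ^ 2) := by ring
    have e4 : g * (cn * x / (L ^ k * gdc)) ≤ g * Z := mul_le_mul_of_nonneg_left hZ1 (by linarith)
    have e5 := mul_le_mul_of_nonneg_left (e3.trans e4) (by linarith : 0 ≤ L)
    linarith
  have h5 : K * X ≤ K * L * X := by
    have : K * X * 1 ≤ K * X * L := mul_le_mul_of_nonneg_left hL (by positivity)
    linarith
  -- 4 g L Z - K X ≤ 1.331 g L Z + 1.1 g L X + 1.1 L K C0 N
  have h6 : g * L * Z ≤ 11 / 10 * L * (K * C0 * N) := by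
    have hgLZ : 0 ≤ g * L * Z := by positivity
    have hgLX : 0 ≤ g * L * X := by positivity
    nlinarith
  have h7 : g * Z ≤ 2 * K * C0 * N := by
    have h8 : L * (g * Z) ≤ L * (2 * K * C0 * N) := by
      have : 0 ≤ L * (K * C0 * N) := by positivity
      nlinarith
    exact le_of_mul_le_mul_left h8 (by linarith)
  have h9 : g * (cn * x / (L ^ k * gdc)) ≤ 2 * K * C0 * N :=
    (mul_le_mul_of_nonneg_left hZ1 (by linarith)).trans h7
  rw [← mul_div_assoc, div_le_iff₀ (by positivity)] at h9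
  rw [div_mul_div_comm, div_le_iff₀ (by positivity)]
  calc g * cn * x = g * (cn * x) := by ring
    _ ≤ 2 * K * C0 * N * (L ^ k * gdc) := h9
    _ = _ := by ring

/-- Proof. `G = 100 g`: `m, δ1` from `wt_const`; the conclusion holds for every `H' ⊆ H` with `#H' = 4000^m`, `δ = min δ1 (1/(1000 #H + 200))`, `CF` from `wt_const`, `C0` from `FC_le`. Let `P = primorial w`, `L = log x`,
`k = #H`, `V = ∏_{q ∈ Qw} (1 - rho H none q)`, `n` the number of labels of `wp`. `sieve2` with `A = k + 2` for `i = none` and `i = some h`, `h ∈ H'`: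
* integers: `∑ FC ≤ 2 (11/20) (x/P) (11/10) V + x/L^(k+2)` (`X2_bounds`, `H57C.ae_none`);
* primes `n + h`: `∑ log (n + h) FC ≥ (1/2) (9/20) (x/φ(P)) (36/100) (1 + n c)^2 (1/2) (φ(P)/P) log W · V - x/L^(k+2)` (`H57C.ae_some`, `prod_some`).
Sum over the `4000^m` elements of `H'` and use `gain`: the sum over the primes is `≥ (1/25) 100 g L (x/P) V - 4000^m x/L^(k+2)`, the sum over the integers times `(g - 1) log (2x) ≤ (g - 1) (11/10) L` is
`≤ (4/3) g L (x/P) V + g x/L^(k+1)·2`. So `∑_n FC(n) (∑_{h ∈ H', n + h prime} log (n + h) - (g - 1) log (2x)) ≥ g L (x/P) V` for large `x` (`V ≥ c_w/L^k`, `prod_none`), where the sum is over the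
`n ∈ (x/2, x]`, `n ≡ v`, for which no `q ∈ Qw` divides any `n + h`, `h ∈ H` (`cfg_eq`; if `n + h` is prime, no `q ∈ Qw` divides it, as `q ≤ x^δ < n`). The bracket is `≤ 0` if fewer than `g` of the `n + h` are prime,
and `≤ 4000^m log (2x) ≤ 2·4000^m L` otherwise, `FC ≤ C0`. So the number of the `n` with at least `g` primes is `≥ g x V/(2·4000^m C0 P) ≥ c x/(L^k #gd)` by `prod_none`. Each of these `n` is counted below: a prime
`q ≤ x^δ`, `q ≠ p1`, dividing `n + h` is `≤ w` (then it divides `v + h`: impossible) or in `Qw`. -/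
theorem count_MP (g : ℕ) (hg : 1 ≤ g) : ∃ K : ℕ, ∀ H : Finset ℕ, K ≤ H.card → NoFix (FH H) →
    ∃ δ : ℝ, 0 < δ ∧ ∃ c : ℝ, 0 < c ∧ ∃ w1 : ℕ, ∀ w : ℕ, w1 ≤ w → ∃ A' x0 : ℕ, ∀ x : ℕ, x0 ≤ x →
    ∀ p1 : ℕ, p1.Prime → w < p1 → (p1 : ℝ) ≤ (x : ℝ) ^ δ → SWp A' x p1 → ∀ v : ℕ,
    (∀ h ∈ H, (v + h).Coprime (primorial w)) →
      c * (x / Real.log x ^ H.card) ≤ (gd (∏ i, FH H i) (primorial w)).card *
        (cnt (fun n => n ≡ v [MOD primorial w] ∧ g ≤ (H.filter (fun h => (n + h).Prime)).card ∧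
          ∀ h ∈ H, ∀ q : ℕ, q.Prime → q ≠ p1 → q ∣ n + h → (x : ℝ) ^ δ < q) x : ℝ) := by
  classical
  obtain ⟨m, hm1, δ1, hδ1, hδ1', hwt⟩ := wt_const (100 * g) (by
    have : (1 : ℝ) ≤ g := by exact_mod_cast hg
    positivity)
  refine ⟨4000 ^ m, fun H hK hN => ?_⟩
  obtain ⟨H', hH', hc⟩ := Finset.exists_subset_card_eq hK
  have hk1 : 1 ≤ H.card := (Nat.one_le_pow _ _ (by norm_num)).trans hK
  have hk0 : (0 : ℝ) ≤ H.card := Nat.cast_nonneg _
  obtain ⟨δ, hδe⟩ : ∃ δ : ℝ, δ = min δ1 (1 / (1000 * H.card + 200)) := ⟨_, rfl⟩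
  have hδ0 : 0 < δ := by rw [hδe]; exact lt_min hδ1 (by positivity)
  have hδle : δ ≤ δ1 := by rw [hδe]; exact min_le_left _ _
  have hδle2 : δ ≤ 1 / (1000 * H.card + 200) := by rw [hδe]; exact min_le_right _ _
  have hδ10 : δ * (96 * H.card + 10) ≤ 1 / 10 := by
    calc δ * (96 * H.card + 10) ≤ 1 / (1000 * H.card + 200) * (96 * H.card + 10) :=
          mul_le_mul_of_nonneg_right hδle2 (by positivity)
      _ ≤ 1 / 10 := by
          rw [one_div_mul_eq_div, div_le_div_iff₀ (by positivity) (by norm_num)]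
          linarith
  obtain ⟨CF, hCF, xw, hxw⟩ := hwt δ hδ0 hδle
  obtain ⟨C0, hC0, xC, hxC⟩ := FC_le m H' hc δ (100 * g) CF hδ0 hCF
  obtain ⟨cn, hcn, hprod⟩ := prod_none H hk1 hN
  have hgr : (1 : ℝ) ≤ g := by exact_mod_cast hg
  have hKr : (1 : ℝ) ≤ 4000 ^ m := one_le_pow₀ (by norm_num)
  refine ⟨δ, hδ0, g * cn / (2 * 4000 ^ m * C0), by positivity, H.sup id + 2 * H.card + 2, ?_⟩
  intro w hw1
  have hs : Sh2 H H' w := by
    refine ⟨hH', fun h hh => ?_, by omega⟩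
    have : id h ≤ H.sup id := Finset.le_sup hh
    simp only [id] at this
    omega
  -- the sieve for all i
  have hsv : ∀ i : Option ℕ, (∀ h, i = some h → h ∈ H') → ∃ A' x0 : ℕ, ∀ x : ℕ, x0 ≤ x → ∀ p1 : ℕ,
      p1.Prime → w < p1 → (p1 : ℝ) ≤ (x : ℝ) ^ δ → SWp A' x p1 → ∀ v : ℕ,
      (∀ h ∈ H, (v + h).Coprime (primorial w)) → ∀ wp : Par (4000 ^ m),
      Wt wp H' δ (100 * g) CF x →
      1 / 2 * (X2 i (primorial w) x * AE wp.P H' i (FC wp H') *
        ∏ q ∈ Qw w wp.W p1, (1 - rho H i q)) - x / Real.log x ^ (H.card + 2) ≤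
      ∑ n ∈ (Sq2 i (primorial w) v x).filter (fun n => ∀ q ∈ Qw w wp.W p1, ¬ evH H i q n),
        wt2 i n * FC wp H' (cfg wp.P H' i n) ∧
      ∑ n ∈ (Sq2 i (primorial w) v x).filter (fun n => ∀ q ∈ Qw w wp.W p1, ¬ evH H i q n),
        wt2 i n * FC wp H' (cfg wp.P H' i n) ≤
      2 * (X2 i (primorial w) x * AE wp.P H' i (FC wp H') *
        ∏ q ∈ Qw w wp.W p1, (1 - rho H i q)) + x / Real.log x ^ (H.card + 2) :=
    fun i hi => sieve2 hs hc i hi δ (100 * g) CF hδ0 hδ10 (H.card + 2)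
  obtain ⟨A0, y0, hy0⟩ := hsv none (fun h hh => by cases hh)
  have hsv2 : ∀ h : ℕ, ∃ A' x0 : ℕ, h ∈ H' → ∀ x : ℕ, x0 ≤ x → ∀ p1 : ℕ,
      p1.Prime → w < p1 → (p1 : ℝ) ≤ (x : ℝ) ^ δ → SWp A' x p1 → ∀ v : ℕ,
      (∀ h ∈ H, (v + h).Coprime (primorial w)) → ∀ wp : Par (4000 ^ m),
      Wt wp H' δ (100 * g) CF x →
      1 / 2 * (X2 (some h) (primorial w) x * AE wp.P H' (some h) (FC wp H') *
        ∏ q ∈ Qw w wp.W p1, (1 - rho H (some h) q)) - x / Real.log x ^ (H.card + 2) ≤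
      ∑ n ∈ (Sq2 (some h) (primorial w) v x).filter
          (fun n => ∀ q ∈ Qw w wp.W p1, ¬ evH H (some h) q n),
        wt2 (some h) n * FC wp H' (cfg wp.P H' (some h) n) := by
    intro h
    by_cases hh : h ∈ H'
    · obtain ⟨A', x0, h1⟩ := hsv (some h) (fun h' hh' => by cases hh'; exact hh)
      exact ⟨A', x0, fun _ x hx p1 a1 a2 a3 a4 v a5 wp a6 => (h1 x hx p1 a1 a2 a3 a4 v a5 wp a6).1⟩
    · exact ⟨0, 0, fun h' => absurd h' hh⟩
  choose As ys hys using hsv2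
  have hX2 : ∀ i : Option ℕ, ∃ x0 : ℕ, ∀ x : ℕ, x0 ≤ x →
    (∀ h, i = some h → 9 / 20 * ((x : ℝ) / (primorial w).totient) ≤ X2 i (primorial w) x) ∧
    (i = none → 0 ≤ X2 i (primorial w) x ∧ X2 i (primorial w) x ≤ 11 / 20 * ((x : ℝ) / primorial w)) :=
    fun i => X2_bounds w i
  choose xs hxs using hX2
  have hP0 : 0 < primorial w := primorial_pos w
  have hPr : (0 : ℝ) < primorial w := by exact_mod_cast hP0
  obtain ⟨xl, hxl⟩ := p6_large (w + 2) (max 1 ((4000 ^ m + 2 * g) * (primorial w : ℝ) / (g * cn))) δ hδ0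
    (hδle.trans (hδ1'.trans (by norm_num)))
  refine ⟨A0 + H'.sup As, xw + xC + y0 + H'.sup ys + xs none + H'.sup (fun h => xs (some h)) + xl, ?_⟩
  intro x hx p1 hp1 hwp1 hp1x hSW v hv
  obtain ⟨hx16, hxw2, hLB, hLL, hWx, hxd⟩ := hxl x (by omega)
  obtain ⟨wp, hwp⟩ := hxw x (by omega)
  have hW := hwp H' hc
  have hx16r : (16 : ℝ) ≤ x := by exact_mod_cast hx16
  have hxpos : (0 : ℝ) < x := by linarith
  have hL1 : 1 ≤ Real.log x := (le_max_left _ _).trans hLB
  have hL2 := (le_max_right _ _).trans hLB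
  have hww : w + 2 ≤ wp.W := by
    rw [hW.W]
    apply Nat.le_floor
    push_cast
    exact hWx
  have hwx : w ≤ x := by
    have : (w : ℝ) ≤ x := by linarith
    exact_mod_cast this
  have hWpx : wp.W ≤ x := by
    have h1 : (wp.W : ℝ) ≤ (x : ℝ) ^ δ := by
      rw [hW.W]; exact Nat.floor_le (Real.rpow_nonneg hxpos.le _)
    have h2 : (wp.W : ℝ) ≤ x := by linarith
    exact_mod_cast h2
  have hz := wp.z_bounds.1
  have hzK : 0 < wp.z ^ (4000 ^ m) := pow_pos (by linarith) _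
  have hFC : ∀ S, 0 ≤ FC wp H' S := fun S => div_nonneg (sq_nonneg _) hzK.le
  have hHW : ∀ h ∈ H', h ≤ wp.W := fun h hh => by
    have := hs.le h (hH' hh)
    omega
  have hSW0 : SWp A0 x p1 := H59C.SWp_mono (by omega) (by omega) hSW
  obtain ⟨V, hVe⟩ : ∃ V : ℝ, V = ∏ q ∈ Qw w wp.W p1, (1 - rho H none q) := ⟨_, rfl⟩
  have hV := hprod H' w hs wp.W p1 x (by omega) (by omega) hWpx
  rw [← hVe] at hV
  have hV0 : 0 ≤ V := by
    rw [hVe]
    refine Finset.prod_nonneg fun q hq => p6_rho H w hs.card none q ?_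
    unfold Qw at hq
    rw [mem_filter, mem_Ioc] at hq
    exact hq.1.1
  obtain ⟨GS, hGS⟩ : ∃ GS : Finset ℕ, GS = (Sq2 none (primorial w) v x).filter
    (fun n => ∀ q ∈ Qw w wp.W p1, ¬ evH H none q n) := ⟨_, rfl⟩
  have hgd := p6_gd H (primorial w) v hP0 hv
  have hgdr : (0 : ℝ) < (gd (∏ i, FH H i) (primorial w)).card := by exact_mod_cast hgd
  have hgdle : ((gd (∏ i, FH H i) (primorial w)).card : ℝ) ≤ primorial w := by
    have h1 : (gd (∏ i, FH H i) (primorial w)).card ≤ primorial w := by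
      unfold gd
      exact (Finset.card_filter_le _ _).trans (by rw [card_range])
    exact_mod_cast h1
  -- integers
  have hint := (hy0 x (by omega) p1 hp1 hwp1 hp1x hSW0 v hv wp hW).2
  have hAE := ae_none wp H' hc hHW hW.KW
  have hXn := (hxs none x (by omega)).2 rfl
  rw [← hGS, ← hVe] at hint
  have hint2 : ∑ n ∈ GS, FC wp H' (cfg wp.P H' none n) ≤
      121 / 100 * ((x : ℝ) / primorial w) * V + x / Real.log x ^ (H.card + 2) := by
    have e1 : ∑ n ∈ GS, wt2 none n * FC wp H' (cfg wp.P H' none n) =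
        ∑ n ∈ GS, FC wp H' (cfg wp.P H' none n) := by
      refine Finset.sum_congr rfl fun n _ => ?_
      show 1 * _ = _
      rw [one_mul]
    rw [e1] at hint
    refine hint.trans ?_
    have h1 : X2 none (primorial w) x * AE wp.P H' none (FC wp H') ≤
        11 / 20 * ((x : ℝ) / primorial w) * (11 / 10) :=
      mul_le_mul hXn.2 hAE.2 hAE.1 (by positivity)
    have h2 := mul_le_mul_of_nonneg_right h1 hV0
    linarith
  -- the primes
  obtain ⟨Y, hYe⟩ : ∃ Y : ℝ, Y = (1 + wp.n * wp.c) ^ 2 * Real.log wp.W := ⟨_, rfl⟩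
  have hlogW : 0 ≤ Real.log wp.W := Real.log_nonneg (by exact_mod_cast (by omega : 1 ≤ wp.W))
  have hpr : ∀ h ∈ H', 81 / 2000 * ((x : ℝ) / primorial w) * V * Y -
      x / Real.log x ^ (H.card + 2) ≤ ∑ n ∈ GS,
      (if (n + h).Prime then Real.log (2 * x) * FC wp H' (cfg wp.P H' none n) else 0) := by
    intro h hh
    have hA1 : As h ≤ H'.sup As := Finset.le_sup hh
    have hy1 : ys h ≤ H'.sup ys := Finset.le_sup hh
    have hx1 : xs (some h) ≤ H'.sup (fun h => xs (some h)) := Finset.le_sup (f := fun h => xs (some h)) hh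
    have hSWh : SWp (As h) x p1 := H59C.SWp_mono (by omega) (by omega) hSW
    have h1 := hys h hh x (by omega) p1 hp1 hwp1 hp1x hSWh v hv wp hW
    have h2 := p6_Sh hs δ (100 * g) CF x hx16 hxd hwx wp hW p1 v (primorial w) h hh
    rw [← hGS] at h2
    refine le_trans ?_ (h1.trans h2)
    have h3 := (hxs (some h) x (by omega)).1 h rfl
    have hKWr : 400 * (((4000 ^ m : ℕ) : ℕ) : ℝ) ^ 2 ≤ wp.W := by
      have := hW.KW
      have h4 : ((400 * (4000 ^ m) ^ 2 : ℕ) : ℝ) ≤ wp.W := by exact_mod_cast this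
      push_cast at h4 ⊢
      exact h4
    have h4 := ae_some wp H' hc hHW hKWr h hh hW.big
    have h5 := prod_some hs h (hH' hh) wp.W p1 (by omega) hp1 (by omega)
    rw [← hVe] at h5
    have htot : (0 : ℝ) < (primorial w).totient := by
      exact_mod_cast Nat.totient_pos.2 hP0
    have h6 : 9 / 20 * ((x : ℝ) / (primorial w).totient) * (36 / 100 * (1 + wp.n * wp.c) ^ 2) ≤
        X2 (some h) (primorial w) x * AE wp.P H' (some h) (FC wp H') :=
      mul_le_mul h3 h4 (by positivity) (le_trans (by positivity) h3)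
    have h7 : 9 / 20 * ((x : ℝ) / (primorial w).totient) * (36 / 100 * (1 + wp.n * wp.c) ^ 2) *
        (1 / 2 * ((primorial w).totient / (primorial w : ℝ)) * Real.log wp.W * V) ≤
        X2 (some h) (primorial w) x * AE wp.P H' (some h) (FC wp H') *
          ∏ q ∈ Qw w wp.W p1, (1 - rho H (some h) q) :=
      mul_le_mul h6 h5 (by positivity) (le_trans (by positivity) h6)
    have e3 : 9 / 20 * ((x : ℝ) / (primorial w).totient) * (36 / 100 * (1 + wp.n * wp.c) ^ 2) *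
        (1 / 2 * ((primorial w).totient / (primorial w : ℝ)) * Real.log wp.W * V) =
        81 / 1000 * ((x : ℝ) / primorial w) * V * Y := by
      rw [hYe]
      field_simp
      ring
    rw [e3] at h7
    linarith
  have hsum := Finset.sum_le_sum hpr
  rw [Finset.sum_const, hc, nsmul_eq_mul, Finset.sum_comm] at hsum
  have hgain := hW.gain
  have e4 : ((4000 ^ m : ℕ) : ℝ) * (1 + wp.n * wp.c) ^ 2 * Real.log wp.W = ((4000 ^ m : ℕ) : ℝ) * Y := by
    rw [hYe]; ring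
  rw [e4] at hgain
  push_cast at hgain hsum
  obtain ⟨N, hNe⟩ : ∃ N : ℕ, N = (GS.filter
      (fun n => g ≤ (H'.filter (fun h => (n + h).Prime)).card)).card := ⟨_, rfl⟩
  have hcntN := p6_count hs δ (100 * g) CF x hx16 wp hW p1 v g hv
  rw [← hGS, ← hNe] at hcntN
  have hNr : (N : ℝ) ≤ (cnt (fun n => n ≡ v [MOD primorial w] ∧
      g ≤ (H.filter (fun h => (n + h).Prime)).card ∧
      ∀ h ∈ H, ∀ q : ℕ, q.Prime → q ≠ p1 → q ∣ n + h → (x : ℝ) ^ δ < q) x : ℝ) := by
    exact_mod_cast hcntN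
  have hLL0 : 0 ≤ Real.log (2 * x) := Real.log_nonneg (by linarith)
  have hS2 : ∑ n ∈ GS, ∑ h ∈ H',
      (if (n + h).Prime then Real.log (2 * x) * FC wp H' (cfg wp.P H' none n) else 0) ≤
      Real.log (2 * x) * (((g : ℝ) - 1) * ∑ n ∈ GS, FC wp H' (cfg wp.P H' none n) +
        4000 ^ m * C0 * N) := by
    have e5 : (4000 ^ m * C0 * N : ℝ) = ∑ n ∈ GS,
        if g ≤ (H'.filter (fun h => (n + h).Prime)).card then (4000 ^ m * C0 : ℝ) else 0 := by
      rw [← Finset.sum_filter, Finset.sum_const, nsmul_eq_mul, hNe]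
      ring
    rw [e5, Finset.mul_sum, ← Finset.sum_add_distrib, Finset.mul_sum]
    refine Finset.sum_le_sum fun n hn => ?_
    have hn' : n ∈ Ioc (x / 2) x := by
      rw [hGS] at hn
      unfold Sq2 at hn
      simp only [mem_filter] at hn
      exact hn.1.1
    rw [mem_Ioc] at hn'
    obtain ⟨c0, c1⟩ := hxC x (by omega) wp hW n (by omega) hn'.2
    have e6 : ∑ h ∈ H', (if (n + h).Prime then
        Real.log (2 * x) * FC wp H' (cfg wp.P H' none n) else 0) =
        Real.log (2 * x) * (((H'.filter (fun h => (n + h).Prime)).card : ℝ) *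
          FC wp H' (cfg wp.P H' none n)) := by
      rw [← Finset.sum_filter, Finset.sum_const, nsmul_eq_mul]
      ring
    rw [e6]
    refine mul_le_mul_of_nonneg_left ?_ hLL0
    split_ifs with hgr'
    · have h1 : ((H'.filter (fun h => (n + h).Prime)).card : ℝ) ≤ 4000 ^ m := by
        have : (H'.filter (fun h => (n + h).Prime)).card ≤ 4000 ^ m := by
          rw [← hc]; exact Finset.card_filter_le _ _
        exact_mod_cast this
      have h2 : ((H'.filter (fun h => (n + h).Prime)).card : ℝ) *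
          FC wp H' (cfg wp.P H' none n) ≤ 4000 ^ m * C0 :=
        mul_le_mul h1 c1 c0 (by positivity)
      have h3 : 0 ≤ ((g : ℝ) - 1) * FC wp H' (cfg wp.P H' none n) :=
        mul_nonneg (by linarith) c0
      linarith
    · have h1 : ((H'.filter (fun h => (n + h).Prime)).card : ℝ) ≤ (g : ℝ) - 1 := by
        have : (H'.filter (fun h => (n + h).Prime)).card + 1 ≤ g := by omega
        have h2 : (((H'.filter (fun h => (n + h).Prime)).card + 1 : ℕ) : ℝ) ≤ g := by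
          exact_mod_cast this
        push_cast at h2
        linarith
      rw [add_zero]
      exact mul_le_mul_of_nonneg_right h1 c0
  have hfin := p6_final g (4000 ^ m) C0 cn (Real.log x) (Real.log (2 * x)) x (primorial w)
    ((gd (∏ i, FH H i) (primorial w)).card) V N (∑ n ∈ GS, FC wp H' (cfg wp.P H' none n))
    (∑ n ∈ GS, ∑ h ∈ H',
      (if (n + h).Prime then Real.log (2 * x) * FC wp H' (cfg wp.P H' none n) else 0))
    (x / Real.log x ^ (H.card + 2)) hgr hKr hC0 hcn hL1 hLL hLL0 hxpos hPr hgdr H.card hV.1 rfl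
    hint2 ?_ hS2 ?_ (Nat.cast_nonneg _)
  · refine hfin.trans (mul_le_mul_of_nonneg_left hNr hgdr.le)
  · refine le_trans ?_ hsum
    have hZ0 : 0 ≤ (x : ℝ) / primorial w * V := by positivity
    have h1 := mul_le_mul_of_nonneg_left hgain hZ0
    have h2 : 0 ≤ (x : ℝ) / primorial w * V * (g * Real.log x) := by positivity
    nlinarith
  · rw [div_le_iff₀ (by positivity)] at hL2
    calc (4000 ^ m + 2 * (g : ℝ)) * ((gd (∏ i, FH H i) (primorial w)).card : ℝ)
        ≤ (4000 ^ m + 2 * (g : ℝ)) * (primorial w : ℝ) :=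
          mul_le_mul_of_nonneg_left hgdle (by positivity)
      _ ≤ Real.log x * (g * cn) := hL2
      _ = g * cn * Real.log x := by ring

end Pool.Agent.Lib.H59W
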