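import Pool.Agent.Lib.H59W.ADefs
import Pool.Agent.Lib.H57C.MDefs

/-!
# Project H59W, module P (Maynard-Tao with all forms rough, in residue classes): definitions

`H`: the shifts (`#H = k`), `H' ⊆ H` with `#H' = 4000^m`: the shifts with a weight. `w` a large constant, `P = primorial w`, `W = ⌊x^δ⌋`.
`Par, FC, cfg, AE, ExJ, hdr, Fam` are those of `Lib/H57M`, `Lib/H57C`.
-/

open Finset Polynomial

namespace Pool.Agent.Lib.H59W

open Pool.Agent.Lib.H33B (Sys NoFix wF FS_D)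
open Pool.Agent.Lib.H15P Pool.Agent.Lib.H92G Pool.Agent.Lib.H57M Pool.Agent.Lib.H57C
open Pool.Agent.Lib.H59C (DD SWp)

/-- The system `X + h`, `h ∈ H`. -/
noncomputable def FH (H : Finset ℕ) : Fin H.card → ℤ[X] :=
  fun i => X + C ((H.orderEmbOfFin rfl i : ℕ) : ℤ)

/-- No `n + h` has a prime factor `≤ x^δ`, and at least `g` of them are primes. -/
def MP (H : Finset ℕ) (g : ℕ) (δ : ℝ) (x n : ℕ) : Prop :=
  (∀ h ∈ H, ∀ p : ℕ, p.Prime → p ∣ n + h → (x : ℝ) ^ δ < p) ∧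
    g ≤ (H.filter (fun h => (n + h).Prime)).card

/-- The small sifting primes. -/
def Qw (w W p1 : ℕ) : Finset ℕ := (Ioc w W).filter (fun q => q.Prime ∧ q ≠ p1)

/-- `q` divides some `n + h` (the form `n + h` is left out if `i = some h`). -/
def evH (H : Finset ℕ) (i : Option ℕ) (q n : ℕ) : Prop := ∃ h ∈ H, i ≠ some h ∧ q ∣ n + h

/-- The density of `evH` modulo `q`. -/
noncomputable def rho (H : Finset ℕ) (i : Option ℕ) (q : ℕ) : ℝ :=
  ((H.filter (fun h => i ≠ some h)).card : ℝ) * hdr i q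

open Classical in
/-- The sequence: the `n ∈ (x/2, x]` of the class `v`, with `n + h` prime if `i = some h`. -/
noncomputable def Sq2 (i : Option ℕ) (P v x : ℕ) : Finset ℕ :=
  (Ioc (x / 2) x).filter (fun n => n ≡ v [MOD P] ∧ ∀ h, i = some h → (n + h).Prime)

/-- Its weights. -/
noncomputable def wt2 (i : Option ℕ) (n : ℕ) : ℝ :=
  match i with
  | none => 1
  | some h => Real.log ((n : ℝ) + h)

/-- Its total weight. -/
noncomputable def X2 (i : Option ℕ) (P x : ℕ) : ℝ :=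
  match i with
  | none => ((x : ℝ) - (x / 2 : ℕ)) / P
  | some h => (thl 1 h x - thl 1 h (x / 2)) / (Nat.totient P : ℝ)

/-- The moduli. -/
def Mw (w p1 D : ℕ) : Finset ℕ :=
  (Icc 1 D).filter (fun m => Squarefree m ∧ ∀ q ∈ m.primeFactors, w < q ∧ q ≠ p1)

/-- The level of distribution of the sequence. -/
def Lv2 (i : Option ℕ) (w v x p1 D E : ℕ) (Err : ℝ) : Prop :=
  ∃ rr : ℕ → ℝ, (∀ m, 0 ≤ rr m) ∧
    (∀ m ∈ Mw w p1 D, ∀ c : ℕ, (∀ h, i = some h → (c + h).Coprime m) →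
      |∑ n ∈ (Sq2 i (primorial w) v x).filter (fun n => n ≡ c [MOD m]), wt2 i n -
        X2 i (primorial w) x * ∏ q ∈ m.primeFactors, hdr i q| ≤ rr m) ∧
    ∑ m ∈ Mw w p1 D, (E : ℝ) ^ m.primeFactors.card * rr m ≤ Err

/-- The shifts. -/
structure Sh2 (H H' : Finset ℕ) (w : ℕ) : Prop where
  sub : H' ⊆ H
  le : ∀ h ∈ H, h ≤ w
  card : 2 * H.card + 2 ≤ w

/-- What is known about the weight at the scale `x`. -/
structure Wt {m : ℕ} (wp : Par (4000 ^ m)) (H' : Finset ℕ) (δ G CF : ℝ) (x : ℕ) : Prop where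
  W : wp.W = ⌊(x : ℝ) ^ δ⌋₊
  small : ∀ p ∈ wp.P, (p : ℝ) ≤ (x : ℝ) ^ (1 / 100 : ℝ)
  gain : G * Real.log x ≤ (4000 ^ m : ℕ) * (1 + wp.n * wp.c) ^ 2 * Real.log wp.W
  big : (((∏ p ∈ wp.P, p : ℕ) : ℝ) / ((∏ p ∈ wp.P, p).totient : ℝ)) *
    (8 * ((4000 ^ m : ℕ) : ℝ) ^ 2 * wp.CL * wp.Dt ^ 2 / wp.W) ≤ 1 / 100
  KW : 400 * (4000 ^ m) ^ 2 ≤ wp.W
  ex : ExJ wp.P (FC wp H') CF 3 ((x : ℝ) ^ (1 / 10 : ℝ))

end Pool.Agent.Lib.H59W
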