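import Pool.Agent.Lib.H59W.T1
import Pool.Agent.Lib.H59W.T2
import Pool.Agent.Lib.H59.SchinzelUpper

/-!
# Chunk T3: the number of the `n` with `N - G(n)` prime, upper bound for almost all `N`
-/

open Finset Polynomial

namespace Pool.Agent.Lib.H59W

open Pool.Agent.Lib.H59 (argSet argCount Admissible primeCount omegaN seriesTrunc rootCount)

theorem t3_small {G : ℤ[X]} (hG : 1 ≤ G.natDegree) (N X T : ℕ) :
    ((Icc 1 X).filter (fun n : ℕ => 0 < (N : ℤ) - G.eval (n : ℤ) ∧ (N : ℤ) - G.eval (n : ℤ) ≤ T)).card ≤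
      G.natDegree * T := by
  classical
  have h := Finset.card_le_mul_card_image_of_maps_to
    (s := (Icc 1 X).filter (fun n : ℕ => 0 < (N : ℤ) - G.eval (n : ℤ) ∧ (N : ℤ) - G.eval (n : ℤ) ≤ T))
    (t := Icc 1 T) (f := fun n : ℕ => ((N : ℤ) - G.eval (n : ℤ)).toNat) (by
      intro n hn
      rw [Finset.mem_filter] at hn
      rw [Finset.mem_Icc]
      show 1 ≤ ((N : ℤ) - G.eval (n : ℤ)).toNat ∧ ((N : ℤ) - G.eval (n : ℤ)).toNat ≤ T
      omega) G.natDegree (by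
      intro b hb
      rw [Finset.mem_Icc] at hb
      refine (Finset.card_le_card ?_).trans (H59.card_value_le hG ((N : ℤ) - b) X)
      intro n hn
      rw [Finset.mem_filter, Finset.mem_filter] at hn
      rw [Finset.mem_filter]
      refine ⟨hn.1.1, ?_⟩
      have h2 := hn.1.2
      have h3 := hn.2
      omega)
  rwa [Nat.card_Icc, Nat.add_sub_cancel] at h

theorem t3_R {G : ℤ[X]} (hG : 1 ≤ G.natDegree) (N X T : ℕ) {L : ℝ} (hL0 : 0 ≤ L)
    (hL : L ≤ Real.log ((T : ℝ) + 1)) :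
    L * (cnt (PG G N) X : ℝ) ≤ ∑ n ∈ Icc 1 X, H68T.lp ((N : ℤ) - G.eval (n : ℤ)) +
      L * ((G.natDegree : ℝ) * T) := by
  classical
  have h1 : L * (cnt (PG G N) X : ℝ) = ∑ n ∈ Icc 1 X, if PG G N n then L else 0 := by
    rw [t1_cnt, ← Finset.sum_filter, Finset.sum_const, nsmul_eq_mul, mul_comm]
  have h2 : ∑ n ∈ Icc 1 X, (if 0 < (N : ℤ) - G.eval (n : ℤ) ∧ (N : ℤ) - G.eval (n : ℤ) ≤ T then L else 0) ≤
      L * ((G.natDegree : ℝ) * T) := by
    rw [← Finset.sum_filter, Finset.sum_const, nsmul_eq_mul, mul_comm]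
    apply mul_le_mul_of_nonneg_left _ hL0
    exact_mod_cast t3_small hG N X T
  rw [h1]
  refine le_trans ?_ (add_le_add (le_refl _) h2)
  rw [← Finset.sum_add_distrib]
  refine Finset.sum_le_sum fun n _ => ?_
  have hlp : 0 ≤ H68T.lp ((N : ℤ) - G.eval (n : ℤ)) := by
    unfold H68T.lp
    split_ifs with h
    · have h3 : 0 < (N : ℤ) - G.eval (n : ℤ) := by
        by_contra hcon
        rw [Int.toNat_of_nonpos (not_lt.1 hcon)] at h
        exact Nat.not_prime_zero h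
      have h4 : 1 ≤ (N : ℤ) - G.eval (n : ℤ) := h3
      exact Real.log_nonneg (by exact_mod_cast h4)
    · exact le_rfl
  by_cases hp : PG G N n
  · rw [if_pos hp]
    by_cases hs : 0 < (N : ℤ) - G.eval (n : ℤ) ∧ (N : ℤ) - G.eval (n : ℤ) ≤ T
    · rw [if_pos hs]
      linarith
    · rw [if_neg hs, add_zero]
      obtain ⟨q, hq, hqe⟩ := hp
      have h3 : ¬ (N : ℤ) - G.eval (n : ℤ) ≤ T := fun h =>
        hs ⟨by rw [hqe]; exact_mod_cast hq.pos, h⟩
      have h4 : H68T.lp ((N : ℤ) - G.eval (n : ℤ)) = Real.log q := by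
        unfold H68T.lp
        rw [hqe, Int.toNat_natCast, if_pos hq, Int.cast_natCast]
      rw [h4]
      refine hL.trans (Real.log_le_log (by positivity) ?_)
      rw [hqe] at h3
      have h5 : T + 1 ≤ q := by
        have h6 : ¬ q ≤ T := fun h => h3 (by exact_mod_cast h)
        omega
      exact_mod_cast h5
  · rw [if_neg hp]
    split_ifs
    · linarith
    · linarith

theorem t3_M (G : ℤ[X]) (N w X : ℕ) :
    ((primorial w).totient : ℝ) * ∑ n ∈ Icc 1 X, H57M.Lam w ((N : ℤ) - G.eval (n : ℤ)) ≤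
      ((gN 1 G N (primorial w)).card : ℝ) * ((X : ℝ) + primorial w) := by
  classical
  obtain ⟨P, hP⟩ : ∃ P : ℕ, P = primorial w := ⟨_, rfl⟩
  have hP0 : 0 < P := by rw [hP]; exact primorial_pos w
  have hPr : (0 : ℝ) < P := by exact_mod_cast hP0
  have hφ : (0 : ℝ) < P.totient := by exact_mod_cast Nat.totient_pos.2 hP0
  have h1 : ∑ n ∈ Icc 1 X, H57M.Lam w ((N : ℤ) - G.eval (n : ℤ)) =
      (((Icc 1 X).filter (fun n : ℕ => IsCoprime ((N : ℤ) - G.eval (n : ℤ)) (P : ℤ))).card : ℝ) *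
        ((P : ℝ) / P.totient) := by
    rw [← nsmul_eq_mul, ← Finset.sum_const, Finset.sum_filter]
    refine Finset.sum_congr rfl fun n _ => ?_
    unfold H57M.Lam
    rw [← hP]
  have h2 : ((Icc 1 X).filter (fun n : ℕ => IsCoprime ((N : ℤ) - G.eval (n : ℤ)) (P : ℤ))).card ≤
      (gN 1 G N P).card * (X / P + 1) := by
    have h3 : ((Icc 1 X).filter (fun n : ℕ => IsCoprime ((N : ℤ) - G.eval (n : ℤ)) (P : ℤ))).card ≤
        (gN 1 G N P ×ˢ range (X / P + 1)).card := by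
      refine Finset.card_le_card_of_injOn (fun n => (n % P, n / P)) ?_ ?_
      · intro n hn
        rw [Finset.mem_coe, Finset.mem_filter, Finset.mem_Icc] at hn
        rw [Finset.mem_coe, Finset.mem_product, Finset.mem_range]
        refine ⟨?_, ?_⟩
        · show n % P ∈ gN 1 G N P
          have hd : (P : ℤ) ∣ (n : ℤ) - ((n % P : ℕ) : ℤ) := by
            have h := Nat.mod_add_div n P
            exact ⟨((n / P : ℕ) : ℤ), by
              have h' : (n : ℤ) = ((n % P : ℕ) : ℤ) + (P : ℤ) * ((n / P : ℕ) : ℤ) := by exact_mod_cast h.symm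
              linear_combination h'⟩
          obtain ⟨c, hc⟩ := hd.trans (Polynomial.sub_dvd_eval_sub (n : ℤ) ((n % P : ℕ) : ℤ) G)
          have e2 : (N : ℤ) - G.eval ((n % P : ℕ) : ℤ) = (N : ℤ) - G.eval (n : ℤ) + (P : ℤ) * c := by
            linear_combination hc
          have hcop : IsCoprime ((N : ℤ) - G.eval ((n % P : ℕ) : ℤ)) (P : ℤ) := by
            rw [e2, IsCoprime.add_mul_left_left_iff]
            exact hn.2
          refine Finset.mem_filter.2 ⟨Finset.mem_filter.2 ⟨Finset.mem_range.2 (Nat.mod_lt _ hP0), ?_⟩, hcop⟩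
          rw [Polynomial.eval_one]
          exact isCoprime_one_left
        · show n / P < X / P + 1
          have := Nat.div_le_div_right (c := P) hn.1.2
          omega
      · intro a _ b _ hab
        rw [Prod.mk.injEq] at hab
        have h5 := Nat.mod_add_div a P
        have h6 := Nat.mod_add_div b P
        rw [hab.1, hab.2, h6] at h5
        exact h5.symm
    rwa [Finset.card_product, Finset.card_range] at h3
  rw [← hP, h1]
  have h3 : (((Icc 1 X).filter (fun n : ℕ => IsCoprime ((N : ℤ) - G.eval (n : ℤ)) (P : ℤ))).card : ℝ) ≤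
      ((gN 1 G N P).card : ℝ) * (((X / P : ℕ) : ℝ) + 1) := by exact_mod_cast h2
  have h4 : ((X / P : ℕ) : ℝ) * P ≤ X := by exact_mod_cast Nat.div_mul_le_self X P
  calc (P.totient : ℝ) * ((((Icc 1 X).filter (fun n : ℕ =>
        IsCoprime ((N : ℤ) - G.eval (n : ℤ)) (P : ℤ))).card : ℝ) * ((P : ℝ) / P.totient))
      = (((Icc 1 X).filter (fun n : ℕ =>
        IsCoprime ((N : ℤ) - G.eval (n : ℤ)) (P : ℤ))).card : ℝ) * P := by
        field_simp
    _ ≤ (((gN 1 G N P).card : ℝ) * (((X / P : ℕ) : ℝ) + 1)) * P :=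
        mul_le_mul_of_nonneg_right h3 hPr.le
    _ = ((gN 1 G N P).card : ℝ) * (((X / P : ℕ) : ℝ) * P + P) := by ring
    _ ≤ _ := mul_le_mul_of_nonneg_left (by linarith) (Nat.cast_nonneg _)

theorem t3_gd (P : ℕ) : (gd 1 P).card = P := by
  classical
  have h : gd 1 P = range P := by
    ext v
    constructor
    · intro hv
      exact (Finset.mem_filter.1 hv).1
    · intro hv
      refine Finset.mem_filter.2 ⟨hv, ?_⟩
      rw [Polynomial.eval_one]
      exact isCoprime_one_left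
  rw [h, Finset.card_range]

theorem t3_ev (A K' s k : ℝ) (P : ℝ) (hA : 0 < A) (hs : 0 < s) : ∃ Y0 : ℕ, ∀ Y : ℕ, Y0 ≤ Y →
    Real.log Y ^ K' ≤ (Y : ℝ) ^ (1 / A) ∧ Real.log Y * k ≤ s * (Y : ℝ) ^ (1 / (2 * A)) ∧
      P ≤ (Y : ℝ) ^ (1 / A) := by
  have hA1 : 0 < 1 / A := by positivity
  have hA2 : 0 < 1 / (2 * A) := by positivity
  have e1 : ∀ᶠ Y : ℕ in Filter.atTop, Real.log Y ^ K' ≤ (Y : ℝ) ^ (1 / A) := by
    have h := (isLittleO_log_rpow_rpow_atTop K' hA1).def zero_lt_one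
    filter_upwards [tendsto_natCast_atTop_atTop.eventually h] with Y hY
    have h2 : ‖(Y : ℝ) ^ (1 / A)‖ = (Y : ℝ) ^ (1 / A) := by
      rw [Real.norm_eq_abs, abs_of_nonneg (by positivity)]
    rw [one_mul, h2] at hY
    exact (le_abs_self _).trans hY
  have e2 : ∀ᶠ Y : ℕ in Filter.atTop, Real.log Y * k ≤ s * (Y : ℝ) ^ (1 / (2 * A)) := by
    have h := (isLittleO_log_rpow_atTop hA2).def (show (0 : ℝ) < s / (|k| + 1) by positivity)
    filter_upwards [tendsto_natCast_atTop_atTop.eventually h] with Y hY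
    have h2 : ‖(Y : ℝ) ^ (1 / (2 * A))‖ = (Y : ℝ) ^ (1 / (2 * A)) := by
      rw [Real.norm_eq_abs, abs_of_nonneg (by positivity)]
    rw [h2, Real.norm_eq_abs] at hY
    have hk : 0 < |k| + 1 := by positivity
    have hz : 0 ≤ (Y : ℝ) ^ (1 / (2 * A)) := by positivity
    calc Real.log Y * k ≤ |Real.log Y * k| := le_abs_self _
      _ = |Real.log Y| * |k| := abs_mul _ _
      _ ≤ (s / (|k| + 1) * (Y : ℝ) ^ (1 / (2 * A))) * (|k| + 1) := by
          apply mul_le_mul hY (by linarith) (abs_nonneg _) (by positivity)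
      _ = _ := by field_simp
  have e3 : ∀ᶠ Y : ℕ in Filter.atTop, P ≤ (Y : ℝ) ^ (1 / A) :=
    ((tendsto_rpow_atTop hA1).comp tendsto_natCast_atTop_atTop).eventually_ge_atTop P
  obtain ⟨Y0, h⟩ := Filter.eventually_atTop.1 (e1.and (e2.and e3))
  exact ⟨Y0, fun Y hY => h Y hY⟩

/-- Proof. Put `X₂ = argCount G Y`, `P = primorial w`. `H57M.engine_all G hG hlc` with `C = 2`, `D = 2`, `f n = 1` for all `n`, `S = 2 X₂`
(the number of the `n ≤ X₂` in a class modulo `q` is at most `X₂/q + 1 ≤ 2 X₂/q` for `q ≤ (log Y)^K' ≤ X₂`; for `q = 1` it is `X₂ ≤ S`):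
`∑_{N ≤ Y} |∑_{n ≤ X₂, G(n) < N} (lp - Lam w)(N - G(n))| ≤ ε Y S`.

For large `N ∈ (Y/2, Y]` the set `{n : 1 ≤ n ≤ X₂, G(n) < N}` is `{1, .., X(N)}`, `X(N) = argCount G N` (`H57M.argSet_eq`), so
`∑ Lam w (N - G(n)) ≤ (P/φ(P)) #gN (X(N)/P + 1) = (#gN/φ(P)) (X(N) + P) ≤ 2 (#gN/φ(P)) X(N)`. And (`C₁` from `H57M.argCount_bounds`, so
`X(N) ≥ Y^(1/C₁)`): the `n ≤ X(N)` with `N - G(n) ≤ Y^(1/(2 C₁))` are at most `Y^(1/(2C₁)) + n₀` (for `n ≥ n₀` the values `G(n)` are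
distinct), and for the others `log (N - G(n)) ≥ log Y/(2 C₁)`. So
`log Y · cnt (PG G N) X(N) ≤ 2 C₁ ∑ lp(N - G(n)) + log Y (Y^(1/(2 C₁)) + n₀)`.
With `B = 8 C₁ + 2`: if `B X(N) #gN < φ(P) log Y cnt` and `#gN ≥ σ0 φ(P)` (`Local 1 G`, `#gd 1 P = P`: `P #gN ≥ σ0 φ(P) P`), then
`∑ lp - ∑ Lam ≥ c σ0 X(N) ≥ c' σ0 X₂` for large `Y`, which happens for at most `(η/4) Y` of the `N`, if `ε` is small; the other `N`
(those with `0 < #gN < σ0 φ(P)`) are rare by `H57M.local_avg ∅ G hG` (see chunk T2, `local_one`, which may be imported). -/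
theorem block_up (G : ℤ[X]) (hG : 1 ≤ G.natDegree) (hlc : 0 < G.leadingCoeff) :
    ∃ B : ℝ, 0 < B ∧ ∀ η : ℝ, 0 < η → ∃ w0 : ℕ, ∀ w : ℕ, w0 ≤ w → ∃ Y0 : ℕ, ∀ Y : ℕ, Y0 ≤ Y →
      (bcnt (fun N : ℕ => 0 < (gN 1 G N (primorial w)).card ∧
        B * ((argCount G N : ℝ) * (gN 1 G N (primorial w)).card) <
        ((primorial w).totient : ℝ) * (Real.log Y * (cnt (PG G N) (argCount G N) : ℝ))) Y : ℝ) ≤
        η * Y := by
  classical
  obtain ⟨Y1, hset⟩ := H57M.argSet_eq G hG hlc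
  obtain ⟨A, Y2, hA, hbd⟩ := H57M.argCount_bounds G hG hlc
  have hA0 : 0 < A := by linarith
  obtain ⟨K', hK'⟩ := H57M.engine_all G hG hlc 1 1 le_rfl le_rfl
  refine ⟨4 * A + 2, by positivity, fun η hη => ?_⟩
  obtain ⟨σ0, hσ0, hloc⟩ := local_one G hG (η / 4) (by linarith)
  obtain ⟨we, hwe⟩ := hK' (η * σ0 / (8 * A ^ 2)) (by positivity)
  refine ⟨we, fun w hw => ?_⟩
  obtain ⟨Ye, hYe⟩ := hwe w hw
  obtain ⟨P, hPdef⟩ : ∃ P : ℕ, P = primorial w := ⟨_, rfl⟩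
  have hP0 : 0 < P := by rw [hPdef]; exact primorial_pos w
  have hPr : (0 : ℝ) < P := by exact_mod_cast hP0
  have hφ : (0 : ℝ) < P.totient := by exact_mod_cast Nat.totient_pos.2 hP0
  have hMge : ∀ N X : ℕ, (P.totient : ℝ) * ∑ n ∈ Icc 1 X, H57M.Lam w ((N : ℤ) - G.eval (n : ℤ)) ≤
      ((gN 1 G N P).card : ℝ) * ((X : ℝ) + P) := by
    intro N X
    rw [hPdef]
    exact t3_M G N w X
  rw [← hPdef]
  have hlocw := hloc w
  rw [← hPdef] at hlocw
  obtain ⟨Y3, h3⟩ := t3_ev A K' σ0 G.natDegree P hA0 hσ0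
  refine ⟨max (max (max Ye (2 * Y1 + 2)) Y2) (max (max Y3 P) 3), fun Y hY => ?_⟩
  have hYa : Ye ≤ Y := le_trans (((le_max_left _ _).trans (le_max_left _ _)).trans (le_max_left _ _)) hY
  have hYb : 2 * Y1 + 2 ≤ Y := le_trans (((le_max_right _ _).trans (le_max_left _ _)).trans (le_max_left _ _)) hY
  have hYc : Y2 ≤ Y := le_trans ((le_max_right _ _).trans (le_max_left _ _)) hY
  have hYd : Y3 ≤ Y := le_trans (((le_max_left _ _).trans (le_max_left _ _)).trans (le_max_right _ _)) hY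
  have hYP : P ≤ Y := le_trans (((le_max_right _ _).trans (le_max_left _ _)).trans (le_max_right _ _)) hY
  have hY3 : 3 ≤ Y := le_trans ((le_max_right _ _).trans (le_max_right _ _)) hY
  have hY1 : Y1 ≤ Y / 2 := by omega
  have hmono : ∀ N N' : ℕ, Y1 ≤ N → N ≤ N' → argCount G N ≤ argCount G N' := by
    intro N N' hN hNN'
    rcases Nat.eq_zero_or_pos (argCount G N) with h0 | h0
    · omega
    · have h3 := (hset N hN (argCount G N)).2 ⟨h0, le_refl _⟩
      have h4 : argCount G N ∈ argSet G N' := by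
        refine ⟨h3.1, ?_⟩
        have h5 := h3.2
        have : (N : ℤ) ≤ N' := by exact_mod_cast hNN'
        linarith
      exact ((hset N' (hN.trans hNN') _).1 h4).2
  obtain ⟨b1, -, -, b4⟩ := hbd Y hYc
  obtain ⟨e1, e2, e3⟩ := h3 Y hYd
  obtain ⟨x, hx⟩ : ∃ x : ℕ, x = argCount G (Y / 2) := ⟨_, rfl⟩
  rw [← hx] at b1 b4
  obtain ⟨Z, hZ⟩ : ∃ Z : ℕ, Z = argCount G Y := ⟨_, rfl⟩
  rw [← hZ] at b1
  have hxZ : x ≤ Z := by rw [hx, hZ]; exact hmono _ _ hY1 (Nat.div_le_self _ _)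
  have hxZr : (x : ℝ) ≤ Z := by exact_mod_cast hxZ
  have hPx : (P : ℝ) ≤ x := e3.trans b4
  have hx0 : (0 : ℝ) < x := by linarith
  have hKx : Real.log Y ^ K' ≤ (x : ℝ) := e1.trans b4
  have hY3r : (3 : ℝ) ≤ Y := by exact_mod_cast hY3
  have hY0 : (0 : ℝ) < Y := by linarith
  have hly1 : 1 ≤ Real.log Y := by
    rw [Real.le_log_iff_exp_le hY0]
    linarith [Real.exp_one_lt_d9]
  obtain ⟨ly, hly⟩ : ∃ ly : ℝ, ly = Real.log Y := ⟨_, rfl⟩
  -- the engine
  have hEng := hYe Y hYa (fun _ => 1) (2 * Z) (fun _ => zero_le_one) (fun _ => by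
      rw [Real.rpow_one]
      exact hly1) (by
      rw [Real.rpow_one, ← hZ]
      have h1 : (0 : ℝ) ≤ Z := Nat.cast_nonneg _
      nlinarith) (by
      intro q b hq hqb
      rw [← hZ, Finset.sum_const, nsmul_eq_mul, mul_one, one_pow, one_mul]
      refine H33B.LS3_card Z q b (Nat.pos_of_ne_zero hq.ne_zero) ?_
      have h1 : (q : ℝ) ≤ Z := hqb.trans (hKx.trans hxZr)
      exact_mod_cast h1)
  rw [← hZ] at hEng
  rw [← hly] at hly1 e2 ⊢
  have hly0 : 0 < ly := by linarith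
  -- the small ones
  obtain ⟨T, hT⟩ : ∃ T : ℕ, T = ⌊(Y : ℝ) ^ (1 / (2 * A))⌋₊ := ⟨_, rfl⟩
  have hTle : (T : ℝ) ≤ (Y : ℝ) ^ (1 / (2 * A)) := by
    rw [hT]
    exact Nat.floor_le (by positivity)
  have hTlt : (Y : ℝ) ^ (1 / (2 * A)) < (T : ℝ) + 1 := by
    rw [hT]
    exact Nat.lt_floor_add_one _
  have hsq : (Y : ℝ) ^ (1 / (2 * A)) * (Y : ℝ) ^ (1 / (2 * A)) = (Y : ℝ) ^ (1 / A) := by
    rw [← Real.rpow_add hY0]
    congr 1
    field_simp
    ring
  have hL : ly / (2 * A) ≤ Real.log ((T : ℝ) + 1) := by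
    have h1 : Real.log ((Y : ℝ) ^ (1 / (2 * A))) = ly / (2 * A) := by
      rw [Real.log_rpow hY0, ← hly]
      ring
    rw [← h1]
    exact Real.log_le_log (by positivity) hTlt.le
  have hsm : ly * ((G.natDegree : ℝ) * T) ≤ σ0 * x := by
    have h0 : (0 : ℝ) ≤ (Y : ℝ) ^ (1 / (2 * A)) := by positivity
    calc ly * ((G.natDegree : ℝ) * T) = (ly * G.natDegree) * T := by ring
      _ ≤ (ly * G.natDegree) * (Y : ℝ) ^ (1 / (2 * A)) := mul_le_mul_of_nonneg_left hTle (by positivity)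
      _ ≤ (σ0 * (Y : ℝ) ^ (1 / (2 * A))) * (Y : ℝ) ^ (1 / (2 * A)) := mul_le_mul_of_nonneg_right e2 h0
      _ = σ0 * (Y : ℝ) ^ (1 / A) := by rw [mul_assoc, hsq]
      _ ≤ σ0 * x := mul_le_mul_of_nonneg_left b4 hσ0.le
  -- notation
  obtain ⟨R, hR⟩ : ∃ R : ℕ → ℝ, ∀ N, R N = ∑ n ∈ Icc 1 (argCount G N), H68T.lp ((N : ℤ) - G.eval (n : ℤ)) :=
    ⟨_, fun N => rfl⟩
  obtain ⟨M, hM⟩ : ∃ M : ℕ → ℝ, ∀ N, M N = ∑ n ∈ Icc 1 (argCount G N), H57M.Lam w ((N : ℤ) - G.eval (n : ℤ)) :=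
    ⟨_, fun N => rfl⟩
  have hdiff : ∀ N ∈ Ioc (Y / 2) Y,
      ∑ n ∈ (Icc 1 Z).filter (fun n : ℕ => G.eval (n : ℤ) < N),
          (1 : ℝ) * (H68T.lp ((N : ℤ) - G.eval (n : ℤ)) - H57M.Lam w ((N : ℤ) - G.eval (n : ℤ))) =
        R N - M N := by
    intro N hN
    rw [Finset.mem_Ioc] at hN
    have hN1 : Y1 ≤ N := by omega
    have e : (Icc 1 Z).filter (fun n : ℕ => G.eval (n : ℤ) < N) = Icc 1 (argCount G N) := by
      ext n
      rw [Finset.mem_filter, Finset.mem_Icc, Finset.mem_Icc]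
      constructor
      · rintro ⟨⟨h1, h2⟩, h3⟩
        exact (hset N hN1 n).1 ⟨h1, by linarith⟩
      · rintro ⟨h1, h2⟩
        have h3 := ((hset N hN1 n).2 ⟨h1, h2⟩).2
        refine ⟨⟨h1, h2.trans ?_⟩, by linarith⟩
        rw [hZ]
        exact hmono _ _ hN1 hN.2
    rw [e, hR, hM, ← Finset.sum_sub_distrib]
    exact Finset.sum_congr rfl fun n _ => one_mul _
  obtain ⟨Q, hQ⟩ : ∃ Q : ℕ → Prop, ∀ N, Q N ↔ (0 < (gN 1 G N P).card ∧
      (P : ℝ) * (gN 1 G N P).card < σ0 * (P.totient * (gd 1 P).card)) := ⟨_, fun N => Iff.rfl⟩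
  have hQP : (cnt Q P : ℝ) ≤ η / 4 * P := by
    have h1 : cnt Q P = cnt (fun N => 0 < (gN 1 G N P).card ∧
        (P : ℝ) * (gN 1 G N P).card < σ0 * (P.totient * (gd 1 P).card)) P := by
      exact congrArg (fun q => cnt q P) (funext fun N => propext (hQ N))
    rw [h1]
    exact hlocw
  obtain ⟨B1, hB1⟩ : ∃ B1 : Finset ℕ, B1 = (Icc 1 Y).filter Q := ⟨_, rfl⟩
  obtain ⟨B2, hB2⟩ : ∃ B2 : Finset ℕ, B2 = (Ioc (Y / 2) Y).filter (fun N => σ0 * x / (2 * A) ≤ |R N - M N|) := ⟨_, rfl⟩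
  have hc1 : (B1.card : ℝ) ≤ η / 2 * Y := by
    have h1 : (B1.card : ℝ) ≤ cnt Q P * ((Y / P : ℕ) + 1) := by
      rw [hB1]
      exact_mod_cast t1_count P Y hP0 Q (fun N N' h => by
        rw [hQ, hQ, t1_gN_mod 1 G h])
    have h2 : ((Y / P : ℕ) : ℝ) * P ≤ Y := by
      exact_mod_cast Nat.div_mul_le_self Y P
    have h3 : (P : ℝ) ≤ Y := by exact_mod_cast hYP
    calc (B1.card : ℝ) ≤ cnt Q P * ((Y / P : ℕ) + 1) := h1
      _ ≤ (η / 4 * P) * ((Y / P : ℕ) + 1) :=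
          mul_le_mul_of_nonneg_right hQP (by positivity)
      _ = η / 4 * (((Y / P : ℕ) : ℝ) * P + P) := by ring
      _ ≤ η / 4 * (Y + Y) := by
          apply mul_le_mul_of_nonneg_left (by linarith) (by linarith)
      _ = η / 2 * Y := by ring
  have hc2 : (B2.card : ℝ) ≤ η / 2 * Y := by
    have h1 : (B2.card : ℝ) * (σ0 * x / (2 * A)) ≤ η * σ0 / (8 * A ^ 2) * Y * (2 * Z) := by
      calc (B2.card : ℝ) * (σ0 * x / (2 * A)) = ∑ N ∈ B2, σ0 * x / (2 * A) := by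
            rw [Finset.sum_const, nsmul_eq_mul]
        _ ≤ ∑ N ∈ B2, |R N - M N| := Finset.sum_le_sum fun N hN => by
            rw [hB2] at hN
            exact (Finset.mem_filter.1 hN).2
        _ = ∑ N ∈ B2, |∑ n ∈ (Icc 1 Z).filter (fun n : ℕ => G.eval (n : ℤ) < N),
              (1 : ℝ) * (H68T.lp ((N : ℤ) - G.eval (n : ℤ)) - H57M.Lam w ((N : ℤ) - G.eval (n : ℤ)))| := by
            refine Finset.sum_congr rfl fun N hN => ?_
            rw [hB2] at hN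
            rw [hdiff N (Finset.mem_filter.1 hN).1]
        _ ≤ ∑ N ∈ Icc 1 Y, |∑ n ∈ (Icc 1 Z).filter (fun n : ℕ => G.eval (n : ℤ) < N),
              (1 : ℝ) * (H68T.lp ((N : ℤ) - G.eval (n : ℤ)) - H57M.Lam w ((N : ℤ) - G.eval (n : ℤ)))| := by
            refine Finset.sum_le_sum_of_subset_of_nonneg ?_ fun _ _ _ => abs_nonneg _
            intro N hN
            rw [hB2] at hN
            have := Finset.mem_Ioc.1 (Finset.mem_filter.1 hN).1
            exact Finset.mem_Icc.2 ⟨by omega, this.2⟩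
        _ ≤ _ := hEng
    have h2 : η * σ0 / (8 * A ^ 2) * Y * (2 * Z) ≤ (η / 2 * Y) * (σ0 * x / (2 * A)) := by
      calc η * σ0 / (8 * A ^ 2) * Y * (2 * Z) ≤ η * σ0 / (8 * A ^ 2) * Y * (2 * (A * x)) := by gcongr
        _ = _ := by
          field_simp
          ring
    exact le_of_mul_le_mul_right (h1.trans h2) (by positivity)
  have hsub : ∀ N ∈ Ioc (Y / 2) Y, (0 < (gN 1 G N P).card ∧
      (4 * A + 2) * ((argCount G N : ℝ) * (gN 1 G N P).card) <
        (P.totient : ℝ) * (ly * (cnt (PG G N) (argCount G N) : ℝ))) → N ∈ B1 ∪ B2 := by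
    intro N hN1 hN2
    have hN1' := Finset.mem_Ioc.1 hN1
    rw [Finset.mem_union]
    by_cases hq : Q N
    · left
      rw [hB1]
      exact Finset.mem_filter.2 ⟨Finset.mem_Icc.2 ⟨by omega, hN1'.2⟩, hq⟩
    · right
      rw [hB2]
      refine Finset.mem_filter.2 ⟨hN1, ?_⟩
      have hge : σ0 * P.totient ≤ ((gN 1 G N P).card : ℝ) := by
        have h1 : σ0 * (P.totient * (gd 1 P).card) ≤ (P : ℝ) * (gN 1 G N P).card := by
          by_contra hlt
          exact hq ((hQ N).2 ⟨hN2.1, not_le.1 hlt⟩)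
        rw [t3_gd] at h1
        have h2 : (P : ℝ) * (σ0 * P.totient) ≤ (P : ℝ) * (gN 1 G N P).card := by linarith
        exact le_of_mul_le_mul_left h2 hPr
      have hm := hMge N (argCount G N)
      rw [← hM] at hm
      have hr := t3_R hG N (argCount G N) T (L := ly / (2 * A)) (by positivity) hL
      rw [← hR] at hr
      have hxX : (x : ℝ) ≤ (argCount G N : ℝ) := by
        have h1 : x ≤ argCount G N := by
          rw [hx]
          exact hmono _ _ hY1 hN1'.1.le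
        exact_mod_cast h1
      have hlt := hN2.2
      obtain ⟨a, ha⟩ : ∃ a : ℝ, a = ((gN 1 G N P).card : ℝ) := ⟨_, rfl⟩
      obtain ⟨X, hX⟩ : ∃ X : ℝ, X = (argCount G N : ℝ) := ⟨_, rfl⟩
      obtain ⟨k, hk⟩ : ∃ k : ℝ, k = (cnt (PG G N) (argCount G N) : ℝ) := ⟨_, rfl⟩
      obtain ⟨φ, hφd⟩ : ∃ φ : ℝ, φ = (P.totient : ℝ) := ⟨_, rfl⟩
      obtain ⟨u, hu⟩ : ∃ u : ℝ, u = (G.natDegree : ℝ) * T := ⟨_, rfl⟩
      rw [← ha] at hge hm hlt
      rw [← hX] at hm hxX hlt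
      rw [← hk] at hr hlt
      rw [← hφd] at hge hm hlt hφ
      rw [← hu] at hr hsm
      have ha0 : 0 < a := lt_of_lt_of_le (mul_pos hσ0 hφ) hge
      have h1 : ly * k ≤ 2 * A * R N + ly * u := by
        have h2 := mul_le_mul_of_nonneg_left hr (show (0 : ℝ) ≤ 2 * A by positivity)
        have h3 : 2 * A * (ly / (2 * A) * k) = ly * k := by field_simp
        have h4 : 2 * A * (R N + ly / (2 * A) * u) = 2 * A * R N + ly * u := by field_simp
        rw [h3, h4] at h2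
        exact h2
      have h2 : φ * (ly * k) ≤ φ * (2 * A * R N + σ0 * x) :=
        mul_le_mul_of_nonneg_left (by linarith) hφ.le
      have h3 : φ * M N ≤ a * (2 * X) := hm.trans (mul_le_mul_of_nonneg_left (by linarith) ha0.le)
      have h4 : (σ0 * φ) * x ≤ a * X := mul_le_mul hge hxX hx0.le ha0.le
      have h5 : φ * (σ0 * x) ≤ φ * (2 * A * (R N - M N)) := by
        have h6 : 2 * A * (φ * M N) ≤ 2 * A * (a * (2 * X)) := mul_le_mul_of_nonneg_left h3 (by positivity)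
        nlinarith
      have h6 : σ0 * x ≤ 2 * A * (R N - M N) := le_of_mul_le_mul_left h5 hφ
      have h7 : σ0 * x / (2 * A) ≤ R N - M N := by
        rw [div_le_iff₀ (by positivity)]
        linarith
      exact h7.trans (le_abs_self _)
  have h6 : (bcnt (fun N : ℕ => 0 < (gN 1 G N P).card ∧
      (4 * A + 2) * ((argCount G N : ℝ) * (gN 1 G N P).card) <
        (P.totient : ℝ) * (ly * (cnt (PG G N) (argCount G N) : ℝ))) Y : ℝ) ≤ B1.card + B2.card := by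
    have h7 : (bcnt (fun N : ℕ => 0 < (gN 1 G N P).card ∧
      (4 * A + 2) * ((argCount G N : ℝ) * (gN 1 G N P).card) <
        (P.totient : ℝ) * (ly * (cnt (PG G N) (argCount G N) : ℝ))) Y) ≤ (B1 ∪ B2).card := by
      exact t1_bcnt_le _ _ _ fun N hN1 hN2 => hsub N hN1 hN2
    exact_mod_cast h7.trans (Finset.card_union_le _ _)
  refine h6.trans ?_
  linarith

end Pool.Agent.Lib.H59W
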