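import Pool.Agent.Lib.H59W.FinB

/-!
# Chunk U1: the singular series cut off anywhere between `z₀` and `X^(1/3)`
-/

open Finset Polynomial Filter Topology

namespace Pool.Agent.Lib.H59W

open Pool.Agent.Lib.H59 (argSet argCount Admissible primeCount omegaN seriesTrunc rootCount)
open Pool.Agent.Lib.H33B (Sys NoFix wF FS_D)

theorem U1_inv_sq (T : Finset ℕ) (w : ℕ) (hw : 1 ≤ w) (hT : ∀ p ∈ T, w ≤ p) :
    ∑ p ∈ T, ((p : ℝ) ^ 2)⁻¹ ≤ 2 / w := by
  obtain ⟨n, hn⟩ : ∃ n, ∀ p ∈ T, p < n := ⟨T.sup id + 1, fun p hp =>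
    Nat.lt_succ_of_le (le_sup (f := id) hp)⟩
  have h2 : ∑ p ∈ T, ((p : ℝ) ^ 2)⁻¹ ≤ 2 / (((w - 1 : ℕ) : ℝ) + 1) := by
    refine le_trans ?_ (sum_Ioo_inv_sq_le (w - 1) n)
    refine sum_le_sum_of_subset_of_nonneg (fun p hp => ?_) fun p _ _ => by positivity
    rw [mem_Ioo]
    have := hT p hp
    exact ⟨by omega, hn p hp⟩
  have h3 : ((w - 1 : ℕ) : ℝ) + 1 = w := by
    rw [Nat.cast_sub hw]
    push_cast
    ring
  rwa [h3] at h2

/-- second moment of a sum of periodic functions of mean zero -/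
theorem U1_sec (D : ℝ) (hD : 0 ≤ D) (x : ℕ → ℕ → ℝ) (T : Finset ℕ) (w z Y : ℕ) (hw : 1 ≤ w)
    (hT : ∀ p ∈ T, p.Prime ∧ w ≤ p ∧ p < z) (hper : ∀ p N, x p (N % p) = x p N)
    (hx : ∀ p ∈ T, ∀ N, |x p N| ≤ D / p) (hm : ∀ p ∈ T, ∑ N ∈ range p, x p N = 0) :
    ∑ N ∈ Icc 1 Y, (∑ p ∈ T, x p N) ^ 2 ≤ D ^ 2 * (2 / w * Y + z ^ 2) := by
  have h1 : ∑ N ∈ Icc 1 Y, (∑ p ∈ T, x p N) ^ 2 =
      ∑ p ∈ T, ∑ q ∈ T, ∑ N ∈ Icc 1 Y, x p N * x q N := by
    simp only [sq, sum_mul_sum]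
    rw [sum_comm]
    refine sum_congr rfl fun p _ => ?_
    rw [sum_comm]
  have h2 : ∀ p ∈ T, ∑ N ∈ Icc 1 Y, x p N * x p N ≤ D ^ 2 * Y * ((p : ℝ) ^ 2)⁻¹ := by
    intro p hp
    have hp0 : (0 : ℝ) < p := by exact_mod_cast (hT p hp).1.pos
    calc ∑ N ∈ Icc 1 Y, x p N * x p N ≤ ∑ _N ∈ Icc 1 Y, (D / p) ^ 2 := by
          refine sum_le_sum fun N _ => ?_
          rw [← sq, ← sq_abs]
          exact pow_le_pow_left₀ (abs_nonneg _) (hx p hp N) 2
      _ = D ^ 2 * Y * ((p : ℝ) ^ 2)⁻¹ := by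
          rw [sum_const, Nat.card_Icc, nsmul_eq_mul, Nat.add_sub_cancel]
          field_simp
  have h3 : ∀ p ∈ T, ∀ q ∈ T, p ≠ q → ∑ N ∈ Icc 1 Y, x p N * x q N ≤ D ^ 2 := by
    intro p hp q hq hpq
    have hpp := (hT p hp).1
    have hqp := (hT q hq).1
    have hp0 : (0 : ℝ) < p := by exact_mod_cast hpp.pos
    have hq0 : (0 : ℝ) < q := by exact_mod_cast hqp.pos
    have hcop : p.Coprime q := (Nat.coprime_primes hpp hqp).2 hpq
    have hf : ∀ N, (fun N => x p N * x q N) (N % (p * q)) = (fun N => x p N * x q N) N := by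
      intro N
      simp only
      rw [← hper p (N % (p * q)), ← hper q (N % (p * q)), Nat.mod_mul_right_mod,
        Nat.mod_mul_left_mod, hper, hper]
    have hB : ∀ N, |(fun N => x p N * x q N) N| ≤ D ^ 2 / (p * q) := by
      intro N
      simp only [abs_mul]
      calc |x p N| * |x q N| ≤ (D / p) * (D / q) :=
            mul_le_mul (hx p hp N) (hx q hq N) (abs_nonneg _) (by positivity)
        _ = D ^ 2 / (p * q) := by ring
    have h4 := Pool.Agent.Lib.H33B.window (p * q) 1 0 0 Y (Nat.mul_pos hpp.pos hqp.pos)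
      (one_dvd _) (fun N => x p N * x q N) (D ^ 2 / (p * q)) hf hB
    have h5 : ∑ N ∈ range (p * q), x p N * x q N = 0 := by
      rw [Pool.Agent.Lib.H33B.SR2_crt2 hcop hpp.pos hqp.pos (x p) (x q) (hper p) (hper q),
        hm p hp, zero_mul]
    have h6 : ∀ s : Finset ℕ, s.filter (fun N => N ≡ 0 [MOD 1]) = s := fun s =>
      filter_true_of_mem fun N _ => Nat.modEq_one
    rw [h6, h6, h5, mul_zero, sub_zero, zero_add] at h4
    have h7 : Ioc 0 Y = Icc 1 Y := by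
      ext N
      simp only [mem_Ioc, mem_Icc]
      omega
    rw [h7] at h4
    refine (le_abs_self _).trans (h4.trans (le_of_eq ?_))
    push_cast
    field_simp
  have h4 : ∀ p ∈ T, ∑ q ∈ T, ∑ N ∈ Icc 1 Y, x p N * x q N ≤
      D ^ 2 * Y * ((p : ℝ) ^ 2)⁻¹ + D ^ 2 * z := by
    intro p hp
    rw [← add_sum_erase T _ hp]
    refine add_le_add (h2 p hp) ?_
    calc ∑ q ∈ T.erase p, ∑ N ∈ Icc 1 Y, x p N * x q N ≤ ∑ _q ∈ T.erase p, D ^ 2 := by
          refine sum_le_sum fun q hq => ?_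
          rw [mem_erase] at hq
          exact h3 p hp q hq.2 (Ne.symm hq.1)
      _ = (T.erase p).card * D ^ 2 := by rw [sum_const, nsmul_eq_mul]
      _ ≤ z * D ^ 2 := by
          refine mul_le_mul_of_nonneg_right ?_ (sq_nonneg D)
          have h5 : T.erase p ⊆ range z := fun q hq => mem_range.2 (hT q (mem_of_mem_erase hq)).2.2
          exact_mod_cast (card_le_card h5).trans (by rw [card_range])
      _ = D ^ 2 * z := mul_comm _ _
  have h5 : (T.card : ℝ) ≤ z := by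
    have h5 : T ⊆ range z := fun q hq => mem_range.2 (hT q hq).2.2
    exact_mod_cast (card_le_card h5).trans (by rw [card_range])
  have h6 := U1_inv_sq T w hw fun p hp => (hT p hp).2.1
  rw [h1]
  refine (sum_le_sum h4).trans ?_
  rw [sum_add_distrib, ← mul_sum, sum_const, nsmul_eq_mul]
  have hY0 : (0 : ℝ) ≤ Y := Nat.cast_nonneg _
  have hz0 : (0 : ℝ) ≤ z := Nat.cast_nonneg _
  calc D ^ 2 * Y * ∑ p ∈ T, ((p : ℝ) ^ 2)⁻¹ + T.card * (D ^ 2 * z) ≤
      D ^ 2 * Y * (2 / w) + z * (D ^ 2 * z) :=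
        add_le_add (mul_le_mul_of_nonneg_left h6 (by positivity))
          (mul_le_mul_of_nonneg_right h5 (by positivity))
    _ = D ^ 2 * (2 / w * Y + z ^ 2) := by ring

/-- `X(Y) ≤ 2 Y` -/
theorem U1_argCount (G : ℤ[X]) (hG : 1 ≤ G.natDegree) (hlc : 0 < G.leadingCoeff) :
    ∃ Y₀ : ℕ, ∀ Y : ℕ, Y₀ ≤ Y → 1 ≤ argCount G Y ∧ (argCount G Y : ℝ) ≤ 2 * Y := by
  have h1 := Pool.Agent.Lib.H33B.argCount_pow G hG hlc
  have h2 : ((G.leadingCoeff : ℝ)⁻¹) < 2 := by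
    have h3 : (1 : ℝ) ≤ G.leadingCoeff := by exact_mod_cast hlc
    have := inv_le_one_of_one_le₀ h3
    linarith
  have ht := Pool.Agent.Lib.H59.argCount_tendsto hG hlc
  obtain ⟨Y₀, hY₀⟩ := eventually_atTop.1 ((h1.eventually_lt_const h2).and
    (ht.eventually_ge_atTop 1))
  refine ⟨max Y₀ 1, fun Y hY => ?_⟩
  obtain ⟨h3, h4⟩ := hY₀ Y ((le_max_left _ _).trans hY)
  refine ⟨h4, ?_⟩
  have hY0 : (0 : ℝ) < Y := by exact_mod_cast (le_max_right _ _).trans hY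
  rw [div_lt_iff₀ hY0] at h3
  refine le_trans ?_ h3.le
  calc (argCount G Y : ℝ) = (argCount G Y : ℝ) ^ 1 := (pow_one _).symm
    _ ≤ _ := pow_le_pow_right₀ (by exact_mod_cast h4) hG

/-- the normalised deviation of `ω_N(p)` from its mean -/
noncomputable def U1_x {g : ℕ} (F : Fin g → ℤ[X]) (G : ℤ[X]) (p N : ℕ) : ℝ :=
  ((omegaN F G N p : ℝ) - wF F p - 1 + (wF F p : ℝ) / p) / p

theorem U1_factor {g : ℕ} (F : Fin g → ℤ[X]) (G : ℤ[X]) (p N : ℕ) (hp : p.Prime) (D : ℝ)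
    (hD : (wF F p : ℝ) ≤ D) :
    (1 - (omegaN F G N p : ℝ) / p) * ((1 - 1 / (p : ℝ)) ^ (g + 1))⁻¹ ≤
      Real.exp (-U1_x F G p N - ((wF F p : ℝ) - g) / p + (2 * (g + 1) + D) * ((p : ℝ) ^ 2)⁻¹) := by
  have hp0 : (0 : ℝ) < p := by exact_mod_cast hp.pos
  have hp2 : (2 : ℝ) ≤ p := by exact_mod_cast hp.two_le
  have ht : 1 / (p : ℝ) ≤ 1 / 2 := one_div_le_one_div_of_le two_pos hp2
  have ht0 : 0 ≤ 1 / (p : ℝ) := by positivity
  have h1 : 1 - (omegaN F G N p : ℝ) / p ≤ Real.exp (-((omegaN F G N p : ℝ) / p)) := by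
    have := Real.add_one_le_exp (-((omegaN F G N p : ℝ) / p))
    linarith
  have h2 : ((1 - 1 / (p : ℝ)) ^ (g + 1))⁻¹ ≤
      Real.exp ((g + 1) * (1 / (p : ℝ) + 2 * (1 / (p : ℝ)) ^ 2)) := by
    have h3 := (abs_le.1 (Pool.Agent.Lib.H33B.CV4_log ht0 ht)).1
    have h4 : 0 < 1 - 1 / (p : ℝ) := by linarith
    rw [← inv_pow]
    have h5 : (1 - 1 / (p : ℝ))⁻¹ ≤ Real.exp (1 / (p : ℝ) + 2 * (1 / (p : ℝ)) ^ 2) := by
      rw [← Real.exp_log (inv_pos.2 h4), Real.log_inv]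
      exact Real.exp_le_exp.2 (by linarith)
    refine (pow_le_pow_left₀ (inv_nonneg.2 h4.le) h5 _).trans (le_of_eq ?_)
    rw [← Real.exp_nat_mul]
    push_cast
    ring_nf
  have h3 : 0 ≤ ((1 - 1 / (p : ℝ)) ^ (g + 1))⁻¹ :=
    inv_nonneg.2 (pow_nonneg (by linarith) _)
  refine (mul_le_mul h1 h2 h3 (Real.exp_pos _).le).trans ?_
  rw [← Real.exp_add]
  refine Real.exp_le_exp.2 ?_
  unfold U1_x
  have h6 : (wF F p : ℝ) * ((p : ℝ) ^ 2)⁻¹ ≤ D * ((p : ℝ) ^ 2)⁻¹ :=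
    mul_le_mul_of_nonneg_right hD (by positivity)
  have h7 : -((omegaN F G N p : ℝ) / p) + (g + 1) * (1 / (p : ℝ) + 2 * (1 / (p : ℝ)) ^ 2) =
      -(((omegaN F G N p : ℝ) - wF F p - 1 + (wF F p : ℝ) / p) / p) - ((wF F p : ℝ) - g) / p +
        (2 * (g + 1) * ((p : ℝ) ^ 2)⁻¹ + (wF F p : ℝ) * ((p : ℝ) ^ 2)⁻¹) := by
    field_simp
    ring
  rw [h7]
  linarith

/-- The singular series is not much larger if it is cut off later, for almost all `N`. -/
theorem series_upper {g : ℕ} (F : Fin g → ℤ[X]) (hF : Sys F) (G : ℤ[X]) (hG : 1 ≤ G.natDegree)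
    (hlc : 0 < G.leadingCoeff) : ∃ C : ℝ, 0 < C ∧ ∀ ε : ℝ, 0 < ε → ∃ w₀ Y₀ : ℕ,
    ∀ w z Y : ℕ, w₀ ≤ w → w ≤ z → Y₀ ≤ Y → z ^ 3 ≤ argCount G Y →
    (cnt (fun N => C * seriesTrunc F G N w < seriesTrunc F G N z) Y : ℝ) ≤ ε * Y := by
  classical
  obtain ⟨D, B, hDB⟩ := Pool.Agent.Lib.H33B.SR2_omega_le F hF G hG hlc
  obtain ⟨K, hK⟩ := Pool.Agent.Lib.H33B.sum_bdd F hF
  obtain ⟨Y₀, hY₀⟩ := U1_argCount G hG hlc
  refine ⟨Real.exp (1 + 2 * K + (2 * (g + 1) + D) * 2), Real.exp_pos _, fun ε hε => ?_⟩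
  refine ⟨max (max B 1) ⌈((D : ℝ) + 1) ^ 2 * 4 / ε⌉₊, Y₀, fun w z Y hw hwz hY hz => ?_⟩
  have hwB : B ≤ w := (le_max_left _ _).trans ((le_max_left _ _).trans hw)
  have hw1 : 1 ≤ w := (le_max_right _ _).trans ((le_max_left _ _).trans hw)
  have hw2 : ((D : ℝ) + 1) ^ 2 * 4 / ε ≤ w := (Nat.le_ceil _).trans (by
    exact_mod_cast (le_max_right _ _).trans hw)
  have hw0 : (0 : ℝ) < w := by exact_mod_cast hw1
  set T := (Nat.primesBelow z).filter (fun p => w ≤ p) with hT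
  have hTm : ∀ p ∈ T, p.Prime ∧ w ≤ p ∧ p < z := by
    intro p hp
    rw [hT, mem_filter, Nat.mem_primesBelow] at hp
    exact ⟨hp.1.2, hp.2, hp.1.1⟩
  have hwFp : ∀ p : ℕ, wF F p ≤ p := fun p => by
    unfold Pool.Agent.Lib.H33B.wF Pool.Agent.Lib.H59.rootCount
    exact (card_filter_le _ _).trans (by rw [card_range])
  have hsec := U1_sec (D + 1) (by positivity) (U1_x F G) T w z Y hw1 hTm
    (fun p N => by
      unfold U1_x
      rw [Pool.Agent.Lib.H33B.SR1_omega F G (N % p) N p (Nat.mod_modEq N p)])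
    (fun p hp N => by
      have hp0 : (0 : ℝ) < p := by exact_mod_cast (hTm p hp).1.pos
      unfold U1_x
      rw [abs_div, abs_of_pos hp0]
      refine div_le_div_of_nonneg_right ?_ hp0.le
      obtain ⟨h1, h2⟩ := hDB p (hTm p hp).1 (hwB.trans (hTm p hp).2.1)
      have h3 : (wF F p : ℝ) ≤ D := by exact_mod_cast h1
      have h4 : (omegaN F G N p : ℝ) ≤ D := by exact_mod_cast h2 N
      have h5 : (wF F p : ℝ) / p ≤ 1 := by
        rw [div_le_one hp0]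
        exact_mod_cast hwFp p
      have h6 : 0 ≤ (wF F p : ℝ) / p := by positivity
      have h7 : (0 : ℝ) ≤ wF F p := Nat.cast_nonneg _
      have h8 : (0 : ℝ) ≤ omegaN F G N p := Nat.cast_nonneg _
      rw [abs_le]
      constructor <;> linarith)
    (fun p hp => by
      have hp0 : (0 : ℝ) < p := by exact_mod_cast (hTm p hp).1.pos
      unfold U1_x
      rw [← sum_div, sum_add_distrib, sum_sub_distrib, sum_sub_distrib,
        Pool.Agent.Lib.H33B.SR2_mean F G p (hTm p hp).1, sum_const, sum_const, sum_const,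
        card_range, nsmul_eq_mul, nsmul_eq_mul, nsmul_eq_mul]
      field_simp
      ring)
  have hfac0 : ∀ p : ℕ, p.Prime → ∀ N,
      0 ≤ (1 - (omegaN F G N p : ℝ) / p) * ((1 - 1 / (p : ℝ)) ^ (g + 1))⁻¹ := by
    intro p hp N
    have hp0 : (0 : ℝ) < p := by exact_mod_cast hp.pos
    have h1 : (omegaN F G N p : ℝ) / p ≤ 1 := by
      rw [div_le_one hp0]
      unfold Pool.Agent.Lib.H59.omegaN
      exact_mod_cast (card_filter_le _ _).trans (by rw [card_range])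
    have h2 : 1 / (p : ℝ) ≤ 1 := by
      rw [div_le_one hp0]
      exact_mod_cast hp.one_le
    exact mul_nonneg (by linarith) (inv_nonneg.2 (pow_nonneg (by linarith) _))
  have hsplit : ∀ N, seriesTrunc F G N z = seriesTrunc F G N w *
      ∏ p ∈ T, ((1 - (omegaN F G N p : ℝ) / p) * ((1 - 1 / (p : ℝ)) ^ (g + 1))⁻¹) := by
    intro N
    unfold Pool.Agent.Lib.H59.seriesTrunc
    have h1 : (Nat.primesBelow z).filter (fun p => ¬ w ≤ p) = Nat.primesBelow w := by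
      ext p
      simp only [mem_filter, Nat.mem_primesBelow]
      constructor
      · rintro ⟨⟨_, h2⟩, h3⟩
        exact ⟨by omega, h2⟩
      · rintro ⟨h2, h3⟩
        exact ⟨⟨by omega, h3⟩, by omega⟩
    rw [← h1, mul_comm, prod_filter_mul_prod_filter_not]
  have hsumF : -∑ p ∈ T, ((wF F p : ℝ) - g) / p ≤ 2 * K := by
    have h1 := (abs_le.1 (hK z)).1
    have h2 := (abs_le.1 (hK w)).2
    have h3 : ∑ p ∈ Nat.primesBelow z, ((wF F p : ℝ) - g) / p =
        ∑ p ∈ T, ((wF F p : ℝ) - g) / p + ∑ p ∈ Nat.primesBelow w, ((wF F p : ℝ) - g) / p := by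
      have h1 : (Nat.primesBelow z).filter (fun p => ¬ w ≤ p) = Nat.primesBelow w := by
        ext p
        simp only [mem_filter, Nat.mem_primesBelow]
        constructor
        · rintro ⟨⟨_, h2⟩, h3⟩
          exact ⟨by omega, h2⟩
        · rintro ⟨h2, h3⟩
          exact ⟨⟨by omega, h3⟩, by omega⟩
      rw [← h1, sum_filter_add_sum_filter_not]
    linarith
  have hbad : ∀ N, Real.exp (1 + 2 * K + (2 * (g + 1) + D) * 2) * seriesTrunc F G N w <
      seriesTrunc F G N z → 1 ≤ (∑ p ∈ T, U1_x F G p N) ^ 2 := by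
    intro N hN
    by_contra hcon
    push Not at hcon
    have h1 : |∑ p ∈ T, U1_x F G p N| < 1 := by
      rw [← sq_abs, sq_lt_one_iff₀ (abs_nonneg _)] at hcon
      exact hcon
    have h2 : ∏ p ∈ T, ((1 - (omegaN F G N p : ℝ) / p) * ((1 - 1 / (p : ℝ)) ^ (g + 1))⁻¹) ≤
        Real.exp (1 + 2 * K + (2 * (g + 1) + D) * 2) := by
      calc _ ≤ ∏ p ∈ T, Real.exp (-U1_x F G p N - ((wF F p : ℝ) - g) / p +
              (2 * (g + 1) + D) * ((p : ℝ) ^ 2)⁻¹) :=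
            prod_le_prod (fun p hp => hfac0 p (hTm p hp).1 N) fun p hp =>
              U1_factor F G p N (hTm p hp).1 D
                (by exact_mod_cast (hDB p (hTm p hp).1 (hwB.trans (hTm p hp).2.1)).1)
        _ = Real.exp (∑ p ∈ T, (-U1_x F G p N - ((wF F p : ℝ) - g) / p +
              (2 * (g + 1) + D) * ((p : ℝ) ^ 2)⁻¹)) := (Real.exp_sum _ _).symm
        _ ≤ _ := by
            refine Real.exp_le_exp.2 ?_
            rw [sum_add_distrib, sum_sub_distrib, sum_neg_distrib, ← mul_sum]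
            have h3 := U1_inv_sq T w hw1 fun p hp => (hTm p hp).2.1
            have h4 : 2 / (w : ℝ) ≤ 2 := by
              rw [div_le_iff₀ hw0]
              have : (1 : ℝ) ≤ w := by exact_mod_cast hw1
              linarith
            have h5 : (2 * ((g : ℝ) + 1) + D) * ∑ p ∈ T, ((p : ℝ) ^ 2)⁻¹ ≤
                (2 * ((g : ℝ) + 1) + D) * 2 :=
              mul_le_mul_of_nonneg_left (h3.trans h4) (by positivity)
            have h6 := (abs_lt.1 h1).1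
            linarith
    rw [hsplit N] at hN
    have h3 : 0 ≤ seriesTrunc F G N w :=
      prod_nonneg fun p hp => hfac0 p (Nat.mem_primesBelow.1 hp).2 N
    have h4 := mul_le_mul_of_nonneg_left h2 h3
    linarith
  unfold cnt
  calc _ = ∑ _N ∈ (Icc 1 Y).filter (fun N =>
        Real.exp (1 + 2 * K + (2 * (g + 1) + D) * 2) * seriesTrunc F G N w <
        seriesTrunc F G N z), (1 : ℝ) := by
        rw [sum_const, nsmul_eq_mul, mul_one]
    _ ≤ ∑ N ∈ (Icc 1 Y).filter (fun N =>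
        Real.exp (1 + 2 * K + (2 * (g + 1) + D) * 2) * seriesTrunc F G N w <
        seriesTrunc F G N z), (∑ p ∈ T, U1_x F G p N) ^ 2 :=
        sum_le_sum fun N hN => hbad N (mem_filter.1 hN).2
    _ ≤ ∑ N ∈ Icc 1 Y, (∑ p ∈ T, U1_x F G p N) ^ 2 :=
        sum_le_sum_of_subset_of_nonneg (filter_subset _ _) fun _ _ _ => sq_nonneg _
    _ ≤ ((D : ℝ) + 1) ^ 2 * (2 / w * Y + z ^ 2) := hsec
    _ ≤ ((D : ℝ) + 1) ^ 2 * (4 / w * Y) := by
        refine mul_le_mul_of_nonneg_left ?_ (sq_nonneg _)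
        have h1 := (hY₀ Y hY).2
        have h2 : (z : ℝ) ^ 3 ≤ 2 * Y := le_trans (by exact_mod_cast hz) h1
        have h3 : (w : ℝ) ≤ z := by exact_mod_cast hwz
        have h4 : (z : ℝ) ^ 2 ≤ 2 / w * Y := by
          rw [div_mul_eq_mul_div, le_div_iff₀ hw0]
          calc (z : ℝ) ^ 2 * w ≤ (z : ℝ) ^ 2 * z := mul_le_mul_of_nonneg_left h3 (sq_nonneg _)
            _ = (z : ℝ) ^ 3 := by ring
            _ ≤ 2 * Y := h2
        have h5 : 4 / (w : ℝ) * Y = 2 / w * Y + 2 / w * Y := by ring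
        linarith
    _ = (((D : ℝ) + 1) ^ 2 * 4 / w) * Y := by ring
    _ ≤ ε * Y := by
        refine mul_le_mul_of_nonneg_right ?_ (Nat.cast_nonneg _)
        rw [div_le_iff₀ hw0]
        rw [div_le_iff₀ hε] at hw2
        linarith

/-- two exceptional sets -/
theorem U1_or (P Q R : ℕ → Prop) (Y : ℕ) (h : ∀ N, P N → Q N ∨ R N) :
    cnt P Y ≤ cnt Q Y + cnt R Y := by
  classical
  unfold cnt
  refine le_trans ?_ (card_union_le _ _)
  refine card_le_card fun N hN => ?_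
  rw [mem_filter] at hN
  rw [mem_union, mem_filter, mem_filter]
  rcases h N hN.2 with h1 | h1
  · exact Or.inl ⟨hN.1, h1⟩
  · exact Or.inr ⟨hN.1, h1⟩

/-- From a fixed `z` to all `z` up to `X^(1/3)`. -/
theorem range_z {g : ℕ} (F : Fin g → ℤ[X]) (hF : Sys F) (G : ℤ[X]) (hG : 1 ≤ G.natDegree)
    (hlc : 0 < G.leadingCoeff) (a : ℕ → ℝ)
    (h : ∃ c' : ℝ, 0 < c' ∧ ∀ ε : ℝ, 0 < ε → ∃ z0 : ℕ, ∀ z : ℕ, z0 ≤ z → ∃ Y0 : ℕ, ∀ Y : ℕ,
      Y0 ≤ Y → (cnt (fun N => Admissible F G N ∧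
        a N < c' * (H33B.mainT F G N * seriesTrunc F G N z)) Y : ℝ) ≤ ε * Y) :
    ∃ c' : ℝ, 0 < c' ∧ ∀ ε : ℝ, 0 < ε → ∃ z0 Y0 : ℕ, ∀ z Y : ℕ, z0 ≤ z → Y0 ≤ Y →
      z ^ 3 ≤ argCount G Y → (cnt (fun N => Admissible F G N ∧
        a N < c' * (H33B.mainT F G N * seriesTrunc F G N z)) Y : ℝ) ≤ ε * Y := by
  obtain ⟨c, hc, h1⟩ := h
  obtain ⟨C, hC, h2⟩ := series_upper F hF G hG hlc
  refine ⟨c / C, by positivity, fun ε hε => ?_⟩
  obtain ⟨z0, h3⟩ := h1 (ε / 2) (by positivity)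
  obtain ⟨w0, Y1, h4⟩ := h2 (ε / 2) (by positivity)
  obtain ⟨Y0, h5⟩ := h3 (max z0 w0) (le_max_left _ _)
  refine ⟨max z0 w0, max Y0 Y1, fun z Y hz hY hzX => ?_⟩
  have h6 := h5 Y ((le_max_left _ _).trans hY)
  have h7 := h4 (max z0 w0) z Y (le_max_right _ _) hz ((le_max_right _ _).trans hY) hzX
  have h8 := U1_or (fun N => Admissible F G N ∧
      a N < c / C * (H33B.mainT F G N * seriesTrunc F G N z))
    (fun N => Admissible F G N ∧
        a N < c * (H33B.mainT F G N * seriesTrunc F G N (max z0 w0)))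
    (fun N => C * seriesTrunc F G N (max z0 w0) < seriesTrunc F G N z) Y (fun N hN => by
      by_cases h9 : C * seriesTrunc F G N (max z0 w0) < seriesTrunc F G N z
      · exact Or.inr h9
      · refine Or.inl ⟨hN.1, lt_of_lt_of_le hN.2 ?_⟩
        push Not at h9
        have h10 : 0 ≤ H33B.mainT F G N := by
          unfold Pool.Agent.Lib.H33B.mainT
          have h1 : 0 ≤ Real.log (argCount G N) := Real.log_natCast_nonneg _
          positivity
        have h11 : c / C * (H33B.mainT F G N * seriesTrunc F G N z) ≤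
            c / C * (H33B.mainT F G N * (C * seriesTrunc F G N (max z0 w0))) :=
          mul_le_mul_of_nonneg_left (mul_le_mul_of_nonneg_left h9 h10) (by positivity)
        refine h11.trans (le_of_eq ?_)
        field_simp)
  have h9 : (cnt (fun N => Admissible F G N ∧
      a N < c / C * (H33B.mainT F G N * seriesTrunc F G N z)) Y : ℝ) ≤
      cnt (fun N => Admissible F G N ∧
        a N < c * (H33B.mainT F G N * seriesTrunc F G N (max z0 w0))) Y +
      cnt (fun N => C * seriesTrunc F G N (max z0 w0) < seriesTrunc F G N z) Y := by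
    exact_mod_cast h8
  linarith

end Pool.Agent.Lib.H59W
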