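import Pool.Agent.Lib.H59W.Defs

/-!
# Chunk W1: patterns at nearby points and scales
-/

open Finset

namespace Pool.Agent.Lib.H59W

theorem w1_rough {T T' : ℝ} (h : T' ≤ T) {m : ℕ} (hm : Rough T m) : Rough T' m := by
  rcases hm with h1 | h1
  · exact Or.inl h1
  · exact Or.inr (lt_of_le_of_lt h h1)

theorem w1_core {J : ℕ} (β : Fin J → ℝ) (ε Λ : ℝ) (hC : H92G.Conf J β ε Λ) (k : ℕ) (P B : ℝ)
    (hP : 0 ≤ P) (hB : 0 ≤ B) (L L' T T' : ℝ) (n0 n : ℕ) (hΛ : 0 ≤ Λ)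
    (hL0 : 4 * (P + Λ * B) / ε + B + 4 * (Λ * B) / ε ≤ L)
    (hLL : |L - L'| ≤ B) (hT : T' ≤ T) (h0n : n0 ≤ n) (hn : (n : ℝ) ≤ n0 + P)
    (hp : Pat (fun j => β j + ε / 4) (ε / 2) (Λ + ε) k T' L' n0) : Pat β ε Λ k T L n := by
  have hε := hC.e0
  have hLL' := abs_le.mp hLL
  have hΛB : 0 ≤ Λ * B := mul_nonneg hΛ hB
  have e1 : 0 ≤ 4 * (P + Λ * B) / ε := by positivity
  have e2 : 0 ≤ 4 * (Λ * B) / ε := by positivity
  have hL : 0 ≤ L := by linarith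
  have hL' : 0 ≤ L' := by linarith [hLL'.1, hLL'.2]
  have hA : P + Λ * B ≤ ε / 4 * L' := by
    have h1 : 4 * (P + Λ * B) / ε ≤ L' := by linarith [hLL'.1, hLL'.2]
    rw [div_le_iff₀ hε] at h1
    linarith
  have hBL : Λ * B ≤ ε / 4 * L := by
    have h1 : 4 * (Λ * B) / ε ≤ L := by linarith
    rw [div_le_iff₀ hε] at h1
    linarith
  have hb0 : ∀ j, 0 ≤ β j := hC.b0
  have hbL : ∀ j, β j + ε ≤ Λ := hC.bL
  have h0n' : (n0 : ℝ) ≤ n := by exact_mod_cast h0n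
  -- interval inclusion
  have hin1 : ∀ j, (n : ℝ) + β j * L ≤ n0 + (β j + ε / 4) * L' := by
    intro j
    have h1 : β j * L ≤ β j * (L' + B) := mul_le_mul_of_nonneg_left (by linarith [hLL'.2]) (hb0 j)
    have h2 : β j * B ≤ Λ * B := mul_le_mul_of_nonneg_right (by linarith [hbL j]) hB
    nlinarith
  have hin2 : ∀ j, (n0 : ℝ) + (β j + ε / 4 + ε / 2) * L' ≤ n + (β j + ε) * L := by
    intro j
    have h3 : 0 ≤ β j + ε / 4 + ε / 2 := by linarith [hb0 j]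
    have h1 : (β j + ε / 4 + ε / 2) * L' ≤ (β j + ε / 4 + ε / 2) * (L + B) :=
      mul_le_mul_of_nonneg_left (by linarith [hLL'.1]) h3
    have h2 : (β j + ε / 4 + ε / 2) * B ≤ Λ * B := mul_le_mul_of_nonneg_right (by linarith [hbL j]) hB
    nlinarith
  have hwin : (n : ℝ) + Λ * L ≤ n0 + (Λ + ε) * L' := by
    have h1 : Λ * L ≤ Λ * (L' + B) := mul_le_mul_of_nonneg_left (by linarith [hLL'.2]) hΛ
    have h2 : 0 ≤ ε * L' := by positivity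
    nlinarith
  -- the cover at n0 transported
  have hcov : ∀ m : ℕ, n0 < m → (m : ℝ) ≤ n0 + (Λ + ε) * L' → Rough T' m →
      ∃ j, ((n0 : ℝ) + (β j + ε / 4) * L' < m ∧ (m : ℝ) ≤ n0 + (β j + ε / 4 + ε / 2) * L') ∧
        ((n : ℝ) + β j * L < m ∧ (m : ℝ) ≤ n + (β j + ε) * L) := by
    intro m h1 h2 h3
    obtain ⟨j, h4, h5⟩ := hp.cover m h1 h2 h3
    exact ⟨j, ⟨h4, h5⟩, lt_of_le_of_lt (hin1 j) h4, le_trans h5 (hin2 j)⟩
  have huniq : ∀ i j (m : ℕ), (n : ℝ) + β i * L < m → (m : ℝ) ≤ n + (β i + ε) * L →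
      (n : ℝ) + β j * L < m → (m : ℝ) ≤ n + (β j + ε) * L → i = j := by
    intro i j m h1 h2 h3 h4
    rcases lt_trichotomy i j with h | h | h
    · exfalso
      have h5 := mul_le_mul_of_nonneg_right (hC.sep i j h) hL
      linarith
    · exact h
    · exfalso
      have h5 := mul_le_mul_of_nonneg_right (hC.sep j i h) hL
      linarith
  have hbw : ∀ j (m : ℕ), (n : ℝ) + β j * L < m → (m : ℝ) ≤ n + (β j + ε) * L →
      n0 < m ∧ (m : ℝ) ≤ n0 + (Λ + ε) * L' := by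
    intro j m h1 h2
    constructor
    · have h3 : 0 ≤ β j * L := mul_nonneg (hb0 j) hL
      have h4 : (n0 : ℝ) < m := by linarith
      exact_mod_cast h4
    · have h3 : (β j + ε) * L ≤ Λ * L := mul_le_mul_of_nonneg_right (hbL j) hL
      linarith
  refine ⟨?_, ?_, ?_⟩
  · intro m h1 h2 h3
    obtain ⟨j, -, h4⟩ := hcov m (lt_of_le_of_lt h0n h1) (le_trans h2 hwin) (w1_rough hT h3)
    exact ⟨j, h4⟩
  · intro j m m' h1 h2 h3 h4 h5 h6
    obtain ⟨ha, hb⟩ := hbw j m h3 h4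
    obtain ⟨hc, hd⟩ := hbw j m' h5 h6
    obtain ⟨i, hi1, hi2⟩ := hcov m ha hb (w1_rough hT h1)
    obtain ⟨i', hi1', hi2'⟩ := hcov m' hc hd (w1_rough hT h2)
    have e1 := huniq i j m hi2.1 hi2.2 h3 h4
    have e2 := huniq i' j m' hi2'.1 hi2'.2 h5 h6
    subst e1
    subst e2
    exact hp.one _ m m' (w1_rough hT h1) (w1_rough hT h2) hi1.1 hi1.2 hi1'.1 hi1'.2
  · refine le_trans hp.many (card_le_card ?_)
    intro m hm
    rw [mem_filter, mem_Ioc] at hm ⊢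
    obtain ⟨⟨h1, h2⟩, h3⟩ := hm
    have h4 : (m : ℝ) ≤ n0 + (Λ + ε) * L' := by
      have h5 : ((⌊(Λ + ε) * L'⌋₊ : ℕ) : ℝ) ≤ (Λ + ε) * L' := Nat.floor_le (by positivity)
      have h6 : (m : ℝ) ≤ n0 + (⌊(Λ + ε) * L'⌋₊ : ℕ) := by exact_mod_cast h2
      linarith
    obtain ⟨j, -, h5, h6⟩ := hcov m h1 h4 (Or.inl h3)
    have h7 : 0 ≤ β j * L := mul_nonneg (hb0 j) hL
    have h8 : (n : ℝ) < m := by linarith
    have h8' : n < m := by exact_mod_cast h8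
    refine ⟨⟨h8', ?_⟩, h3⟩
    have h9 : (β j + ε) * L ≤ Λ * L := mul_le_mul_of_nonneg_right (hbL j) hL
    have h10 : ((m - n : ℕ) : ℝ) ≤ Λ * L := by
      rw [Nat.cast_sub h8'.le]
      linarith
    have h11 := Nat.le_floor h10
    omega

/-- Proof. `L0` such that `(ε/4) L' ≥ P + |Λ| B` etc. for `L ≥ L0` (`L' ≥ L - B`). `cover`: let `n < m ≤ n + Λ L`, `m` rough (level
`T ≥ T'`, so level `T'`); then `n0 < m ≤ n0 + P + Λ L ≤ n0 + (Λ + ε) L'`, so `m` is in the interval of some `j` of the pattern at `n0`: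
`n0 + (β_j + ε/4) L' < m ≤ n0 + (β_j + 3 ε/4) L'`; now `n + β_j L ≤ n0 + P + β_j L' + β_j B ≤ n0 + (β_j + ε/4) L' < m` and
`m ≤ n0 + (β_j + 3ε/4) L' ≤ n + (β_j + ε) L` (`0 ≤ β_j ≤ Λ`). `one`: two rough numbers `m, m'` of the interval `j` (at `n, L`) are in the window at `n0`
(`n0 < m ≤ n0 + (Λ + ε) L'`), so in intervals `i, i'` of the pattern at `n0`, which are contained in the intervals `i, i'` at `n, L`; these are disjoint
for different indices (`Conf.sep`), so `i = i' = j`, and `m = m'` by `one` at `n0`. `many`: all primes of `(n0, n0 + ⌊(Λ + ε) L'⌋]` are in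
intervals of the pattern at `n0`, hence in `(n, n + Λ L]`. -/
theorem pat_perturb {J : ℕ} (β : Fin J → ℝ) (ε Λ : ℝ) (hC : H92G.Conf J β ε Λ) (k : ℕ) (P B : ℝ)
    (hP : 0 ≤ P) (hB : 0 ≤ B) : ∃ L0 : ℝ, ∀ (L L' T T' : ℝ) (n0 n : ℕ), L0 ≤ L → |L - L'| ≤ B →
      T' ≤ T → n0 ≤ n → (n : ℝ) ≤ n0 + P →
      Pat (fun j => β j + ε / 4) (ε / 2) (Λ + ε) k T' L' n0 → Pat β ε Λ k T L n := by
  refine ⟨4 * (P + Λ * B) / ε + B + 4 * (Λ * B) / ε, ?_⟩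
  intro L L' T T' n0 n h1 h2 h3 h4 h5 hp
  refine w1_core β ε Λ hC k P B hP hB L L' T T' n0 n ?_ h1 h2 h3 h4 h5 hp
  -- there is a prime in the window, so `J ≥ 1`
  have hne : ((Ioc n0 (n0 + ⌊(Λ + ε) * L'⌋₊)).filter Nat.Prime).Nonempty := by
    rw [← card_pos]
    have := hp.many
    omega
  obtain ⟨m, hm⟩ := hne
  rw [mem_filter, mem_Ioc] at hm
  obtain ⟨⟨ha, hb⟩, hc⟩ := hm
  have hf : 0 < ⌊(Λ + ε) * L'⌋₊ := by omega
  have hd : (m : ℝ) ≤ n0 + (Λ + ε) * L' := by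
    have h5 : ((⌊(Λ + ε) * L'⌋₊ : ℕ) : ℝ) ≤ (Λ + ε) * L' := Nat.floor_le (by
      by_contra hneg
      push Not at hneg
      rw [Nat.floor_of_nonpos hneg.le] at hf
      exact absurd hf (lt_irrefl 0))
    have h6 : (m : ℝ) ≤ n0 + (⌊(Λ + ε) * L'⌋₊ : ℕ) := by exact_mod_cast hb
    linarith
  obtain ⟨j, -, -⟩ := hp.cover m ha hd (Or.inl hc)
  have := hC.b0 j
  have := hC.bL j
  have := hC.e0
  linarith

end Pool.Agent.Lib.H59W
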