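import Pool.Agent.Lib.H59W.Defs

/-!
# Chunk W3: sums of `Q_1(N)` over tuples
-/

open Finset Polynomial

namespace Pool.Agent.Lib.H59W

open Pool.Agent.Lib.H59 (argSet argCount Admissible primeCount omegaN seriesTrunc rootCount)

theorem w3_eval {g : ℕ} (a : ℕ) (h : Fin g → ℕ) (i : Fin g) (n : ℤ) :
    (lin a h i).eval n = a * n + h i := by
  simp [lin]

theorem w3_prime_iff {g : ℕ} (a : ℕ) (h : Fin g → ℕ) (i : Fin g) (n : ℕ) :
    (∃ q : ℕ, q.Prime ∧ (lin a h i).eval (n : ℤ) = q) ↔ (a * n + h i).Prime := by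
  rw [w3_eval]
  constructor
  · rintro ⟨q, hq, e⟩
    have e' : a * n + h i = q := by exact_mod_cast e
    rw [e']
    exact hq
  · intro hp
    exact ⟨_, hp, by push_cast; ring⟩

open Classical in
theorem w3_primeCount {g : ℕ} (a : ℕ) (h : Fin g → ℕ) (G : ℤ[X]) (N x : ℕ)
    (hx : ∀ n : ℕ, n ∈ argSet G N ↔ 1 ≤ n ∧ n ≤ x) :
    primeCount (lin a h) G N =
      ((Icc 1 x).filter (fun n => (∀ i, (a * n + h i).Prime) ∧ PG G N n)).card := by
  unfold primeCount
  rw [← Set.ncard_coe_finset]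
  congr 1
  ext n
  simp only [Set.mem_setOf_eq, coe_filter, mem_Icc, hx n, w3_prime_iff, PG]

theorem w3_exists {g L a n : ℕ} (hg : g ≤ ((Ioc (a * n) (a * n + L)).filter Nat.Prime).card) :
    ∃ h ∈ Tup g L, ∀ i, (a * n + h i).Prime := by
  classical
  obtain ⟨T, hT, hc⟩ := exists_subset_card_eq hg
  have hmem : ∀ i, T.orderEmbOfFin hc i ∈ (Ioc (a * n) (a * n + L)).filter Nat.Prime :=
    fun i => hT (orderEmbOfFin_mem T hc i)
  refine ⟨fun i => T.orderEmbOfFin hc i - a * n, ?_, ?_⟩
  · unfold Tup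
    rw [mem_filter, Fintype.mem_piFinset]
    constructor
    · intro i
      have := hmem i
      rw [mem_filter, mem_Ioc] at this
      rw [mem_range]
      omega
    · intro i j hij
      have h1 := hmem i
      have h2 := hmem j
      rw [mem_filter, mem_Ioc] at h1 h2
      have h3 : T.orderEmbOfFin hc i < T.orderEmbOfFin hc j := (T.orderEmbOfFin hc).strictMono hij
      show T.orderEmbOfFin hc i - a * n < T.orderEmbOfFin hc j - a * n
      omega
  · intro i
    have := hmem i
    rw [mem_filter, mem_Ioc] at this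
    have e : a * n + (T.orderEmbOfFin hc i - a * n) = T.orderEmbOfFin hc i := by omega
    show (a * n + (T.orderEmbOfFin hc i - a * n)).Prime
    rw [e]
    exact this.2

open Classical in
theorem w3_cnt_le (A : ℕ → Prop) (x : ℕ) (S : Finset ℕ) (h : ∀ n, 1 ≤ n → n ≤ x → A n → n ∈ S) :
    cnt A x ≤ S.card := by
  unfold cnt
  refine card_le_card ?_
  intro n hn
  rw [mem_filter, mem_Icc] at hn
  exact h n hn.1.1 hn.1.2 hn.2

/-- Proof. Every `n` of the left hand side has `g` primes `p_1 < ⋯ < p_g` in `(a n, a n + L]` (`Finset.exists_subset_card_eq`,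
`Finset.orderEmbOfFin`); `h_i = p_i - a n` is a tuple in `Tup g L` with all `a n + h_i` prime, so `(h, n)` is counted by
`∑_h primeCount (lin a h) G N`. Different `n` give different pairs `(h, n)`: the left hand side is at most the number of the pairs `(h, n)`
with `h ∈ Tup g L`, `n` in the set of `primeCount (lin a h) G N` (a finite set, contained in `argSet G N = {1, .., x}`). -/
theorem tuple_sum (G : ℤ[X]) (a g L N x : ℕ) (hx : ∀ n : ℕ, n ∈ argSet G N ↔ 1 ≤ n ∧ n ≤ x) :
    cnt (fun n => g ≤ ((Ioc (a * n) (a * n + L)).filter Nat.Prime).card ∧ PG G N n) x ≤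
      ∑ h ∈ Tup g L, primeCount (lin a h) G N := by
  classical
  rw [sum_congr rfl (fun h _ => w3_primeCount a h G N x hx)]
  refine le_trans ?_ card_biUnion_le
  refine w3_cnt_le _ x _ ?_
  intro n h1 h2 hn
  obtain ⟨h, hh, hp⟩ := w3_exists hn.1
  rw [mem_biUnion]
  refine ⟨h, hh, ?_⟩
  rw [mem_filter, mem_Icc]
  exact ⟨⟨h1, h2⟩, hp, hn.2⟩

theorem w3_rootCount {f : ℤ[X]} {p : ℕ} (hp : p.Prime) (hf : f.map (Int.castRingHom (ZMod p)) ≠ 0) :
    rootCount f p ≤ f.natDegree := by
  classical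
  have : Fact p.Prime := ⟨hp⟩
  set g := f.map (Int.castRingHom (ZMod p)) with hg
  have h1 : rootCount f p ≤ g.roots.toFinset.card := by
    unfold rootCount
    refine Finset.card_le_card_of_injOn (fun a : ℕ => (a : ZMod p)) ?_ ?_
    · intro a ha
      rw [Finset.mem_coe, Finset.mem_filter] at ha
      rw [Finset.mem_coe, Multiset.mem_toFinset, mem_roots hf, IsRoot.def, hg]
      have h2 : ((f.eval (a : ℤ) : ℤ) : ZMod p) = 0 :=
        (ZMod.intCast_zmod_eq_zero_iff_dvd _ _).mpr ha.2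
      have h3 := eval_intCast_map (Int.castRingHom (ZMod p)) f (a : ℤ)
      simp only [Int.cast_natCast, eq_intCast] at h3
      rw [h3]
      exact h2
    · intro a ha b hb hab
      rw [Finset.mem_coe, Finset.mem_filter, Finset.mem_range] at ha hb
      have := (ZMod.natCast_eq_natCast_iff' a b p).mp hab
      rwa [Nat.mod_eq_of_lt ha.1, Nat.mod_eq_of_lt hb.1] at this
  refine h1.trans ((Multiset.toFinset_card_le _).trans ((card_roots' g).trans ?_))
  rw [hg]
  exact natDegree_map_le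

theorem w3_lin_rc {g : ℕ} (a : ℕ) (h : Fin g → ℕ) (i : Fin g) {p : ℕ} (hp : p.Prime)
    (hpa : ¬ p ∣ a) : rootCount (lin a h i) p ≤ 1 := by
  refine (w3_rootCount hp ?_).trans (by unfold lin; exact natDegree_linear_le)
  intro h0
  have h1 := congrArg (fun f => f.coeff 1) h0
  simp only [coeff_map, lin, coeff_zero] at h1
  simp at h1
  exact hpa ((ZMod.natCast_eq_zero_iff a p).mp h1)

theorem w3_G_rc (G : ℤ[X]) (hG : 1 ≤ G.natDegree) (N : ℕ) {p : ℕ} (hp : p.Prime)
    (hpl : ¬ (p : ℤ) ∣ G.leadingCoeff) : rootCount (C (N : ℤ) - G) p ≤ G.natDegree := by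
  have hd : (C (N : ℤ) - G).natDegree ≤ G.natDegree := by
    refine (natDegree_sub_le _ _).trans ?_
    simp
  refine (w3_rootCount hp ?_).trans hd
  intro h0
  have h1 := congrArg (fun f => f.coeff G.natDegree) h0
  simp only [coeff_map, coeff_zero, coeff_sub, coeff_C] at h1
  rw [if_neg (by omega)] at h1
  simp only [zero_sub, eq_intCast, Int.cast_neg, neg_eq_zero] at h1
  exact hpl ((ZMod.intCast_zmod_eq_zero_iff_dvd _ _).mp h1)

theorem w3_p_le (G : ℤ[X]) (hG : 1 ≤ G.natDegree) (hlc : 0 < G.leadingCoeff) (a g : ℕ) (ha : 1 ≤ a)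
    (N : ℕ) (h : Fin g → ℕ) {p : ℕ} (hp : p.Prime)
    (hall : ∀ n : ℤ, (p : ℤ) ∣ ((∏ i, lin a h i) * (C (N : ℤ) - G)).eval n) :
    p ≤ g + G.natDegree + a + G.leadingCoeff.toNat := by
  by_cases hpa : p ∣ a
  · have := Nat.le_of_dvd (by omega) hpa
    omega
  by_cases hpl : (p : ℤ) ∣ G.leadingCoeff
  · have := Int.le_of_dvd hlc hpl
    omega
  have h1 : rootCount ((∏ i, lin a h i) * (C (N : ℤ) - G)) p = p := by
    unfold rootCount
    rw [filter_true_of_mem (fun (b : ℕ) _ => hall (b : ℤ)), card_range]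
  have h2 := (Pool.Agent.Lib.H59.rootCount_mul_le (∏ i, lin a h i) (C (N : ℤ) - G) hp)
  have h3 := (Pool.Agent.Lib.H59.rootCount_prod_le univ (lin a h) hp)
  have h4 : ∑ i, rootCount (lin a h i) p ≤ ∑ _i : Fin g, 1 :=
    sum_le_sum fun i _ => w3_lin_rc a h i hp hpa
  rw [sum_const, card_univ, Fintype.card_fin, smul_eq_mul, mul_one] at h4
  have h5 := w3_G_rc G hG N hp hpl
  omega

/-- Proof. Let `p` be a prime dividing all values of `∏ (a x + h_i) (N - G)`. If `p` divides neither `a` nor `lc(G)` then this polynomial is not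
zero modulo `p` and has degree `g + deg G`, so it has at most `g + deg G` roots modulo `p`, hence `p ≤ g + deg G`. So
`p ≤ B₀ = g + deg G + a + lc(G)` in all cases. If `n` is counted by `primeCount (lin a h) G N` then `p` divides one of the primes `a n + h_i`,
`N - G(n)`, so it is equal to it: `a n + h_i = p` gives `n ≤ p ≤ B₀`, and `N - G(n) = p` has at most `deg G` solutions `n`
(`G - C (N - p)` is not zero). So `B = B₀ + deg G`. -/
theorem nonadm (G : ℤ[X]) (hG : 1 ≤ G.natDegree) (hlc : 0 < G.leadingCoeff) (a g : ℕ) (ha : 1 ≤ a) :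
    ∃ B : ℕ, ∀ (N : ℕ) (h : Fin g → ℕ), Irreducible (C (N : ℤ) - G) →
      ¬ Admissible (lin a h) G N → primeCount (lin a h) G N ≤ B := by
  classical
  refine ⟨(g + G.natDegree + a + G.leadingCoeff.toNat) + G.natDegree, ?_⟩
  intro N h hirr hna
  set B0 := g + G.natDegree + a + G.leadingCoeff.toNat with hB0
  unfold Admissible at hna
  push Not at hna
  obtain ⟨p, hp, hall⟩ := hna hirr
  have hpB := w3_p_le G hG hlc a g ha N h hp hall
  have hne : G - C ((N : ℤ) - p) ≠ 0 := by
    intro h0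
    have h1 : G = C ((N : ℤ) - p) := sub_eq_zero.mp h0
    rw [h1, natDegree_C] at hG
    omega
  set R : Finset ℤ := (G - C ((N : ℤ) - p)).roots.toFinset with hR
  have hRc : R.card ≤ G.natDegree := by
    refine (Multiset.toFinset_card_le _).trans ((card_roots' _).trans ?_)
    rw [natDegree_sub_C]
  set S : Finset ℕ := Icc 1 B0 ∪ R.image Int.toNat with hS
  have hSc : S.card ≤ B0 + G.natDegree := by
    refine (card_union_le _ _).trans ?_
    have h1 : (R.image Int.toNat).card ≤ R.card := card_image_le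
    rw [Nat.card_Icc]
    omega
  refine le_trans ?_ hSc
  unfold primeCount
  rw [← Set.ncard_coe_finset]
  refine Set.ncard_le_ncard ?_ (finite_toSet S)
  rintro n ⟨hn1, hn2, q, hq, hq2⟩
  have hn0 : 0 < n := hn1.1
  rw [hS, mem_coe, mem_union, mem_Icc, mem_image]
  have hd := hall n
  rw [eval_mul, eval_prod, eval_sub, eval_C, hq2] at hd
  have hpZ := Nat.prime_iff_prime_int.mp hp
  rcases hpZ.dvd_or_dvd hd with h1 | h1
  · obtain ⟨i, -, hi⟩ := (hpZ.dvd_finsetProd_iff _).mp h1
    obtain ⟨r, hr, hr2⟩ := hn2 i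
    rw [hr2] at hi
    have h2 : p = r := (Nat.prime_dvd_prime_iff_eq hp hr).mp (by exact_mod_cast hi)
    rw [w3_eval] at hr2
    have h3 : a * n + h i = r := by exact_mod_cast hr2
    have h4 : n ≤ a * n := Nat.le_mul_of_pos_left n (by omega)
    left
    exact ⟨hn0, by omega⟩
  · have h2 : p = q := (Nat.prime_dvd_prime_iff_eq hp hq).mp (by exact_mod_cast h1)
    right
    refine ⟨(n : ℤ), ?_, by simp⟩
    rw [hR, Multiset.mem_toFinset, mem_roots hne, IsRoot.def, eval_sub, eval_C, h2]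
    linarith

/-- Proof. `#Tup g L ≤ (L + 1)^g` (`Fintype.card_piFinset`). -/
theorem card_tup (g L : ℕ) : (Tup g L).card ≤ (L + 1) ^ g := by
  classical
  unfold Tup
  refine (card_filter_le _ _).trans ?_
  rw [Fintype.card_piFinset]
  simp

end Pool.Agent.Lib.H59W
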