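import Pool.Agent.Lib.H59W.Defs

/-!
# Chunk W4: the mean of the singular series over the tuples
-/

open Finset Polynomial

namespace Pool.Agent.Lib.H59W

open Pool.Agent.Lib.H59 (argSet argCount Admissible primeCount omegaN seriesTrunc rootCount)

theorem w4_PW (w : ℕ) : H33B.PW (w + 1) = primorial w := rfl

theorem w4_shift (P c : ℕ) :
    ((range P).filter (fun h : ℕ => P.Coprime (c + h))).card = P.totient := by
  rw [← Nat.filter_coprime_Ico_eq_totient P c]
  refine card_bij (fun h _ => c + h) ?_ ?_ ?_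
  · intro h hh
    rw [mem_filter, mem_range] at hh
    rw [mem_filter, mem_Ico]
    exact ⟨⟨by omega, by omega⟩, hh.2⟩
  · intro h _ h' _ e
    omega
  · intro x hx
    rw [mem_filter, mem_Ico] at hx
    refine ⟨x - c, ?_, by omega⟩
    rw [mem_filter, mem_range]
    refine ⟨by omega, ?_⟩
    rw [show c + (x - c) = x by omega]
    exact hx.2

theorem w4_shiftM (P M c : ℕ) :
    ((range (M * P)).filter (fun h : ℕ => P.Coprime (c + h))).card = M * P.totient := by
  induction M with
  | zero => simp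
  | succ M ih =>
    rw [card_filter] at ih ⊢
    rw [show (M + 1) * P = M * P + P by ring, sum_range_add, ih]
    have h1 := w4_shift P (c + M * P)
    rw [card_filter] at h1
    have h2 : ∑ x ∈ range P, (if P.Coprime (c + (M * P + x)) then 1 else 0) = P.totient := by
      rw [← h1]
      refine sum_congr rfl fun x _ => ?_
      rw [add_assoc]
    rw [h2]
    ring

theorem w4_cop (P : ℕ) (m : ℕ) : IsCoprime (m : ℤ) (P : ℤ) ↔ P.Coprime m := by
  rw [Nat.isCoprime_iff_coprime, Nat.coprime_comm]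

open Classical in
theorem w4_shiftI (P M a b : ℕ) :
    ((range (M * P)).filter (fun h : ℕ => IsCoprime ((a : ℤ) * b + h) (P : ℤ))).card = M * P.totient := by
  rw [← w4_shiftM P M (a * b)]
  congr 1
  refine filter_congr fun h _ => ?_
  rw [← w4_cop]
  push_cast
  rfl

theorem w4_ev {g : ℕ} (a : ℕ) (h : Fin g → ℕ) (G : ℤ[X]) (N : ℕ) (b : ℕ) :
    ((∏ i, lin a h i) * (C (N : ℤ) - G)).eval (b : ℤ) =
      (∏ i, ((a : ℤ) * b + h i)) * ((N : ℤ) - G.eval (b : ℤ)) := by
  rw [eval_mul, eval_prod, eval_sub, eval_C]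
  congr 1
  refine prod_congr rfl fun i _ => ?_
  simp [lin]

open Classical in
theorem w4_count (G : ℤ[X]) (a g N P M : ℕ) :
    ∑ h ∈ Fintype.piFinset (fun _ : Fin g => range (M * P)),
      (((range P).filter (fun b : ℕ =>
        IsCoprime (((∏ i, lin a h i) * (C (N : ℤ) - G)).eval (b : ℤ)) (P : ℤ))).card : ℝ) =
      (gN 1 G N P).card * ((M : ℝ) * P.totient) ^ g := by
  have h1 : ∀ h : Fin g → ℕ, (((range P).filter (fun b : ℕ =>
        IsCoprime (((∏ i, lin a h i) * (C (N : ℤ) - G)).eval (b : ℤ)) (P : ℤ))).card : ℝ) =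
      ∑ b ∈ range P, (if IsCoprime ((N : ℤ) - G.eval (b : ℤ)) (P : ℤ) then (1 : ℝ) else 0) *
        ∏ i, (if IsCoprime ((a : ℤ) * b + h i) (P : ℤ) then (1 : ℝ) else 0) := by
    intro h
    rw [card_filter, Nat.cast_sum]
    refine sum_congr rfl fun b _ => ?_
    rw [w4_ev, prod_ite_zero, prod_const_one]
    have h2 : IsCoprime ((∏ i, ((a : ℤ) * b + h i)) * ((N : ℤ) - G.eval (b : ℤ))) (P : ℤ) ↔
        (IsCoprime ((N : ℤ) - G.eval (b : ℤ)) (P : ℤ) ∧
          ∀ i ∈ (univ : Finset (Fin g)), IsCoprime ((a : ℤ) * b + h i) (P : ℤ)) := by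
      rw [IsCoprime.mul_left_iff, IsCoprime.prod_left_iff, and_comm]
    by_cases hA : IsCoprime ((N : ℤ) - G.eval (b : ℤ)) (P : ℤ)
    · by_cases hB : ∀ i ∈ (univ : Finset (Fin g)), IsCoprime ((a : ℤ) * b + h i) (P : ℤ)
      · rw [if_pos (h2.mpr ⟨hA, hB⟩), if_pos hA, if_pos hB]
        simp
      · rw [if_neg (fun hc => hB (h2.mp hc).2), if_neg hB]
        simp
    · rw [if_neg (fun hc => hA (h2.mp hc).1), if_neg hA]
      simp
  rw [sum_congr rfl (fun h _ => h1 h), sum_comm]
  have h3 : ∀ b : ℕ, ∑ h ∈ Fintype.piFinset (fun _ : Fin g => range (M * P)),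
      (if IsCoprime ((N : ℤ) - G.eval (b : ℤ)) (P : ℤ) then (1 : ℝ) else 0) *
        ∏ i, (if IsCoprime ((a : ℤ) * b + h i) (P : ℤ) then (1 : ℝ) else 0) =
      (if IsCoprime ((N : ℤ) - G.eval (b : ℤ)) (P : ℤ) then (1 : ℝ) else 0) *
        ((M : ℝ) * P.totient) ^ g := by
    intro b
    rw [← mul_sum]
    congr 1
    have h4 := Finset.prod_univ_sum (fun _ : Fin g => range (M * P))
      (fun (_ : Fin g) (j : ℕ) => (if IsCoprime ((a : ℤ) * b + j) (P : ℤ) then (1 : ℝ) else 0))
    rw [← h4, prod_const, card_univ, Fintype.card_fin]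
    congr 1
    have h5 := w4_shiftI P M a b
    rw [card_filter] at h5
    have h6 := congrArg (fun t : ℕ => (t : ℝ)) h5
    push_cast at h6
    exact h6
  rw [sum_congr rfl (fun b _ => h3 b), ← sum_mul]
  congr 1
  have h7 : gN 1 G N P = (range P).filter (fun b : ℕ => IsCoprime ((N : ℤ) - G.eval (b : ℤ)) (P : ℤ)) := by
    ext b
    simp only [gN, gd, mem_filter, eval_one]
    constructor
    · rintro ⟨⟨h1, -⟩, h2⟩
      exact ⟨h1, h2⟩
    · rintro ⟨h1, h2⟩
      exact ⟨⟨h1, isCoprime_one_left⟩, h2⟩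
  rw [h7, card_filter, Nat.cast_sum]
  refine sum_congr rfl fun b _ => ?_
  split_ifs <;> simp

theorem w4_periodM (G : ℤ[X]) (a g N w M : ℕ) :
    ∑ h ∈ Fintype.piFinset (fun _ : Fin g => range (M * primorial w)),
        seriesTrunc (lin a h) G N (w + 1) =
      ((M : ℝ) * primorial w) ^ g * (((gN 1 G N (primorial w)).card : ℝ) / (primorial w).totient) := by
  classical
  have h1 : ∀ h : Fin g → ℕ, seriesTrunc (lin a h) G N (w + 1) =
      ((primorial w : ℝ) / Nat.totient (primorial w)) ^ (g + 1) / primorial w *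
      (((range (primorial w)).filter (fun b : ℕ =>
        IsCoprime (((∏ i, lin a h i) * (C (N : ℤ) - G)).eval (b : ℤ)) (primorial w : ℤ))).card : ℝ) := by
    intro h
    rw [H33B.series_count, w4_PW, mul_div_assoc', div_mul_eq_mul_div]
  rw [sum_congr rfl (fun h _ => h1 h), ← mul_sum]
  have h2 := w4_count G a g N (primorial w) M
  have h3 : ∑ h ∈ Fintype.piFinset (fun _ : Fin g => range (M * primorial w)),
      (((range (primorial w)).filter (fun b : ℕ =>
        IsCoprime (((∏ i, lin a h i) * (C (N : ℤ) - G)).eval (b : ℤ)) (primorial w : ℤ))).card : ℝ) =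
      (gN 1 G N (primorial w)).card * ((M : ℝ) * (primorial w).totient) ^ g := by
    rw [← h2]
  rw [h3]
  have hP : (0 : ℝ) < primorial w := by exact_mod_cast primorial_pos w
  have hφ : (0 : ℝ) < (primorial w).totient := by
    exact_mod_cast Nat.totient_pos.mpr (primorial_pos w)
  rw [div_pow, mul_pow, mul_pow, pow_succ, pow_succ]
  field_simp

/-- Proof. `P = primorial w = H33B.PW (w + 1)`. `H33B.series_count`: `seriesTrunc (lin a h) G N (w + 1) = (P/φ(P))^(g+1) (1/P) #{v < P :
∏ (a v + h_i) (N - G(v))` prime to `P}`. Summing over all `h ∈ [0, P)^g`: `∑_v 1[N - G(v) prime to P] ∏_i #{h_i < P : a v + h_i prime to P}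
= #gN 1 G N P · φ(P)^g`, so the sum of `seriesTrunc` over a full period is `P^g #gN/φ(P)`. -/
theorem series_period (G : ℤ[X]) (a g N w : ℕ) :
    ∑ h ∈ Fintype.piFinset (fun _ : Fin g => range (primorial w)), seriesTrunc (lin a h) G N (w + 1) =
      (primorial w : ℝ) ^ g * (((gN 1 G N (primorial w)).card : ℝ) / (primorial w).totient) := by
  have h1 := w4_periodM G a g N w 1
  rw [one_mul, Nat.cast_one, one_mul] at h1
  exact h1

/-- Proof. Drop `StrictMono` (the terms are `≥ 0`, `H33B.series_nonneg`). `seriesTrunc (lin a h) G N (w + 1)` depends only on the residues of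
the `h_i` modulo `P`; every residue has at most `L/P + 1` representatives in `[0, L]`, so the sum is at most
`(L/P + 1)^g ≤ ((L + P)/P)^g` times the sum over a period. -/
theorem series_mean (G : ℤ[X]) (a g L N w : ℕ) :
    ∑ h ∈ Tup g L, seriesTrunc (lin a h) G N (w + 1) ≤
      ((L : ℝ) + primorial w) ^ g * (((gN 1 G N (primorial w)).card : ℝ) / (primorial w).totient) := by
  classical
  set P := primorial w with hP
  have hP0 : 0 < P := primorial_pos w
  set M := L / P + 1 with hM
  have hML : L + 1 ≤ M * P := by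
    have h1 := Nat.lt_div_mul_add hP0 (a := L)
    rw [hM, add_mul, one_mul]
    omega
  have hML2 : M * P ≤ L + P := by
    rw [hM, add_mul, one_mul]
    have := Nat.div_mul_le_self L P
    omega
  have h1 : Tup g L ⊆ Fintype.piFinset (fun _ : Fin g => range (M * P)) := by
    intro h hh
    unfold Tup at hh
    rw [mem_filter, Fintype.mem_piFinset] at hh
    rw [Fintype.mem_piFinset]
    intro i
    have := hh.1 i
    rw [mem_range] at this ⊢
    omega
  refine (sum_le_sum_of_subset_of_nonneg h1 (fun h _ _ => H33B.series_nonneg _ _ _ _)).trans ?_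
  rw [w4_periodM G a g N w M]
  refine mul_le_mul_of_nonneg_right ?_ (by positivity)
  refine pow_le_pow_left₀ (by positivity) ?_ g
  exact_mod_cast hML2

end Pool.Agent.Lib.H59W
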