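import Pool.Agent.Lib.H59W.W3
import Pool.Agent.Lib.H59W.W4
import Pool.Agent.Lib.H59W.W5

/-!
# Chunk W6: the average over the shifts
-/

open Finset Polynomial

namespace Pool.Agent.Lib.H59W

open Pool.Agent.Lib.H59 (argSet argCount Admissible primeCount omegaN seriesTrunc rootCount)

open Classical in
/-- The tuples `0 ≤ h_1 < ⋯ < h_g ≤ λ log X(N)` for which `N` is admissible. -/
noncomputable def AdmTup (g a : ℕ) (lam : ℝ) (G : ℤ[X]) (N : ℕ) : Finset (Fin g → ℕ) :=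
  (Tup g ⌊lam * Real.log (argCount G N)⌋₊).filter (fun h => Admissible (lin a h) G N)

/-- The main term of Schinzel's formula for `lin a h`, the series cut off at `z`. -/
noncomputable def mt {g : ℕ} (a : ℕ) (h : Fin g → ℕ) (G : ℤ[X]) (N z : ℕ) : ℝ :=
  (argCount G N : ℝ) / Real.log (argCount G N) ^ (g + 1) * (G.natDegree : ℝ)⁻¹ *
    seriesTrunc (lin a h) G N z

theorem w6_bcnt {Q A : ℕ → Prop} (Y : ℕ) (h : ∀ N, Y / 2 < N → N ≤ Y → Q N → A N) :
    bcnt Q Y ≤ bcnt A Y := by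
  classical
  unfold bcnt
  refine card_le_card fun N hN => ?_
  rw [mem_filter, mem_Ioc] at hN ⊢
  exact ⟨hN.1, h N hN.1.1 hN.1.2 hN.2⟩

theorem w6_cnt {A B : ℕ → Prop} {x y : ℕ} (hxy : x ≤ y) (h : ∀ n, A n → B n) :
    cnt A x ≤ cnt B y := by
  classical
  unfold cnt
  refine card_le_card fun n hn => ?_
  rw [mem_filter, mem_Icc] at hn ⊢
  exact ⟨⟨hn.1.1, hn.1.2.trans hxy⟩, h n hn.2⟩

theorem w6_ineq {SA cp E SM c1 A x X n φ lY lX lam : ℝ} {g : ℕ} (hc1 : 0 < c1) (hA : 1 ≤ A)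
    (hx : 0 < x) (hn : 0 < n) (hφ : 0 < φ) (hlY : 0 < lY) (hlX : 0 < lX)
    (hlam : 0 < lam) (h1 : c1 * (x * n) ≤ φ * (lY * cp)) (h2 : cp ≤ SA + E)
    (h3 : 2 * E * (φ * lY) ≤ c1 * (x * n))
    (h4 : SM ≤ X / lX ^ (g + 1) * ((2 * lam * lX) ^ g * (n / φ))) (h5 : X ≤ A * x)
    (h6 : lY ≤ A * lX) : c1 / (2 * (2 * lam) ^ g * A ^ 2) * SM ≤ SA := by
  have hA0 : 0 < A := by linarith
  have e1 : 2 * E ≤ cp := by
    have h7 : 2 * E * (φ * lY) ≤ cp * (φ * lY) := by linarith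
    exact le_of_mul_le_mul_right h7 (by positivity)
  have e2 : X / lX ^ (g + 1) * ((2 * lam * lX) ^ g * (n / φ)) =
      (2 * lam) ^ g * (X / lX) * (n / φ) := by
    rw [mul_pow (2 * lam) lX g, pow_succ]
    field_simp
  have e3 : X / lX ≤ A * x * A / lY := by
    rw [div_le_div_iff₀ hlX hlY]
    calc X * lY ≤ (A * x) * (A * lX) := mul_le_mul h5 h6 hlY.le (by positivity)
      _ = A * x * A * lX := by ring
  have e4 : SM ≤ (2 * lam) ^ g * (A * x * A / lY) * (n / φ) := by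
    rw [e2] at h4
    refine h4.trans ?_
    refine mul_le_mul_of_nonneg_right ?_ (by positivity)
    exact mul_le_mul_of_nonneg_left e3 (by positivity)
  calc c1 / (2 * (2 * lam) ^ g * A ^ 2) * SM ≤
      c1 / (2 * (2 * lam) ^ g * A ^ 2) * ((2 * lam) ^ g * (A * x * A / lY) * (n / φ)) :=
        mul_le_mul_of_nonneg_left e4 (by positivity)
    _ = c1 * (x * n) / (2 * (φ * lY)) := by
        field_simp
    _ ≤ cp / 2 := by
        rw [div_le_div_iff₀ (by positivity) (by norm_num)]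
        linarith
    _ ≤ SA := by linarith

/-- the configuration of equal intervals -/
theorem w6_conf (J : ℕ) (hJ : 1 ≤ J) (lam : ℝ) (hlam : 0 < lam) :
    H92G.Conf J (fun j : Fin J => (j : ℕ) * (lam / J)) (lam / J) lam := by
  have hJ0 : (0 : ℝ) < J := by exact_mod_cast hJ
  have he : 0 < lam / J := by positivity
  refine ⟨he, fun j => by positivity, fun j => ?_, fun j j' h => ?_⟩
  · have h1 : ((j : ℕ) : ℝ) + 1 ≤ J := by exact_mod_cast j.2
    calc ((j : ℕ) : ℝ) * (lam / J) + lam / J = (((j : ℕ) : ℝ) + 1) * (lam / J) := by ring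
      _ ≤ J * (lam / J) := mul_le_mul_of_nonneg_right h1 he.le
      _ = lam := by field_simp
  · have h1 : ((j : ℕ) : ℝ) + 1 ≤ ((j' : ℕ) : ℝ) := by exact_mod_cast h
    calc ((j : ℕ) : ℝ) * (lam / J) + lam / J = (((j : ℕ) : ℝ) + 1) * (lam / J) := by ring
      _ ≤ ((j' : ℕ) : ℝ) * (lam / J) := mul_le_mul_of_nonneg_right h1 he.le

theorem w6_log (K : ℝ) (hK : 0 ≤ K) (n : ℕ) : ∃ x0 : ℝ, ∀ x : ℝ, x0 ≤ x →
    K * Real.log x ^ n ≤ x := by
  have h1 := (Real.isLittleO_pow_log_id_atTop (n := n)).bound (c := 1 / (K + 1)) (by positivity)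
  obtain ⟨x0, hx0⟩ := Filter.eventually_atTop.1 h1
  refine ⟨max x0 1, fun x hx => ?_⟩
  have h2 := hx0 x ((le_max_left _ _).trans hx)
  have hx1 : 1 ≤ x := (le_max_right _ _).trans hx
  have hl : 0 ≤ Real.log x := Real.log_nonneg hx1
  rw [Real.norm_of_nonneg (by positivity), id_eq, Real.norm_of_nonneg (by linarith)] at h2
  have h3 : (K + 1) * Real.log x ^ n ≤ x := by
    have h4 := mul_le_mul_of_nonneg_left h2 (by positivity : 0 ≤ K + 1)
    have h5 : (K + 1) * (1 / (K + 1) * x) = x := by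
      field_simp
    rwa [h5] at h4
  have h4 : 0 ≤ Real.log x ^ n := by positivity
  nlinarith

/-- the sum of the main terms -/
theorem w6_mt (G : ℤ[X]) (hG : 1 ≤ G.natDegree) (g a N w : ℕ) (lam : ℝ)
    (hX : 0 < Real.log (argCount G N))
    (hP : (primorial w : ℝ) ≤ lam * Real.log (argCount G N)) (hlam : 0 < lam) :
    ∑ h ∈ AdmTup g a lam G N, mt a h G N (w + 1) ≤
      (argCount G N : ℝ) / Real.log (argCount G N) ^ (g + 1) *
        ((2 * lam * Real.log (argCount G N)) ^ g *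
          (((gN 1 G N (primorial w)).card : ℝ) / (primorial w).totient)) := by
  classical
  set lX := Real.log (argCount G N) with hlX
  have hdeg : (G.natDegree : ℝ)⁻¹ ≤ 1 := by
    have h1 : (1 : ℝ) ≤ G.natDegree := by exact_mod_cast hG
    exact inv_le_one_of_one_le₀ h1
  have hdeg0 : 0 ≤ (G.natDegree : ℝ)⁻¹ := by positivity
  have hc : 0 ≤ (argCount G N : ℝ) / lX ^ (g + 1) := by positivity
  have hser : ∀ h : Fin g → ℕ, 0 ≤ seriesTrunc (lin a h) G N (w + 1) := fun h =>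
    H33B.series_nonneg _ _ _ _
  have h1 : ∀ h ∈ AdmTup g a lam G N, mt a h G N (w + 1) ≤
      (argCount G N : ℝ) / lX ^ (g + 1) * seriesTrunc (lin a h) G N (w + 1) := by
    intro h _
    unfold mt
    refine mul_le_mul_of_nonneg_right ?_ (hser h)
    exact mul_le_of_le_one_right hc hdeg
  have hL : ((⌊lam * lX⌋₊ : ℕ) : ℝ) ≤ lam * lX := Nat.floor_le (by positivity)
  calc ∑ h ∈ AdmTup g a lam G N, mt a h G N (w + 1) ≤
      ∑ h ∈ AdmTup g a lam G N,
        (argCount G N : ℝ) / lX ^ (g + 1) * seriesTrunc (lin a h) G N (w + 1) := sum_le_sum h1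
    _ ≤ ∑ h ∈ Tup g ⌊lam * lX⌋₊,
        (argCount G N : ℝ) / lX ^ (g + 1) * seriesTrunc (lin a h) G N (w + 1) := by
        refine sum_le_sum_of_subset_of_nonneg (filter_subset _ _) fun h _ _ => ?_
        exact mul_nonneg hc (hser h)
    _ = (argCount G N : ℝ) / lX ^ (g + 1) *
        ∑ h ∈ Tup g ⌊lam * lX⌋₊, seriesTrunc (lin a h) G N (w + 1) := by rw [mul_sum]
    _ ≤ (argCount G N : ℝ) / lX ^ (g + 1) * ((((⌊lam * lX⌋₊ : ℕ) : ℝ) + primorial w) ^ g *
        (((gN 1 G N (primorial w)).card : ℝ) / (primorial w).totient)) :=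
        mul_le_mul_of_nonneg_left (series_mean G a g _ N w) hc
    _ ≤ _ := by
        refine mul_le_mul_of_nonneg_left ?_ hc
        refine mul_le_mul_of_nonneg_right ?_ (by positivity)
        refine pow_le_pow_left₀ (by positivity) ?_ g
        linarith

/-- the sum of the prime counts -/
theorem w6_pc (G : ℤ[X]) (g a N x X : ℕ) (lam : ℝ) (hXd : argCount G N = X) (hxX : x ≤ X)
    (hx1 : 1 ≤ x) (hlam : 0 < lam)
    (hset : ∀ n : ℕ, n ∈ argSet G N ↔ 1 ≤ n ∧ n ≤ X) (hg : 1 ≤ g) (B : ℕ)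
    (hB : ∀ h : Fin g → ℕ, ¬ Admissible (lin a h) G N → primeCount (lin a h) G N ≤ B)
    {J : ℕ} (β : Fin J → ℝ) (ε T : ℝ) :
    (cnt (fun n => Pat β ε lam (g - 1) T (Real.log x) (a * n) ∧ PG G N n) x : ℝ) ≤
      ∑ h ∈ AdmTup g a lam G N, (primeCount (lin a h) G N : ℝ) +
        (((⌊lam * Real.log X⌋₊ : ℕ) : ℝ) + 1) ^ g * B := by
  classical
  have h1 := tuple_sum G a g ⌊lam * Real.log X⌋₊ N X hset
  have h2 : cnt (fun n => Pat β ε lam (g - 1) T (Real.log x) (a * n) ∧ PG G N n) x ≤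
      cnt (fun n => g ≤ ((Ioc (a * n) (a * n + ⌊lam * Real.log X⌋₊)).filter Nat.Prime).card ∧
        PG G N n) X := by
    refine w6_cnt hxX fun n hn => ⟨?_, hn.2⟩
    have h3 := hn.1.many
    rw [Nat.sub_add_cancel hg] at h3
    refine h3.trans (card_le_card (filter_subset_filter _ (Ioc_subset_Ioc_right ?_)))
    refine Nat.add_le_add_left (Nat.floor_le_floor ?_) _
    refine mul_le_mul_of_nonneg_left ?_ hlam.le
    exact Real.log_le_log (by exact_mod_cast hx1) (by exact_mod_cast hxX)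
  have h3 : ∑ h ∈ Tup g ⌊lam * Real.log X⌋₊, primeCount (lin a h) G N ≤
      ∑ h ∈ AdmTup g a lam G N, primeCount (lin a h) G N + (⌊lam * Real.log X⌋₊ + 1) ^ g * B := by
    rw [← sum_filter_add_sum_filter_not (Tup g ⌊lam * Real.log X⌋₊)
      (fun h => Admissible (lin a h) G N)]
    unfold AdmTup
    rw [hXd]
    refine Nat.add_le_add (le_of_eq ?_) ?_
    · refine sum_congr ?_ fun _ _ => rfl
      ext h
      simp only [mem_filter]
    · calc ∑ h ∈ (Tup g ⌊lam * Real.log X⌋₊).filter (fun h => ¬ Admissible (lin a h) G N),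
            primeCount (lin a h) G N ≤
          ∑ _h ∈ (Tup g ⌊lam * Real.log X⌋₊).filter (fun h => ¬ Admissible (lin a h) G N), B :=
            sum_le_sum fun h hh => hB h (mem_filter.1 hh).2
        _ ≤ (Tup g ⌊lam * Real.log X⌋₊).card * B := by
            rw [sum_const, smul_eq_mul]
            exact Nat.mul_le_mul_right _ (card_filter_le _ _)
        _ ≤ _ := Nat.mul_le_mul_right _ (card_tup g _)
  have h4 := h2.trans (h1.trans h3)
  exact_mod_cast h4

/-- One dyadic block.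

Proof. `k = g - 1`, `δ = 1`, `J = J0`, `Λ = λ/2`, `β_j = j Λ/J`, `ε = Λ/J` (`Conf`), `c₁` from `pat_block`; `z₀ = w0 + 1 ≥ 2` and `w = z - 1` (`z = w + 1`).
Let `Y/2 < N ≤ Y` be not in the exceptional set of `pat_block` (`η`), `x = argCount G (Y/2)`, `X = argCount G N`. If `N - G` is reducible then
`AdmTup` is empty and both sides are `0`. If `#gN 1 G N P = 0` (`P = primorial w`) then all `seriesTrunc (lin a h) G N z = 0` (by `series_mean`, or directly),
and `0 ≤` the left hand side. Otherwise `c₁ x #gN ≤ φ(P) log Y cnt(..)`. For large `Y`: `x ≤ X ≤ C₁ x`, `log Y ≤ C₁ log X` (`H57M.argCount_bounds`,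
`argSet_eq`), every `n` counted has at least `g` primes in `(a n, a n + ⌊Λ log x⌋] ⊆ (a n, a n + L]`, `L = ⌊λ log X⌋`, and `n ∈ argSet G N`; by `tuple_sum` and
`nonadm`, `card_tup`: `∑_{AdmTup} primeCount ≥ cnt - B (L + 1)^g ≥ cnt/2`, since `cnt ≥ c₁ x/(P log Y)` is much larger than a power of `log`
(`#gN ≥ 1`). And `∑_{AdmTup} mt ≤ (X/(log X)^(g+1)) ∑_{Tup} seriesTrunc ≤ (X/(log X)^(g+1)) (L + P)^g #gN/φ(P) ≤ (2λ)^g (X/log X) #gN/φ(P)` for
`P ≤ λ log X`. With `c = c₁/(2 C₁^3 (2 λ)^g + 1)`-like constant, `∑ primeCount ≥ (c₁/2) x #gN/(φ(P) log Y) ≥ c ∑ mt`. -/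
theorem avg_block (G : ℤ[X]) (hG : 1 ≤ G.natDegree) (hlc : 0 < G.leadingCoeff) (g a : ℕ)
    (hg : 1 ≤ g) (ha : 1 ≤ a) (lam : ℝ) (hlam : 0 < lam) : ∃ c : ℝ, 0 < c ∧ ∀ η : ℝ, 0 < η →
    ∃ z0 : ℕ, ∀ z : ℕ, z0 ≤ z → ∃ Y0 : ℕ, ∀ Y : ℕ, Y0 ≤ Y →
      (bcnt (fun N : ℕ =>
        ∑ h ∈ AdmTup g a lam G N, (primeCount (lin a h) G N : ℝ) <
          c * ∑ h ∈ AdmTup g a lam G N, mt a h G N z) Y : ℝ) ≤ η * Y := by
  classical
  obtain ⟨J, hJ1, hpb⟩ := pat_block (g - 1) 1 one_pos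
  obtain ⟨c1, hc1, hblk⟩ := hpb J (fun j : Fin J => (j : ℕ) * (lam / J)) (lam / J) lam le_rfl
    (w6_conf J hJ1 lam hlam) a ha
  obtain ⟨A, hA, hsc⟩ := H57M.Q2_scale G hG hlc
  obtain ⟨B, hB⟩ := nonadm G hG hlc a g ha
  obtain ⟨Y1, hset⟩ := H57M.argSet_eq G hG hlc
  have hA0 : 0 < A := by linarith
  refine ⟨c1 / (2 * (2 * lam) ^ g * A ^ 2), by positivity, fun η hη => ?_⟩
  obtain ⟨w0, hw0⟩ := hblk G hG hlc η hη
  refine ⟨w0 + 1, fun z hz => ?_⟩
  obtain ⟨w, rfl⟩ : ∃ w, z = w + 1 := ⟨z - 1, by omega⟩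
  obtain ⟨Y2, hY2⟩ := hw0 w (by omega)
  have hP1 : 1 ≤ primorial w := primorial_pos w
  have hP0 : (0 : ℝ) < primorial w := by exact_mod_cast hP1
  obtain ⟨x00, hx00⟩ := w6_log (2 * B * primorial w * A * (2 * lam + 1) ^ g / c1) (by positivity)
    (g + 1)
  obtain ⟨Y3, hY3⟩ := hsc (max (max x00 1) (max (primorial w / lam) (Real.log A)))
  refine ⟨max (max 4 (2 * Y1 + 2)) (max Y2 Y3), fun Y hY => ?_⟩
  have f1 : 4 ≤ Y := ((le_max_left _ _).trans (le_max_left _ _)).trans hY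
  have f2 : 2 * Y1 + 2 ≤ Y := ((le_max_right _ _).trans (le_max_left _ _)).trans hY
  have f3 : Y2 ≤ Y := ((le_max_left _ _).trans (le_max_right _ _)).trans hY
  have f4 : Y3 ≤ Y := ((le_max_right _ _).trans (le_max_right _ _)).trans hY
  refine le_trans ?_ (hY2 Y f3)
  obtain ⟨g1, g2, g3, _, g5, _, g7⟩ := hY3 Y f4
  obtain ⟨x, hx⟩ : ∃ x : ℕ, argCount G (Y / 2) = x := ⟨_, rfl⟩
  rw [hx] at g1 g2 g3 g5 g7 ⊢
  have hx60 : ((x / 60 : ℕ) : ℝ) ≤ x := by exact_mod_cast Nat.div_le_self x 60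
  have hm1 : max x00 1 ≤ ((x / 60 : ℕ) : ℝ) := (le_max_left _ _).trans g1
  have hxx : x00 ≤ x := ((le_max_left _ _).trans hm1).trans hx60
  have hx60' : (1 : ℝ) ≤ ((x / 60 : ℕ) : ℝ) := (le_max_right _ _).trans hm1
  have hx1 : (1 : ℝ) ≤ x := hx60'.trans hx60
  have hx0 : (0 : ℝ) < x := by linarith
  have hx1' : 1 ≤ x := by exact_mod_cast hx1
  have hlog60 : Real.log ((x / 60 : ℕ) : ℝ) ≤ Real.log x := Real.log_le_log (by linarith) hx60
  have hl1 : 1 ≤ Real.log x :=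
    (((le_max_right _ _).trans (le_max_left _ _)).trans g2).trans hlog60
  have hlP : primorial w / lam ≤ Real.log x :=
    (((le_max_left _ _).trans (le_max_right _ _)).trans g2).trans hlog60
  have hlA : Real.log A ≤ Real.log x :=
    (((le_max_right _ _).trans (le_max_right _ _)).trans g2).trans hlog60
  have hYl : Real.log Y ≤ A * Real.log x := g5.trans (mul_le_mul_of_nonneg_left hlog60 hA0.le)
  have hY0 : 0 < Real.log Y := Real.log_pos (by exact_mod_cast (by omega : 1 < Y))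
  have key := w6_bcnt (Q := fun N : ℕ =>
        ∑ h ∈ AdmTup g a lam G N, (primeCount (lin a h) G N : ℝ) <
          c1 / (2 * (2 * lam) ^ g * A ^ 2) * ∑ h ∈ AdmTup g a lam G N, mt a h G N (w + 1))
      (A := fun N : ℕ => 0 < (gN 1 G N (primorial w)).card ∧
        ((primorial w).totient : ℝ) * (Real.log Y *
          (cnt (fun n => Pat (fun j : Fin J => (j : ℕ) * (lam / J)) (lam / J) lam (g - 1)
            ((x : ℝ) ^ (1 : ℝ)) (Real.log x) (a * n) ∧ PG G N n) x : ℝ)) <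
        c1 * ((x : ℝ) * (gN 1 G N (primorial w)).card)) Y ?_
  · exact_mod_cast key
  intro N hN1 hN2 hN
  obtain ⟨i1, i2, _⟩ := g7 N hN1.le hN2
  obtain ⟨X, hX⟩ : ∃ X : ℕ, argCount G N = X := ⟨_, rfl⟩
  rw [hX] at i1 i2
  have hxX : (x : ℝ) ≤ X := by exact_mod_cast i1
  have hX0 : (0 : ℝ) < X := by linarith
  have hXA : (X : ℝ) ≤ A * x := by
    have i2' : (X : ℝ) ≤ argCount G Y := by exact_mod_cast i2
    refine i2'.trans (g3.trans ?_)
    exact mul_le_mul_of_nonneg_left hx60 hA0.le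
  have hlX : Real.log x ≤ Real.log X := Real.log_le_log hx0 hxX
  have hlX0 : 0 < Real.log X := by linarith
  have hlXu : Real.log X ≤ 2 * Real.log x := by
    have h1 := Real.log_le_log hX0 hXA
    rw [Real.log_mul hA0.ne' hx0.ne'] at h1
    linarith
  have hPX : (primorial w : ℝ) ≤ lam * Real.log X := by
    have h1 : primorial w / lam ≤ Real.log X := hlP.trans hlX
    rw [div_le_iff₀ hlam] at h1
    linarith
  have hSM := w6_mt G hG g a N w lam (by rw [hX]; exact hlX0) (by rw [hX]; exact hPX) hlam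
  rw [hX] at hSM
  have hSA0 : 0 ≤ ∑ h ∈ AdmTup g a lam G N, (primeCount (lin a h) G N : ℝ) :=
    sum_nonneg fun h _ => Nat.cast_nonneg _
  have hcc : 0 < c1 / (2 * (2 * lam) ^ g * A ^ 2) := by positivity
  have hφ : (0 : ℝ) < (primorial w).totient := by exact_mod_cast Nat.totient_pos.2 hP1
  have hirr : Irreducible (C (N : ℤ) - G) := by
    by_contra hirr
    have h1 : AdmTup g a lam G N = ∅ := by
      unfold AdmTup
      rw [filter_eq_empty_iff]
      exact fun h _ hh => hirr hh.1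
    rw [h1] at hN
    simp at hN
  have hgN : 0 < (gN 1 G N (primorial w)).card := by
    rcases Nat.eq_zero_or_pos (gN 1 G N (primorial w)).card with h0 | h0
    · rw [h0] at hSM
      simp only [Nat.cast_zero, zero_div, mul_zero] at hSM
      have h1 := mul_nonpos_of_nonneg_of_nonpos hcc.le hSM
      linarith
    · exact h0
  refine ⟨hgN, ?_⟩
  by_contra hcon
  push Not at hcon
  have hgN' : (1 : ℝ) ≤ (gN 1 G N (primorial w)).card := by exact_mod_cast hgN
  have hpc := w6_pc G g a N x X lam hX i1 hx1' hlam (by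
    rw [← hX]
    exact hset N (by omega)) hg B (fun h hh => hB N h hirr hh)
    (fun j : Fin J => (j : ℕ) * (lam / J)) (lam / J) ((x : ℝ) ^ (1 : ℝ))
  refine absurd (w6_ineq hc1 hA hx0 (lt_of_lt_of_le one_pos hgN') hφ hY0 hlX0 hlam hcon hpc ?_
    hSM hXA (hYl.trans (mul_le_mul_of_nonneg_left hlX hA0.le))) (not_le.2 hN)
  have hL : ((⌊lam * Real.log X⌋₊ : ℕ) : ℝ) ≤ lam * Real.log X := Nat.floor_le (by positivity)
  have hE : (((⌊lam * Real.log X⌋₊ : ℕ) : ℝ) + 1) ^ g * B ≤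
      ((2 * lam + 1) * Real.log x) ^ g * B := by
    refine mul_le_mul_of_nonneg_right ?_ (Nat.cast_nonneg _)
    refine pow_le_pow_left₀ (by positivity) ?_ g
    nlinarith
  have hφP : ((primorial w).totient : ℝ) ≤ primorial w := by exact_mod_cast Nat.totient_le _
  have hgr := hx00 x hxx
  rw [div_mul_eq_mul_div, div_le_iff₀ hc1] at hgr
  calc 2 * ((((⌊lam * Real.log X⌋₊ : ℕ) : ℝ) + 1) ^ g * B) *
        (((primorial w).totient : ℝ) * Real.log Y) ≤
      2 * (((2 * lam + 1) * Real.log x) ^ g * B) * ((primorial w : ℝ) * (A * Real.log x)) := by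
        refine mul_le_mul (by linarith) ?_ (by positivity) (by positivity)
        exact mul_le_mul hφP hYl hY0.le hP0.le
    _ = 2 * B * primorial w * A * (2 * lam + 1) ^ g * Real.log x ^ (g + 1) := by
        rw [mul_pow, pow_succ]
        ring
    _ ≤ x * c1 := hgr
    _ ≤ c1 * ((x : ℝ) * (gN 1 G N (primorial w)).card) := by
        have h1 : (x : ℝ) * 1 ≤ x * (gN 1 G N (primorial w)).card :=
          mul_le_mul_of_nonneg_left hgN' hx0.le
        nlinarith

end Pool.Agent.Lib.H59W
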